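import Pool.Agent.MP_6026f4_co.Defs

section

namespace Pool.Agent.MP_6026f4_co

open MeasureTheory

/-- A measure on the real line that is carried by the nonnegative reals gives a Stieltjes moment
sequence. -/
theorem isStieltjesMoment_of_real {x : ℕ → ℝ} (μ : Measure ℝ) (h0 : ∀ᵐ t ∂μ, 0 ≤ t)
    (h : ∀ n : ℕ, Integrable (fun t : ℝ => t ^ n) μ ∧ ∫ t, t ^ n ∂μ = x n) :
    IsStieltjesMoment x := by
  refine ⟨μ.map Real.toNNReal, fun n => ?_⟩
  have hm : Measurable (fun t : NNReal => (t : ℝ) ^ n) := by fun_prop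
  have hae : (fun t : ℝ => ((Real.toNNReal t : NNReal) : ℝ) ^ n) =ᵐ[μ] fun t => t ^ n := by
    filter_upwards [h0] with t ht
    rw [Real.coe_toNNReal t ht]
  constructor
  · rw [integrable_map_measure hm.aestronglyMeasurable measurable_real_toNNReal.aemeasurable]
    exact (h n).1.congr hae.symm
  · rw [integral_map measurable_real_toNNReal.aemeasurable hm.aestronglyMeasurable,
      integral_congr_ae hae, (h n).2]

theorem IsStieltjesMoment.exists_real {x : ℕ → ℝ} (h : IsStieltjesMoment x) :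
    ∃ μ : Measure ℝ, (∀ᵐ t ∂μ, 0 ≤ t) ∧
      ∀ n : ℕ, Integrable (fun t : ℝ => t ^ n) μ ∧ ∫ t, t ^ n ∂μ = x n := by
  obtain ⟨μ, hμ⟩ := h
  have hc : Measurable ((↑) : NNReal → ℝ) := NNReal.continuous_coe.measurable
  refine ⟨μ.map (↑), ?_, fun n => ?_⟩
  · rw [ae_map_iff hc.aemeasurable measurableSet_Ici]
    exact Filter.Eventually.of_forall fun t => t.2
  · have hm : Measurable (fun t : ℝ => t ^ n) := by fun_prop
    constructor
    · rw [integrable_map_measure hm.aestronglyMeasurable hc.aemeasurable]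
      exact (hμ n).1
    · rw [integral_map hc.aemeasurable hm.aestronglyMeasurable]
      exact (hμ n).2

/-- Hankel forms of a Stieltjes moment sequence (any shift, any step) are nonnegative. -/
theorem IsStieltjesMoment.form_nonneg {x : ℕ → ℝ} (h : IsStieltjesMoment x) (K m d : ℕ)
    (c : ℕ → ℝ) :
    0 ≤ ∑ i ∈ Finset.range K, ∑ j ∈ Finset.range K, c i * c j * x (m + d * (i + j)) := by
  obtain ⟨μ, hμ⟩ := h
  have h1 : ∑ i ∈ Finset.range K, ∑ j ∈ Finset.range K, c i * c j * x (m + d * (i + j)) =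
      ∫ t : NNReal, (t : ℝ) ^ m * (∑ i ∈ Finset.range K, c i * (t : ℝ) ^ (d * i)) ^ 2 ∂μ := by
    have h2 : ∀ t : NNReal, (t : ℝ) ^ m * (∑ i ∈ Finset.range K, c i * (t : ℝ) ^ (d * i)) ^ 2 =
        ∑ i ∈ Finset.range K, ∑ j ∈ Finset.range K, c i * c j * (t : ℝ) ^ (m + d * (i + j)) := by
      intro t
      rw [sq, Finset.sum_mul_sum, Finset.mul_sum]
      refine Finset.sum_congr rfl fun i _ => ?_
      rw [Finset.mul_sum]
      refine Finset.sum_congr rfl fun j _ => ?_
      ring
    simp_rw [h2]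
    rw [integral_finset_sum _ fun i _ => integrable_finset_sum _ fun j _ => (hμ _).1.const_mul _]
    refine Finset.sum_congr rfl fun i _ => ?_
    rw [integral_finset_sum _ fun j _ => (hμ _).1.const_mul _]
    refine Finset.sum_congr rfl fun j _ => ?_
    rw [integral_const_mul, (hμ _).2]
  rw [h1]
  exact integral_nonneg fun t => by positivity

end Pool.Agent.MP_6026f4_co

end

section

namespace Pool.Agent.MP_6026f4_co

open MeasureTheory Polynomial Set Filter Topology
open scoped CompactlySupported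

/-- The linear functional on polynomials with prescribed values on monomials. -/
noncomputable def momFun (x : ℕ → ℝ) : ℝ[X] →ₗ[ℝ] ℝ :=
  (Polynomial.basisMonomials ℝ).constr ℝ x

theorem momFun_X_pow (x : ℕ → ℝ) (n : ℕ) : momFun x (X ^ n) = x n := by
  have h := (Polynomial.basisMonomials ℝ).constr_basis ℝ x n
  rw [Polynomial.coe_basisMonomials] at h
  simp only [] at h
  rw [Polynomial.X_pow_eq_monomial]
  exact h

theorem momFun_one (x : ℕ → ℝ) : momFun x 1 = x 0 := by
  have := momFun_X_pow x 0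
  rwa [pow_zero] at this

/-- A polynomial restricted to a compact interval. -/
noncomputable def polyC (R : ℝ) (p : ℝ[X]) : C_c(Icc (0 : ℝ) R, ℝ) :=
  CompactlySupportedContinuousMap.continuousMapEquiv
    ⟨fun t => p.eval (t : ℝ), p.continuous.comp continuous_subtype_val⟩

theorem polyC_apply (R : ℝ) (p : ℝ[X]) (t : Icc (0 : ℝ) R) : polyC R p t = p.eval (t : ℝ) := rfl

/-- The sum of a polynomial and a continuous function on a compact interval. -/
noncomputable def sumMap (R : ℝ) : (ℝ[X] × C_c(Icc (0 : ℝ) R, ℝ)) →ₗ[ℝ] (Icc (0 : ℝ) R → ℝ) where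
  toFun z := fun t => z.1.eval (t : ℝ) + z.2 t
  map_add' z w := by
    funext t
    simp
    ring
  map_smul' c z := by
    funext t
    simp
    ring

theorem isStieltjesMoment_of_pos (x : ℕ → ℝ) (R : ℝ)
    (h : ∀ p : ℝ[X], (∀ t ∈ Icc (0 : ℝ) R, 0 < p.eval t) → 0 ≤ momFun x p) :
    IsStieltjesMoment x := by
  have h' : ∀ p : ℝ[X], (∀ t ∈ Icc (0 : ℝ) R, 0 ≤ p.eval t) → 0 ≤ momFun x p := by
    intro p hp
    have h1 : ∀ ε : ℝ, 0 < ε → 0 ≤ momFun x p + ε * x 0 := by
      intro ε hε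
      have := h (p + ε • 1) fun t ht => by
        have := hp t ht
        simp only [eval_add, eval_smul, eval_one, smul_eq_mul, mul_one]
        linarith
      rwa [map_add, map_smul, momFun_one, smul_eq_mul] at this
    have h2 : Tendsto (fun ε : ℝ => momFun x p + ε * x 0) (𝓝[>] 0) (𝓝 (momFun x p + 0 * x 0)) :=
      (Continuous.tendsto (by fun_prop) 0).mono_left nhdsWithin_le_nhds
    have h3 := ge_of_tendsto h2 (eventually_nhdsWithin_of_forall fun ε hε => h1 ε hε)
    simpa using h3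
  let s : PointedCone ℝ (ℝ[X] × C_c(Icc (0 : ℝ) R, ℝ)) :=
    (PointedCone.positive ℝ (Icc (0 : ℝ) R → ℝ)).comap (sumMap R)
  have hs : ∀ z, z ∈ s ↔ ∀ t : Icc (0 : ℝ) R, 0 ≤ z.1.eval (t : ℝ) + z.2 t := fun z => Iff.rfl
  let f : (ℝ[X] × C_c(Icc (0 : ℝ) R, ℝ)) →ₗ.[ℝ] ℝ :=
    ((momFun x).comp (LinearMap.fst ℝ _ _)).toPMap (LinearMap.ker (LinearMap.snd ℝ _ _))
  obtain ⟨g, hg1, hg2⟩ := riesz_extension s f
    (by
      rintro ⟨z, hz⟩ hzs
      have hz' : z.2 = 0 := hz
      refine h' z.1 fun t ht => ?_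
      have := (hs z).1 hzs ⟨t, ht⟩
      simpa [hz'] using this)
    (by
      intro y
      have hc : Continuous fun t : Icc (0 : ℝ) R => y.1.eval (t : ℝ) + y.2 t :=
        (y.1.continuous.comp continuous_subtype_val).add y.2.continuous
      obtain ⟨m, hm⟩ := (isCompact_range hc).bddBelow
      refine ⟨⟨(C (-m), 0), rfl⟩, (hs _).2 fun t => ?_⟩
      have := hm ⟨t, rfl⟩
      simp only [Prod.fst_add, Prod.snd_add, zero_add, eval_add, eval_C]
      linarith)
  let G : C_c(Icc (0 : ℝ) R, ℝ) →ₚ[ℝ] ℝ :=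
    PositiveLinearMap.mk₀ (g.comp (LinearMap.inr ℝ _ _)) fun u hu =>
      hg2 _ ((hs _).2 fun t => by simpa using hu t)
  have hG : ∀ p : ℝ[X], G (polyC R p) = momFun x p := by
    intro p
    have e1 : g (p, 0) = momFun x p := hg1 ⟨(p, 0), rfl⟩
    have e2 := hg2 (p, -polyC R p) ((hs _).2 fun t => by simp [polyC_apply])
    have e3 := hg2 (-p, polyC R p) ((hs _).2 fun t => by simp [polyC_apply])
    have e4 : g (p, -polyC R p) = g (p, 0) - g (0, polyC R p) := by
      rw [← map_sub]; simp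
    have e5 : g (-p, polyC R p) = g (0, polyC R p) - g (p, 0) := by
      rw [← map_sub]; simp
    have e6 : G (polyC R p) = g (0, polyC R p) := rfl
    linarith
  let μ := RealRMK.rieszMeasure G
  have hval : Measurable ((↑) : Icc (0 : ℝ) R → ℝ) := measurable_subtype_coe
  refine isStieltjesMoment_of_real (μ.map (↑)) ?_ fun n => ?_
  · rw [ae_map_iff hval.aemeasurable measurableSet_Ici]
    exact Eventually.of_forall fun t => t.2.1
  · have hm : Measurable (fun t : ℝ => t ^ n) := by fun_prop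
    constructor
    · rw [integrable_map_measure hm.aestronglyMeasurable hval.aemeasurable]
      exact Continuous.integrable_of_hasCompactSupport (by fun_prop)
        (HasCompactSupport.of_compactSpace _)
    · rw [integral_map hval.aemeasurable hm.aestronglyMeasurable]
      have := RealRMK.integral_rieszMeasure G (polyC R (X ^ n))
      rw [hG, momFun_X_pow] at this
      rw [← this]
      simp [polyC_apply, μ]

/-- Three-term recurrence together with a maximum principle gives a moment sequence. -/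
theorem isStieltjesMoment_of_operator (x : ℕ → ℝ) (R : ℝ) (L : ℝ[X] →ₗ[ℝ] ℝ[X])
    (α β γ : ℕ → ℝ) (hα : ∀ n, α n ≠ 0) (h0 : 0 ≤ x 0)
    (hL : ∀ n, L (X ^ n) = α n • X ^ (n + 1) - β n • X ^ n + γ n • X ^ (n - 1))
    (hx : ∀ n, α n * x (n + 1) - β n * x n + γ n * x (n - 1) = 0)
    (hmax : ∀ f : ℝ[X], ¬ ∀ t ∈ Icc (0 : ℝ) R, 0 < (L f).eval t) :
    IsStieltjesMoment x := by
  have hzero : ∀ f, momFun x (L f) = 0 := by
    have : (momFun x).comp L = 0 := by
      refine (Polynomial.basisMonomials ℝ).ext fun n => ?_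
      rw [Polynomial.coe_basisMonomials]
      simp only [LinearMap.comp_apply, LinearMap.zero_apply]
      rw [← Polynomial.X_pow_eq_monomial, hL, map_add, map_sub, map_smul, map_smul, map_smul,
        momFun_X_pow, momFun_X_pow, momFun_X_pow]
      exact hx n
    intro f
    exact LinearMap.congr_fun this f
  let S : Submodule ℝ ℝ[X] := (Submodule.span ℝ {1}) ⊔ LinearMap.range L
  have hpow : ∀ n, (X : ℝ[X]) ^ n ∈ S := by
    intro n
    induction n using Nat.strong_induction_on with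
    | _ n ih =>
      rcases n with _ | n
      · rw [pow_zero]
        exact Submodule.mem_sup_left (Submodule.mem_span_singleton_self _)
      · have e : (X : ℝ[X]) ^ (n + 1) =
            (α n)⁻¹ • (L (X ^ n) + β n • X ^ n - γ n • X ^ (n - 1)) := by
          rw [hL]
          have : α n • (X : ℝ[X]) ^ (n + 1) - β n • X ^ n + γ n • X ^ (n - 1) + β n • X ^ n -
              γ n • X ^ (n - 1) = α n • X ^ (n + 1) := by abel
          rw [this, smul_smul, inv_mul_cancel₀ (hα n), one_smul]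
        rw [e]
        refine S.smul_mem _ (S.sub_mem (S.add_mem ?_ (S.smul_mem _ (ih n (by omega))))
          (S.smul_mem _ (ih (n - 1) (by omega))))
        exact Submodule.mem_sup_right ⟨_, rfl⟩
  have hall : ∀ g : ℝ[X], g ∈ S := by
    intro g
    induction g using Polynomial.induction_on' with
    | add p q hp hq => exact S.add_mem hp hq
    | monomial n a =>
      rw [← Polynomial.smul_X_eq_monomial]
      exact S.smul_mem _ (hpow n)
  refine isStieltjesMoment_of_pos x R fun g hg => ?_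
  obtain ⟨u, hu, v, ⟨f, rfl⟩, huv⟩ := Submodule.mem_sup.1 (hall g)
  obtain ⟨c, rfl⟩ := Submodule.mem_span_singleton.1 hu
  have hc : 0 < c := by
    by_contra hc
    refine hmax f fun t ht => ?_
    have := hg t ht
    rw [← huv] at this
    simp only [eval_add, eval_smul, eval_one, smul_eq_mul, mul_one] at this
    linarith [not_lt.1 hc]
  rw [← huv, map_add, hzero, map_smul, momFun_one, add_zero, smul_eq_mul]
  positivity

theorem exists_lt_right {u : ℝ → ℝ} {d x r : ℝ} (hu : HasDerivAt u d x) (hd : d < 0)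
    (hr : x < r) : ∃ y ∈ Ioo x r, u y < u x := by
  have h1 := hasDerivAt_iff_tendsto_slope_left_right.1 hu
  have h2 : ∀ᶠ y in 𝓝[>] x, slope u x y < 0 := h1.2.eventually (gt_mem_nhds hd)
  have h3 : ∀ᶠ y in 𝓝[>] x, y ∈ Ioo x r := Ioo_mem_nhdsGT hr
  obtain ⟨y, hy1, hy2⟩ := (h2.and h3).exists
  refine ⟨y, hy2, ?_⟩
  rw [slope_def_field, div_neg_iff] at hy1
  rcases hy1 with ⟨_, h⟩ | ⟨h, _⟩
  · linarith [hy2.1]
  · linarith

theorem exists_lt_left {u : ℝ → ℝ} {d x l : ℝ} (hu : HasDerivAt u d x) (hd : 0 < d)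
    (hl : l < x) : ∃ y ∈ Ioo l x, u y < u x := by
  have h1 := hasDerivAt_iff_tendsto_slope_left_right.1 hu
  have h2 : ∀ᶠ y in 𝓝[<] x, 0 < slope u x y := h1.1.eventually (lt_mem_nhds hd)
  have h3 : ∀ᶠ y in 𝓝[<] x, y ∈ Ioo l x := Ioo_mem_nhdsLT hl
  obtain ⟨y, hy1, hy2⟩ := (h2.and h3).exists
  refine ⟨y, hy2, ?_⟩
  rw [slope_def_field, div_pos_iff] at hy1
  rcases hy1 with ⟨_, h⟩ | ⟨h, _⟩
  · linarith [hy2.2]
  · linarith

/-- Minimum principle for a degenerate second order operator on a closed interval. -/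
theorem min_principle {u u1 u2 : ℝ → ℝ} {l r z A B : ℝ} (hlr : l < r) (hz : z ∈ Icc l r)
    (h1 : ∀ t ∈ Icc l r, HasDerivAt u (u1 t) t) (h2 : HasDerivAt u1 (u2 z) z)
    (hmin : ∀ t ∈ Icc l r, u z ≤ u t) (hA : A ≤ 0)
    (hl : z = l → A = 0 ∧ B ≤ 0) (hr : z = r → A = 0 ∧ 0 ≤ B) :
    A * u2 z + B * u1 z ≤ 0 := by
  have hright : z < r → 0 ≤ u1 z := by
    intro hzr
    by_contra hneg
    obtain ⟨y, hy, hy'⟩ := exists_lt_right (h1 z hz) (not_le.1 hneg) hzr
    linarith [hmin y ⟨hz.1.trans hy.1.le, hy.2.le⟩]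
  have hleft : l < z → u1 z ≤ 0 := by
    intro hlz
    by_contra hneg
    obtain ⟨y, hy, hy'⟩ := exists_lt_left (h1 z hz) (not_le.1 hneg) hlz
    linarith [hmin y ⟨hy.1.le, hy.2.le.trans hz.2⟩]
  rcases hz.1.eq_or_lt with e | hlz
  · obtain ⟨a0, b0⟩ := hl e.symm
    have := hright (e ▸ hlr)
    rw [a0]
    nlinarith
  rcases hz.2.eq_or_lt with e | hzr
  · obtain ⟨a0, b0⟩ := hr e
    have := hleft hlz
    rw [a0]
    nlinarith
  have hu1 : u1 z = 0 := le_antisymm (hleft hlz) (hright hzr)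
  have hu2 : 0 ≤ u2 z := by
    by_contra hneg
    have hneg' := not_le.1 hneg
    have h3 := hasDerivAt_iff_tendsto_slope_left_right.1 h2
    have h4 : ∀ᶠ y in 𝓝[>] z, slope u1 z y < 0 := h3.2.eventually (gt_mem_nhds hneg')
    obtain ⟨w, hw, hw'⟩ := (mem_nhdsGT_iff_exists_mem_Ioc_Ioo_subset hzr).1 h4
    obtain ⟨c, hc, hc'⟩ := exists_hasDerivAt_eq_slope u u1 hw.1
      (fun t ht => (h1 t ⟨hz.1.trans ht.1, ht.2.trans hw.2⟩).continuousAt.continuousWithinAt)
      (fun t ht => h1 t ⟨hz.1.trans ht.1.le, ht.2.le.trans hw.2⟩)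
    have h5 : slope u1 z c < 0 := hw' hc
    rw [slope_def_field, hu1, sub_zero, hc'] at h5
    have h6 := hmin w ⟨hz.1.trans hw.1.le, hw.2⟩
    have h7 : 0 ≤ (u w - u z) / (w - z) / (c - z) :=
      div_nonneg (div_nonneg (by linarith) (by linarith [hw.1])) (by linarith [hc.1])
    linarith
  rw [hu1]
  nlinarith

end Pool.Agent.MP_6026f4_co

end

section

namespace Pool.Agent.MP_6026f4_co

open MeasureTheory Polynomial Set Filter Topology

theorem ch1 (n j : ℕ) : (n.choose (j + 1) : ℝ) = n.choose j * (n - j) / (j + 1) := by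
  rw [eq_div_iff (by positivity)]
  rcases le_or_gt j n with h | h
  · have := Nat.choose_succ_right_eq n j
    rw [← Nat.cast_sub h]
    exact_mod_cast this
  · rw [Nat.choose_eq_zero_of_lt h, Nat.choose_eq_zero_of_lt (by omega)]
    simp

theorem ch2 (n j : ℕ) : ((n + 1).choose (j + 1) : ℝ) = n.choose j * (n + 1) / (j + 1) := by
  rw [eq_div_iff (by positivity)]
  have := Nat.add_one_mul_choose_eq n j
  rw [mul_comm (n.choose j : ℝ)]
  exact_mod_cast this.symm

theorem ch3 (m k : ℕ) : (m.choose k : ℝ) = (m + 1).choose k * (m + 1 - k) / (m + 1) := by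
  rw [eq_div_iff (by positivity)]
  rcases le_or_gt k (m + 1) with h | h
  · have := Nat.choose_mul_succ_eq m k
    have h2 : ((m : ℝ) + 1 - k) = ((m + 1 - k : ℕ) : ℝ) := by
      rw [Nat.cast_sub h]; push_cast; ring
    rw [h2]
    exact_mod_cast this
  · rw [Nat.choose_eq_zero_of_lt h, Nat.choose_eq_zero_of_lt (by omega)]
    simp

theorem ch4 (a k : ℕ) :
    ((a + k + 1).choose k : ℝ) = (a + k).choose k * (a + k + 1) / (a + 1) := by
  rw [ch3 (a + k) k]
  push_cast
  field_simp
  ring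

theorem six_binomials (m j : ℕ) :
    ((m + 1).choose (j + 1) : ℝ) = (m + 1).choose j * (m + 1 - j) / (j + 1) ∧
    ((m + 1 + 1).choose (j + 1) : ℝ) = (m + 1).choose j * (m + 2) / (j + 1) ∧
    (m.choose (j + 1) : ℝ) = (m + 1).choose j * (m + 1 - j) / (j + 1) * (m - j) / (m + 1) ∧
    ((m + 1 + (j + 1)).choose (j + 1) : ℝ) = (m + 1 + j).choose j * (m + j + 2) / (j + 1) ∧
    ((m + 1 + 1 + (j + 1)).choose (j + 1) : ℝ) =
      (m + 1 + j).choose j * (m + j + 2) / (j + 1) * (m + j + 3) / (m + 2) ∧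
    ((m + (j + 1)).choose (j + 1) : ℝ) = (m + 1 + j).choose j * (m + 1) / (j + 1) := by
  have e1 : ((m + 1).choose (j + 1) : ℝ) = (m + 1).choose j * (m + 1 - j) / (j + 1) := by
    rw [ch1]; push_cast; ring
  have e4 : ((m + 1 + (j + 1)).choose (j + 1) : ℝ) =
      (m + 1 + j).choose j * (m + j + 2) / (j + 1) := by
    rw [← add_assoc, ch2]; push_cast; ring
  refine ⟨e1, ?_, ?_, e4, ?_, ?_⟩
  · rw [ch2]; push_cast; ring
  · rw [ch3, e1]; push_cast; ring
  · rw [show m + 1 + 1 + (j + 1) = m + 1 + (j + 1) + 1 by ring, ch4, e4]; push_cast; ring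
  · rw [show m + (j + 1) = m + 1 + j by ring, ch1]; push_cast; ring

theorem apery_eq_sum (r s n N : ℕ) (hr : r ≠ 0) (h : n + 1 ≤ N) :
    (apery r s n : ℝ) =
      ∑ k ∈ Finset.range N, (n.choose k : ℝ) ^ r * ((n + k).choose k : ℝ) ^ s := by
  unfold apery
  push_cast
  refine Finset.sum_subset (Finset.range_subset_range.2 h) fun k _ hk => ?_
  rw [Nat.choose_eq_zero_of_lt (by simpa using hk)]
  simp [hr]

theorem delannoy_rec (m : ℕ) :
    ((m : ℝ) + 2) * apery 1 1 (m + 1 + 1) - (6 * m + 9) * apery 1 1 (m + 1) +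
      (m + 1) * apery 1 1 m = 0 := by
  rw [apery_eq_sum 1 1 (m + 1 + 1) (m + 3) one_ne_zero (by omega),
    apery_eq_sum 1 1 (m + 1) (m + 3) one_ne_zero (by omega),
    apery_eq_sum 1 1 m (m + 3) one_ne_zero (by omega), Finset.mul_sum, Finset.mul_sum,
    Finset.mul_sum, ← Finset.sum_sub_distrib, ← Finset.sum_add_distrib, Finset.sum_range_succ']
  set G : ℕ → ℝ := fun k =>
    -2 * (2 * m + 3) * ((m + 1).choose k : ℝ) * ((m + 1 + k).choose k : ℝ) with hG
  rw [Finset.sum_congr rfl (g := fun j => G (j + 1) - G j), Finset.sum_range_sub]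
  · simp only [hG]
    rw [Nat.choose_eq_zero_of_lt (by omega : m + 1 < m + 2)]
    simp
    ring
  · intro j _
    obtain ⟨e1, e2, e3, e4, e5, e6⟩ := six_binomials m j
    simp only [hG]
    rw [e1, e2, e3, e4, e5, e6]
    field_simp
    ring

/-- The first order operator attached to the Delannoy recurrence. -/
noncomputable def opD : ℝ[X] →ₗ[ℝ] ℝ[X] :=
  (LinearMap.mulLeft ℝ (X ^ 2 - 6 * X + 1)).comp derivative + LinearMap.mulLeft ℝ (X - 3)

theorem opD_eval (f : ℝ[X]) (t : ℝ) :
    (opD f).eval t = (t ^ 2 - 6 * t + 1) * f.derivative.eval t + (t - 3) * f.eval t := by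
  simp [opD]

theorem sm_one_one : IsStieltjesMoment (fun n => (apery 1 1 n : ℝ)) := by
  refine isStieltjesMoment_of_operator _ 6 opD (fun n => n + 1) (fun n => 6 * n + 3)
    (fun n => n) (fun n => by positivity) (by positivity) (fun n => ?_) (fun n => ?_) ?_
  · refine Polynomial.funext fun t => ?_
    rw [opD_eval]
    rcases n with _ | n
    · simp
    · simp
      ring
  · rcases n with _ | m
    · simp [apery, Finset.sum_range_succ]
    · have := delannoy_rec m
      simp only [Nat.add_sub_cancel]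
      push_cast
      linarith
  · intro f hf
    have hs : Real.sqrt 2 ^ 2 = 2 := Real.sq_sqrt (by norm_num)
    have hs0 : 0 < Real.sqrt 2 := Real.sqrt_pos.2 (by norm_num)
    have hs1 : Real.sqrt 2 < 3 / 2 := by nlinarith
    set a : ℝ := 3 - 2 * Real.sqrt 2 with ha
    set b : ℝ := 3 + 2 * Real.sqrt 2 with hb
    have hD : ∀ t : ℝ, -(t ^ 2 - 6 * t + 1) = (t - a) * (b - t) := by
      intro t
      rw [ha, hb]
      linear_combination (-4) * hs
    obtain ⟨c, hc, hc'⟩ := exists_hasDerivAt_eq_zero (a := a) (b := b)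
      (f := fun t => Real.sqrt (-(t ^ 2 - 6 * t + 1)) * f.eval t)
      (f' := fun t => (-(2 * t - 6)) / (2 * Real.sqrt (-(t ^ 2 - 6 * t + 1))) * f.eval t +
        Real.sqrt (-(t ^ 2 - 6 * t + 1)) * f.derivative.eval t)
      (by linarith) (Continuous.continuousOn (by fun_prop)) (by simp only [hD]; simp)
      (fun t ht => by
        have hpos : 0 < -(t ^ 2 - 6 * t + 1) := by
          rw [hD]; exact mul_pos (by linarith [ht.1]) (by linarith [ht.2])
        have h1 : HasDerivAt (fun t : ℝ => -(t ^ 2 - 6 * t + 1)) (-(2 * t - 6)) t := by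
          have := (((hasDerivAt_pow 2 t).fun_sub ((hasDerivAt_id' t).const_mul 6)).add_const
            1).fun_neg
          simpa using this
        exact (h1.sqrt hpos.ne').mul (f.hasDerivAt t))
    have hpos : 0 < -(c ^ 2 - 6 * c + 1) := by
      rw [hD]; exact mul_pos (by linarith [hc.1]) (by linarith [hc.2])
    have hw : 0 < Real.sqrt (-(c ^ 2 - 6 * c + 1)) := Real.sqrt_pos.2 hpos
    have hw2 := Real.sq_sqrt hpos.le
    have h3 := hf c ⟨by linarith [hc.1], by linarith [hc.2]⟩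
    rw [opD_eval] at h3
    set w := Real.sqrt (-(c ^ 2 - 6 * c + 1))
    have h4 : w * ((-(2 * c - 6)) / (2 * w) * f.eval c + w * f.derivative.eval c) =
        -((c ^ 2 - 6 * c + 1) * f.derivative.eval c + (c - 3) * f.eval c) := by
      have : w * ((-(2 * c - 6)) / (2 * w)) = -(c - 3) := by field_simp; ring
      linear_combination (f.eval c) * this + (f.derivative.eval c) * hw2
    rw [hc'] at h4
    linarith

end Pool.Agent.MP_6026f4_co

end
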