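import Pool.Agent.Mg.F6026f4p.Gb4facf

section

/- First regime: the bound on the normalised sum. -/

namespace Pool.Agent.MP_6026f4_co.Q
open Complex Metric

theorem geo0_QRegI (M N : ℕ) (t : ℕ → ℝ)
    (h1 : ∀ e < N, t (e + 1) ≤ 1.02 * t e) (h2 : ∀ e < N, M ≤ e → t (e + 1) ≤ 0.51 * t e) :
    ∀ e ≤ N, t e ≤ 2 ^ (min e M) * 0.51 ^ e * t 0 := by
  intro e
  induction e with
  | zero => intro _; simp
  | succ e ih =>
    intro he
    have ih' := ih (by omega)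
    rcases lt_or_ge e M with h | h
    · rw [min_eq_left h.le] at ih'
      rw [min_eq_left (by omega), pow_succ, pow_succ]
      have := h1 e (by omega)
      nlinarith
    · rw [min_eq_right h] at ih'
      rw [min_eq_right (by omega), pow_succ]
      have := h2 e (by omega) h
      nlinarith

theorem gsum_QRegI (n : ℕ) :
    ∑ e ∈ Finset.range n, (0.51 : ℝ) ^ e + 3 * 0.51 ^ n ≤ 3 := by
  induction n with
  | zero => simp
  | succ n ih =>
    rw [Finset.sum_range_succ, pow_succ]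
    have : (0 : ℝ) ≤ 0.51 ^ n := by positivity
    linarith

theorem geo1_QRegI (M N : ℕ) (t : ℕ → ℝ) (h0 : 0 ≤ t 0)
    (h1 : ∀ e < N, t (e + 1) ≤ 1.02 * t e) (h2 : ∀ e < N, M ≤ e → t (e + 1) ≤ 0.51 * t e) :
    ∑ e ∈ Finset.range (N + 1), t e ≤ 3 * 2 ^ M * t 0 := by
  have h3 : ∀ e ∈ Finset.range (N + 1), t e ≤ 2 ^ M * t 0 * 0.51 ^ e := by
    intro e he
    have h4 := geo0_QRegI M N t h1 h2 e (by rw [Finset.mem_range] at he; omega)
    have h5 : (2 : ℝ) ^ (min e M) ≤ 2 ^ M := pow_le_pow_right₀ one_le_two (min_le_right _ _)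
    calc t e ≤ 2 ^ (min e M) * 0.51 ^ e * t 0 := h4
      _ ≤ 2 ^ M * 0.51 ^ e * t 0 := by gcongr
      _ = _ := by ring
  have h6 := gsum_QRegI (N + 1)
  have h7 : (0 : ℝ) ≤ 0.51 ^ (N + 1) := by positivity
  calc ∑ e ∈ Finset.range (N + 1), t e
      ≤ ∑ e ∈ Finset.range (N + 1), 2 ^ M * t 0 * 0.51 ^ e := Finset.sum_le_sum h3
    _ = 2 ^ M * t 0 * ∑ e ∈ Finset.range (N + 1), (0.51 : ℝ) ^ e := by rw [Finset.mul_sum]
    _ ≤ 2 ^ M * t 0 * 3 := by gcongr; linarith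
    _ = _ := by ring

theorem geo_QRegI : ∃ K : ℝ, 1 ≤ K ∧ ∀ (t : ℕ → ℝ) (N : ℕ), (∀ e, 0 ≤ t e) →
    (∀ e < N, t (e + 1) * (1 + e / 1000) ≤ 1.02 * t e) →
    ∑ e ∈ Finset.range (N + 1), t e ≤ K * t 0 := by
  obtain ⟨M, hM⟩ : ∃ M : ℕ, 1000 ≤ M := ⟨1000, le_rfl⟩
  refine ⟨3 * 2 ^ M, ?_, fun t N h0 h => geo1_QRegI M N t (h0 0) ?_ ?_⟩
  · have : (1 : ℝ) ≤ 2 ^ M := one_le_pow₀ one_le_two
    linarith
  · intro e he
    have h1 := h e he
    have h2 : 0 ≤ t (e + 1) * (e / 1000) := mul_nonneg (h0 _) (by positivity)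
    linarith
  · intro e he hMe
    have h1 := h e he
    have h3 : (1000 : ℝ) ≤ e := by exact_mod_cast hM.trans hMe
    have h2 : t (e + 1) * 2 ≤ t (e + 1) * (1 + e / 1000) :=
      mul_le_mul_of_nonneg_left (by linarith) (h0 _)
    linarith

theorem ball_QRegI {r m : ℕ} {z : ℂ} (hr : 1 ≤ r) (hz : z ∈ ball (m : ℂ) (m / (1000 * r))) :
    ‖z - m‖ ≤ m / 1000 := by
  rw [mem_ball, dist_eq_norm] at hz
  have hr' : (1 : ℝ) ≤ r := by exact_mod_cast hr
  refine hz.le.trans ?_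
  gcongr
  linarith

theorem re_QRegI {m : ℕ} {z : ℂ} (hz : ‖z - m‖ ≤ m / 1000) : 0.999 * (m : ℝ) ≤ z.re := by
  have h := (abs_le.1 ((Complex.abs_re_le_norm (z - m)).trans hz)).1
  simp only [sub_re, natCast_re] at h
  linarith

theorem pow_QRegI {r m : ℕ} {z : ℂ} (hr : 1 ≤ r) (hm : 0 < m)
    (hz : z ∈ ball (m : ℂ) (m / (1000 * r))) :
    0.999 ≤ (‖z‖ / m) ^ r ∧ (‖z‖ / m) ^ r ≤ 1.002 := by
  rw [mem_ball, dist_eq_norm] at hz
  have hr' : (1 : ℝ) ≤ r := by exact_mod_cast hr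
  have hm' : (0 : ℝ) < m := by exact_mod_cast hm
  obtain ⟨x, hx⟩ : ∃ x : ℝ, x = 1 / (1000 * r) := ⟨_, rfl⟩
  have hx0 : 0 < x := by rw [hx]; positivity
  have hx1 : r * x = 1 / 1000 := by rw [hx]; field_simp
  have hx2 : x ≤ 1 / 1000 := by nlinarith
  have hz' : ‖z - m‖ ≤ m * x := by rw [hx, mul_one_div]; exact hz.le
  have a := abs_le.1 (abs_norm_sub_norm_le z m)
  rw [Complex.norm_natCast] at a
  have a1 : 1 - x ≤ ‖z‖ / m := by rw [le_div_iff₀ hm']; linarith [a.1]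
  have a2 : ‖z‖ / m ≤ 1 + x := by rw [div_le_iff₀ hm']; linarith [a.2]
  have b := one_add_mul_le_pow (show (-2 : ℝ) ≤ -x by linarith) r
  rw [← sub_eq_add_neg] at b
  have b1 : (0.999 : ℝ) ≤ (1 - x) ^ r := by linarith
  have b2 : (1 + x) ^ r * (1 - x) ^ r ≤ 1 := by
    rw [← mul_pow]
    exact pow_le_one₀ (by nlinarith) (by nlinarith)
  have b3 : (0 : ℝ) ≤ (1 + x) ^ r := by positivity
  constructor
  · exact b1.trans (pow_le_pow_left₀ (by linarith) a1 r)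
  · refine (pow_le_pow_left₀ (by positivity) a2 r).trans ?_
    nlinarith

theorem split_QRegI (r m i : ℕ) (l : ℝ) (z : ℂ) (hm : 0 < m) :
    (l * ‖z‖ / (i + 1)) ^ r = (l * m / (i + 1)) ^ r * (‖z‖ / m) ^ r := by
  have hm' : (0 : ℝ) < m := by exact_mod_cast hm
  rw [← mul_pow]
  refine congrArg (· ^ r) ?_
  field_simp

theorem qU_QRegI (hU : RatU) {r s m : ℕ} {l : ℝ} {z : ℂ} (hr : 1 ≤ r) (hrs : r ≤ s)
    (hl : Lam r s l) (hm : 0 < m) (hz : z ∈ ball (m : ℂ) (m / (1000 * r))) (i : ℕ)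
    (hi : (i : ℝ) ≤ 1.3 * m) : ‖qq r s i z‖ ≤ 1.01 * (l * m / (i + 1)) ^ r := by
  have hm' : (0 : ℝ) < m := by exact_mod_cast hm
  have h1 := re_QRegI (ball_QRegI hr hz)
  have h2 := hU r s l hr hrs hl z i (by linarith) (by linarith)
  have h3 := (pow_QRegI hr hm hz).2
  have h4 : 0 ≤ (l * m / (i + 1)) ^ r := by have := hl.1; positivity
  rw [split_QRegI r m i l z hm] at h2
  nlinarith

theorem qL_QRegI (hL : RatL) {r s m : ℕ} {l : ℝ} {z : ℂ} (hr : 1 ≤ r) (hrs : r ≤ s)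
    (hl : Lam r s l) (hm : 0 < m) (hz : z ∈ ball (m : ℂ) (m / (1000 * r))) (i : ℕ)
    (hi : (i : ℝ) ≤ l * m) : 0.99 * (l * m / (i + 1)) ^ r ≤ ‖qq r s i z‖ := by
  have hm' : (0 : ℝ) < m := by exact_mod_cast hm
  have h0 := hl.1
  have h1 := re_QRegI (ball_QRegI hr hz)
  have h5 : 0.999 * (m : ℝ) ≤ ‖z‖ := h1.trans (Complex.re_le_norm z)
  have h6 : z ≠ 0 := norm_pos_iff.1 (by linarith)
  have h7 : l * (0.999 * m) ≤ l * ‖z‖ := mul_le_mul_of_nonneg_left h5 h0.le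
  have h8 : 0 < l * m := by positivity
  have h2 := hL r s l hr hrs hl z i h6 (by linarith)
  have h3 := (pow_QRegI hr hm hz).1
  have h4 : 0 ≤ (l * m / (i + 1)) ^ r := by positivity
  rw [split_QRegI r m i l z hm] at h2
  nlinarith

theorem bern_QRegI {r : ℕ} {X e : ℝ} (hX : 0 < X) (hXr : X ≤ 1000 * r) (he : 0 ≤ e) :
    1 + e / 1000 ≤ (1 + e / X) ^ r := by
  have h0 : 0 ≤ e / X := by positivity
  have b := one_add_mul_le_pow (show (-2 : ℝ) ≤ e / X by linarith) r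
  have h1 : e / 1000 = X / 1000 * (e / X) := by field_simp
  have h2 : X / 1000 * (e / X) ≤ r * (e / X) := mul_le_mul_of_nonneg_right (by linarith) h0
  linarith

theorem up_QRegI {r : ℕ} {X e y : ℝ} (hX : 0 < X) (hXr : X ≤ 1000 * r) (he : 0 ≤ e)
    (hy : X + e ≤ y) : (X / y) ^ r * (1 + e / 1000) ≤ 1 := by
  have hy0 : 0 < y := by linarith
  have h1 : X / y * (1 + e / X) ≤ 1 := by
    have : X / y * (1 + e / X) = (X + e) / y := by field_simp
    rw [this, div_le_one hy0]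
    exact hy
  calc (X / y) ^ r * (1 + e / 1000) ≤ (X / y) ^ r * (1 + e / X) ^ r :=
        mul_le_mul_of_nonneg_left (bern_QRegI hX hXr he) (by positivity)
    _ = (X / y * (1 + e / X)) ^ r := by rw [mul_pow]
    _ ≤ 1 := pow_le_one₀ (by positivity) h1

theorem down_QRegI {r : ℕ} {X e y : ℝ} (hX : 0 < X) (hXr : X ≤ 1000 * r) (he : 0 ≤ e)
    (hy0 : 0 < y) (hy : y + e ≤ X) : 1 + e / 1000 ≤ (X / y) ^ r := by
  refine (bern_QRegI hX hXr he).trans (pow_le_pow_left₀ (by positivity) ?_ r)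
  have : 1 + e / X = (X + e) / X := by field_simp
  rw [this, div_le_div_iff₀ hX hy0]
  nlinarith

theorem tauS_QRegI (r s j : ℕ) (z : ℂ) :
    ‖tau r s (j + 1) z‖ = ‖tau r s j z‖ * ‖qq r s j z‖ := by
  rw [tau, tau, Finset.prod_range_succ, norm_mul]

theorem tau_ne_QRegI (hL : RatL) {r s m j : ℕ} {l : ℝ} {z : ℂ} (hr : 1 ≤ r) (hrs : r ≤ s)
    (hl : Lam r s l) (hm : 0 < m) (hz : z ∈ ball (m : ℂ) (m / (1000 * r)))
    (hj : (j : ℝ) ≤ l * m) : tau r s j z ≠ 0 := by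
  refine Finset.prod_ne_zero_iff.2 fun i hi => norm_pos_iff.1 ?_
  have hi' : (i : ℝ) ≤ j := by exact_mod_cast (Finset.mem_range.1 hi).le
  refine lt_of_lt_of_le ?_ (qL_QRegI hL hr hrs hl hm hz i (hi'.trans hj))
  have := hl.1
  positivity

theorem sum_le_QRegI (hU : RatU) (hL : RatL) : ∃ B : ℝ, 1 ≤ B ∧
    ∀ (r s m j N : ℕ) (l : ℝ) (z : ℂ), 1 ≤ r → r ≤ s → Lam r s l → 0 < m → l * m ≤ 1000 * r →
      z ∈ ball (m : ℂ) (m / (1000 * r)) → (j : ℝ) ≤ l * m → l * m ≤ j + 1 →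
      (j : ℝ) + N ≤ 1.3 * m → ‖sumT r s (j + N) z‖ ≤ B * ‖tau r s j z‖ := by
  obtain ⟨K, hK, hg⟩ := geo_QRegI
  refine ⟨2 * K, by linarith, fun r s m j N l z hr hrs hl hm hX hz hj hj' hN => ?_⟩
  have hm' : (0 : ℝ) < m := by exact_mod_cast hm
  have hX0 : 0 < l * m := mul_pos hl.1 hm'
  have h1 := hg (fun e => ‖tau r s (j + e) z‖) N (fun e => norm_nonneg _) (by
    intro e he
    have he' : (e : ℝ) ≤ N := by exact_mod_cast he.le
    have a1 := qU_QRegI hU hr hrs hl hm hz (j + e) (by push_cast; linarith)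
    have a2 := up_QRegI (y := ((j + e : ℕ) : ℝ) + 1) hX0 hX (Nat.cast_nonneg e)
      (by push_cast; linarith)
    have a3 : (0 : ℝ) ≤ 1 + e / 1000 := by positivity
    have a4 : ‖qq r s (j + e) z‖ * (1 + e / 1000) ≤ 1.02 := by
      have := mul_le_mul_of_nonneg_right a1 a3
      linarith
    show ‖tau r s (j + e + 1) z‖ * (1 + e / 1000) ≤ 1.02 * ‖tau r s (j + e) z‖
    rw [tauS_QRegI, mul_assoc, mul_comm]
    exact mul_le_mul_of_nonneg_right a4 (norm_nonneg _))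
  have h2 := hg (fun e => ‖tau r s (j - e) z‖) j (fun e => norm_nonneg _) (by
    intro e he
    obtain ⟨i, rfl⟩ : ∃ i, j = i + 1 + e := ⟨j - 1 - e, by omega⟩
    have e1 : i + 1 + e - (e + 1) = i := by omega
    have e2 : i + 1 + e - e = i + 1 := by omega
    push_cast at hj
    have he0 : (0 : ℝ) ≤ e := Nat.cast_nonneg e
    have a1 := qL_QRegI hL hr hrs hl hm hz i (by linarith)
    have a2 := down_QRegI (y := (i : ℝ) + 1) hX0 hX he0 (by positivity) hj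
    have a4 : 1 + (e : ℝ) / 1000 ≤ 1.02 * ‖qq r s i z‖ := by linarith
    show ‖tau r s (i + 1 + e - (e + 1)) z‖ * (1 + e / 1000) ≤ 1.02 * ‖tau r s (i + 1 + e - e) z‖
    rw [e1, e2, tauS_QRegI]
    have := mul_le_mul_of_nonneg_left a4 (norm_nonneg (tau r s i z))
    linarith)
  have h3 := Finset.sum_range_reflect (fun e => ‖tau r s e z‖) (j + 1)
  simp only [Nat.add_sub_cancel, Nat.sub_zero, Nat.add_zero] at h1 h2 h3
  rw [h3, Finset.sum_range_succ] at h2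
  have h4 : ‖sumT r s (j + N) z‖ ≤ ∑ e ∈ Finset.range (j + (N + 1)), ‖tau r s e z‖ :=
    norm_sum_le _ _
  rw [Finset.sum_range_add] at h4
  have h5 := norm_nonneg (tau r s j z)
  linarith

theorem at_nat_QRegI (hT : TauNat) {r s n j J : ℕ} (hr : 1 ≤ r) (hj : j ≤ J) :
    ‖tau r s j n‖ ≤ ‖sumT r s J n‖ := by
  have hb : 0 < ‖(n.centralBinom : ℂ) ^ s‖ :=
    norm_pos_iff.2 (pow_ne_zero _ (by exact_mod_cast n.centralBinom_ne_zero))
  refine le_of_mul_le_mul_left ?_ hb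
  rw [← norm_mul, ← norm_mul, sumT, Finset.mul_sum]
  simp only [hT r s n _ hr]
  rw [← Nat.cast_sum, Complex.norm_natCast, Complex.norm_natCast, Nat.cast_le]
  exact Finset.single_le_sum (f := fun j => n.choose j ^ r * (2 * n - j).choose n ^ s)
    (fun _ _ => Nat.zero_le _) (Finset.mem_range.2 (by omega))

theorem diff_tau_QRegI {r s m j : ℕ} (hr : 1 ≤ r) (hm : 0 < m) (hj : (j : ℝ) ≤ 1.3 * m) :
    DifferentiableOn ℂ (tau r s j) (ball (m : ℂ) (m / (1000 * r))) := by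
  have hm' : (0 : ℝ) < m := by exact_mod_cast hm
  unfold tau
  refine DifferentiableOn.fun_finsetProd fun i hi => ?_
  have hi' : (i : ℝ) ≤ j := by exact_mod_cast (Finset.mem_range.1 hi).le
  unfold qq
  refine DifferentiableOn.div (by fun_prop) (by fun_prop) fun z hz => ?_
  have h1 := re_QRegI (ball_QRegI hr hz)
  refine mul_ne_zero (pow_ne_zero _ (by exact_mod_cast Nat.succ_ne_zero i)) (pow_ne_zero _ ?_)
  intro h
  have h2 := congrArg Complex.re h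
  simp only [sub_re, mul_re, re_ofNat, im_ofNat, natCast_re, zero_re] at h2
  linarith

end Pool.Agent.MP_6026f4_co.Q

end

section

/- First regime: the curvature function. -/

namespace Pool.Agent.MP_6026f4_co.Q
open Complex Metric

/-- The contribution of the central binomial coefficient. -/
noncomputable def pp_QRegI (z : ℂ) : ℂ := 1 / ((z + 1) * (2 * z - 1))

/-- The contribution of the numerator of a ratio. -/
noncomputable def aa_QRegI (i : ℕ) (z : ℂ) : ℂ := -1 / (z - i) ^ 2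

/-- The contribution of the quotient inside a ratio. -/
noncomputable def dd_QRegI (i : ℕ) (z : ℂ) : ℂ :=
  -(i * (4 * z - 3 * i)) / ((z - i) ^ 2 * ((2 * z - i) ^ 2 - 4))

/-- The curvature function. -/
noncomputable def ww_QRegI (r s j : ℕ) (z : ℂ) : ℂ :=
  s * log (1 + pp_QRegI z) +
    ∑ i ∈ Finset.range j, (r * log (1 + aa_QRegI i z) + s * log (1 + dd_QRegI i z))

theorem nz_QRegI {m : ℕ} {z : ℂ} (hz : ‖z - m‖ ≤ m / 1000) : ‖z‖ ≤ 1.001 * m := by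
  have a := abs_le.1 (abs_norm_sub_norm_le z m)
  rw [Complex.norm_natCast] at a
  linarith [a.2]

theorem n1_QRegI {m i : ℕ} {z : ℂ} (hz : ‖z - m‖ ≤ m / 1000) (hi : (i : ℝ) ≤ m / 1000) :
    0.998 * (m : ℝ) ≤ ‖z - i‖ := by
  have h := re_QRegI hz
  refine le_trans ?_ (Complex.re_le_norm _)
  simp only [sub_re, natCast_re]
  linarith

theorem n2_QRegI {m i : ℕ} {z : ℂ} (hm : (1000 : ℝ) ≤ m) (hz : ‖z - m‖ ≤ m / 1000)
    (hi : (i : ℝ) ≤ m / 1000) (c : ℝ) (hc : -2 ≤ c) : 1.99 * (m : ℝ) ≤ ‖2 * z - i + c‖ := by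
  have h := re_QRegI hz
  refine le_trans ?_ (Complex.re_le_norm _)
  simp only [add_re, sub_re, mul_re, re_ofNat, im_ofNat, natCast_re, ofReal_re]
  linarith

theorem n3_QRegI {m i : ℕ} {z : ℂ} (hm : (1000 : ℝ) ≤ m) (hz : ‖z - m‖ ≤ m / 1000)
    (hi : (i : ℝ) ≤ m / 1000) : 3.96 * (m : ℝ) ^ 2 ≤ ‖(2 * z - i) ^ 2 - 4‖ := by
  have e : (2 * z - i) ^ 2 - 4 = (2 * z - i + (2 : ℝ)) * (2 * z - i + (-2 : ℝ)) := by
    push_cast
    ring
  have h1 := n2_QRegI hm hz hi 2 (by norm_num)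
  have h2 := n2_QRegI hm hz hi (-2) le_rfl
  have h3 := mul_le_mul h1 h2 (by positivity) (norm_nonneg _)
  rw [e, norm_mul]
  nlinarith

theorem n4_QRegI {m i : ℕ} {z : ℂ} (hz : ‖z - m‖ ≤ m / 1000) (hi : (i : ℝ) ≤ m / 1000) :
    0.996 * (m : ℝ) ^ 2 ≤ ‖(z - i) ^ 2‖ := by
  have h1 := n1_QRegI hz hi
  have h3 := mul_le_mul h1 h1 (by positivity) (norm_nonneg _)
  rw [norm_pow]
  nlinarith

theorem aa_le_QRegI {m i : ℕ} {z : ℂ} (hm : (1000 : ℝ) ≤ m) (hz : ‖z - m‖ ≤ m / 1000)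
    (hi : (i : ℝ) ≤ m / 1000) : ‖aa_QRegI i z‖ ≤ 2 / (m : ℝ) ^ 2 := by
  have h := n4_QRegI hz hi
  have h0 : (0 : ℝ) < (m : ℝ) ^ 2 := by positivity
  rw [aa_QRegI, norm_div, norm_neg, norm_one, div_le_div_iff₀ (by linarith) h0]
  linarith

theorem dd_le_QRegI {m i : ℕ} {z : ℂ} {l : ℝ} (hm : (1000 : ℝ) ≤ m) (hz : ‖z - m‖ ≤ m / 1000)
    (hl : l ≤ 1 / 1000) (hi : (i : ℝ) ≤ l * m) : ‖dd_QRegI i z‖ ≤ 2 * l / (m : ℝ) ^ 2 := by
  have hi0 : (0 : ℝ) ≤ i := Nat.cast_nonneg i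
  have hi' : (i : ℝ) ≤ m / 1000 := by nlinarith
  have hl0 : 0 ≤ l := by nlinarith
  have h1 := n4_QRegI hz hi'
  have h2 := n3_QRegI hm hz hi'
  have h0 : (0 : ℝ) < (m : ℝ) ^ 2 := by positivity
  have h3 := mul_le_mul h1 h2 (by positivity) (norm_nonneg _)
  have h4 : ‖4 * z - 3 * i‖ ≤ 5 * m := by
    have a := norm_sub_le (4 * z) (3 * i)
    have b := nz_QRegI hz
    rw [norm_mul, norm_mul, Complex.norm_natCast, Complex.norm_ofNat, Complex.norm_ofNat] at a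
    linarith
  have h5 : ‖(i : ℂ) * (4 * z - 3 * i)‖ ≤ l * m * (5 * m) := by
    rw [norm_mul, Complex.norm_natCast]
    exact mul_le_mul hi h4 (norm_nonneg _) (by positivity)
  rw [dd_QRegI, norm_div, norm_neg, norm_mul ((z - i) ^ 2)]
  calc _ ≤ l * m * (5 * m) / (0.996 * (m : ℝ) ^ 2 * (3.96 * (m : ℝ) ^ 2)) := by gcongr
    _ = 5 / (0.996 * 3.96) * l / (m : ℝ) ^ 2 := by field_simp
    _ ≤ _ := by gcongr; norm_num

theorem qn_QRegI {m : ℕ} {z : ℂ} (hm : (1000 : ℝ) ≤ m) (hz : ‖z - m‖ ≤ m / 1000) :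
    ‖(z + 1) * (2 * z - 1) - 2 * (m : ℂ) ^ 2‖ ≤ 0.006 * (m : ℝ) ^ 2 := by
  have e : (z + 1) * (2 * z - 1) - 2 * (m : ℂ) ^ 2 = 2 * ((z - m) * (z + m)) + (z - 1) := by ring
  have b := nz_QRegI hz
  have h1 : ‖z + m‖ ≤ 2.001 * m := by
    have a := norm_add_le z m
    rw [Complex.norm_natCast] at a
    linarith
  have h2 : ‖z - 1‖ ≤ 1.002 * m := by
    have a := norm_sub_le z 1
    rw [norm_one] at a
    linarith
  have h3 := mul_le_mul hz h1 (norm_nonneg _) (by positivity)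
  have h4 := norm_add_le (2 * ((z - m) * (z + m))) (z - 1)
  rw [norm_mul, norm_mul, Complex.norm_ofNat] at h4
  rw [e]
  nlinarith

theorem n5_QRegI {m : ℕ} {z : ℂ} (hm : (1000 : ℝ) ≤ m) (hz : ‖z - m‖ ≤ m / 1000) :
    1.99 * (m : ℝ) ^ 2 ≤ ‖(z + 1) * (2 * z - 1)‖ := by
  have h := qn_QRegI hm hz
  have a := abs_le.1 (abs_norm_sub_norm_le ((z + 1) * (2 * z - 1)) (2 * (m : ℂ) ^ 2))
  rw [norm_mul 2, norm_pow, Complex.norm_natCast, Complex.norm_ofNat] at a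
  have h0 : (0 : ℝ) < (m : ℝ) ^ 2 := by positivity
  linarith [a.1]

theorem pp_le_QRegI {m : ℕ} {z : ℂ} (hm : (1000 : ℝ) ≤ m) (hz : ‖z - m‖ ≤ m / 1000) :
    ‖pp_QRegI z‖ ≤ 1 / (m : ℝ) ^ 2 := by
  have h := n5_QRegI hm hz
  have h0 : (0 : ℝ) < (m : ℝ) ^ 2 := by positivity
  rw [pp_QRegI, norm_div, norm_one, div_le_div_iff₀ (by linarith) h0]
  linarith

theorem pp_sub_QRegI {m : ℕ} {z : ℂ} (hm : (1000 : ℝ) ≤ m) (hz : ‖z - m‖ ≤ m / 1000) :
    ‖pp_QRegI z - 1 / (2 * (m : ℂ) ^ 2)‖ ≤ 0.002 / (m : ℝ) ^ 2 := by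
  have h := n5_QRegI hm hz
  have h1 := qn_QRegI hm hz
  have h0 : (0 : ℝ) < (m : ℝ) ^ 2 := by positivity
  have hq : (z + 1) * (2 * z - 1) ≠ 0 := norm_pos_iff.1 (by linarith)
  have hm0 : (2 * (m : ℂ) ^ 2) ≠ 0 := by
    have : m ≠ 0 := by rintro rfl; norm_num at hm
    exact mul_ne_zero two_ne_zero (pow_ne_zero _ (by exact_mod_cast this))
  rw [pp_QRegI, div_sub_div _ _ hq hm0, one_mul, mul_one, norm_div, norm_sub_rev,
    norm_mul ((z + 1) * (2 * z - 1)), norm_mul 2, norm_pow, Complex.norm_natCast,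
    Complex.norm_ofNat]
  calc _ ≤ 0.006 * (m : ℝ) ^ 2 / (1.99 * (m : ℝ) ^ 2 * (2 * (m : ℝ) ^ 2)) := by gcongr
    _ = 0.006 / (1.99 * 2) / (m : ℝ) ^ 2 := by field_simp
    _ ≤ _ := by gcongr; norm_num

theorem small_QRegI {m : ℕ} (hm : (1000 : ℝ) ≤ m) {c : ℝ} (hc : c ≤ 2) :
    c / (m : ℝ) ^ 2 ≤ 1 / 1000 := by
  rw [div_le_iff₀ (by positivity)]
  nlinarith

theorem logp_QRegI {m : ℕ} {z : ℂ} (hm : (1000 : ℝ) ≤ m) (hz : ‖z - m‖ ≤ m / 1000) :
    ‖log (1 + pp_QRegI z) - 1 / (2 * (m : ℂ) ^ 2)‖ ≤ 0.003 / (m : ℝ) ^ 2 := by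
  have h1 := pp_le_QRegI hm hz
  have h2 := h1.trans (small_QRegI hm one_le_two)
  have h3 := norm_log_one_add_sub_self_le (z := pp_QRegI z) (by linarith)
  have h4 : (1 - ‖pp_QRegI z‖)⁻¹ ≤ 2 := by
    rw [inv_le_comm₀ (by linarith) two_pos]
    linarith
  have h5 : ‖pp_QRegI z‖ ^ 2 * (1 - ‖pp_QRegI z‖)⁻¹ / 2 ≤ ‖pp_QRegI z‖ ^ 2 * 2 / 2 := by gcongr
  have h6 := mul_le_mul h1 h2 (norm_nonneg _) (by positivity)
  have h7 := pp_sub_QRegI hm hz
  have h8 := norm_sub_le_norm_sub_add_norm_sub (log (1 + pp_QRegI z)) (pp_QRegI z)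
    (1 / (2 * (m : ℂ) ^ 2))
  have e1 : 0.003 / (m : ℝ) ^ 2 = 0.002 / (m : ℝ) ^ 2 + 1 / (m : ℝ) ^ 2 * (1 / 1000) := by ring
  nlinarith

theorem ww_le_QRegI {r s m j : ℕ} {z : ℂ} {l : ℝ} (hm : (1000 : ℝ) ≤ m) (hz : ‖z - m‖ ≤ m / 1000)
    (hr : 1 ≤ r) (hs : 10 ^ 8 * r ^ 2 ≤ s) (hl0 : 0 < l) (hl : l * s ≤ 1 / 10 ^ 6)
    (hj : (j : ℝ) ≤ l * m) (hX : l * m ≤ 1000 * r) :
    ‖ww_QRegI r s j z - ((s / (2 * (m : ℝ) ^ 2) : ℝ) : ℂ)‖ ≤ s / (2 * (m : ℝ) ^ 2) / 8 := by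
  have hr' : (1 : ℝ) ≤ r := by exact_mod_cast hr
  have hs' : (10 : ℝ) ^ 8 * r ^ 2 ≤ s := by exact_mod_cast hs
  have hrs : (r : ℝ) ≤ s := by nlinarith
  have hl1 : l ≤ 1 / 1000 := by nlinarith
  have hlr : l * r ≤ 1 / 10 ^ 6 := by nlinarith
  obtain ⟨u, hu⟩ : ∃ u : ℝ, u = 1 / (m : ℝ) ^ 2 := ⟨_, rfl⟩
  have hu0 : 0 < u := by rw [hu]; positivity
  have hd : ∀ c : ℝ, c / (m : ℝ) ^ 2 = c * u := fun c => by rw [hu]; ring
  have h1 : ∀ i ∈ Finset.range j, ‖r * log (1 + aa_QRegI i z) + s * log (1 + dd_QRegI i z)‖ ≤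
      r * (3 * u) + s * (3 * l * u) := by
    intro i hi
    have hi1 : (i : ℝ) ≤ j := by exact_mod_cast (Finset.mem_range.1 hi).le
    have hi2 := hi1.trans hj
    have a1 := aa_le_QRegI hm hz (i := i) (by nlinarith)
    have a2 := dd_le_QRegI hm hz hl1 hi2
    have a3 := norm_log_one_add_half_le_self (z := aa_QRegI i z)
      ((a1.trans (small_QRegI hm le_rfl)).trans (by norm_num))
    have a4 := norm_log_one_add_half_le_self (z := dd_QRegI i z)
      ((a2.trans (small_QRegI hm (by linarith))).trans (by norm_num))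
    rw [hd] at a1 a2
    refine (norm_add_le _ _).trans ?_
    rw [norm_mul, norm_mul, Complex.norm_natCast, Complex.norm_natCast]
    gcongr <;> linarith
  have h2 := (norm_sum_le _ _).trans (Finset.sum_le_card_nsmul _ _ _ h1)
  rw [Finset.card_range, nsmul_eq_mul] at h2
  have h3 : (j : ℝ) * (r * (3 * u) + s * (3 * l * u)) ≤
      1000 * r * (r * (3 * u) + s * (3 * l * u)) := by gcongr; linarith
  have h4 := logp_QRegI hm hz
  rw [hd] at h4
  have e : ww_QRegI r s j z - ((s / (2 * (m : ℝ) ^ 2) : ℝ) : ℂ) =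
      s * (log (1 + pp_QRegI z) - 1 / (2 * (m : ℂ) ^ 2)) +
      ∑ i ∈ Finset.range j, (r * log (1 + aa_QRegI i z) + s * log (1 + dd_QRegI i z)) := by
    rw [ww_QRegI]
    push_cast
    ring
  have e2 : (s : ℝ) / (2 * (m : ℝ) ^ 2) / 8 = s * u / 16 := by rw [hu]; ring
  rw [e, e2]
  refine (norm_add_le _ _).trans ?_
  rw [norm_mul, Complex.norm_natCast]
  have h5 : (s : ℝ) * ‖log (1 + pp_QRegI z) - 1 / (2 * (m : ℂ) ^ 2)‖ ≤ s * (0.003 * u) := by gcongr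
  have h6 := mul_le_mul_of_nonneg_right hs' hu0.le
  have h7 : 0 ≤ s * u := by positivity
  have h8 := mul_le_mul_of_nonneg_right hlr h7
  nlinarith

theorem diff_ww_QRegI {r s m j : ℕ} {l : ℝ} (hm : (1000 : ℝ) ≤ m) (hr : 1 ≤ r) (hl : l ≤ 1 / 1000)
    (hj : (j : ℝ) ≤ l * m) :
    DifferentiableOn ℂ (ww_QRegI r s j) (ball (m : ℂ) (m / (1000 * r))) := by
  have h0 : (0 : ℝ) < (m : ℝ) ^ 2 := by positivity
  unfold ww_QRegI
  refine DifferentiableOn.add (DifferentiableOn.const_mul (DifferentiableOn.clog ?_ ?_) _)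
    (DifferentiableOn.fun_sum fun i hi => ?_)
  · unfold pp_QRegI
    refine DifferentiableOn.const_add _ (DifferentiableOn.div (by fun_prop) (by fun_prop) ?_)
    intro z hz
    have := n5_QRegI hm (ball_QRegI hr hz)
    exact norm_pos_iff.1 (by linarith)
  · intro z hz
    have := (pp_le_QRegI hm (ball_QRegI hr hz)).trans (small_QRegI hm one_le_two)
    exact mem_slitPlane_of_norm_lt_one (by linarith)
  · have hi1 : (i : ℝ) ≤ j := by exact_mod_cast (Finset.mem_range.1 hi).le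
    have hi2 := hi1.trans hj
    have hi3 : (i : ℝ) ≤ m / 1000 := by nlinarith
    refine DifferentiableOn.add (DifferentiableOn.const_mul (DifferentiableOn.clog ?_ ?_) _)
      (DifferentiableOn.const_mul (DifferentiableOn.clog ?_ ?_) _)
    · unfold aa_QRegI
      refine DifferentiableOn.const_add _ (DifferentiableOn.div (by fun_prop) (by fun_prop) ?_)
      intro z hz
      have := n4_QRegI (ball_QRegI hr hz) hi3
      exact norm_pos_iff.1 (by linarith)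
    · intro z hz
      have := (aa_le_QRegI hm (ball_QRegI hr hz) hi3).trans (small_QRegI hm le_rfl)
      exact mem_slitPlane_of_norm_lt_one (by linarith)
    · unfold dd_QRegI
      refine DifferentiableOn.const_add _ (DifferentiableOn.div (by fun_prop) (by fun_prop) ?_)
      intro z hz
      have a1 := n4_QRegI (ball_QRegI hr hz) hi3
      have a2 := n3_QRegI hm (ball_QRegI hr hz) hi3
      exact mul_ne_zero (norm_pos_iff.1 (by linarith)) (norm_pos_iff.1 (by linarith))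
    · intro z hz
      have := (dd_le_QRegI hm (ball_QRegI hr hz) hl hi2).trans (small_QRegI hm (by linarith))
      exact mem_slitPlane_of_norm_lt_one (by linarith)

end Pool.Agent.MP_6026f4_co.Q

end

section

/- First regime: the exact relations and the model. -/

namespace Pool.Agent.MP_6026f4_co.Q
open Complex Metric

theorem qq_rel_QRegI (r s i : ℕ) (z : ℂ) (h1 : z - i ≠ 0) (h2 : 2 * z - i ≠ 0)
    (h3 : (2 * z - i) ^ 2 - 4 ≠ 0) :
    qq r s i (z - 1) * qq r s i (z + 1) =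
      qq r s i z ^ 2 * ((1 + aa_QRegI i z) ^ r * (1 + dd_QRegI i z) ^ s) := by
  have hi : ((i : ℂ) + 1) ≠ 0 := by exact_mod_cast Nat.succ_ne_zero i
  have e : ∀ y : ℂ, qq r s i y = ((y - i) / (i + 1)) ^ r * ((y - i) / (2 * y - i)) ^ s := by
    intro y
    rw [qq, div_pow, div_pow, pow_add, div_mul_div_comm]
  have e1 : (z - 1 - i) / (i + 1) * ((z + 1 - i) / (i + 1)) =
      ((z - i) / (i + 1)) ^ 2 * (1 + aa_QRegI i z) := by
    rw [aa_QRegI]
    field_simp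
    ring
  have e2 : (z - 1 - i) / (2 * (z - 1) - i) * ((z + 1 - i) / (2 * (z + 1) - i)) =
      ((z - i) / (2 * z - i)) ^ 2 * (1 + dd_QRegI i z) := by
    have a : (2 * (z - 1) - i) * (2 * (z + 1) - i) = (2 * z - i) ^ 2 - 4 := by ring
    rw [div_mul_div_comm, a, dd_QRegI]
    obtain ⟨b, hb⟩ : ∃ b, b = 2 * z - i := ⟨_, rfl⟩
    rw [← hb] at h2 h3 ⊢
    obtain ⟨c, hc⟩ : ∃ c, c = b ^ 2 - 4 := ⟨_, rfl⟩
    rw [← hc] at h3 ⊢
    field_simp
    rw [hc, hb]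
    ring
  rw [e, e, e, mul_mul_mul_comm, ← mul_pow, ← mul_pow, e1, e2, mul_pow, mul_pow, mul_pow,
    ← pow_mul, ← pow_mul, ← pow_mul, ← pow_mul, mul_comm r 2, mul_comm s 2]
  ring

theorem cb_rel_QRegI (n : ℕ) :
    (n.centralBinom : ℂ) * ((n + 2).centralBinom : ℂ) =
      ((n + 1).centralBinom : ℂ) ^ 2 * (1 + pp_QRegI (n + 1)) := by
  have h1 : ((n : ℂ) + 1) * ((n + 1).centralBinom : ℂ) = 2 * (2 * n + 1) * n.centralBinom := by
    exact_mod_cast Nat.succ_mul_centralBinom_succ n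
  have h2 : ((n : ℂ) + 1 + 1) * ((n + 2).centralBinom : ℂ) =
      2 * (2 * (n + 1) + 1) * (n + 1).centralBinom := by
    exact_mod_cast Nat.succ_mul_centralBinom_succ (n + 1)
  have n1 : ((n : ℂ) + 1 + 1) ≠ 0 := by exact_mod_cast Nat.succ_ne_zero (n + 1)
  have n2 : (2 * (n : ℂ) + 1) ≠ 0 := by exact_mod_cast Nat.succ_ne_zero (2 * n)
  have a : 2 * ((n : ℂ) + 1) - 1 = 2 * n + 1 := by ring
  have n3 := mul_ne_zero n1 n2
  rw [pp_QRegI, a, one_add_div n3, ← mul_div_assoc, eq_div_iff n3]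
  linear_combination (2 * (n : ℂ) + 1) * n.centralBinom * h2 -
    (2 * ((n : ℂ) + 1) + 1) * (n + 1).centralBinom * h1

theorem ne_QRegI {x : ℂ} (h : ‖x‖ ≤ 1 / 1000) : 1 + x ≠ 0 :=
  slitPlane_ne_zero (mem_slitPlane_of_norm_lt_one (by linarith))

theorem exp_ww_QRegI {r s m j : ℕ} {z : ℂ} {l : ℝ} (hm : (1000 : ℝ) ≤ m)
    (hz : ‖z - m‖ ≤ m / 1000) (hl : l ≤ 1 / 1000) (hj : (j : ℝ) ≤ l * m) :
    (1 + pp_QRegI z) ^ s * (tau r s j (z - 1) * tau r s j (z + 1)) =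
      tau r s j z ^ 2 * exp (ww_QRegI r s j z) := by
  have h0 : (0 : ℝ) < (m : ℝ) ^ 2 := by positivity
  rw [ww_QRegI, exp_add, exp_sum, exp_nat_mul,
    exp_log (ne_QRegI ((pp_le_QRegI hm hz).trans (small_QRegI hm one_le_two))),
    mul_left_comm (tau r s j z ^ 2), tau, tau, tau, ← Finset.prod_pow, ← Finset.prod_mul_distrib, ← Finset.prod_mul_distrib]
  refine congrArg _ (Finset.prod_congr rfl fun i hi => ?_)
  have hi1 : (i : ℝ) ≤ j := by exact_mod_cast (Finset.mem_range.1 hi).le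
  have hi2 := hi1.trans hj
  have hi3 : (i : ℝ) ≤ m / 1000 := by nlinarith
  have a1 := n1_QRegI hz hi3
  have a2 := n2_QRegI hm hz hi3 0 (by norm_num)
  have a3 := n3_QRegI hm hz hi3
  rw [ofReal_zero, add_zero] at a2
  rw [exp_add, exp_nat_mul, exp_nat_mul,
    exp_log (ne_QRegI ((aa_le_QRegI hm hz hi3).trans (small_QRegI hm le_rfl))),
    exp_log (ne_QRegI ((dd_le_QRegI hm hz hl hi2).trans (small_QRegI hm (by linarith))))]
  exact qq_rel_QRegI r s i z (norm_pos_iff.1 (by linarith)) (norm_pos_iff.1 (by linarith))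
    (norm_pos_iff.1 (by linarith))

theorem regI (hU : RatU) (hL : RatL) (hT : TauNat) (hS : SumNat) : RegI := by
  obtain ⟨B, hB, hsum⟩ := sum_le_QRegI hU hL
  refine ⟨B, hB, fun r s m l hr hs hl hsm hX => ?_⟩
  have hrs : r ≤ s := by nlinarith
  have hmn : 1000 ≤ m := by nlinarith
  have hm0 : 0 < m := by omega
  have hm : (1000 : ℝ) ≤ m := by exact_mod_cast hmn
  have hr' : (1 : ℝ) ≤ r := by exact_mod_cast hr
  have hs1 : (1 : ℝ) ≤ s := by exact_mod_cast hr.trans hrs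
  have hl0 := hl.1
  have hl2 := hl.2.1
  have hl1 : l ≤ 1 / 1000 := by nlinarith
  obtain ⟨j, hj, hj'⟩ : ∃ j : ℕ, (j : ℝ) ≤ l * m ∧ l * m ≤ j + 1 :=
    ⟨⌊l * m⌋₊, Nat.floor_le (by positivity), (Nat.lt_floor_add_one _).le⟩
  obtain ⟨N, hN, hN'⟩ : ∃ N : ℕ, 5 * N ≤ 6 * m ∧ 11 * m ≤ 10 * N := ⟨m + m / 5, by omega, by omega⟩
  have hN1 : 5 * (N : ℝ) ≤ 6 * m := by exact_mod_cast hN
  have hN2 : 11 * (m : ℝ) ≤ 10 * N := by exact_mod_cast hN'
  have hjm : (j : ℝ) ≤ m / 1000 := by nlinarith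
  have hJ : (j : ℝ) + N ≤ 1.3 * m := by linarith
  have hne : ∀ z ∈ ball (m : ℂ) (m / (1000 * r)), tau r s j z ≠ 0 := fun z hz =>
    tau_ne_QRegI hL hr hrs hl hm0 hz hj
  have hmb : (m : ℂ) ∈ ball (m : ℂ) (m / (1000 * r)) := mem_ball_self (by positivity)
  have h1 : 1 ≤ ‖sumT r s (j + N) m / tau r s j m‖ := by
    rw [norm_div, one_le_div (norm_pos_iff.2 (hne _ hmb))]
    exact at_nat_QRegI hT hr (Nat.le_add_right j N)
  refine ⟨fun z => sumT r s (j + N) z / tau r s j z, ww_QRegI r s j,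
    fun n => (n.centralBinom : ℂ) ^ s * tau r s j n, ?_, diff_ww_QRegI hm hr hl1 hj,
    norm_pos_iff.1 (by linarith), fun z hz => ?_, fun z hz => ?_, fun n hn => ?_, fun n hn => ?_⟩
  · refine DifferentiableOn.div ?_ (diff_tau_QRegI hr hm0 (by linarith)) hne
    unfold sumT
    refine DifferentiableOn.fun_sum fun i hi => diff_tau_QRegI hr hm0 ?_
    have : (i : ℝ) ≤ j + N := by exact_mod_cast Nat.lt_succ_iff.1 (Finset.mem_range.1 hi)
    linarith
  · have h2 : ‖sumT r s (j + N) z / tau r s j z‖ ≤ B := by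
      rw [norm_div, div_le_iff₀ (norm_pos_iff.2 (hne z hz))]
      exact hsum r s m j N l z hr hrs hl hm0 hX hz hj hj' hJ
    exact h2.trans (le_mul_of_one_le_right (by linarith) h1)
  · exact ww_le_QRegI hm (ball_QRegI hr hz) hr hs hl0 hl2 hj hX
  · have h2 := nz_QRegI (ball_QRegI hr hn)
    rw [Complex.norm_natCast] at h2
    have h3 : n ≤ j + N := by
      have : (n : ℝ) ≤ N := by linarith
      have : n ≤ N := by exact_mod_cast this
      omega
    show ((apery r s n : ℝ) : ℂ) =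
      (n.centralBinom : ℂ) ^ s * tau r s j n * (sumT r s (j + N) n / tau r s j n)
    rw [mul_assoc, mul_div_cancel₀ _ (hne _ hn), sumT, Finset.mul_sum]
    simp only [hT r s n _ hr]
    rw [← Nat.cast_sum, ← hS r s n _ hr h3, ofReal_natCast]
  · have h2 := exp_ww_QRegI (r := r) (s := s) hm (ball_QRegI hr hn) hl1 hj
    have h3 := congrArg (· ^ s) (cb_rel_QRegI n)
    simp only [mul_pow] at h3
    have e1 : (n : ℂ) + 1 - 1 = n := by ring
    have e2 : (n : ℂ) + 1 + 1 = ((n + 2 : ℕ) : ℂ) := by push_cast; ring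
    have e3 : (n : ℂ) + 1 = ((n + 1 : ℕ) : ℂ) := by push_cast; ring
    rw [e1, e2] at h2
    rw [← pow_mul, mul_comm 2 s, pow_mul] at h3
    show (n.centralBinom : ℂ) ^ s * tau r s j n *
        (((n + 2).centralBinom : ℂ) ^ s * tau r s j ((n + 2 : ℕ) : ℂ)) =
      (((n + 1).centralBinom : ℂ) ^ s * tau r s j ((n + 1 : ℕ) : ℂ)) ^ 2 *
        exp (ww_QRegI r s j (n + 1))
    rw [← e3, mul_mul_mul_comm, h3, mul_assoc, h2]
    ring

end Pool.Agent.MP_6026f4_co.Q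

end

section

namespace Pool.Agent.MP_6026f4_co.Q
open Complex Metric

theorem head_QRegII (t : ℕ → ℝ) (a : ℕ) (h : ∀ i < a, t i ≤ 0.96 * t (i + 1)) (h0 : 0 ≤ t 0) :
    ∑ i ∈ Finset.range a, t i ≤ 24 * t a := by
  induction a with
  | zero => simp only [Finset.range_zero, Finset.sum_empty]; linarith
  | succ a ih =>
    have h1 := ih fun i hi => h i (by omega)
    have h2 := h a (by omega)
    rw [Finset.sum_range_succ]
    linarith

theorem tail_QRegII (t : ℕ → ℝ) (M : ℕ) (h : ∀ k < M, t (k + 1) ≤ 0.96 * t k) :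
    ∑ k ∈ Finset.range M, t k ≤ 25 * t 0 - 25 * t M := by
  induction M with
  | zero => simp
  | succ M ih =>
    have h1 := ih fun i hi => h i (by omega)
    have h2 := h M (by omega)
    rw [Finset.sum_range_succ]
    linarith

theorem bnat_QRegII (n : ℕ) :
    Gamma (2 * (n : ℂ) + 1) / Gamma ((n : ℂ) + 1) ^ 2 = n.centralBinom := by
  have h1 : (2 * (n : ℂ)) = ((2 * n : ℕ) : ℂ) := by push_cast; ring
  have h2 := Nat.choose_mul_factorial_mul_factorial (n := 2 * n) (k := n) (by omega)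
  rw [show 2 * n - n = n by omega] at h2
  have h3 : (n.factorial : ℂ) ≠ 0 := Nat.cast_ne_zero.2 n.factorial_ne_zero
  rw [h1, Complex.Gamma_nat_eq_factorial, Complex.Gamma_nat_eq_factorial, ← h2,
    Nat.centralBinom_eq_two_mul_choose]
  push_cast
  field_simp

theorem gam_QRegII {z : ℂ} (hz : 0 < z.re) : DifferentiableAt ℂ Gamma z :=
  Complex.differentiableAt_Gamma z fun m h => by
    rw [h] at hz
    simp only [neg_re, natCast_re] at hz
    linarith [(Nat.cast_nonneg m : (0 : ℝ) ≤ m)]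

theorem near_QRegII {M : ℝ} {z : ℂ} (hM : 0 ≤ M) (hz : ‖z - M‖ ≤ M / 1000) :
    0.999 * M ≤ z.re ∧ z.re ≤ 1.001 * M ∧ 0.999 * M ≤ ‖z‖ ∧ ‖z‖ ≤ 1.001 * M := by
  have h1 := abs_le.1 ((abs_re_le_norm (z - M)).trans hz)
  simp only [sub_re, ofReal_re] at h1
  have h2 := re_le_norm z
  have h3 := norm_le_norm_add_norm_sub' z (M : ℂ)
  rw [norm_real, Real.norm_of_nonneg hM] at h3
  refine ⟨by linarith, by linarith, by linarith, by linarith⟩

theorem unorm_QRegII {M : ℝ} {z : ℂ} (hM : 1000 ≤ M) (hz : ‖z - M‖ ≤ M / 1000) :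
    ‖1 / z ^ 2‖ ≤ 1.01 * (1 / M ^ 2) ∧ 1 / M ^ 2 ≤ 1 / 10 ^ 6 := by
  obtain ⟨-, -, h1, -⟩ := near_QRegII (by linarith) hz
  have hz0 : 0 < ‖z‖ := by linarith
  refine ⟨?_, one_div_le_one_div_of_le (by norm_num) (by nlinarith)⟩
  rw [norm_div, norm_one, norm_pow, mul_one_div, div_le_div_iff₀ (by positivity) (by positivity)]
  nlinarith

theorem w_QRegII (r s : ℕ) {M : ℝ} {z : ℂ} (hM : 1000 ≤ M) (hrs : 100 * (r : ℝ) ≤ s)
    (hz : ‖z - M‖ ≤ M / 1000) :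
    ‖-(((r : ℂ) + s) / 2) * log (1 - 1 / z ^ 2) - ((s / (2 * M ^ 2) : ℝ) : ℂ)‖ ≤
      s / (2 * M ^ 2) / 8 := by
  obtain ⟨-, -, h1, h2⟩ := near_QRegII (by linarith) hz
  obtain ⟨h3, h4⟩ := unorm_QRegII hM hz
  have hM0 : 0 < M := by linarith
  have hz0 : z ≠ 0 := norm_pos_iff.1 (by linarith)
  have hMc : (M : ℂ) ≠ 0 := ofReal_ne_zero.2 hM0.ne'
  have hr : (0 : ℝ) ≤ r := Nat.cast_nonneg r
  set p := 1 / M ^ 2 with hp
  have hp0 : 0 < p := by positivity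
  have hd : ‖1 / z ^ 2 - (p : ℂ)‖ ≤ 0.003 * p := by
    have e : 1 / z ^ 2 - (p : ℂ) = -((z - M) * (z + M) * (1 / z ^ 2) * (p : ℂ)) := by
      rw [hp]
      push_cast
      field_simp
      ring
    have h5 : ‖z + M‖ ≤ 2.001 * M := by
      have := norm_add_le z (M : ℂ)
      rw [norm_real, Real.norm_of_nonneg hM0.le] at this
      linarith
    have h6 : M ^ 2 * p = 1 := by rw [hp]; field_simp
    rw [e, norm_neg, norm_mul, norm_mul, norm_mul, norm_real, Real.norm_of_nonneg hp0.le]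
    calc ‖z - M‖ * ‖z + M‖ * ‖1 / z ^ 2‖ * p ≤ M / 1000 * (2.001 * M) * (1.01 * p) * p := by gcongr
      _ = 2.001 * 1.01 / 1000 * (M ^ 2 * p) * p := by ring
      _ ≤ 0.003 * p := by rw [h6]; nlinarith
  set u := 1 / z ^ 2 with hu
  have he : ‖log (1 - u) + u‖ ≤ 1 / 1000 * p := by
    have h5 := norm_log_one_add_sub_self_le (z := -u) (by rw [norm_neg]; linarith)
    rw [norm_neg, sub_neg_eq_add, ← sub_eq_add_neg] at h5
    have h6 : (1 - ‖u‖)⁻¹ ≤ 2 := by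
      rw [inv_le_comm₀ (by linarith) (by norm_num)]
      linarith
    have h8 : 0 ≤ (1 - ‖u‖)⁻¹ := inv_nonneg.2 (by linarith)
    have h7 : ‖u‖ ^ 2 * (1 - ‖u‖)⁻¹ ≤ (1.01 * p) ^ 2 * 2 := by gcongr
    nlinarith
  have e : -(((r : ℂ) + s) / 2) * log (1 - u) - ((s / (2 * M ^ 2) : ℝ) : ℂ) =
      -((((r + s) / 2 : ℝ) : ℂ) * (log (1 - u) + u)) + ((r / 2 : ℝ) : ℂ) * u +
        ((s / 2 : ℝ) : ℂ) * (u - p) := by
    rw [hp]
    push_cast
    field_simp
    ring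
  have e2 : (s : ℝ) / (2 * M ^ 2) / 8 = s * p / 16 := by rw [hp]; field_simp; ring
  rw [e, e2]
  refine (norm_add₃_le).trans ?_
  rw [norm_neg, norm_mul, norm_mul, norm_mul, norm_real, norm_real, norm_real,
    Real.norm_of_nonneg (by positivity), Real.norm_of_nonneg (by positivity),
    Real.norm_of_nonneg (by positivity)]
  have a1 : ((r : ℝ) + s) / 2 * ‖log (1 - u) + u‖ ≤ s * (1 / 1000 * p) := by
    gcongr
    linarith
  have a2 : (r : ℝ) / 2 * ‖u‖ ≤ s / 200 * (1.01 * p) := by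
    gcongr ?_ * ?_
    linarith
  have a3 : (s : ℝ) / 2 * ‖u - p‖ ≤ s / 2 * (0.003 * p) := by gcongr
  have a4 : 0 ≤ s * p := by positivity
  nlinarith

theorem rel_QRegII (r s : ℕ) (l : ℝ) (c : ℂ) {n : ℕ} (hn : 1 ≤ n) :
    c * eMain r s l n * (c * eMain r s l ((n + 2 : ℕ) : ℂ)) =
      (c * eMain r s l ((n + 1 : ℕ) : ℂ)) ^ 2 *
        exp (-(((r : ℂ) + s) / 2) * log (1 - 1 / ((n : ℂ) + 1) ^ 2)) := by
  have h0 : (0 : ℝ) < n := Nat.cast_pos.2 hn
  have h1 : ((n : ℂ) + 1) ≠ 0 := by exact_mod_cast Nat.succ_ne_zero n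
  have e : (1 - 1 / ((n : ℂ) + 1) ^ 2) = ((n * (n + 2) / (n + 1) ^ 2 : ℝ) : ℂ) := by
    push_cast
    field_simp
    ring
  have e1 : log (1 - 1 / ((n : ℂ) + 1) ^ 2) = log n + log (n + 2) - 2 * log (n + 1) := by
    rw [e, ← ofReal_log (by positivity), Real.log_div (by positivity) (by positivity),
      Real.log_mul (by positivity) (by positivity), Real.log_pow, ofReal_sub, ofReal_add,
      ofReal_mul, ofReal_log (by positivity), ofReal_log (by positivity),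
      ofReal_log (by positivity)]
    push_cast
    ring
  rw [e1, mul_pow, eMain, eMain, eMain, ← exp_nat_mul, mul_mul_mul_comm, ← exp_add,
    mul_assoc (c ^ 2), ← exp_add, sq]
  congr 2
  push_cast
  ring

theorem dtau_QRegII (r s j : ℕ) {z : ℂ} (hz : (j : ℝ) ≤ 2 * z.re) :
    DifferentiableAt ℂ (tau r s j) z := by
  refine DifferentiableAt.fun_finsetProd (f := fun i z => qq r s i z) fun i hi => ?_
  have h1 : (i : ℝ) < j := Nat.cast_lt.2 (Finset.mem_range.1 hi)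
  have h2 : 2 * z - i ≠ 0 := fun h => by
    have := congrArg re h
    simp at this
    linarith
  have h3 : (i : ℂ) + 1 ≠ 0 := by exact_mod_cast Nat.succ_ne_zero i
  unfold qq
  exact DifferentiableAt.div (by fun_prop) (by fun_prop) (by positivity)

theorem dh_QRegII (r s J : ℕ) (l : ℝ) {c z : ℂ} (hc : c ≠ 0) (h0 : 0 < z.re)
    (hz : (J : ℝ) ≤ 2 * z.re) : DifferentiableAt ℂ (fun z =>
      (Gamma (2 * z + 1) / Gamma (z + 1) ^ 2) ^ s * sumT r s J z / (c * eMain r s l z)) z := by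
  have h1 : DifferentiableAt ℂ (fun z => Gamma (2 * z + 1)) z :=
    (gam_QRegII (by simp; linarith)).comp z (by fun_prop)
  have h2 : DifferentiableAt ℂ (fun z => Gamma (z + 1)) z :=
    (gam_QRegII (by simp; linarith)).comp z (by fun_prop)
  have h3 : Gamma (z + 1) ≠ 0 := Gamma_ne_zero_of_re_pos (by simp; linarith)
  have h4 : DifferentiableAt ℂ (sumT r s J) z :=
    DifferentiableAt.fun_sum (A := fun j z => tau r s j z) fun j hj => dtau_QRegII r s j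
      (le_trans (Nat.cast_le.2 (Nat.lt_succ_iff.1 (Finset.mem_range.1 hj))) hz)
  have h5 : DifferentiableAt ℂ (fun z : ℂ => log z) z := differentiableAt_log (Or.inl h0)
  have h6 : DifferentiableAt ℂ (eMain r s l) z :=
    ((differentiableAt_id.mul_const _).sub (h5.const_mul _)).cexp
  exact (((h1.div (h2.pow 2) (pow_ne_zero 2 h3)).pow s).mul h4).div (h6.const_mul c)
    (mul_ne_zero hc (exp_ne_zero _))

theorem dw_QRegII (a : ℂ) {M : ℝ} {z : ℂ} (hM : 1000 ≤ M) (hz : ‖z - M‖ ≤ M / 1000) :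
    DifferentiableAt ℂ (fun z : ℂ => a * log (1 - 1 / z ^ 2)) z := by
  obtain ⟨-, -, h1, -⟩ := near_QRegII (by linarith) hz
  obtain ⟨h3, h4⟩ := unorm_QRegII hM hz
  have hz0 : z ≠ 0 := norm_pos_iff.1 (by linarith)
  refine DifferentiableAt.const_mul (DifferentiableAt.clog ?_ ?_) a
  · exact (differentiableAt_const _).sub
      ((differentiableAt_const _).div (by fun_prop) (pow_ne_zero 2 hz0))
  · rw [sub_eq_add_neg]
    exact mem_slitPlane_of_norm_lt_one (by rw [norm_neg]; linarith)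

theorem dG_QRegII (r s : ℕ) {z x : ℂ} (h0 : -1 < x.re) (h1 : x.re < z.re) :
    DifferentiableAt ℂ (tG r s z) x := by
  have a1 : DifferentiableAt ℂ (fun x => Gamma (2 * z - x + 1)) x :=
    (gam_QRegII (by simp; linarith)).comp x (by fun_prop)
  have a2 : DifferentiableAt ℂ (fun x => Gamma (x + 1)) x :=
    (gam_QRegII (by simp; linarith)).comp x (by fun_prop)
  have a3 : DifferentiableAt ℂ (fun x => Gamma (z - x + 1)) x :=
    (gam_QRegII (by simp; linarith)).comp x (by fun_prop)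
  have b1 : Gamma (z + 1) ≠ 0 := Gamma_ne_zero_of_re_pos (by simp; linarith)
  have b2 : Gamma (x + 1) ≠ 0 := Gamma_ne_zero_of_re_pos (by simp; linarith)
  have b3 : Gamma (z - x + 1) ≠ 0 := Gamma_ne_zero_of_re_pos (by simp; linarith)
  exact ((a1.pow s).const_mul _).div (((a2.pow r).const_mul _).mul (a3.pow _))
    (mul_ne_zero (mul_ne_zero (pow_ne_zero _ b1) (pow_ne_zero _ b2)) (pow_ne_zero _ b3))

end Pool.Agent.MP_6026f4_co.Q

end
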