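import Pool.Agent.Mg.F6026f4p.G28cfa3

namespace Pool.Agent.MP_6026f4_co.Q
open Complex Metric

theorem key_QRegII (hK : KeyEst) {r s m : ℕ} {l : ℝ} (hr : 1 ≤ r) (hrs : r ≤ s) (hl : Lam r s l)
    (hm : 1000 * r ≤ l * m) : ∃ c : ℂ, c ≠ 0 ∧ ∀ z w : ℂ, ‖z - m‖ ≤ m / 1000 → ‖w‖ ≤ l * m / 11 →
      Real.exp (-(3 * w.re ^ 2 / (4 * (l * m / r))) - 2) ≤
        ‖tG r s z (l * z + w) / (c * eMain r s l z)‖ ∧
      ‖tG r s z (l * z + w) / (c * eMain r s l z)‖ ≤
        Real.exp (-w.re ^ 2 / (4 * (l * m / r)) + 3 * w.im ^ 2 / (4 * (l * m / r)) + 2) := by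
  obtain ⟨c, hc, h⟩ := hK r s m l hr hrs hl hm
  refine ⟨c, hc, fun z w hz hw => ?_⟩
  obtain ⟨θ, h1, h2⟩ := h z w hz hw
  have hr0 : (0 : ℝ) < r := Nat.cast_pos.2 hr
  have hX : 0 < l * m := by linarith
  have hE : c * eMain r s l z ≠ 0 := mul_ne_zero hc (exp_ne_zero _)
  rw [h1, mul_div_cancel_left₀ _ hE, norm_exp, Real.exp_le_exp, Real.exp_le_exp]
  have e1 : ((r : ℂ) / (2 * l * m)) = ((2 * (r / (4 * (l * m))) : ℝ) : ℂ) := by
    push_cast
    ring
  have e2 : (r : ℝ) / (4 * l * m) = r / (4 * (l * m)) := by rw [mul_assoc]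
  have e3 : ∀ y : ℝ, y / (4 * (l * m / r)) = y * (r / (4 * (l * m))) := fun y => by field_simp
  rw [e1, e2, Complex.sq_norm, normSq_apply] at h2
  have h3 := abs_le.1 ((abs_re_le_norm _).trans h2)
  rw [add_re, re_mul_ofReal, sq, mul_re] at h3
  rw [e3, e3, e3]
  have h4 : 0 ≤ w.im ^ 2 * (r / (4 * (l * m))) := by positivity
  constructor <;> nlinarith [h3.1, h3.2]

theorem edge_QRegII {X v : ℝ} {w : ℂ} (hX : 0 < X) (hv : 0 < v) (h1 : 0.04 * X ≤ |w.re|)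
    (h2 : |w.re| ≤ 0.06 * X) (h3 : |w.im| ≤ X / 1000) :
    ‖w‖ ≤ X / 11 ∧ Real.exp (-w.re ^ 2 / (4 * v) + 3 * w.im ^ 2 / (4 * v) + 2) ≤ 8 := by
  refine ⟨(norm_le_abs_re_add_abs_im w).trans (by linarith), ?_⟩
  have h4 : 3 * w.im ^ 2 ≤ w.re ^ 2 := by
    rw [← sq_abs w.im, ← sq_abs w.re]
    nlinarith [abs_nonneg w.im]
  have h5 : -w.re ^ 2 / (4 * v) + 3 * w.im ^ 2 / (4 * v) ≤ 0 := by
    rw [← add_div]
    exact div_nonpos_of_nonpos_of_nonneg (by linarith) (by positivity)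
  calc _ ≤ Real.exp (1 + 1) := Real.exp_le_exp.2 (by linarith)
    _ ≤ 8 := by
      rw [Real.exp_add]
      nlinarith [Real.exp_one_lt_d9, Real.exp_pos 1]

theorem up_QRegII (hP : PlanaBd) (hG : TGNat) (hU : RatU) (hL : RatL) {r s m J : ℕ} {l : ℝ}
    {D z : ℂ} (hr : 1 ≤ r) (hrs : r ≤ s) (hl : Lam r s l) (hm : 1000 * r ≤ l * m)
    (hJ1 : m ≤ J) (hJ2 : (J : ℝ) ≤ 1.2 * m) (hz : ‖z - m‖ ≤ m / (1000 * r))
    (hF : ∀ w : ℂ, ‖w‖ ≤ l * m / 11 → ‖tG r s z (l * z + w) / D‖ ≤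
      Real.exp (-w.re ^ 2 / (4 * (l * m / r)) + 3 * w.im ^ 2 / (4 * (l * m / r)) + 2)) :
    ‖(Gamma (2 * z + 1) / Gamma (z + 1) ^ 2) ^ s * sumT r s J z / D‖ ≤ 800 * √(l * m / r) := by
  have hr1 : (1 : ℝ) ≤ r := Nat.one_le_cast.2 hr
  have hs1 : (1 : ℝ) ≤ s := Nat.one_le_cast.2 (hr.trans hrs)
  have hl0 := hl.1
  have hl1 : l ≤ 1 / 1000 := by nlinarith [hl.2.1]
  have hm0 : (0 : ℝ) ≤ m := Nat.cast_nonneg m
  have hz' : ‖z - ((m : ℝ) : ℂ)‖ ≤ m / 1000 := by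
    rw [ofReal_natCast]
    exact hz.trans (div_le_div_of_nonneg_left hm0 (by norm_num) (by linarith))
  obtain ⟨n1, n2, n3, n4⟩ := near_QRegII hm0 hz'
  have him : l * |z.im| ≤ l * m / r / 1000 := by
    have h1 := (abs_im_le_norm (z - m)).trans hz
    rw [sub_im, natCast_im, sub_zero] at h1
    calc l * |z.im| ≤ l * (m / (1000 * r)) := by gcongr
      _ = _ := by field_simp
  have m1 : 0.999 * (l * m) ≤ l * z.re := by linarith only [mul_le_mul_of_nonneg_left n1 hl0.le]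
  have m2 : l * z.re ≤ 1.001 * (l * m) := by linarith only [mul_le_mul_of_nonneg_left n2 hl0.le]
  have m3 : 0.999 * (l * m) ≤ l * ‖z‖ := by linarith only [mul_le_mul_of_nonneg_left n3 hl0.le]
  have m4 : l * ‖z‖ ≤ 1.001 * (l * m) := by linarith only [mul_le_mul_of_nonneg_left n4 hl0.le]
  have m5 : l * m ≤ m / 1000 := by linarith only [mul_le_mul_of_nonneg_right hl1 hm0]
  have hv1 : 1000 ≤ l * m / r := by rwa [le_div_iff₀ (by linarith)]
  have hv2 : l * m / r ≤ l * m := div_le_self (by positivity) hr1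
  clear hz hz'
  generalize l * m / r = v at *
  generalize l * m = X at *
  have hX1 : 1000 ≤ X := by linarith
  have a1 : 0.95 * X ≤ ⌈0.95 * X⌉₊ := Nat.le_ceil _
  have a2 : (⌈0.95 * X⌉₊ : ℝ) < 0.95 * X + 1 := Nat.ceil_lt_add_one (by linarith)
  have b1 : (⌊1.05 * X⌋₊ : ℝ) ≤ 1.05 * X := Nat.floor_le (by linarith)
  have b2 : 1.05 * X < ⌊1.05 * X⌋₊ + 1 := Nat.lt_floor_add_one _
  generalize ⌈0.95 * X⌉₊ = a at a1 a2
  generalize ⌊1.05 * X⌋₊ = b at b1 b2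
  obtain ⟨N, rfl⟩ := Nat.exists_eq_add_of_le (show a ≤ b by
    rw [← Nat.cast_le (α := ℝ)]; linarith)
  obtain ⟨M, hM⟩ := Nat.exists_eq_add_of_le (show a + N ≤ J + 1 by
    have : (m : ℝ) ≤ J := Nat.cast_le.2 hJ1
    rw [← Nat.cast_le (α := ℝ), Nat.cast_succ]; linarith)
  have hM' : (J : ℝ) + 1 = a + N + M := by exact_mod_cast hM
  push_cast at b1 b2
  set T : ℕ → ℂ := fun j => (Gamma (2 * z + 1) / Gamma (z + 1) ^ 2) ^ s * tau r s j z / D with hT
  have hs : ∀ j, ‖T (j + 1)‖ = ‖T j‖ * ‖qq r s j z‖ := fun j => by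
    rw [← norm_mul, hT]
    simp only [tau, Finset.prod_range_succ]
    congr 1
    ring
  have hTG : ∀ j : ℕ, (j : ℝ) ≤ a + N → T j = tG r s z j / D := fun j hj => by
    rw [hG r s j z (by linarith)]
  have hedge : ∀ j : ℕ, (j : ℝ) ≤ a + N → 0.04 * X ≤ |j - l * z.re| → |j - l * z.re| ≤ 0.06 * X →
      ‖T j‖ ≤ 8 := fun j hj h1 h2 => by
    obtain ⟨h3, h4⟩ := edge_QRegII (X := X) (v := v) (w := j - l * z) (by linarith) (by linarith)
      (by simpa using h1) (by simpa using h2) (by simp [abs_mul, abs_of_pos hl0]; linarith)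
    have := hF _ h3
    rw [add_sub_cancel] at this
    rw [hTG j hj]
    exact this.trans h4
  have N0 : (0 : ℝ) ≤ N := Nat.cast_nonneg N
  have ea := hedge a (by linarith) (le_abs.2 (Or.inr (by linarith)))
    (abs_le.2 ⟨by linarith, by linarith⟩)
  have eb := hedge (a + N) (by push_cast; linarith) (le_abs.2 (Or.inl (by push_cast; linarith)))
    (abs_le.2 ⟨by push_cast; linarith, by push_cast; linarith⟩)
  have s1 := head_QRegII (fun i => ‖T i‖) a (fun i hi => by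
    have h1 : (i : ℝ) + 1 ≤ a := by exact_mod_cast hi
    have h0 : (0 : ℝ) ≤ i := Nat.cast_nonneg i
    have h2 := hL r s l hr hrs hl z i (norm_pos_iff.1 (by linarith)) (by linarith)
    have h3 : 1.05 ≤ l * ‖z‖ / (i + 1) := by rw [le_div_iff₀ (by linarith)]; linarith
    have h4 := le_self_pow₀ (show 1 ≤ l * ‖z‖ / (i + 1) by linarith) (show r ≠ 0 by omega)
    have h5 := mul_le_mul_of_nonneg_left (show 1.048 ≤ ‖qq r s i z‖ by linarith only [h2, h3, h4])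
      (norm_nonneg (T i))
    rw [hs]
    linarith only [h5, norm_nonneg (T i)]) (norm_nonneg _)
  have s3 := tail_QRegII (fun k => ‖T (a + N + k)‖) M (fun k hk => by
    have h1 : (k : ℝ) + 1 ≤ M := by exact_mod_cast hk
    have h0 : (0 : ℝ) ≤ k := Nat.cast_nonneg k
    have h2 := hU r s l hr hrs hl z (a + N + k) (by linarith) (by push_cast; linarith)
    have h3 : l * ‖z‖ / (((a + N + k : ℕ) : ℝ) + 1) ≤ 0.954 := by
      rw [div_le_iff₀ (by positivity)]; push_cast; linarith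
    have h4 := pow_le_of_le_one (show 0 ≤ l * ‖z‖ / (((a + N + k : ℕ) : ℝ) + 1) by positivity)
      (by linarith) (show r ≠ 0 by omega)
    have h5 := mul_le_mul_of_nonneg_left
      (show ‖qq r s (a + N + k) z‖ ≤ 0.96 by linarith only [h2, h3, h4]) (norm_nonneg (T (a + N + k)))
    rw [← add_assoc, hs]
    linarith only [h5])
  have s2 := hP (fun x => tG r s z x / D) (l * z) X v a N hv1 hv2
    (by rw [re_ofReal_mul]; exact abs_le.2 ⟨by linarith, by linarith⟩)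
    (by rw [im_ofReal_mul, abs_mul, abs_of_pos hl0]; exact him)
    (abs_le.2 ⟨by linarith, by linarith⟩) (abs_le.2 ⟨by linarith, by linarith⟩)
    (fun x h1 h2 => (dG_QRegII r s (by linarith) (by linarith)).div_const D) hF
  have e2 : ∑ k ∈ Finset.range N, T (a + k) = ∑ k ∈ Finset.range N, tG r s z (a + k) / D :=
    Finset.sum_congr rfl fun k hk => by
      have h1 : (k : ℝ) < N := Nat.cast_lt.2 (Finset.mem_range.1 hk)
      rw [hTG _ (by push_cast; linarith), Nat.cast_add]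
  have e : (Gamma (2 * z + 1) / Gamma (z + 1) ^ 2) ^ s * sumT r s J z / D =
      ∑ j ∈ Finset.range (J + 1), T j := by rw [sumT, Finset.mul_sum, Finset.sum_div]
  rw [e, hM, Finset.sum_range_add, Finset.sum_range_add, e2]
  have t1 := norm_sum_le (Finset.range a) T
  have t3 := norm_sum_le (Finset.range M) fun k => T (a + N + k)
  have t4 : 1 ≤ √v := Real.one_le_sqrt.2 (by linarith)
  have t5 := norm_nonneg (T (a + N + M))
  rw [add_zero] at s3
  refine norm_add₃_le.trans ?_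
  linarith

end Pool.Agent.MP_6026f4_co.Q
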