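import Mathlib

section

namespace Pool.Agent.MP_6026f4_co

open Complex Set Filter Topology

/-- Sectors around the positive real axis (closed, containing zero). -/
def Sec (η : ℝ) : Set ℂ := {w | η * ‖w‖ ≤ ‖w‖ + w.re}

theorem Sec.slitPlane {η : ℝ} (hη : 0 < η) {w : ℂ} (hw : w ∈ Sec η) (h0 : w ≠ 0) :
    w ∈ slitPlane := by
  by_contra h
  rw [mem_slitPlane_iff, not_or, not_lt, not_not] at h
  have h1 : ‖w‖ = -w.re := by
    rw [← abs_of_nonpos h.1, ← Complex.abs_re_eq_norm.2 h.2]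
  have h2 : 0 < ‖w‖ := norm_pos_iff.2 h0
  have h3 : η * ‖w‖ ≤ ‖w‖ + w.re := hw
  nlinarith

theorem Sec.mono {η η' : ℝ} (h : η' ≤ η) {w : ℂ} (hw : w ∈ Sec η) : w ∈ Sec η' := by
  have h3 : η * ‖w‖ ≤ ‖w‖ + w.re := hw
  change η' * ‖w‖ ≤ ‖w‖ + w.re
  nlinarith [norm_nonneg w]

theorem Sec.of_re_nonneg {η : ℝ} (hη : η ≤ 1) {w : ℂ} (hw : 0 ≤ w.re) : w ∈ Sec η := by
  change η * ‖w‖ ≤ ‖w‖ + w.re
  nlinarith [norm_nonneg w]

theorem Sec.smul {η ρ : ℝ} (hρ : 0 ≤ ρ) {w : ℂ} (hw : w ∈ Sec η) : (ρ : ℂ) * w ∈ Sec η := by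
  have h3 : η * ‖w‖ ≤ ‖w‖ + w.re := hw
  change η * ‖(ρ : ℂ) * w‖ ≤ ‖(ρ : ℂ) * w‖ + ((ρ : ℂ) * w).re
  rw [norm_mul, norm_real, Real.norm_eq_abs, abs_of_nonneg hρ, re_ofReal_mul]
  nlinarith

theorem Sec.norm_add_ge {η : ℝ} (hη1 : η ≤ 1) {w : ℂ} (hw : w ∈ Sec η) {x : ℝ} (hx : 0 ≤ x) :
    η * (‖w‖ + x) ^ 2 / 2 ≤ ‖w + x‖ ^ 2 := by
  have h3 : η * ‖w‖ ≤ ‖w‖ + w.re := hw
  have h1 : ‖w + x‖ ^ 2 = ‖w‖ ^ 2 + 2 * x * w.re + x ^ 2 := by
    rw [Complex.sq_norm, Complex.sq_norm, normSq_apply, normSq_apply]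
    simp; ring
  rw [h1]
  by_cases hη : 0 ≤ η
  · nlinarith [mul_nonneg (sub_nonneg.2 hη1) (sq_nonneg (‖w‖ - x)),
      mul_nonneg hη (sq_nonneg (‖w‖ - x)), mul_le_mul_of_nonneg_left h3 hx]
  · have h4 : -‖w‖ ≤ w.re := by linarith [abs_le.1 (abs_re_le_norm w)]
    nlinarith [sq_nonneg (‖w‖ - x), mul_le_mul_of_nonneg_left h4 hx, sq_nonneg (‖w‖ + x)]

theorem slit_add {w : ℂ} (hw : w ∈ slitPlane) {x : ℝ} (hx : 0 ≤ x) : w + x ∈ slitPlane := by
  rcases hw with h | h
  · left; simp; linarith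
  · right; simpa using h

/-- The main term of the logarithm of the Gamma function. -/
noncomputable def ell (z : ℂ) : ℂ := (z - 1 / 2) * log z - z

/-- The increments of the remainder. -/
noncomputable def phiS (w : ℂ) : ℂ := (w + 1 / 2) * (log (w + 1) - log w) - 1

theorem ell_succ (w : ℂ) : ell (w + 1) = ell w + phiS w + log w := by
  simp only [ell, phiS]; ring

theorem norm_phiS_le {η : ℝ} (hη : 0 < η) (hη1 : η ≤ 1) {z : ℂ} (hz : z ∈ Sec η) (h0 : z ≠ 0)
    {x : ℝ} (hx : 0 ≤ x) : ‖phiS (z + x)‖ ≤ 1 / (2 * η * (‖z‖ + x) ^ 2) := by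
  set w := z + x with hw
  have hzs := Sec.slitPlane hη hz h0
  have hzn : 0 < ‖z‖ := norm_pos_iff.2 h0
  have hlow : ∀ t : ℝ, 0 ≤ t → η * (‖z‖ + x) ^ 2 / 2 ≤ ‖w + t‖ ^ 2 := by
    intro t ht
    have := Sec.norm_add_ge hη1 hz (add_nonneg hx ht)
    rw [hw, add_assoc, ← ofReal_add]
    refine le_trans ?_ this
    gcongr
    linarith
  have hslit : ∀ t : ℝ, 0 ≤ t → w + t ∈ slitPlane := fun t ht => slit_add (slit_add hzs hx) ht
  have hh : w + 1 / 2 ≠ 0 := by
    have := slitPlane_ne_zero (hslit (1 / 2) (by norm_num))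
    simpa using this
  have key := norm_image_sub_le_of_norm_deriv_le_segment_01'
    (f := fun t : ℝ => (w + 1 / 2) * log (w + t) - t - ((t : ℂ) - (t : ℂ) ^ 2) / 2 / (w + 1 / 2))
    (f' := fun t : ℝ => (1 / 2 - (t : ℂ)) ^ 2 / ((w + t) * (w + 1 / 2)))
    (C := 1 / (2 * η * (‖z‖ + x) ^ 2)) ?_ ?_
  · refine le_trans (le_of_eq ?_) key
    congr 1
    simp [phiS]; ring
  · intro t ht
    have h1 : HasDerivAt (fun t : ℝ => (t : ℂ)) 1 t := (hasDerivAt_id t).ofReal_comp
    have h2 := ((h1.const_add w).clog_real (hslit t ht.1)).const_mul (w + 1 / 2)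
    have h3 := (((h1.sub (h1.pow 2)).div_const 2).div_const (w + 1 / 2))
    refine ((h2.sub h1).sub h3).hasDerivWithinAt.congr_deriv ?_
    have := slitPlane_ne_zero (hslit t ht.1)
    obtain ⟨u, hu⟩ : ∃ u, u = w + 1 / 2 := ⟨_, rfl⟩
    have hwu : w = u - 1 / 2 := by rw [hu]; ring
    rw [← hu] at hh ⊢
    obtain ⟨v, hv⟩ : ∃ v, v = w + t := ⟨_, rfl⟩
    have hut : u = v - t + 1 / 2 := by rw [hu, hv]; ring
    rw [← hv] at this ⊢
    simp only [Nat.cast_ofNat, Nat.add_one_sub_one, pow_one]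
    field_simp
    rw [hut]
    ring
  · intro t ht
    rw [norm_div, norm_mul, norm_pow]
    have h1 : ‖(1 / 2 - (t : ℂ))‖ ^ 2 ≤ 1 / 4 := by
      have : (1 / 2 - (t : ℂ)) = ((1 / 2 - t : ℝ) : ℂ) := by push_cast; ring
      rw [this, norm_real, Real.norm_eq_abs, sq_abs]
      nlinarith [ht.1, ht.2]
    have h2 := hlow t ht.1
    have h3 := hlow (1 / 2) (by norm_num)
    have h3' : ((1 / 2 : ℝ) : ℂ) = 1 / 2 := by push_cast; ring
    rw [h3'] at h3
    have hp : 0 < η * (‖z‖ + x) ^ 2 / 2 := by positivity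
    have h4 : η * (‖z‖ + x) ^ 2 / 2 ≤ ‖w + t‖ * ‖w + 1 / 2‖ := by
      apply le_of_sq_le_sq _ (by positivity) |>.trans le_rfl
      rw [mul_pow, sq]
      exact mul_le_mul h2 h3 hp.le (by positivity)
    calc _ ≤ (1 / 4) / (η * (‖z‖ + x) ^ 2 / 2) := by gcongr
      _ = _ := by field_simp; ring

theorem sum_inv_sq_le {a : ℝ} (ha : 1 ≤ a) (n : ℕ) :
    ∑ k ∈ Finset.range n, 1 / (a + k) ^ 2 ≤ 2 / a := by
  have h : ∀ n : ℕ, ∑ k ∈ Finset.range n, 1 / (a + k) ^ 2 ≤ 1 / (a - 1 / 2) - 1 / (a + n - 1 / 2) := by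
    intro n
    induction n with
    | zero => simp
    | succ n ih =>
      rw [Finset.sum_range_succ]
      have hn : (0 : ℝ) ≤ n := Nat.cast_nonneg n
      have : 1 / (a + n) ^ 2 ≤ 1 / (a + n - 1 / 2) - 1 / (a + (n + 1 : ℕ) - 1 / 2) := by
        push_cast
        rw [div_sub_div _ _ (by linarith) (by linarith), div_le_div_iff₀ (by positivity)
          (mul_pos (by linarith) (by linarith))]
        nlinarith
      linarith
  have hn : (0 : ℝ) ≤ n := Nat.cast_nonneg n
  have h1 : 0 ≤ 1 / (a + n - 1 / 2) := div_nonneg zero_le_one (by linarith)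
  have h2 : 1 / (a - 1 / 2) ≤ 2 / a := by
    rw [div_le_div_iff₀ (by linarith) (by linarith)]; linarith
  linarith [h n]

theorem summable_phiS {η : ℝ} (hη : 0 < η) (hη1 : η ≤ 1) {z : ℂ} (hz : z ∈ Sec η)
    (h1 : 1 ≤ ‖z‖) : Summable (fun k : ℕ => phiS (z + k)) ∧
      ‖∑' k : ℕ, phiS (z + k)‖ ≤ 1 / η / ‖z‖ := by
  have h0 : z ≠ 0 := by rintro rfl; simp at h1; linarith
  have hb : ∀ k : ℕ, ‖phiS (z + k)‖ ≤ 1 / (2 * η) * (1 / (‖z‖ + k) ^ 2) := by
    intro k
    have := norm_phiS_le hη hη1 hz h0 (Nat.cast_nonneg k : (0 : ℝ) ≤ k)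
    rw [ofReal_natCast] at this
    refine this.trans (le_of_eq ?_)
    field_simp
  have hs : ∀ n, ∑ k ∈ Finset.range n, ‖phiS (z + k)‖ ≤ 1 / η / ‖z‖ := by
    intro n
    calc _ ≤ ∑ k ∈ Finset.range n, 1 / (2 * η) * (1 / (‖z‖ + k) ^ 2) :=
          Finset.sum_le_sum fun k _ => hb k
      _ = 1 / (2 * η) * ∑ k ∈ Finset.range n, 1 / (‖z‖ + k) ^ 2 := by rw [Finset.mul_sum]
      _ ≤ 1 / (2 * η) * (2 / ‖z‖) := by gcongr; exact sum_inv_sq_le h1 n
      _ = _ := by field_simp
  have hsum : Summable fun k : ℕ => ‖phiS (z + k)‖ :=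
    summable_of_sum_range_le (fun _ => norm_nonneg _) hs
  exact ⟨hsum.of_norm, (norm_tsum_le_tsum_norm hsum).trans
    (hsum.tsum_le_of_sum_range_le hs)⟩

theorem prod_eq_exp {z : ℂ} (hz : z ∈ slitPlane) (n : ℕ) :
    ∏ j ∈ Finset.range n, (z + j) =
      exp (ell (z + n) - ell z - ∑ k ∈ Finset.range n, phiS (z + k)) := by
  induction n with
  | zero => simp
  | succ n ih =>
    rw [Finset.prod_range_succ, ih, Finset.sum_range_succ]
    have h1 : z + n ≠ 0 := by
      have := slitPlane_ne_zero (slit_add hz (Nat.cast_nonneg n : (0 : ℝ) ≤ n))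
      simpa using this
    have h2 : z + ((n + 1 : ℕ) : ℂ) = (z + n) + 1 := by push_cast; ring
    rw [h2, ell_succ]
    conv_lhs => rw [← exp_log h1, ← exp_add]
    rw [exp_log h1]
    congr 1; ring

theorem tendsto_ell_diff (z : ℂ) :
    Tendsto (fun n : ℕ => z * log n + ell (1 + n) - ell (z + (n + 1 : ℕ))) atTop (𝓝 0) := by
  have h1 : Tendsto (fun n : ℕ => (n : ℂ) * log (1 + z / n)) atTop (𝓝 z) := by
    apply tendsto_nat_mul_log_one_add_of_tendsto
    refine tendsto_const_nhds.congr' ?_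
    filter_upwards [eventually_gt_atTop 0] with n hn
    have : (n : ℂ) ≠ 0 := by exact_mod_cast hn.ne'
    field_simp
  have h0 : Tendsto (fun n : ℕ => z / n) atTop (𝓝 0) := tendsto_const_div_atTop_nhds_zero_nat z
  have h2 : Tendsto (fun n : ℕ => log (1 + z / n)) atTop (𝓝 0) := by
    have := ((continuousAt_clog (x := 1) (by simp)).tendsto).comp (by simpa using h0.const_add 1)
    simpa [Function.comp_def] using this
  have h3 : Tendsto (fun n : ℕ => log (1 + (-1) / (n : ℂ))) atTop (𝓝 0) := by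
    have h0 : Tendsto (fun n : ℕ => (-1 : ℂ) / n) atTop (𝓝 0) :=
      tendsto_const_div_atTop_nhds_zero_nat _
    have := ((continuousAt_clog (x := 1) (by simp)).tendsto).comp (by simpa using h0.const_add 1)
    simpa [Function.comp_def] using this
  have h4 : Tendsto (fun m : ℕ => z * log (1 + (-1) / (m : ℂ)) -
      (m * log (1 + z / m) + (z - 1 / 2) * log (1 + z / m)) + z) atTop
      (𝓝 (z * 0 - (z + (z - 1 / 2) * 0) + z)) :=
    ((h3.const_mul z).sub (h1.add (h2.const_mul _))).add_const z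
  have h5 := h4.comp (tendsto_add_atTop_nat 1)
  simp only [mul_zero, add_zero, zero_sub, neg_add_cancel] at h5
  refine h5.congr' ?_
  have h6 : ∀ᶠ n : ℕ in atTop, ‖z‖ < n := tendsto_natCast_atTop_atTop.eventually_gt_atTop _
  filter_upwards [eventually_gt_atTop 0, h6] with n hn hz
  have hm : (0 : ℝ) < ((n + 1 : ℕ) : ℝ) := by positivity
  have hm' : ((n + 1 : ℕ) : ℂ) ≠ 0 := by exact_mod_cast hm.ne'
  have hn' : (n : ℂ) ≠ 0 := by exact_mod_cast hn.ne'
  have e1 : (n : ℂ) = (((n + 1 : ℕ) : ℝ) : ℂ) * (1 + (-1) / ((n + 1 : ℕ) : ℂ)) := by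
    rw [ofReal_natCast]; field_simp; push_cast; ring
  have e2 : z + ((n + 1 : ℕ) : ℂ) = (((n + 1 : ℕ) : ℝ) : ℂ) * (1 + z / ((n + 1 : ℕ) : ℂ)) := by
    rw [ofReal_natCast]; field_simp; ring
  have n1 : (1 + (-1) / ((n + 1 : ℕ) : ℂ)) ≠ 0 := by
    intro h; rw [h, mul_zero] at e1; exact hn' e1
  have n2 : (1 + z / ((n + 1 : ℕ) : ℂ)) ≠ 0 := by
    intro h; rw [h, mul_zero] at e2
    have : z = -((n + 1 : ℕ) : ℂ) := by linear_combination e2
    rw [this, norm_neg, Complex.norm_natCast] at hz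
    push_cast at hz
    linarith
  have l1 : log (n : ℂ) = Real.log ((n + 1 : ℕ) : ℝ) + log (1 + (-1) / ((n + 1 : ℕ) : ℂ)) := by
    rw [← log_ofReal_mul hm n1, ← e1]
  have l2 : log (z + ((n + 1 : ℕ) : ℂ)) =
      Real.log ((n + 1 : ℕ) : ℝ) + log (1 + z / ((n + 1 : ℕ) : ℂ)) := by
    rw [← log_ofReal_mul hm n2, ← e2]
  have l3 : log (1 + (n : ℂ)) = Real.log ((n + 1 : ℕ) : ℝ) := by
    rw [ofReal_log hm.le]; congr 1; push_cast; ring
  simp only [Function.comp, ell]
  rw [l1, l2, l3]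
  push_cast
  ring

/-- The constant in the Stirling formula. -/
noncomputable def stirC : ℂ := exp (-ell 1 - ∑' k : ℕ, phiS (1 + k))

theorem stirC_ne_zero : stirC ≠ 0 := exp_ne_zero _

/-- The remainder in the Stirling formula. -/
noncomputable def muS (z : ℂ) : ℂ := ∑' k : ℕ, phiS (z + k)

theorem Gamma_eq_stirling {η : ℝ} (hη : 0 < η) (hη1 : η ≤ 1) {z : ℂ} (hz : z ∈ Sec η)
    (h1 : 1 ≤ ‖z‖) : Gamma z = stirC * exp (ell z + muS z) := by
  have h0 : z ≠ 0 := by rintro rfl; simp at h1; linarith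
  have hzs := Sec.slitPlane hη hz h0
  have s1 := (summable_phiS hη hη1 hz h1).1.hasSum.tendsto_sum_nat.comp (tendsto_add_atTop_nat 1)
  have s2 := (summable_phiS one_pos le_rfl (z := 1) (Sec.of_re_nonneg le_rfl (by simp))
    (by simp)).1.hasSum.tendsto_sum_nat
  have s3 := (((tendsto_ell_diff z).add s1).sub s2).add_const (ell z - ell 1)
  have s4 := (continuous_exp.tendsto _).comp s3
  refine tendsto_nhds_unique (GammaSeq_tendsto_Gamma z) ?_
  have e : stirC * exp (ell z + muS z) =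
      exp (0 + ∑' k : ℕ, phiS (z + k) - ∑' k : ℕ, phiS (1 + k) + (ell z - ell 1)) := by
    rw [stirC, ← exp_add, muS]; congr 1; ring
  rw [e]
  refine s4.congr' ?_
  filter_upwards [eventually_gt_atTop 0] with n hn
  have hn' : (n : ℂ) ≠ 0 := by exact_mod_cast hn.ne'
  have f1 : ((n.factorial : ℕ) : ℂ) = ∏ j ∈ Finset.range n, ((1 : ℂ) + j) := by
    rw [← Finset.prod_range_add_one_eq_factorial]; push_cast
    exact Finset.prod_congr rfl fun j _ => add_comm _ _
  simp only [Function.comp, GammaSeq]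
  rw [prod_eq_exp hzs, f1, prod_eq_exp (by simp : (1 : ℂ) ∈ slitPlane), cpow_def_of_ne_zero hn',
    ← exp_add, ← exp_sub]
  congr 1; ring

theorem norm_muS_le {η : ℝ} (hη : 0 < η) (hη1 : η ≤ 1) {z : ℂ} (hz : z ∈ Sec η)
    (h1 : 1 ≤ ‖z‖) : ‖muS z‖ ≤ 1 / η / ‖z‖ := (summable_phiS hη hη1 hz h1).2

end Pool.Agent.MP_6026f4_co

end

section

namespace Pool.Agent.MP_6026f4_co

open Complex MeasureTheory Set Filter Topology Metric

/-- Holomorphy of an integral depending on a complex parameter. -/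
theorem differentiableOn_param_integral {α : Type*} [MeasurableSpace α] {μ : Measure α}
    {U : Set ℂ} (hU : IsOpen U) {F : ℂ → α → ℂ}
    (hd : ∀ᵐ a ∂μ, DifferentiableOn ℂ (fun z => F z a) U)
    (hm : ∀ z ∈ U, AEStronglyMeasurable (F z) μ)
    (hb : ∀ z₀ ∈ U, ∃ ε > 0, ∃ bound : α → ℝ, Integrable bound μ ∧
      ∀ᵐ a ∂μ, ∀ z ∈ ball z₀ ε, z ∈ U → ‖F z a‖ ≤ bound a) :
    DifferentiableOn ℂ (fun z => ∫ a, F z a ∂μ) U := by
  intro z₀ hz₀
  obtain ⟨ε, hε, bound, hbi, hbd⟩ := hb z₀ hz₀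
  obtain ⟨δ, hδ, hδU⟩ := Metric.isOpen_iff.1 hU z₀ hz₀
  set ρ := min ε δ / 3 with hρ
  have hρ0 : 0 < ρ := by positivity
  have hρε : 3 * ρ ≤ ε := by rw [hρ]; linarith [min_le_left ε δ]
  have hρδ : 3 * ρ ≤ δ := by rw [hρ]; linarith [min_le_right ε δ]
  have hsub : ∀ z ∈ ball z₀ ρ, closedBall z ρ ⊆ ball z₀ (3 * ρ) := by
    intro z hz w hw
    rw [mem_ball] at hz ⊢
    rw [mem_closedBall] at hw
    linarith [dist_triangle w z z₀]
  have hsubU : ball z₀ (3 * ρ) ⊆ U := (ball_subset_ball hρδ).trans hδU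
  have hmeas' : AEStronglyMeasurable (fun a => deriv (fun z => F z a) z₀) μ := by
    have hlim : Tendsto (fun k : ℕ => z₀ + ((ρ / (k + 1 : ℝ) : ℝ) : ℂ)) atTop (𝓝[≠] z₀) := by
      refine tendsto_nhdsWithin_iff.2 ⟨?_, Eventually.of_forall fun k => ?_⟩
      · have h1 : Tendsto (fun k : ℕ => ρ / (k + 1 : ℝ)) atTop (𝓝 0) :=
          tendsto_const_nhds.div_atTop (tendsto_natCast_atTop_atTop.atTop_add tendsto_const_nhds)
        have h2 := (continuous_ofReal.tendsto 0).comp h1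
        simpa using h2.const_add z₀
      · have : (0 : ℝ) < ρ / (k + 1 : ℝ) := by positivity
        simp only [mem_compl_iff, mem_singleton_iff, add_eq_left, ofReal_eq_zero]
        exact this.ne'
    refine aestronglyMeasurable_of_tendsto_ae (u := atTop)
      (f := fun (k : ℕ) a => slope (fun z => F z a) z₀ (z₀ + ((ρ / (k + 1 : ℝ) : ℝ) : ℂ))) ?_ ?_
    · intro k
      have hk : z₀ + ((ρ / (k + 1 : ℝ) : ℝ) : ℂ) ∈ U := by
        apply hsubU
        rw [mem_ball, dist_eq_norm, add_sub_cancel_left, norm_real, Real.norm_eq_abs,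
          abs_of_pos (by positivity)]
        have : ρ / (k + 1 : ℝ) ≤ ρ := div_le_self hρ0.le (by linarith [(Nat.cast_nonneg k : (0 : ℝ) ≤ k)])
        linarith
      simp only [slope_def_field]
      exact ((hm _ hk).sub (hm _ hz₀)).mul_const _
    · filter_upwards [hd] with a ha
      have h1 : HasDerivAt (fun z => F z a) (deriv (fun z => F z a) z₀) z₀ :=
        (ha.differentiableAt (hU.mem_nhds hz₀)).hasDerivAt
      exact (hasDerivAt_iff_tendsto_slope.1 h1).comp hlim
  have key := hasDerivAt_integral_of_dominated_loc_of_deriv_le (μ := μ) (F := F) (x₀ := z₀)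
    (F' := fun z a => deriv (fun z => F z a) z) (bound := fun a => bound a / ρ)
    (ball_mem_nhds z₀ hρ0)
    (by filter_upwards [hU.mem_nhds hz₀] with z hz using hm z hz)
    (hbi.mono' (hm z₀ hz₀) (by
      filter_upwards [hbd] with a ha using ha z₀ (mem_ball_self hε) hz₀))
    hmeas'
    (by
      filter_upwards [hd, hbd] with a ha hba z hz
      refine norm_deriv_le_of_forall_mem_sphere_norm_le hρ0 ?_ ?_
      · refine DifferentiableOn.diffContOnCl ?_
        rw [closure_ball _ hρ0.ne']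
        exact ha.mono ((hsub z hz).trans hsubU)
      · intro w hw
        have hw' := hsub z hz (sphere_subset_closedBall hw)
        exact hba w (ball_subset_ball hρε hw') (hsubU hw'))
    (hbi.div_const ρ)
    (by
      filter_upwards [hd] with a ha z hz
      have hzU : z ∈ U := hsubU (ball_subset_ball (by linarith) hz)
      exact (ha.differentiableAt (hU.mem_nhds hzU)).hasDerivAt)
  exact key.2.differentiableAt.differentiableWithinAt

/-- The boundary integral over a rectangle, in the format of Mathlib. -/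
noncomputable def rectInt (g : ℂ → ℂ) (a b H : ℝ) : ℂ :=
  (∫ x : ℝ in a..b, g (x - H * I)) - (∫ x : ℝ in a..b, g (x + H * I)) +
    I * (∫ y : ℝ in (-H)..H, g (b + y * I)) - I * (∫ y : ℝ in (-H)..H, g (a + y * I))

theorem rectInt_eq_zero {g : ℂ → ℂ} {a b H : ℝ}
    (hg : DifferentiableOn ℂ g (uIcc a b ×ℂ uIcc (-H) H)) : rectInt g a b H = 0 := by
  have := integral_boundary_rect_eq_zero_of_differentiableOn g ⟨a, -H⟩ ⟨b, H⟩ hg
  simpa [rectInt, sub_eq_add_neg] using this

theorem rectInt_inv (m H : ℝ) (hH : 0 < H) :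
    rectInt (fun z => (z - m)⁻¹) (m - 1 / 2) (m + 1 / 2) H = 2 * Real.pi * I := by
  have hb : (∫ x : ℝ in (m - 1 / 2)..(m + 1 / 2), ((x : ℂ) - H * I - m)⁻¹) =
      log (1 / 2 - H * I) - log (-(1 / 2 + H * I)) := by
    rw [intervalIntegral.integral_eq_sub_of_hasDerivAt (f := fun x : ℝ => log ((x : ℂ) - H * I - m))]
    · congr 2 <;> (push_cast; ring)
    · intro x _
      have h1 : HasDerivAt (fun x : ℝ => (x : ℂ) - H * I - m) 1 x :=
        ((hasDerivAt_id x).ofReal_comp.sub_const _).sub_const _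
      have h2 : (x : ℂ) - H * I - m ∈ slitPlane := Or.inr (by simp [hH.ne'])
      simpa using h1.clog_real h2
    · refine ContinuousOn.intervalIntegrable (ContinuousOn.inv₀ (by fun_prop) fun x _ h => ?_)
      have := congrArg Complex.im h
      simp [hH.ne'] at this
  have ht : (∫ x : ℝ in (m - 1 / 2)..(m + 1 / 2), ((x : ℂ) + H * I - m)⁻¹) =
      log (1 / 2 + H * I) - log (-(1 / 2 - H * I)) := by
    rw [intervalIntegral.integral_eq_sub_of_hasDerivAt (f := fun x : ℝ => log ((x : ℂ) + H * I - m))]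
    · congr 2 <;> (push_cast; ring)
    · intro x _
      have h1 : HasDerivAt (fun x : ℝ => (x : ℂ) + H * I - m) 1 x :=
        ((hasDerivAt_id x).ofReal_comp.add_const _).sub_const _
      have h2 : (x : ℂ) + H * I - m ∈ slitPlane := Or.inr (by simp [hH.ne'])
      simpa using h1.clog_real h2
    · refine ContinuousOn.intervalIntegrable (ContinuousOn.inv₀ (by fun_prop) fun x _ h => ?_)
      have := congrArg Complex.im h
      simp [hH.ne'] at this
  have hr : I * (∫ y : ℝ in (-H)..H, (((m + 1 / 2 : ℝ) : ℂ) + y * I - m)⁻¹) =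
      log (1 / 2 + H * I) - log (1 / 2 - H * I) := by
    rw [← intervalIntegral.integral_const_mul, intervalIntegral.integral_eq_sub_of_hasDerivAt
      (f := fun y : ℝ => log (((m + 1 / 2 : ℝ) : ℂ) + y * I - m))]
    · congr 2 <;> (push_cast; ring)
    · intro y _
      have h1 : HasDerivAt (fun y : ℝ => ((m + 1 / 2 : ℝ) : ℂ) + y * I - m) (1 * I) y :=
        ((((hasDerivAt_id y).ofReal_comp).mul_const I).const_add _).sub_const _
      have h2 : ((m + 1 / 2 : ℝ) : ℂ) + y * I - m ∈ slitPlane := Or.inl (by simp)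
      exact (h1.clog_real h2).congr_deriv (by simp [div_eq_mul_inv])
    · refine ContinuousOn.intervalIntegrable (continuousOn_const.mul
        (ContinuousOn.inv₀ (by fun_prop) fun x _ h => ?_))
      have := congrArg Complex.re h
      simp at this
  have hl : I * (∫ y : ℝ in (-H)..H, (((m - 1 / 2 : ℝ) : ℂ) + y * I - m)⁻¹) =
      log (1 / 2 - H * I) - log (1 / 2 + H * I) := by
    rw [← intervalIntegral.integral_const_mul, intervalIntegral.integral_eq_sub_of_hasDerivAt
      (f := fun y : ℝ => log (-(((m - 1 / 2 : ℝ) : ℂ) + y * I - m)))]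
    · congr 2 <;> (push_cast; ring)
    · intro y _
      have h1 : HasDerivAt (fun y : ℝ => -(((m - 1 / 2 : ℝ) : ℂ) + y * I - m)) (-(1 * I)) y :=
        (((((hasDerivAt_id y).ofReal_comp).mul_const I).const_add _).sub_const _).neg
      have h2 : -(((m - 1 / 2 : ℝ) : ℂ) + y * I - m) ∈ slitPlane := Or.inl (by simp)
      exact (h1.clog_real h2).congr_deriv (by rw [neg_div_neg_eq]; simp [div_eq_mul_inv])
    · refine ContinuousOn.intervalIntegrable (continuousOn_const.mul
        (ContinuousOn.inv₀ (by fun_prop) fun x _ h => ?_))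
      have := congrArg Complex.re h
      simp at this
  have h1 : log (-(1 / 2 + H * I)) = log (1 / 2 + H * I) - Real.pi * I := by
    apply Complex.ext
    · simp [log_re]
      rw [show -((H : ℂ) * I) + -2⁻¹ = -(2⁻¹ + H * I) by ring, norm_neg]
    · rw [log_im, arg_neg_eq_arg_sub_pi_of_im_pos (by simp [hH])]
      simp [log_im]
  have h2 : log (-(1 / 2 - H * I)) = log (1 / 2 - H * I) + Real.pi * I := by
    apply Complex.ext
    · simp [log_re]
      rw [norm_sub_rev]
    · rw [log_im, arg_neg_eq_arg_add_pi_of_im_neg (by simp [hH])]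
      simp [log_im]
  simp only [rectInt]
  rw [hb, ht, hr, hl, h1, h2]
  ring

theorem exp_two_pi_ne_one {z : ℂ} (h : ∀ k : ℤ, z ≠ k) : exp (2 * Real.pi * I * z) ≠ 1 := by
  intro h1
  obtain ⟨k, hk⟩ := exp_eq_one_iff.1 h1
  apply h k
  have h2 : (2 * Real.pi * I : ℂ) ≠ 0 := by simp [Real.pi_ne_zero]
  apply mul_left_cancel₀ h2
  rw [hk]; ring

theorem rectInt_congr {g g' : ℂ → ℂ} {a b H : ℝ}
    (h : ∀ z : ℂ, z.re ∈ uIcc a b → z.im ∈ uIcc (-H) H →
      (z.re = a ∨ z.re = b ∨ z.im = H ∨ z.im = -H) → g z = g' z) :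
    rectInt g a b H = rectInt g' a b H := by
  simp only [rectInt]
  congr 1
  · congr 1
    · congr 1
      · refine intervalIntegral.integral_congr fun x hx => h _ (by simpa using hx) (by simp) (by simp)
      · refine intervalIntegral.integral_congr fun x hx => h _ (by simpa using hx) (by simp) (by simp)
    · congr 1
      refine intervalIntegral.integral_congr fun x hx => h _ (by simp) (by simpa using hx) (by simp)
  · congr 1
    refine intervalIntegral.integral_congr fun x hx => h _ (by simp) (by simpa using hx) (by simp)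

/-- Continuity of a function on the four sides of a rectangle. -/
def SidesInt (g : ℂ → ℂ) (a b H : ℝ) : Prop :=
  IntervalIntegrable (fun x : ℝ => g (x - H * I)) volume a b ∧
  IntervalIntegrable (fun x : ℝ => g (x + H * I)) volume a b ∧
  IntervalIntegrable (fun y : ℝ => g (b + y * I)) volume (-H) H ∧
  IntervalIntegrable (fun y : ℝ => g (a + y * I)) volume (-H) H

theorem sidesInt_of_continuousAt {g : ℂ → ℂ} {a b H : ℝ}
    (h : ∀ z : ℂ, z.re ∈ uIcc a b → z.im ∈ uIcc (-H) H →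
      (z.re = a ∨ z.re = b ∨ z.im = H ∨ z.im = -H) → ContinuousAt g z) : SidesInt g a b H := by
  refine ⟨?_, ?_, ?_, ?_⟩ <;> refine ContinuousOn.intervalIntegrable fun x hx => ?_
  · exact (ContinuousAt.comp (f := fun x : ℝ => (x : ℂ) - H * I)
      (h _ (by simpa using hx) (by simp) (by simp)) (by fun_prop)).continuousWithinAt
  · exact (ContinuousAt.comp (f := fun x : ℝ => (x : ℂ) + H * I)
      (h _ (by simpa using hx) (by simp) (by simp)) (by fun_prop)).continuousWithinAt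
  · exact (ContinuousAt.comp (f := fun y : ℝ => (b : ℂ) + y * I)
      (h _ (by simp) (by simpa using hx) (by simp)) (by fun_prop)).continuousWithinAt
  · exact (ContinuousAt.comp (f := fun y : ℝ => (a : ℂ) + y * I)
      (h _ (by simp) (by simpa using hx) (by simp)) (by fun_prop)).continuousWithinAt

theorem rectInt_add {g g' : ℂ → ℂ} {a b H : ℝ} (h : SidesInt g a b H) (h' : SidesInt g' a b H) :
    rectInt (fun z => g z + g' z) a b H = rectInt g a b H + rectInt g' a b H := by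
  simp only [rectInt]
  rw [intervalIntegral.integral_add h.1 h'.1, intervalIntegral.integral_add h.2.1 h'.2.1,
    intervalIntegral.integral_add h.2.2.1 h'.2.2.1, intervalIntegral.integral_add h.2.2.2 h'.2.2.2]
  ring

theorem rectInt_const_mul (c : ℂ) (g : ℂ → ℂ) (a b H : ℝ) :
    rectInt (fun z => c * g z) a b H = c * rectInt g a b H := by
  simp only [rectInt, intervalIntegral.integral_const_mul]
  ring

theorem plana_cell (f : ℂ → ℂ) (m : ℤ) (H : ℝ) (hH : 0 < H)
    (hf : ∀ z : ℂ, (m : ℝ) - 1 / 2 ≤ z.re → z.re ≤ m + 1 / 2 → DifferentiableAt ℂ f z) :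
    rectInt (fun z => f z / (exp (2 * Real.pi * I * z) - 1)) (m - 1 / 2) (m + 1 / 2) H = f m := by
  set R : Set ℂ := uIcc ((m : ℝ) - 1 / 2) (m + 1 / 2) ×ℂ uIcc (-H) H with hR
  have hmem : ∀ z ∈ R, (m : ℝ) - 1 / 2 ≤ z.re ∧ z.re ≤ m + 1 / 2 := by
    intro z hz
    have := hz.1
    rwa [mem_preimage, uIcc_of_le (by linarith)] at this
  have hRn : R ∈ 𝓝 (m : ℂ) := by
    refine mem_of_superset ((isOpen_Ioo.reProdIm isOpen_Ioo :
      IsOpen (Ioo ((m : ℝ) - 1 / 2) (m + 1 / 2) ×ℂ Ioo (-H) H)).mem_nhds ?_) ?_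
    · refine ⟨?_, ?_⟩
      · simp
      · simp [hH]
    · intro z hz
      refine ⟨?_, ?_⟩
      · rw [mem_preimage, uIcc_of_le (by linarith)]; exact Ioo_subset_Icc_self hz.1
      · rw [mem_preimage, uIcc_of_le (by linarith)]; exact Ioo_subset_Icc_self hz.2
  set φ : ℂ → ℂ := fun z => exp (2 * Real.pi * I * z) - 1 with hφ
  have hφm : φ m = 0 := by
    simp only [hφ]
    rw [show 2 * (Real.pi : ℂ) * I * m = m * (2 * Real.pi * I) by ring, exp_int_mul_two_pi_mul_I]
    simp
  have hφd : HasDerivAt φ (2 * Real.pi * I) m := by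
    have h1 : HasDerivAt (fun z : ℂ => 2 * Real.pi * I * z) (2 * Real.pi * I) m := by
      simpa using (hasDerivAt_id (m : ℂ)).const_mul (2 * Real.pi * I)
    have h2 := h1.cexp.sub_const 1
    have h3 : exp (2 * Real.pi * I * m) = 1 := by linear_combination hφm
    rw [h3, one_mul] at h2
    exact h2
  set ψ := dslope φ m with hψ
  have hψd : DifferentiableOn ℂ ψ univ :=
    (differentiableOn_dslope univ_mem).2 (by simp only [hφ]; fun_prop)
  have hψm : ψ m = 2 * Real.pi * I := by rw [hψ, dslope_same, hφd.deriv]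
  have h2pi : (2 * Real.pi * I : ℂ) ≠ 0 := by simp [Real.pi_ne_zero]
  have hφψ : ∀ z, φ z = (z - m) * ψ z := by
    intro z
    have := sub_smul_dslope φ m z
    rw [hφm, sub_zero, smul_eq_mul] at this
    exact this.symm
  have hφne : ∀ z ∈ R, z ≠ m → φ z ≠ 0 := by
    intro z hz hzm
    refine sub_ne_zero.2 (exp_two_pi_ne_one fun k hk => hzm ?_)
    obtain ⟨h1, h2⟩ := hmem z hz
    rw [hk] at h1 h2 ⊢
    simp only [intCast_re] at h1 h2
    have h3 : (m : ℝ) - 1 < k := by linarith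
    have h4 : (k : ℝ) < m + 1 := by linarith
    have h5 : m - 1 < k := by exact_mod_cast h3
    have h6 : k < m + 1 := by exact_mod_cast h4
    rw [show k = m by omega]
  have hψne : ∀ z ∈ R, ψ z ≠ 0 := by
    intro z hz
    by_cases hzm : z = m
    · rw [hzm, hψm]; exact h2pi
    · intro h0
      exact hφne z hz hzm (by rw [hφψ, h0, mul_zero])
  set F : ℂ → ℂ := fun z => f z / ψ z with hF
  have hFd : DifferentiableOn ℂ F R := fun z hz =>
    ((hf z (hmem z hz).1 (hmem z hz).2).div (hψd.differentiableAt univ_mem)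
      (hψne z hz)).differentiableWithinAt
  have hG : DifferentiableOn ℂ (dslope F m) R := (differentiableOn_dslope hRn).2 hFd
  have hne : ∀ z : ℂ, (z.re = m - 1 / 2 ∨ z.re = m + 1 / 2 ∨ z.im = H ∨ z.im = -H) → z ≠ m := by
    rintro z h rfl
    simp only [intCast_re, intCast_im] at h
    rcases h with h | h | h | h <;> linarith
  rw [rectInt_congr (g' := fun z => dslope F m z + F m * (z - ((m : ℝ) : ℂ))⁻¹), rectInt_add,
    rectInt_eq_zero hG, rectInt_const_mul, rectInt_inv m H hH]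
  · simp only [hF, hψm]
    field_simp
    simp
  · refine ⟨?_, ?_, ?_, ?_⟩ <;> refine ContinuousOn.intervalIntegrable
      (hG.continuousOn.comp (by fun_prop) fun x hx => ⟨?_, ?_⟩)
    · simpa using hx
    · simp
    · simpa using hx
    · simp
    · simp
    · simpa using hx
    · simp
    · simpa using hx
  · refine sidesInt_of_continuousAt fun z _ _ h => continuousAt_const.mul
      (ContinuousAt.inv₀ (by fun_prop) (sub_ne_zero.2 (by simpa using hne z h)))
  · intro z h1 h2 h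
    have hz : z ∈ R := ⟨h1, h2⟩
    have hzm := hne z h
    have h3 : z - m ≠ 0 := sub_ne_zero.2 hzm
    rw [dslope_of_ne _ hzm, slope_def_field]
    change f z / φ z = _
    rw [hφψ]
    have h4 := hψne z hz
    simp only [hF]
    push_cast
    field_simp
    ring

/-- The rectangle integral of `f z / (exp (2 π i z) - 1)` is the sum of the values of `f` at the
integers inside. -/
theorem plana_rect (f : ℂ → ℂ) (m : ℤ) (n : ℕ) (H : ℝ) (hH : 0 < H)
    (hf : ∀ z : ℂ, (m : ℝ) - 1 / 2 ≤ z.re → z.re ≤ m + n - 1 / 2 → DifferentiableAt ℂ f z) :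
    rectInt (fun z => f z / (exp (2 * Real.pi * I * z) - 1)) (m - 1 / 2) (m + n - 1 / 2) H =
      ∑ k ∈ Finset.range n, f (m + k) := by
  induction n with
  | zero => simp [rectInt]
  | succ n ih =>
    have hn : (0 : ℝ) ≤ n := Nat.cast_nonneg n
    have h1 := ih fun z h1 h2 => hf z h1 (by push_cast; linarith)
    have h2 := plana_cell f (m + n) H hH fun z h1 h2 => hf z (by push_cast at h1; linarith)
      (by push_cast at h2 ⊢; linarith)
    rw [Finset.sum_range_succ, ← h1]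
    push_cast at h2
    rw [← h2]
    set g : ℂ → ℂ := fun z => f z / (exp (2 * Real.pi * I * z) - 1) with hg
    have hc : ∀ z : ℂ, (m : ℝ) - 1 / 2 ≤ z.re → z.re ≤ m + n + 1 / 2 → z.im ≠ 0 →
        ContinuousAt g z := by
      intro z h1 h2 h3
      refine (hf z h1 (by push_cast; linarith)).continuousAt.div (by fun_prop)
        (sub_ne_zero.2 (exp_two_pi_ne_one fun k hk => h3 (by simp [hk])))
    have hi : ∀ (y a b : ℝ), y ≠ 0 → (m : ℝ) - 1 / 2 ≤ a → a ≤ b → b ≤ m + n + 1 / 2 →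
        IntervalIntegrable (fun x : ℝ => g (x + y * I)) volume a b := by
      intro y a b hy h1 h2 h3
      refine ContinuousOn.intervalIntegrable fun x hx => ?_
      rw [uIcc_of_le h2] at hx
      exact (ContinuousAt.comp (f := fun x : ℝ => (x : ℂ) + y * I)
        (hc _ (by simp; linarith [hx.1]) (by simp; linarith [hx.2]) (by simpa using hy))
        (by fun_prop)).continuousWithinAt
    have e1 := intervalIntegral.integral_add_adjacent_intervals
      (hi H (m - 1 / 2) (m + n - 1 / 2) hH.ne' le_rfl (by linarith) (by linarith))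
      (hi H (m + n - 1 / 2) (m + n + 1 / 2) hH.ne' (by linarith) (by linarith) le_rfl)
    have e2 := intervalIntegral.integral_add_adjacent_intervals
      (hi (-H) (m - 1 / 2) (m + n - 1 / 2) (by linarith) le_rfl (by linarith) (by linarith))
      (hi (-H) (m + n - 1 / 2) (m + n + 1 / 2) (by linarith) (by linarith) (by linarith) le_rfl)
    simp only [ofReal_neg, neg_mul, ← sub_eq_add_neg] at e2
    simp only [rectInt]
    rw [show (m : ℝ) + ((n + 1 : ℕ) : ℝ) - 1 / 2 = m + n + 1 / 2 by push_cast; ring, ← e1, ← e2]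
    ring

end Pool.Agent.MP_6026f4_co

end
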