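import Pool.Agent.Mg.F6026f4p.Gb4facf
import Pool.Agent.Mg.F6026f4p.G99f51e
import Pool.Agent.Mg.F6026f4p.Gce7451

section

namespace Pool.Agent.MP_6026f4_co.Q
open Complex Metric

theorem sq_le_QRat (b : ℕ) (h : 5 ≤ b) : b * (b + 1) ≤ 2 ^ b := by
  induction b, h using Nat.le_induction with
  | base => norm_num
  | succ b hb ih => rw [pow_succ]; nlinarith

theorem powStmt : PowStmt := by
  intro r s hr hs
  have h1 : 10 ^ 6 * r ≤ s / r := (Nat.le_div_iff_mul_le hr).2 (by nlinarith)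
  have h2 : s < r * (s / r + 1) := Nat.lt_mul_div_succ s hr
  have h3 := sq_le_QRat (s / r) (by omega)
  have h4 : 10 ^ 6 * s ≤ 2 ^ (s / r) := by nlinarith
  calc (10 ^ 6 * s) ^ r ≤ (2 ^ (s / r)) ^ r := Nat.pow_le_pow_left h4 r
    _ = 2 ^ (s / r * r) := by rw [← pow_mul]
    _ ≤ 2 ^ s := Nat.pow_le_pow_right two_pos (Nat.div_mul_le_self s r)

theorem half_QRat {r s : ℕ} {l : ℝ} (h0 : 0 < l) (h1 : l ≤ 1)
    (e : l ^ r * (2 - l) ^ s = (1 - l) ^ (r + s)) : l ^ r * 2 ^ s ≤ 1 := by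
  have h2 : (0 : ℝ) < (2 - l) ^ s := pow_pos (by linarith) s
  have h3 : (1 - l) ^ (r + s) ≤ (1 - l) ^ s :=
    pow_le_pow_of_le_one (by linarith) (by linarith) (Nat.le_add_left s r)
  have h4 : (1 - l) ^ s * 2 ^ s ≤ (2 - l) ^ s := by
    rw [← mul_pow]
    exact pow_le_pow_left₀ (by linarith) (by linarith) s
  refine le_of_mul_le_mul_right ?_ h2
  calc l ^ r * 2 ^ s * (2 - l) ^ s = (1 - l) ^ (r + s) * 2 ^ s := by rw [← e]; ring
    _ ≤ (1 - l) ^ s * 2 ^ s := mul_le_mul_of_nonneg_right h3 (by positivity)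
    _ ≤ 1 * (2 - l) ^ s := by rw [one_mul]; exact h4

theorem lamStmt : LamStmt := by
  intro r s hr hs
  have hr0 : r ≠ 0 := by omega
  have hc : ContinuousOn (fun l : ℝ => l ^ r * (2 - l) ^ s - (1 - l) ^ (r + s)) (Set.Icc 0 1) := by
    fun_prop
  obtain ⟨l, ⟨h0, h1⟩, e⟩ := intermediate_value_Ioo zero_le_one hc
    (show (0 : ℝ) ∈ Set.Ioo _ _ from ⟨by simp [hr0], by norm_num [hr0]⟩)
  have e' := sub_eq_zero.1 e
  refine ⟨l, h0, ?_, e'⟩
  have h2 := half_QRat h0 h1.le e'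
  have h3 : ((10 : ℝ) ^ 6 * s) ^ r ≤ 2 ^ s := by exact_mod_cast powStmt r s hr hs
  have h4 : (l * (10 ^ 6 * s)) ^ r ≤ 1 ^ r := by
    rw [mul_pow, one_pow]
    exact (mul_le_mul_of_nonneg_left h3 (by positivity)).trans h2
  have h5 := (pow_le_pow_iff_left₀ (by positivity) zero_le_one hr0).1 h4
  rw [le_div_iff₀ (by positivity)]
  linarith

theorem norm_qq_QRat (r s i : ℕ) (z : ℂ) :
    ‖qq r s i z‖ = (‖z - i‖ / (i + 1)) ^ r * (‖z - i‖ / ‖2 * z - i‖) ^ s := by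
  have h : ‖(i : ℂ) + 1‖ = (i : ℝ) + 1 := by exact_mod_cast Complex.norm_natCast (i + 1)
  rw [qq, norm_div, norm_mul, norm_pow, norm_pow, norm_pow, h, div_pow, div_pow, pow_add,
    div_mul_div_comm]

theorem ratU : RatU := by
  intro r s l hr hrs ⟨h0, h1, e⟩ z i hz hi
  have hi0 : (0 : ℝ) ≤ i := Nat.cast_nonneg i
  have hs : (1 : ℝ) ≤ s := by exact_mod_cast hr.trans hrs
  have hrs' : (r : ℝ) ≤ s := by exact_mod_cast hrs
  have hl1 : l ≤ 1 := by nlinarith
  have a1 : ‖z - i‖ ≤ ‖z‖ := by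
    refine le_of_sq_le_sq ?_ (norm_nonneg _)
    simp only [Complex.sq_norm, normSq_apply, sub_re, sub_im, natCast_re, natCast_im]
    nlinarith
  have a2 : 2 * ‖z - i‖ ≤ ‖2 * z - i‖ := by
    refine le_of_sq_le_sq ?_ (norm_nonneg _)
    rw [mul_pow]
    simp only [Complex.sq_norm, normSq_apply, sub_re, sub_im, natCast_re, natCast_im, mul_re,
      mul_im, re_ofNat, im_ofNat]
    nlinarith
  have a3 : ‖z - i‖ / ‖2 * z - i‖ ≤ 1 / 2 :=
    div_le_of_le_mul₀ (norm_nonneg _) (by norm_num) (by linarith)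
  have b1 := one_add_mul_le_pow (show (-2 : ℝ) ≤ -l by linarith) (r + s)
  have b2 : (2 - l) ^ s ≤ 2 ^ s := pow_le_pow_left₀ (by linarith) (by linarith) s
  have b3 : l ^ r * (2 - l) ^ s ≤ l ^ r * 2 ^ s := mul_le_mul_of_nonneg_left b2 (by positivity)
  rw [← sub_eq_add_neg, ← e] at b1
  push_cast at b1
  have b4 : (1 / 2 : ℝ) ^ s ≤ 1.001 * l ^ r := by
    rw [one_div, inv_pow, inv_le_iff_one_le_mul₀ (by positivity)]
    nlinarith
  rw [norm_qq_QRat, mul_div_assoc, mul_pow]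
  calc (‖z - i‖ / (i + 1)) ^ r * (‖z - i‖ / ‖2 * z - i‖) ^ s
      ≤ (‖z‖ / (i + 1)) ^ r * (1 / 2) ^ s := by gcongr
    _ ≤ (‖z‖ / (i + 1)) ^ r * (1.001 * l ^ r) := by gcongr
    _ = _ := by ring

theorem ratL : RatL := by
  intro r s l hr hrs ⟨h0, h1, e⟩ z i hz hi
  have hi0 : (0 : ℝ) ≤ i := Nat.cast_nonneg i
  have hs : (1 : ℝ) ≤ s := by exact_mod_cast hr.trans hrs
  have hrs' : (r : ℝ) ≤ s := by exact_mod_cast hrs
  have hl1 : l ≤ 1 / 10 ^ 6 := by nlinarith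
  have hn : 0 < ‖z‖ := norm_pos_iff.2 hz
  have a0 : 0 ≤ 1 - 3 * l := by linarith
  have a1 : ‖z‖ * (1 - 3 * l) ≤ ‖z - i‖ := by
    have := norm_sub_norm_le z i
    rw [Complex.norm_natCast] at this
    linarith
  have a2 : ‖2 * z - i‖ ≤ 2 * ‖z‖ + 3 * l * ‖z‖ := by
    have := norm_sub_le (2 * z) i
    rw [Complex.norm_natCast, norm_mul, Complex.norm_two] at this
    linarith
  have a3 : 0 < ‖2 * z - i‖ := by
    have := norm_sub_norm_le (2 * z) i
    rw [Complex.norm_natCast, norm_mul, Complex.norm_two] at this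
    nlinarith
  have a4 : (1 - 3 * l) ^ 2 / 2 ≤ ‖z - i‖ / ‖2 * z - i‖ := by
    rw [le_div_iff₀ a3]
    have h2 : (1 - 3 * l) ^ 2 / 2 * ‖2 * z - i‖ ≤
        (1 - 3 * l) ^ 2 / 2 * (2 * ‖z‖ + 3 * l * ‖z‖) := by gcongr
    have h3 : (1 - 3 * l) * (2 + 3 * l) ≤ 2 := by nlinarith
    have h4 := mul_le_mul_of_nonneg_left h3 (mul_nonneg hn.le a0)
    nlinarith
  have b1 := one_add_mul_le_pow (show (-2 : ℝ) ≤ -(3 * l) by linarith) (r + 2 * s)
  rw [← sub_eq_add_neg] at b1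
  push_cast at b1
  have b2 : (0.999 : ℝ) ≤ (1 - 3 * l) ^ (r + 2 * s) := by nlinarith
  have b3 : l ^ r ≤ (1 / 2) ^ s := by
    rw [div_pow, one_pow, le_div_iff₀ (by positivity)]
    exact half_QRat h0 (by linarith) e
  rw [norm_qq_QRat, mul_div_assoc, mul_pow]
  calc 0.999 * (l ^ r * (‖z‖ / (i + 1)) ^ r)
      ≤ (1 - 3 * l) ^ (r + 2 * s) * ((1 / 2) ^ s * (‖z‖ / (i + 1)) ^ r) := by gcongr
    _ = (‖z‖ * (1 - 3 * l) / (i + 1)) ^ r * ((1 - 3 * l) ^ 2 / 2) ^ s := by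
      rw [pow_add, pow_mul, div_pow, div_pow, div_pow, div_pow, mul_pow]
      ring
    _ ≤ _ := by gcongr

end Pool.Agent.MP_6026f4_co.Q

end

section

namespace Pool.Agent.MP_6026f4_co.Q
open Complex Metric

theorem nat_QRegII (hT : TauNat) {r : ℕ} (s n J : ℕ) (hr : 1 ≤ r) :
    (Gamma (2 * (n : ℂ) + 1) / Gamma ((n : ℂ) + 1) ^ 2) ^ s * sumT r s J n =
      ((∑ j ∈ Finset.range (J + 1), n.choose j ^ r * (2 * n - j).choose n ^ s : ℕ) : ℂ) := by
  rw [bnat_QRegII, sumT, Finset.mul_sum, Nat.cast_sum]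
  exact Finset.sum_congr rfl fun j _ => hT r s n j hr

theorem low_QRegII (hG : TGNat) (hT : TauNat) {r s m J : ℕ} {l v : ℝ} {D : ℂ} (hr : 1 ≤ r)
    (hv1 : 1000 ≤ v) (hv2 : v ≤ l * m) (hl : l * m ≤ m / 1000) (hJ : m ≤ J)
    (hF : ∀ w : ℂ, ‖w‖ ≤ l * m / 11 → Real.exp (-(3 * w.re ^ 2 / (4 * v)) - 2) ≤
      ‖tG r s m (l * m + w) / D‖) :
    √v * Real.exp (-5) ≤
      ‖(Gamma (2 * (m : ℂ) + 1) / Gamma ((m : ℂ) + 1) ^ 2) ^ s * sumT r s J m / D‖ := by
  have e0 : (l : ℂ) * m = ((l * m : ℝ) : ℂ) := by push_cast; rfl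
  rw [e0] at hF
  generalize l * m = X at *
  have q1 : √v ^ 2 = v := Real.sq_sqrt (by linarith)
  have q2 : 31 ≤ √v := Real.le_sqrt_of_sq_le (by linarith)
  have q3 : 31 * √v ≤ X := by nlinarith
  have a1 : X ≤ ⌈X⌉₊ := Nat.le_ceil _
  have a2 : (⌈X⌉₊ : ℝ) < X + 1 := Nat.ceil_lt_add_one (by linarith)
  have b1 : √v ≤ ⌈√v⌉₊ := Nat.le_ceil _
  have b2 : (⌈√v⌉₊ : ℝ) < √v + 1 := Nat.ceil_lt_add_one (by linarith)
  generalize ⌈X⌉₊ = a at a1 a2
  generalize ⌈√v⌉₊ = K at b1 b2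
  have hm : (m : ℝ) ≤ J := Nat.cast_le.2 hJ
  rw [nat_QRegII hT s m J hr, norm_div, norm_natCast, Nat.cast_sum, Finset.sum_div]
  have hsub : Finset.Ico a (a + K) ⊆ Finset.range (J + 1) := fun j hj => by
    have h1 : (j : ℝ) < a + K := by exact_mod_cast (Finset.mem_Ico.1 hj).2
    rw [Finset.mem_range, ← Nat.cast_lt (α := ℝ), Nat.cast_succ]
    linarith
  refine le_trans ?_ (Finset.sum_le_sum_of_subset_of_nonneg hsub fun _ _ _ => by positivity)
  refine le_trans ?_ (Finset.card_nsmul_le_sum _ _ (Real.exp (-5)) fun j hj => ?_)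
  · rw [Nat.card_Ico, Nat.add_sub_cancel_left, nsmul_eq_mul]
    gcongr
  · have h1 : (j : ℝ) < a + K := by exact_mod_cast (Finset.mem_Ico.1 hj).2
    have h2 : (a : ℝ) ≤ j := Nat.cast_le.2 (Finset.mem_Ico.1 hj).1
    have h3 := hF ((j - X : ℝ) : ℂ) (by
      rw [norm_real, Real.norm_of_nonneg (by linarith)]; linarith)
    have e : (X : ℂ) + ((j - X : ℝ) : ℂ) = j := by push_cast; ring
    rw [e, hG r s j m (by rw [natCast_re]; linarith), bnat_QRegII, hT r s m j hr, norm_div,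
      norm_natCast, ofReal_re] at h3
    refine le_trans (Real.exp_le_exp.2 ?_) h3
    have h4 : ((j : ℝ) - X) ^ 2 ≤ (2 * √v) ^ 2 := by gcongr <;> linarith
    have h5 : 3 * ((j : ℝ) - X) ^ 2 / (4 * v) ≤ 3 := by
      rw [div_le_iff₀ (by linarith)]
      nlinarith
    linarith

theorem regII (hK : KeyEst) (hP : PlanaBd) (hG : TGNat) (hU : RatU) (hL : RatL) (hT : TauNat)
    (hS : SumNat) : RegII := by
  refine ⟨800 * Real.exp 5, by nlinarith [Real.add_one_le_exp 5], fun r s m l hr hs hl hm => ?_⟩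
  have hrs : r ≤ s := by nlinarith
  have hr1 : (1 : ℝ) ≤ r := Nat.one_le_cast.2 hr
  have hs1 : (1 : ℝ) ≤ s := Nat.one_le_cast.2 (hr.trans hrs)
  have hrs' : 100 * (r : ℝ) ≤ s := by exact_mod_cast (show 100 * r ≤ s by nlinarith)
  have hl0 := hl.1
  have hl1 : l ≤ 1 / 1000 := by nlinarith [hl.2.1]
  have hm0 : (0 : ℝ) ≤ m := Nat.cast_nonneg m
  have m5 : l * m ≤ m / 1000 := by linarith only [mul_le_mul_of_nonneg_right hl1 hm0]
  have hm1 : (1000 : ℝ) ≤ m := by linarith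
  have hm2 : 1000 ≤ m := by exact_mod_cast hm1
  have hv1 : 1000 ≤ l * m / r := by rwa [le_div_iff₀ (by linarith)]
  have hv2 : l * m / r ≤ l * m := div_le_self (by positivity) hr1
  have hJ : ((m + m / 5 : ℕ) : ℝ) ≤ 1.2 * m := by
    have := Nat.cast_div_le (α := ℝ) (m := m) (n := 5)
    rw [Nat.cast_add]
    push_cast at this ⊢
    linarith
  have hρ : (m : ℝ) / (1000 * r) ≤ m / 1000 :=
    div_le_div_of_nonneg_left hm0 (by norm_num) (by linarith)
  have hb : ∀ z ∈ ball (m : ℂ) (m / (1000 * r)), ‖z - ((m : ℝ) : ℂ)‖ ≤ m / 1000 := fun z hz => by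
    rw [ofReal_natCast]
    exact (mem_ball_iff_norm.1 hz).le.trans hρ
  obtain ⟨c, hc, hk⟩ := key_QRegII hK hr hrs hl hm
  have hlow := low_QRegII hG hT (J := m + m / 5) hr hv1 hv2 m5 (by omega)
    fun w hw => (hk m w (by rw [sub_self, norm_zero]; positivity) hw).1
  have hpos : 0 < √(l * m / r) * Real.exp (-5) := by
    have : 0 < l * m / r := by linarith
    positivity
  refine ⟨fun z => (Gamma (2 * z + 1) / Gamma (z + 1) ^ 2) ^ s * sumT r s (m + m / 5) z /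
      (c * eMain r s l z), fun z => -(((r : ℂ) + s) / 2) * log (1 - 1 / z ^ 2),
    fun n => c * eMain r s l n, fun z hz => ?_, fun z hz => ?_, ?_, fun z hz => ?_,
    fun z hz => w_QRegII r s hm1 hrs' (hb z hz), fun n hn => ?_, fun n hn => ?_⟩
  · obtain ⟨n1, -⟩ := near_QRegII hm0 (hb z hz)
    exact (dh_QRegII r s _ l hc (by linarith) (by linarith)).differentiableWithinAt
  · exact (dw_QRegII _ hm1 (hb z hz)).differentiableWithinAt
  · exact norm_pos_iff.1 (hpos.trans_le hlow)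
  · have h1 := hb z hz
    rw [ofReal_natCast] at h1
    refine (up_QRegII hP hG hU hL hr hrs hl hm (by omega) hJ (mem_ball_iff_norm.1 hz).le
      fun w hw => (hk z w h1 hw).2).trans ?_
    calc 800 * √(l * m / r) = 800 * Real.exp 5 * (√(l * m / r) * Real.exp (-5)) := by
          rw [Real.exp_neg]
          field_simp
      _ ≤ _ := by gcongr
  · obtain ⟨-, n2, -⟩ := near_QRegII hm0 (hb _ hn)
    rw [natCast_re] at n2
    have h1 : 1000 * n ≤ 1001 * m := by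
      rw [← Nat.cast_le (α := ℝ)]
      push_cast
      linarith
    have hE : c * eMain r s l n ≠ 0 := mul_ne_zero hc (exp_ne_zero _)
    beta_reduce
    rw [mul_div_cancel₀ _ hE, nat_QRegII hT s n _ hr, ← hS r s n _ hr (by omega), ofReal_natCast]
  · obtain ⟨n1, -⟩ := near_QRegII hm0 (hb _ hn)
    rw [add_re, natCast_re, one_re] at n1
    exact rel_QRegII r s l c (Nat.one_le_cast (α := ℝ).1 (by linarith))

end Pool.Agent.MP_6026f4_co.Q

end

section

namespace Pool.Agent.MP_6026f4_co.Q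
open Complex Metric

theorem gauss_QPlana {g : ℝ → ℂ} {A B M c v : ℝ} (hAB : A ≤ B) (hM : 0 ≤ M) (hv : 0 < v)
    (h : ∀ t, A ≤ t → t ≤ B → ‖g t‖ ≤ M * Real.exp (-(t - c) ^ 2 / (4 * v))) :
    ‖∫ t in A..B, g t‖ ≤ M * (4 * √v) := by
  have hb : 0 < 1 / (4 * v) := by positivity
  have e : ∀ t : ℝ, -(t - c) ^ 2 / (4 * v) = -(1 / (4 * v)) * (t - c) ^ 2 := fun t => by ring
  have hi : MeasureTheory.Integrable fun t : ℝ => Real.exp (-(1 / (4 * v)) * (t - c) ^ 2) :=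
    (integrable_exp_neg_mul_sq hb).comp_sub_right c
  simp only [e] at h
  refine (intervalIntegral.norm_integral_le_of_norm_le hAB
    (g := fun t => M * Real.exp (-(1 / (4 * v)) * (t - c) ^ 2))
    (Filter.Eventually.of_forall fun t ht => h t ht.1.le ht.2)
    (hi.const_mul M).intervalIntegrable).trans ?_
  rw [intervalIntegral.integral_const_mul]
  refine mul_le_mul_of_nonneg_left ?_ hM
  rw [intervalIntegral.integral_of_le hAB]
  refine (MeasureTheory.setIntegral_le_integral hi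
    (Filter.Eventually.of_forall fun t => (Real.exp_pos _).le)).trans ?_
  rw [MeasureTheory.integral_sub_right_eq_self
    (fun t : ℝ => Real.exp (-(1 / (4 * v)) * t ^ 2)) c, integral_gaussian]
  have e2 : 4 * √v = √(16 * v) := by
    rw [Real.sqrt_mul (by norm_num), show (16 : ℝ) = 4 ^ 2 by norm_num, Real.sqrt_sq (by norm_num)]
  rw [e2]
  refine Real.sqrt_le_sqrt ?_
  rw [div_le_iff₀ hb]
  have : 16 * v * (1 / (4 * v)) = 4 := by
    field_simp
    norm_num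
  linarith [Real.pi_lt_four]

theorem norm_exp_QPlana (z : ℂ) :
    ‖exp (2 * Real.pi * I * z)‖ = Real.exp (-(2 * Real.pi * z.im)) := by
  rw [norm_exp]
  simp

theorem top_QPlana {z : ℂ} (h : 1 ≤ z.im) : 1 / 2 ≤ ‖exp (2 * Real.pi * I * z) - 1‖ := by
  have h1 := norm_sub_norm_le (1 : ℂ) (exp (2 * Real.pi * I * z))
  rw [norm_sub_rev, norm_one, norm_exp_QPlana] at h1
  have h2 : Real.exp (-(2 * Real.pi * z.im)) ≤ 1 / 2 := by
    rw [Real.exp_neg, inv_le_comm₀ (Real.exp_pos _) (by norm_num)]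
    have := Real.add_one_le_exp (2 * Real.pi * z.im)
    nlinarith [Real.pi_gt_three]
  linarith

theorem bot_QPlana {z : ℂ} {H : ℝ} (hH : 1 ≤ H) (h : z.im = -H) :
    Real.exp H ≤ ‖exp (2 * Real.pi * I * z) - 1‖ := by
  have h1 := norm_sub_norm_le (exp (2 * Real.pi * I * z)) 1
  rw [norm_one, norm_exp_QPlana, h] at h1
  have h2 : Real.exp (H + H) ≤ Real.exp (-(2 * Real.pi * -H)) :=
    Real.exp_le_exp.2 (by nlinarith [Real.pi_gt_three])
  rw [Real.exp_add] at h2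
  have h3 := Real.add_one_le_exp H
  nlinarith

theorem side_QPlana {z : ℂ} (k : ℕ) (h : z.re = k - 1 / 2) :
    1 ≤ ‖exp (2 * Real.pi * I * z) - 1‖ := by
  refine le_trans ?_ (abs_re_le_norm _)
  have e : (2 * Real.pi * I * z).im = k * (2 * Real.pi) - Real.pi := by
    simp [h]
    ring
  rw [sub_re, exp_re, e, Real.cos_nat_mul_two_pi_sub_pi, one_re]
  have := Real.exp_pos (2 * Real.pi * I * z).re
  rw [abs_of_neg (by linarith)]
  linarith

theorem exp_two_QPlana : Real.exp 2 ≤ 8 := by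
  have h := Real.exp_one_lt_d9
  have h0 := Real.exp_pos 1
  rw [show (2 : ℝ) = 1 + 1 by norm_num, Real.exp_add]
  nlinarith

theorem exp_three_QPlana : Real.exp 3 ≤ 24 := by
  have h := Real.exp_one_lt_d9
  have h0 := Real.exp_pos 1
  have h2 := exp_two_QPlana
  rw [show (3 : ℝ) = 2 + 1 by norm_num, Real.exp_add]
  nlinarith [Real.exp_pos 2]

theorem half_QPlana (F : ℂ → ℂ) (x₀ : ℂ) (X v : ℝ) (a N : ℕ) (hv : 1000 ≤ v) (hX : v ≤ X)
    (hre : |x₀.re - X| ≤ X / 1000) (him0 : 0 ≤ x₀.im) (him : x₀.im ≤ v / 1000)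
    (ha : |(a : ℝ) - 0.95 * X| ≤ 1) (hb : |(a : ℝ) + N - 1.05 * X| ≤ 1)
    (hd : ∀ x : ℂ, (a : ℝ) - 1 / 2 ≤ x.re → x.re ≤ a + N - 1 / 2 → DifferentiableAt ℂ F x)
    (hF : ∀ w : ℂ, ‖w‖ ≤ X / 11 →
      ‖F (x₀ + w)‖ ≤ Real.exp (-w.re ^ 2 / (4 * v) + 3 * w.im ^ 2 / (4 * v) + 2)) :
    ‖∑ k ∈ Finset.range N, F (a + k)‖ ≤ 400 * √v := by
  obtain ⟨H, hH⟩ : ∃ H, H = max x₀.im 1 := ⟨_, rfl⟩
  have hH1 : 1 ≤ H := hH ▸ le_max_right _ _
  have hH2 : x₀.im ≤ H := hH ▸ le_max_left _ _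
  have hH3 : H ≤ v / 1000 := hH ▸ max_le him (by linarith)
  have hH4 : H ≤ x₀.im + 1 := hH ▸ max_le (by linarith) (by linarith)
  have hv0 : 0 < v := by linarith
  have hN : (0 : ℝ) ≤ N := Nat.cast_nonneg N
  rw [abs_le] at hre ha hb
  have key := plana_rect F (a : ℤ) N H (by linarith) (by simpa using hd)
  simp only [Int.cast_natCast] at key
  rw [← key]
  obtain ⟨A, hA⟩ : ∃ A : ℝ, A = a - 1 / 2 := ⟨_, rfl⟩
  obtain ⟨B, hB⟩ : ∃ B : ℝ, B = a + N - 1 / 2 := ⟨_, rfl⟩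
  rw [← hA, ← hB]
  have hAB : A ≤ B := by linarith
  have hG : ∀ x : ℂ, A ≤ x.re → x.re ≤ B → -H ≤ x.im → x.im ≤ H → ‖F x‖ ≤
      Real.exp (-(x.re - x₀.re) ^ 2 / (4 * v) + 3 * (x.im - x₀.im) ^ 2 / (4 * v) + 2) := by
    intro x h1 h2 h3 h4
    have h5 : |(x - x₀).re| ≤ X / 15 := by
      rw [sub_re, abs_le]
      constructor <;> linarith
    have h6 : |(x - x₀).im| ≤ X / 500 := by
      rw [sub_im, abs_le]
      constructor <;> linarith
    have := hF (x - x₀) ((norm_le_abs_re_add_abs_im _).trans (by linarith))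
    rwa [add_sub_cancel, sub_re, sub_im] at this
  have hI : ∀ y : ℝ, -H ≤ y → y ≤ H → 3 * (y - x₀.im) ^ 2 / (4 * v) ≤ 3 / 1000 * H := by
    intro y h1 h2
    have h3 : (y - x₀.im) ^ 2 ≤ (2 * H) ^ 2 := sq_le_sq' (by linarith) (by linarith)
    rw [div_le_iff₀ (by positivity)]
    nlinarith
  have hs : 30 ≤ √v := Real.le_sqrt_of_sq_le (by linarith)
  have b1 : ‖∫ x : ℝ in A..B, F (x - H * I) / (exp (2 * Real.pi * I * (x - H * I)) - 1)‖ ≤
      8 * (4 * √v) := by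
    refine gauss_QPlana (c := x₀.re) hAB (by norm_num) hv0 fun t h1 h2 => ?_
    have e1 : ((t : ℂ) - H * I).re = t := by simp
    have e2 : ((t : ℂ) - H * I).im = -H := by simp
    have h3 := hG (t - H * I) (by rwa [e1]) (by rwa [e1]) (by rw [e2]) (by rw [e2]; linarith)
    rw [e1, e2] at h3
    have h4 := bot_QPlana hH1 e2
    have h5 := hI (-H) le_rfl (by linarith)
    rw [norm_div, div_le_iff₀ ((Real.exp_pos H).trans_le h4)]
    calc _ ≤ Real.exp (2 + -(t - x₀.re) ^ 2 / (4 * v) + H) :=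
        h3.trans (Real.exp_le_exp.2 (by linarith))
      _ ≤ _ := by
        rw [Real.exp_add, Real.exp_add]
        exact mul_le_mul (mul_le_mul_of_nonneg_right exp_two_QPlana (Real.exp_pos _).le) h4
          (Real.exp_pos _).le (by positivity)
  have b2 : ‖∫ x : ℝ in A..B, F (x + H * I) / (exp (2 * Real.pi * I * (x + H * I)) - 1)‖ ≤
      48 * (4 * √v) := by
    refine gauss_QPlana (c := x₀.re) hAB (by norm_num) hv0 fun t h1 h2 => ?_
    have e1 : ((t : ℂ) + H * I).re = t := by simp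
    have e2 : ((t : ℂ) + H * I).im = H := by simp
    have h3 := hG (t + H * I) (by rwa [e1]) (by rwa [e1]) (by rw [e2]; linarith) (by rw [e2])
    rw [e1, e2] at h3
    have h4 := top_QPlana (z := t + H * I) (by rwa [e2])
    have h5 : 3 * (H - x₀.im) ^ 2 / (4 * v) ≤ 1 := by
      have : (H - x₀.im) ^ 2 ≤ 1 ^ 2 := sq_le_sq' (by linarith) (by linarith)
      rw [div_le_iff₀ (by positivity)]
      linarith
    rw [norm_div, div_le_iff₀ (lt_of_lt_of_le (by norm_num) h4)]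
    calc _ ≤ Real.exp (3 + -(t - x₀.re) ^ 2 / (4 * v)) :=
        h3.trans (Real.exp_le_exp.2 (by linarith))
      _ ≤ 48 * Real.exp (-(t - x₀.re) ^ 2 / (4 * v)) * (1 / 2) := by
        rw [Real.exp_add]
        linarith [mul_le_mul_of_nonneg_right exp_three_QPlana
          (Real.exp_pos (-(t - x₀.re) ^ 2 / (4 * v))).le]
      _ ≤ _ := mul_le_mul_of_nonneg_left h4 (by positivity)
  have b3 : ∀ (C : ℝ) (k : ℕ), C = k - 1 / 2 → A ≤ C → C ≤ B → (0.047 * X) ^ 2 ≤ (C - x₀.re) ^ 2 →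
      ‖∫ y : ℝ in (-H)..H, F (C + y * I) / (exp (2 * Real.pi * I * (C + y * I)) - 1)‖ ≤ 32 := by
    intro C k hC h1 h2 h3
    refine (intervalIntegral.norm_integral_le_of_norm_le_const (C := 16000 / v)
      fun y hy => ?_).trans ?_
    · rw [Set.uIoc_of_le (by linarith)] at hy
      have e1 : ((C : ℂ) + y * I).re = C := by simp
      have e2 : ((C : ℂ) + y * I).im = y := by simp
      have h4 := hG (C + y * I) (by rwa [e1]) (by rwa [e1]) (by rw [e2]; exact hy.1.le)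
        (by rw [e2]; exact hy.2)
      rw [e1, e2] at h4
      have h5 := side_QPlana (z := C + y * I) k (by rw [e1, hC])
      have h6 := hI y hy.1.le hy.2
      have h7 : -(C - x₀.re) ^ 2 / (4 * v) ≤ -(0.00055 * v) := by
        rw [div_le_iff₀ (by positivity)]
        nlinarith
      have h8 : Real.exp (-(v / 2000)) ≤ 2000 / v := by
        rw [Real.exp_neg, ← inv_div v 2000]
        exact inv_anti₀ (by positivity) (by linarith [Real.add_one_le_exp (v / 2000)])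
      rw [norm_div]
      refine (div_le_self (norm_nonneg _) h5).trans ?_
      calc _ ≤ Real.exp (2 + -(v / 2000)) := h4.trans (Real.exp_le_exp.2 (by linarith))
        _ ≤ 8 * (2000 / v) := by
          rw [Real.exp_add]
          exact mul_le_mul exp_two_QPlana h8 (Real.exp_pos _).le (by norm_num)
        _ = _ := by ring
    · rw [abs_of_pos (by linarith), div_mul_eq_mul_div, div_le_iff₀ hv0]
      linarith
  have b4 := b3 A a hA le_rfl hAB (by
    rw [← neg_sub, neg_sq]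
    exact pow_le_pow_left₀ (by linarith) (by linarith) 2)
  have b5 := b3 B (a + N) (by rw [hB]; push_cast; ring) hAB le_rfl
    (pow_le_pow_left₀ (by linarith) (by linarith) 2)
  rw [rectInt]
  refine (norm_sub_le _ _).trans ?_
  refine (add_le_add_left ((norm_add_le _ _).trans (add_le_add_left (norm_sub_le _ _) _)) _).trans ?_
  rw [norm_mul, norm_mul, norm_I, one_mul, one_mul]
  linarith

theorem planaBd : PlanaBd := by
  intro F x₀ X v a N hv hX hre him ha hb hd hF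
  rcases le_total 0 x₀.im with h0 | h0
  · exact half_QPlana F x₀ X v a N hv hX hre h0 (abs_le.1 him).2 ha hb hd hF
  · have key := half_QPlana ((starRingEnd ℂ) ∘ F ∘ (starRingEnd ℂ)) ((starRingEnd ℂ) x₀) X v a N hv
      hX (by simpa using hre) (by simpa using h0) (by
        rw [conj_im]
        linarith [(abs_le.1 him).1]) ha hb
      (fun x h1 h2 => by
        simpa using (hd ((starRingEnd ℂ) x) (by simpa using h1) (by simpa using h2)).conj_conj)
      (fun w hw => by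
        simpa using hF ((starRingEnd ℂ) w) (by simpa using hw))
    rw [← norm_conj, map_sum] at key
    simpa using key

end Pool.Agent.MP_6026f4_co.Q

end
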