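import Pool.Agent.Mg.F6026f4p.G8e38dd

namespace Pool.Agent.MP_6026f4_co
namespace S3

open Complex Set

/-- The numerical data of the saddle point. -/
structure Data (s : ℕ) (ξ η δ : ℝ) : Prop where
  hs : (16 : ℝ) ≤ s
  hδ : δ ^ 2 = ξ ^ 2 + η ^ 2
  hδ0 : 0 < δ
  hsδ : s * δ ≤ 1 / 2
  hη : 0 < η
  hξ : 3 / 8 * δ ≤ ξ
  hD : DD s ((1 + ξ : ℝ) + η * I) = Real.pi * I

namespace Data
variable {s : ℕ} {ξ η δ : ℝ}

theorem δ_le (h : Data s ξ η δ) : δ ≤ 1 / 32 := by nlinarith [h.hs, h.hsδ, h.hδ0]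

theorem ξ_pos (h : Data s ξ η δ) : 0 < ξ := by linarith [h.hξ, h.hδ0]

theorem ξ_le (h : Data s ξ η δ) : ξ ≤ δ :=
  (abs_le_of_sq_le_sq' (by nlinarith [h.hδ]) h.hδ0.le).2

theorem η_le (h : Data s ξ η δ) : η ≤ δ :=
  (abs_le_of_sq_le_sq' (by nlinarith [h.hδ]) h.hδ0.le).2

theorem Nδ_le (h : Data s ξ η δ) : (3 + s) * δ ≤ 19 / 32 := by
  nlinarith [h.hsδ, h.δ_le]

theorem D2_pos (h : Data s ξ η δ) {y : ℝ} (hy : y ^ 2 ≤ (6 / 5 * δ) ^ 2) :
    0 < (D2 s ((1 + ξ : ℝ) + y * I)).re := by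
  rw [D2_re]
  have hξ := h.ξ_pos
  have hs := h.hs
  have h1 : 0 ≤ s * (1 + (1 + ξ)) / ((1 + (1 + ξ)) ^ 2 + y ^ 2) := by positivity
  have h2 : (3 + s) * (1 + ξ) / ((1 + ξ) ^ 2 + y ^ 2) ≤ 3 + s := by
    rw [div_le_iff₀ (by positivity)]
    exact mul_le_mul_of_nonneg_left (by nlinarith [sq_nonneg y]) (by positivity)
  have h3 : 3 + s < 3 * (1 + ξ - 1) / ((1 + ξ - 1) ^ 2 + y ^ 2) := by
    rw [add_sub_cancel_left, lt_div_iff₀ (by positivity)]
    have a1 : ξ ^ 2 ≤ ξ * δ := by nlinarith [h.ξ_le]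
    have a2 : δ ^ 2 ≤ 8 / 3 * (ξ * δ) := by nlinarith [h.hξ, h.hδ0]
    have a3 : ξ ^ 2 + y ^ 2 ≤ 121 / 25 * (ξ * δ) := by nlinarith
    calc (3 + s) * (ξ ^ 2 + y ^ 2) ≤ (3 + s) * (121 / 25 * (ξ * δ)) := by gcongr
      _ = 121 / 25 * ξ * ((3 + s) * δ) := by ring
      _ ≤ 121 / 25 * ξ * (19 / 32) := by gcongr; exact h.Nδ_le
      _ < 3 * ξ := by linarith
  linarith

theorem mod_eq (h : Data s ξ η δ) :
    s * Real.log ((1 + (1 + ξ)) ^ 2 + η ^ 2) - (3 + s) * Real.log ((1 + ξ) ^ 2 + η ^ 2) +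
      3 * Real.log (δ ^ 2) = 0 := by
  have := DD_re' s (1 + ξ) η
  rw [h.hD, add_sub_cancel_left, ← h.hδ] at this
  simpa using this.symm

theorem A_nonneg (h : Data s ξ η δ) {x : ℝ} (hx0 : 0 ≤ x) (hx1 : x ≤ 1 + ξ) :
    0 ≤ (DD s (x + (6 / 5 * δ : ℝ) * I)).re := by
  have e := DD_re' s x (6 / 5 * δ)
  set H : ℝ := 6 / 5 * δ with hH
  have hδ0 := h.hδ0
  have hH0 : 0 < H := by positivity
  have hs := h.hs
  have hξ := h.ξ_pos
  have hδ1 := h.δ_le
  have p0 : 0 < x ^ 2 + H ^ 2 := by positivity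
  suffices hh : 0 ≤ s * Real.log ((1 + x) ^ 2 + H ^ 2) - (3 + s) * Real.log (x ^ 2 + H ^ 2) +
      3 * Real.log ((x - 1) ^ 2 + H ^ 2) by linarith
  rcases le_total x (1 / 2) with hx | hx
  · have a1 : Real.log (x ^ 2 + H ^ 2) ≤ Real.log ((1 + x) ^ 2 + H ^ 2) :=
      Real.log_le_log p0 (by nlinarith)
    have a2 : Real.log (x ^ 2 + H ^ 2) ≤ Real.log ((x - 1) ^ 2 + H ^ 2) :=
      Real.log_le_log p0 (by nlinarith)
    nlinarith
  · have hm := h.mod_eq
    have q0 : 0 < (1 + ξ) ^ 2 + H ^ 2 := by positivity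
    have hηH : η ^ 2 ≤ H ^ 2 := by
      have := h.η_le
      have := h.hη
      gcongr; linarith
    have a1 : Real.log ((1 + (1 + ξ)) ^ 2 + H ^ 2) + Real.log (x ^ 2 + H ^ 2) ≤
        Real.log ((1 + x) ^ 2 + H ^ 2) + Real.log ((1 + ξ) ^ 2 + H ^ 2) := by
      rw [← Real.log_mul (by positivity) (by positivity),
        ← Real.log_mul (by positivity) (by positivity)]
      refine Real.log_le_log (by positivity) ?_
      have b1 : 0 ≤ (1 + ξ - x) * ((1 + ξ + x) + 2 * x * (1 + ξ) - 2 * H ^ 2) := by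
        apply mul_nonneg (by linarith)
        nlinarith
      nlinarith
    have a2 : Real.log ((1 + (1 + ξ)) ^ 2 + η ^ 2) ≤ Real.log ((1 + (1 + ξ)) ^ 2 + H ^ 2) :=
      Real.log_le_log (by positivity) (by linarith)
    have a3 : Real.log ((1 + ξ) ^ 2 + H ^ 2) ≤ Real.log ((1 + ξ) ^ 2 + η ^ 2) + H ^ 2 := by
      have q1 : 0 < (1 + ξ) ^ 2 + η ^ 2 := by positivity
      have := Real.log_le_sub_one_of_pos (div_pos q0 q1)
      rw [Real.log_div q0.ne' q1.ne'] at this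
      have b : ((1 + ξ) ^ 2 + H ^ 2) / ((1 + ξ) ^ 2 + η ^ 2) ≤ 1 + H ^ 2 := by
        rw [div_le_iff₀ q1]
        have : 0 ≤ H ^ 2 * ((1 + ξ) ^ 2 + η ^ 2 - 1) := by
          apply mul_nonneg (sq_nonneg _); nlinarith [sq_nonneg η]
        nlinarith [sq_nonneg η]
      linarith
    have a4 : Real.log (x ^ 2 + H ^ 2) ≤ Real.log ((1 + ξ) ^ 2 + H ^ 2) :=
      Real.log_le_log p0 (by nlinarith)
    have a5 : Real.log (δ ^ 2) + 1 / 4 ≤ Real.log ((x - 1) ^ 2 + H ^ 2) := by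
      have b1 : Real.log (H ^ 2) ≤ Real.log ((x - 1) ^ 2 + H ^ 2) :=
        Real.log_le_log (by positivity) (by nlinarith [sq_nonneg (x - 1)])
      have b2 : Real.log (H ^ 2) = Real.log (36 / 25) + Real.log (δ ^ 2) := by
        rw [← Real.log_mul (by norm_num) (by positivity), hH]; congr 1; ring
      have b3 := Real.one_sub_inv_le_log_of_pos (x := 36 / 25) (by norm_num)
      norm_num at b3
      linarith
    have a6 : (3 + s) * H ^ 2 ≤ 1 / 2 := by
      have := h.Nδ_le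
      calc (3 + s) * H ^ 2 = 36 / 25 * δ * ((3 + s) * δ) := by rw [hH]; ring
        _ ≤ 36 / 25 * (1 / 32) * (19 / 32) := by gcongr
        _ ≤ 1 / 2 := by norm_num
    have c1 : s * (Real.log ((1 + (1 + ξ)) ^ 2 + η ^ 2) - Real.log ((1 + ξ) ^ 2 + η ^ 2) - H ^ 2) ≤
        s * (Real.log ((1 + x) ^ 2 + H ^ 2) - Real.log (x ^ 2 + H ^ 2)) := by
      gcongr s * ?_; linarith
    nlinarith

end Data

theorem G_eq (s : ℕ) (y : ℝ) : (PhiW 3 s 1 ((1 : ℝ) + y * I)).im =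
    s * (2 * arg (2 + y * I) + y * (Real.log (4 + y ^ 2) / 2)) -
      (3 + s) * (arg (1 + y * I) + y * (Real.log (1 + y ^ 2) / 2)) + 3 * (y * Real.log y) := by
  rw [W_im, LL_im, LL_im, LL_im, show (1 : ℂ) + ((1 : ℝ) + y * I) = 2 + y * I by push_cast; ring,
    show ((1 : ℝ) + y * I : ℂ) - 1 = y * I by push_cast; ring, log_norm (2 + y * I),
    log_norm ((1 : ℝ) + y * I)]
  simp
  ring_nf

theorem norm_le_of_sq {z : ℂ} {c : ℝ} (hc : 0 ≤ c) (h : z.re ^ 2 + z.im ^ 2 ≤ c ^ 2) : ‖z‖ ≤ c := by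
  refine (abs_le_of_sq_le_sq' ?_ hc).2
  rw [← normSq_eq_norm_sq, normSq_apply]; linarith

theorem Data.G_nonpos {s : ℕ} {ξ η δ : ℝ} (h : Data s ξ η δ) {y : ℝ} (hy0 : 0 ≤ y)
    (hy1 : y ≤ 6 / 5 * δ) : (PhiW 3 s 1 ((1 : ℝ) + y * I)).im ≤ 0 := by
  rcases hy0.eq_or_lt with rfl | hy0
  · simpa using (W_real_im s (x := 1) le_rfl).le
  rw [G_eq]
  have hs := h.hs
  have hξ := h.ξ_pos
  have hδ1 := h.δ_le
  have hδ0 := h.hδ0
  have hN := h.Nδ_le
  have a1 : arg (2 + y * I) ≤ y / 2 := by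
    simpa using arg_le_div (z := 2 + y * I) (by simp) (by simpa using hy0.le)
  have a2 : y * (1 - y) ≤ arg (1 + y * I) := by
    have b1 := div_le_arg (z := 1 + y * I) (by simpa using hy0.le)
    have b2 : ‖1 + y * I‖ ≤ 1 + y := norm_le_of_sq (by linarith) (by simp; nlinarith)
    have b3 : 0 < ‖1 + y * I‖ := norm_pos_iff.2 fun e => by
      simpa using congrArg re e
    simp only [add_im, one_im, mul_im, ofReal_re, I_im, mul_one, ofReal_im, I_re, mul_zero,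
      add_zero, zero_add] at b1
    refine le_trans ?_ b1
    rw [le_div_iff₀ b3]
    calc y * (1 - y) * ‖1 + y * I‖ ≤ y * (1 - y) * (1 + y) := by
          gcongr; apply mul_nonneg hy0.le; linarith
      _ ≤ y := by nlinarith [mul_pos hy0 (mul_pos hy0 hy0)]
  have a3 : 0 ≤ Real.log (1 + y ^ 2) := Real.log_nonneg (by nlinarith [sq_nonneg y])
  have a4 : Real.log (4 + y ^ 2) ≤ Real.log 4 + y := by
    have : 4 + y ^ 2 = 4 * (1 + y ^ 2 / 4) := by ring
    rw [this, Real.log_mul (by norm_num) (by positivity)]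
    have := Real.log_le_sub_one_of_pos (x := 1 + y ^ 2 / 4) (by positivity)
    nlinarith
  have a5 : Real.log y ≤ 1 / 5 + Real.log (δ ^ 2) / 2 := by
    have b1 : Real.log y ≤ Real.log (6 / 5 * δ) := Real.log_le_log hy0 hy1
    rw [Real.log_mul (by norm_num) hδ0.ne'] at b1
    have b2 := Real.log_le_sub_one_of_pos (x := 6 / 5) (by norm_num)
    rw [Real.log_pow]; push_cast; linarith
  have hm := h.mod_eq
  have a6 : Real.log 4 ≤ Real.log ((1 + (1 + ξ)) ^ 2 + η ^ 2) :=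
    Real.log_le_log (by norm_num) (by nlinarith [sq_nonneg η])
  have a7 : Real.log ((1 + ξ) ^ 2 + η ^ 2) ≤ 2 * δ := by
    have b1 : (1 + ξ) ^ 2 + η ^ 2 ≤ (1 + δ) ^ 2 := by nlinarith [h.hδ, h.ξ_le]
    have b2 := Real.log_le_log (by positivity) b1
    rw [Real.log_pow] at b2
    have b3 := Real.log_le_sub_one_of_pos (x := 1 + δ) (by positivity)
    push_cast at b2; linarith
  have a8 : 3 * Real.log (δ ^ 2) ≤ 19 / 16 - s * Real.log 4 := by
    have b1 : s * Real.log 4 ≤ s * Real.log ((1 + (1 + ξ)) ^ 2 + η ^ 2) := by gcongr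
    have b2 : (3 + s) * Real.log ((1 + ξ) ^ 2 + η ^ 2) ≤ (3 + s) * (2 * δ) := by gcongr
    linarith
  have hsy : s * y ≤ 3 / 5 := by nlinarith [h.hsδ]
  have hNy : (3 + s) * y ≤ 3 / 4 := by nlinarith
  have c1 : s * (2 * arg (2 + y * I) + y * (Real.log (4 + y ^ 2) / 2)) ≤
      s * (y + y * ((Real.log 4 + y) / 2)) := by gcongr; linarith
  have c2 : (3 + s) * (y * (1 - y)) ≤
      (3 + s) * (arg (1 + y * I) + y * (Real.log (1 + y ^ 2) / 2)) := by
    gcongr; nlinarith [mul_nonneg hy0.le a3]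
  have c3 : 3 * (y * Real.log y) ≤ y * (3 / 5 + (19 / 16 - s * Real.log 4) / 2) := by
    have : 3 * Real.log y ≤ 3 / 5 + (19 / 16 - s * Real.log 4) / 2 := by linarith
    nlinarith
  have c4 : s * (y + y * ((Real.log 4 + y) / 2)) - (3 + s) * (y * (1 - y)) +
      y * (3 / 5 + (19 / 16 - s * Real.log 4) / 2) =
      y * (s * y / 2 - 3 + (3 + s) * y + 3 / 5 + 19 / 32) := by ring
  have c5 : y * (s * y / 2 - 3 + (3 + s) * y + 3 / 5 + 19 / 32) ≤ 0 :=
    mul_nonpos_of_nonneg_of_nonpos hy0.le (by linarith)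
  linarith

theorem G_nonneg {s : ℕ} (hs : (16 : ℝ) ≤ s) :
    0 ≤ (PhiW 3 s 1 ((1 : ℝ) + (2 / s : ℝ) * I)).im := by
  rw [G_eq]
  set y : ℝ := 2 / s with hy
  have hy0 : 0 < y := by positivity
  have hsy : s * y = 2 := by rw [hy]; field_simp
  have hy1 : y ≤ 1 / 8 := by nlinarith
  have a1 : y * (1 - y ^ 2 / 8) / 2 ≤ arg (2 + y * I) := by
    have b1 := div_le_arg (z := 2 + y * I) (by simpa using hy0.le)
    have b2 : ‖2 + y * I‖ ≤ 2 + y ^ 2 / 4 := norm_le_of_sq (by positivity) (by simp; nlinarith)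
    have b3 : 0 < ‖2 + y * I‖ := norm_pos_iff.2 fun e => by
      simpa using congrArg re e
    simp only [add_im, im_ofNat, mul_im, ofReal_re, I_im, mul_one, ofReal_im, I_re, mul_zero,
      add_zero, zero_add] at b1
    refine le_trans ?_ b1
    rw [le_div_iff₀ b3]
    calc y * (1 - y ^ 2 / 8) / 2 * ‖2 + y * I‖ ≤ y * (1 - y ^ 2 / 8) / 2 * (2 + y ^ 2 / 4) := by
          gcongr; apply div_nonneg (mul_nonneg hy0.le (by nlinarith)) (by norm_num)
      _ = y - y ^ 5 / 64 := by ring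
      _ ≤ y := by have := pow_pos hy0 5; linarith
  have a2 : arg (1 + y * I) ≤ y := by
    simpa using arg_le_div (z := 1 + y * I) (by simp) (by simpa using hy0.le)
  have a3 : Real.log (1 + y ^ 2) ≤ y ^ 2 := by
    have := Real.log_le_sub_one_of_pos (x := 1 + y ^ 2) (by positivity)
    linarith
  have a4 : 2 * Real.log 2 ≤ Real.log (4 + y ^ 2) := by
    have : Real.log (2 ^ 2) ≤ Real.log (4 + y ^ 2) :=
      Real.log_le_log (by norm_num) (by nlinarith [sq_nonneg y])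
    rw [Real.log_pow] at this; exact_mod_cast this
  have a5 : -(3 * Real.log 2) - (s / 16 - 1) ≤ Real.log y := by
    have e : y = (2 ^ 3 * ((s : ℝ) / 16))⁻¹ := by rw [hy]; field_simp; norm_num
    rw [e, Real.log_inv, Real.log_mul (by norm_num) (by positivity), Real.log_pow]
    have := Real.log_le_sub_one_of_pos (x := (s : ℝ) / 16) (by positivity)
    push_cast; linarith
  have h2 := Real.log_two_gt_d9
  have c1 : s * (y * (1 - y ^ 2 / 8) + y * Real.log 2) ≤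
      s * (2 * arg (2 + y * I) + y * (Real.log (4 + y ^ 2) / 2)) := by
    refine mul_le_mul_of_nonneg_left (add_le_add (by linarith) ?_) (by positivity)
    gcongr; linarith
  have c2 : (3 + s) * (arg (1 + y * I) + y * (Real.log (1 + y ^ 2) / 2)) ≤
      (3 + s) * (y + y * (y ^ 2 / 2)) := by gcongr
  have c3 : 3 * (y * (-(3 * Real.log 2) - (s / 16 - 1))) ≤ 3 * (y * Real.log y) := by gcongr
  have c4 : s * (y * (1 - y ^ 2 / 8) + y * Real.log 2) - (3 + s) * (y + y * (y ^ 2 / 2)) +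
      3 * (y * (-(3 * Real.log 2) - (s / 16 - 1))) =
      y * ((s - 9) * Real.log 2 - 3 * s / 16 - (s * y) * y * (5 / 8) - 3 / 2 * y ^ 2) := by ring
  have c5 : 0 ≤ y * ((s - 9) * Real.log 2 - 3 * s / 16 - (s * y) * y * (5 / 8) - 3 / 2 * y ^ 2) := by
    apply mul_nonneg hy0.le
    rw [hsy]
    nlinarith
  linarith

theorem b_lower {s : ℕ} (hs : (16 : ℝ) ≤ s) {x y : ℝ} (hx : 1 ≤ x) (hy0 : 0 ≤ y) (hy : y ≤ 2 / s) :
    -Real.pi ≤ (DD s (x + y * I)).im := by
  rw [DD_im]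
  have a1 : 0 ≤ arg (1 + (x + y * I)) := arg_nonneg_iff.2 (by simpa using hy0)
  have a2 : 0 ≤ arg (x + y * I - 1) := arg_nonneg_iff.2 (by simpa using hy0)
  have a3 : arg (x + y * I) ≤ y := by
    have := arg_le_div (z := x + y * I) (by simp; linarith) (by simpa using hy0)
    simp only [add_im, ofReal_im, mul_im, ofReal_re, I_im, mul_one, I_re, mul_zero, add_zero,
      zero_add, add_re, mul_re, sub_self] at this
    exact this.trans (div_le_self hy0 hx)
  have a4 : s * y ≤ 2 := by rwa [le_div_iff₀ (by linarith), mul_comm] at hy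
  have a5 : y ≤ 1 / 8 := by nlinarith
  have a6 : (3 + s) * arg (x + y * I) ≤ (3 + s) * y := by gcongr
  have a7 : 0 ≤ s * arg (1 + (x + y * I)) := by positivity
  linarith [Real.pi_gt_three]

theorem b_upper (s : ℕ) {x y : ℝ} (hy0 : 0 ≤ y) :
    (DD s (x + y * I)).im ≤ (s + 3) * Real.pi := by
  rw [DD_im]
  have a1 : s * arg (1 + (x + y * I)) ≤ s * Real.pi := by gcongr; exact arg_le_pi _
  have a2 := arg_le_pi (x + y * I - 1)
  have a3 : 0 ≤ (3 + s) * arg (x + y * I) :=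
    mul_nonneg (by positivity) (arg_nonneg_iff.2 (by simpa using hy0))
  linarith

theorem A_two {s : ℕ} (hs : (16 : ℝ) ≤ s) {y : ℝ} (hy : y ^ 2 ≤ 1) :
    0 ≤ (DD s ((2 : ℝ) + y * I)).re := by
  have e := DD_re' s 2 y
  have a1 : Real.log 2 + Real.log (2 ^ 2 + y ^ 2) ≤ Real.log ((1 + 2) ^ 2 + y ^ 2) := by
    rw [← Real.log_mul (by norm_num) (by positivity)]
    exact Real.log_le_log (by positivity) (by nlinarith)
  have a2 : Real.log (2 ^ 2 + y ^ 2) ≤ 2 * Real.log 2 + Real.log ((2 - 1) ^ 2 + y ^ 2) := by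
    have : 2 * Real.log 2 = Real.log (2 ^ 2) := by rw [Real.log_pow]; norm_num
    rw [this, ← Real.log_mul (by norm_num) (by positivity)]
    exact Real.log_le_log (by positivity) (by nlinarith [sq_nonneg y])
  have a3 : s * (Real.log 2 + Real.log (2 ^ 2 + y ^ 2)) ≤ s * Real.log ((1 + 2) ^ 2 + y ^ 2) := by
    gcongr
  have h2 := Real.log_two_gt_d9
  nlinarith

theorem left_mono {s : ℕ} (hs : (16 : ℝ) ≤ s) {y H : ℝ} (hy0 : 0 ≤ y) (hy : y ≤ H) :
    (PhiT 3 s 1 (y * I)).re - 2 * Real.pi * y ≤ (PhiT 3 s 1 (H * I)).re - 2 * Real.pi * H := by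
  have key : ∀ u : ℝ, 0 ≤ u → (PhiT 3 s 1 (u * I)).re =
      (s - 3) + (s - 3) * (LL ((1 : ℝ) + u * I)).re + (3 + s) * (Real.pi / 2 * u) := by
    intro u hu
    have e1 : (LL (1 - u * I)).re = (LL (1 + u * I)).re := by
      rw [← LL_conj_re (1 + u * I)]; simp [sub_eq_add_neg]
    have e2 : (LL (u * I)).re = -(Real.pi / 2 * u) := by
      rw [mul_comm, LL_posI (by simpa using hu)]
      simp [LL_im, arg_ofReal_of_nonneg hu]
    rw [T_re, e1, e2]; push_cast; ring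
  rw [key y hy0, key H (hy0.trans hy)]
  have hpi := Real.pi_pos
  have hm : MonotoneOn (fun u : ℝ => (s - 3) * (LL ((1 : ℝ) + u * I)).re +
      ((3 + s) * (Real.pi / 2) - 2 * Real.pi) * u) (Icc 0 H) := by
    refine monoOn (f' := fun u => (s - 3) * (-(log ((1 : ℝ) + u * I)).im) +
      ((3 + s) * (Real.pi / 2) - 2 * Real.pi) * 1) (fun u _ => ?_) (fun u _ => ?_)
    · exact ((dy_re (hasDerivAt_LL (Or.inl (by simp)))).const_mul _).add
        ((hasDerivAt_id u).const_mul _)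
    · rw [log_im]
      have a1 : arg ((1 : ℝ) + u * I) ≤ Real.pi / 2 := arg_le_pi_div_two_iff.2 (Or.inl (by simp))
      nlinarith
  have := hm ⟨hy0, hy⟩ ⟨hy0.trans hy, le_rfl⟩ hy
  simp only at this
  linarith

theorem Data.im_bounds {s : ℕ} {ξ η δ : ℝ} (h : Data s ξ η δ) :
    -Real.pi < (PhiW 3 s 1 ((1 + ξ : ℝ) + η * I) - Real.pi * I * ((1 + ξ : ℝ) + η * I - 1)).im ∧
      (PhiW 3 s 1 ((1 + ξ : ℝ) + η * I) - Real.pi * I * ((1 + ξ : ℝ) + η * I - 1)).im < 0 := by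
  set t : ℂ := (1 + ξ : ℝ) + η * I with ht
  have e : PhiW 3 s 1 t - Real.pi * I * (t - 1) = 2 * s * log (1 + t) - (3 + s) * log t := by
    rw [← h.hD]
    simp only [PhiW, Phi0, LL, DD, log_one, ← ht]
    push_cast; ring
  have e2 : (2 * s * log (1 + t) - (3 + s) * log t).im = 2 * s * arg (1 + t) - (3 + s) * arg t := by
    simp [log_im]
  rw [e, e2]
  have hre : t.re = 1 + ξ := by simp [ht]
  have him : t.im = η := by simp [ht]
  have hη := h.hη
  have hξ := h.ξ_pos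
  have hδ0 := h.hδ0
  have hs := h.hs
  have a1 : 0 ≤ arg (1 + t) := arg_nonneg_iff.2 (by simp [him]; linarith)
  have a2 : arg (1 + t) ≤ η / 2 := by
    have := arg_le_div (z := 1 + t) (by simp [hre]; linarith) (by simp [him]; linarith)
    simp only [add_im, one_im, zero_add, add_re, one_re, hre, him] at this
    exact this.trans (by gcongr; linarith)
  have a3 : arg t ≤ η := by
    have := arg_le_div (z := t) (by rw [hre]; linarith) (by rw [him]; linarith)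
    rw [hre, him] at this
    exact this.trans (div_le_self hη.le (by linarith))
  have a4 : η / (1 + δ) ≤ arg t := by
    have b1 := div_le_arg (z := t) (by rw [him]; linarith)
    have b2 : ‖t‖ ≤ 1 + δ :=
      norm_le_of_sq (by positivity) (by rw [hre, him]; nlinarith [h.hδ, h.ξ_le])
    have b3 : 0 < ‖t‖ := norm_pos_iff.2 fun e => by
      rw [e] at him; simp at him; linarith
    rw [him] at b1
    exact le_trans (by gcongr) b1
  constructor
  · have b1 : (3 + s) * arg t ≤ (3 + s) * δ := by gcongr; linarith [h.η_le]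
    have b2 : 0 ≤ 2 * s * arg (1 + t) := by positivity
    linarith [h.Nδ_le, Real.pi_gt_three]
  · have b1 : 2 * s * arg (1 + t) ≤ 2 * s * (η / 2) := by gcongr
    have b2 : (3 + s) * (η / (1 + δ)) ≤ (3 + s) * arg t := by gcongr
    have b3 : 2 * s * (η / 2) < (3 + s) * (η / (1 + δ)) := by
      rw [← mul_div_assoc (3 + (s : ℝ)), lt_div_iff₀ (by positivity)]
      nlinarith [h.hsδ]
    linarith

end S3
end Pool.Agent.MP_6026f4_co
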