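import Pool.Agent.Mg.F6026f4p.Gbaeadd

namespace Pool.Agent.MP_6026f4_co

open Complex Set
open scoped ComplexConjugate

namespace S12

theorem peak {f f' f'' : ℝ → ℝ} {c x : ℝ} (h : ∀ z ∈ uIcc c x, HasDerivAt f (f' z) z)
    (h' : ∀ z ∈ uIcc c x, HasDerivAt f' (f'' z) z) (h'' : ∀ z ∈ uIcc c x, f'' z ≤ 0)
    (hc : f' c = 0) : f x ≤ f c := by
  rcases le_total c x with hx | hx
  · rw [uIcc_of_le hx] at h h' h''
    refine anti_of hx h fun z hz => hc ▸ anti_of hz.1 (fun w hw => h' w ⟨hw.1, hw.2.trans hz.2⟩)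
      (fun w hw => h'' w ⟨hw.1, hw.2.trans hz.2⟩)
  · rw [uIcc_of_ge hx] at h h' h''
    refine mono_of hx h fun z hz => hc ▸ anti_of hz.2 (fun w hw => h' w ⟨hz.1.trans hw.1, hw.2⟩)
      (fun w hw => h'' w ⟨hz.1.trans hw.1, hw.2⟩)

theorem log_I_mul {z : ℂ} (h : 0 < z.re) : log (I * z) = log z + Real.pi / 2 * I := by
  have h0 : z ≠ 0 := by intro e; rw [e] at h; simp at h
  have h1 := abs_lt.1 (abs_arg_lt_pi_div_two_iff.2 (Or.inl h))
  apply log_eq_of
  · rw [exp_add, exp_log h0, exp_pi_div_two_mul_I]; ring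
  · simp [log_im]; linarith [Real.pi_pos]
  · simp [log_im]; linarith [Real.pi_pos]

theorem log_neg_I_mul {z : ℂ} (h : 0 < z.re) : log (-I * z) = log z - Real.pi / 2 * I := by
  have h0 : z ≠ 0 := by intro e; rw [e] at h; simp at h
  have h1 := abs_lt.1 (abs_arg_lt_pi_div_two_iff.2 (Or.inl h))
  apply log_eq_of
  · rw [exp_sub, exp_log h0, exp_pi_div_two_mul_I, div_I]; ring
  · simp [log_im]; linarith [Real.pi_pos]
  · simp [log_im]; linarith [Real.pi_pos]

theorem PhiH_I (r s : ℕ) {t : ℂ} (h1 : -1 < t.re) (h2 : t.re < 0) :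
    PhiH r s I (I * t) = I * PhiH r s 1 t := by
  have e1 := log_I_mul (z := 1 + t) (by simp; linarith)
  have e2 := log_I_mul (z := -t) (by simp; linarith)
  have e3 := log_I_mul (z := 1 - t) (by simp; linarith)
  simp only [PhiH, Phi0, LL]
  rw [show I + I * t = I * (1 + t) by ring, show -(I * t) = I * -t by ring,
    show I - I * t = I * (1 - t) by ring, e1, e2, e3, log_I, log_one]
  ring

theorem PhiH_neg_I (r s : ℕ) {t : ℂ} (h1 : -1 < t.re) (h2 : t.re < 0) :
    PhiH r s (-I) (-I * t) = -I * PhiH r s 1 t := by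
  have e1 := log_neg_I_mul (z := 1 + t) (by simp; linarith)
  have e2 := log_neg_I_mul (z := -t) (by simp; linarith)
  have e3 := log_neg_I_mul (z := 1 - t) (by simp; linarith)
  simp only [PhiH, Phi0, LL]
  rw [show -I + -I * t = -I * (1 + t) by ring, show -(-I * t) = -I * -t by ring,
    show -I - -I * t = -I * (1 - t) by ring, e1, e2, e3, log_neg_I, log_one]
  ring

theorem DH_neg_I (r s : ℕ) {t : ℂ} (h1 : -1 < t.re) (h2 : t.re < 0) :
    DH r s (-I) (-I * t) = DH r s 1 t := by
  have e1 := log_neg_I_mul (z := 1 + t) (by simp; linarith)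
  have e2 := log_neg_I_mul (z := -t) (by simp; linarith)
  have e3 := log_neg_I_mul (z := 1 - t) (by simp; linarith)
  simp only [DH]
  rw [show -I + -I * t = -I * (1 + t) by ring, show -(-I * t) = -I * -t by ring,
    show -I - -I * t = -I * (1 - t) by ring, e1, e2, e3]
  ring

theorem PhiH_one (r s : ℕ) (t : ℂ) :
    PhiH r s 1 t = s * log (1 + t) - r * log (1 - t) + t * DH r s 1 t := by
  simp only [PhiH, Phi0, LL, DH, log_one]; ring

theorem re_LL_conj (w : ℂ) : (LL (conj w)).re = (LL w).re := by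
  simp only [LL, sub_re, mul_re, conj_re, conj_im, log_re, log_im, norm_conj, arg_conj]
  split_ifs with h
  · rw [(arg_eq_pi_iff.1 h).2]; ring
  · ring

theorem re_PhiH_conj (r s : ℕ) (k : ℂ) : (PhiH r s 1 (conj k)).re = (PhiH r s 1 k).re := by
  have e1 := re_LL_conj (1 + k)
  have e2 := re_LL_conj (-k)
  have e3 := re_LL_conj (1 - k)
  rw [map_add, map_one] at e1
  rw [map_neg] at e2
  rw [map_sub, map_one] at e3
  simp only [PhiH, Phi0]
  generalize LL (1 + conj k) = p1 at *
  generalize LL (-conj k) = p2 at *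
  generalize LL (1 - conj k) = p3 at *
  simp [e1, e2, e3]

theorem second_pos (r s : ℕ) (hs : r + 1 ≤ s) {k : ℂ} (h1 : -1 < k.re) (h2 : k.re < 0) :
    0 < (s / (1 + k) - (r + s) / k - r / (1 - k)).re := by
  have hs' : (r : ℝ) + 1 ≤ s := by exact_mod_cast hs
  have hr0 : (0 : ℝ) ≤ r := Nat.cast_nonneg r
  have e : (s / (1 + k) - (r + s) / k - r / (1 - k)).re =
      s * ((1 + k.re) / ((1 + k.re) ^ 2 + k.im ^ 2)) +
      (r + s) * (-k.re / (k.re ^ 2 + k.im ^ 2)) -
      r * ((1 - k.re) / ((1 - k.re) ^ 2 + k.im ^ 2)) := by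
    simp [div_re, normSq_apply]; ring
  rw [e]
  set x := k.re
  set y := k.im
  have hy := sq_nonneg y
  have q0 : 0 < (1 - x) ^ 2 + y ^ 2 := by nlinarith
  have a1 : (1 + x) / ((1 - x) ^ 2 + y ^ 2) ≤ (1 + x) / ((1 + x) ^ 2 + y ^ 2) :=
    div_le_div_of_nonneg_left (by linarith) (by nlinarith) (by nlinarith)
  have a2 : -x / ((1 - x) ^ 2 + y ^ 2) ≤ -x / (x ^ 2 + y ^ 2) :=
    div_le_div_of_nonneg_left (by linarith) (by nlinarith) (by nlinarith)
  have a3 : s * ((1 + x) / ((1 - x) ^ 2 + y ^ 2)) + (r + s) * (-x / ((1 - x) ^ 2 + y ^ 2)) -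
      r * ((1 - x) / ((1 - x) ^ 2 + y ^ 2)) = (s - r) / ((1 - x) ^ 2 + y ^ 2) := by
    field_simp; ring
  have a4 : 0 < ((s : ℝ) - r) / ((1 - x) ^ 2 + y ^ 2) := div_pos (by linarith) q0
  have a5 := mul_le_mul_of_nonneg_left a1 (show (0 : ℝ) ≤ s by linarith)
  have a6 := mul_le_mul_of_nonneg_left a2 (show (0 : ℝ) ≤ r + s by linarith)
  linarith

theorem vert_one (r s : ℕ) {x : ℝ} (h1 : -1 < x) (h2 : x < 0) (y : ℝ) :
    HasDerivAt (fun y : ℝ => (PhiH r s 1 (x + y * I)).re) (DH r s 1 (x + y * I) * I).re y :=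
  re_deriv (line_c x I y (hasDerivAt_PhiH r s (Or.inl (by simp; linarith))
    (Or.inl (by simp; linarith)) (Or.inl (by simp; linarith))))

theorem vert_one' (r s : ℕ) {x : ℝ} (h1 : -1 < x) (h2 : x < 0) (y : ℝ) :
    HasDerivAt (fun y : ℝ => (DH r s 1 (x + y * I) * I).re)
      (-(s / (1 + (x + y * I)) - (r + s) / (x + y * I) - r / (1 - (x + y * I)) : ℂ).re) y := by
  have h := re_deriv ((line_c x I y (hasDerivAt_DH r s (n := 1) (Or.inl (by simp; linarith))
    (Or.inl (by simp; linarith)) (Or.inl (by simp; linarith)))).mul_const I)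
  refine h.congr_deriv ?_
  rw [mul_assoc, I_mul_I, mul_neg_one, neg_re]

/-- Vertical motion for `n = -I` in the first quadrant. -/
theorem vert_neg_I (r s : ℕ) {p : ℝ} (hp : 0 < p) (q : ℝ) (hq : 0 < q) :
    HasDerivAt (fun q : ℝ => (PhiH r s (-I) (p + q * I)).re)
      (-(s * Real.arctan ((q - 1) / p) - (r + s) * (Real.arctan (q / p) - Real.pi) +
        r * (Real.arctan ((q + 1) / p) - Real.pi))) q := by
  have h := re_deriv (line_c p I q (hasDerivAt_PhiH r s (n := -I)
    (Or.inl (by simpa using hp)) (Or.inr (by simp; linarith)) (Or.inr (by simp; linarith))))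
  refine h.congr_deriv ?_
  have e1 : arg (-I + (p + q * I)) = Real.arctan ((q - 1) / p) := by
    rw [arg_pos_re (by simpa using hp)]; congr 1; simp; ring
  have e2 : arg (-(p + q * I)) = Real.arctan (q / p) - Real.pi := by
    rw [arg_neg_re_neg_im (by simpa using hp) (by simpa using hq)]; simp [neg_div]; ring
  have e3 : arg (-I - (p + q * I)) = Real.arctan ((q + 1) / p) - Real.pi := by
    rw [arg_neg_re_neg_im (by simpa using hp) (by simp; linarith),
      show (-I - (p + q * I)).im / -(-I - (p + q * I)).re = -((q + 1) / p) by simp; ring,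
      Real.arctan_neg]
    ring
  rw [mul_I_re, DH_im, e1, e2, e3]

theorem log_conc {u l : ℝ} (hu : 0 < 1 + u) (h0 : 0 ≤ l) (h1 : l ≤ 1) :
    l * Real.log (1 + u) ≤ Real.log (1 + l * u) := by
  have := strictConcaveOn_log_Ioi.concaveOn.2 (x := 1 + u) (y := 1) hu (by simp) h0
    (sub_nonneg.2 h1) (by ring)
  simp only [smul_eq_mul, Real.log_one, mul_zero, add_zero] at this
  rwa [show l * (1 + u) + (1 - l) * 1 = 1 + l * u by ring] at this

theorem sign_aux {s r p o q V W : ℝ} (hs : 0 ≤ s) (hr : 0 ≤ r) (hp : 0 < p) (ho : 0 < o)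
    (hq : 0 < q) (hV : 0 ≤ V) (hW : V ≤ W) :
    (V + o) / (W + o) * (s * Real.log (V + p) - (r + s) * Real.log (V + o) + r * Real.log (V + q))
      ≤ s * Real.log (W + p) - (r + s) * Real.log (W + o) + r * Real.log (W + q) := by
  have hW0 : 0 ≤ W := hV.trans hW
  have l0 : 0 ≤ (V + o) / (W + o) := by positivity
  have l1 : (V + o) / (W + o) ≤ 1 := by rw [div_le_one (by positivity)]; linarith
  have key : ∀ c : ℝ, 0 < c → (V + o) / (W + o) * (Real.log (V + c) - Real.log (V + o)) ≤
      Real.log (W + c) - Real.log (W + o) := by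
    intro c hc
    have e1 : 1 + (c - o) / (V + o) = (V + c) / (V + o) := by field_simp; ring
    have e2 : 1 + (V + o) / (W + o) * ((c - o) / (V + o)) = (W + c) / (W + o) := by
      field_simp; ring
    have := log_conc (u := (c - o) / (V + o)) (by rw [e1]; positivity) l0 l1
    rwa [e1, e2, Real.log_div (by positivity) (by positivity),
      Real.log_div (by positivity) (by positivity)] at this
  have k1 := mul_le_mul_of_nonneg_left (key p hp) hs
  have k2 := mul_le_mul_of_nonneg_left (key q hq) hr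
  linarith

theorem ray_second (r s : ℕ) {t : ℂ} (hy : 0 < t.im) {ρ : ℝ} (hρ : 0 < ρ) :
    ((s / (-I + (0 + ρ * (-I * t))) - (r + s) / (0 + ρ * (-I * t)) -
      r / (-I - (0 + ρ * (-I * t)))) * (-I * t) * (-I * t)).re ≤ 0 := by
  have ht : t ≠ 0 := by intro h; rw [h] at hy; simp at hy
  have hρ' : (ρ : ℂ) ≠ 0 := by exact_mod_cast hρ.ne'
  have him : 0 < (ρ * t).im := by simp; positivity
  have h1 : 1 + ρ * t ≠ 0 := by
    intro h; have := congrArg im h; rw [add_im, one_im, zero_im] at this; linarith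
  have h2 : 1 - ρ * t ≠ 0 := by
    intro h; have := congrArg im h; rw [sub_im, one_im, zero_im] at this; linarith
  have e : (s / (-I + (0 + ρ * (-I * t))) - (r + s) / (0 + ρ * (-I * t)) -
      r / (-I - (0 + ρ * (-I * t)))) * (-I * t) * (-I * t) =
      ((ρ ^ 2)⁻¹ : ℝ) * ((s - r - s * (1 + ρ * t)⁻¹ + r * (1 - ρ * t)⁻¹) * I) := by
    rw [show -I + (0 + ρ * (-I * t)) = -I * (1 + ρ * t) by ring,
      show -I - (0 + ρ * (-I * t)) = -I * (1 - ρ * t) by ring,
      show 0 + ρ * (-I * t) = -I * (ρ * t) by ring]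
    push_cast
    field_simp
    ring
  rw [e, re_ofReal_mul, mul_I_re]
  apply mul_nonpos_of_nonneg_of_nonpos (by positivity)
  have i1 : ((1 + ρ * t)⁻¹).im ≤ 0 := by
    rw [inv_im]; apply div_nonpos_of_nonpos_of_nonneg _ (normSq_nonneg _)
    rw [add_im, one_im]; linarith
  have i2 : 0 ≤ ((1 - ρ * t)⁻¹).im := by
    rw [inv_im]; apply div_nonneg _ (normSq_nonneg _)
    rw [sub_im, one_im]; linarith
  generalize (1 + ρ * t)⁻¹ = a at *
  generalize (1 - ρ * t)⁻¹ = b at *
  simp
  nlinarith [mul_nonneg (Nat.cast_nonneg (α := ℝ) r) i2,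
    mul_nonneg (Nat.cast_nonneg (α := ℝ) s) (neg_nonneg.2 i1)]

end S12

open S12 in
theorem saddle_small (r s e : ℕ) (hr : r = 1 ∨ r = 2) (hs : r + 1 ≤ s) (he : 1 ≤ e)
    (her : e + r ≤ s) (_hpar : Even (r + s + e)) :
    ∃ (t : ℂ) (α : ℝ), 0 < t.im ∧ -1 < t.re ∧ t.re < -1 / 2 ∧
      s * log (1 + t) - (r + s) * log (-t) + r * log (1 - t) - Real.pi * I * e = 0 ∧
      α = (PhiH r s 1 t - Real.pi * I * e * t).im ∧ 0 < α ∧ α ≤ Real.pi * e * (-t.re) ∧
      (e = 1 → α < Real.pi) ∧ (e = 2 → Real.pi < α ∧ α < 2 * Real.pi) ∧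
      0 < (s / (1 + t) - (r + s) / t - r / (1 - t)).re ∧
      ConcaveOn ℝ univ (fun y : ℝ => (PhiH r s 1 (t.re + y * I)).re) ∧
      (∀ y : ℝ, (PhiH r s 1 (t.re - y * I)).re = (PhiH r s 1 (t.re + y * I)).re) ∧
      (∀ y : ℝ, (PhiH r s 1 (t.re + y * I)).re + Real.pi * e * y ≤
        (PhiH r s 1 t).re + Real.pi * e * t.im) ∧
      (∀ ρ : ℝ, 0 ≤ ρ → (PhiH r s (-I) (ρ * (-I * t))).re + Real.pi * e * (ρ * (-t.re)) ≤ α) ∧
      (∀ ρ w : ℝ, s ≤ ρ * t.im → 0 ≤ w →
        (PhiH r s (-I) (ρ * (-I * t) + w * I)).re + Real.pi * e * (ρ * (-t.re) + w) ≤ α - 2 * w) ∧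
      (∀ v : ℝ, 0 ≤ v → (PhiH r s I (-v + t.re * I)).re + Real.pi * e * t.re ≤ -α) ∧
      (∀ v w : ℝ, s ≤ v → 0 ≤ w →
        (PhiH r s I (-v + (t.re + w) * I)).re + Real.pi * e * (t.re + w) ≤ -α - 2 * w) := by
  obtain ⟨t, hy, hx2, hD⟩ := exists_saddle r s e (by omega) he (by omega)
  have hx1 := neg_one_lt_re r s e hr hs her hy hD
  have hx0 : t.re < 0 := by linarith
  have hpi := Real.pi_gt_three
  have hr0 : (0 : ℝ) ≤ r := Nat.cast_nonneg r
  have hs0 : (0 : ℝ) < s := by exact_mod_cast (by omega : 0 < s)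
  have he0 : (1 : ℝ) ≤ e := by exact_mod_cast he
  have hes : (e : ℝ) + 1 ≤ s := by exact_mod_cast (by omega : e + 1 ≤ s)
  set α := (PhiH r s 1 t - Real.pi * I * e * t).im with hα
  have hα' : α = (PhiH r s 1 t).im - Real.pi * e * t.re := by simp [hα]
  have hA : arg (1 + t) = Real.arctan (t.im / (1 + t.re)) := by
    rw [arg_pos_re (by simp; linarith)]; simp
  have hB : arg (-t) = -Real.arctan (t.im / (-t.re)) := by
    rw [arg_pos_re (by simp; linarith), ← Real.arctan_neg]; simp [neg_div]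
  have hC : arg (1 - t) = -Real.arctan (t.im / (1 - t.re)) := by
    rw [arg_pos_re (by simp; linarith), ← Real.arctan_neg]; simp [neg_div]
  have hαAC : α = s * Real.arctan (t.im / (1 + t.re)) + r * Real.arctan (t.im / (1 - t.re)) := by
    rw [hα, PhiH_one, hD, show (s : ℂ) * log (1 + t) - r * log (1 - t) + t * (Real.pi * I * e) -
      Real.pi * I * e * t = s * log (1 + t) - r * log (1 - t) by ring]
    simp [log_im, hA, hC]
  have him := congrArg im hD
  rw [DH_im, hA, hB, hC] at him
  have hre := congrArg re hD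
  rw [DH_re] at hre
  simp only [mul_re, mul_im, ofReal_re, ofReal_im, I_re, I_im, natCast_re, natCast_im, one_re,
    one_im, mul_zero, mul_one, zero_mul, sub_zero, add_zero, zero_add, zero_sub, even_two,
    Even.neg_pow] at him hre
  have hlow : Real.pi * e < 2 * α := by
    have h1 : Real.arctan (t.im / (-t.re)) < Real.arctan (t.im / (1 + t.re)) :=
      Real.arctan_strictMono (div_lt_div_of_pos_left hy (by linarith) (by linarith))
    have h2 : Real.arctan (t.im / (-t.re)) ≤ Real.arctan (3 * (t.im / (1 - t.re))) := by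
      apply Real.arctan_mono
      rw [← mul_div_assoc, div_le_div_iff₀ (by linarith) (by linarith)]
      nlinarith
    have h3 := arctan_mul_le (c := 3) (z := t.im / (1 - t.re)) (by norm_num)
      (div_pos hy (by linarith)).le
    have k1 := mul_lt_mul_of_pos_left h1 hs0
    have k2 := mul_le_mul_of_nonneg_left (h2.trans h3) hr0
    rw [hαAC]
    linarith
  have hα0 : 0 < α := by nlinarith
  have hE : ∀ v : ℝ, 0 ≤ v → (PhiH r s I (-v + t.re * I)).re + Real.pi * e * t.re ≤ -α := by
    intro v hv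
    have hval : (PhiH r s I (-(t.im : ℂ) + t.re * I)).re = -(PhiH r s 1 t).im := by
      rw [show -(t.im : ℂ) + t.re * I = I * t by apply Complex.ext <;> simp,
        PhiH_I r s hx1 hx0]
      simp
    have hd := horiz_I r s (q := t.re) (by linarith) (by linarith) (by linarith)
    have hp : 0 < (1 + t.re) ^ 2 := by have : 0 < 1 + t.re := by linarith
                                       positivity
    have ho : 0 < t.re ^ 2 := by nlinarith
    have hq : 0 < (1 - t.re) ^ 2 := by nlinarith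
    have h0 : s * Real.log (t.im ^ 2 + (1 + t.re) ^ 2) - (r + s) * Real.log (t.im ^ 2 + t.re ^ 2) +
        r * Real.log (t.im ^ 2 + (1 - t.re) ^ 2) = 0 := by
      rw [add_comm (t.im ^ 2), add_comm (t.im ^ 2), add_comm (t.im ^ 2)]
      linarith
    have : (PhiH r s I (-v + t.re * I)).re ≤ (PhiH r s I (-(t.im : ℂ) + t.re * I)).re := by
      rcases le_total v t.im with h | h
      · refine mono_of h (fun z _ => hd z) fun z hz => ?_
        have := sign_aux hs0.le hr0 hp ho hq (sq_nonneg z) (W := t.im ^ 2)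
          (pow_le_pow_left₀ (hv.trans hz.1) hz.2 2)
        rw [h0] at this
        have h2 := nonpos_of_mul_nonpos_right this (by positivity)
        linarith
      · refine anti_of h (fun z _ => hd z) fun z hz => ?_
        have := sign_aux hs0.le hr0 hp ho hq (sq_nonneg t.im) (W := z ^ 2)
          (pow_le_pow_left₀ hy.le hz.1 2)
        rw [h0, mul_zero] at this
        linarith
    linarith
  have hup : α ≤ Real.pi * e * (-t.re) := by
    have h1 := hE 0 le_rfl
    have h2 := re_PhiH_II r s 1 t.re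
    rw [abs_one, abs_of_pos (by linarith : 0 < 1 + t.re), abs_of_neg hx0,
      abs_of_pos (by linarith : 0 < 1 - t.re)] at h2
    push_cast at h1 h2
    rw [one_mul] at h2
    rw [neg_zero, zero_add, h2] at h1
    nlinarith
  have hup' : α < Real.pi * e := by
    have : Real.pi * e * (-t.re) < Real.pi * e * 1 :=
      mul_lt_mul_of_pos_left (by linarith) (by positivity)
    linarith
  have hC' : ∀ ρ : ℝ, 0 ≤ ρ →
      (PhiH r s (-I) (ρ * (-I * t))).re + Real.pi * e * (ρ * (-t.re)) ≤ α := by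
    intro ρ hρ
    rcases hρ.eq_or_lt with h | h
    · have h2 := re_PhiH_II r s (-1) 0
      rw [← h]
      simp at h2 ⊢
      rw [h2]
      linarith
    have hpos : ∀ z ∈ uIcc 1 ρ, 0 < z := fun z hz => lt_of_lt_of_le (lt_min one_pos h) hz.1
    have s1 : ∀ z : ℝ, 0 < z → -I + (0 + z * (-I * t)) ∈ slitPlane := fun z hz =>
      Or.inl (by simp; positivity)
    have s2 : ∀ z : ℝ, 0 < z → -(0 + z * (-I * t)) ∈ slitPlane := fun z hz =>
      Or.inr (by simp; exact ⟨hz.ne', hx0.ne⟩)
    have s3 : ∀ z : ℝ, 0 < z → -I - (0 + z * (-I * t)) ∈ slitPlane := fun z hz =>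
      Or.inr (by simp; nlinarith)
    have := peak (f := fun z : ℝ => (PhiH r s (-I) (0 + z * (-I * t))).re +
        Real.pi * e * (z * (-t.re)))
      (f' := fun z : ℝ => (DH r s (-I) (0 + z * (-I * t)) * (-I * t)).re +
        Real.pi * e * (1 * (-t.re))) (c := 1) (x := ρ)
      (fun z hz => (re_deriv (line_c 0 (-I * t) z (hasDerivAt_PhiH r s (s1 z (hpos z hz))
        (s2 z (hpos z hz)) (s3 z (hpos z hz))))).add
        (((hasDerivAt_id z).mul_const (-t.re)).const_mul (Real.pi * e)))
      (fun z hz => (re_deriv ((line_c 0 (-I * t) z (hasDerivAt_DH r s (s1 z (hpos z hz))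
        (s2 z (hpos z hz)) (s3 z (hpos z hz)))).mul_const (-I * t))).add_const _)
      (fun z hz => ray_second r s hy (hpos z hz))
      (by
        simp only [ofReal_one, one_mul, zero_add]
        rw [DH_neg_I r s hx1 hx0, hD]
        simp)
    simp only [ofReal_one, one_mul, zero_add] at this
    rw [PhiH_neg_I r s hx1 hx0] at this
    simp only [neg_mul, neg_re, mul_re, I_re, I_im, zero_mul, one_mul, zero_sub, neg_neg] at this
    simp only [neg_mul] at this ⊢
    linarith
  refine ⟨t, α, hy, hx1, hx2, by rw [← hD]; simp [DH], rfl, hα0, hup, ?_, ?_,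
    second_pos r s hs hx1 hx0, ?_, ?_, ?_, hC', ?_, hE, ?_⟩
  · intro h; rw [h] at hup'; simpa using hup'
  · intro h; rw [h] at hup' hlow; push_cast at hup' hlow; constructor <;> linarith
  · apply Antitone.concaveOn_univ_of_deriv (fun y => (vert_one r s hx1 hx0 y).differentiableAt)
    rw [show deriv (fun y : ℝ => (PhiH r s 1 (t.re + y * I)).re) = _ from
      funext fun y => (vert_one r s hx1 hx0 y).deriv]
    refine antitone_of_hasDerivAt_nonpos (vert_one' r s hx1 hx0) fun y => ?_
    have := second_pos r s hs (k := t.re + y * I) (by simpa using hx1) (by simpa using hx0)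
    simp only [Pi.zero_apply]
    linarith
  · intro y
    rw [← re_PhiH_conj r s (t.re + y * I)]
    congr 2
    simp [sub_eq_add_neg]
  · intro y
    have := peak (f := fun z : ℝ => (PhiH r s 1 (t.re + z * I)).re + Real.pi * e * z)
      (f' := fun z : ℝ => (DH r s 1 (t.re + z * I) * I).re + Real.pi * e * 1) (c := t.im) (x := y)
      (fun z _ => (vert_one r s hx1 hx0 z).add ((hasDerivAt_id z).const_mul (Real.pi * e)))
      (fun z _ => (vert_one' r s hx1 hx0 z).add_const _)
      (fun z _ => by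
        have := second_pos r s hs (k := t.re + z * I) (by simpa using hx1) (by simpa using hx0)
        linarith)
      (by rw [re_add_im, hD]; simp)
    rwa [re_add_im] at this
  · intro ρ w hρ hw
    have hp : 0 < ρ * t.im := by linarith
    have hρ0 : 0 < ρ := (mul_pos_iff_of_pos_right hy).1 hp
    have hq : 0 < ρ * (-t.re) := mul_pos hρ0 (by linarith)
    have h1 := hC' ρ hρ0.le
    have h2 := anti_of (f := fun q : ℝ => (PhiH r s (-I) ((ρ * t.im : ℝ) + q * I)).re +
        (Real.pi * e + 2) * q) (a := ρ * (-t.re)) (b := ρ * (-t.re) + w) (by linarith)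
      (fun q hq' => (vert_neg_I r s hp q (by linarith [hq'.1])).add
        ((hasDerivAt_id q).const_mul (Real.pi * e + 2))) (fun q hq' => ?_)
    · rw [show ((ρ * t.im : ℝ) : ℂ) + ((ρ * (-t.re) + w : ℝ) : ℂ) * I = ρ * (-I * t) + w * I by
          apply Complex.ext <;> simp,
        show ((ρ * t.im : ℝ) : ℂ) + ((ρ * (-t.re) : ℝ) : ℂ) * I = ρ * (-I * t) by
          apply Complex.ext <;> simp] at h2
      linarith
    · set p := ρ * t.im
      have a1 := arctan_sub_le (a := (q - 1) / p) (b := q / p) (by gcongr; linarith)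
      have a2 : Real.arctan (q / p) ≤ Real.arctan ((q + 1) / p) :=
        Real.arctan_mono (by gcongr; linarith)
      have a3 : s * (q / p - (q - 1) / p) ≤ 1 := by
        rw [← sub_div, ← mul_div_assoc, div_le_one hp]; linarith
      have k1 := mul_le_mul_of_nonneg_left a1 hs0.le
      have k2 := mul_le_mul_of_nonneg_left a2 hr0
      have k3 := mul_le_mul_of_nonneg_left hes Real.pi_pos.le
      linarith
  · intro v w hv hw
    have hp : 0 < v := by linarith
    have h1 := hE v hp.le
    have h2 := anti_of (f := fun q : ℝ => (PhiH r s I (-v + q * I)).re +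
        (Real.pi * e + 2) * q) (a := t.re) (b := t.re + w) (by linarith)
      (fun q hq' => (vert_I r s hp q (by linarith [hq'.1])).add
        ((hasDerivAt_id q).const_mul (Real.pi * e + 2))) (fun q hq' => ?_)
    · push_cast at h2
      linarith
    · have a1 := arctan_sub_le (a := q / v) (b := (1 + q) / v) (by gcongr; linarith)
      have a2 : Real.arctan ((q - 1) / v) ≤ Real.arctan (q / v) :=
        Real.arctan_mono (by gcongr; linarith)
      have a3 : s * ((1 + q) / v - q / v) ≤ 1 := by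
        rw [← sub_div, ← mul_div_assoc, div_le_one hp]; linarith
      have k1 := mul_le_mul_of_nonneg_left a1 hs0.le
      have k2 := mul_le_mul_of_nonneg_left a2 hr0
      have k3 := mul_le_mul_of_nonneg_left hes Real.pi_pos.le
      linarith

end Pool.Agent.MP_6026f4_co
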