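import Pool.Agent.Mg.F6026f4p.G56bf26
import Pool.Agent.Mg.F6026f4p.Gfbd6de

section

namespace Pool.Agent.MP_6026f4_co

open Complex Set

/-- The properties of a saddle point near the left end. -/
structure SadData (r s e : ℕ) (t : ℂ) (α : ℝ) : Prop where
  he : 1 ≤ e
  hes : e + 1 ≤ s
  im_pos : 0 < t.im
  re_gt : -1 < t.re
  re_lt : t.re < -1 / 2
  eqn : s * log (1 + t) - (r + s) * log (-t) + r * log (1 - t) - Real.pi * I * e = 0
  α_eq : α = (PhiH r s 1 t - Real.pi * I * e * t).im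
  α_pos : 0 < α
  α_le : α ≤ Real.pi * e * (-t.re)
  one : e = 1 → α < Real.pi
  two : e = 2 → Real.pi < α ∧ α < 2 * Real.pi
  second : 0 < (s / (1 + t) - (r + s) / t - r / (1 - t)).re
  concave : ConcaveOn ℝ univ (fun y : ℝ => (PhiH r s 1 (t.re + y * I)).re)
  even : ∀ y : ℝ, (PhiH r s 1 (t.re - y * I)).re = (PhiH r s 1 (t.re + y * I)).re
  max : ∀ y : ℝ, (PhiH r s 1 (t.re + y * I)).re + Real.pi * e * y ≤
    (PhiH r s 1 t).re + Real.pi * e * t.im
  ray : ∀ ρ : ℝ, 0 ≤ ρ → (PhiH r s (-I) (ρ * (-I * t))).re + Real.pi * e * (ρ * (-t.re)) ≤ α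
  ray_up : ∀ ρ w : ℝ, s ≤ ρ * t.im → 0 ≤ w →
    (PhiH r s (-I) (ρ * (-I * t) + w * I)).re + Real.pi * e * (ρ * (-t.re) + w) ≤ α - 2 * w
  hor : ∀ v : ℝ, 0 ≤ v → (PhiH r s I (-v + t.re * I)).re + Real.pi * e * t.re ≤ -α
  hor_up : ∀ v w : ℝ, s ≤ v → 0 ≤ w →
    (PhiH r s I (-v + (t.re + w) * I)).re + Real.pi * e * (t.re + w) ≤ -α - 2 * w

theorem exists_sadData (r s e : ℕ) (hr : r = 1 ∨ r = 2) (hs : r + 1 ≤ s) (he : 1 ≤ e)
    (her : e + r ≤ s) (hpar : Even (r + s + e)) : ∃ t α, SadData r s e t α := by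
  obtain ⟨t, α, h1, h2, h3, h4, h5, h6, h7, h8, h9, h10, h11, h12, h13, h14, h15, h16, h17⟩ :=
    saddle_small r s e hr hs he her hpar
  exact ⟨t, α, he, by omega, h1, h2, h3, h4, h5, h6, h7, h8, h9, h10, h11, h12, h13, h14, h15,
    h16, h17⟩

end Pool.Agent.MP_6026f4_co

end

section

namespace Pool.Agent.MP_6026f4_co

open Complex Set Filter Topology

namespace RR

theorem concave_decay {g : ℝ → ℝ} (hg : ConcaveOn ℝ univ g) {y₀ δ h₀ σ : ℝ} (hδ : 0 < δ)
    (h : g (y₀ + σ * δ) ≤ h₀) {w : ℝ} (hw : 0 ≤ w) :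
    g (y₀ + σ * δ + σ * w) ≤ h₀ - (g y₀ - h₀) / δ * w := by
  have hs : 0 < δ + w := by linarith
  have := hg.2 (mem_univ y₀) (mem_univ (y₀ + σ * δ + σ * w))
    (show 0 ≤ w / (δ + w) by positivity) (show 0 ≤ δ / (δ + w) by positivity)
    (by field_simp; ring)
  simp only [smul_eq_mul] at this
  rw [show w / (δ + w) * y₀ + δ / (δ + w) * (y₀ + σ * δ + σ * w) = y₀ + σ * δ by
    field_simp; ring] at this
  have h2 := this.trans h
  rw [div_mul_eq_mul_div, div_mul_eq_mul_div, ← add_div, div_le_iff₀ hs] at h2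
  have h3 : δ * g (y₀ + σ * δ + σ * w) ≤ δ * (h₀ - (g y₀ - h₀) / δ * w) := by
    have : δ * (h₀ - (g y₀ - h₀) / δ * w) = δ * h₀ - (g y₀ - h₀) * w := by field_simp
    rw [this]; linarith
  exact le_of_mul_le_mul_left h3 hδ

/-- The admissible natural numbers. -/
def Big (x : ℝ) : Set ℕ := {n | 1 ≤ n * (1 + x)}

theorem big_mem {x : ℝ} (hx : -1 < x) : Big x ∈ atTop :=
  (tendsto_natCast_atTop_atTop.atTop_mul_const (by linarith : 0 < 1 + x)).eventually_ge_atTop 1

theorem Big.one_le {x : ℝ} (hx : x ≤ 0) {n : ℕ} (hn : n ∈ Big x) : (1 : ℝ) ≤ n := by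
  have h : (1 : ℝ) ≤ n * (1 + x) := hn
  nlinarith [(Nat.cast_nonneg n : (0 : ℝ) ≤ n)]

theorem pb_ray (r s : ℕ) (e : ℝ) {x b σ h c : ℝ} (hx : x ≤ 0) (hσ : |σ| = 1)
    (H : ∀ w : ℝ, 0 ≤ w → (PhiH r s 1 (x + ((b + σ * w : ℝ) : ℂ) * I)).re -
      Real.pi * e * (b + σ * w) ≤ h - c * w) :
    PB (Big x ×ˢ Ioi (0 : ℝ)) (fun p => (p.1 : ℝ) + p.2)
      (fun p => PP r s e p.1 (p.1 * (x + b * I) + p.2 * (σ * I))) fun p => h * p.1 - c * p.2 := by
  have F : Frame (Big x ×ˢ Ioi (0 : ℝ)) (fun p => (p.1 : ℝ) + p.2) (fun p => (p.1 : ℂ))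
      (fun p => p.1 * (x + b * I) + p.2 * (σ * I)) (fun _ => 0) (fun _ => 0) 1 (1 / 2) 0
      (1 + ‖(x : ℂ) + b * I‖) :=
    { hη := one_pos, hη1 := le_rfl, hd := by norm_num
      hm := fun p hp => add_nonneg (Nat.cast_nonneg _) (le_of_lt hp.2)
      hp := by simp, hq := by simp
      hn := fun p hp => by
        rw [Complex.norm_natCast]
        nlinarith [norm_nonneg ((x : ℂ) + b * I), (Nat.cast_nonneg p.1 : (0 : ℝ) ≤ p.1),
          show 0 < p.2 from hp.2]
      hk := fun p hp => by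
        have h1 := norm_add_le (p.1 * ((x : ℂ) + b * I)) (p.2 * (σ * I))
        have h2 : 0 < p.2 := hp.2
        rw [norm_mul, norm_mul, norm_mul, Complex.norm_natCast, norm_real, norm_real, norm_I,
          Real.norm_eq_abs, Real.norm_eq_abs, hσ, abs_of_pos h2] at h1
        nlinarith [norm_nonneg ((x : ℂ) + b * I), (Nat.cast_nonneg p.1 : (0 : ℝ) ≤ p.1)]
      s1 := fun p hp => Sec.of_re_nonneg le_rfl (by simp)
      s2 := fun p hp => Sec.of_re_nonneg le_rfl (by
        have h1 : (1 : ℝ) ≤ p.1 * (1 + x) := hp.1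
        simp; linarith)
      g1 := fun p hp => Good.of_re (by simp; linarith [Big.one_le hx hp.1])
      g2 := fun p hp => Good.of_re (by
        have h1 : (1 : ℝ) ≤ p.1 * (1 + x) := hp.1
        simp; linarith) }
  have hre : ∀ p : ℕ × ℝ, p.1 * x ≤ 0 := fun p => mul_nonpos_of_nonneg_of_nonpos (Nat.cast_nonneg _) hx
  refine (((F.TH r s (fun p hp => Sec.of_re_nonneg le_rfl (by simpa using hre p))
    (fun p hp => Sec.of_re_nonneg le_rfl (by
      simp; linarith [hre p, (Nat.cast_nonneg p.1 : (0 : ℝ) ≤ p.1)]))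
    (fun p hp => Good.of_re (by simpa using hre p))).PP_of_TH r s e).congr
    (fun p _ => by simp)).mono F.hm fun p hp => ?_
  have hn : (0 : ℝ) < p.1 := by linarith [Big.one_le hx hp.1]
  have hτ : 0 < p.2 := hp.2
  have e1 : (p.1 : ℂ) * (x + b * I) + p.2 * (σ * I) =
      p.1 * (x + ((b + σ * (p.2 / p.1) : ℝ) : ℂ) * I) := by
    have : (p.1 : ℂ) ≠ 0 := by exact_mod_cast hn.ne'
    push_cast; field_simp; ring
  have e2 := PhiH_smul r s (ρ := p.1) hn 1 (x + ((b + σ * (p.2 / p.1) : ℝ) : ℂ) * I)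
  rw [ofReal_natCast, mul_one] at e2
  rw [add_zero, e1, e2, re_natCast_mul, im_natCast_mul]
  have h1 := mul_le_mul_of_nonneg_left (H (p.2 / p.1) (by positivity)) hn.le
  have e3 : (p.1 : ℝ) * (h - c * (p.2 / p.1)) = h * p.1 - c * p.2 := by field_simp
  rw [e3] at h1
  simp only [add_im, ofReal_im, mul_im, ofReal_re, I_im, mul_one, I_re, mul_zero, add_zero, zero_add]
  linarith

/-- The strip of holomorphy. -/
def Strip (n : ℕ) : Set ℂ := {k | 1 / 2 - n < k.re ∧ k.re < 1 / 2}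

theorem convex_strip (n : ℕ) : Convex ℝ (Strip n) :=
  (convex_halfSpace_re_gt _).inter (convex_halfSpace_re_lt _)

theorem isOpen_strip (n : ℕ) : IsOpen (Strip n) :=
  (isOpen_lt continuous_const continuous_re).inter (isOpen_lt continuous_re continuous_const)

theorem diffAt_strip (r s : ℕ) (e : ℝ) {n : ℕ} (hn : (1 : ℝ) ≤ n) {k : ℂ} (hk : k ∈ Strip n) :
    DifferentiableAt ℂ (PP r s e n) k :=
  diffAt_PP (n := fun _ => (n : ℂ)) (k := fun k => k) r s e (differentiableAt_const _)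
    differentiableAt_id (NP.of_re (by rw [natCast_re]; linarith))
    (NP.of_re (by have := hk.1; simp at this ⊢; linarith))
    (NP.of_re (by have := hk.2; simp at this ⊢; linarith))

theorem mem_strip {x : ℝ} (hx : x ≤ 0) {n : ℕ} (hn : n ∈ Big x) {k : ℂ} (hk : k.re = n * x) :
    k ∈ Strip n := by
  have h1 : (1 : ℝ) ≤ n * (1 + x) := hn
  have h2 : n * x ≤ 0 := mul_nonpos_of_nonneg_of_nonpos (Nat.cast_nonneg _) hx
  constructor <;> rw [hk] <;> linarith

theorem ray_facts (r s : ℕ) (e : ℝ) {x b σ h c : ℝ} (hx1 : -1 < x) (hx : x ≤ 0) (hσ : |σ| = 1)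
    (hc : 0 < c) (H : ∀ w : ℝ, 0 ≤ w → (PhiH r s 1 (x + ((b + σ * w : ℝ) : ℂ) * I)).re -
      Real.pi * e * (b + σ * w) ≤ h - c * w) :
    (∀ n ∈ Big x, RayInt (PP r s e n) (n * (x + b * I)) (σ * I)) ∧
      EB atTop (fun n : ℕ => (n : ℝ)) h fun n : ℕ => ray (PP r s e n) (n * (x + b * I)) (σ * I) := by
  have P := pb_ray r s e hx hσ H
  refine ⟨fun n hn => PB.rayInt (S := Big x) (m := fun n => (n : ℝ))
    (F := fun n : ℕ => PP r s e n) (a := fun n => n * (x + b * I)) (d := fun _ => σ * I)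
    (h := fun n => h * n) hc (fun _ _ => Nat.cast_nonneg _) P hn ?_, ?_⟩
  · refine Continuous.continuousOn (continuous_iff_continuousAt.2 fun τ => ?_)
    exact ContinuousAt.comp (f := fun τ : ℝ => (n : ℂ) * (x + b * I) + τ * (σ * I))
      (diffAt_strip r s e (Big.one_le hx hn) (mem_strip hx hn (by simp))).continuousAt
      (by fun_prop)
  · refine PB.eb (big_mem hx1) (fun n _ => Nat.cast_nonneg n) ?_
    exact PB.ray (F := fun n : ℕ => PP r s e n) (a := fun n => n * (x + b * I))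
      (d := fun _ => σ * I) hc (fun _ _ => Nat.cast_nonneg _) (fun _ _ => by simp [hσ]) P

theorem connect (r s : ℕ) {e : ℝ} (he : |e| ≤ s - 1) {x b σ : ℝ} (hx : x ≤ 0) (hσ : |σ| = 1)
    {n : ℕ} (hn : n ∈ Big x) :
    Tendsto (fun H : ℝ => seg (PP r s e n) (0 + H * (σ * I)) (n * (x + b * I) + H * (σ * I)))
      atTop (𝓝 0) := by
  have hn1 := Big.one_le hx hn
  have h1 : (1 : ℝ) ≤ n * (1 + x) := hn
  have h2 : n * x ≤ 0 := mul_nonpos_of_nonneg_of_nonpos (Nat.cast_nonneg _) hx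
  refine EB.tendsto_zero (ρ := fun H => H) (h := -Real.pi) ?_ (by linarith [Real.pi_pos]) tendsto_id
  refine PB.eb (S := Ici 0) (Ici_mem_atTop 0) (fun _ h => h) ?_
  refine PB.seg (F := fun _ : ℝ => PP r s e n) (A := ‖(n : ℂ) * (x + b * I)‖) (fun _ h => h) ?_
    fun H hH => by
      have : 0 ≤ H := hH
      rw [show (n : ℂ) * (x + b * I) + H * (σ * I) - (0 + H * (σ * I)) = n * (x + b * I) by ring]
      nlinarith [norm_nonneg ((n : ℂ) * (x + b * I))]
  have hv : ∀ p ∈ Ici (0 : ℝ) ×ˢ Icc (0 : ℝ) 1, n * x ≤ p.2 * (n * x) ∧ p.2 * (n * x) ≤ 0 ∧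
      |p.2 * (n * b)| ≤ |n * b| := fun p hp =>
    ⟨by nlinarith [hp.2.2], by nlinarith [hp.2.1], by
      rw [abs_mul, abs_of_nonneg hp.2.1]; nlinarith [hp.2.2, abs_nonneg (n * b)]⟩
  have hτ : ∀ p ∈ Ici (0 : ℝ) ×ˢ Icc (0 : ℝ) 1, |σ * p.1 + p.2 * (n * b)| ≤ p.1 + |n * b| ∧
      p.1 - |n * b| ≤ |σ * p.1 + p.2 * (n * b)| := fun p hp => by
    have h3 : |σ * p.1| = p.1 := by rw [abs_mul, hσ, one_mul, abs_of_nonneg hp.1]
    have h4 := abs_add_le (σ * p.1) (p.2 * (n * b))
    have h5 := abs_sub (σ * p.1 + p.2 * (n * b)) (p.2 * (n * b))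
    rw [add_sub_cancel_right] at h5
    constructor <;> linarith [(hv p hp).2.2]
  have F := frame_crude (S := Ici (0 : ℝ) ×ˢ Icc (0 : ℝ) 1) (m := fun p => p.1)
    (T := fun _ => 0) (τ := fun p => σ * p.1 + p.2 * (n * b)) (p := fun _ => n)
    (q := fun p => p.2 * (n * x)) (d := 1 / 2) (C₀ := n) (A := 1 + |n * b|) (by norm_num)
    (fun p hp => hp.1) (fun _ _ => by simp) (fun _ _ => by linarith)
    (fun p hp => by rw [abs_le]; constructor <;> linarith [hv p hp])
    (fun p hp => by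
      have : 0 ≤ p.1 := hp.1
      simp only [abs_zero]; positivity)
    (fun p hp => by
      have : 0 ≤ p.1 := hp.1
      nlinarith [(hτ p hp).1, abs_nonneg (n * b)])
    (fun p hp => Good.of_re (by simp; linarith [hv p hp]))
  refine ((crude_PP r s e F fun p hp => Good.of_re (by simpa using (hv p hp).2.1)).congr
    fun p _ => ?_).shift F.hm (c := Real.pi * |n * b|) fun p hp => ?_
  · congr 1
    · simp
    · push_cast; ring
  · simp only [abs_zero, zero_add, zero_sub, abs_neg]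
    have h3 := (hτ p hp).2
    set τ := σ * p.1 + p.2 * (n * b)
    have h4 : -(e * τ) ≤ (s - 1) * |τ| := by
      have := neg_le_abs (e * τ)
      rw [abs_mul] at this
      nlinarith [abs_nonneg τ]
    have hpi := Real.pi_pos
    nlinarith [mul_le_mul_of_nonneg_left h4 hpi.le, mul_le_mul_of_nonneg_left h3 hpi.le]

theorem MM_eq (r s : ℕ) (hs : 1 ≤ s) {e : ℝ} (he : |e| ≤ s - 1) {x b₁ b₂ : ℝ} (hx : x ≤ 0)
    {n : ℕ} (hn : n ∈ Big x) (h₁ : RayInt (PP r s e n) (n * (x + b₁ * I)) (((-1 : ℝ) : ℂ) * I))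
    (h₂ : RayInt (PP r s e n) (n * (x + b₂ * I)) (((1 : ℝ) : ℂ) * I)) :
    MM r s e n = seg (PP r s e n) (n * (x + b₁ * I)) (n * (x + b₂ * I)) +
      (ray (PP r s e n) (n * (x + b₂ * I)) (((1 : ℝ) : ℂ) * I) -
        ray (PP r s e n) (n * (x + b₁ * I)) (((-1 : ℝ) : ℂ) * I)) := by
  have hn1 := Big.one_le hx hn
  have hF : DifferentiableOn ℂ (PP r s e n) (Strip n) := fun k hk =>
    (diffAt_strip r s e hn1 hk).differentiableWithinAt
  have h0 : ∀ σ τ : ℝ, (0 + τ * (σ * I) : ℂ) ∈ Strip n := fun σ τ => by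
    constructor <;> simp <;> linarith
  have hb : ∀ b σ τ : ℝ, ((n : ℂ) * (x + b * I) + τ * (σ * I)) ∈ Strip n := fun b σ τ =>
    mem_strip hx hn (by simp)
  have e1 := ray_shift (convex_strip n) (isOpen_strip n) hF (fun τ _ => h0 1 τ)
    (fun τ _ => hb b₂ 1 τ)
    (by simpa using rayInt_UP r s hs (e := e) (by linarith [abs_le.1 he]) (n := n) (by simpa using hn1))
    h₂ (connect r s he hx (by simp) hn)
  have e2 := ray_shift (convex_strip n) (isOpen_strip n) hF (fun τ _ => h0 (-1) τ)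
    (fun τ _ => hb b₁ (-1) τ)
    (by simpa using rayInt_DP r s hs (e := e) (by linarith [abs_le.1 he]) (n := n) (by simpa using hn1))
    h₁ (connect r s he hx (by simp) hn)
  obtain ⟨P, hP⟩ := exists_primitive (convex_strip n) (isOpen_strip n) hF
  have z0 : (0 : ℂ) ∈ Strip n := by simpa using h0 0 0
  have z1 : ∀ b : ℝ, (n : ℂ) * (x + b * I) ∈ Strip n := fun b => by simpa using hb b 0 0
  rw [hP _ z0 _ (z1 _)] at e1 e2
  rw [hP _ (z1 _) _ (z1 _), MM, UP, DP]
  have e3 : ray (PP r s e n) 0 I = ray (PP r s e n) 0 (((1 : ℝ) : ℂ) * I) := by simp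
  have e4 : ray (PP r s e n) 0 (-I) = ray (PP r s e n) 0 (((-1 : ℝ) : ℂ) * I) := by simp
  rw [e3, e4, e1, e2]
  ring

theorem hasDerivAt_PhiH (r s : ℕ) {t : ℂ} (h1 : 1 + t ∈ slitPlane) (h2 : -t ∈ slitPlane)
    (h3 : 1 - t ∈ slitPlane) :
    HasDerivAt (PhiH r s 1) (s * log (1 + t) - (r + s) * log (-t) + r * log (1 - t)) t := by
  have a1 := ((hasDerivAt_LL h1).comp t ((hasDerivAt_id t).const_add 1)).const_mul (s : ℂ)
  have a2 := ((hasDerivAt_LL h2).comp t (hasDerivAt_id t).neg).const_mul ((r : ℂ) + s)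
  have a3 := ((hasDerivAt_LL h3).comp t ((hasDerivAt_id t).const_sub 1)).const_mul (r : ℂ)
  exact (((a1.const_add ((r - s) * LL 1)).add a2).sub a3).congr_deriv (by ring)

end RR

open RR in
theorem real_MM {r s e : ℕ} {t : ℂ} {α : ℝ} (D : SadData r s e t α) :
    ∃ (c : ℂ) (V : ℕ → ℂ) (h : ℝ), c ≠ 0 ∧ h < (PhiH r s 1 t - Real.pi * I * e * t).re ∧
      Tendsto (fun n : ℕ => V n * ((n : ℝ) ^ (((r + s : ℕ) : ℝ) / 2 - 1 / 2) : ℝ) /
        exp (n * (PhiH r s 1 t - Real.pi * I * e * t))) atTop (𝓝 c) ∧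
      EB atTop (fun n : ℕ => (n : ℝ)) h (fun n : ℕ => MM r s (-(e : ℝ)) n - V n) ∧
      ∀ e' : ℝ, |e'| ≤ e - 1 → EB atTop (fun n : ℕ => (n : ℝ)) h fun n : ℕ => MM r s e' n := by
  have hy := D.im_pos
  have hx1 := D.re_gt
  have hx : t.re ≤ 0 := by linarith [D.re_lt]
  have hes : (e : ℝ) + 1 ≤ s := by exact_mod_cast D.hes
  have hs : 1 ≤ s := by have := D.hes; omega
  have hpi := Real.pi_pos
  set Φ : ℂ → ℂ := fun z => PhiH r s 1 z - Real.pi * I * e * z with hΦ
  have hΦre : ∀ z, (Φ z).re = (PhiH r s 1 z).re + Real.pi * e * z.im := by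
    intro z; simp [hΦ]
  have s1 : 1 + t ∈ slitPlane := slit_of_im (by simpa using hy.ne')
  have s2 : -t ∈ slitPlane := slit_of_im (by simpa using hy.ne')
  have s3 : 1 - t ∈ slitPlane := slit_of_im (by simpa using hy.ne')
  obtain ⟨g, hg, hamp⟩ := tendsto_amp_TH r s s1 s2 s3
  have hev : ∀ᶠ p : ℕ × ℂ in atTop ×ˢ 𝓝 t, 0 < p.1 ∧ 0 < p.2.im := by
    filter_upwards [tendsto_fst.eventually (eventually_gt_atTop 0),
      tendsto_snd.eventually (eventually_im_pos hy)] with p h1 h2 using ⟨h1, by linarith⟩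
  have h2pi : ((2 * Real.pi : ℂ)⁻¹) ^ (r + s) ≠ 0 :=
    pow_ne_zero _ (inv_ne_zero (mul_ne_zero two_ne_zero (by exact_mod_cast hpi.ne')))
  obtain ⟨c, hc, δ₁, hδ₁, hlap⟩ := laplace_seg (F := fun n => PP r s (-(e : ℝ)) n) (Φ := Φ)
    (Φ' := fun z => s * log (1 + z) - (r + s) * log (-z) + r * log (1 - z) - Real.pi * I * e)
    (t₀ := t) (d := I) (Ψ := s / (1 + t) - (r + s) / t - r / (1 - t))
    (g := ((2 * Real.pi : ℂ)⁻¹) ^ (r + s) * g)
    (β := ((r + s : ℕ) : ℝ) / 2) I_ne_zero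
    (by
      filter_upwards [eventually_im_pos hy] with z hz
      have hz' : z.im ≠ 0 := by linarith
      exact (hasDerivAt_PhiH r s (slit_of_im (by simpa using hz')) (slit_of_im (by simpa using hz'))
        (slit_of_im (by simpa using hz'))).sub
        (by simpa using (hasDerivAt_id z).const_mul (Real.pi * I * e)))
    D.eqn
    (by
      have a1 := (((hasDerivAt_id t).const_add 1).clog s1).const_mul (s : ℂ)
      have a2 := ((hasDerivAt_id t).neg.clog s2).const_mul ((r : ℂ) + s)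
      have a3 := (((hasDerivAt_id t).const_sub 1).clog s3).const_mul (r : ℂ)
      exact (((a1.sub a2).add a3).sub_const _).congr_deriv
        (by simp only [id, Pi.neg_apply, neg_div_neg_eq]; ring))
    (by rw [I_sq, neg_one_mul, neg_re]; linarith [D.second]) (mul_ne_zero h2pi hg)
    (by
      filter_upwards [hev] with p ⟨h1, h2⟩
      have h3 : ((p.1 : ℂ) * p.2).im ≠ 0 := by
        rw [im_natCast_mul]; positivity
      exact contAt_PP (n := fun _ => (p.1 : ℂ)) (k := fun k => k) r s _ continuousAt_const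
        continuousAt_id (NP.of_re (by simpa using h1))
        (NP.of_im (by simpa using h3)) (NP.of_im (by simpa using h3)))
    (by
      refine (hamp.const_mul (((2 * Real.pi : ℂ)⁻¹) ^ (r + s))).congr fun p => ?_
      simp only [hΦ, PP]
      rw [show -(p.1 * (PhiH r s 1 p.2 - Real.pi * I * e * p.2)) = -(p.1 * PhiH r s 1 p.2) +
        -(Real.pi * I * ((-(e : ℝ) : ℝ) : ℂ) * (p.1 * p.2)) by push_cast; ring, exp_add,
        exp_neg (Real.pi * I * ((-(e : ℝ) : ℝ) : ℂ) * (p.1 * p.2))]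
      have := exp_ne_zero (Real.pi * I * ((-(e : ℝ) : ℝ) : ℂ) * (p.1 * p.2))
      field_simp)
  set δ := min δ₁ (t.im / 2) with hδ
  have hδ0 : 0 < δ := lt_min hδ₁ (by linarith)
  have hδa : δ ≤ t.im / 2 := min_le_right _ _
  obtain ⟨hp, hm, hV⟩ := hlap δ hδ0 (min_le_left _ _)
  set G : ℝ → ℝ := fun y => (PhiH r s 1 (t.re + y * I)).re with hG
  set γ : ℝ → ℝ := fun y => G y + Real.pi * e * y with hγ
  have hγc : ConcaveOn ℝ univ γ := D.concave.add
    ⟨convex_univ, fun x _ y _ a b _ _ _ => le_of_eq (by simp only [smul_eq_mul]; ring)⟩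
  have ep : t + δ * I = t.re + ((t.im + 1 * δ : ℝ) : ℂ) * I := by apply Complex.ext <;> simp
  have em : t - δ * I = t.re + ((t.im + -1 * δ : ℝ) : ℂ) * I := by
    apply Complex.ext <;> simp [sub_eq_add_neg]
  have hγΦ : ∀ y : ℝ, (Φ (t.re + y * I)).re = γ y := fun y => by rw [hΦre]; simp [hγ, hG]
  have h0 : (Φ t).re = γ t.im := by rw [← hγΦ, re_add_im]
  rw [ep, hγΦ, h0] at hp
  rw [em, hγΦ, h0] at hm
  set h₀ := max (γ (t.im + 1 * δ)) (γ (t.im + -1 * δ)) with hh₀
  have hh₀lt : h₀ < γ t.im := max_lt hp hm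
  set κ := (γ t.im - h₀) / δ with hκ
  have hκ0 : 0 < κ := div_pos (by linarith) hδ0
  have dp : ∀ w : ℝ, 0 ≤ w → γ (t.im + 1 * δ + 1 * w) ≤ h₀ - κ * w := fun w hw =>
    concave_decay hγc hδ0 (le_max_left _ _) hw
  have dm : ∀ w : ℝ, 0 ≤ w → γ (t.im + -1 * δ + -1 * w) ≤ h₀ - κ * w := fun w hw =>
    concave_decay hγc hδ0 (le_max_right _ _) hw
  set h := max h₀ (γ t.im - Real.pi * (t.im - δ) / 2) with hh
  refine ⟨c, fun n => seg (PP r s (-(e : ℝ)) n) (n * (t - δ * I)) (n * (t + δ * I)), h, hc, ?_, hV,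
    ?_, fun e' he' => ?_⟩
  · change h < (Φ t).re
    rw [h0]
    exact max_lt hh₀lt (by nlinarith)
  · obtain ⟨i1, E1⟩ := ray_facts r s (-(e : ℝ)) (b := t.im + 1 * δ) (σ := 1) (h := h₀) hx1 hx
      (by simp) hκ0 fun w hw => by
        have := dp w hw
        simp only [hγ, hG] at this
        linarith
    obtain ⟨i2, E2⟩ := ray_facts r s (-(e : ℝ)) (b := t.im + -1 * δ) (σ := -1) (h := h₀) hx1 hx
      (by simp) hκ0 fun w hw => by
        have := dm w hw
        simp only [hγ, hG] at this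
        linarith
    refine ((E1.sub E2).mono (le_max_left _ _)).congr' ?_
    filter_upwards [big_mem hx1] with n hn
    rw [MM_eq r s hs (by rw [abs_neg, abs_of_nonneg (Nat.cast_nonneg e)]; linarith) hx hn (i2 n hn)
      (i1 n hn), ep, em]
    ring
  · have key : ∀ w : ℝ, 0 ≤ w → γ w - Real.pi * w ≤ h - Real.pi / 2 * w := fun w hw => by
      rcases le_total w (t.im - δ) with h1 | h1
      · have := dm (t.im - δ - w) (by linarith)
        rw [show t.im + -1 * δ + -1 * (t.im - δ - w) = w by ring] at this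
        have h2 : h₀ ≤ h := le_max_left _ _
        nlinarith
      · have h2 : γ w ≤ γ t.im := by
          have := D.max w
          simp only [hγ, hG, re_add_im]
          exact this
        have h3 : γ t.im - Real.pi * (t.im - δ) / 2 ≤ h := le_max_right _ _
        nlinarith
    obtain ⟨i1, E1⟩ := ray_facts r s e' (b := 0) (σ := 1) (h := h) (c := Real.pi / 2) hx1 hx
      (by simp) (by positivity) fun w hw => by
        have := key w hw
        simp only [hγ, hG] at this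
        rw [zero_add, one_mul]
        nlinarith [mul_le_mul_of_nonneg_left (abs_le.1 he').1 (mul_nonneg hpi.le hw)]
    obtain ⟨i2, E2⟩ := ray_facts r s e' (b := 0) (σ := -1) (h := h) (c := Real.pi / 2) hx1 hx
      (by simp) (by positivity) fun w hw => by
        have := key w hw
        simp only [hγ, hG] at this
        rw [zero_add, neg_one_mul, ofReal_neg, neg_mul, ← sub_eq_add_neg, D.even]
        nlinarith [mul_le_mul_of_nonneg_left (abs_le.1 he').2 (mul_nonneg hpi.le hw)]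
    refine (E1.sub E2).congr' ?_
    filter_upwards [big_mem hx1] with n hn
    rw [MM_eq r s hs (he'.trans (by linarith)) hx hn (i2 n hn) (i1 n hn)]
    simp [seg]

end Pool.Agent.MP_6026f4_co

end

section

namespace Pool.Agent.MP_6026f4_co

open Complex Set Filter Topology

namespace RM

theorem sec_of_im {c : ℝ} (hc : 0 < c) {w : ℂ} (h : c * |w.re| ≤ |w.im|) :
    w ∈ Sec (c ^ 2 / (2 * (1 + c ^ 2))) := by
  change c ^ 2 / (2 * (1 + c ^ 2)) * ‖w‖ ≤ ‖w‖ + w.re
  set η := c ^ 2 / (2 * (1 + c ^ 2)) with hη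
  have h1 : η * (2 * (1 + c ^ 2)) = c ^ 2 := by rw [hη]; field_simp
  have hη0 : 0 ≤ η := by positivity
  have hη1 : η ≤ 1 / 2 := by
    rw [hη, div_le_iff₀ (by positivity)]; nlinarith
  have h2 : ‖w‖ ^ 2 = w.re ^ 2 + w.im ^ 2 := by
    rw [Complex.sq_norm, normSq_apply]; ring
  have h3 : c ^ 2 * w.re ^ 2 ≤ w.im ^ 2 := by
    have := mul_self_le_mul_self (by positivity) h
    rw [abs_mul_abs_self] at this
    have e : c * |w.re| * (c * |w.re|) = c ^ 2 * w.re ^ 2 := by
      rw [← sq_abs w.re]; ring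
    nlinarith
  have h4 : |w.re| ≤ (1 - η) * ‖w‖ := by
    apply abs_le_of_sq_le_sq' _ (by nlinarith [norm_nonneg w]) |>.2.trans le_rfl
    rw [sq_abs, mul_pow]
    have h5 : (1 + c ^ 2) * w.re ^ 2 ≤ ‖w‖ ^ 2 := by nlinarith
    have h6 : 1 ≤ (1 - η) ^ 2 * (1 + c ^ 2) := by nlinarith [sq_nonneg η, sq_nonneg c]
    have h7 : w.re ^ 2 ≤ (1 - η) ^ 2 * (1 + c ^ 2) * w.re ^ 2 := by nlinarith [sq_nonneg w.re]
    calc w.re ^ 2 ≤ (1 - η) ^ 2 * ((1 + c ^ 2) * w.re ^ 2) := by linarith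
      _ ≤ _ := by gcongr
  linarith [neg_abs_le w.re]

theorem eta_pos {c : ℝ} (hc : 0 < c) : 0 < c ^ 2 / (2 * (1 + c ^ 2)) := by positivity

theorem eta_le (c : ℝ) : c ^ 2 / (2 * (1 + c ^ 2)) ≤ 1 := by
  rw [div_le_iff₀ (by positivity)]; nlinarith

variable {r s e : ℕ} {t : ℂ} {α : ℝ}

/-- The bound on the lower half of the line. -/
theorem PB_M (D : SadData r s e t α) {ι : Type*} {S : Set ι} {m T ρ τ : ι → ℝ} {R : ℝ}
    (hT : ∀ i ∈ S, 1 ≤ T i) (hTm : ∀ i ∈ S, T i ≤ m i) (hρ : ∀ i ∈ S, 0 ≤ ρ i)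
    (hρR : ∀ i ∈ S, ρ i ≤ R) (hτ : ∀ i ∈ S, 0 ≤ τ i) (hτm : ∀ i ∈ S, τ i ≤ m i) :
    PB S m (fun i => PP r s (-(e : ℝ)) (-(T i * I) + 3 / 2) (T i * ρ i * (-I * t) + τ i * I))
      fun i => T i * ((PhiH r s (-I) (ρ i * (-I * t) + ((τ i / T i : ℝ) : ℂ) * I)).re +
        Real.pi * e * (ρ i * (-t.re) + τ i / T i)) := by
  have hy := D.im_pos
  have hx : 0 < -t.re := by linarith [D.re_lt]
  set c : ℝ := -t.re / t.im with hc
  have hc0 : 0 < c := by positivity
  have hcy : c * t.im = -t.re := by rw [hc]; field_simp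
  have hm : ∀ i ∈ S, 0 ≤ m i := fun i hi => by linarith [hT i hi, hTm i hi]
  have hTρ : ∀ i ∈ S, 0 ≤ T i * ρ i := fun i hi =>
    mul_nonneg (by linarith [hT i hi]) (hρ i hi)
  have kre : ∀ i, (T i * ρ i * (-I * t) + τ i * I : ℂ).re = T i * ρ i * t.im := fun i => by simp
  have kim : ∀ i, (T i * ρ i * (-I * t) + τ i * I : ℂ).im = T i * ρ i * (-t.re) + τ i :=
    fun i => by simp
  have s3 : ∀ i ∈ S, -(T i * ρ i * (-I * t) + τ i * I : ℂ) ∈ Sec (c ^ 2 / (2 * (1 + c ^ 2))) := by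
    intro i hi
    refine sec_of_im hc0 ?_
    have h1 := hTρ i hi
    have h2 := hτ i hi
    rw [neg_re, neg_im, abs_neg, abs_neg, kre, kim, abs_of_nonneg (by positivity),
      abs_of_nonneg (by positivity)]
    nlinarith
  have s4 : ∀ i ∈ S, -(T i * I) - (T i * ρ i * (-I * t) + τ i * I : ℂ) ∈
      Sec (c ^ 2 / (2 * (1 + c ^ 2))) := by
    intro i hi
    refine sec_of_im hc0 ?_
    have h1 := hTρ i hi
    have h2 := hτ i hi
    have h3 := hT i hi
    have h4 : 0 ≤ T i * ρ i * (-t.re) := by positivity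
    rw [sub_re, sub_im, kre, kim]
    simp only [neg_re, neg_im, mul_re, mul_im, ofReal_re, ofReal_im, I_re, I_im, mul_zero, mul_one,
      sub_zero, add_zero, neg_zero, zero_sub, abs_neg]
    rw [abs_of_nonneg (by positivity), abs_of_nonpos (by linarith)]
    nlinarith
  have hd := eta_le c
  have F : Frame S m (fun i => -(T i * I)) (fun i => T i * ρ i * (-I * t) + τ i * I)
      (fun _ => 3 / 2) (fun _ => 0) (c ^ 2 / (2 * (1 + c ^ 2))) (c ^ 2 / (2 * (1 + c ^ 2)) / 4) 2
      (1 + |R| * ‖t‖) :=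
    { hη := eta_pos hc0, hη1 := eta_le c, hd := by have := eta_pos hc0; positivity
      hm := hm
      hp := fun _ _ => by simp; norm_num
      hq := by simp
      hn := fun i hi => by
        have h1 : 0 ≤ |R| * ‖t‖ := by positivity
        rw [norm_neg, norm_mul, norm_I, norm_real, Real.norm_eq_abs,
          abs_of_nonneg (by linarith [hT i hi])]
        nlinarith [hTm i hi, hm i hi]
      hk := fun i hi => by
        refine (norm_add_le _ _).trans ?_
        have h1 : 0 ≤ T i := by linarith [hT i hi]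
        simp only [norm_mul, norm_neg, norm_I, norm_real, Real.norm_eq_abs, abs_of_nonneg h1,
          abs_of_nonneg (hρ i hi), abs_of_nonneg (hτ i hi), one_mul, mul_one]
        have h2 : T i * ρ i * ‖t‖ ≤ m i * |R| * ‖t‖ := by
          have := (hρR i hi).trans (le_abs_self R)
          have := hρ i hi
          have := hm i hi
          have := hTm i hi
          gcongr
        have h3 : 0 ≤ |R| * ‖t‖ := by positivity
        nlinarith [hτm i hi]
      s1 := fun i hi => Sec.of_re_nonneg (eta_le c) (by simp)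
      s2 := fun i hi => Sec.of_re_nonneg (eta_le c) (by
        rw [add_re, kre]; have := hTρ i hi; simp; positivity)
      g1 := fun i hi => Good.of_re (by simp; linarith)
      g2 := fun i hi => Good.of_re (by
        rw [add_zero, sub_re, add_re, kre]
        have : 0 ≤ T i * ρ i * t.im := by have := hTρ i hi; positivity
        simp; linarith) }
  refine (((F.TH r s s3 s4 fun i hi => ?_).PP_of_TH r s (-(e : ℝ))).congr
    (fun i _ => by simp)).mono hm fun i hi => le_of_eq ?_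
  · have := Good.of_sec (eta_pos hc0) (eta_le c) (s3 i hi) (c := 1 / 2) le_rfl
    convert this using 1
    push_cast; ring
  · have h1 : 0 < T i := by linarith [hT i hi]
    have h2 : (T i : ℂ) ≠ 0 := by exact_mod_cast h1.ne'
    have e2 := PhiH_smul r s h1 (-I) (ρ i * (-I * t) + ((τ i / T i : ℝ) : ℂ) * I)
    rw [show (T i : ℂ) * (ρ i * (-I * t) + ((τ i / T i : ℝ) : ℂ) * I) =
      T i * ρ i * (-I * t) + τ i * I by push_cast; field_simp, mul_neg] at e2
    rw [e2, add_zero, kim, re_ofReal_mul]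
    field_simp
    ring

theorem hes' (D : SadData r s e t α) : (e : ℝ) + 1 ≤ s := by exact_mod_cast D.hes

theorem he' (D : SadData r s e t α) : (1 : ℝ) ≤ e := by exact_mod_cast D.he

theorem hs' (D : SadData r s e t α) : 1 ≤ s := by have := D.hes; omega

theorem PB_M_ray (D : SadData r s e t α) :
    PB (Ici (1 : ℝ) ×ˢ Ioi (0 : ℝ)) (fun p => p.1 + p.2)
      (fun p => PP r s (-(e : ℝ)) (-(p.1 * I) + 3 / 2)
        (p.1 * ((s / t.im : ℝ) : ℂ) * (-I * t) + p.2 * I)) fun p => α * p.1 - 2 * p.2 := by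
  have hy := D.im_pos
  refine (PB_M D (S := Ici (1 : ℝ) ×ˢ Ioi (0 : ℝ)) (m := fun p => p.1 + p.2) (T := fun p => p.1)
    (ρ := fun _ => s / t.im) (τ := fun p => p.2) (R := s / t.im) (fun p hp => hp.1)
    (fun p hp => by linarith [show 0 < p.2 from hp.2]) (fun _ _ => by positivity)
    (fun _ _ => le_rfl) (fun p hp => le_of_lt hp.2)
    (fun p hp => by linarith [show 1 ≤ p.1 from hp.1])).mono
    (fun p hp => by linarith [show 1 ≤ p.1 from hp.1, show 0 < p.2 from hp.2]) fun p hp => ?_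
  have h1 : 0 < p.1 := by linarith [show 1 ≤ p.1 from hp.1]
  have h2 : 0 < p.2 := hp.2
  have := D.ray_up (s / t.im) (p.2 / p.1) (by rw [div_mul_cancel₀ _ hy.ne']) (by positivity)
  refine (mul_le_mul_of_nonneg_left this h1.le).trans (le_of_eq ?_)
  field_simp

theorem PB_M_seg (D : SadData r s e t α) :
    PB (Ici (1 : ℝ) ×ˢ Icc (0 : ℝ) 1) (fun p => p.1)
      (fun p => PP r s (-(e : ℝ)) (-(p.1 * I) + 3 / 2)
        (0 + p.2 * (p.1 * ((s / t.im : ℝ) : ℂ) * (-I * t) - 0))) fun p => α * p.1 := by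
  have hy := D.im_pos
  have hR : 0 ≤ s / t.im := by positivity
  refine ((PB_M D (S := Ici (1 : ℝ) ×ˢ Icc (0 : ℝ) 1) (m := fun p => p.1) (T := fun p => p.1)
    (ρ := fun p => p.2 * (s / t.im)) (τ := fun _ => 0) (R := s / t.im) (fun p hp => hp.1)
    (fun p hp => le_rfl) (fun p hp => mul_nonneg hp.2.1 hR)
    (fun p hp => by nlinarith [hp.2.2]) (fun p hp => le_rfl)
    (fun p hp => by linarith [show 1 ≤ p.1 from hp.1])).congr fun p _ => ?_).mono
    (fun p hp => by linarith [show 1 ≤ p.1 from hp.1]) fun p hp => ?_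
  · congr 1; push_cast; ring
  · have h1 : 0 < p.1 := by linarith [show 1 ≤ p.1 from hp.1]
    have := D.ray (p.2 * (s / t.im)) (mul_nonneg hp.2.1 hR)
    simp only [zero_div, ofReal_zero, zero_mul, add_zero]
    rw [mul_comm α]
    exact mul_le_mul_of_nonneg_left this h1.le

theorem tendsto_seg_M (D : SadData r s e t α) {T : ℝ} (hT : 0 ≤ T) {x y : ℝ} (hx : 0 ≤ x)
    (hy : 0 ≤ y) :
    Tendsto (fun H : ℝ => seg (PP r s (-(e : ℝ)) (-(T * I) + 3 / 2)) (0 + H * I)
      (x + y * I + H * I)) atTop (𝓝 0) := by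
  refine EB.tendsto_zero (ρ := fun H => H) (h := -1) ?_ (by norm_num) tendsto_id
  refine PB.eb (S := Ici (T + 1)) (Ici_mem_atTop _)
    (fun H hH => by linarith [show T + 1 ≤ H from hH]) ?_
  refine PB.seg (F := fun _ : ℝ => PP r s (-(e : ℝ)) (-(T * I) + 3 / 2))
    (A := ‖(x + y * I : ℂ)‖) (fun H hH => by linarith [show T + 1 ≤ H from hH]) ?_ fun H hH => by
      rw [show (x + y * I + H * I - (0 + H * I) : ℂ) = x + y * I by ring]
      nlinarith [norm_nonneg (x + y * I : ℂ), show T + 1 ≤ H from hH]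
  have F := frame_crude (S := Ici (T + 1) ×ˢ Icc (0 : ℝ) 1) (m := fun p => p.1)
    (T := fun _ => -T) (τ := fun p => p.1 + p.2 * y) (p := fun _ => 3 / 2) (q := fun p => p.2 * x)
    (d := 1) (C₀ := 2 + x) (A := 1 + y) one_pos
    (fun p hp => by linarith [show T + 1 ≤ p.1 from hp.1])
    (fun _ _ => by rw [abs_of_pos (by norm_num)]; linarith) (fun _ _ => by norm_num)
    (fun p hp => by rw [abs_of_nonneg (mul_nonneg hp.2.1 hx)]; nlinarith [hp.2.2])
    (fun p hp => by
      rw [abs_neg, abs_of_nonneg hT]; nlinarith [show T + 1 ≤ p.1 from hp.1])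
    (fun p hp => by
      have h1 : T + 1 ≤ p.1 := hp.1
      have h2 := mul_nonneg hp.2.1 hy
      rw [abs_of_nonneg (by linarith)]; nlinarith [hp.2.2])
    (fun p hp => Good.of_re (by
      have h2 := mul_nonneg hp.2.1 hx
      simp; linarith))
  refine ((crude_PP r s (-(e : ℝ)) F fun p hp => Good.of_im ?_).congr fun p _ => ?_).shift F.hm
    (c := Real.pi * s * T) fun p hp => ?_
  · have h1 : T + 1 ≤ p.1 := hp.1
    have h2 := mul_nonneg hp.2.1 hy
    rw [show (1 / 2 - (((p.1 + p.2 * y : ℝ) : ℂ) * I + ((p.2 * x : ℝ) : ℂ)) : ℂ).im =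
      -(p.1 + p.2 * y) by simp, abs_neg, abs_of_nonneg (by linarith)]
    linarith
  · congr 1
    · push_cast; ring
    · push_cast; ring
  · have h1 : T + 1 ≤ p.1 := hp.1
    have h2 := mul_nonneg hp.2.1 hy
    set τ := p.1 + p.2 * y with hτ
    have h3 : p.1 ≤ τ := by linarith
    rw [abs_neg, abs_of_nonneg hT, abs_of_nonneg (by linarith : 0 ≤ -T + τ),
      abs_of_nonneg (by linarith : 0 ≤ τ), abs_of_nonpos (by linarith : -T - τ ≤ 0)]
    have h4 : Real.pi * (e + 1) * τ ≤ Real.pi * s * τ := by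
      have := hes' D
      have : 0 ≤ τ := by linarith
      gcongr
    have h5 : 3 * τ ≤ Real.pi * τ := by
      have : 0 ≤ τ := by linarith
      gcongr; exact Real.pi_gt_three.le
    nlinarith

theorem UP_split (D : SadData r s e t α) {T : ℝ} (hT : 1 ≤ T) :
    UP r s (-(e : ℝ)) (-(T * I) + 3 / 2) =
      seg (PP r s (-(e : ℝ)) (-(T * I) + 3 / 2)) 0 (T * ((s / t.im : ℝ) : ℂ) * (-I * t)) +
      ray (PP r s (-(e : ℝ)) (-(T * I) + 3 / 2)) (T * ((s / t.im : ℝ) : ℂ) * (-I * t)) I := by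
  have hy := D.im_pos
  have hx : 0 < -t.re := by linarith [D.re_lt]
  set c : ℝ := -t.re / t.im with hc
  have hc0 : 0 < c := by positivity
  have hcy : c * t.im = -t.re := by rw [hc]; field_simp
  have hR : 0 ≤ T * (s / t.im) := by positivity
  set U : Set ℂ := {k | -1 / 2 < k.re} ∩ {k | c * (k.re - 1 / 2) < k.im} with hU
  have hUc : Convex ℝ U := by
    refine (convex_halfSpace_re_gt _).inter ?_
    have : IsLinearMap ℝ fun k : ℂ => c * k.re - k.im :=
      ⟨fun a b => by simp; ring, fun a b => by simp; ring⟩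
    have e1 : {k : ℂ | c * (k.re - 1 / 2) < k.im} = {w : ℂ | c * w.re - w.im < c / 2} := by
      apply Set.ext
      intro k
      change c * (k.re - 1 / 2) < k.im ↔ c * k.re - k.im < c / 2
      constructor <;> intro h <;> linarith
    rw [e1]
    exact convex_halfSpace_lt this (c / 2)
  have hUo : IsOpen U := (isOpen_re_gt _).inter (isOpen_lt (by fun_prop) (by fun_prop))
  have hNP : ∀ k ∈ U, NP (-(T * I) + 3 / 2 + k - 1 / 2) ∧ NP (1 / 2 - k) := by
    intro k hk
    have h1 : -1 / 2 < k.re := hk.1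
    have h2 : c * (k.re - 1 / 2) < k.im := hk.2
    refine ⟨NP.of_re (by simp; linarith), ?_⟩
    rcases lt_or_ge k.re (1 / 2) with h | h
    · exact NP.of_re (by simp; linarith)
    · refine NP.of_im ?_
      have : 0 ≤ c * (k.re - 1 / 2) := mul_nonneg hc0.le (by linarith)
      simp; linarith
  have hn : NP (-(T * I) + 3 / 2 : ℂ) := NP.of_re (by simp)
  have hb : ∀ τ : ℝ, 0 ≤ τ → (T * ((s / t.im : ℝ) : ℂ) * (-I * t) + τ * I : ℂ) ∈ U := by
    intro τ hτ
    have kre : (T * ((s / t.im : ℝ) : ℂ) * (-I * t) + τ * I : ℂ).re = T * (s / t.im) * t.im := by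
      simp [-ofReal_div]
    have kim : (T * ((s / t.im : ℝ) : ℂ) * (-I * t) + τ * I : ℂ).im =
        T * (s / t.im) * (-t.re) + τ := by simp [-ofReal_div]
    constructor
    · change (-1 / 2 : ℝ) < re _
      rw [kre]
      have : 0 ≤ T * (s / t.im) * t.im := by positivity
      linarith
    · change c * (re _ - 1 / 2) < im _
      rw [kre, kim, ← hcy]
      nlinarith
  refine ray_shift hUc hUo (fun k hk => (diffAt_PP (n := fun _ => -(T * I) + 3 / 2)
    (k := fun k => k) r s _ (differentiableAt_const _) differentiableAt_id hn (hNP k hk).1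
    (hNP k hk).2).differentiableWithinAt) (fun τ hτ => ?_) hb
    (rayInt_UP r s (hs' D) (by linarith [hes' D]) (by simp; norm_num)) ?_ ?_
  · constructor
    · change (-1 / 2 : ℝ) < re _
      simp; norm_num
    · change c * (re _ - 1 / 2) < im _
      simp; linarith
  · refine PB.rayInt (S := Ici (1 : ℝ)) (m := fun T => T)
      (F := fun T : ℝ => PP r s (-(e : ℝ)) (-(T * I) + 3 / 2))
      (a := fun T : ℝ => T * ((s / t.im : ℝ) : ℂ) * (-I * t)) (d := fun _ => I)
      (h := fun T => α * T) two_pos (fun T hT => by linarith [show 1 ≤ T from hT])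
      (PB_M_ray D) hT fun τ hτ => ?_
    exact (contAt_PP (n := fun _ : ℝ => -(T * I) + 3 / 2)
      (k := fun τ : ℝ => T * ((s / t.im : ℝ) : ℂ) * (-I * t) + τ * I) (x := τ) r s _
      continuousAt_const (by fun_prop) hn (hNP _ (hb τ (le_of_lt hτ))).1
      (hNP _ (hb τ (le_of_lt hτ))).2).continuousWithinAt
  · have := tendsto_seg_M D (T := T) (by linarith) (x := T * (s / t.im) * t.im)
      (y := T * (s / t.im) * (-t.re)) (by positivity) (by positivity)
    refine this.congr fun H => ?_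
    congr 2
    apply Complex.ext <;> simp [-ofReal_div]

theorem growM (D : SadData r s e t α) : GrowM α (MM r s (-(e : ℝ))) := by
  refine EB.sub ?_ ((growM_DP r s (e := -(e : ℝ)) (by linarith [hes' D, he' D])).mono D.α_pos.le)
  have h1 : EB atTop (fun T : ℝ => T) α fun T : ℝ =>
      seg (PP r s (-(e : ℝ)) (-(T * I) + 3 / 2)) 0 (T * ((s / t.im : ℝ) : ℂ) * (-I * t)) := by
    refine PB.eb (S := Ici 1) (Ici_mem_atTop _) (fun T hT => by linarith [show 1 ≤ T from hT]) ?_
    refine PB.seg (F := fun T : ℝ => PP r s (-(e : ℝ)) (-(T * I) + 3 / 2)) (a := fun _ => 0)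
      (b := fun T : ℝ => T * ((s / t.im : ℝ) : ℂ) * (-I * t))
      (A := ‖((s / t.im : ℝ) : ℂ) * (-I * t)‖) (fun T hT => by linarith [show 1 ≤ T from hT])
      (PB_M_seg D) fun T hT => ?_
    have h1 : 1 ≤ T := hT
    rw [sub_zero, mul_assoc, norm_mul, norm_real, Real.norm_eq_abs, abs_of_nonneg (by linarith)]
    nlinarith [norm_nonneg (((s / t.im : ℝ) : ℂ) * (-I * t))]
  have h2 : EB atTop (fun T : ℝ => T) α fun T : ℝ =>
      ray (PP r s (-(e : ℝ)) (-(T * I) + 3 / 2)) (T * ((s / t.im : ℝ) : ℂ) * (-I * t)) I := by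
    refine PB.eb (S := Ici 1) (Ici_mem_atTop _) (fun T hT => by linarith [show 1 ≤ T from hT]) ?_
    exact PB.ray (F := fun T : ℝ => PP r s (-(e : ℝ)) (-(T * I) + 3 / 2))
      (a := fun T : ℝ => T * ((s / t.im : ℝ) : ℂ) * (-I * t)) (d := fun _ => I) two_pos
      (fun T hT => by linarith [show 1 ≤ T from hT]) (by simp) (PB_M_ray D)
  refine (h1.add h2).congr' ?_
  filter_upwards [eventually_ge_atTop 1] with T hT
  exact (UP_split D hT).symm

/-- The bound on the upper half of the line. -/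
theorem PB_P (D : SadData r s e t α) {ι : Type*} {S : Set ι} {m T v τ : ι → ℝ}
    (hT : ∀ i ∈ S, 1 ≤ T i) (hTm : ∀ i ∈ S, T i ≤ m i) (hv : ∀ i ∈ S, 0 ≤ v i)
    (hvs : ∀ i ∈ S, v i ≤ s) (hτ : ∀ i ∈ S, 0 ≤ τ i) (hτm : ∀ i ∈ S, τ i ≤ m i) :
    PB S m (fun i => PP r s (-(e : ℝ)) (T i * I + 3 / 2)
      (-(T i * v i) + (T i * t.re + τ i) * I))
      fun i => T i * ((PhiH r s I (-(v i) + (t.re + ((τ i / T i : ℝ) : ℂ)) * I)).re +
        Real.pi * e * (t.re + τ i / T i)) := by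
  have hx : 0 < 1 + t.re := by linarith [D.re_gt]
  have hx1 := D.re_lt
  have hs : (0 : ℝ) < s := by linarith [hes' D, he' D]
  set c : ℝ := (1 + t.re) / s with hc
  have hc0 : 0 < c := by positivity
  have hcy : c * s = 1 + t.re := by rw [hc]; field_simp
  have hm : ∀ i ∈ S, 0 ≤ m i := fun i hi => by linarith [hT i hi, hTm i hi]
  have hTv : ∀ i ∈ S, 0 ≤ T i * v i := fun i hi =>
    mul_nonneg (by linarith [hT i hi]) (hv i hi)
  have kre : ∀ i, (-(T i * v i) + (T i * t.re + τ i) * I : ℂ).re = -(T i * v i) := fun i => by simp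
  have kim : ∀ i, (-(T i * v i) + (T i * t.re + τ i) * I : ℂ).im = T i * t.re + τ i :=
    fun i => by simp
  have s2 : ∀ i ∈ S, T i * I + (-(T i * v i) + (T i * t.re + τ i) * I : ℂ) ∈
      Sec (c ^ 2 / (2 * (1 + c ^ 2))) := by
    intro i hi
    refine sec_of_im hc0 ?_
    have h1 := hTv i hi
    have h2 := hτ i hi
    have h3 := hT i hi
    have h4 : 0 ≤ T i * (1 + t.re) := by positivity
    have h5 : c * (T i * v i) ≤ c * (T i * s) := by
      have := hvs i hi
      gcongr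
    rw [add_re, add_im, kre, kim]
    simp only [mul_re, mul_im, ofReal_re, ofReal_im, I_re, I_im, mul_zero, mul_one,
      sub_zero, add_zero, zero_add, abs_neg]
    rw [abs_of_nonneg h1, abs_of_nonneg (by linarith)]
    nlinarith
  have hd := eta_le c
  have F : Frame S m (fun i => T i * I) (fun i => -(T i * v i) + (T i * t.re + τ i) * I)
      (fun _ => 3 / 2) (fun _ => 0) (c ^ 2 / (2 * (1 + c ^ 2))) (c ^ 2 / (2 * (1 + c ^ 2)) / 4) 2
      (2 + s) :=
    { hη := eta_pos hc0, hη1 := eta_le c, hd := by have := eta_pos hc0; positivity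
      hm := hm
      hp := fun _ _ => by simp; norm_num
      hq := by simp
      hn := fun i hi => by
        rw [norm_mul, norm_I, norm_real, Real.norm_eq_abs,
          abs_of_nonneg (by linarith [hT i hi])]
        nlinarith [hTm i hi, hm i hi]
      hk := fun i hi => by
        refine (norm_le_abs_re_add_abs_im _).trans ?_
        rw [kre, kim, abs_neg, abs_of_nonneg (hTv i hi)]
        have h1 : 0 ≤ T i := by linarith [hT i hi]
        have h2 : T i * v i ≤ m i * s := by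
          have := hvs i hi
          have := hv i hi
          have := hm i hi
          have := hTm i hi
          gcongr
        have h3 : |T i * t.re + τ i| ≤ 2 * m i := by
          rw [abs_le]
          constructor <;> nlinarith [hτ i hi, hτm i hi, hTm i hi]
        nlinarith
      s1 := fun i hi => Sec.of_re_nonneg (eta_le c) (by simp)
      s2 := s2
      g1 := fun i hi => Good.of_re (by simp; linarith)
      g2 := fun i hi => by
        have := Good.of_sec (eta_pos hc0) (eta_le c) (s2 i hi) (c := 1) (by norm_num)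
        convert this using 1
        push_cast; ring }
  refine (((F.TH r s (fun i hi => Sec.of_re_nonneg (eta_le c) ?_)
    (fun i hi => Sec.of_re_nonneg (eta_le c) ?_) fun i hi => Good.of_re ?_).PP_of_TH r s
    (-(e : ℝ))).congr (fun i _ => by simp)).mono hm fun i hi => le_of_eq ?_
  · rw [neg_re, kre, neg_neg]; exact hTv i hi
  · rw [sub_re, kre]; simpa using hTv i hi
  · rw [add_zero, sub_re, kre, half_re]; linarith [hTv i hi]
  · have h1 : 0 < T i := by linarith [hT i hi]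
    have h2 : (T i : ℂ) ≠ 0 := by exact_mod_cast h1.ne'
    have e2 := PhiH_smul r s h1 I (-(v i) + (t.re + ((τ i / T i : ℝ) : ℂ)) * I)
    rw [show (T i : ℂ) * (-(v i) + (t.re + ((τ i / T i : ℝ) : ℂ)) * I) =
      -(T i * v i) + (T i * t.re + τ i) * I by push_cast; field_simp] at e2
    rw [e2, add_zero, kim, re_ofReal_mul]
    field_simp
    ring

theorem PB_P_ray (D : SadData r s e t α) :
    PB (Ici (1 : ℝ) ×ˢ Ioi (0 : ℝ)) (fun p => p.1 + p.2)
      (fun p => PP r s (-(e : ℝ)) (p.1 * I + 3 / 2)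
        (-(p.1 * s) + p.1 * t.re * I + p.2 * I)) fun p => -α * p.1 - 2 * p.2 := by
  refine ((PB_P D (S := Ici (1 : ℝ) ×ˢ Ioi (0 : ℝ)) (m := fun p => p.1 + p.2) (T := fun p => p.1)
    (v := fun _ => s) (τ := fun p => p.2) (fun p hp => hp.1)
    (fun p hp => by linarith [show 0 < p.2 from hp.2]) (fun _ _ => by positivity)
    (fun _ _ => le_rfl) (fun p hp => le_of_lt hp.2)
    (fun p hp => by linarith [show 1 ≤ p.1 from hp.1])).congr fun p _ => ?_).mono
    (fun p hp => by linarith [show 1 ≤ p.1 from hp.1, show 0 < p.2 from hp.2]) fun p hp => ?_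
  · congr 1; push_cast; ring
  have h1 : 0 < p.1 := by linarith [show 1 ≤ p.1 from hp.1]
  have h2 : 0 < p.2 := hp.2
  have := D.hor_up s (p.2 / p.1) le_rfl (by positivity)
  refine (mul_le_mul_of_nonneg_left this h1.le).trans (le_of_eq ?_)
  field_simp

theorem PB_P_seg (D : SadData r s e t α) :
    PB (Ici (1 : ℝ) ×ˢ Icc (0 : ℝ) 1) (fun p => p.1)
      (fun p => PP r s (-(e : ℝ)) (p.1 * I + 3 / 2)
        (p.1 * t.re * I + p.2 * (-(p.1 * s) + p.1 * t.re * I - p.1 * t.re * I)))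
      fun p => -α * p.1 := by
  have hR : (0 : ℝ) ≤ s := by positivity
  refine ((PB_P D (S := Ici (1 : ℝ) ×ˢ Icc (0 : ℝ) 1) (m := fun p => p.1) (T := fun p => p.1)
    (v := fun p => p.2 * s) (τ := fun _ => 0) (fun p hp => hp.1)
    (fun p hp => le_rfl) (fun p hp => mul_nonneg hp.2.1 hR)
    (fun p hp => by nlinarith [hp.2.2]) (fun p hp => le_rfl)
    (fun p hp => by linarith [show 1 ≤ p.1 from hp.1])).congr fun p _ => ?_).mono
    (fun p hp => by linarith [show 1 ≤ p.1 from hp.1]) fun p hp => ?_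
  · congr 1; push_cast; ring
  · have h1 : 0 < p.1 := by linarith [show 1 ≤ p.1 from hp.1]
    have := D.hor (p.2 * s) (mul_nonneg hp.2.1 hR)
    simp only [zero_div, ofReal_zero, add_zero]
    rw [mul_comm (-α)]
    exact mul_le_mul_of_nonneg_left this h1.le

theorem crude_up (D : SadData r s e t α) {T σ : ℝ} (hT : 0 ≤ T) (hσ : 0 ≤ σ) :
    Real.pi / 2 * ((s - r) * |T| - s * |T + σ| - (r + s) * |σ| + r * |T - σ|) -
      Real.pi * -(e : ℝ) * σ ≤ -(3 * σ) := by
  have h9 : |T - σ| ≤ T + σ := by rw [abs_le]; constructor <;> linarith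
  have h10 : Real.pi / 2 * (r * |T - σ|) ≤ Real.pi / 2 * (r * (T + σ)) := by
    gcongr
  have h4 : Real.pi * (e + 1) * σ ≤ Real.pi * s * σ := by
    have := hes' D
    gcongr
  have h5 : 3 * σ ≤ Real.pi * σ := by gcongr; exact Real.pi_gt_three.le
  rw [abs_of_nonneg hT, abs_of_nonneg hσ, abs_of_nonneg (by linarith : 0 ≤ T + σ)]
  nlinarith

theorem crude_down (r s e : ℕ) {T σ : ℝ} (hT : 0 ≤ T) (hσ : σ ≤ 0) :
    Real.pi / 2 * ((s - r) * |T| - s * |T + σ| - (r + s) * |σ| + r * |T - σ|) -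
      Real.pi * -(e : ℝ) * σ ≤ Real.pi * e * σ := by
  have h10 : Real.pi / 2 * (s * (T + σ)) ≤ Real.pi / 2 * (s * |T + σ|) := by
    gcongr; exact le_abs_self _
  rw [abs_of_nonneg hT, abs_of_nonpos hσ, abs_of_nonneg (by linarith : 0 ≤ T - σ)]
  nlinarith

theorem tendsto_seg_P (D : SadData r s e t α) {T : ℝ} (hT : 0 ≤ T) :
    Tendsto (fun H : ℝ => seg (PP r s (-(e : ℝ)) (T * I + 3 / 2)) (T * t.re * I + H * I)
      (-(T * s) + T * t.re * I + H * I)) atTop (𝓝 0) := by
  have hx := D.re_gt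
  have hx1 := D.re_lt
  have hx2 : -T ≤ T * t.re := by nlinarith
  have hx3 : T * t.re ≤ 0 := by nlinarith
  have hTs : 0 ≤ T * s := by positivity
  refine EB.tendsto_zero (ρ := fun H => H) (h := -1) ?_ (by norm_num) tendsto_id
  refine PB.eb (S := Ici (T + 1)) (Ici_mem_atTop _)
    (fun H hH => by linarith [show T + 1 ≤ H from hH]) ?_
  refine PB.seg (F := fun _ : ℝ => PP r s (-(e : ℝ)) (T * I + 3 / 2))
    (A := T * s) (fun H hH => by linarith [show T + 1 ≤ H from hH]) ?_ fun H hH => by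
      rw [show (-(T * s) + T * t.re * I + H * I - (T * t.re * I + H * I) : ℂ) =
        -((T * s : ℝ) : ℂ) by push_cast; ring, norm_neg, norm_real, Real.norm_eq_abs,
        abs_of_nonneg hTs]
      nlinarith [show T + 1 ≤ H from hH]
  have F := frame_crude (S := Ici (T + 1) ×ˢ Icc (0 : ℝ) 1) (m := fun p => p.1)
    (T := fun _ => T) (τ := fun p => T * t.re + p.1) (p := fun _ => 3 / 2)
    (q := fun p => -(p.2 * (T * s)))
    (d := 1 / 2) (C₀ := 2 + T * s) (A := 1) (by norm_num)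
    (fun p hp => by linarith [show T + 1 ≤ p.1 from hp.1])
    (fun _ _ => by rw [abs_of_pos (by norm_num)]; linarith) (fun _ _ => by norm_num)
    (fun p hp => by rw [abs_neg, abs_of_nonneg (mul_nonneg hp.2.1 hTs)]; nlinarith [hp.2.2])
    (fun p hp => by
      rw [abs_of_nonneg hT]; nlinarith [show T + 1 ≤ p.1 from hp.1])
    (fun p hp => by
      have h1 : T + 1 ≤ p.1 := hp.1
      rw [abs_of_nonneg (by linarith)]; linarith)
    (fun p hp => Good.of_im (by
      have h1 : T + 1 ≤ p.1 := hp.1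
      rw [show (T * I + ((3 / 2 : ℝ) : ℂ) + (((T * t.re + p.1 : ℝ) : ℂ) * I +
        ((-(p.2 * (T * s)) : ℝ) : ℂ)) - 1 / 2 : ℂ).im = T + (T * t.re + p.1) by simp,
        abs_of_nonneg (by linarith)]
      linarith))
  refine ((crude_PP r s (-(e : ℝ)) F fun p hp => Good.of_re ?_).congr fun p _ => ?_).shift F.hm
    (c := 3 * T) fun p hp => ?_
  · have h2 := mul_nonneg hp.2.1 hTs
    simp; linarith
  · congr 1
    · push_cast; ring
    · push_cast; ring
  · have h1 : T + 1 ≤ p.1 := hp.1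
    refine (crude_up D hT (by linarith)).trans ?_
    linarith

theorem frame_vert (D : SadData r s e t α) {ε : ℝ} (hε : |ε| ≤ 1) :
    Frame (Ici (1 : ℝ) ×ˢ Ioi (0 : ℝ)) (fun p => p.1 + p.2) (fun p => ((p.1 : ℝ) : ℂ) * I)
      (fun p => ((p.1 * t.re + ε * p.2 : ℝ) : ℂ) * I) (fun _ => ((3 / 2 : ℝ) : ℂ))
      (fun _ => ((0 : ℝ) : ℂ)) 1 (1 / 2) 2 1 := by
  have hx := D.re_gt
  have hx1 := D.re_lt
  refine frame_crude (by norm_num)
    (fun p hp => by linarith [show 1 ≤ p.1 from hp.1, show 0 < p.2 from hp.2])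
    (fun _ _ => by norm_num [abs_of_pos]) (fun _ _ => by norm_num) (fun _ _ => by norm_num)
    (fun p hp => ?_) (fun p hp => ?_) (fun p hp => Good.of_re (by simp; norm_num))
  · have h1 : 1 ≤ p.1 := hp.1
    have h2 : 0 < p.2 := hp.2
    rw [abs_of_nonneg (by linarith)]
    linarith
  · have h1 : 1 ≤ p.1 := hp.1
    have h2 : 0 < p.2 := hp.2
    obtain ⟨h3, h4⟩ := abs_le.1 hε
    rw [abs_le]
    constructor <;> nlinarith

theorem PB_P_down (D : SadData r s e t α) :
    PB (Ici (1 : ℝ) ×ˢ Ioi (0 : ℝ)) (fun p => p.1 + p.2)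
      (fun p => PP r s (-(e : ℝ)) (p.1 * I + 3 / 2) (p.1 * t.re * I + p.2 * (-I)))
      fun p => -α * p.1 - 1 * p.2 := by
  have hx1 := D.re_lt
  have F := frame_vert D (ε := -1) (by simp)
  refine ((crude_PP r s (-(e : ℝ)) F fun p _ => Good.of_re (by simp)).congr
    fun p _ => ?_).mono F.hm fun p hp => ?_
  · congr 1
    · push_cast; ring
    · push_cast; ring
  · have h1 : 1 ≤ p.1 := hp.1
    have h2 : 0 < p.2 := hp.2
    refine (crude_down r s e (by linarith) (by nlinarith)).trans ?_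
    have h3 := mul_le_mul_of_nonneg_right D.α_le (by linarith : 0 ≤ p.1)
    have h4 : 1 ≤ Real.pi * e := by nlinarith [he' D, Real.pi_gt_three]
    nlinarith

theorem PB_P_up (D : SadData r s e t α) :
    PB (Ici (1 : ℝ) ×ˢ Ioi (0 : ℝ)) (fun p => p.1 + p.2)
      (fun p => PP r s (-(e : ℝ)) (p.1 * I + 3 / 2) (p.1 * t.re * I + p.2 * I))
      fun p => 3 * p.1 - 1 * p.2 := by
  have hx := D.re_gt
  have hx1 := D.re_lt
  have F := frame_vert D (ε := 1) (by simp)
  refine ((crude_PP r s (-(e : ℝ)) F fun p _ => Good.of_re (by simp)).congr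
    fun p _ => ?_).mono F.hm fun p hp => ?_
  · congr 1
    · push_cast; ring
    · push_cast; ring
  · have h1 : 1 ≤ p.1 := hp.1
    have h2 : 0 < p.2 := hp.2
    have hx2 : -p.1 ≤ p.1 * t.re := by nlinarith
    have hx3 : p.1 * t.re ≤ 0 := by nlinarith
    rcases le_total 0 (p.1 * t.re + 1 * p.2) with h | h
    · refine (crude_up D (by linarith) h).trans ?_
      linarith
    · refine (crude_down r s e (by linarith) h).trans ?_
      have h4 : 0 ≤ Real.pi * e := by positivity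
      nlinarith

theorem cont_vert (r s : ℕ) (e : ℝ) (T y : ℝ) {d : ℂ} (hd : d.re = 0) :
    Continuous fun τ : ℝ => PP r s e (T * I + 3 / 2) (y * I + τ * d) :=
  continuous_iff_continuousAt.2 fun τ => contAt_PP (n := fun _ : ℝ => T * I + 3 / 2)
    (k := fun τ : ℝ => y * I + τ * d) (x := τ) r s e continuousAt_const (by fun_prop)
    (NP.of_re (by simp)) (NP.of_re (by simp [hd]; norm_num)) (NP.of_re (by simp [hd]))

theorem MM_split (D : SadData r s e t α) {T : ℝ} (hT : 1 ≤ T) :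
    MM r s (-(e : ℝ)) (T * I + 3 / 2) =
      seg (PP r s (-(e : ℝ)) (T * I + 3 / 2)) (T * t.re * I) (-(T * s) + T * t.re * I) +
      ray (PP r s (-(e : ℝ)) (T * I + 3 / 2)) (-(T * s) + T * t.re * I) I -
      ray (PP r s (-(e : ℝ)) (T * I + 3 / 2)) (T * t.re * I) (-I) := by
  have hx := D.re_gt
  have hx1 := D.re_lt
  have hx2 : -T < T * t.re := by nlinarith
  have hx3 : 0 ≤ -(T * t.re) := by nlinarith
  have hTs : 0 ≤ T * s := by positivity
  have hn1 : 1 ≤ (T * I + 3 / 2 : ℂ).re := by simp; norm_num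
  have i1 := rayInt_UP r s (hs' D) (e := -(e : ℝ)) (by linarith [hes' D]) hn1
  have i2 := rayInt_DP r s (hs' D) (e := -(e : ℝ)) (by linarith [hes' D, he' D]) hn1
  have i3 : RayInt (PP r s (-(e : ℝ)) (T * I + 3 / 2)) (T * t.re * I) I :=
    PB.rayInt (S := Ici (1 : ℝ)) (m := fun T => T)
      (F := fun T : ℝ => PP r s (-(e : ℝ)) (T * I + 3 / 2))
      (a := fun T : ℝ => T * t.re * I) (d := fun _ => I)
      (h := fun T => 3 * T) one_pos (fun T hT => by linarith [show 1 ≤ T from hT])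
      (PB_P_up D) hT (by
        have := cont_vert r s (-(e : ℝ)) T (T * t.re) I_re
        push_cast at this
        exact this.continuousOn)
  have i4 : RayInt (PP r s (-(e : ℝ)) (T * I + 3 / 2)) (T * t.re * I) (-I) :=
    PB.rayInt (S := Ici (1 : ℝ)) (m := fun T => T)
      (F := fun T : ℝ => PP r s (-(e : ℝ)) (T * I + 3 / 2))
      (a := fun T : ℝ => T * t.re * I) (d := fun _ => -I)
      (h := fun T => -α * T) one_pos (fun T hT => by linarith [show 1 ≤ T from hT])
      (PB_P_down D) hT (by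
        have := cont_vert r s (-(e : ℝ)) T (T * t.re) (d := -I) (by simp)
        push_cast at this
        exact this.continuousOn)
  have a1 : (T * t.re * I + ((-(T * t.re) : ℝ) : ℂ) * I : ℂ) = 0 := by push_cast; ring
  have a2 : (0 + ((-(T * t.re) : ℝ) : ℂ) * (-I) : ℂ) = T * t.re * I := by push_cast; ring
  have e1 := ray_split hx3 i3 (by rw [a1]; exact i1)
  have e2 := ray_split hx3 i2 (by rw [a2]; exact i4)
  rw [a1] at e1
  rw [a2] at e2
  set U : Set ℂ := {k | k.re < 1 / 2} ∩ {k | -T < k.im} with hU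
  have hUc : Convex ℝ U := (convex_halfSpace_re_lt _).inter (convex_halfSpace_im_gt _)
  have hUo : IsOpen U :=
    (isOpen_lt (by fun_prop) (by fun_prop)).inter (isOpen_lt (by fun_prop) (by fun_prop))
  have hNP : ∀ k ∈ U, NP (T * I + 3 / 2 + k - 1 / 2) ∧ NP (1 / 2 - k) := by
    intro k hk
    have h1 : k.re < 1 / 2 := hk.1
    have h2 : -T < k.im := hk.2
    exact ⟨NP.of_im (by simp; linarith), NP.of_re (by simp; linarith)⟩
  have hn : NP (T * I + 3 / 2 : ℂ) := NP.of_re (by simp)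
  have hb : ∀ τ : ℝ, 0 ≤ τ → (-(T * s) + T * t.re * I + τ * I : ℂ) ∈ U := by
    intro τ hτ
    constructor
    · change re _ < (1 / 2 : ℝ)
      simp; linarith
    · change -T < im _
      simp; linarith
  have e3 := ray_shift hUc hUo (fun k hk => (diffAt_PP (n := fun _ => T * I + 3 / 2)
    (k := fun k => k) r s (-(e : ℝ)) (differentiableAt_const _) differentiableAt_id hn (hNP k hk).1
    (hNP k hk).2).differentiableWithinAt) (a := T * t.re * I) (fun τ hτ => by
      constructor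
      · change re _ < (1 / 2 : ℝ)
        simp
      · change -T < im _
        simp; linarith) hb i3
    (PB.rayInt (S := Ici (1 : ℝ)) (m := fun T => T)
      (F := fun T : ℝ => PP r s (-(e : ℝ)) (T * I + 3 / 2))
      (a := fun T : ℝ => -(T * s) + T * t.re * I) (d := fun _ => I)
      (h := fun T => -α * T) two_pos (fun T hT => by linarith [show 1 ≤ T from hT])
      (PB_P_ray D) hT fun τ hτ =>
        (contAt_PP (n := fun _ : ℝ => T * I + 3 / 2)
          (k := fun τ : ℝ => -(T * s) + T * t.re * I + τ * I) (x := τ) r s _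
          continuousAt_const (by fun_prop) hn (hNP _ (hb τ (le_of_lt hτ))).1
          (hNP _ (hb τ (le_of_lt hτ))).2).continuousWithinAt)
    (tendsto_seg_P D (by linarith))
  rw [MM, UP, DP, e2, seg_symm]
  linear_combination e3 - e1

theorem growP (D : SadData r s e t α) : GrowP (-α) (MM r s (-(e : ℝ))) := by
  have hm : ∀ T ∈ Ici (1 : ℝ), 0 ≤ T := fun T hT => by linarith [show 1 ≤ T from hT]
  have h1 : EB atTop (fun T : ℝ => T) (-α) fun T : ℝ =>
      seg (PP r s (-(e : ℝ)) (T * I + 3 / 2)) (T * t.re * I) (-(T * s) + T * t.re * I) := by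
    refine PB.eb (S := Ici 1) (Ici_mem_atTop _) hm ?_
    refine PB.seg (F := fun T : ℝ => PP r s (-(e : ℝ)) (T * I + 3 / 2))
      (a := fun T : ℝ => T * t.re * I) (b := fun T : ℝ => -(T * s) + T * t.re * I)
      (A := s) hm (PB_P_seg D) fun T hT => ?_
    have h1 : 1 ≤ T := hT
    rw [add_sub_cancel_right, norm_neg, norm_mul, norm_real, Real.norm_eq_abs,
      abs_of_nonneg (by linarith), Complex.norm_natCast]
    nlinarith [(Nat.cast_nonneg s : (0 : ℝ) ≤ s)]
  have h2 : EB atTop (fun T : ℝ => T) (-α) fun T : ℝ =>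
      ray (PP r s (-(e : ℝ)) (T * I + 3 / 2)) (-(T * s) + T * t.re * I) I := by
    refine PB.eb (S := Ici 1) (Ici_mem_atTop _) hm ?_
    exact PB.ray (F := fun T : ℝ => PP r s (-(e : ℝ)) (T * I + 3 / 2))
      (a := fun T : ℝ => -(T * s) + T * t.re * I) (d := fun _ => I) two_pos
      hm (by simp) (PB_P_ray D)
  have h3 : EB atTop (fun T : ℝ => T) (-α) fun T : ℝ =>
      ray (PP r s (-(e : ℝ)) (T * I + 3 / 2)) (T * t.re * I) (-I) := by
    refine PB.eb (S := Ici 1) (Ici_mem_atTop _) hm ?_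
    exact PB.ray (F := fun T : ℝ => PP r s (-(e : ℝ)) (T * I + 3 / 2))
      (a := fun T : ℝ => T * t.re * I) (d := fun _ => -I) one_pos
      hm (by simp) (PB_P_down D)
  refine ((h1.add h2).sub h3).congr' ?_
  filter_upwards [eventually_ge_atTop 1] with T hT
  exact (MM_split D hT).symm

end RM

theorem grow_MM {r s e : ℕ} {t : ℂ} {α : ℝ} (D : SadData r s e t α) :
    GrowM α (MM r s (-(e : ℝ))) ∧ GrowP (-α) (MM r s (-(e : ℝ))) :=
  ⟨RM.growM D, RM.growP D⟩

end Pool.Agent.MP_6026f4_co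

end
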