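import Pool.Agent.Mg.F6026f4p.G56bf26
import Pool.Agent.Mg.F6026f4p.Ge364b2

section

namespace Pool.Agent.MP_6026f4_co

open Complex Set Filter Topology MeasureTheory Asymptotics
open scoped ComplexConjugate

/-- The integrand with the kernel attached to the right end. -/
noncomputable def GK (r s j : ℕ) (n k : ℂ) : ℂ := TT r s n k * ex (k - n) ^ j * kx (k - n)

theorem UR_eq (r s j : ℕ) (n : ℂ) : UR r s j n = ray (GK r s j n) n I := rfl

theorem diffAt_GK (r s j : ℕ) {n k : ℂ} (h1 : 0 < n.re) (h2 : 1 / 2 < n.re + k.re)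
    (h3 : 1 + ex (k - n) ≠ 0) : DifferentiableAt ℂ (GK r s j n) k :=
  ((diffAt_TT (n := fun _ => n) (k := fun k => k) r s (differentiableAt_const _) differentiableAt_id
    (NP.of_re h1) (NP.of_re (by simp; linarith))).mul (by fun_prop)).mul
    ((diffAt_kx h3).comp k (differentiableAt_id.sub_const n))

theorem TT_ex_eq_sum (r s b : ℕ) (n : ℂ) {k : ℂ} (h : NP (1 / 2 - k)) :
    TT r s n k * ex k ^ b = ∑ a ∈ Finset.range (r + s + 1),
      ((r + s).choose a : ℂ) * PP r s (2 * (a + b) - (r + s)) n k := by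
  rw [TT_eq_PP r s n h, add_comm 1, add_pow, Finset.mul_sum, Finset.sum_mul]
  refine Finset.sum_congr rfl fun a _ => ?_
  rw [show (2 * (a + b) - (r + s) : ℝ) = -((r + s : ℕ) : ℝ) + 2 * ((a + b : ℕ) : ℝ) by
    push_cast; ring, ← PP_mul_exp, ex]
  ring

theorem TT_kx_eq_sum (r s j : ℕ) (hs : 1 ≤ s) (n : ℂ) {k : ℂ} (h : NP (1 / 2 - k))
    (h0 : 1 + ex k ≠ 0) :
    TT r s n k * ex k ^ j * kx k = ∑ a ∈ Finset.range (r + s),
      ((r + s - 1).choose a : ℂ) * PP r s (2 * (a + j + 1) - (r + s)) n k := by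
  obtain ⟨M, hM⟩ : ∃ M, r + s = M + 1 := ⟨r + s - 1, by omega⟩
  have e : TT r s n k * ex k ^ j * kx k =
      PP r s (-((r + s : ℕ) : ℝ)) n k * (ex k + 1) ^ M * ex k ^ (j + 1) := by
    rw [TT_eq_PP r s n h, kx]
    change _ * (1 + ex k) ^ (r + s) * _ * _ = _
    rw [hM, add_comm (ex k)]
    field_simp
    ring
  rw [e, add_pow, Finset.mul_sum, Finset.sum_mul, show r + s - 1 = M by omega]
  conv_rhs => rw [hM]
  refine Finset.sum_congr rfl fun a _ => ?_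
  rw [show (2 * (a + j + 1) - (r + s) : ℝ) = -((r + s : ℕ) : ℝ) + 2 * ((a + (j + 1) : ℕ) : ℝ) by
    push_cast; ring, ← PP_mul_exp, ex]
  ring

theorem np_axis (τ : ℝ) : NP (1 / 2 - (0 + τ * I)) := NP.of_re (by simp)

theorem ray_TT_ex (r s b : ℕ) (hs : 1 ≤ s) (hb : r + 1 ≤ 2 * b) {n : ℂ} (hn : 1 ≤ n.re) :
    RayInt (fun k => TT r s n k * ex (k - n) ^ b) 0 I ∧
    ray (fun k => TT r s n k * ex (k - n) ^ b) 0 I = ex (-n) ^ b *
      ∑ a ∈ Finset.range (r + s + 1), ((r + s).choose a : ℂ) * UP r s (2 * (a + b) - (r + s)) n := by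
  have hi : ∀ a ∈ Finset.range (r + s + 1), RayInt (fun k => ((r + s).choose a : ℂ) *
      PP r s (2 * (a + b) - (r + s)) n k) 0 I := fun a _ => by
    refine (rayInt_UP r s hs ?_ hn).const_mul _
    have : (r : ℝ) + 1 ≤ 2 * b := by exact_mod_cast hb
    linarith [(Nat.cast_nonneg a : (0 : ℝ) ≤ a)]
  have he : ∀ τ : ℝ, 0 < τ → TT r s n (0 + τ * I) * ex (0 + τ * I - n) ^ b = ex (-n) ^ b *
      ∑ a ∈ Finset.range (r + s + 1), ((r + s).choose a : ℂ) *
        PP r s (2 * (a + b) - (r + s)) n (0 + τ * I) := fun τ _ => by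
    rw [← TT_ex_eq_sum r s b n (np_axis τ), sub_eq_add_neg, ex_add]; ring
  refine ⟨((RayInt.sum _ hi).const_mul (ex (-n) ^ b)).congr he, ?_⟩
  rw [ray_congr (G := fun k => ex (-n) ^ b * ∑ a ∈ Finset.range (r + s + 1),
    ((r + s).choose a : ℂ) * PP r s (2 * (a + b) - (r + s)) n k) he, ray_const_mul, ray_sum _ hi]
  simp only [ray_const_mul, UP]

/-- Horizontal pieces far away do not contribute. -/
theorem tendsto_seg_GK (r s j : ℕ) (hj : r ≤ j + 1) (hj1 : 1 ≤ r) {n a b : ℂ} (hn : 1 ≤ n.re)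
    (ha : 0 ≤ a.re) (hb : 0 ≤ b.re) :
    Tendsto (fun H : ℝ => seg (GK r s j n) (a + H * I) (b + H * I)) atTop (𝓝 0) := by
  set C := ‖n‖ + ‖a‖ + ‖b - a‖ + 1 with hC
  have hpt : ∀ v ∈ Icc (0 : ℝ) 1, ‖a + v * (b - a)‖ ≤ C - ‖n‖ - 1 := fun v hv => by
    linarith [norm_seg_pt_le a b hv]
  have hre : ∀ v ∈ Icc (0 : ℝ) 1, 0 ≤ (a + v * (b - a)).re := fun v hv =>
    seg_mem (convex_halfSpace_re_ge 0) ha hb hv
  have hC0 : 0 ≤ C := by positivity
  refine EB.tendsto_zero (h := -Real.pi) (ρ := fun H => H) ?_ (by linarith [Real.pi_pos]) tendsto_id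
  refine PB.eb (S := Ici C) (Ici_mem_atTop C) (fun _ h => hC0.trans h) ?_
  refine PB.seg (F := fun _ => GK r s j n) (A := C) (fun _ h => hC0.trans h) ?_ (fun H h => by
    rw [add_sub_add_right_eq_sub]
    nlinarith [hC0.trans h, norm_nonneg n, norm_nonneg a])
  have F := frame_crude (S := Ici C ×ˢ Icc (0 : ℝ) 1) (m := fun p => p.1)
    (T := fun _ => n.im) (τ := fun p => (a + p.2 * (b - a)).im + p.1) (p := fun _ => n.re)
    (q := fun p => (a + p.2 * (b - a)).re) (d := 1 / 2) (C₀ := C) (A := C + 1) (by norm_num)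
    (fun p hp => hC0.trans hp.1)
    (fun _ _ => by linarith [abs_re_le_norm n, norm_nonneg a, norm_nonneg (b - a)])
    (fun _ _ => by linarith)
    (fun p hp => by linarith [abs_re_le_norm (a + p.2 * (b - a)), hpt _ hp.2, norm_nonneg n])
    (fun p hp => by
      nlinarith [abs_im_le_norm n, norm_nonneg a, norm_nonneg (b - a), hC0.trans hp.1])
    (fun p hp => by
      have := abs_add_le (a + p.2 * (b - a)).im p.1
      rw [abs_of_nonneg (hC0.trans hp.1)] at this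
      nlinarith [abs_im_le_norm (a + p.2 * (b - a)), hpt _ hp.2, norm_nonneg n, hC0.trans hp.1])
    (fun p hp => Good.of_re (by
      have := hre _ hp.2
      simp only [sub_re, add_re, mul_re, ofReal_re, ofReal_im, I_re, I_im, half_re] at this ⊢
      linarith))
  have him : ∀ p ∈ Ici C ×ˢ Icc (0 : ℝ) 1, 1 + ‖n‖ ≤ (a + p.2 * (b - a)).im + p.1 := fun p hp => by
    have h1 : C ≤ p.1 := hp.1
    linarith [abs_le.1 ((abs_im_le_norm _).trans (hpt _ hp.2))]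
  have hkn : ∀ p : ℝ × ℝ, (a + p.2 * (b - a) + p.1 * I - n).im =
      (a + p.2 * (b - a)).im + p.1 - n.im := fun p => by
    rw [sub_im, add_im]; simp
  refine ((((crude_TT r s F).mul (PB.ex_pow (fun p => a + p.2 * (b - a) + p.1 * I - n) j)).mul
    (PB.kx (k := fun p => a + p.2 * (b - a) + p.1 * I - n) fun p hp => Or.inr ?_)).congr
    fun p _ => ?_).shift (c := Real.pi * C * (2 * j + 3 + 2 * s + 2 * r)) F.hm fun p hp => ?_
  · rw [hkn]; linarith [him p hp, abs_le.1 (abs_im_le_norm n)]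
  · have e1 : a + p.1 * I + p.2 * (b + p.1 * I - (a + p.1 * I)) = a + p.2 * (b - a) + p.1 * I := by
      ring
    have e2 : (n.im : ℂ) * I + n.re = n := by rw [add_comm, re_add_im]
    have e3 : (((a + p.2 * (b - a)).im + p.1 : ℝ) : ℂ) * I + (a + p.2 * (b - a)).re =
        a + p.2 * (b - a) + p.1 * I := by
      conv_rhs => rw [← re_add_im (a + p.2 * (b - a))]
      push_cast; ring
    simp only [GK, e1, e2, e3]
  · have h1 := him p hp
    have h2 := abs_le.1 (abs_im_le_norm n)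
    have h3 := abs_le.1 ((abs_im_le_norm _).trans (hpt _ hp.2))
    rw [hkn]
    set τ := (a + p.2 * (b - a)).im + p.1 with hτ
    have h4 : p.1 - C ≤ τ := by linarith [norm_nonneg n]
    have h5 : |n.im| ≤ C := by linarith [abs_im_le_norm n, norm_nonneg a, norm_nonneg (b - a)]
    have h6 := abs_le.1 h5
    rw [abs_of_nonneg (by linarith : 0 ≤ n.im + τ), abs_of_nonneg (by linarith [norm_nonneg n] : 0 ≤ τ),
      abs_of_nonpos (by linarith : n.im - τ ≤ 0)]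
    have hr : (1 : ℝ) ≤ r := by exact_mod_cast hj1
    have hs : (0 : ℝ) ≤ s := Nat.cast_nonneg s
    have hj' : (r : ℝ) ≤ j + 1 := by exact_mod_cast hj
    have hτ0 : 0 ≤ τ := by linarith [norm_nonneg n]
    have k1 : ((s : ℝ) - r) * |n.im| ≤ s * C := by nlinarith [abs_nonneg n.im]
    have k2 : -(s * n.im) ≤ s * C := by nlinarith
    have k3 : -(r * n.im) ≤ r * C := by nlinarith
    have k4 : (j + 1) * n.im ≤ (j + 1) * C := by gcongr; exact h6.2
    have k5 : r * τ + τ ≤ 2 * (j + 1) * τ := by nlinarith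
    have k6 : 1 / 2 * ((s - r) * |n.im| - s * (n.im + τ) + (r + s) * τ + r * -(n.im - τ)) +
        -(2 * j * (τ - n.im)) + -(2 * (τ - n.im)) ≤ -p.1 + C * (2 * j + 3 + 2 * s + 2 * r) := by
      nlinarith
    have := mul_le_mul_of_nonneg_left k6 Real.pi_pos.le
    linarith

theorem tendsto_rect_GK (r s j : ℕ) (hs : 1 ≤ s) (hj : r ≤ j + 1) (hj1 : 1 ≤ r) {n : ℕ}
    (hn : 1 ≤ n) :
    Tendsto (fun H : ℝ => seg (GK r s j n) n (n + H * I) - seg (GK r s j n) (H * I) (n + H * I) -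
      seg (GK r s j n) 0 (H * I)) atTop (𝓝 (UR r s j n - ∑ a ∈ Finset.range (r + s),
        ((r + s - 1).choose a : ℂ) * UP r s (2 * (a + j + 1) - (r + s)) n)) := by
  have hn' : 1 ≤ (n : ℂ).re := by simpa using hn
  have hi : ∀ a ∈ Finset.range (r + s), RayInt (fun k => ((r + s - 1).choose a : ℂ) *
      PP r s (2 * (a + j + 1) - (r + s)) n k) 0 I := fun a _ => by
    refine (rayInt_UP r s hs ?_ hn').const_mul _
    have : (r : ℝ) ≤ j + 1 := by exact_mod_cast hj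
    have : (1 : ℝ) ≤ r := by exact_mod_cast hj1
    linarith [(Nat.cast_nonneg a : (0 : ℝ) ≤ a)]
  have he : ∀ τ : ℝ, 0 < τ → GK r s j n (0 + τ * I) = ∑ a ∈ Finset.range (r + s),
      ((r + s - 1).choose a : ℂ) * PP r s (2 * (a + j + 1) - (r + s)) n (0 + τ * I) := fun τ _ => by
    rw [← TT_kx_eq_sum r s j hs n (np_axis τ) (one_add_ex_ne_zero_of_re 0 (by simp)), GK, kx, kx,
      ex_sub, ex_natCast, inv_one, mul_one]
  have h1 := (rayInt_UR r s j hs hj hn').tendsto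
  have h2 := tendsto_seg_GK r s j hj hj1 hn' (a := 0) (b := n) le_rfl (by simp)
  have h3 := ((RayInt.sum _ hi).congr he).tendsto
  rw [ray_congr (G := fun k => ∑ a ∈ Finset.range (r + s), ((r + s - 1).choose a : ℂ) *
    PP r s (2 * (a + j + 1) - (r + s)) n k) he, ray_sum _ hi] at h3
  simp only [ray_const_mul, zero_add] at h2 h3
  have h4 := (h1.sub h2).sub h3
  rw [sub_zero] at h4
  exact h4

theorem apery_eq_of_tendsto (r s ν : ℕ) {L : ℂ}
    (h : Tendsto (fun H : ℝ => upper r s (ν + 1 : ℕ) H) atTop (𝓝 L)) :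
    (apery r s ν : ℂ) = SS r s 0 (ν + 1 : ℕ) + L + conj L := by
  refine tendsto_nhds_unique tendsto_const_nhds
    (((h.const_add _).add ((continuous_conj.tendsto _).comp h)).congr' ?_)
  filter_upwards [eventually_gt_atTop 0] with H hH
  rw [apery_eq_contour r s ν hH, SS_zero]; rfl

theorem GK_zero_nat (r s n : ℕ) : GK r s 0 n = fun k => TT r s n k * kx k := by
  ext k
  rw [GK, kx, kx, ex_sub, ex_natCast, inv_one, mul_one, pow_zero, mul_one]

theorem GK_succ (r s j : ℕ) {n k : ℂ} (h : 1 + ex (k - n) ≠ 0) :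
    GK r s j n k = TT r s n k * ex (k - n) ^ (j + 1) - GK r s (j + 1) n k := by
  simp only [GK, kx]
  field_simp
  ring

theorem apery_eq_one (s ν : ℕ) (hs : 1 ≤ s) :
    ∃ L : ℂ, (apery 1 s ν : ℂ) = SS 1 s 0 (ν + 1 : ℕ) + L + conj L ∧
      L = UR 1 s 0 (ν + 1 : ℕ) - ∑ a ∈ Finset.range (1 + s),
        ((1 + s - 1).choose a : ℂ) * UP 1 s (2 * (a + 1) - (1 + s)) (ν + 1 : ℕ) := by
  refine ⟨_, apery_eq_of_tendsto 1 s ν ?_, rfl⟩
  have := tendsto_rect_GK 1 s 0 hs le_rfl le_rfl (n := ν + 1) (by omega)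
  simp only [GK_zero_nat, Nat.cast_zero, add_zero, Nat.cast_one] at this
  exact this

theorem apery_eq_two (s ν : ℕ) (hs : 1 ≤ s) :
    ∃ L : ℂ, (apery 2 s ν : ℂ) = SS 2 s 0 (ν + 1 : ℕ) + L + conj L ∧
      L = -SS 2 s 1 (ν + 1 : ℕ) - (UR 2 s 1 (ν + 1 : ℕ) - ∑ a ∈ Finset.range (2 + s),
        ((2 + s - 1).choose a : ℂ) * UP 2 s (2 * (a + 2) - (2 + s)) (ν + 1 : ℕ)) := by
  refine ⟨_, apery_eq_of_tendsto 2 s ν ?_, rfl⟩
  set n : ℕ := ν + 1 with hn
  have h1 := tendsto_rect_GK 2 s 1 hs le_rfl (by norm_num) (n := n) (by omega)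
  simp only [Nat.cast_one, add_assoc, one_add_one_eq_two, Nat.cast_ofNat] at h1
  refine (h1.const_sub (-SS 2 s 1 n)).congr' ?_
  filter_upwards [eventually_gt_atTop 0] with H hH
  have hn1 : 1 ≤ (n : ℂ).re := by simp [hn]
  have hd : DifferentiableOn ℂ (fun k => TT 2 s n k * ex (k - n) ^ 1) {k | -1 / 2 < k.re} :=
    (diffOn_TT_right 2 s hn1).mul (by fun_prop)
  obtain ⟨P, hP⟩ := exists_primitive (convex_halfSpace_re_gt _) (isOpen_re_gt _) hd
  have hm : ∀ k : ℂ, 0 ≤ k.re → k ∈ {k : ℂ | -1 / 2 < k.re} := fun k hk => by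
    change -1 / 2 < k.re; linarith
  have hup : ∀ a b : ℂ, 0 ≤ a.re → 0 ≤ b.re →
      (∀ v ∈ Icc (0 : ℝ) 1, 1 + ex (a + v * (b - a)) ≠ 0) →
      seg (GK 2 s 0 n) a b = P b - P a - seg (GK 2 s 1 n) a b := by
    intro a b ha hb h
    have hre : ∀ v ∈ Icc (0 : ℝ) 1, 0 ≤ (a + v * (b - a)).re := fun v hv =>
      seg_mem (convex_halfSpace_re_ge 0) ha hb hv
    have h' : ∀ v ∈ Icc (0 : ℝ) 1, 1 + ex (a + v * (b - a) - n) ≠ 0 := fun v hv => by
      rw [ex_sub, ex_natCast, inv_one, mul_one]; exact h v hv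
    rw [← hP _ (hm _ ha) _ (hm _ hb), ← seg_sub (SegC.of_convex (convex_halfSpace_re_gt _)
      hd.continuousOn (hm _ ha) (hm _ hb)) (SegC.of_continuousAt fun v hv =>
        (diffAt_GK 2 s 1 (by linarith) (by linarith [hre v hv]) (h' v hv)).continuousAt)]
    exact seg_congr fun v hv => GK_succ 2 s 0 (h' v hv)
  rw [upper, ← GK_zero_nat, hup n (n + H * I) (by simp) (by simp)
      (fun v _ => one_add_ex_ne_zero_of_re n (by simp)),
    hup (H * I) (n + H * I) (by simp) (by simp)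
      (fun v _ => one_add_ex_ne_zero_of_im (by simp [hH.ne'])),
    hup 0 (H * I) (by simp) (by simp)
      (fun v _ => one_add_ex_ne_zero_of_re 0 (by simp)), SS,
    hP _ (hm _ (by simp)) _ (hm _ (by simp))]
  ring

end Pool.Agent.MP_6026f4_co

end

section

namespace Pool.Agent.MP_6026f4_co

open Complex Set Filter Topology MeasureTheory Asymptotics
open scoped ComplexConjugate

/-- Frame for a segment whose end points have bounded real parts. -/
theorem frame_seg (σ a₀ c₀ a₁ c₁ q₀ q₁ : ℝ) (h₀ : 0 ≤ q₀) (h₀' : q₀ ≤ 2) (h₁ : 0 ≤ q₁)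
    (h₁' : q₁ ≤ 2) :
    Frame (Ici (1 : ℝ) ×ˢ Icc (0 : ℝ) 1) (fun p => p.1) (fun p => ((σ * p.1 : ℝ) : ℂ) * I)
      (fun p => ((a₀ * p.1 + c₀ + p.2 * (a₁ * p.1 + c₁ - (a₀ * p.1 + c₀)) : ℝ) : ℂ) * I)
      (fun _ => ((3 / 2 : ℝ) : ℂ)) (fun p => ((q₀ + p.2 * (q₁ - q₀) : ℝ) : ℂ))
      1 (1 / 2) 2 (|σ| + |a₀| + |c₀| + |a₁| + |c₁|) := by
  refine frame_crude (by norm_num) (fun p hp => zero_le_one.trans hp.1)
    (fun _ _ => by norm_num [abs_of_pos]) (fun _ _ => by norm_num) (fun p hp => ?_)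
    (fun p hp => ?_) (fun p hp => ?_) (fun p hp => Good.of_re ?_)
  · rw [abs_le]; constructor <;> nlinarith [hp.2.1, hp.2.2]
  · have h1 : 1 ≤ p.1 := hp.1
    rw [abs_mul, abs_of_nonneg (by linarith : 0 ≤ p.1)]
    nlinarith [abs_nonneg σ, abs_nonneg a₀, abs_nonneg a₁, abs_nonneg c₀, abs_nonneg c₁]
  · have h1 : 1 ≤ p.1 := hp.1
    have e : a₀ * p.1 + c₀ + p.2 * (a₁ * p.1 + c₁ - (a₀ * p.1 + c₀)) =
        (1 - p.2) * (a₀ * p.1 + c₀) + p.2 * (a₁ * p.1 + c₁) := by ring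
    have b0 : |a₀ * p.1 + c₀| ≤ (|a₀| + |c₀|) * (1 + p.1) := by
      refine (abs_add_le _ _).trans ?_
      rw [abs_mul, abs_of_nonneg (by linarith : 0 ≤ p.1)]
      nlinarith [abs_nonneg a₀, abs_nonneg c₀]
    have b1 : |a₁ * p.1 + c₁| ≤ (|a₁| + |c₁|) * (1 + p.1) := by
      refine (abs_add_le _ _).trans ?_
      rw [abs_mul, abs_of_nonneg (by linarith : 0 ≤ p.1)]
      nlinarith [abs_nonneg a₁, abs_nonneg c₁]
    rw [e]
    refine (abs_add_le _ _).trans ?_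
    rw [abs_mul, abs_mul, abs_of_nonneg hp.2.1, abs_of_nonneg (by linarith [hp.2.2] : 0 ≤ 1 - p.2)]
    nlinarith [abs_nonneg σ, hp.2.1, hp.2.2, abs_nonneg (a₀ * p.1 + c₀), abs_nonneg (a₁ * p.1 + c₁)]
  · simp; nlinarith [hp.2.1, hp.2.2]

theorem norm_seg_ends (a₀ c₀ a₁ c₁ q₀ q₁ T : ℝ) (hT : 1 ≤ T) :
    ‖((a₁ * T + c₁ : ℝ) : ℂ) * I + q₁ - (((a₀ * T + c₀ : ℝ) : ℂ) * I + q₀)‖ ≤
      (|a₁ - a₀| + |c₁ - c₀| + |q₁ - q₀|) * (1 + T) := by
  rw [show ((a₁ * T + c₁ : ℝ) : ℂ) * I + q₁ - (((a₀ * T + c₀ : ℝ) : ℂ) * I + q₀) =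
    (((a₁ - a₀) * T + (c₁ - c₀) : ℝ) : ℂ) * I + ((q₁ - q₀ : ℝ) : ℂ) by push_cast; ring]
  refine (norm_add_le _ _).trans ?_
  rw [norm_mul, norm_I, mul_one, norm_real, norm_real, Real.norm_eq_abs, Real.norm_eq_abs]
  have := abs_add_le ((a₁ - a₀) * T) (c₁ - c₀)
  rw [abs_mul, abs_of_nonneg (by linarith : 0 ≤ T)] at this
  nlinarith [abs_nonneg (a₁ - a₀), abs_nonneg (c₁ - c₀), abs_nonneg (q₁ - q₀)]

/-- Crude growth of the kernel integrand along a segment in the lower direction. -/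
theorem eb_seg_GK (r s j : ℕ) (a₀ c₀ a₁ c₁ q₀ q₁ : ℝ) (h₀ : 0 ≤ q₀) (h₀' : q₀ ≤ 2) (h₁ : 0 ≤ q₁)
    (h₁' : q₁ ≤ 2)
    (H : ∀ T : ℝ, 1 ≤ T → -T ≤ a₀ * T + c₀ ∧ a₀ * T + c₀ ≤ 0 ∧ -T ≤ a₁ * T + c₁ ∧ a₁ * T + c₁ ≤ 0)
    (H' : (q₀ = 3 / 2 ∧ q₁ = 3 / 2) ∨
      ∀ T : ℝ, 1 ≤ T → 1 - T ≤ a₀ * T + c₀ ∧ 1 - T ≤ a₁ * T + c₁) :
    EB atTop (fun T : ℝ => T) 0 fun T : ℝ => seg (GK r s j (-(T * I) + 3 / 2))
      (((a₀ * T + c₀ : ℝ) : ℂ) * I + q₀) (((a₁ * T + c₁ : ℝ) : ℂ) * I + q₁) := by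
  refine PB.eb (S := Ici 1) (Ici_mem_atTop 1) (fun _ h => zero_le_one.trans h) ?_
  refine PB.seg (F := fun T : ℝ => GK r s j (-(T * I) + 3 / 2)) (fun _ h => zero_le_one.trans h) ?_
    fun T hT => norm_seg_ends a₀ c₀ a₁ c₁ q₀ q₁ T hT
  have F := frame_seg (-1) a₀ c₀ a₁ c₁ q₀ q₁ h₀ h₀' h₁ h₁'
  set τ : ℝ × ℝ → ℝ := fun p => a₀ * p.1 + c₀ + p.2 * (a₁ * p.1 + c₁ - (a₀ * p.1 + c₀)) with hτ
  set w : ℝ × ℝ → ℂ := fun p => ((τ p + p.1 : ℝ) : ℂ) * I + ((q₀ + p.2 * (q₁ - q₀) - 3 / 2 : ℝ) : ℂ)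
    with hw
  refine ((((crude_TT r s F).mul (PB.ex_pow w j)).mul (PB.kx (k := w) fun p hp => ?_)).congr
    fun p _ => ?_).mono F.hm fun p hp => ?_
  · rcases H' with ⟨e0, e1⟩ | H'
    · exact Or.inl ⟨0, by simp [hw, e0, e1]⟩
    · right
      obtain ⟨b0, b1⟩ := H' p.1 hp.1
      simp only [hw, hτ]
      simp
      nlinarith [hp.2.1, hp.2.2]
  · simp only [GK, hw, hτ]
    congr 3 <;> (push_cast; ring)
  · obtain ⟨b0, b1, b2, b3⟩ := H p.1 hp.1
    have h1 : 1 ≤ p.1 := hp.1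
    have t0 : -p.1 ≤ τ p := by simp only [hτ]; nlinarith [hp.2.1, hp.2.2]
    have t1 : τ p ≤ 0 := by simp only [hτ]; nlinarith [hp.2.1, hp.2.2]
    have hwi : (w p).im = τ p + p.1 := by simp [hw]
    change Real.pi / 2 * ((s - r) * |-1 * p.1| - s * |-1 * p.1 + τ p| + (r + s) * |τ p| +
      r * |-1 * p.1 - τ p|) + -(2 * Real.pi * j * (w p).im) + -(2 * Real.pi * (w p).im) ≤ 0 * p.1
    rw [hwi, abs_of_nonpos (by linarith : -1 * p.1 ≤ 0), abs_of_nonpos t1,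
      abs_of_nonpos (by linarith : -1 * p.1 + τ p ≤ 0),
      abs_of_nonpos (by linarith : -1 * p.1 - τ p ≤ 0)]
    have : 0 ≤ Real.pi * (j + 1) * (τ p + p.1) :=
      mul_nonneg (by positivity) (by linarith)
    nlinarith

theorem PB_VL (r s j : ℕ) (hj : r ≤ j + 1) :
    PB (Ici (1 : ℝ) ×ˢ Ioi (0 : ℝ)) (fun p => p.1 + p.2)
      (fun p => GK r s j (-(p.1 * I) + 3 / 2) (0 + p.2 * I))
      fun p => Real.pi * (s - 2 * (j + 1)) * p.1 - 1 * p.2 := by
  have F := frame_line (-1) 0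
  have hS : ∀ p ∈ Ici (1 : ℝ) ×ˢ Ioi (0 : ℝ), p ∈ Ici (0 : ℝ) ×ˢ Ioi (0 : ℝ) :=
    fun p hp => ⟨show (0 : ℝ) ≤ p.1 from zero_le_one.trans hp.1, hp.2⟩
  set w : ℝ × ℝ → ℂ := fun p => ((p.2 + p.1 : ℝ) : ℂ) * I + ((-3 / 2 : ℝ) : ℂ) with hw
  refine (((((crude_TT r s F).comp (g := fun p => p) (A := 1) hS F.hm (fun p hp => F.hm p (hS p hp))
    (fun p hp => by linarith)).mul (PB.ex_pow w j)).mul (PB.kx (k := w) fun p hp => ?_)).congr
    fun p _ => ?_).mono (fun p hp => F.hm p (hS p hp)) fun p hp => ?_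
  · right
    simp [hw]; linarith [show 1 ≤ p.1 from hp.1, show 0 < p.2 from hp.2]
  · simp only [GK, hw]
    congr 3 <;> (push_cast; ring)
  · have h1 : 1 ≤ p.1 := hp.1
    have h2 : 0 < p.2 := hp.2
    have hwi : (w p).im = p.2 + p.1 := by simp [hw]
    have hj' : (r : ℝ) ≤ j + 1 := by exact_mod_cast hj
    have hs : (0 : ℝ) ≤ s := Nat.cast_nonneg s
    have hj0 : (0 : ℝ) ≤ j := Nat.cast_nonneg j
    simp only [hwi, neg_mul, one_mul, zero_mul, zero_add, abs_neg]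
    rw [abs_of_nonneg (by linarith : 0 ≤ p.1), abs_of_pos h2,
      abs_of_nonpos (by linarith : -p.1 - p.2 ≤ 0)]
    have k0 : s * (p.2 - p.1) ≤ s * |-p.1 + p.2| := by
      gcongr; linarith [le_abs_self (-p.1 + p.2)]
    have k1 : r * p.2 + p.2 ≤ 2 * (j + 1) * p.2 := by nlinarith
    have k2 : 1 / 2 * ((s - r) * p.1 - s * |-p.1 + p.2| + (r + s) * p.2 + r * -(-p.1 - p.2)) +
        -(2 * j * (p.2 + p.1)) + -(2 * (p.2 + p.1)) ≤ (s - 2 * (j + 1)) * p.1 - p.2 := by nlinarith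
    have := mul_le_mul_of_nonneg_left k2 Real.pi_pos.le
    nlinarith [Real.pi_gt_three]

theorem rayInt_VL (r s j : ℕ) (hj : r ≤ j + 1) {T : ℝ} (hT : 1 ≤ T) :
    RayInt (GK r s j (-(T * I) + 3 / 2)) 0 I := by
  refine PB.rayInt (S := Ici (1 : ℝ)) (m := fun T => T)
    (F := fun T : ℝ => GK r s j (-(T * I) + 3 / 2)) (a := fun _ => 0) (d := fun _ => I)
    (h := fun T => Real.pi * (s - 2 * (j + 1)) * T) one_pos (fun _ h => zero_le_one.trans h)
    (PB_VL r s j hj) hT fun τ hτ => ?_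
  have h2 : 0 < τ := hτ
  exact (ContinuousAt.comp (f := fun τ : ℝ => (0 : ℂ) + τ * I) (diffAt_GK r s j (by simp)
    (by simp; norm_num) (one_add_ex_ne_zero_of_im (by simp; linarith))).continuousAt
    (by fun_prop)).continuousWithinAt

theorem eb_VL (r s j : ℕ) (hj : r ≤ j + 1) (hj' : s ≤ 2 * (j + 1)) :
    EB atTop (fun T : ℝ => T) 0 fun T : ℝ => ray (GK r s j (-(T * I) + 3 / 2)) 0 I := by
  refine PB.eb (S := Ici 1) (Ici_mem_atTop 1) (fun _ h => zero_le_one.trans h) ?_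
  refine PB.ray (F := fun T : ℝ => GK r s j (-(T * I) + 3 / 2)) (a := fun _ => 0)
    (d := fun _ => I) one_pos (fun _ h => zero_le_one.trans h) (by simp)
    ((PB_VL r s j hj).mono (fun p hp => add_nonneg (zero_le_one.trans hp.1) (le_of_lt hp.2))
      fun p hp => ?_)
  have h1 : 1 ≤ p.1 := hp.1
  have : (s : ℝ) ≤ 2 * (j + 1) := by exact_mod_cast hj'
  have : Real.pi * (s - 2 * (j + 1)) * p.1 ≤ 0 :=
    mul_nonpos_of_nonpos_of_nonneg (mul_nonpos_of_nonneg_of_nonpos Real.pi_pos.le (by linarith))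
      (by linarith)
  linarith

theorem rayInt_tail {F : ℂ → ℂ} {a d : ℂ} (h : RayInt F a d) {c : ℝ} (hc : 0 ≤ c) :
    RayInt F (a + c * d) d := by
  have h1 : IntegrableOn (fun τ : ℝ => F (a + τ * d)) (Ioi c) :=
    IntegrableOn.mono_set h (Ioi_subset_Ioi hc)
  have h2 := (measurePreserving_add_left volume c).integrableOn_comp_preimage
    (measurableEmbedding_addLeft c) (f := fun τ : ℝ => F (a + τ * d)) (s := Ioi c)
  have h3 := h2.2 h1
  rw [preimage_const_add_Ioi, sub_self] at h3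
  refine IntegrableOn.congr_fun h3 (fun τ _ => ?_) measurableSet_Ioi
  simp only [Function.comp]
  congr 1; push_cast; ring

theorem eb_UR_sub_VL (r s j : ℕ) (hs : 1 ≤ s) (hj : r ≤ j + 1) (hr : 1 ≤ r) :
    EB atTop (fun T : ℝ => T) 0 fun T : ℝ =>
      UR r s j (-(T * I) + 3 / 2) - ray (GK r s j (-(T * I) + 3 / 2)) 0 I := by
  have E1 := eb_seg_GK r s j (-1) 0 (-1) 1 (3 / 2) (3 / 2) (by norm_num) (by norm_num) (by norm_num)
    (by norm_num) (fun T hT => ⟨by linarith, by linarith, by linarith, by linarith⟩)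
    (Or.inl ⟨rfl, rfl⟩)
  have E2 := eb_seg_GK r s j (-1) 1 0 0 (3 / 2) 0 (by norm_num) (by norm_num) (by norm_num)
    (by norm_num) (fun T hT => ⟨by linarith, by linarith, by linarith, by linarith⟩)
    (Or.inr fun T hT => ⟨by linarith, by linarith⟩)
  refine (E1.add E2).congr' ?_
  filter_upwards [eventually_ge_atTop 1] with T hT
  set n : ℂ := -(T * I) + 3 / 2 with hn
  have hre : n.re = 3 / 2 := by simp [hn]
  have him : n.im = -T := by simp [hn]
  have hi : RayInt (GK r s j n) n I := rayInt_UR r s j hs hj (by linarith)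
  have hi' := rayInt_tail hi zero_le_one
  have hU : DifferentiableOn ℂ (GK r s j n) ({k | -1 / 2 < k.re} ∩ {k | 1 / 2 - T < k.im}) :=
    fun k hk => (diffAt_GK r s j (by linarith) (by linarith [show -1 / 2 < k.re from hk.1])
      (one_add_ex_ne_zero_of_im (by
        rw [sub_im, him]; linarith [show 1 / 2 - T < k.im from hk.2]))).differentiableWithinAt
  have h2 := ray_shift ((convex_halfSpace_re_gt _).inter (convex_halfSpace_im_gt _))
    ((isOpen_re_gt _).inter (isOpen_lt continuous_const continuous_im)) hU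
    (a := n + (1 : ℝ) * I) (b := 0) (d := I)
    (fun τ hτ => ⟨by simp [hre]; norm_num, by simp [him]; linarith⟩)
    (fun τ hτ => ⟨by simp; norm_num, by simp; linarith⟩) hi' (rayInt_VL r s j hj hT)
    (tendsto_seg_GK r s j hj hr (by linarith) (by simp [hre]; norm_num) le_rfl)
  rw [UR_eq, ray_split zero_le_one hi hi', h2]
  have e0 : ((-1 * T + 0 : ℝ) : ℂ) * I + ((3 / 2 : ℝ) : ℂ) = n := by rw [hn]; push_cast; ring
  have e1 : ((-1 * T + 1 : ℝ) : ℂ) * I + ((3 / 2 : ℝ) : ℂ) = n + (1 : ℝ) * I := by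
    rw [hn]; push_cast; ring
  have e2 : ((0 * T + 0 : ℝ) : ℂ) * I + ((0 : ℝ) : ℂ) = 0 := by simp
  rw [e0, e1, e2]
  ring

/-- The terms coming from the expansion of the kernel. -/
noncomputable def WT (r s b : ℕ) (n : ℂ) : ℂ := ex (-n) ^ b *
  ∑ a ∈ Finset.range (r + s + 1), ((r + s).choose a : ℂ) * UP r s (2 * (a + b) - (r + s)) n

theorem VL_expand (r s j : ℕ) (hs : 1 ≤ s) (hj : r ≤ j + 1) (hr : 1 ≤ r) {T : ℝ} (hT : 1 ≤ T)
    (i : ℕ) :
    ray (GK r s j (-(T * I) + 3 / 2)) 0 I =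
      ∑ b ∈ Finset.range i, (-1) ^ b * WT r s (j + 1 + b) (-(T * I) + 3 / 2) +
        (-1) ^ i * ray (GK r s (j + i) (-(T * I) + 3 / 2)) 0 I := by
  induction i with
  | zero => simp
  | succ i ih =>
    rw [ih, Finset.sum_range_succ]
    obtain ⟨h1, h2⟩ := ray_TT_ex r s (j + i + 1) hs (by omega) (n := -(T * I) + 3 / 2)
      (by simp; norm_num)
    have h3 := rayInt_VL r s (j + i + 1) (by omega) hT
    have h4 := ray_add h1 (h3.const_mul (-1))
    rw [ray_const_mul, h2] at h4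
    rw [ray_congr (F := GK r s (j + i) (-(T * I) + 3 / 2)) (G := fun z =>
      TT r s (-(T * I) + 3 / 2) z * ex (z - (-(T * I) + 3 / 2)) ^ (j + i + 1) +
        -1 * GK r s (j + i + 1) (-(T * I) + 3 / 2) z) fun τ hτ => by
          rw [GK_succ r s (j + i) (one_add_ex_ne_zero_of_im (by simp; linarith))]; ring, h4,
      show j + 1 + i = j + i + 1 by ring, WT, ← add_assoc j i 1]
    ring

theorem growM_UR_sub (r s j : ℕ) (hs : 1 ≤ s) (hj : r ≤ j + 1) (hr : 1 ≤ r) :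
    GrowM 0 fun n => UR r s j n - ∑ b ∈ Finset.range s, (-1) ^ b * WT r s (j + 1 + b) n := by
  refine ((eb_UR_sub_VL r s j hs hj hr).add
    ((eb_VL r s (j + s) (by omega) (by omega)).const_mul ((-1) ^ s))).congr' ?_
  filter_upwards [eventually_ge_atTop 1] with T hT
  rw [VL_expand r s j hs hj hr hT s]
  ring

end Pool.Agent.MP_6026f4_co

end

section

namespace Pool.Agent.MP_6026f4_co

open Complex Set Filter Topology MeasureTheory Asymptotics
open scoped ComplexConjugate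

theorem ent_ex_pow (b : ℕ) : Ent fun n => ex (-n) ^ b := by
  refine (Ent.exp (-(2 * Real.pi * I * b))).congr fun z _ => ?_
  rw [ex, ← exp_nat_mul]; congr 1; ring

theorem GrowP.ex_mul {h : ℝ} {F : ℂ → ℂ} (hF : GrowP h F) (b : ℕ) :
    GrowP (2 * Real.pi * b + h) fun n => ex (-n) ^ b * F n :=
  EB.mul_exp hF (Eventually.of_forall fun T => by
    rw [norm_pow, norm_ex, ← Real.exp_nat_mul]; apply le_of_eq; congr 1; simp; ring)

theorem GrowM.ex_mul {h : ℝ} {F : ℂ → ℂ} (hF : GrowM h F) (b : ℕ) :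
    GrowM (-(2 * Real.pi * b) + h) fun n => ex (-n) ^ b * F n :=
  EB.mul_exp hF (Eventually.of_forall fun T => by
    rw [norm_pow, norm_ex, ← Real.exp_nat_mul]; apply le_of_eq; congr 1; simp; ring)

theorem GrowM.ex_mul' {h : ℝ} {F : ℂ → ℂ} (hF : GrowM h F) (b : ℕ) :
    GrowM h fun n => ex (-n) ^ b * F n :=
  EB.mono (hF.ex_mul b) (by linarith [show 0 ≤ 2 * Real.pi * b by positivity])

theorem EB.zero {ι : Type*} (l : Filter ι) (ρ : ι → ℝ) (h : ℝ) : EB l ρ h fun _ => 0 :=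
  fun _ _ => isBigO_zero _ _

theorem ex_neg_nat (n b : ℕ) : ex (-(n : ℂ)) ^ b = 1 := by rw [ex_neg, ex_natCast]; simp

theorem absorb {F : ℂ → ℂ} {α : ℝ} (hF : Ent F) (hM : GrowM α F) (hP : GrowP (-α) F) (h0 : 0 ≤ α)
    (hs : Real.sin α = 0) : ∃ G : ℂ → ℂ, Ent G ∧ GrowP 0 G ∧ GrowM Real.pi G ∧
      ∀ n : ℕ, G n = F n + conj (F n) := by
  obtain ⟨j, hj⟩ := Real.sin_eq_zero_iff.1 hs
  have hpi := Real.pi_pos
  have hj0 : 0 ≤ j := by
    have : (0 : ℝ) ≤ j := by nlinarith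
    exact_mod_cast this
  lift j to ℕ using hj0
  rw [Int.cast_natCast] at hj
  have a1 : (2 * (j / 2 : ℕ) : ℝ) ≤ j := by exact_mod_cast (by omega : 2 * (j / 2) ≤ j)
  have a2 : (j : ℝ) ≤ 2 * (j / 2 : ℕ) + 1 := by exact_mod_cast (by omega : j ≤ 2 * (j / 2) + 1)
  have a3 : (j : ℝ) ≤ 2 * ((j + 1) / 2 : ℕ) := by exact_mod_cast (by omega : j ≤ 2 * ((j + 1) / 2))
  have a4 : (2 * ((j + 1) / 2 : ℕ) : ℝ) ≤ j + 1 := by
    exact_mod_cast (by omega : 2 * ((j + 1) / 2) ≤ j + 1)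
  refine ⟨fun n => ex (-n) ^ (j / 2) * F n + dual (fun n => ex (-n) ^ ((j + 1) / 2) * F n) n,
    ((ent_ex_pow _).mul hF).add ((ent_ex_pow _).mul hF).dual, ?_, ?_, fun n => ?_⟩
  · exact EB.add (EB.mono (hP.ex_mul _) (by nlinarith))
      (EB.mono (hM.ex_mul ((j + 1) / 2)).dual (by nlinarith))
  · exact EB.add (EB.mono (hM.ex_mul _) (by nlinarith))
      (EB.mono (hP.ex_mul ((j + 1) / 2)).dual (by nlinarith))
  · simp only [dual, conj_natCast, ex_neg_nat, one_mul]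

/-- The full line integrals, indexed by the position of the term. -/
noncomputable def ME (r s m : ℕ) : ℂ → ℂ := MM r s (-((r + s - 2 * m : ℕ) : ℝ))

/-- Decomposition of a function into full line integrals, up to functions of small growth. -/
def Dec (r s : ℕ) (W : ℂ → ℂ) (w : ℂ) : Prop :=
  ∃ (K : ℂ → ℂ) (c : ℕ → ℂ), Ent K ∧ GrowP 0 K ∧ (GrowM 0 fun n => W n - K n) ∧
    (∀ n : ℕ, K n = ∑ m ∈ Finset.Ico r ((r + s - 1) / 2 + 1), c m * ME r s m n) ∧
    c ((r + s - 1) / 2) = w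

theorem Dec.of_growM (r s : ℕ) {W : ℂ → ℂ} (h : GrowM 0 W) : Dec r s W 0 :=
  ⟨fun _ => 0, fun _ => 0, Ent.const 0, EB.zero _ _ _, by simpa using h, by simp, rfl⟩

theorem Dec.add {r s : ℕ} {W W' : ℂ → ℂ} {w w' : ℂ} (h : Dec r s W w) (h' : Dec r s W' w') :
    Dec r s (fun n => W n + W' n) (w + w') := by
  obtain ⟨K, c, h1, h2, h3, h4, h5⟩ := h
  obtain ⟨K', c', h1', h2', h3', h4', h5'⟩ := h'
  refine ⟨fun n => K n + K' n, fun m => c m + c' m, h1.add h1', EB.add h2 h2',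
    (EB.add h3 h3').congr' (Eventually.of_forall fun T => by ring), fun n => ?_, by simp only [h5, h5']⟩
  simp only [h4, h4', add_mul, Finset.sum_add_distrib]

theorem Dec.const_mul {r s : ℕ} {W : ℂ → ℂ} {w : ℂ} (h : Dec r s W w) (a : ℂ) :
    Dec r s (fun n => a * W n) (a * w) := by
  obtain ⟨K, c, h1, h2, h3, h4, h5⟩ := h
  refine ⟨fun n => a * K n, fun m => a * c m, h1.const_mul a, EB.const_mul h2 a,
    (EB.const_mul h3 a).congr' (Eventually.of_forall fun T => by ring), fun n => ?_,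
    by simp only [h5]⟩
  simp only [h4, Finset.mul_sum, mul_assoc]

theorem Dec.sum {r s : ℕ} {κ : Type*} (t : Finset κ) {W : κ → ℂ → ℂ} {w : κ → ℂ}
    (h : ∀ i ∈ t, Dec r s (W i) (w i)) : Dec r s (fun n => ∑ i ∈ t, W i n) (∑ i ∈ t, w i) := by
  classical
  induction t using Finset.induction_on with
  | empty => simpa using Dec.of_growM r s (W := fun _ => 0) (EB.zero _ _ _)
  | insert a t ha ih =>
    simp only [Finset.sum_insert ha]
    exact (h a (Finset.mem_insert_self _ _)).add (ih fun j hj => h j (Finset.mem_insert_of_mem hj))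

theorem Dec.congr {r s : ℕ} {W W' : ℂ → ℂ} {w w' : ℂ} (h : Dec r s W w) (h1 : ∀ n, W' n = W n)
    (h2 : w' = w) : Dec r s W' w' := by
  rw [funext h1, h2]; exact h

theorem exists_ME {r s m : ℕ} (hr : r = 1 ∨ r = 2) (hs : r + 1 ≤ s) (hm : r ≤ m)
    (hm' : 2 * m < r + s) : ∃ t α, SadData r s (r + s - 2 * m) t α :=
  exists_sadData r s _ hr hs (by omega) (by omega) ⟨r + s - m, by omega⟩

theorem SadData.ent {r s e : ℕ} {t : ℂ} {α : ℝ} (D : SadData r s e t α) :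
    Ent (MM r s (-(e : ℝ))) := by
  have h1 : (e : ℝ) + 1 ≤ s := by exact_mod_cast D.hes
  have h2 : (0 : ℝ) ≤ e := Nat.cast_nonneg e
  exact ent_MM r s (by have := D.hes; omega) (by linarith) (by linarith)

theorem Dec.single {r s m : ℕ} (hr : r = 1 ∨ r = 2) (hs : r + 1 ≤ s) (hm : r ≤ m) (b : ℕ) :
    Dec r s (fun n => ex (-n) ^ b * UP r s (2 * m - (r + s)) n)
      (if b = 0 ∧ m = (r + s - 1) / 2 then 1 else 0) := by
  rcases le_or_gt (r + s) (2 * m) with h | h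
  · rw [if_neg (by omega)]
    have : ((r : ℝ) + s) ≤ 2 * m := by exact_mod_cast h
    exact Dec.of_growM r s ((growM_UP r s (by omega) (by linarith)).ex_mul' b)
  obtain ⟨t, α, D⟩ := exists_ME hr hs hm h
  have he : (2 * m - (r + s) : ℝ) = -((r + s - 2 * m : ℕ) : ℝ) := by
    rw [Nat.cast_sub h.le]; push_cast; ring
  have hD : GrowM 0 (DP r s (-((r + s - 2 * m : ℕ) : ℝ))) := growM_DP r s (by
    have : (1 : ℝ) ≤ s := by exact_mod_cast (by omega : 1 ≤ s)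
    linarith [(Nat.cast_nonneg (r + s - 2 * m) : (0 : ℝ) ≤ _)])
  rw [he]
  rcases le_or_gt (2 * Real.pi * b) α with hb | hb
  · refine ⟨fun n => ex (-n) ^ b * ME r s m n, fun j => if j = m then 1 else 0,
      (ent_ex_pow b).mul D.ent, EB.mono ((grow_MM D).2.ex_mul b) (by linarith),
      (hD.ex_mul' b).congr' (Eventually.of_forall fun T => by simp only [ME, MM]; ring),
      fun n => ?_, ?_⟩
    · simp only [ex_neg_nat, one_mul, ite_mul, zero_mul]
      rw [Finset.sum_ite_eq', if_pos (Finset.mem_Ico.2 ⟨hm, by omega⟩)]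
    · by_cases h1 : m = (r + s - 1) / 2
      · have h2 : b = 0 := by
          by_contra h3
          have h4 : (1 : ℝ) ≤ b := by exact_mod_cast Nat.one_le_iff_ne_zero.2 h3
          have hpi := Real.pi_pos
          rcases (by omega : r + s - 2 * m = 1 ∨ r + s - 2 * m = 2) with h5 | h5
          · nlinarith [D.one h5]
          · nlinarith [(D.two h5).2]
        simp [h1, h2]
      · simp [h1, Ne.symm h1]
  · rw [if_neg (by
      rintro ⟨rfl, -⟩
      simp at hb; linarith [D.α_pos])]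
    refine Dec.of_growM r s ((EB.add (EB.mono ((grow_MM D).1.ex_mul b) (by linarith))
      (hD.ex_mul' b)).congr' (Eventually.of_forall fun T => ?_))
    simp only [MM]; ring

theorem exp_arccos (α : ℝ) : exp (α * I) = exp (-((Real.arccos (Real.cos α) : ℝ) * I)) ∨
    exp (α * I) = exp ((Real.arccos (Real.cos α) : ℝ) * I) := by
  have h1 := Real.cos_arccos (Real.neg_one_le_cos α) (Real.cos_le_one α)
  have h2 := Real.sin_arccos (Real.cos α)
  rw [← Real.abs_sin_eq_sqrt_one_sub_cos_sq] at h2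
  rw [← neg_mul, ← ofReal_neg, exp_ofReal_mul_I, exp_ofReal_mul_I, exp_ofReal_mul_I, Real.cos_neg,
    Real.sin_neg, h1, h2]
  rcases le_total 0 (Real.sin α) with h | h
  · right; rw [abs_of_nonneg h]
  · left; rw [abs_of_nonpos h, neg_neg]

theorem assemble {r s : ℕ} (hr : r = 1 ∨ r = 2) (hs : r + 1 ≤ s) {x : ℕ → ℝ} {L : ℂ → ℂ} {w : ℂ}
    (hE : Ent L) (hP : GrowP 0 L) (hD : Dec r s L w) (hw : w ≠ 0)
    (hx : ∀ ν : ℕ, (x ν : ℂ) = SS r s 0 (ν + 1 : ℕ) + L (ν + 1 : ℕ) + conj (L (ν + 1 : ℕ))) :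
    ¬ IsStieltjesMoment x := by
  classical
  obtain ⟨K, c, k1, k2, k3, k4, k5⟩ := hD
  set m₀ := (r + s - 1) / 2 with hm₀
  have hpi := Real.pi_pos
  have hdat : ∀ m, r ≤ m → m ≤ m₀ → ∃ t α, SadData r s (r + s - 2 * m) t α := fun m h1 h2 =>
    exists_ME hr hs h1 (by omega)
  choose! t α D using hdat
  have hex : ∃ m, r ≤ m ∧ m ≤ m₀ ∧ c m ≠ 0 ∧ Real.sin (α m) ≠ 0 := by
    refine ⟨m₀, by omega, le_rfl, k5 ▸ hw, ?_⟩
    have D0 := D m₀ (by omega) le_rfl
    rcases (by omega : r + s - 2 * m₀ = 1 ∨ r + s - 2 * m₀ = 2) with h5 | h5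
    · exact (Real.sin_pos_of_pos_of_lt_pi D0.α_pos (D0.one h5)).ne'
    · have := Real.sin_pos_of_pos_of_lt_pi (x := α m₀ - Real.pi) (by linarith [(D0.two h5).1])
        (by linarith [(D0.two h5).2])
      rw [Real.sin_sub_pi] at this
      linarith
  set u := Nat.find hex with hu
  obtain ⟨u1, u2, u3, u4⟩ : r ≤ u ∧ u ≤ m₀ ∧ c u ≠ 0 ∧ Real.sin (α u) ≠ 0 := Nat.find_spec hex
  have hG : ∀ m, r ≤ m → m < u → ∃ G : ℂ → ℂ, Ent G ∧ GrowP 0 G ∧ GrowM Real.pi G ∧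
      ∀ n : ℕ, G n = c m * ME r s m n + conj (c m * ME r s m n) := by
    intro m h1 h2
    have Dm := D m h1 (by omega)
    by_cases h3 : c m = 0
    · exact ⟨fun _ => 0, Ent.const 0, EB.zero _ _ _, EB.zero _ _ _, fun n => by simp [h3]⟩
    · have h4 : Real.sin (α m) = 0 := by
        by_contra h5
        exact Nat.find_min hex h2 ⟨h1, by omega, h3, h5⟩
      exact absorb (F := fun n => c m * ME r s m n) (Dm.ent.const_mul _)
        (EB.const_mul (grow_MM Dm).1 _) (EB.const_mul (grow_MM Dm).2 _) Dm.α_pos.le h4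
  choose! G G1 G2 G3 G4 using hG
  have Du := D u u1 u2
  obtain ⟨c₀, V, h, v1, v2, v3, v4, v5⟩ := real_MM Du
  have hcos : -1 < Real.cos (α u) ∧ Real.cos (α u) < 1 := by
    have := Real.sin_sq_add_cos_sq (α u)
    have h2 : 0 < Real.sin (α u) ^ 2 := by positivity
    constructor <;> nlinarith
  have θ0 : 0 < Real.arccos (Real.cos (α u)) := Real.arccos_pos.2 hcos.2
  have θ1 : Real.arccos (Real.cos (α u)) < Real.pi :=
    lt_of_le_of_ne (Real.arccos_le_pi _) fun e => by linarith [Real.arccos_eq_pi.1 e, hcos.1]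
  have eH : Ent fun n => L n - K n := hE.sub k1
  have pH : GrowP 0 fun n => L n - K n := EB.sub hP k2
  have hmem : ∀ m ∈ Finset.Ico r u, r ≤ m ∧ m < u := fun m hm => Finset.mem_Ico.1 hm
  set R : ℕ → ℂ := fun n => c u * (ME r s u n - V n) +
    ∑ m ∈ Finset.Ico (u + 1) (m₀ + 1), c m * ME r s m n with hR
  have bR : EB atTop (fun n : ℕ => (n : ℝ)) h R := by
    refine (v4.const_mul _).add (EB.sum _ fun m hm => (v5 _ ?_).const_mul _)
    obtain ⟨a1, a2⟩ := Finset.mem_Ico.1 hm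
    rw [abs_neg, Nat.abs_cast]
    have : r + s - 2 * m + 1 ≤ r + s - 2 * u := by omega
    have : ((r + s - 2 * m : ℕ) : ℝ) + 1 ≤ (r + s - 2 * u : ℕ) := by exact_mod_cast this
    linarith
  refine not_sm_wrap (A := fun n => SS r s 0 n + (L n - K n) + dual (fun n => L n - K n) n +
      ∑ m ∈ Finset.Ico r u, G m n)
    ((((ent_SS r s 0).add eH).add eH.dual).add (Ent.sum _ fun m hm => G1 m (hmem m hm).1 (hmem m hm).2))
    le_rfl hpi.le
    (EB.add (EB.add (EB.add (growP_SS r s) pH) k3.dual)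
      (EB.sum _ fun m hm => G2 m (hmem m hm).1 (hmem m hm).2))
    (EB.add (EB.mono (EB.add (EB.add (growM_SS r s 0) k3) pH.dual) hpi.le)
      (EB.sum _ fun m hm => G3 m (hmem m hm).1 (hmem m hm).2))
    θ0 (by linarith) (Real.sin_pos_of_pos_of_lt_pi θ0 θ1).ne' (by
      rw [← Du.α_eq]; exact exp_arccos _) (mul_ne_zero u3 v1) (V := fun n => c u * V n)
    (R := fun n => R n + conj (R n)) ((v3.const_mul (c u)).congr fun n => by ring)
    (bR.add bR.conj) v2 (Eventually.of_forall fun ν => ?_)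
  have e1 : K (ν + 1 : ℕ) = ∑ m ∈ Finset.Ico r u, c m * ME r s m (ν + 1 : ℕ) + c u * V (ν + 1) +
      R (ν + 1) := by
    rw [k4, ← Finset.sum_Ico_consecutive _ u1 (by omega : u ≤ m₀ + 1),
      Finset.sum_eq_sum_Ico_succ_bot (by omega : u < m₀ + 1), hR]
    ring
  have e2 : ∑ m ∈ Finset.Ico r u, G m (ν + 1 : ℕ) = ∑ m ∈ Finset.Ico r u, c m * ME r s m (ν + 1 : ℕ) +
      conj (∑ m ∈ Finset.Ico r u, c m * ME r s m (ν + 1 : ℕ)) := by
    rw [map_sum, ← Finset.sum_add_distrib]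
    exact Finset.sum_congr rfl fun m hm => G4 m (hmem m hm).1 (hmem m hm).2 _
  rw [hx, e2]
  simp only [dual, conj_natCast, e1, map_sub, map_add]
  ring

end Pool.Agent.MP_6026f4_co

end

section

namespace Pool.Agent.MP_6026f4_co

open Complex Set Filter Topology MeasureTheory Asymptotics
open scoped ComplexConjugate

theorem eb_seg_left (r s : ℕ) (e h : ℝ) (a b : ℂ)
    (H : ∀ v ∈ Icc (0 : ℝ) 1, -2 ≤ (a + v * (b - a)).re ∧ (a + v * (b - a)).re ≤ 0 ∧
      -1 / 2 ≤ (a + v * (b - a)).im ∧ (a + v * (b - a)).im ≤ 5 ∧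
      (PhiH r s I (a + v * (b - a))).re - Real.pi * e * (a + v * (b - a)).im ≤ h) :
    EB atTop (fun T : ℝ => T) h fun T : ℝ => seg (PP r s e (T * I + 3 / 2)) (T * a) (T * b) := by
  have hm : ∀ T ∈ Ici (1 : ℝ), 0 ≤ T := fun T hT => zero_le_one.trans hT
  refine PB.eb (S := Ici 1) (Ici_mem_atTop _) hm ?_
  refine PB.seg (F := fun T : ℝ => PP r s e (T * I + 3 / 2)) (a := fun T : ℝ => T * a)
    (b := fun T : ℝ => T * b) (A := ‖b - a‖) hm ?_ fun T hT => by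
      rw [← mul_sub, norm_mul, norm_real, Real.norm_eq_abs, abs_of_nonneg (hm T hT)]
      nlinarith [norm_nonneg (b - a)]
  set z : ℝ → ℂ := fun v => a + v * (b - a) with hz
  have hc0 : (0 : ℝ) < 1 / 4 := by norm_num
  have hd := RM.eta_le (1 / 4)
  have s2 : ∀ p ∈ Ici (1 : ℝ) ×ˢ Icc (0 : ℝ) 1, (p.1 * I + p.1 * z p.2 : ℂ) ∈
      Sec ((1 / 4) ^ 2 / (2 * (1 + (1 / 4) ^ 2))) := by
    intro p hp
    obtain ⟨h1, h2, h3, -⟩ := H p.2 hp.2
    have hT := hm _ hp.1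
    refine RM.sec_of_im hc0 ?_
    rw [← mul_add, re_ofReal_mul, im_ofReal_mul, abs_mul, abs_mul, add_re, add_im, I_re, I_im,
      zero_add, abs_of_nonpos h2, abs_of_nonneg (by linarith : 0 ≤ 1 + (z p.2).im),
      abs_of_nonneg hT]
    nlinarith
  have hre : ∀ p ∈ Ici (1 : ℝ) ×ˢ Icc (0 : ℝ) 1, (p.1 * z p.2 : ℂ).re ≤ 0 := fun p hp => by
    rw [re_ofReal_mul]
    exact mul_nonpos_of_nonneg_of_nonpos (hm _ hp.1) (H p.2 hp.2).2.1
  have F : Frame (Ici (1 : ℝ) ×ˢ Icc (0 : ℝ) 1) (fun p => p.1) (fun p => p.1 * I)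
      (fun p => p.1 * z p.2) (fun _ => 3 / 2) (fun _ => 0) ((1 / 4) ^ 2 / (2 * (1 + (1 / 4) ^ 2)))
      ((1 / 4) ^ 2 / (2 * (1 + (1 / 4) ^ 2)) / 4) 2 7 :=
    { hη := RM.eta_pos hc0, hη1 := hd, hd := by norm_num
      hm := fun p hp => hm _ hp.1
      hp := fun _ _ => by simp; norm_num
      hq := by simp
      hn := fun p hp => by
        rw [norm_mul, norm_I, norm_real, Real.norm_eq_abs, abs_of_nonneg (hm _ hp.1)]
        linarith [hm _ hp.1]
      hk := fun p hp => by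
        obtain ⟨h1, h2, h3, h4, -⟩ := H p.2 hp.2
        have h5 : ‖z p.2‖ ≤ 7 := by
          refine (norm_le_abs_re_add_abs_im _).trans ?_
          have : |(z p.2).re| ≤ 2 := abs_le.2 ⟨h1, by linarith⟩
          have : |(z p.2).im| ≤ 5 := abs_le.2 ⟨by linarith, h4⟩
          linarith
        rw [norm_mul, norm_real, Real.norm_eq_abs, abs_of_nonneg (hm _ hp.1)]
        nlinarith [hm _ hp.1]
      s1 := fun p hp => Sec.of_re_nonneg hd (by simp)
      s2 := s2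
      g1 := fun p hp => Good.of_re (by simp; norm_num)
      g2 := fun p hp => by
        have := Good.of_sec (RM.eta_pos hc0) hd (s2 p hp) (c := 1) (by norm_num)
        convert this using 1
        push_cast; ring }
  refine (((F.TH r s (fun p hp => Sec.of_re_nonneg hd ?_)
    (fun p hp => Sec.of_re_nonneg hd ?_) fun p hp => Good.of_re ?_).PP_of_TH r s e).congr
    (fun p _ => ?_)).mono F.hm fun p hp => ?_
  · rw [neg_re]; linarith [hre p hp]
  · rw [sub_re]; simpa using hre p hp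
  · rw [add_zero, sub_re, half_re]; linarith [hre p hp]
  · simp only [hz]; congr 1; ring
  · have h1 : 0 < p.1 := zero_lt_one.trans_le hp.1
    rw [PhiH_smul r s h1, add_zero, re_ofReal_mul, im_ofReal_mul]
    have := mul_le_mul_of_nonneg_left (H p.2 hp.2).2.2.2.2 h1.le
    simp only [hz]
    nlinarith

theorem eb_tail_up (s : ℕ) {e : ℝ} (he : 1 - s ≤ e) :
    EB atTop (fun T : ℝ => T) (-(2 * Real.pi)) fun T : ℝ =>
      ray (PP 2 s e (T * I + 3 / 2)) (0 + ((5 * T : ℝ) : ℂ) * I) I := by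
  refine PB.eb (S := Ici 0) (Ici_mem_atTop 0) (fun _ h => h) ?_
  refine PB.ray (F := fun T : ℝ => PP 2 s e (T * I + 3 / 2))
    (a := fun T : ℝ => 0 + ((5 * T : ℝ) : ℂ) * I) (d := fun _ => I)
    one_pos (fun _ h => h) (by simp) ?_
  refine ((crude_PP 2 s e (frame_line 1 5) fun p _ => Good.of_re (by simp)).congr
    fun p _ => by congr 1 <;> (push_cast; ring)).mono (frame_line 1 5).hm fun p hp => ?_
  have h1 : 0 ≤ p.1 := hp.1
  have h2 : 0 < p.2 := hp.2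
  have h7 : Real.pi * (1 - s) * (5 * p.1 + p.2) ≤ Real.pi * e * (5 * p.1 + p.2) := by gcongr
  have h8 : 3 * (5 * p.1 + p.2) ≤ Real.pi * (5 * p.1 + p.2) := by gcongr; exact Real.pi_gt_three.le
  simp only [one_mul]
  rw [abs_of_nonneg h1, abs_of_nonneg (by linarith : 0 ≤ 5 * p.1 + p.2),
    abs_of_nonneg (by linarith : 0 ≤ p.1 + (5 * p.1 + p.2)),
    abs_of_nonpos (by linarith : p.1 - (5 * p.1 + p.2) ≤ 0)]
  push_cast
  nlinarith

theorem eb_tail_down (s : ℕ) (hs : 4 ≤ s) :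
    EB atTop (fun T : ℝ => T) (-(2 * Real.pi)) fun T : ℝ =>
      ray (PP 2 s (-(s : ℝ)) (T * I + 3 / 2)) (0 + ((T / 2 : ℝ) : ℂ) * (-I)) (-I) := by
  refine PB.eb (S := Ici 0) (Ici_mem_atTop 0) (fun _ h => h) ?_
  refine PB.ray (F := fun T : ℝ => PP 2 s (-(s : ℝ)) (T * I + 3 / 2))
    (a := fun T : ℝ => 0 + ((T / 2 : ℝ) : ℂ) * (-I)) (d := fun _ => -I)
    one_pos (fun _ h => h) (by simp) ?_
  have F := frame_crude (S := Ici (0 : ℝ) ×ˢ Ioi (0 : ℝ)) (m := fun p => p.1 + p.2)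
    (T := fun p => p.1) (τ := fun p => -(p.1 / 2 + p.2)) (p := fun _ => 3 / 2) (q := fun _ => 0)
    (d := 1 / 2) (C₀ := 2) (A := 1) (by norm_num) (fun p hp => add_nonneg hp.1 (le_of_lt hp.2))
    (fun _ _ => by norm_num [abs_of_pos]) (fun _ _ => by norm_num) (fun _ _ => by norm_num)
    (fun p hp => by rw [abs_of_nonneg hp.1]; linarith [show 0 < p.2 from hp.2])
    (fun p hp => by
      have h1 : 0 ≤ p.1 := hp.1
      have h2 : 0 < p.2 := hp.2
      rw [abs_neg, abs_of_nonneg (by linarith)]; linarith)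
    (fun p hp => Good.of_re (by simp; norm_num))
  refine ((crude_PP 2 s (-(s : ℝ)) F fun p _ => Good.of_re (by simp)).congr
    fun p _ => by congr 1 <;> (push_cast; ring)).mono F.hm fun p hp => ?_
  have h1 : 0 ≤ p.1 := hp.1
  have h2 : 0 < p.2 := hp.2
  refine (RM.crude_down 2 s s h1 (by linarith)).trans ?_
  have h3 : (4 : ℝ) ≤ s := by exact_mod_cast hs
  have h7 : Real.pi * 4 * (p.1 / 2 + p.2) ≤ Real.pi * s * (p.1 / 2 + p.2) := by gcongr
  nlinarith [Real.pi_gt_three]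

theorem eb_seg_mid (s : ℕ) :
    EB atTop (fun T : ℝ => T) 0 fun T : ℝ => seg (fun k => TT 2 s (T * I + 3 / 2) k *
      ex (k - (T * I + 3 / 2)) ^ 1) (((1 * T + 0 : ℝ) : ℂ) * I + ((3 / 2 : ℝ) : ℂ))
      (((5 * T + 0 : ℝ) : ℂ) * I + ((0 : ℝ) : ℂ)) := by
  refine PB.eb (S := Ici 1) (Ici_mem_atTop 1) (fun _ h => zero_le_one.trans h) ?_
  refine PB.seg (F := fun (T : ℝ) k => TT 2 s (T * I + 3 / 2) k * ex (k - (T * I + 3 / 2)) ^ 1)
    (fun _ h => zero_le_one.trans h) ?_ fun T hT => norm_seg_ends 1 0 5 0 (3 / 2) 0 T hT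
  have F := frame_seg 1 1 0 5 0 (3 / 2) 0 (by norm_num) (by norm_num) le_rfl (by norm_num)
  set w : ℝ × ℝ → ℂ := fun p => ((4 * p.2 * p.1 : ℝ) : ℂ) * I + ((-(3 / 2 * p.2) : ℝ) : ℂ) with hw
  refine (((crude_TT 2 s F).mul (PB.ex_pow w 1)).congr fun p _ => ?_).mono F.hm fun p hp => ?_
  · simp only [hw]
    congr 2
    · push_cast; ring
    · push_cast; ring
    · congr 1; push_cast; ring
  · have h1 : 1 ≤ p.1 := hp.1
    have h2 : 0 ≤ p.2 * p.1 := mul_nonneg hp.2.1 (by linarith)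
    have hwi : (w p).im = 4 * p.2 * p.1 := by simp [hw]
    have e : 1 * p.1 + 0 + p.2 * (5 * p.1 + 0 - (1 * p.1 + 0)) = p.1 + 4 * (p.2 * p.1) := by ring
    simp only [hwi, e]
    simp only [one_mul]
    rw [abs_of_nonneg (by linarith : 0 ≤ p.1), abs_of_nonneg (by linarith : 0 ≤ p.1 + 4 * (p.2 * p.1)),
      abs_of_nonneg (by linarith : 0 ≤ p.1 + (p.1 + 4 * (p.2 * p.1))),
      abs_of_nonpos (by linarith : p.1 - (p.1 + 4 * (p.2 * p.1)) ≤ 0)]
    push_cast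
    apply le_of_eq; ring

theorem growP_special (s : ℕ) (hs : 4 ≤ s) :
    GrowP 0 fun n => ex (-n) ^ 1 * (DP 2 s (-(s : ℝ)) n + ∑ a ∈ Finset.range (2 + s),
      ((2 + s).choose (a + 1) : ℂ) * UP 2 s (2 * (a + 2) - (2 + s)) n) - SS 2 s 1 n := by
  obtain ⟨p1, p2, p3⟩ := special_two s hs
  have he : ∀ a : ℕ, 1 - (s : ℝ) ≤ 2 * (a + 2) - (2 + s) := fun a => by
    linarith [(Nat.cast_nonneg a : (0 : ℝ) ≤ a)]
  have E1 := eb_seg_left 2 s (-(s : ℝ)) (-(2 * Real.pi)) (5 * I) (-2 + 5 * I) fun v hv => by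
    have := p1 (2 * v) ⟨by linarith [hv.1], by linarith [hv.2]⟩
    rw [show 5 * I + v * (-2 + 5 * I - 5 * I) = -((2 * v : ℝ) : ℂ) + 5 * I by push_cast; ring]
    refine ⟨by simp; linarith [hv.2], by simp; linarith [hv.1], by simp; norm_num, by simp, ?_⟩
    simp at this ⊢; linarith
  have E2 := eb_seg_left 2 s (-(s : ℝ)) (-(2 * Real.pi)) (-2 + 5 * I) (-2 + (-1 / 2) * I)
    fun v hv => by
    have := p2 (5 - 11 / 2 * v) ⟨by linarith [hv.2], by linarith [hv.1]⟩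
    rw [show -2 + 5 * I + v * (-2 + (-1 / 2) * I - (-2 + 5 * I)) =
      -2 + ((5 - 11 / 2 * v : ℝ) : ℂ) * I by push_cast; ring]
    generalize hy : 5 - 11 / 2 * v = y at this ⊢
    refine ⟨by simp, by simp, by simp; linarith [hv.2], by simp; linarith [hv.1], ?_⟩
    simp at this ⊢; linarith
  have E3 := eb_seg_left 2 s (-(s : ℝ)) (-(2 * Real.pi)) (-2 + (-1 / 2) * I) ((-1 / 2) * I)
    fun v hv => by
    have := p3 (2 - 2 * v) ⟨by linarith [hv.2], by linarith [hv.1]⟩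
    rw [show -2 + (-1 / 2) * I + v * ((-1 / 2) * I - (-2 + (-1 / 2) * I)) =
      -((2 - 2 * v : ℝ) : ℂ) + (-1 / 2) * I by push_cast; ring]
    generalize hy : 2 - 2 * v = y at this ⊢
    have him : (-(y : ℂ) + -1 / 2 * I).im = -1 / 2 := by simp
    rw [him]
    refine ⟨by simp; linarith [hv.1], by simp; linarith [hv.2], le_rfl, by norm_num, ?_⟩
    linarith
  have E4 := EB.sum (Finset.range (2 + s)) fun a _ =>
    (eb_tail_up s (he a)).const_mul ((2 + s).choose (a + 1) : ℂ)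
  have E5 := EB.mul_exp (g := fun T : ℝ => ex (-(T * I + 3 / 2)) ^ 1) (c := 2 * Real.pi)
    ((((E4.add E1).add E2).add E3).add (eb_tail_down s hs)) (Eventually.of_forall fun T => by
      rw [pow_one, norm_ex]; apply le_of_eq; congr 1; simp)
  rw [add_neg_cancel] at E5
  refine (E5.add (eb_seg_mid s)).congr' ?_
  filter_upwards [eventually_ge_atTop 1] with T hT
  set n : ℂ := T * I + 3 / 2 with hn
  have hn1 : 1 ≤ n.re := by simp [hn]; norm_num
  have hs1 : 1 ≤ s := by omega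
  have hs' : (1 : ℝ) ≤ s := by exact_mod_cast hs1
  have i1 : ∀ a ∈ Finset.range (2 + s), RayInt (fun k => ((2 + s).choose (a + 1) : ℂ) *
      PP 2 s (2 * (a + 2) - (2 + s)) n k) 0 I := fun a _ =>
    (rayInt_UP 2 s hs1 (he a) hn1).const_mul _
  have h5 : 0 ≤ 5 * T := by linarith
  have i2 := RayInt.sum _ i1
  have e1 := ray_split h5 i2 (rayInt_tail i2 h5)
  rw [ray_sum _ i1, ray_sum _ fun a ha => rayInt_tail (i1 a ha) h5] at e1
  simp only [ray_const_mul] at e1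
  have i3 := rayInt_DP 2 s hs1 (e := -(s : ℝ)) (by linarith) hn1
  have h6 : 0 ≤ T / 2 := by linarith
  have e2 := ray_split h6 i3 (rayInt_tail i3 h6)
  set U : Set ℂ := {k | k.re < 1 / 2} ∩ {k | -T < k.im} with hU
  have hUc : Convex ℝ U := (convex_halfSpace_re_lt _).inter (convex_halfSpace_im_gt _)
  have hUo : IsOpen U :=
    (isOpen_lt (by fun_prop) (by fun_prop)).inter (isOpen_lt (by fun_prop) (by fun_prop))
  have hdU : DifferentiableOn ℂ (PP 2 s (-(s : ℝ)) n) U := fun k hk => by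
    have h1 : k.re < 1 / 2 := hk.1
    have h2 : -T < k.im := hk.2
    exact (diffAt_PP (n := fun _ => n) (k := fun k => k) 2 s _ (differentiableAt_const _)
      differentiableAt_id (NP.of_re (by linarith)) (NP.of_im (by simp [hn]; linarith))
      (NP.of_re (by simp; linarith))).differentiableWithinAt
  obtain ⟨P, hP⟩ := exists_primitive hUc hUo hdU
  have hd : DifferentiableOn ℂ (fun k => TT 2 s n k * ex (k - n) ^ 1) {k | -1 / 2 < k.re} :=
    (diffOn_TT_right 2 s hn1).mul (by fun_prop)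
  obtain ⟨Q, hQ⟩ := exists_primitive (convex_halfSpace_re_gt _) (isOpen_re_gt _) hd
  have hm : ∀ k : ℂ, 0 ≤ k.re → k ∈ {k : ℂ | -1 / 2 < k.re} := fun k hk => by
    change -1 / 2 < k.re; linarith
  have hmU : ∀ k : ℂ, k.re ≤ 0 → -T < k.im → k ∈ U := fun k h1 h2 =>
    ⟨by change k.re < 1 / 2; linarith, h2⟩
  have m0 : (0 : ℂ) ∈ U := hmU _ (by simp) (by simp; linarith)
  have m1 : (T * (5 * I) : ℂ) ∈ U := hmU _ (by simp) (by simp; linarith)
  have m2 : (T * (-2 + 5 * I) : ℂ) ∈ U := hmU _ (by simp; linarith) (by simp; linarith)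
  have m3 : (T * (-2 + (-1 / 2) * I) : ℂ) ∈ U :=
    hmU _ (by simp; linarith) (by simp; norm_num; linarith)
  have m4 : (T * ((-1 / 2) * I) : ℂ) ∈ U := hmU _ (by simp) (by simp; norm_num; linarith)
  have b1 : (0 + ((5 * T : ℝ) : ℂ) * I : ℂ) = T * (5 * I) := by push_cast; ring
  have b2 : (0 + ((T / 2 : ℝ) : ℂ) * (-I) : ℂ) = T * ((-1 / 2) * I) := by push_cast; ring
  have b3 : (((1 * T + 0 : ℝ) : ℂ) * I + ((3 / 2 : ℝ) : ℂ)) = n := by rw [hn]; push_cast; ring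
  have b4 : (((5 * T + 0 : ℝ) : ℂ) * I + ((0 : ℝ) : ℂ)) = T * (5 * I) := by push_cast; ring
  have e3 : ex (-n) ^ 1 * seg (fun z => ∑ a ∈ Finset.range (2 + s), ((2 + s).choose (a + 1) : ℂ) *
      PP 2 s (2 * (a + 2) - (2 + s)) n z) 0 (T * (5 * I)) =
      seg (fun k => TT 2 s n k * ex (k - n) ^ 1) 0 (T * (5 * I)) -
        ex (-n) ^ 1 * seg (PP 2 s (-(s : ℝ)) n) 0 (T * (5 * I)) := by
    rw [← seg_const_mul, ← seg_const_mul, ← seg_sub (SegC.of_convex (convex_halfSpace_re_gt _)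
      hd.continuousOn (hm _ (by simp)) (hm _ (by simp)))
      (SegC.of_convex hUc (hdU.continuousOn.const_mul _) m0 m1)]
    refine seg_congr fun v _ => ?_
    have := TT_ex_eq_sum 2 s 1 n (k := 0 + v * (T * (5 * I) - 0)) (NP.of_re (by simp))
    rw [Finset.sum_range_succ'] at this
    simp only [Nat.choose_zero_right, Nat.cast_one, one_mul, Nat.cast_zero, zero_add, Nat.cast_add,
      Nat.cast_ofNat, add_assoc, one_add_one_eq_two,
      show (2 * 1 - (2 + s) : ℝ) = -(s : ℝ) by ring] at this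
    rw [sub_eq_add_neg _ n, ex_add]
    simp only [zero_add]
    linear_combination (-ex (-n)) * this
  rw [b1] at e1
  rw [b2] at e2
  simp only [b1, b2, b3, b4, DP, UP, SS]
  rw [e1, e2, mul_add _ _ (_ + _), mul_add _ (seg _ _ _) (∑ _ ∈ _, _), e3,
    hP _ m1 _ m2, hP _ m2 _ m3, hP _ m3 _ m4, hP _ m0 _ m4, hP _ m0 _ m1,
    hQ _ (hm n (by linarith)) _ (hm _ (by simp)), hQ _ (hm 0 (by simp)) _ (hm _ (by simp)),
    hQ _ (hm 0 (by simp)) _ (hm n (by linarith))]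
  ring

theorem cast_shift (r s a b : ℕ) :
    (2 * (a + b) - (r + s) : ℝ) = 2 * ((a + b : ℕ) : ℝ) - (r + s) := by push_cast; ring

theorem dec_WT {r s b : ℕ} (hr : r = 1 ∨ r = 2) (hs : r + 1 ≤ s) (hb : r ≤ b) :
    Dec r s (WT r s b) 0 := by
  refine (Dec.sum (Finset.range (r + s + 1)) fun a _ =>
    (Dec.single (m := a + b) hr hs (by omega) b).const_mul ((r + s).choose a : ℂ)).congr
    (fun n => ?_) ?_
  · rw [WT, Finset.mul_sum]
    exact Finset.sum_congr rfl fun a _ => by rw [cast_shift]; ring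
  · refine (Finset.sum_eq_zero fun a _ => ?_).symm
    rw [if_neg (by omega), mul_zero]

theorem dec_UR {r s j : ℕ} (hr : r = 1 ∨ r = 2) (hs : r + 1 ≤ s) (hj : r ≤ j + 1) :
    Dec r s (UR r s j) 0 := by
  refine ((Dec.of_growM r s (growM_UR_sub r s j (by omega) hj (by omega))).add
    (Dec.sum (Finset.range s) fun b _ => (dec_WT (b := j + 1 + b) hr hs (by omega)).const_mul
      ((-1) ^ b))).congr (fun n => by ring) (by simp)

theorem dec_main {r s : ℕ} (hr : r = 1 ∨ r = 2) (hs : r + 1 ≤ s) :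
    ∃ w : ℂ, w ≠ 0 ∧ Dec r s (fun n => ∑ a ∈ Finset.range (s + 1),
      ((r + s - 1).choose (a + r - 1) : ℂ) * UP r s (2 * (a + r) - (r + s)) n) w := by
  refine ⟨((r + s - 1).choose ((r + s - 1) / 2 - 1) : ℂ), by
    exact_mod_cast (Nat.choose_pos (by omega)).ne', (Dec.sum (Finset.range (s + 1)) fun a _ =>
    (Dec.single (m := a + r) hr hs (by omega) 0).const_mul
      ((r + s - 1).choose (a + r - 1) : ℂ)).congr (fun n => ?_) ?_⟩
  · exact Finset.sum_congr rfl fun a _ => by rw [cast_shift]; ring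
  · rw [Finset.sum_eq_single ((r + s - 1) / 2 - r)]
    · rw [if_pos ⟨rfl, by omega⟩, mul_one]; congr 2; omega
    · intro a _ ha
      rw [if_neg (by omega), mul_zero]
    · intro h
      exact absurd (Finset.mem_range.2 (by omega)) h

theorem ent_main {r s : ℕ} (hr : 1 ≤ r) (hs : 1 ≤ s) (k : ℕ) (c : ℕ → ℂ) :
    (Ent fun n => ∑ a ∈ Finset.range k, c a * UP r s (2 * (a + r) - (r + s)) n) ∧
    GrowP 0 fun n => ∑ a ∈ Finset.range k, c a * UP r s (2 * (a + r) - (r + s)) n := by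
  have he : ∀ a : ℕ, 1 - (s : ℝ) ≤ 2 * (a + r) - (r + s) := fun a => by
    have : (1 : ℝ) ≤ r := by exact_mod_cast hr
    linarith [(Nat.cast_nonneg a : (0 : ℝ) ≤ a)]
  exact ⟨Ent.sum _ fun a _ => (ent_UP r s hs (he a)).const_mul _,
    EB.sum _ fun a _ => EB.const_mul (growP_UP r s (he a)) _⟩

theorem not_sm_one (s : ℕ) (hs : 2 ≤ s) : ¬ IsStieltjesMoment fun n => (apery 1 s n : ℝ) := by
  obtain ⟨w, hw, hD⟩ := dec_main (r := 1) (Or.inl rfl) hs
  obtain ⟨h1, h2⟩ := ent_main (r := 1) (s := s) le_rfl (by omega) (s + 1)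
    fun a => ((1 + s - 1).choose (a + 1 - 1) : ℂ)
  refine assemble (Or.inl rfl) hs ((ent_UR 1 s 0 (by omega) le_rfl).sub h1)
    (EB.sub (growP_UR 1 s 0 le_rfl) h2)
    (((dec_UR (j := 0) (Or.inl rfl) hs le_rfl).add (hD.const_mul (-1))).congr (fun n => by ring) rfl)
    (by simpa using hw) fun ν => ?_
  obtain ⟨L, hL, rfl⟩ := apery_eq_one s ν (by omega)
  rw [ofReal_natCast, hL, add_comm 1 s]
  simp [add_comm s 1]

theorem not_sm_two (s : ℕ) (hs : 4 ≤ s) : ¬ IsStieltjesMoment fun n => (apery 2 s n : ℝ) := by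
  have hs3 : 2 + 1 ≤ s := by omega
  have hs1 : 1 ≤ s := by omega
  have hs' : (1 : ℝ) ≤ s := by exact_mod_cast hs1
  obtain ⟨w, hw, hD⟩ := dec_main (r := 2) (Or.inr rfl) hs3
  obtain ⟨h1, h2⟩ := ent_main (r := 2) (s := s) (by norm_num) hs1 (s + 1)
    fun a => ((2 + s - 1).choose (a + 2 - 1) : ℂ)
  obtain ⟨h3, -⟩ := ent_main (r := 2) (s := s) (by norm_num) hs1 (2 + s)
    fun a => ((2 + s).choose (a + 1) : ℂ)
  simp only [Nat.cast_ofNat] at hD h1 h2 h3
  have eD := ent_DP 2 s hs1 (e := -(s : ℝ)) (by linarith)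
  have mD := growM_DP 2 s (e := -(s : ℝ)) (by linarith)
  have d1 : Dec 2 s (fun n => ex (-n) ^ 1 * ∑ a ∈ Finset.range (2 + s),
      ((2 + s).choose (a + 1) : ℂ) * UP 2 s (2 * (a + 2) - (2 + s)) n) 0 := by
    refine (Dec.sum (Finset.range (2 + s)) fun a _ =>
      (Dec.single (m := a + 2) (Or.inr rfl) hs3 (by omega) 1).const_mul
        ((2 + s).choose (a + 1) : ℂ)).congr (fun n => ?_) (by simp)
    rw [Finset.mul_sum]
    exact Finset.sum_congr rfl fun a _ => by push_cast; ring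
  refine assemble (Or.inr rfl) hs3 (L := fun n => (ex (-n) ^ 1 * (DP 2 s (-(s : ℝ)) n +
      ∑ a ∈ Finset.range (2 + s), ((2 + s).choose (a + 1) : ℂ) * UP 2 s (2 * (a + 2) - (2 + s)) n) -
      SS 2 s 1 n) - DP 2 s (-(s : ℝ)) n - UR 2 s 1 n - ∑ a ∈ Finset.range (s + 1),
        ((2 + s - 1).choose (a + 2 - 1) : ℂ) * UP 2 s (2 * (a + 2) - (2 + s)) n)
    ((((((ent_ex_pow 1).mul (eD.add h3)).sub (ent_SS 2 s 1)).sub eD).sub
      (ent_UR 2 s 1 hs1 le_rfl)).sub h1)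
    (EB.sub (EB.sub (EB.sub (growP_special s hs) (growP_DP 2 s hs1 (by linarith)))
      (growP_UR 2 s 1 le_rfl)) h2)
    ((((Dec.of_growM 2 s (W := fun n => ex (-n) ^ 1 * DP 2 s (-(s : ℝ)) n - SS 2 s 1 n -
        DP 2 s (-(s : ℝ)) n) (EB.sub (EB.sub (mD.ex_mul' 1) (growM_SS 2 s 1)) mD)).add d1).add
      (((dec_UR (j := 1) (Or.inr rfl) hs3 le_rfl).add hD).const_mul (-1))).congr
      (fun n => by ring) rfl) (by simpa using hw) fun ν => ?_
  obtain ⟨L, hL, hL'⟩ := apery_eq_two s ν hs1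
  rw [ofReal_natCast, hL]
  have key : ∀ f : ℕ → ℂ, ∑ a ∈ Finset.range (2 + s), ((2 + s).choose (a + 1) : ℂ) * f a -
      ∑ a ∈ Finset.range (s + 1), ((2 + s - 1).choose (a + 2 - 1) : ℂ) * f a =
      ∑ a ∈ Finset.range (2 + s), ((2 + s - 1).choose a : ℂ) * f a := by
    intro f
    have e1 : ∑ a ∈ Finset.range (s + 1), ((2 + s - 1).choose (a + 2 - 1) : ℂ) * f a =
        ∑ a ∈ Finset.range (2 + s), ((s + 1).choose (a + 1) : ℂ) * f a := by
      rw [show 2 + s = s + 1 + 1 by ring, Finset.sum_range_succ _ (s + 1),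
        Nat.choose_eq_zero_of_lt (by omega : s + 1 < s + 1 + 1)]
      simp
    rw [e1, ← Finset.sum_sub_distrib]
    refine Finset.sum_congr rfl fun a _ => ?_
    rw [show 2 + s - 1 = s + 1 by omega, show 2 + s = s + 1 + 1 by ring, Nat.choose_succ_succ]
    push_cast; ring
  have e : L = (ex (-((ν + 1 : ℕ) : ℂ)) ^ 1 * (DP 2 s (-(s : ℝ)) (ν + 1 : ℕ) +
      ∑ a ∈ Finset.range (2 + s), ((2 + s).choose (a + 1) : ℂ) *
        UP 2 s (2 * (a + 2) - (2 + s)) (ν + 1 : ℕ)) - SS 2 s 1 (ν + 1 : ℕ)) -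
      DP 2 s (-(s : ℝ)) (ν + 1 : ℕ) - UR 2 s 1 (ν + 1 : ℕ) - ∑ a ∈ Finset.range (s + 1),
        ((2 + s - 1).choose (a + 2 - 1) : ℂ) * UP 2 s (2 * (a + 2) - (2 + s)) (ν + 1 : ℕ) := by
    rw [hL', ex_neg_nat, ← key]; ring
  rw [e]

end Pool.Agent.MP_6026f4_co

end
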