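import Pool.Agent.Mg.F6026f4p.G9c4e23
import Pool.Agent.Mg.F6026f4p.Gce7451

section

namespace Pool.Agent.MP_6026f4_co

open Complex Set Filter Topology MeasureTheory Asymptotics
open scoped ComplexConjugate

/-- Integral along the segment from `a` to `b`. -/
noncomputable def seg (F : ℂ → ℂ) (a b : ℂ) : ℂ := ∫ v in (0 : ℝ)..1, F (a + v * (b - a)) * (b - a)

/-- Integral along the ray from `a` in direction `d`. -/
noncomputable def ray (F : ℂ → ℂ) (a d : ℂ) : ℂ := ∫ τ in Ioi (0 : ℝ), F (a + τ * d) * d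

/-- Integrability along a ray. -/
def RayInt (F : ℂ → ℂ) (a d : ℂ) : Prop := IntegrableOn (fun τ : ℝ => F (a + τ * d)) (Ioi 0)

/-- Continuity along a segment. -/
def SegC (F : ℂ → ℂ) (a b : ℂ) : Prop := ContinuousOn (fun v : ℝ => F (a + v * (b - a))) (Icc 0 1)

theorem seg_mem {U : Set ℂ} (hU : Convex ℝ U) {a b : ℂ} (ha : a ∈ U) (hb : b ∈ U) {v : ℝ}
    (hv : v ∈ Icc (0 : ℝ) 1) : a + v * (b - a) ∈ U := by
  have := hU.add_smul_sub_mem ha hb hv
  simpa using this

theorem SegC.of_continuousAt {F : ℂ → ℂ} {a b : ℂ}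
    (h : ∀ v ∈ Icc (0 : ℝ) 1, ContinuousAt F (a + v * (b - a))) : SegC F a b := fun v hv =>
  (ContinuousAt.comp (f := fun v : ℝ => a + v * (b - a)) (h v hv) (by fun_prop)).continuousWithinAt

theorem SegC.of_convex {U : Set ℂ} (hU : Convex ℝ U) {F : ℂ → ℂ} (hF : ContinuousOn F U) {a b : ℂ}
    (ha : a ∈ U) (hb : b ∈ U) : SegC F a b :=
  hF.comp (by fun_prop) fun _ hv => seg_mem hU ha hb hv

theorem SegC.intervalIntegrable {F : ℂ → ℂ} {a b : ℂ} (h : SegC F a b) :
    IntervalIntegrable (fun v : ℝ => F (a + v * (b - a)) * (b - a)) volume 0 1 := by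
  refine ContinuousOn.intervalIntegrable ?_
  rw [uIcc_of_le zero_le_one]
  exact ContinuousOn.mul h continuousOn_const

theorem seg_eq_sub {U : Set ℂ} (hU : Convex ℝ U) {F P : ℂ → ℂ} (hF : ContinuousOn F U)
    (hP : ∀ z ∈ U, HasDerivAt P (F z) z) {a b : ℂ} (ha : a ∈ U) (hb : b ∈ U) :
    seg F a b = P b - P a := by
  rw [seg, intervalIntegral.integral_eq_sub_of_hasDerivAt (f := fun v : ℝ => P (a + v * (b - a)))]
  · simp
  · intro v hv
    rw [uIcc_of_le zero_le_one] at hv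
    have h1 : HasDerivAt (fun v : ℝ => a + v * (b - a)) (b - a) v := by
      simpa using (((hasDerivAt_id v).ofReal_comp).mul_const (b - a)).const_add a
    exact (hP _ (seg_mem hU ha hb hv)).comp_of_eq v h1 rfl
  · exact (SegC.of_convex hU hF ha hb).intervalIntegrable

theorem exists_primitive {U : Set ℂ} (hU : Convex ℝ U) (ho : IsOpen U) {F : ℂ → ℂ}
    (hF : DifferentiableOn ℂ F U) : ∃ P : ℂ → ℂ, ∀ a ∈ U, ∀ b ∈ U, seg F a b = P b - P a := by
  obtain ⟨P, hP⟩ := hU.exists_forall_hasDerivWithinAt hF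
  exact ⟨P, fun a ha b hb => seg_eq_sub hU hF.continuousOn
    (fun z hz => (hP z hz).hasDerivAt (ho.mem_nhds hz)) ha hb⟩

theorem seg_congr {F G : ℂ → ℂ} {a b : ℂ}
    (h : ∀ v ∈ Icc (0 : ℝ) 1, F (a + v * (b - a)) = G (a + v * (b - a))) : seg F a b = seg G a b := by
  refine intervalIntegral.integral_congr fun v hv => ?_
  rw [uIcc_of_le zero_le_one] at hv
  simp only [h v hv]

theorem seg_add {F G : ℂ → ℂ} {a b : ℂ} (hF : SegC F a b) (hG : SegC G a b) :
    seg (fun z => F z + G z) a b = seg F a b + seg G a b := by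
  simp only [seg, add_mul]
  exact intervalIntegral.integral_add hF.intervalIntegrable hG.intervalIntegrable

theorem seg_const_mul (c : ℂ) (F : ℂ → ℂ) (a b : ℂ) :
    seg (fun z => c * F z) a b = c * seg F a b := by
  simp only [seg, mul_assoc, intervalIntegral.integral_const_mul]

theorem seg_neg (F : ℂ → ℂ) (a b : ℂ) : seg (fun z => -F z) a b = -seg F a b := by
  simp only [seg, neg_mul, intervalIntegral.integral_neg]

theorem seg_sub {F G : ℂ → ℂ} {a b : ℂ} (hF : SegC F a b) (hG : SegC G a b) :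
    seg (fun z => F z - G z) a b = seg F a b - seg G a b := by
  simp only [seg, sub_mul (F _)]
  exact intervalIntegral.integral_sub hF.intervalIntegrable hG.intervalIntegrable

theorem seg_param (F : ℂ → ℂ) (a d : ℂ) (h₁ h₂ : ℝ) :
    seg F (a + h₁ * d) (a + h₂ * d) = ∫ v in h₁..h₂, F (a + v * d) * d := by
  have := intervalIntegral.smul_integral_comp_add_mul (a := 0) (b := 1)
    (f := fun v : ℝ => F (a + v * d) * d) (h₂ - h₁) h₁
  simp only [mul_zero, add_zero, mul_one, add_sub_cancel] at this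
  rw [← this, seg, real_smul, ← intervalIntegral.integral_const_mul]
  refine intervalIntegral.integral_congr fun v _ => ?_
  rw [show a + ↑h₁ * d + ↑v * (a + ↑h₂ * d - (a + ↑h₁ * d)) = a + ((h₁ + (h₂ - h₁) * v : ℝ) : ℂ) * d by
    push_cast; ring]
  push_cast; ring

theorem seg_symm (F : ℂ → ℂ) (a b : ℂ) : seg F b a = -seg F a b := by
  have h1 := seg_param F a (b - a) 1 0
  have h2 := seg_param F a (b - a) 0 1
  simp only [ofReal_one, one_mul, add_sub_cancel, ofReal_zero, zero_mul, add_zero] at h1 h2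
  rw [h1, h2, intervalIntegral.integral_symm]

theorem seg_conj (F : ℂ → ℂ) (a b : ℂ) :
    conj (seg F a b) = seg (fun z => conj (F (conj z))) (conj a) (conj b) := by
  simp only [seg, intervalIntegral.integral_of_le zero_le_one, ← integral_conj]
  congr 1
  ext v
  simp

theorem ray_conj (F : ℂ → ℂ) (a d : ℂ) :
    conj (ray F a d) = ray (fun z => conj (F (conj z))) (conj a) (conj d) := by
  simp only [ray, ← integral_conj]
  congr 1
  ext v
  simp

theorem ray_congr {F G : ℂ → ℂ} {a d : ℂ} (h : ∀ τ : ℝ, 0 < τ → F (a + τ * d) = G (a + τ * d)) :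
    ray F a d = ray G a d :=
  setIntegral_congr_fun measurableSet_Ioi fun τ hτ => by simp only [h τ hτ]

theorem RayInt.congr {F G : ℂ → ℂ} {a d : ℂ} (hF : RayInt F a d)
    (h : ∀ τ : ℝ, 0 < τ → G (a + τ * d) = F (a + τ * d)) : RayInt G a d :=
  IntegrableOn.congr_fun hF (fun τ hτ => (h τ hτ).symm) measurableSet_Ioi

theorem RayInt.add {F G : ℂ → ℂ} {a d : ℂ} (hF : RayInt F a d) (hG : RayInt G a d) :
    RayInt (fun z => F z + G z) a d := Integrable.add hF hG

theorem RayInt.const_mul {F : ℂ → ℂ} {a d : ℂ} (hF : RayInt F a d) (c : ℂ) :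
    RayInt (fun z => c * F z) a d := Integrable.const_mul hF c

theorem RayInt.sum {κ : Type*} (t : Finset κ) {F : κ → ℂ → ℂ} {a d : ℂ}
    (hF : ∀ j ∈ t, RayInt (F j) a d) : RayInt (fun z => ∑ j ∈ t, F j z) a d :=
  integrable_finsetSum t hF

theorem ray_add {F G : ℂ → ℂ} {a d : ℂ} (hF : RayInt F a d) (hG : RayInt G a d) :
    ray (fun z => F z + G z) a d = ray F a d + ray G a d := by
  simp only [ray, add_mul]
  exact integral_add (hF.mul_const d) (hG.mul_const d)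

theorem ray_const_mul (c : ℂ) (F : ℂ → ℂ) (a d : ℂ) :
    ray (fun z => c * F z) a d = c * ray F a d := by
  simp only [ray, mul_assoc, integral_const_mul]

theorem ray_sum {κ : Type*} (t : Finset κ) {F : κ → ℂ → ℂ} {a d : ℂ}
    (hF : ∀ j ∈ t, RayInt (F j) a d) :
    ray (fun z => ∑ j ∈ t, F j z) a d = ∑ j ∈ t, ray (F j) a d := by
  simp only [ray, Finset.sum_mul]
  exact integral_finsetSum t fun j hj => (hF j hj).mul_const d

theorem RayInt.tendsto {F : ℂ → ℂ} {a d : ℂ} (hF : RayInt F a d) :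
    Tendsto (fun H : ℝ => seg F a (a + H * d)) atTop (𝓝 (ray F a d)) := by
  have := intervalIntegral_tendsto_integral_Ioi 0 (hF.mul_const d) tendsto_id
  refine this.congr fun H => ?_
  rw [← seg_param]; simp

theorem ray_split {F : ℂ → ℂ} {a d : ℂ} {h : ℝ} (hh : 0 ≤ h) (hF : RayInt F a d)
    (hF' : RayInt F (a + h * d) d) :
    ray F a d = seg F a (a + h * d) + ray F (a + h * d) d := by
  have h1 := hF.tendsto.comp (tendsto_atTop_add_const_left atTop h tendsto_id)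
  have h2 := hF'.tendsto.const_add (seg F a (a + h * d))
  refine tendsto_nhds_unique h1 (h2.congr' ?_)
  filter_upwards [eventually_ge_atTop 0] with H hH
  have hi : ∀ x y : ℝ, 0 ≤ x → x ≤ y →
      IntervalIntegrable (fun v : ℝ => F (a + v * d) * d) volume x y := fun x y hx hy =>
    (intervalIntegrable_iff_integrableOn_Ioc_of_le hy).2
      (IntegrableOn.mono_set (hF.mul_const d) fun v hv => hx.trans_lt hv.1)
  have e1 := seg_param F a d 0 h
  have e2 := seg_param F a d h (h + H)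
  have e3 := seg_param F a d 0 (h + H)
  simp only [ofReal_zero, zero_mul, add_zero] at e1 e3
  simp only [Function.comp, id]
  rw [e1, e3, show a + h * d + H * d = a + ((h + H : ℝ) : ℂ) * d by push_cast; ring, e2,
    intervalIntegral.integral_add_adjacent_intervals (hi 0 h le_rfl hh) (hi h _ hh (by linarith))]

theorem ray_shift {U : Set ℂ} (hU : Convex ℝ U) (ho : IsOpen U) {F : ℂ → ℂ}
    (hF : DifferentiableOn ℂ F U) {a b d : ℂ} (ha : ∀ τ : ℝ, 0 ≤ τ → a + τ * d ∈ U)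
    (hb : ∀ τ : ℝ, 0 ≤ τ → b + τ * d ∈ U) (hia : RayInt F a d) (hib : RayInt F b d)
    (h0 : Tendsto (fun H : ℝ => seg F (a + H * d) (b + H * d)) atTop (𝓝 0)) :
    ray F a d = seg F a b + ray F b d := by
  obtain ⟨P, hP⟩ := exists_primitive hU ho hF
  have h2 := (hib.tendsto.const_add (seg F a b)).sub h0
  rw [sub_zero] at h2
  refine tendsto_nhds_unique hia.tendsto (h2.congr' ?_)
  filter_upwards [eventually_ge_atTop 0] with H hH
  have ha0 : a ∈ U := by simpa using ha 0 le_rfl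
  have hb0 : b ∈ U := by simpa using hb 0 le_rfl
  rw [hP _ ha0 _ hb0, hP _ hb0 _ (hb H hH), hP _ (ha H hH) _ (hb H hH), hP _ ha0 _ (ha H hH)]
  ring

theorem poly_le_exp (K : ℕ) {ε : ℝ} (hε : 0 < ε) :
    ∃ A : ℝ, 1 ≤ A ∧ ∀ x : ℝ, 0 ≤ x → (1 + x) ^ K ≤ A * Real.exp (ε * x) := by
  set η := ε / (K + 1) with hη
  have hη0 : 0 < η := by positivity
  refine ⟨(1 + η⁻¹) ^ K, one_le_pow₀ (by linarith [inv_pos.2 hη0]), fun x hx => ?_⟩
  have h1 : 1 + x ≤ (1 + η⁻¹) * Real.exp (η * x) := by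
    have h2 := Real.add_one_le_exp (η * x)
    have h3 : (1 + η⁻¹) * (η * x + 1) = η * x + 1 + x + η⁻¹ := by field_simp; ring
    have h4 : 0 ≤ η * x := by positivity
    calc 1 + x ≤ (1 + η⁻¹) * (η * x + 1) := by rw [h3]; linarith [inv_pos.2 hη0]
      _ ≤ _ := by gcongr
  calc (1 + x) ^ K ≤ ((1 + η⁻¹) * Real.exp (η * x)) ^ K := by gcongr
    _ = (1 + η⁻¹) ^ K * Real.exp (K * (η * x)) := by rw [mul_pow, Real.exp_nat_mul]
    _ ≤ _ := by
      have : (K : ℝ) * η ≤ ε := by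
        rw [hη, mul_div_assoc', div_le_iff₀ (by positivity)]; nlinarith
      have h5 : (K : ℝ) * (η * x) ≤ ε * x := by nlinarith
      gcongr

theorem norm_seg_le {F : ℂ → ℂ} {a b : ℂ} {M : ℝ}
    (h : ∀ v ∈ Icc (0 : ℝ) 1, ‖F (a + v * (b - a))‖ ≤ M) : ‖seg F a b‖ ≤ M * ‖b - a‖ := by
  have := intervalIntegral.norm_integral_le_of_norm_le_const (a := 0) (b := 1)
    (f := fun v : ℝ => F (a + v * (b - a)) * (b - a)) (C := M * ‖b - a‖) (fun v hv => by
      rw [uIoc_of_le zero_le_one] at hv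
      rw [norm_mul]
      exact mul_le_mul_of_nonneg_right (h v (Ioc_subset_Icc_self hv)) (norm_nonneg _))
  rw [sub_zero, abs_one, mul_one] at this
  exact this

theorem rayInt_of_le {F : ℂ → ℂ} {a d : ℂ} {M c : ℝ} (hc : 0 < c)
    (hF : ContinuousOn (fun τ : ℝ => F (a + τ * d)) (Ioi 0))
    (h : ∀ τ : ℝ, 0 < τ → ‖F (a + τ * d)‖ ≤ M * Real.exp (-c * τ)) : RayInt F a d :=
  Integrable.mono' ((exp_neg_integrableOn_Ioi 0 hc).const_mul M)
    (hF.aestronglyMeasurable measurableSet_Ioi)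
    ((ae_restrict_iff' measurableSet_Ioi).2 (Eventually.of_forall h))

theorem norm_ray_le {F : ℂ → ℂ} {a d : ℂ} {M c : ℝ} (hc : 0 < c)
    (h : ∀ τ : ℝ, 0 < τ → ‖F (a + τ * d)‖ ≤ M * Real.exp (-c * τ)) :
    ‖ray F a d‖ ≤ M * ‖d‖ / c := by
  have h1 := norm_integral_le_of_norm_le (μ := volume.restrict (Ioi (0 : ℝ)))
    (f := fun τ : ℝ => F (a + τ * d) * d)
    ((exp_neg_integrableOn_Ioi 0 hc).const_mul (M * ‖d‖))
    ((ae_restrict_iff' measurableSet_Ioi).2 (Eventually.of_forall fun τ hτ => by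
      rw [norm_mul, mul_right_comm]
      exact mul_le_mul_of_nonneg_right (h τ hτ) (norm_nonneg _)))
  rw [integral_const_mul, integral_exp_mul_Ioi (by linarith)] at h1
  refine h1.trans (le_of_eq ?_)
  simp; field_simp

section PBint
variable {ι : Type*} {S : Set ι} {m h : ι → ℝ} {F : ι → ℂ → ℂ} {a b d : ι → ℂ}

theorem PB.seg {A : ℝ} (hm : ∀ i ∈ S, 0 ≤ m i)
    (hF : PB (S ×ˢ Icc (0 : ℝ) 1) (fun p => m p.1) (fun p => F p.1 (a p.1 + p.2 * (b p.1 - a p.1)))
      (fun p => h p.1))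
    (hab : ∀ i ∈ S, ‖b i - a i‖ ≤ A * (1 + m i)) :
    PB S m (fun i => seg (F i) (a i) (b i)) h := by
  obtain ⟨C, hC, K, hb⟩ := hF
  refine ⟨C * (1 + |A|), one_le_mul_of_one_le_of_one_le hC (by linarith [abs_nonneg A]), K + 1,
    fun i hi => (norm_seg_le (M := C * (1 + m i) ^ K * Real.exp (h i))
      fun v hv => hb (i, v) ⟨hi, hv⟩).trans ?_⟩
  have h0 := hm i hi
  have h1 : ‖b i - a i‖ ≤ (1 + |A|) * (1 + m i) :=
    (hab i hi).trans (by gcongr; linarith [le_abs_self A])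
  calc _ ≤ C * (1 + m i) ^ K * Real.exp (h i) * ((1 + |A|) * (1 + m i)) := by gcongr
    _ = _ := by ring

theorem PB.ray_bound {c : ℝ} (hc : 0 < c) (hm : ∀ i ∈ S, 0 ≤ m i) {G : ι × ℝ → ℂ}
    (hF : PB (S ×ˢ Ioi (0 : ℝ)) (fun p => m p.1 + p.2) G (fun p => h p.1 - c * p.2)) :
    ∃ C : ℝ, 1 ≤ C ∧ ∃ K : ℕ, ∀ i ∈ S, ∀ τ : ℝ, 0 < τ →
      ‖G (i, τ)‖ ≤ C * (1 + m i) ^ K * Real.exp (h i) * Real.exp (-(c / 2) * τ) := by
  obtain ⟨C, hC, K, hb⟩ := hF
  obtain ⟨A, hA, hA'⟩ := poly_le_exp K (half_pos hc)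
  refine ⟨C * A, one_le_mul_of_one_le_of_one_le hC hA, K, fun i hi τ hτ =>
    (hb (i, τ) ⟨hi, hτ⟩).trans ?_⟩
  have h0 := hm i hi
  have h1 : (1 + (m i + τ)) ^ K ≤ (1 + m i) ^ K * (A * Real.exp (c / 2 * τ)) := by
    calc _ ≤ ((1 + m i) * (1 + τ)) ^ K := by gcongr; nlinarith
      _ ≤ _ := by rw [mul_pow]; gcongr; exact hA' τ hτ.le
  calc _ ≤ C * ((1 + m i) ^ K * (A * Real.exp (c / 2 * τ))) * Real.exp (h i - c * τ) := by gcongr
    _ = C * A * (1 + m i) ^ K * (Real.exp (c / 2 * τ) * Real.exp (h i - c * τ)) := by ring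
    _ = _ := by rw [mul_assoc (C * A * _), ← Real.exp_add, ← Real.exp_add]; congr 2; ring

theorem PB.ray {c : ℝ} (hc : 0 < c) (hm : ∀ i ∈ S, 0 ≤ m i) (hd : ∀ i ∈ S, ‖d i‖ ≤ 1)
    (hF : PB (S ×ˢ Ioi (0 : ℝ)) (fun p => m p.1 + p.2) (fun p => F p.1 (a p.1 + p.2 * d p.1))
      (fun p => h p.1 - c * p.2)) :
    PB S m (fun i => ray (F i) (a i) (d i)) h := by
  obtain ⟨C, hC, K, hb⟩ := hF.ray_bound hc hm
  refine ⟨C * (1 + 2 / c), one_le_mul_of_one_le_of_one_le hC
    (le_add_of_nonneg_right (by positivity)), K, fun i hi =>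
    (norm_ray_le (half_pos hc) (hb i hi)).trans ?_⟩
  have h0 := hm i hi
  have h1 : ‖d i‖ / (c / 2) ≤ 1 + 2 / c := by
    rw [div_div_eq_mul_div]
    have : ‖d i‖ * 2 / c ≤ 2 / c := by gcongr; linarith [hd i hi]
    linarith
  calc _ = C * (1 + m i) ^ K * Real.exp (h i) * (‖d i‖ / (c / 2)) := by ring
    _ ≤ C * (1 + m i) ^ K * Real.exp (h i) * (1 + 2 / c) := by gcongr
    _ = _ := by ring

theorem PB.rayInt {c : ℝ} (hc : 0 < c) (hm : ∀ i ∈ S, 0 ≤ m i)
    (hF : PB (S ×ˢ Ioi (0 : ℝ)) (fun p => m p.1 + p.2) (fun p => F p.1 (a p.1 + p.2 * d p.1))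
      (fun p => h p.1 - c * p.2)) {i : ι} (hi : i ∈ S)
    (hc' : ContinuousOn (fun τ : ℝ => F i (a i + τ * d i)) (Ioi 0)) : RayInt (F i) (a i) (d i) := by
  obtain ⟨C, _, K, hb⟩ := hF.ray_bound hc hm
  exact rayInt_of_le (half_pos hc) hc' (hb i hi)

end PBint

/-- Exponential growth rate at most `h` along a filter. -/
def EB {ι : Type*} (l : Filter ι) (ρ : ι → ℝ) (h : ℝ) (f : ι → ℂ) : Prop :=
  ∀ γ : ℝ, h < γ → f =O[l] fun i => Real.exp (γ * ρ i)

section EB
variable {ι : Type*} {l : Filter ι} {ρ : ι → ℝ} {h h' : ℝ} {f g : ι → ℂ}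

theorem EB.mono (hf : EB l ρ h f) (hh : h ≤ h') : EB l ρ h' f := fun γ hγ => hf γ (hh.trans_lt hγ)

theorem EB.add (hf : EB l ρ h f) (hg : EB l ρ h g) : EB l ρ h fun i => f i + g i :=
  fun γ hγ => (hf γ hγ).add (hg γ hγ)

theorem EB.sub (hf : EB l ρ h f) (hg : EB l ρ h g) : EB l ρ h fun i => f i - g i :=
  fun γ hγ => (hf γ hγ).sub (hg γ hγ)

theorem EB.neg (hf : EB l ρ h f) : EB l ρ h fun i => -f i := fun γ hγ => (hf γ hγ).neg_left

theorem EB.const_mul (hf : EB l ρ h f) (c : ℂ) : EB l ρ h fun i => c * f i :=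
  fun γ hγ => (hf γ hγ).const_mul_left c

theorem EB.sum {κ : Type*} (t : Finset κ) {F : κ → ι → ℂ} (hF : ∀ j ∈ t, EB l ρ h (F j)) :
    EB l ρ h fun i => ∑ j ∈ t, F j i := fun γ hγ =>
  (IsBigO.sum fun j hj => hF j hj γ hγ).congr_left fun i => by simp

theorem EB.congr' (hf : EB l ρ h f) (hg : ∀ᶠ i in l, f i = g i) : EB l ρ h g :=
  fun γ hγ => (hf γ hγ).congr' hg EventuallyEq.rfl

theorem EB.conj (hf : EB l ρ h f) : EB l ρ h fun i => conj (f i) :=
  fun γ hγ => IsBigO.of_norm_left (by simpa using (hf γ hγ).norm_left)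

theorem EB.mul_exp (hf : EB l ρ h f) {c : ℝ} (hg : ∀ᶠ i in l, ‖g i‖ ≤ Real.exp (c * ρ i)) :
    EB l ρ (c + h) fun i => g i * f i := by
  intro γ hγ
  have h1 : g =O[l] fun i => Real.exp (c * ρ i) :=
    IsBigO.of_bound 1 (by filter_upwards [hg] with i hi; simpa using hi)
  refine (h1.mul (hf (γ - c) (by linarith))).congr_right fun i => ?_
  rw [← Real.exp_add]; congr 1; ring

theorem PB.eb {S : Set ι} (hS : S ∈ l) (hρ : ∀ i ∈ S, 0 ≤ ρ i)
    (hf : PB S ρ f fun i => h * ρ i) : EB l ρ h f := by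
  obtain ⟨C, hC, K, hb⟩ := hf
  intro γ hγ
  obtain ⟨A, hA, hA'⟩ := poly_le_exp K (sub_pos.2 hγ)
  refine IsBigO.of_bound (C * A) ?_
  filter_upwards [hS] with i hi
  refine (hb i hi).trans ?_
  rw [Real.norm_eq_abs, abs_of_pos (Real.exp_pos _)]
  calc _ ≤ C * (A * Real.exp ((γ - h) * ρ i)) * Real.exp (h * ρ i) := by
        gcongr; exact hA' _ (hρ i hi)
    _ = C * A * (Real.exp ((γ - h) * ρ i) * Real.exp (h * ρ i)) := by ring
    _ = _ := by rw [← Real.exp_add]; congr 2; ring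

end EB

end Pool.Agent.MP_6026f4_co

end

section

namespace Pool.Agent.MP_6026f4_co

open Complex Set Filter Topology MeasureTheory Asymptotics
open scoped ComplexConjugate

/-- The periodic exponential. -/
noncomputable def ex (k : ℂ) : ℂ := exp (2 * Real.pi * I * k)

theorem ex_ne_zero (k : ℂ) : ex k ≠ 0 := exp_ne_zero _

theorem norm_ex (k : ℂ) : ‖ex k‖ = Real.exp (-(2 * Real.pi * k.im)) := by
  rw [ex, norm_exp]; congr 1; simp

theorem ex_add (k l : ℂ) : ex (k + l) = ex k * ex l := by rw [ex, mul_add, exp_add]; rfl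

theorem ex_neg (k : ℂ) : ex (-k) = (ex k)⁻¹ := by rw [ex, mul_neg, exp_neg]; rfl

theorem ex_sub (k l : ℂ) : ex (k - l) = ex k * (ex l)⁻¹ := by rw [sub_eq_add_neg, ex_add, ex_neg]

theorem ex_natCast (n : ℕ) : ex n = 1 := by
  rw [ex, mul_comm]; exact exp_nat_mul_two_pi_mul_I n

theorem ex_half : ex (1 / 2) = -1 := by
  rw [ex, ← exp_pi_mul_I]; congr 1; ring

theorem ex_conj (k : ℂ) : conj (ex (conj k)) = (ex k)⁻¹ := by
  rw [← ex_neg, ex, ex, ← exp_conj]
  congr 1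
  simp only [map_mul, conj_ofReal, conj_I, conj_conj, map_ofNat]
  ring

theorem ex_mul_I (y : ℝ) : ex (y * I) = (Real.exp (-(2 * Real.pi * y)) : ℝ) := by
  rw [ex, ofReal_exp]; congr 1; push_cast
  linear_combination (2 * Real.pi * y : ℂ) * I_mul_I

@[fun_prop]
theorem differentiable_ex : Differentiable ℂ ex := by unfold ex; fun_prop

@[fun_prop]
theorem continuous_ex : Continuous ex := differentiable_ex.continuous

theorem one_add_ex_ne_zero {k : ℂ} (h : ∀ j : ℤ, k - 1 / 2 ≠ j) : 1 + ex k ≠ 0 := by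
  have h1 : ex (k - 1 / 2) ≠ 1 := exp_two_pi_ne_one h
  rw [ex_sub, ex_half] at h1
  intro h0
  apply h1
  rw [show ex k = -1 by linear_combination h0]; norm_num

theorem one_add_ex_ne_zero_of_im {k : ℂ} (h : k.im ≠ 0) : 1 + ex k ≠ 0 :=
  one_add_ex_ne_zero fun j e => h (by simpa using congrArg Complex.im e)

theorem one_add_ex_ne_zero_of_re {k : ℂ} (n : ℕ) (h : k.re = n) : 1 + ex k ≠ 0 :=
  one_add_ex_ne_zero fun j e => by
    have h1 := congrArg Complex.re e
    simp only [sub_re, h, intCast_re] at h1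
    norm_num at h1
    have h2 : ((2 * n - 1 : ℤ) : ℝ) = ((2 * j : ℤ) : ℝ) := by push_cast; linarith
    have h3 : (2 * n - 1 : ℤ) = 2 * j := by exact_mod_cast h2
    omega

/-- The kernel on the upper half of the contour. -/
noncomputable def kx (k : ℂ) : ℂ := ex k / (1 + ex k)

theorem norm_kx_le_of_re {k : ℂ} (n : ℕ) (h : k.re = n) : ‖kx k‖ ≤ ‖ex k‖ ∧ ‖kx k‖ ≤ 1 := by
  have e : k = n + k.im * I := by rw [← re_add_im k, h]; simp
  have h1 : ex k = (Real.exp (-(2 * Real.pi * k.im)) : ℝ) := by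
    conv_lhs => rw [e, ex_add, ex_natCast, one_mul, ex_mul_I]
  have hp := Real.exp_pos (-(2 * Real.pi * k.im))
  rw [kx, h1, ← ofReal_one, ← ofReal_add, ← ofReal_div, norm_real, norm_real, Real.norm_eq_abs,
    Real.norm_eq_abs, abs_of_pos hp, abs_of_pos (by positivity)]
  exact ⟨div_le_self hp.le (by linarith), (div_le_one (by positivity)).2 (by linarith)⟩

theorem norm_one_add_ex_ge {k : ℂ} (h : 1 ≤ k.im) : 1 / 2 ≤ ‖1 + ex k‖ := by
  have h1 : ‖ex k‖ ≤ 1 / 2 := by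
    rw [norm_ex]
    have : Real.exp (-(2 * Real.pi * k.im)) ≤ Real.exp (-1) := by
      apply Real.exp_le_exp.2; nlinarith [Real.pi_gt_three]
    refine this.trans ?_
    rw [Real.exp_neg, inv_le_comm₀ (Real.exp_pos _) (by norm_num)]
    linarith [Real.add_one_le_exp 1]
  have := norm_sub_norm_le (1 : ℂ) (-ex k)
  rw [norm_neg, sub_neg_eq_add, norm_one] at this
  linarith

theorem norm_kx_le_of_im {k : ℂ} (h : 1 ≤ k.im) : ‖kx k‖ ≤ 2 * ‖ex k‖ := by
  rw [kx, norm_div, div_le_iff₀ (by linarith [norm_one_add_ex_ge h])]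
  nlinarith [norm_one_add_ex_ge h, norm_nonneg (ex k)]

theorem contAt_kx {k : ℂ} (h : 1 + ex k ≠ 0) : ContinuousAt kx k :=
  continuous_ex.continuousAt.div (by fun_prop) h

theorem diffAt_kx {k : ℂ} (h : 1 + ex k ≠ 0) : DifferentiableAt ℂ kx k :=
  (differentiable_ex k).div (by fun_prop) h

/-- The upper half of the rectangular contour. -/
noncomputable def upper (r s : ℕ) (n : ℂ) (H : ℝ) : ℂ :=
  seg (fun k => TT r s n k * kx k) n (n + H * I) - seg (fun k => TT r s n k * kx k) (H * I) (n + H * I) -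
    seg (fun k => TT r s n k * kx k) 0 (H * I)

theorem diffOn_TT_right (r s : ℕ) {n : ℂ} (hn : 1 ≤ n.re) :
    DifferentiableOn ℂ (TT r s n) {k | -1 / 2 < k.re} := fun k hk =>
  (diffAt_TT (n := fun _ => n) (k := fun k => k) r s (differentiableAt_const _) differentiableAt_id
    (NP.of_re (by linarith)) (NP.of_re (by
      have : -1 / 2 < k.re := hk
      simp; linarith))).differentiableWithinAt

theorem apery_eq_contour (r s ν : ℕ) {H : ℝ} (hH : 0 < H) :
    (apery r s ν : ℂ) = seg (TT r s (ν + 1 : ℕ)) 0 (ν + 1 : ℕ) + upper r s (ν + 1 : ℕ) H +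
      conj (upper r s (ν + 1 : ℕ) H) := by
  set n : ℕ := ν + 1 with hn
  have hn1 : 1 ≤ (n : ℂ).re := by simp [hn]
  have hd := diffOn_TT_right r s hn1
  have ho : IsOpen {k : ℂ | -1 / 2 < k.re} := isOpen_lt continuous_const continuous_re
  have hc : Convex ℝ {k : ℂ | -1 / 2 < k.re} := convex_halfSpace_re_gt _
  have hda : ∀ k : ℂ, 0 ≤ k.re → DifferentiableAt ℂ (TT r s n) k := fun k hk =>
    hd.differentiableAt (ho.mem_nhds (by change -1 / 2 < k.re; linarith))
  have key := plana_rect (fun κ => TT r s n (κ + 1 / 2)) 0 n H hH fun z h1 _ =>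
    (hda _ (by simp at h1 ⊢; linarith)).comp z (differentiableAt_id.add_const _)
  have hsum : ∑ k ∈ Finset.range n, TT r s n (((0 : ℤ) : ℂ) + k + 1 / 2) = (apery r s ν : ℂ) := by
    rw [apery, Nat.cast_sum]
    refine Finset.sum_congr rfl fun k hk => ?_
    rw [Int.cast_zero, zero_add, TT_nat r s ν k (by simpa [hn, Nat.lt_succ_iff] using hk)]
  rw [hsum] at key
  set g : ℂ → ℂ := fun k => -(TT r s n k / (1 + ex k)) with hg
  have hgg : ∀ κ : ℂ, TT r s n (κ + 1 / 2) / (exp (2 * Real.pi * I * κ) - 1) = g (κ + 1 / 2) := by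
    intro κ
    simp only [hg]
    rw [ex_add, ex_half, ← div_neg]
    congr 1
    simp [ex]; ring
  have hgc : ∀ k : ℂ, 0 ≤ k.re → 1 + ex k ≠ 0 → ContinuousAt g k := fun k h1 h2 =>
    ((hda k h1).continuousAt.div (by fun_prop) h2).neg
  have hv : ∀ (m : ℕ) (a b : ℝ),
      IntervalIntegrable (fun y : ℝ => g (m + y * I) * I) volume a b := by
    intro m a b
    refine Continuous.intervalIntegrable (Continuous.mul ?_ continuous_const) _ _
    exact continuous_iff_continuousAt.2 fun y => ContinuousAt.comp (f := fun y : ℝ => (m : ℂ) + y * I)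
      (hgc _ (by simp) (one_add_ex_ne_zero_of_re m (by simp))) (by fun_prop)
  have hvert : ∀ m : ℕ, I * ∫ y : ℝ in (-H)..H, g (m + y * I) =
      seg g m (m + H * I) - seg g m (m - H * I) := by
    intro m
    have e1 := seg_param g m I 0 H
    have e2 := seg_param g m I 0 (-H)
    simp only [ofReal_zero, zero_mul, add_zero, ofReal_neg, neg_mul, ← sub_eq_add_neg] at e1 e2
    rw [e1, e2, intervalIntegral.integral_interval_sub_left (hv m _ _) (hv m _ _), mul_comm,
      intervalIntegral.integral_mul_const]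
  have hhor : ∀ c : ℂ, ∫ x : ℝ in (((0 : ℤ) : ℝ) - 1 / 2)..(((0 : ℤ) : ℝ) + n - 1 / 2),
      g (x + c + 1 / 2) = seg g c (n + c) := by
    intro c
    have e1 := seg_param g (c + 1 / 2) 1 (((0 : ℤ) : ℝ) - 1 / 2) (((0 : ℤ) : ℝ) + n - 1 / 2)
    rw [show c + 1 / 2 + ((((0 : ℤ) : ℝ) - 1 / 2 : ℝ) : ℂ) * 1 = c by push_cast; ring,
      show c + 1 / 2 + ((((0 : ℤ) : ℝ) + n - 1 / 2 : ℝ) : ℂ) * 1 = n + c by push_cast; ring] at e1
    rw [e1]
    refine intervalIntegral.integral_congr fun x _ => ?_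
    simp only [mul_one]; congr 1; ring
  simp only [rectInt, hgg] at key
  have e3 : ∀ y : ℝ, ((((0 : ℤ) : ℝ) + n - 1 / 2 : ℝ) : ℂ) + y * I + 1 / 2 = n + y * I := by
    intro y; push_cast; ring
  have e4 : ∀ y : ℝ, ((((0 : ℤ) : ℝ) - 1 / 2 : ℝ) : ℂ) + y * I + 1 / 2 = (0 : ℕ) + y * I := by
    intro y; push_cast; ring
  simp only [e3, e4, sub_eq_add_neg _ ((H : ℂ) * I)] at key
  rw [hhor, hhor, hvert, hvert] at key
  set G : ℂ → ℂ := fun k => TT r s n k * kx k with hG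
  have hconj : (fun z => conj (G (conj z))) = fun z => -g z := by
    ext z
    simp only [hG, hg, map_mul, kx, map_div₀, map_add, map_one, ex_conj, neg_neg]
    rw [← TT_conj, conj_conj, conj_natCast]
    have := ex_ne_zero z
    by_cases h0 : 1 + ex z = 0
    · rw [show ex z = -1 by linear_combination h0]; norm_num
    · rw [show 1 + (ex z)⁻¹ = (1 + ex z) * (ex z)⁻¹ by field_simp; ring]
      field_simp
  have hup : ∀ a b : ℂ, 0 ≤ a.re → 0 ≤ b.re →
      (∀ v ∈ Icc (0 : ℝ) 1, 1 + ex (a + v * (b - a)) ≠ 0) →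
      seg G a b = seg (TT r s n) a b + seg g a b := by
    intro a b ha hb h
    have hre : ∀ v ∈ Icc (0 : ℝ) 1, 0 ≤ (a + v * (b - a)).re := fun v hv =>
      seg_mem (convex_halfSpace_re_ge 0) ha hb hv
    rw [← seg_add (SegC.of_continuousAt fun v hv => (hda _ (hre v hv)).continuousAt)
      (SegC.of_continuousAt fun v hv => hgc _ (hre v hv) (h v hv))]
    refine seg_congr fun v hv => ?_
    simp only [hG, hg, kx]
    have := h v hv
    field_simp
    ring
  obtain ⟨P, hP⟩ := exists_primitive hc ho hd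
  have hm : ∀ k : ℂ, 0 ≤ k.re → k ∈ {k : ℂ | -1 / 2 < k.re} := fun k hk => by
    change -1 / 2 < k.re; linarith
  rw [upper, map_sub, map_sub, seg_conj, seg_conj, seg_conj, ← hG, hconj, seg_neg g, seg_neg g,
    seg_neg g,
    hup n (n + H * I) (by simp) (by simp)
      (fun v _ => one_add_ex_ne_zero_of_re n (by simp)),
    hup (H * I) (n + H * I) (by simp) (by simp)
      (fun v _ => one_add_ex_ne_zero_of_im (by simp [hH.ne'])),
    hup 0 (H * I) (by simp) (by simp)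
      (fun v _ => one_add_ex_ne_zero_of_re 0 (by simp)),
    hP _ (hm _ (by simp)) _ (hm _ (by simp)), hP _ (hm _ (by simp)) _ (hm _ (by simp)),
    hP _ (hm _ (by simp)) _ (hm _ (by simp)), hP _ (hm _ (by simp)) _ (hm _ (by simp)), ← key]
  simp only [map_add, map_mul, conj_natCast, conj_ofReal, conj_I, map_zero, mul_neg,
    Nat.cast_zero, zero_add, sub_eq_add_neg]
  ring

end Pool.Agent.MP_6026f4_co

end

section

namespace Pool.Agent.MP_6026f4_co
namespace S3

open Complex Set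

/-- The correction term of the fixed point equation. -/
noncomputable def EE (S : ℝ) (w : ℂ) : ℂ := (S + 3) * log (1 + w) - S * log (1 + w / 2)

/-- The exponent of the fixed point map. -/
noncomputable def ZZ (S : ℝ) (w : ℂ) : ℂ :=
  (Real.pi * I - S * (Real.log 2 : ℝ) + EE S w) / 3

theorem log_sub_le {z : ℂ} {R : ℝ} (hz : ‖z‖ ≤ R) (hR : R ≤ 1 / 32) :
    ‖log (1 + z) - z‖ ≤ 13 / 25 * R ^ 2 := by
  have h0 := norm_nonneg z
  have h1 : ‖z‖ < 1 := by linarith
  refine (norm_log_one_add_sub_self_le h1).trans ?_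
  have h2 : (1 - ‖z‖)⁻¹ ≤ 26 / 25 := by
    rw [inv_le_comm₀ (by linarith) (by norm_num)]; linarith
  have h3 : ‖z‖ ^ 2 ≤ R ^ 2 := by gcongr
  have h4 : 0 ≤ (1 - ‖z‖)⁻¹ := by rw [inv_nonneg]; linarith
  nlinarith [sq_nonneg R]

theorem norm_EE_le {S : ℝ} (hS : 16 ≤ S) {w : ℂ} (hw : ‖w‖ ≤ 1 / (2 * S)) :
    ‖EE S w‖ ≤ 9 / 25 := by
  set R : ℝ := 1 / (2 * S) with hR
  have hSR : S * R = 1 / 2 := by rw [hR]; field_simp
  have hR0 : 0 < R := by rw [hR]; positivity
  have hR1 : R ≤ 1 / 32 := by nlinarith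
  have h1 := log_sub_le hw hR1
  have h2 : ‖log (1 + w / 2) - w / 2‖ ≤ 13 / 25 * (R / 2) ^ 2 :=
    log_sub_le (by rw [norm_div]; simp; linarith) (by linarith)
  have e : EE S w = ((S + 3 : ℝ) : ℂ) * (log (1 + w) - w) - (S : ℂ) * (log (1 + w / 2) - w / 2) +
      ((S / 2 + 3 : ℝ) : ℂ) * w := by
    simp only [EE]; push_cast; ring
  rw [e]
  have a1 : ‖((S + 3 : ℝ) : ℂ) * (log (1 + w) - w)‖ ≤ (S + 3) * (13 / 25 * R ^ 2) := by
    rw [norm_mul, norm_real, Real.norm_of_nonneg (by linarith)]; gcongr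
  have a2 : ‖(S : ℂ) * (log (1 + w / 2) - w / 2)‖ ≤ S * (13 / 25 * (R / 2) ^ 2) := by
    rw [norm_mul, norm_real, Real.norm_of_nonneg (by linarith)]; gcongr
  have a3 : ‖((S / 2 + 3 : ℝ) : ℂ) * w‖ ≤ (S / 2 + 3) * R := by
    rw [norm_mul, norm_real, Real.norm_of_nonneg (by linarith)]; gcongr
  have b := (norm_add_le _ _).trans (add_le_add ((norm_sub_le _ _).trans (add_le_add a1 a2)) a3)
  refine b.trans ?_
  have c1 : (S + 3) * (13 / 25 * R ^ 2) = 13 / 25 * (R / 2 + 3 * R ^ 2) := by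
    linear_combination (13 / 25 * R) * hSR
  have c2 : S * (13 / 25 * (R / 2) ^ 2) = 13 / 200 * R := by
    linear_combination (13 / 100 * R) * hSR
  have c3 : (S / 2 + 3) * R = 1 / 4 + 3 * R := by linear_combination (1 / 2) * hSR
  rw [c1, c2, c3]
  nlinarith

theorem ZZ_re (S : ℝ) (w : ℂ) : (ZZ S w).re = (-(S * Real.log 2) + (EE S w).re) / 3 := by
  simp only [ZZ]
  generalize Real.log 2 = L
  simp

theorem ZZ_im (S : ℝ) (w : ℂ) : (ZZ S w).im = (Real.pi + (EE S w).im) / 3 := by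
  simp only [ZZ]
  generalize Real.log 2 = L
  simp

theorem norm_exp_ZZ_le {S : ℝ} (hS : 16 ≤ S) {w : ℂ} (hw : ‖w‖ ≤ 1 / (2 * S)) :
    ‖exp (ZZ S w)‖ ≤ 1 / (2 * S) := by
  rw [norm_exp, ZZ_re]
  have h1 := (re_le_norm _).trans (norm_EE_le hS hw)
  have h2 : Real.log (2 * S) ≤ 5 * Real.log 2 + (S / 16 - 1) := by
    have : 2 * S = 2 ^ 5 * (S / 16) := by ring
    rw [this, Real.log_mul (by norm_num) (by positivity), Real.log_pow]
    have := Real.log_le_sub_one_of_pos (x := S / 16) (by positivity)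
    push_cast; linarith
  rw [one_div, ← Real.exp_log (x := (2 * S)⁻¹) (by positivity), Real.log_inv, Real.exp_le_exp]
  have h3 := Real.log_two_gt_d9
  nlinarith

theorem slit_one_add {w : ℂ} (hw : ‖w‖ < 1) : 1 + w ∈ slitPlane := mem_slitPlane_of_norm_lt_one hw

theorem hasDerivAt_F {S : ℝ} {w : ℂ} (hw : ‖w‖ < 1) :
    HasDerivAt (fun w => exp (ZZ S w))
      (exp (ZZ S w) * (((S + 3) * (1 + w)⁻¹ - S * ((1 / 2) / (1 + w / 2))) / 3)) w := by
  have h1 : HasDerivAt (fun w : ℂ => log (1 + w)) ((1 + w)⁻¹) w := by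
    simpa using ((hasDerivAt_id w).const_add 1).clog (slit_one_add hw)
  have h2 : HasDerivAt (fun w : ℂ => log (1 + w / 2)) ((1 / 2) / (1 + w / 2)) w := by
    have := (((hasDerivAt_id w).div_const 2).const_add 1).clog
      (slit_one_add (w := w / 2) (by rw [norm_div]; simp; linarith [norm_nonneg w]))
    simpa using this
  have h3 := ((((h1.const_mul ((S : ℂ) + 3)).sub (h2.const_mul (S : ℂ))).const_add
    (Real.pi * I - S * (Real.log 2 : ℝ))).div_const 3).cexp
  exact h3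

theorem norm_deriv_le {S : ℝ} (hS : 16 ≤ S) {w : ℂ} (hw : ‖w‖ ≤ 1 / (2 * S)) :
    ‖exp (ZZ S w) * (((S + 3) * (1 + w)⁻¹ - S * ((1 / 2) / (1 + w / 2))) / 3)‖ ≤ 1 / 2 := by
  have h0 := norm_exp_ZZ_le hS hw
  set R : ℝ := 1 / (2 * S) with hR
  have hSR : S * R = 1 / 2 := by rw [hR]; field_simp
  have hR0 : 0 < R := by rw [hR]; positivity
  have hR1 : R ≤ 1 / 32 := by nlinarith
  have n1 : 1 / 2 ≤ ‖1 + w‖ := by
    have := norm_sub_le (1 + w) w
    simp at this; linarith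
  have n2 : 1 / 2 ≤ ‖1 + w / 2‖ := by
    have := norm_sub_le (1 + w / 2) (w / 2)
    rw [add_sub_cancel_right, norm_one, norm_div] at this
    simp at this; linarith
  have n1' : 31 / 32 ≤ ‖1 + w‖ := by
    have := norm_sub_le (1 + w) w
    simp at this; linarith
  have a1 : ‖((S : ℂ) + 3) * (1 + w)⁻¹‖ ≤ (S + 3) * (32 / 31) := by
    rw [norm_mul, norm_inv, show (S : ℂ) + 3 = ((S + 3 : ℝ) : ℂ) by push_cast; ring, norm_real,
      Real.norm_of_nonneg (by linarith)]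
    gcongr
    rw [inv_le_comm₀ (by linarith) (by norm_num)]; linarith
  have a2 : ‖(S : ℂ) * ((1 / 2) / (1 + w / 2))‖ ≤ S * 1 := by
    rw [norm_mul, norm_real, Real.norm_of_nonneg (by linarith), norm_div, norm_half]
    gcongr
    rw [div_le_one (by linarith)]; exact n2
  have a3 := (norm_sub_le _ _).trans (add_le_add a1 a2)
  rw [norm_mul, norm_div]
  have : ‖(3 : ℂ)‖ = 3 := by simp
  rw [this]
  calc _ ≤ R * (((S + 3) * (32 / 31) + S * 1) / 3) := by gcongr
    _ ≤ 1 / 2 := by nlinarith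

theorem exists_fixed {S : ℝ} (hS : 16 ≤ S) :
    ∃ w : ℂ, ‖w‖ ≤ 1 / (2 * S) ∧ exp (ZZ S w) = w := by
  have hR0 : 0 < 1 / (2 * S) := by positivity
  have hR1 : 1 / (2 * S) < 1 := by rw [div_lt_one (by positivity)]; linarith
  set B : Set ℂ := Metric.closedBall 0 (1 / (2 * S)) with hB
  have hmem : ∀ w, w ∈ B ↔ ‖w‖ ≤ 1 / (2 * S) := fun w => by simp [hB]
  have hmaps : MapsTo (fun w => exp (ZZ S w)) B B := fun w hw =>
    (hmem _).2 (norm_exp_ZZ_le hS ((hmem _).1 hw))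
  have hlip : LipschitzOnWith (1 / 2) (fun w => exp (ZZ S w)) B := by
    refine (convex_closedBall _ _).lipschitzOnWith_of_nnnorm_hasDerivWithin_le (𝕜 := ℂ)
      (fun w hw => (hasDerivAt_F (S := S)
        (lt_of_le_of_lt ((hmem _).1 hw) hR1)).hasDerivWithinAt) fun w hw => ?_
    have := norm_deriv_le hS ((hmem _).1 hw)
    rw [← NNReal.coe_le_coe]
    simpa using this
  have hc : ContractingWith (1 / 2) (hmaps.restrict _ B B) :=
    ⟨by norm_num, hlip.mapsToRestrict hmaps⟩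
  obtain ⟨y, hy, hfix, -⟩ := hc.exists_fixedPoint' (Metric.isClosed_closedBall.isComplete) hmaps
    (x := 0) ((hmem _).2 (by simpa using hR0.le)) (edist_ne_top _ _)
  exact ⟨y, (hmem _).1 hy, hfix⟩

/-- The saddle point. -/
theorem exists_saddle {S : ℝ} (hS : 16 ≤ S) :
    ∃ w : ℂ, ‖w‖ ≤ 1 / (2 * S) ∧ 0 < w.im ∧ 3 / 8 * ‖w‖ ≤ w.re ∧
      S * log (2 + w) - (3 + S) * log (1 + w) + 3 * log w - Real.pi * I = 0 := by
  obtain ⟨w, hw, hfix⟩ := exists_fixed hS
  have hE := abs_le.1 ((abs_im_le_norm _).trans (norm_EE_le hS hw))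
  have hpi := Real.pi_gt_d2
  have hpi' := Real.pi_lt_d2
  have him := ZZ_im S w
  have hlog : log w = ZZ S w := by
    conv_lhs => rw [← hfix]
    exact log_exp (by rw [him]; linarith) (by rw [him]; linarith)
  have hn : ‖w‖ = Real.exp (ZZ S w).re := by
    conv_lhs => rw [← hfix]
    exact norm_exp _
  have hre : w.re = Real.exp (ZZ S w).re * Real.cos (ZZ S w).im := by
    conv_lhs => rw [← hfix]
    exact exp_re _
  have him' : w.im = Real.exp (ZZ S w).re * Real.sin (ZZ S w).im := by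
    conv_lhs => rw [← hfix]
    exact exp_im _
  refine ⟨w, hw, ?_, ?_, ?_⟩
  · rw [him']
    exact mul_pos (Real.exp_pos _)
      (Real.sin_pos_of_pos_of_lt_pi (by rw [him]; linarith) (by rw [him]; linarith))
  · rw [hre, hn, mul_comm]
    gcongr
    have h1 : Real.cos (Real.pi / 2 - 2 / 5) ≤ Real.cos (ZZ S w).im :=
      Real.cos_le_cos_of_nonneg_of_le_pi (by rw [him]; linarith) (by linarith)
        (by rw [him]; linarith)
    rw [Real.cos_pi_div_two_sub] at h1
    have h2 := Real.sin_gt_sub_cube (x := 2 / 5) (by norm_num)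
    linarith
  · have hR1 : 1 / (2 * S) < 1 := by rw [div_lt_one (by positivity)]; linarith
    have h2 : log (2 + w) = (Real.log 2 : ℝ) + log (1 + w / 2) := by
      rw [← log_ofReal_mul (by norm_num) (slitPlane_ne_zero (slit_one_add (w := w / 2)
        (by rw [norm_div]; simp; linarith [norm_nonneg w])))]
      congr 1; push_cast; ring
    rw [h2, hlog]
    simp only [ZZ, EE]
    ring

end S3
end Pool.Agent.MP_6026f4_co

end

section

namespace Pool.Agent.MP_6026f4_co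
namespace S3

open Complex Set
open scoped ComplexConjugate

/-- The derivative of the phase. -/
noncomputable def DD (s : ℕ) (k : ℂ) : ℂ := s * log (1 + k) - (3 + s) * log k + 3 * log (k - 1)

/-- The second derivative of the phase. -/
noncomputable def D2 (s : ℕ) (k : ℂ) : ℂ := s / (1 + k) - (3 + s) / k + 3 / (k - 1)

/-- All three arguments are in the slit plane. -/
def OK (k : ℂ) : Prop := 1 + k ∈ slitPlane ∧ k ∈ slitPlane ∧ k - 1 ∈ slitPlane

theorem OK.of_im {k : ℂ} (h : k.im ≠ 0) : OK k :=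
  ⟨Or.inr (by simpa using h), Or.inr h, Or.inr (by simpa using h)⟩

theorem OK.of_re {k : ℂ} (h : 1 < k.re) : OK k :=
  ⟨Or.inl (by simp; linarith), Or.inl (by linarith), Or.inl (by simp; linarith)⟩

theorem hasDerivAt_W (s : ℕ) {k : ℂ} (h : OK k) :
    HasDerivAt (fun k => PhiW 3 s 1 k) (DD s k) k := by
  have h1 : HasDerivAt (fun k : ℂ => LL (1 + k)) (log (1 + k)) k :=
    ((hasDerivAt_LL h.1).comp k ((hasDerivAt_id k).const_add 1)).congr_deriv (mul_one _)
  have h2 := hasDerivAt_LL h.2.1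
  have h3 : HasDerivAt (fun k : ℂ => LL (k - 1)) (log (k - 1)) k :=
    (hasDerivAt_LL h.2.2).comp_sub_const k 1
  have h4 := ((((h1.const_mul (s : ℂ)).const_add ((((3 : ℕ) : ℂ) - s) * LL 1)).sub
    (h2.const_mul (((3 : ℕ) : ℂ) + s))).add (h3.const_mul ((3 : ℕ) : ℂ)))
  refine HasDerivAt.congr_deriv h4 ?_
  simp [DD]

theorem hasDerivAt_DD (s : ℕ) {k : ℂ} (h : OK k) : HasDerivAt (DD s) (D2 s k) k := by
  have h1 : HasDerivAt (fun k : ℂ => log (1 + k)) (1 / (1 + k)) k :=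
    ((hasDerivAt_id k).const_add 1).clog h.1
  have h2 : HasDerivAt (fun k : ℂ => log k) (1 / k) k := (hasDerivAt_id k).clog h.2.1
  have h3 : HasDerivAt (fun k : ℂ => log (k - 1)) (1 / (k - 1)) k :=
    ((hasDerivAt_id k).sub_const 1).clog h.2.2
  have h4 := (((h1.const_mul (s : ℂ)).sub (h2.const_mul ((3 : ℂ) + s))).add (h3.const_mul (3 : ℂ)))
  refine HasDerivAt.congr_deriv h4 ?_
  simp only [D2]; ring

section Dir
variable {f : ℂ → ℂ} {f' : ℂ} {x y : ℝ}

theorem dx (h : HasDerivAt f f' (x + y * I)) :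
    HasDerivAt (fun u : ℝ => f (u + y * I)) f' x := by
  have h1 : HasDerivAt (fun u : ℂ => f (u + y * I)) f' x :=
    (h.comp (x : ℂ) ((hasDerivAt_id (x : ℂ)).add_const (y * I))).congr_deriv (mul_one _)
  exact h1.comp_ofReal

theorem dy (h : HasDerivAt f f' (x + y * I)) :
    HasDerivAt (fun u : ℝ => f (x + u * I)) (f' * I) y := by
  have h1 : HasDerivAt (fun u : ℂ => f (x + u * I)) (f' * I) y :=
    (h.comp (y : ℂ) (((hasDerivAt_id (y : ℂ)).mul_const I).const_add (x : ℂ))).congr_deriv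
      (by rw [one_mul])
  exact h1.comp_ofReal

theorem re_of {g : ℝ → ℂ} {g' : ℂ} (h : HasDerivAt g g' x) :
    HasDerivAt (fun u => (g u).re) g'.re x :=
  reCLM.hasFDerivAt.comp_hasDerivAt x h

theorem im_of {g : ℝ → ℂ} {g' : ℂ} (h : HasDerivAt g g' x) :
    HasDerivAt (fun u => (g u).im) g'.im x :=
  imCLM.hasFDerivAt.comp_hasDerivAt x h

theorem dx_re (h : HasDerivAt f f' (x + y * I)) :
    HasDerivAt (fun u : ℝ => (f (u + y * I)).re) f'.re x := re_of (dx h)

theorem dx_im (h : HasDerivAt f f' (x + y * I)) :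
    HasDerivAt (fun u : ℝ => (f (u + y * I)).im) f'.im x := im_of (dx h)

theorem dy_re (h : HasDerivAt f f' (x + y * I)) :
    HasDerivAt (fun u : ℝ => (f (x + u * I)).re) (-f'.im) y := by
  simpa using re_of (dy h)

theorem dy_im (h : HasDerivAt f f' (x + y * I)) :
    HasDerivAt (fun u : ℝ => (f (x + u * I)).im) f'.re y := by
  simpa using im_of (dy h)

end Dir

theorem monoOn {f f' : ℝ → ℝ} {a b : ℝ} (h : ∀ x ∈ Icc a b, HasDerivAt f (f' x) x)
    (h' : ∀ x ∈ Icc a b, 0 ≤ f' x) : MonotoneOn f (Icc a b) :=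
  monotoneOn_of_hasDerivWithinAt_nonneg (convex_Icc a b)
    (fun x hx => (h x hx).continuousAt.continuousWithinAt)
    (fun x hx => (h x (interior_subset hx)).hasDerivWithinAt)
    (fun x hx => h' x (interior_subset hx))

theorem antiOn {f f' : ℝ → ℝ} {a b : ℝ} (h : ∀ x ∈ Icc a b, HasDerivAt f (f' x) x)
    (h' : ∀ x ∈ Icc a b, f' x ≤ 0) : AntitoneOn f (Icc a b) :=
  antitoneOn_of_hasDerivWithinAt_nonpos (convex_Icc a b)
    (fun x hx => (h x hx).continuousAt.continuousWithinAt)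
    (fun x hx => (h x (interior_subset hx)).hasDerivWithinAt)
    (fun x hx => h' x (interior_subset hx))

theorem arg_le_div {z : ℂ} (h : 0 < z.re) (h' : 0 ≤ z.im) : arg z ≤ z.im / z.re := by
  rw [← tan_arg]
  exact Real.le_tan (arg_nonneg_iff.2 h') (arg_lt_pi_div_two_iff.2 (Or.inl h))

theorem div_le_arg {z : ℂ} (h' : 0 ≤ z.im) : z.im / ‖z‖ ≤ arg z := by
  rw [← sin_arg]
  exact Real.sin_le (arg_nonneg_iff.2 h')

theorem LL_im (z : ℂ) : (LL z).im = z.re * arg z + z.im * Real.log ‖z‖ - z.im := by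
  simp [LL, log_re, log_im]

theorem LL_re (z : ℂ) : (LL z).re = z.re * Real.log ‖z‖ - z.im * arg z - z.re := by
  simp [LL, log_re, log_im]

theorem DD_re (s : ℕ) (k : ℂ) : (DD s k).re =
    s * Real.log ‖1 + k‖ - (3 + s) * Real.log ‖k‖ + 3 * Real.log ‖k - 1‖ := by
  simp [DD, log_re]

theorem DD_im (s : ℕ) (k : ℂ) : (DD s k).im =
    s * arg (1 + k) - (3 + s) * arg k + 3 * arg (k - 1) := by
  simp [DD, log_im]

theorem W_im (s : ℕ) (k : ℂ) : (PhiW 3 s 1 k).im =
    s * (LL (1 + k)).im - (3 + s) * (LL k).im + 3 * (LL (k - 1)).im := by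
  simp [PhiW, Phi0, LL]

theorem W_re (s : ℕ) (k : ℂ) : (PhiW 3 s 1 k).re =
    (s - 3) + s * (LL (1 + k)).re - (3 + s) * (LL k).re + 3 * (LL (k - 1)).re := by
  have : LL 1 = -1 := by simp [LL]
  simp [PhiW, Phi0, this]

theorem T_re (s : ℕ) (k : ℂ) : (PhiT 3 s 1 k).re =
    (s - 3) + s * (LL (1 + k)).re - (3 + s) * (LL k).re - 3 * (LL (1 - k)).re := by
  have : LL 1 = -1 := by simp [LL]
  simp [PhiT, Phi0, this]

theorem LL_conj_re (z : ℂ) : (LL (conj z)).re = (LL z).re := by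
  rw [LL_re, LL_re, arg_conj]
  split_ifs with h
  · have : z.im = 0 := (arg_eq_pi_iff.1 h).2
    simp [this]
  · simp

theorem W_conj_re (s : ℕ) (x y : ℝ) :
    (PhiW 3 s 1 (x - y * I)).re = (PhiW 3 s 1 (x + y * I)).re := by
  rw [W_re, W_re, ← LL_conj_re (1 + (x + y * I)), ← LL_conj_re (x + y * I),
    ← LL_conj_re (x + y * I - 1)]
  simp [sub_eq_add_neg]

theorem T_eq_W (s : ℕ) {k : ℂ} (hk : 0 < k.im) :
    (PhiT 3 s 1 k).re = (PhiW 3 s 1 k).re + 3 * Real.pi * k.im := by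
  rw [T_re, W_re, LL_re (1 - k), LL_re (k - 1), show 1 - k = -(k - 1) by ring,
    arg_neg_eq_arg_sub_pi_of_im_pos (by simpa using hk), norm_neg]
  simp; ring

theorem LL_negI {z : ℂ} (hz : 0 ≤ z.im) : LL (-I * z) = -I * LL z - Real.pi / 2 * z := by
  by_cases h0 : z = 0
  · simp [h0, LL]
  have hpi := Real.pi_pos
  have h1 : log (-I * z) = log (-I) + log z := by
    rw [log_mul_eq_add_log_iff (by simp) h0, arg_neg_I]
    constructor
    · linarith [arg_nonneg_iff.2 hz]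
    · linarith [arg_le_pi z]
  simp only [LL]
  rw [h1, log_neg_I]
  linear_combination (Real.pi / 2 * z) * I_mul_I

theorem LL_posI {z : ℂ} (hz : 0 ≤ z.re) : LL (I * z) = I * LL z - Real.pi / 2 * z := by
  by_cases h0 : z = 0
  · simp [h0, LL]
  have hpi := Real.pi_pos
  have h1 : log (I * z) = log I + log z := by
    rw [log_mul_eq_add_log_iff (by simp) h0, arg_I]
    have := abs_le.1 (abs_arg_le_pi_div_two_iff.2 hz)
    constructor <;> linarith [this.1, this.2]
  simp only [LL]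
  rw [h1, log_I]
  linear_combination (Real.pi / 2 * z) * I_mul_I

theorem W_negI (s : ℕ) {k : ℂ} (hk : 0 ≤ k.im) :
    (PhiW 3 s (-I) (-I * k)).re = (PhiW 3 s 1 k).im := by
  have e : PhiW 3 s (-I) (-I * k) = -I * PhiW 3 s 1 k := by
    simp only [PhiW, Phi0]
    rw [show -I + -I * k = -I * (1 + k) by ring, show -I * k - -I = -I * (k - 1) by ring,
      LL_negI hk, LL_negI (by simpa using hk), LL_negI (by simpa using hk)]
    have := LL_negI (z := 1) (by simp)
    rw [mul_one] at this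
    rw [this]; ring
  rw [e]; simp

theorem W_posI (s : ℕ) {k : ℂ} (hk : 1 ≤ k.re) :
    (PhiW 3 s I (I * k)).re = -(PhiW 3 s 1 k).im := by
  have e : PhiW 3 s I (I * k) = I * PhiW 3 s 1 k := by
    simp only [PhiW, Phi0]
    rw [show I + I * k = I * (1 + k) by ring, show I * k - I = I * (k - 1) by ring,
      LL_posI (z := k) (by linarith), LL_posI (by simp; linarith), LL_posI (by simp; linarith)]
    have := LL_posI (z := 1) (by simp)
    rw [mul_one] at this
    rw [this]; ring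
  rw [e]; simp

theorem W_real_im (s : ℕ) {x : ℝ} (hx : 1 ≤ x) : (PhiW 3 s 1 x).im = 0 := by
  rw [W_im, LL_im, LL_im, LL_im, show (1 : ℂ) + x = ((1 + x : ℝ) : ℂ) by push_cast; ring,
    show (x : ℂ) - 1 = ((x - 1 : ℝ) : ℂ) by push_cast; ring,
    arg_ofReal_of_nonneg (by linarith), arg_ofReal_of_nonneg (by linarith),
    arg_ofReal_of_nonneg (by linarith)]
  simp

theorem log_norm (z : ℂ) : Real.log ‖z‖ = Real.log (z.re ^ 2 + z.im ^ 2) / 2 := by
  have : z.re ^ 2 + z.im ^ 2 = ‖z‖ ^ 2 := by rw [← normSq_eq_norm_sq, normSq_apply]; ring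
  rw [this, Real.log_pow]; push_cast; ring

theorem D2_re (s : ℕ) (x y : ℝ) : (D2 s (x + y * I)).re =
    s * (1 + x) / ((1 + x) ^ 2 + y ^ 2) - (3 + s) * x / (x ^ 2 + y ^ 2) +
      3 * (x - 1) / ((x - 1) ^ 2 + y ^ 2) := by
  simp [D2, div_re, normSq_apply, sq]

theorem DD_re' (s : ℕ) (x y : ℝ) : 2 * (DD s (x + y * I)).re =
    s * Real.log ((1 + x) ^ 2 + y ^ 2) - (3 + s) * Real.log (x ^ 2 + y ^ 2) +
      3 * Real.log ((x - 1) ^ 2 + y ^ 2) := by
  rw [DD_re, log_norm, log_norm, log_norm]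
  simp; ring

end S3
end Pool.Agent.MP_6026f4_co

end
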