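import Mathlib
import Pool.Agent.Mg.F6026f4p.G8e38dd

section

namespace Pool.Agent.MP_6026f4_co

open Filter Topology MeasureTheory

theorem laplace_taylor (φ φ' : ℝ → ℂ) (q : ℂ) (δ0 : ℝ) (hδ0 : 0 < δ0)
    (hφ : ∀ v ∈ Set.Icc (-δ0) δ0, HasDerivAt φ (φ' v) v) (h0 : φ' 0 = 0)
    (hq : HasDerivAt φ' q 0) {ε : ℝ} (hε : 0 < ε) :
    ∃ δ : ℝ, 0 < δ ∧ δ ≤ δ0 ∧ ∀ v : ℝ, |v| ≤ δ → ‖φ v - φ 0 - q * v ^ 2 / 2‖ ≤ ε * v ^ 2 := by
  have h1 := (hasDerivAt_iff_isLittleO.1 hq).bound hε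
  obtain ⟨η, hη, h2⟩ := Metric.eventually_nhds_iff.1 h1
  refine ⟨min (η / 2) δ0, by positivity, min_le_right _ _, fun v hv => ?_⟩
  have hv1 : |v| < η := by linarith [min_le_left (η / 2) δ0]
  have hv2 : |v| ≤ δ0 := hv.trans (min_le_right _ _)
  have key := (convex_Icc (-|v|) |v|).norm_image_sub_le_of_norm_hasDerivWithin_le
    (f := fun w : ℝ => φ w - q * w ^ 2 / 2) (f' := fun w : ℝ => φ' w - q * w) (C := ε * |v|)
    (x := 0) (y := v) (fun w hw => ?_) (fun w hw => ?_) (by simp)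
    ⟨neg_abs_le v, le_abs_self v⟩
  · have e : φ v - q * v ^ 2 / 2 - (φ 0 - q * ((0 : ℝ) : ℂ) ^ 2 / 2) = φ v - φ 0 - q * v ^ 2 / 2 := by
      simp; ring
    rw [e, sub_zero, Real.norm_eq_abs, mul_assoc, abs_mul_abs_self, ← sq] at key
    exact key
  · have hw' : w ∈ Set.Icc (-δ0) δ0 := ⟨by linarith [hw.1], by linarith [hw.2]⟩
    have a1 : HasDerivAt (fun w : ℝ => q * (w : ℂ) ^ 2 / 2) (q * w) w := by
      have := (((hasDerivAt_id w).ofReal_comp.pow 2).const_mul q).div_const 2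
      refine HasDerivAt.congr_deriv (by simpa using this) ?_
      ring
    exact ((hφ w hw').sub a1).hasDerivWithinAt
  · have hw' : |w| ≤ |v| := abs_le.2 hw
    have := h2 (y := w) (by rw [Real.dist_eq, sub_zero]; linarith)
    simp only [h0, sub_zero, Complex.real_smul, Real.norm_eq_abs] at this
    rw [mul_comm q]
    exact this.trans (by gcongr)

theorem laplace_local (φ φ' : ℝ → ℂ) (q g0 : ℂ) (δ0 M : ℝ) (hδ0 : 0 < δ0) (g : ℕ → ℝ → ℂ)
    (hφ : ∀ v ∈ Set.Icc (-δ0) δ0, HasDerivAt φ (φ' v) v) (h0 : φ' 0 = 0)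
    (hq : HasDerivAt φ' q 0) (hqre : q.re < 0)
    (hgc : ∀ᶠ n in atTop, ContinuousOn (g n) (Set.Icc (-δ0) δ0))
    (hgM : ∀ᶠ n in atTop, ∀ v ∈ Set.Icc (-δ0) δ0, ‖g n v‖ ≤ M)
    (hg : ∀ u : ℝ, Tendsto (fun n : ℕ => g n (u / Real.sqrt n)) atTop (𝓝 g0)) :
    ∃ c : ℂ, c ≠ 0 ∧ ∃ δ1 : ℝ, 0 < δ1 ∧ δ1 ≤ δ0 ∧ ∀ δ : ℝ, 0 < δ → δ ≤ δ1 →
      (φ δ).re < (φ 0).re ∧ (φ (-δ)).re < (φ 0).re ∧
      Tendsto (fun n : ℕ => ((Real.sqrt n : ℝ) : ℂ) *
        ∫ v in (-δ)..δ, g n v * Complex.exp (n * (φ v - φ 0))) atTop (𝓝 (g0 * c)) := by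
  have hb : 0 < (-q / 2).re := by simp; linarith
  have hb0 : -q / 2 ≠ 0 := fun h => by rw [h] at hb; simp at hb
  obtain ⟨δ1, hδ1, hδ10, hT⟩ := laplace_taylor φ φ' q δ0 hδ0 hφ h0 hq (ε := -q.re / 4) (by linarith)
  have hre : ∀ v : ℝ, |v| ≤ δ1 → (φ v - φ 0).re ≤ q.re / 4 * v ^ 2 := by
    intro v hv
    have h1 := (Complex.re_le_norm _).trans (hT v hv)
    have h2 : (q * v ^ 2 / 2).re = q.re * v ^ 2 / 2 := by
      simp [sq]
    rw [Complex.sub_re, h2] at h1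
    linarith
  refine ⟨(Real.pi / (-q / 2)) ^ (1 / 2 : ℂ), ?_, δ1, hδ1, hδ10, fun δ hδ hδδ => ⟨?_, ?_, ?_⟩⟩
  · rw [Ne, Complex.cpow_eq_zero_iff]
    rintro ⟨h, -⟩
    exact div_ne_zero (Complex.ofReal_ne_zero.2 Real.pi_ne_zero) hb0 h
  · have := hre δ (by rwa [abs_of_pos hδ])
    rw [Complex.sub_re] at this
    nlinarith [sq_pos_of_pos hδ]
  · have := hre (-δ) (by rwa [abs_neg, abs_of_pos hδ])
    rw [Complex.sub_re] at this
    nlinarith [sq_pos_of_pos hδ]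
  let F : ℕ → ℝ → ℂ := fun n v => g n v * Complex.exp (n * (φ v - φ 0))
  let S : ℕ → Set ℝ := fun n => Set.Ioc (-δ * √n) (δ * √n)
  have hsq : Tendsto (fun n : ℕ => √(n : ℝ)) atTop atTop :=
    Real.tendsto_sqrt_atTop.comp tendsto_natCast_atTop_atTop
  have hmem : ∀ n : ℕ, 0 < √(n : ℝ) → ∀ u ∈ S n, |u / √n| ≤ δ := by
    intro n hn u hu
    rw [abs_div, abs_of_pos hn, div_le_iff₀ hn, abs_le]
    exact ⟨by linarith [hu.1], hu.2⟩
  have hI : ∀ v : ℝ, |v| ≤ δ → v ∈ Set.Icc (-δ0) δ0 := fun v hv =>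
    ⟨by linarith [(abs_le.1 hv).1], by linarith [(abs_le.1 hv).2]⟩
  have heq : ∀ᶠ n : ℕ in atTop, ∫ u, (S n).indicator (fun u => F n (u / √n)) u =
      ((Real.sqrt n : ℝ) : ℂ) * ∫ v in (-δ)..δ, F n v := by
    filter_upwards [hsq.eventually_gt_atTop 0] with n hn
    rw [integral_indicator measurableSet_Ioc, ← intervalIntegral.integral_of_le (by nlinarith),
      intervalIntegral.integral_comp_div _ hn.ne', mul_div_cancel_right₀ _ hn.ne',
      mul_div_cancel_right₀ _ hn.ne', Complex.real_smul]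
  refine Tendsto.congr' heq ?_
  rw [← integral_gaussian_complex hb, ← integral_const_mul]
  refine tendsto_integral_filter_of_dominated_convergence
    (fun u => M * Real.exp (-(-q.re / 4) * u ^ 2)) ?_ ?_ ?_ ?_
  · filter_upwards [hsq.eventually_gt_atTop 0, hgc] with n hn hc
    rw [aestronglyMeasurable_indicator_iff measurableSet_Ioc]
    refine ContinuousOn.aestronglyMeasurable ?_ measurableSet_Ioc
    have hφc : ContinuousOn φ (Set.Icc (-δ0) δ0) := fun v hv =>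
      (hφ v hv).continuousAt.continuousWithinAt
    have hF : ContinuousOn (F n) (Set.Icc (-δ0) δ0) :=
      hc.mul (Complex.continuous_exp.comp_continuousOn
        (continuousOn_const.mul (hφc.sub continuousOn_const)))
    exact hF.comp (by fun_prop) fun u hu => hI _ (hmem n hn u hu)
  · filter_upwards [hsq.eventually_gt_atTop 0, hgM] with n hn hM
    refine Eventually.of_forall fun u => ?_
    have hM0 : 0 ≤ M := (norm_nonneg _).trans (hM 0 ⟨by linarith, hδ0.le⟩)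
    by_cases hu : u ∈ S n
    · rw [Set.indicator_of_mem hu]
      have h1 := hmem n hn u hu
      simp only [F]
      rw [norm_mul, Complex.norm_exp]
      refine mul_le_mul (hM _ (hI _ h1)) (Real.exp_le_exp.2 ?_) (by positivity) hM0
      have h2 := hre _ (h1.trans hδδ)
      have h3 : ((n : ℂ) * (φ (u / √n) - φ 0)).re = n * (φ (u / √n) - φ 0).re := by simp
      have h4 : (n : ℝ) * (u / √n) ^ 2 = u ^ 2 := by
        rw [div_pow, Real.sq_sqrt (Nat.cast_nonneg n)]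
        have : (n : ℝ) ≠ 0 := fun h => by simp [h] at hn
        field_simp
      rw [h3]
      calc (n : ℝ) * (φ (u / √n) - φ 0).re ≤ n * (q.re / 4 * (u / √n) ^ 2) := by gcongr
        _ = _ := by rw [← h4]; ring
    · rw [Set.indicator_of_notMem hu, norm_zero]
      positivity
  · exact (integrable_exp_neg_mul_sq (by linarith)).const_mul M
  · refine Eventually.of_forall fun u => ?_
    have hu0 : Tendsto (fun n : ℕ => u / √(n : ℝ)) atTop (𝓝 0) := hsq.const_div_atTop u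
    have e1 : Tendsto (fun n : ℕ => (n : ℂ) * (φ (u / √n) - φ 0)) atTop
        (𝓝 (-(-q / 2) * (u : ℂ) ^ 2)) := by
      rw [Metric.tendsto_nhds]
      intro ε hε
      obtain ⟨η, hη, -, hT'⟩ := laplace_taylor φ φ' q δ0 hδ0 hφ h0 hq
        (ε := ε / (u ^ 2 + 1)) (by positivity)
      have h5 := (continuous_abs.tendsto 0).comp hu0
      rw [abs_zero] at h5
      filter_upwards [hsq.eventually_gt_atTop 0, h5.eventually_le_const hη] with n hn h6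
      have h4 : (n : ℝ) * (u / √n) ^ 2 = u ^ 2 := by
        rw [div_pow, Real.sq_sqrt (Nat.cast_nonneg n)]
        have : (n : ℝ) ≠ 0 := fun h => by simp [h] at hn
        field_simp
      have h7 : (n : ℂ) * (φ (u / √n) - φ 0) - -(-q / 2) * (u : ℂ) ^ 2 =
          n * (φ (u / √n) - φ 0 - q * ((u / √n : ℝ) : ℂ) ^ 2 / 2) := by
        have : (u : ℂ) ^ 2 = n * ((u / √n : ℝ) : ℂ) ^ 2 := by exact_mod_cast h4.symm
        rw [this]; ring
      rw [dist_eq_norm, h7, norm_mul, Complex.norm_natCast]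
      calc (n : ℝ) * _ ≤ n * (ε / (u ^ 2 + 1) * (u / √n) ^ 2) := by
            gcongr; exact hT' _ h6
        _ = ε * (u ^ 2 / (u ^ 2 + 1)) := by rw [← h4]; ring
        _ < ε := mul_lt_of_lt_one_right hε (by rw [div_lt_one (by positivity)]; linarith)
    refine Tendsto.congr' ?_ ((hg u).mul ((Complex.continuous_exp.tendsto _).comp e1))
    filter_upwards [(hsq.const_mul_atTop hδ).eventually_gt_atTop |u|] with n hn
    rw [Set.indicator_of_mem]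
    · rfl
    · exact ⟨by linarith [neg_abs_le u], by linarith [le_abs_self u]⟩

end Pool.Agent.MP_6026f4_co

end

section

namespace Pool.Agent.MP_6026f4_co

open Complex Set Filter Topology MeasureTheory Asymptotics
open scoped ComplexConjugate

/-- The normalised Gamma function. -/
noncomputable def GA (c : ℝ) (w : ℂ) : ℂ := Gamma (w + c) * exp (-LL w - (c - 1 / 2) * log w)

theorem log_add_eq {w : ℂ} (hw : w ∈ slitPlane) {c : ℝ} (hc : 2 * |c| ≤ ‖w‖) :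
    log (w + c) = log w + log (1 + c / w) := by
  have h0 := slitPlane_ne_zero hw
  have hn : 0 < ‖w‖ := norm_pos_iff.2 h0
  have hq : ‖(c : ℂ) / w‖ ≤ 1 / 2 := by
    rw [norm_div, norm_real, Real.norm_eq_abs, div_le_iff₀ hn]; linarith
  have key := norm_image_sub_le_of_norm_deriv_le_segment_01'
    (f := fun v : ℝ => log (w + v * c) - log (1 + v * (c / w))) (f' := fun _ => 0) (C := 0) ?_
    (by simp)
  · simp only [ofReal_one, one_mul, ofReal_zero, zero_mul, add_zero, log_one, sub_zero,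
      norm_le_zero_iff] at key
    linear_combination key
  · intro v hv
    have h1 : HasDerivAt (fun v : ℝ => w + v * c) c v := by
      simpa using (((hasDerivAt_id v).ofReal_comp).mul_const (c : ℂ)).const_add w
    have h2 : HasDerivAt (fun v : ℝ => 1 + v * (c / w)) (c / w) v := by
      simpa using (((hasDerivAt_id v).ofReal_comp).mul_const (c / w)).const_add 1
    have hvc : |v * c| ≤ |c| := by
      rw [abs_mul, abs_of_nonneg hv.1]; nlinarith [abs_nonneg c, hv.2]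
    have s1 : w + v * c ∈ slitPlane := by
      by_cases him : w.im = 0
      · left
        have hre : 0 < w.re := hw.resolve_right (by simpa using him)
        have : ‖w‖ = w.re := by rw [← Complex.abs_re_eq_norm.2 him, abs_of_pos hre]
        have h3 := abs_le.1 hvc
        simp only [add_re, mul_re, ofReal_re, ofReal_im, mul_zero, sub_zero]
        linarith [abs_nonneg c]
      · right; simpa using him
    have s2 : 1 + v * (c / w) ∈ slitPlane := by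
      apply mem_slitPlane_of_norm_lt_one
      rw [norm_mul, norm_real, Real.norm_eq_abs, abs_of_nonneg hv.1]
      nlinarith [hv.2, norm_nonneg ((c : ℂ) / w)]
    refine ((h1.clog_real s1).sub (h2.clog_real s2)).hasDerivWithinAt.congr_deriv ?_
    have := slitPlane_ne_zero s1
    have h4 : 1 + v * (c / w) = (w + v * c) / w := by field_simp
    rw [h4]
    field_simp
    ring

theorem Sec.add_small {η : ℝ} (hη : 0 < η) (hη1 : η ≤ 1) {w c : ℂ} (hw : w ∈ Sec η)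
    (hc : 4 * ‖c‖ ≤ η * ‖w‖) : w + c ∈ Sec (η / 4) := by
  have hw' : η * ‖w‖ ≤ ‖w‖ + w.re := hw
  have e2 : ‖w + c‖ ≤ ‖w‖ + ‖c‖ := norm_add_le _ _
  have e3 : ‖w‖ - ‖c‖ ≤ ‖w + c‖ := by
    have := norm_sub_le (w + c) c
    rw [add_sub_cancel_right] at this
    linarith
  have e4 : w.re - ‖c‖ ≤ (w + c).re := by
    rw [add_re]
    linarith [abs_le.1 (abs_re_le_norm c)]
  change η / 4 * ‖w + c‖ ≤ ‖w + c‖ + (w + c).re
  nlinarith [norm_nonneg w, norm_nonneg c]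

theorem tendsto_GA {ι : Type*} {l : Filter ι} {w : ι → ℂ} {η : ℝ} (hη : 0 < η) (hη1 : η ≤ 1)
    (c : ℝ) (hw : ∀ᶠ i in l, w i ∈ Sec η) (hn : Tendsto (fun i => ‖w i‖) l atTop) :
    Tendsto (fun i => GA c (w i)) l (𝓝 stirC) := by
  have hinv : Tendsto (fun i => (w i)⁻¹) l (𝓝 0) := by
    rw [tendsto_zero_iff_norm_tendsto_zero]
    simpa only [norm_inv, Function.comp_def] using tendsto_inv_atTop_zero.comp hn
  have hz : Tendsto (fun i => (c : ℂ) / w i) l (𝓝 0) := by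
    simpa [div_eq_mul_inv] using hinv.const_mul (c : ℂ)
  have hlog : Tendsto (fun i => log (1 + c / w i)) l (𝓝 0) := by
    have := ((continuousAt_clog (x := 1) (by simp)).tendsto).comp (by simpa using hz.const_add 1)
    simpa [Function.comp_def] using this
  have hbig : ∀ R : ℝ, ∀ᶠ i in l, R ≤ ‖w i‖ := fun R => hn.eventually_ge_atTop R
  have h1 : Tendsto (fun i => w i * log (1 + c / w i) - c) l (𝓝 0) := by
    refine squeeze_zero_norm' (a := fun i => c ^ 2 * ‖(w i)⁻¹‖) ?_ ?_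
    · filter_upwards [hbig (2 * |c| + 1)] with i hi
      have hp : 0 < ‖w i‖ := by linarith [abs_nonneg c]
      have h0 : w i ≠ 0 := norm_pos_iff.1 hp
      have hq : ‖(c : ℂ) / w i‖ ≤ 1 / 2 := by
        rw [norm_div, norm_real, Real.norm_eq_abs, div_le_iff₀ hp]; linarith
      have h2 := norm_log_one_add_sub_self_le (z := c / w i) (by linarith)
      have h3 : (1 - ‖(c : ℂ) / w i‖)⁻¹ ≤ 2 := by
        rw [inv_le_comm₀ (by linarith) (by norm_num)]; linarith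
      have h4 : ‖log (1 + c / w i) - c / w i‖ ≤ ‖(c : ℂ) / w i‖ ^ 2 := by
        nlinarith [sq_nonneg ‖(c : ℂ) / w i‖]
      rw [show w i * log (1 + c / w i) - c = w i * (log (1 + c / w i) - c / w i) by field_simp,
        norm_mul]
      refine (mul_le_mul_of_nonneg_left h4 hp.le).trans (le_of_eq ?_)
      rw [norm_div, norm_inv, norm_real, Real.norm_eq_abs, div_pow, sq_abs]
      field_simp
    · simpa using hinv.norm.const_mul (c ^ 2)
  have hsec : ∀ᶠ i in l, w i + c ∈ Sec (η / 4) ∧ ‖w i‖ / 2 ≤ ‖w i + c‖ ∧ 2 ≤ ‖w i‖ ∧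
      2 * |c| ≤ ‖w i‖ ∧ w i ∈ slitPlane := by
    filter_upwards [hw, hbig (4 * |c| / η), hbig 2, hbig (2 * |c|)] with i h1 h2 h3 h4
    refine ⟨Sec.add_small hη hη1 h1 ?_, ?_, h3, h4, Sec.slitPlane hη h1 ?_⟩
    · rw [norm_real, Real.norm_eq_abs]; rw [div_le_iff₀ hη] at h2; linarith
    · have := norm_sub_le (w i + c) c
      rw [add_sub_cancel_right, norm_real, Real.norm_eq_abs] at this
      linarith
    · intro h; rw [h] at h3; simp at h3; linarith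
  have hmu : Tendsto (fun i => muS (w i + c)) l (𝓝 0) := by
    refine squeeze_zero_norm' (a := fun i => 8 / η * ‖(w i)⁻¹‖) ?_ ?_
    · filter_upwards [hsec] with i ⟨a1, a2, a3, _, _⟩
      refine (norm_muS_le (by positivity) (by linarith) a1 (by linarith)).trans ?_
      rw [norm_inv]
      calc 1 / (η / 4) / ‖w i + c‖ ≤ 1 / (η / 4) / (‖w i‖ / 2) := by gcongr
        _ = _ := by field_simp; ring
    · simpa using hinv.norm.const_mul (8 / η)
  have h5 := ((continuous_exp.tendsto _).comp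
    ((h1.add (hlog.const_mul ((c : ℂ) - 1 / 2))).add hmu)).const_mul stirC
  simp only [mul_zero, add_zero, exp_zero, mul_one] at h5
  refine h5.congr' ?_
  filter_upwards [hsec] with i ⟨a1, a2, a3, a4, a5⟩
  simp only [Function.comp, GA]
  rw [Gamma_eq_stirling (by positivity) (by linarith) a1 (by linarith), mul_assoc, ← exp_add, ell,
    log_add_eq a5 a4, LL]
  congr 2; ring

theorem eventually_sec {ζ : ℂ} (h : ζ ∈ slitPlane) :
    ∃ η : ℝ, 0 < η ∧ η ≤ 1 ∧ ∀ᶠ z in 𝓝 ζ, z ∈ Sec η ∧ η ≤ ‖z‖ := by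
  have h0 : 0 < ‖ζ‖ := norm_pos_iff.2 (slitPlane_ne_zero h)
  have h1 : 0 < ‖ζ‖ + ζ.re := by
    rcases h with h | h
    · linarith
    · have := abs_re_lt_norm.2 h
      linarith [neg_abs_le ζ.re]
  refine ⟨min (min 1 (‖ζ‖ / 2)) ((‖ζ‖ + ζ.re) / (2 * ‖ζ‖)), by positivity,
    (min_le_left _ _).trans (min_le_left _ _), ?_⟩
  set η := min (min 1 (‖ζ‖ / 2)) ((‖ζ‖ + ζ.re) / (2 * ‖ζ‖)) with hη
  have h2 : η * ‖ζ‖ < ‖ζ‖ + ζ.re := by
    have : η ≤ (‖ζ‖ + ζ.re) / (2 * ‖ζ‖) := min_le_right _ _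
    rw [le_div_iff₀ (by positivity)] at this
    linarith
  have h3 : η < ‖ζ‖ := by
    have : η ≤ ‖ζ‖ / 2 := (min_le_left _ _).trans (min_le_right _ _)
    linarith
  have e1 : ∀ᶠ z in 𝓝 ζ, η * ‖z‖ < ‖z‖ + z.re :=
    ContinuousAt.eventually_lt (by fun_prop) (by fun_prop) h2
  have e2 : ∀ᶠ z in 𝓝 ζ, η < ‖z‖ := ContinuousAt.eventually_lt (by fun_prop) (by fun_prop) h3
  filter_upwards [e1, e2] with z a b using ⟨a.le, b.le⟩

theorem tendsto_GA_scaled (c : ℝ) {t₀ : ℂ} {ζ : ℂ → ℂ} (hζ : ContinuousAt ζ t₀)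
    (h : ζ t₀ ∈ slitPlane) :
    Tendsto (fun p : ℕ × ℂ => GA c (p.1 * ζ p.2)) (atTop ×ˢ 𝓝 t₀) (𝓝 stirC) := by
  obtain ⟨η, h0, h1, he⟩ := eventually_sec h
  have he' : ∀ᶠ p : ℕ × ℂ in atTop ×ˢ 𝓝 t₀, ζ p.2 ∈ Sec η ∧ η ≤ ‖ζ p.2‖ :=
    (hζ.tendsto.comp tendsto_snd).eventually he
  refine tendsto_GA h0 h1 c ?_ ?_
  · filter_upwards [he'] with p hp
    simpa using Sec.smul (Nat.cast_nonneg p.1) hp.1
  · refine tendsto_atTop_mono' _ (f₁ := fun p : ℕ × ℂ => (p.1 : ℝ) * η) ?_ ?_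
    · filter_upwards [he'] with p hp
      rw [norm_mul, Complex.norm_natCast]
      exact mul_le_mul_of_nonneg_left hp.2 (Nat.cast_nonneg _)
    · exact (tendsto_natCast_atTop_atTop.comp tendsto_fst).atTop_mul_const h0

theorem Gamma_eq_GA (c : ℝ) (w : ℂ) :
    Gamma (w + c) = GA c w * exp (LL w + (c - 1 / 2) * log w) := by
  rw [GA, mul_assoc, ← exp_add]; simp

theorem Gamma_half_eq (w : ℂ) : Gamma (w + 1 / 2) = GA (1 / 2) w * exp (LL w) := by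
  have := Gamma_eq_GA (1 / 2) w
  simpa using this

theorem T0_eq_GA (r s : ℕ) {n : ℕ} (hn : 0 < n) {t : ℂ} (ht : 1 + t ≠ 0) :
    T0 r s n (n * t) * ((n : ℝ) ^ (((r + s : ℕ) : ℝ) / 2) : ℝ) =
      GA 0 (n * 1) ^ r * (GA 0 (n * 1))⁻¹ ^ s * GA (-1 / 2) (n * (1 + t)) ^ s * (1 + t)⁻¹ ^ s *
        exp (Phi0 r s n (n * t)) := by
  have hn' : (0 : ℝ) < n := by exact_mod_cast hn
  have e0 := Gamma_eq_GA 0 n
  have e1 := Gamma_eq_GA (-1 / 2) (n * (1 + t))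
  rw [ofReal_zero, add_zero] at e0
  rw [show (n : ℂ) * (1 + t) + ((-1 / 2 : ℝ) : ℂ) = n + n * t - 1 / 2 by push_cast; ring] at e1
  have e2 : log (n * (1 + t)) = Real.log n + log (1 + t) := by
    rw [← log_ofReal_mul hn' ht, ofReal_natCast]
  have e3 : log (n : ℂ) = Real.log n := by rw [ofReal_log hn'.le, ofReal_natCast]
  have e4 : (1 + t)⁻¹ = exp (-log (1 + t)) := by rw [exp_neg, exp_log ht]
  rw [T0, e0, e1, e2, e3, e4, Real.rpow_def_of_pos hn', ofReal_exp, mul_one, mul_inv, mul_pow,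
    mul_pow, mul_pow, ← exp_neg, ← exp_nat_mul, ← exp_nat_mul, ← exp_nat_mul, ← exp_nat_mul, Phi0,
    ← mul_one_add]
  have key : ∀ a b c d e f : ℂ, a + b + c + d = e + f →
      exp a * exp b * exp c * exp d = exp e * exp f := by
    intro a b c d e f h
    rw [← exp_add, ← exp_add, ← exp_add, ← exp_add, h]
  have := key (r * (LL n + (0 - 1 / 2) * Real.log n)) (s * -(LL n + (0 - 1 / 2) * Real.log n))
    (s * (LL (n * (1 + t)) + (((-1 / 2 : ℝ) : ℂ) - 1 / 2) * (Real.log n + log (1 + t))))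
    ((Real.log n * (((r + s : ℕ) : ℝ) / 2) : ℝ) : ℂ) (s * -log (1 + t))
    ((r - s) * LL n + s * LL (n * (1 + t))) (by push_cast; ring)
  linear_combination (GA 0 n ^ r * (GA 0 n)⁻¹ ^ s * GA (-1 / 2) (n * (1 + t)) ^ s) * this

theorem tendsto_amp0 (r s : ℕ) {t₀ : ℂ} (h1 : 1 + t₀ ∈ slitPlane) :
    Tendsto (fun p : ℕ × ℂ => GA 0 (p.1 * 1) ^ r * (GA 0 (p.1 * 1))⁻¹ ^ s *
      GA (-1 / 2) (p.1 * (1 + p.2)) ^ s * (1 + p.2)⁻¹ ^ s) (atTop ×ˢ 𝓝 t₀)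
      (𝓝 (stirC ^ r * stirC⁻¹ ^ s * stirC ^ s * (1 + t₀)⁻¹ ^ s)) := by
  have a0 := tendsto_GA_scaled 0 (t₀ := t₀) (ζ := fun _ => 1) continuousAt_const (by simp)
  have a1 := tendsto_GA_scaled (-1 / 2) (t₀ := t₀) (ζ := fun t => 1 + t) (by fun_prop) h1
  exact (((a0.pow r).mul ((a0.inv₀ stirC_ne_zero).pow s)).mul (a1.pow s)).mul
    (((tendsto_snd.const_add 1).inv₀ (slitPlane_ne_zero h1)).pow s)

theorem eventually_amp {t₀ : ℂ} (h1 : 1 + t₀ ∈ slitPlane) :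
    ∀ᶠ p : ℕ × ℂ in atTop ×ˢ 𝓝 t₀, 0 < p.1 ∧ 1 + p.2 ≠ 0 :=
  (tendsto_fst.eventually (eventually_gt_atTop 0)).and
    ((tendsto_snd.const_add 1).eventually_ne (slitPlane_ne_zero h1))

theorem tendsto_amp_TT (r s : ℕ) {t₀ : ℂ} (h1 : 1 + t₀ ∈ slitPlane) (h2 : t₀ ∈ slitPlane)
    (h3 : 1 - t₀ ∈ slitPlane) : ∃ g : ℂ, g ≠ 0 ∧
    Tendsto (fun p : ℕ × ℂ => TT r s p.1 (p.1 * p.2) * ((p.1 : ℝ) ^ (((r + s : ℕ) : ℝ) / 2) : ℝ) *
      exp (-(p.1 * PhiT r s 1 p.2))) (atTop ×ˢ 𝓝 t₀) (𝓝 g) := by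
  have a2 := tendsto_GA_scaled (1 / 2) (t₀ := t₀) (ζ := fun t => t) (by fun_prop) h2
  have a3 := tendsto_GA_scaled (1 / 2) (t₀ := t₀) (ζ := fun t => 1 - t) (by fun_prop) h3
  have hs := stirC_ne_zero
  have ht := slitPlane_ne_zero h1
  refine ⟨_, by positivity, (((tendsto_amp0 r s h1).mul ((a2.inv₀ hs).pow (r + s))).mul
    ((a3.inv₀ hs).pow r)).congr' ?_⟩
  filter_upwards [eventually_amp h1] with p ⟨hp, hp'⟩
  have e := T0_eq_GA r s hp hp'
  have e2 := PhiT_smul r s (ρ := p.1) (by exact_mod_cast hp) 1 p.2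
  rw [ofReal_natCast, mul_one] at e2
  rw [TT, ← e2, PhiT, Gamma_half_eq, Gamma_half_eq, ← mul_one_sub, mul_inv, mul_inv, mul_pow,
    mul_pow, ← exp_neg, ← exp_neg, ← exp_nat_mul, ← exp_nat_mul]
  have key : exp (Phi0 r s p.1 (p.1 * p.2)) * exp ((r + s : ℕ) * -LL (p.1 * p.2)) *
      exp (r * -LL (p.1 * (1 - p.2))) * exp (-(Phi0 r s p.1 (p.1 * p.2) -
        (r + s) * LL (p.1 * p.2) - r * LL (p.1 * (1 - p.2)))) = 1 := by
    rw [← exp_add, ← exp_add, ← exp_add, ← exp_zero]; congr 1; push_cast; ring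
  set a := GA 0 (p.1 * 1) ^ r * (GA 0 (p.1 * 1))⁻¹ ^ s * GA (-1 / 2) (p.1 * (1 + p.2)) ^ s *
    (1 + p.2)⁻¹ ^ s
  set b := (GA (1 / 2) (p.1 * p.2))⁻¹ ^ (r + s)
  set c := (GA (1 / 2) (p.1 * (1 - p.2)))⁻¹ ^ r
  linear_combination (-a * b * c) * key - b * c * exp ((r + s : ℕ) * -LL (p.1 * p.2)) *
      exp (r * -LL (p.1 * (1 - p.2))) * exp (-(Phi0 r s p.1 (p.1 * p.2) -
        (r + s) * LL (p.1 * p.2) - r * LL (p.1 * (1 - p.2)))) * e

theorem tendsto_amp_TH (r s : ℕ) {t₀ : ℂ} (h1 : 1 + t₀ ∈ slitPlane) (h2 : -t₀ ∈ slitPlane)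
    (h3 : 1 - t₀ ∈ slitPlane) : ∃ g : ℂ, g ≠ 0 ∧
    Tendsto (fun p : ℕ × ℂ => TH r s p.1 (p.1 * p.2) * ((p.1 : ℝ) ^ (((r + s : ℕ) : ℝ) / 2) : ℝ) *
      exp (-(p.1 * PhiH r s 1 p.2))) (atTop ×ˢ 𝓝 t₀) (𝓝 g) := by
  have a2 := tendsto_GA_scaled (1 / 2) (t₀ := t₀) (ζ := fun t => -t) (by fun_prop) h2
  have a3 := tendsto_GA_scaled (1 / 2) (t₀ := t₀) (ζ := fun t => 1 - t) (by fun_prop) h3
  have hs := stirC_ne_zero
  have ht := slitPlane_ne_zero h1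
  refine ⟨_, by positivity, (((tendsto_amp0 r s h1).mul (a2.pow (r + s))).mul
    ((a3.inv₀ hs).pow r)).congr' ?_⟩
  filter_upwards [eventually_amp h1] with p ⟨hp, hp'⟩
  have e := T0_eq_GA r s hp hp'
  have e2 := PhiH_smul r s (ρ := p.1) (by exact_mod_cast hp) 1 p.2
  rw [ofReal_natCast, mul_one] at e2
  rw [TH, ← e2, PhiH, show 1 / 2 - (p.1 : ℂ) * p.2 = p.1 * -p.2 + 1 / 2 by ring, Gamma_half_eq,
    Gamma_half_eq, ← mul_one_sub, ← mul_neg, mul_inv, mul_pow,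
    mul_pow, ← exp_neg, ← exp_nat_mul, ← exp_nat_mul]
  have key : exp (Phi0 r s p.1 (p.1 * p.2)) * exp ((r + s : ℕ) * LL (p.1 * -p.2)) *
      exp (r * -LL (p.1 * (1 - p.2))) * exp (-(Phi0 r s p.1 (p.1 * p.2) +
        (r + s) * LL (p.1 * -p.2) - r * LL (p.1 * (1 - p.2)))) = 1 := by
    rw [← exp_add, ← exp_add, ← exp_add, ← exp_zero]; congr 1; push_cast; ring
  set a := GA 0 (p.1 * 1) ^ r * (GA 0 (p.1 * 1))⁻¹ ^ s * GA (-1 / 2) (p.1 * (1 + p.2)) ^ s *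
    (1 + p.2)⁻¹ ^ s
  set b := (GA (1 / 2) (p.1 * -p.2)) ^ (r + s)
  set c := (GA (1 / 2) (p.1 * (1 - p.2)))⁻¹ ^ r
  linear_combination (-a * b * c) * key - b * c * exp ((r + s : ℕ) * LL (p.1 * -p.2)) *
      exp (r * -LL (p.1 * (1 - p.2))) * exp (-(Phi0 r s p.1 (p.1 * p.2) +
        (r + s) * LL (p.1 * -p.2) - r * LL (p.1 * (1 - p.2)))) * e

theorem tendsto_amp_TW (r s : ℕ) {t₀ : ℂ} (h1 : 1 + t₀ ∈ slitPlane) (h2 : t₀ ∈ slitPlane)
    (h3 : t₀ - 1 ∈ slitPlane) : ∃ g : ℂ, g ≠ 0 ∧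
    Tendsto (fun p : ℕ × ℂ => TW r s p.1 (p.1 * p.2) * ((p.1 : ℝ) ^ (((r + s : ℕ) : ℝ) / 2) : ℝ) *
      exp (-(p.1 * PhiW r s 1 p.2))) (atTop ×ˢ 𝓝 t₀) (𝓝 g) := by
  have a2 := tendsto_GA_scaled (1 / 2) (t₀ := t₀) (ζ := fun t => t) (by fun_prop) h2
  have a3 := tendsto_GA_scaled (1 / 2) (t₀ := t₀) (ζ := fun t => t - 1) (by fun_prop) h3
  have hs := stirC_ne_zero
  have ht := slitPlane_ne_zero h1
  refine ⟨_, by positivity, (((tendsto_amp0 r s h1).mul ((a2.inv₀ hs).pow (r + s))).mul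
    (a3.pow r)).congr' ?_⟩
  filter_upwards [eventually_amp h1] with p ⟨hp, hp'⟩
  have e := T0_eq_GA r s hp hp'
  have e2 := PhiW_smul r s (ρ := p.1) (by exact_mod_cast hp) 1 p.2
  rw [ofReal_natCast, mul_one] at e2
  rw [TW, ← e2, PhiW, Gamma_half_eq, Gamma_half_eq, ← mul_sub_one, mul_inv, mul_pow,
    mul_pow, ← exp_neg, ← exp_nat_mul, ← exp_nat_mul]
  have key : exp (Phi0 r s p.1 (p.1 * p.2)) * exp ((r + s : ℕ) * -LL (p.1 * p.2)) *
      exp (r * LL (p.1 * (p.2 - 1))) * exp (-(Phi0 r s p.1 (p.1 * p.2) -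
        (r + s) * LL (p.1 * p.2) + r * LL (p.1 * (p.2 - 1)))) = 1 := by
    rw [← exp_add, ← exp_add, ← exp_add, ← exp_zero]; congr 1; push_cast; ring
  set a := GA 0 (p.1 * 1) ^ r * (GA 0 (p.1 * 1))⁻¹ ^ s * GA (-1 / 2) (p.1 * (1 + p.2)) ^ s *
    (1 + p.2)⁻¹ ^ s
  set b := (GA (1 / 2) (p.1 * p.2))⁻¹ ^ (r + s)
  set c := (GA (1 / 2) (p.1 * (p.2 - 1))) ^ r
  linear_combination (-a * b * c) * key - b * c * exp ((r + s : ℕ) * -LL (p.1 * p.2)) *
      exp (r * LL (p.1 * (p.2 - 1))) * exp (-(Phi0 r s p.1 (p.1 * p.2) -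
        (r + s) * LL (p.1 * p.2) + r * LL (p.1 * (p.2 - 1)))) * e

/-- The local contribution of a saddle point. -/
theorem laplace_seg {F : ℕ → ℂ → ℂ} {Φ Φ' : ℂ → ℂ} {t₀ d Ψ g : ℂ} {β : ℝ} (hd : d ≠ 0)
    (hΦ : ∀ᶠ t in 𝓝 t₀, HasDerivAt Φ (Φ' t) t) (h0 : Φ' t₀ = 0) (hΨ : HasDerivAt Φ' Ψ t₀)
    (hre : (d ^ 2 * Ψ).re < 0) (hg : g ≠ 0)
    (hc : ∀ᶠ p : ℕ × ℂ in atTop ×ˢ 𝓝 t₀, ContinuousAt (F p.1) (p.1 * p.2))
    (hamp : Tendsto (fun p : ℕ × ℂ => F p.1 (p.1 * p.2) * ((p.1 : ℝ) ^ β : ℝ) *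
      exp (-(p.1 * Φ p.2))) (atTop ×ˢ 𝓝 t₀) (𝓝 g)) :
    ∃ c : ℂ, c ≠ 0 ∧ ∃ δ₁ : ℝ, 0 < δ₁ ∧ ∀ δ : ℝ, 0 < δ → δ ≤ δ₁ →
      (Φ (t₀ + δ * d)).re < (Φ t₀).re ∧ (Φ (t₀ - δ * d)).re < (Φ t₀).re ∧
      Tendsto (fun n : ℕ => seg (F n) (n * (t₀ - δ * d)) (n * (t₀ + δ * d)) *
        ((n : ℝ) ^ (β - 1 / 2) : ℝ) / exp (n * Φ t₀)) atTop (𝓝 c) := by
  have hline : Tendsto (fun v : ℝ => t₀ + v * d) (𝓝 0) (𝓝 t₀) := by
    have : Continuous fun v : ℝ => t₀ + v * d := by fun_prop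
    simpa using this.tendsto 0
  have hb : ∀ᶠ p : ℕ × ℂ in atTop ×ˢ 𝓝 t₀, ‖F p.1 (p.1 * p.2) * ((p.1 : ℝ) ^ β : ℝ) *
      exp (-(p.1 * Φ p.2))‖ ≤ ‖g‖ + 1 :=
    hamp.norm.eventually_le_const (by linarith)
  obtain ⟨pa, hpa, pb, hpb, hp⟩ := eventually_prod_iff.1 (hb.and hc)
  obtain ⟨ε, hε, hεb⟩ := Metric.eventually_nhds_iff.1 (hline.eventually (hpb.and hΦ))
  have hI : ∀ v ∈ Icc (-(ε / 2)) (ε / 2), pb (t₀ + v * d) ∧
      HasDerivAt Φ (Φ' (t₀ + v * d)) (t₀ + v * d) := fun v hv => hεb (by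
    rw [Real.dist_eq, sub_zero, abs_lt]; constructor <;> linarith [hv.1, hv.2])
  have hl : ∀ v : ℝ, HasDerivAt (fun v : ℝ => t₀ + v * d) d v := fun v => by
    simpa using (((hasDerivAt_id v).ofReal_comp).mul_const d).const_add t₀
  obtain ⟨c, hc0, δ₁, hδ₁, hδε, H⟩ := laplace_local (fun v => Φ (t₀ + v * d))
    (fun v => Φ' (t₀ + v * d) * d) (d ^ 2 * Ψ) g (ε / 2) (‖g‖ + 1) (half_pos hε)
    (fun n v => F n (n * (t₀ + v * d)) * ((n : ℝ) ^ β : ℝ) * exp (-(n * Φ (t₀ + v * d))))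
    (fun v hv => (hI v hv).2.comp_of_eq v (hl v) rfl) (by simp [h0])
    (((hΨ.comp_of_eq (0 : ℝ) (hl 0) (by simp)).mul_const d).congr_deriv (by ring)) hre
    (by
      filter_upwards [hpa] with n hn v hv
      have c1 : ContinuousAt (fun v : ℝ => F n (n * (t₀ + v * d))) v :=
        ContinuousAt.comp (f := fun v : ℝ => (n : ℂ) * (t₀ + v * d)) (hp hn (hI v hv).1).2
          (by fun_prop)
      have c2 : ContinuousAt (fun v : ℝ => Φ (t₀ + v * d)) v :=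
        ContinuousAt.comp (f := fun v : ℝ => t₀ + v * d) (hI v hv).2.continuousAt (by fun_prop)
      exact ((c1.mul continuousAt_const).mul (c2.const_mul _).neg.cexp).continuousWithinAt)
    (by filter_upwards [hpa] with n hn v hv using (hp hn (hI v hv).1).1)
    (fun u => hamp.comp (tendsto_id.prodMk (hline.comp
      (tendsto_const_nhds.div_atTop (Real.tendsto_sqrt_atTop.comp tendsto_natCast_atTop_atTop)))))
  refine ⟨d * (g * c), mul_ne_zero hd (mul_ne_zero hg hc0), δ₁, hδ₁, fun δ h1 h2 => ?_⟩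
  obtain ⟨a1, a2, a3⟩ := H δ h1 h2
  refine ⟨by simpa using a1, by simpa [sub_eq_add_neg] using a2, (a3.const_mul d).congr' ?_⟩
  filter_upwards [eventually_gt_atTop 0] with n hn
  have hn' : (0 : ℝ) < n := by exact_mod_cast hn
  have e := seg_param (F n) (n * t₀) (n * d) (-δ) δ
  rw [show (n : ℂ) * t₀ + ((-δ : ℝ) : ℂ) * (n * d) = n * (t₀ - δ * d) by push_cast; ring,
    show (n : ℂ) * t₀ + δ * (n * d) = n * (t₀ + δ * d) by ring] at e
  rw [e, ← intervalIntegral.integral_const_mul, ← intervalIntegral.integral_const_mul,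
    ← intervalIntegral.integral_mul_const, ← intervalIntegral.integral_div]
  refine intervalIntegral.integral_congr fun v _ => ?_
  have e1 : Real.sqrt n * (n : ℝ) ^ β = n * (n : ℝ) ^ (β - 1 / 2) := by
    rw [Real.sqrt_eq_rpow, ← Real.rpow_add hn', mul_comm, ← Real.rpow_add_one hn'.ne']
    congr 1; ring
  have e2 : ((Real.sqrt n : ℝ) : ℂ) * (((n : ℝ) ^ β : ℝ) : ℂ) = n * (((n : ℝ) ^ (β - 1 / 2) : ℝ) : ℂ) := by
    exact_mod_cast e1
  have e3 : exp (-(n * Φ (t₀ + v * d))) * exp (n * (Φ (t₀ + v * d) - Φ (t₀ + (0 : ℝ) * d))) =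
      (exp (n * Φ t₀))⁻¹ := by
    rw [← exp_add, ← exp_neg]; congr 1; simp; ring
  rw [show (n : ℂ) * t₀ + v * (n * d) = n * (t₀ + v * d) by ring, div_eq_mul_inv, ← e3]
  linear_combination (d * F n (n * (t₀ + v * d)) * exp (-(n * Φ (t₀ + v * d))) *
    exp (n * (Φ (t₀ + v * d) - Φ (t₀ + (0 : ℝ) * d)))) * e2

end Pool.Agent.MP_6026f4_co

end
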