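import Pool.Agent.Mg.F6026f4p.G9c4e23

namespace Pool.Agent.MP_6026f4_co

open Complex Set

namespace S4

theorem arg_eq_arctan {z : ℂ} (h : 0 < z.re) : arg z = Real.arctan (z.im / z.re) := by
  have h1 : |arg z| < Real.pi / 2 := abs_arg_lt_pi_div_two_iff.2 (Or.inl h)
  rw [← tan_arg, Real.arctan_tan (abs_lt.1 h1).1 (abs_lt.1 h1).2]

theorem arctan_add_le {a b : ℝ} (ha : 0 ≤ a) (hb : 0 ≤ b) (h : a * b < 1) :
    Real.arctan (a + b) ≤ Real.arctan a + Real.arctan b := by
  rw [Real.arctan_add h]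
  apply Real.arctan_strictMono.monotone
  rw [le_div_iff₀ (by linarith)]
  nlinarith [mul_nonneg ha hb]

theorem re_LL_I {y : ℝ} (hy : 0 ≤ y) : (LL (y * I)).re = -(Real.pi * y / 2) := by
  rcases hy.eq_or_lt with rfl | hy
  · simp [LL]
  · rw [LL_ofReal_mul hy]
    simp [LL, log_I]
    ring

theorem re_LL_negI {y : ℝ} (hy : 0 ≤ y) : (LL (-(y * I))).re = -(Real.pi * y / 2) := by
  rcases hy.eq_or_lt with rfl | hy
  · simp [LL]
  · rw [← mul_neg, LL_ofReal_mul hy]
    simp [LL, log_neg_I]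
    ring

theorem hasDerivAt_re_LL (c d : ℂ) (v : ℝ) (h : c + v * d ∈ slitPlane) :
    HasDerivAt (fun v : ℝ => (LL (c + v * d)).re) (d * log (c + v * d)).re v := by
  have h1 : HasDerivAt (fun w : ℂ => LL (c + w * d)) (log (c + v * d) * d) (v : ℂ) := by
    have := (hasDerivAt_LL h).comp (v : ℂ) (((hasDerivAt_id (v : ℂ)).mul_const d).const_add c)
    simpa [Function.comp_def] using this
  rw [mul_comm]
  exact h1.real_of_complex

theorem exists_saddle (r s : ℕ) (hr : 4 ≤ r) (hs : 1 ≤ s) :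
    ∃ t : ℂ, 0 < t.im ∧ t.re ^ 2 + t.im ^ 2 < t.re ∧
      s * log (1 + t) - (r + s) * log t + r * log (1 - t) + 2 * Real.pi * I = 0 := by
  have hr' : (4 : ℝ) ≤ r := by exact_mod_cast hr
  have hs' : (1 : ℝ) ≤ s := by exact_mod_cast hs
  have hpi := Real.pi_pos
  set hi : ℝ := 2 * Real.pi / (r + s) with hhi
  let w : ℝ → ℝ := fun α => (2 * Real.pi - s * α) / r
  let G : ℝ → ℝ := fun α =>
    (2 * Real.sin (w α)) ^ s * (2 * Real.sin α) ^ r - Real.sin (w α - α) ^ (r + s)
  have hG : Continuous G := by fun_prop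
  have hi0 : 0 < hi := by positivity
  have hi1 : hi < Real.pi := by
    rw [hhi, div_lt_iff₀ (by positivity)]; nlinarith
  have hw0 : w 0 ≤ Real.pi / 2 := by
    simp only [w, mul_zero, sub_zero]
    rw [div_le_div_iff₀ (by positivity) (by norm_num)]; nlinarith
  have hwhi : w hi = hi := by
    simp only [w, hhi]; field_simp; ring
  have h0 : G 0 < 0 := by
    have h1 : 0 < Real.sin (w 0) :=
      Real.sin_pos_of_pos_of_lt_pi (by simp only [w, mul_zero, sub_zero]; positivity) (by linarith)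
    simp only [G, Real.sin_zero, mul_zero, sub_zero, zero_pow (by omega : r ≠ 0), zero_sub,
      neg_lt_zero]
    positivity
  have h1 : 0 < G hi := by
    have h1 : 0 < Real.sin hi := Real.sin_pos_of_pos_of_lt_pi hi0 hi1
    simp only [G, hwhi, sub_self, Real.sin_zero, zero_pow (by omega : r + s ≠ 0), sub_zero]
    positivity
  obtain ⟨α, ⟨a0, a1⟩, hα⟩ := intermediate_value_Ioo hi0.le hG.continuousOn ⟨h0, h1⟩
  set ω := w α with hω
  have e0 : s * α + r * ω = 2 * Real.pi := by simp only [hω, w]; field_simp; ring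
  have b1 : α < ω := by
    rw [hhi, lt_div_iff₀ (by positivity)] at a1
    nlinarith
  have b2 : ω < Real.pi / 2 := by nlinarith [mul_pos (by linarith : (0 : ℝ) < s) a0]
  have s1 : 0 < Real.sin α := Real.sin_pos_of_pos_of_lt_pi a0 (by linarith)
  have s2 : 0 < Real.sin ω := Real.sin_pos_of_pos_of_lt_pi (by linarith) (by linarith)
  have s3 : 0 < Real.sin (ω - α) := Real.sin_pos_of_pos_of_lt_pi (by linarith) (by linarith)
  have c2 : 0 < Real.cos ω := Real.cos_pos_of_mem_Ioo ⟨by linarith, b2⟩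
  set ρ1 := 2 * Real.sin ω / Real.sin (ω - α) with hρ1
  set ρ2 := 2 * Real.sin α / Real.sin (ω - α) with hρ2
  have p1 : 0 < ρ1 := by positivity
  have p2 : 0 < ρ2 := by positivity
  have e1 : s * Real.log ρ1 + r * Real.log ρ2 = 0 := by
    rw [← Real.log_pow, ← Real.log_pow, ← Real.log_mul (by positivity) (by positivity)]
    have : ρ1 ^ s * ρ2 ^ r = 1 := by
      have h2 : (2 * Real.sin ω) ^ s * (2 * Real.sin α) ^ r = Real.sin (ω - α) ^ (r + s) := by
        have := hα
        simp only [G] at this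
        linarith
      rw [hρ1, hρ2, div_pow, div_pow, div_mul_div_comm, h2, ← pow_add, add_comm, div_self]
      positivity
    rw [this, Real.log_one]
  have e2 : ρ1 * Real.cos α = 2 + ρ2 * Real.cos ω := by
    rw [hρ1, hρ2]; field_simp; rw [Real.sin_sub]; ring
  have e3 : ρ1 * Real.sin α = ρ2 * Real.sin ω := by
    rw [hρ1, hρ2]; ring
  set v : ℂ := 1 + ρ2 * exp (-(ω * I)) with hv
  have hvre : v.re = 1 + ρ2 * Real.cos ω := by
    simp [hv, exp_re]
  have hvim : v.im = -(ρ2 * Real.sin ω) := by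
    simp [hv, exp_im]
  have hv1 : v + 1 = ρ1 * exp (-(α * I)) := by
    apply Complex.ext
    · simp [hvre, exp_re]; linarith
    · simp [hvim, exp_im]; linarith
  have hn : 0 < normSq v := by
    rw [normSq_apply, hvre]
    nlinarith [mul_pos p2 c2, mul_self_nonneg v.im]
  have hv0 : v ≠ 0 := normSq_pos.1 hn
  have tre : (v⁻¹).re = v.re / normSq v := inv_re v
  have tim : (v⁻¹).im = ρ2 * Real.sin ω / normSq v := by rw [inv_im, hvim, neg_neg]
  have hx : 0 < (v⁻¹).re := by rw [tre, hvre]; positivity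
  have hy : 0 < (v⁻¹).im := by rw [tim]; positivity
  have ha1 : 0 ≤ arg v⁻¹ := arg_nonneg_iff.2 hy.le
  have ha2 : arg v⁻¹ < Real.pi / 2 := (abs_lt.1 (abs_arg_lt_pi_div_two_iff.2 (Or.inl hx))).2
  have key : ∀ ρ β : ℝ, 0 < ρ → 0 < β → β < Real.pi / 2 →
      log (ρ * exp (-(β * I)) * v⁻¹) = Real.log ρ - β * I + log v⁻¹ := by
    intro ρ β h1 h2 h3
    have : (ρ : ℂ) * exp (-(β * I)) * v⁻¹ = exp (Real.log ρ - β * I + log v⁻¹) := by
      rw [exp_add, exp_log (inv_ne_zero hv0), sub_eq_add_neg, exp_add, ← ofReal_exp,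
        Real.exp_log h1]
    rw [this, log_exp]
    · simp [log_im]; linarith
    · simp [log_im]; linarith
  refine ⟨v⁻¹, hy, ?_, ?_⟩
  · have h2 : (v⁻¹).re ^ 2 + (v⁻¹).im ^ 2 = (normSq v)⁻¹ := by
      rw [← normSq_inv, normSq_apply]; ring
    rw [h2, tre, hvre, inv_eq_one_div]
    gcongr
    nlinarith [mul_pos p2 c2]
  · have f1 : 1 + v⁻¹ = ρ1 * exp (-(α * I)) * v⁻¹ := by
      rw [← hv1]; field_simp
    have f2 : 1 - v⁻¹ = ρ2 * exp (-(ω * I)) * v⁻¹ := by
      have : (ρ2 : ℂ) * exp (-(ω * I)) = v - 1 := by rw [hv]; ring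
      rw [this]; field_simp
    rw [f1, f2, key ρ1 α p1 a0 (by linarith), key ρ2 ω p2 (by linarith) b2]
    have g0 : (s : ℂ) * α + r * ω = 2 * Real.pi := by exact_mod_cast e0
    have g1 : (s : ℂ) * Real.log ρ1 + r * Real.log ρ2 = 0 := by exact_mod_cast e1
    linear_combination g1 - I * g0

/-- The horizontal derivative. -/
noncomputable def aa (r s : ℕ) (y x : ℝ) : ℝ :=
  (s * log (1 + (x + y * I)) - (r + s) * log (x + y * I) + r * log (1 - (x + y * I)) : ℂ).re

theorem slit1 {y : ℝ} (hy : 0 < y) (x : ℝ) : (x + y * I : ℂ) ∈ slitPlane :=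
  Or.inr (by simpa using hy.ne')

theorem slit2 {y : ℝ} (hy : 0 < y) (x : ℝ) : (1 + (x + y * I) : ℂ) ∈ slitPlane :=
  Or.inr (by simpa using hy.ne')

theorem slit3 {y : ℝ} (hy : 0 < y) (x : ℝ) : (1 - (x + y * I) : ℂ) ∈ slitPlane :=
  Or.inr (by simpa using hy.ne')

theorem hasDerivAt_PhiT (r s : ℕ) {y : ℝ} (hy : 0 < y) (x : ℝ) :
    HasDerivAt (fun x : ℝ => (PhiT r s 1 (x + y * I)).re) (aa r s y x) x := by
  have h0 : HasDerivAt (fun w : ℂ => w + y * I) 1 (x : ℂ) := (hasDerivAt_id _).add_const _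
  have h1 := (hasDerivAt_LL (slit1 hy x)).comp (x : ℂ) h0
  have h2 := (hasDerivAt_LL (slit2 hy x)).comp (x : ℂ) (h0.const_add 1)
  have h3 := (hasDerivAt_LL (slit3 hy x)).comp (x : ℂ) (h0.const_sub 1)
  have h4 : HasDerivAt (fun w : ℂ => PhiT r s 1 (w + y * I))
      (s * log (1 + (x + y * I)) - (r + s) * log (x + y * I) + r * log (1 - (x + y * I)))
      (x : ℂ) := by
    have := (((h2.const_mul (s : ℂ)).const_add ((r - s) * LL 1)).sub
      (h1.const_mul ((r : ℂ) + s))).sub (h3.const_mul (r : ℂ))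
    refine HasDerivAt.congr_deriv this ?_
    ring
  exact h4.real_of_complex

theorem hasDerivAt_aa (r s : ℕ) {y : ℝ} (hy : 0 < y) (x : ℝ) :
    HasDerivAt (aa r s y) (s / (1 + (x + y * I)) - (r + s) / (x + y * I) -
      r / (1 - (x + y * I)) : ℂ).re x := by
  have h0 : HasDerivAt (fun w : ℂ => w + y * I) 1 (x : ℂ) := (hasDerivAt_id _).add_const _
  have h1 := h0.clog (slit1 hy x)
  have h2 := (h0.const_add 1).clog (slit2 hy x)
  have h3 := (h0.const_sub 1).clog (slit3 hy x)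
  have h4 : HasDerivAt (fun w : ℂ => s * log (1 + (w + y * I)) - (r + s) * log (w + y * I) +
      r * log (1 - (w + y * I)))
      (s / (1 + (x + y * I)) - (r + s) / (x + y * I) - r / (1 - (x + y * I))) (x : ℂ) := by
    have := ((h2.const_mul (s : ℂ)).sub (h1.const_mul ((r : ℂ) + s))).add (h3.const_mul (r : ℂ))
    refine HasDerivAt.congr_deriv this ?_
    ring
  exact h4.real_of_complex

theorem d2_neg (r s : ℕ) (hr : 4 ≤ r) {x y : ℝ} (hy : 0 < y) (hy2 : y ^ 2 ≤ 1 / 4)
    (hx : 1 / 2 ≤ x) (hx1 : x ≤ 1) :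
    (s / (1 + (x + y * I)) - (r + s) / (x + y * I) - r / (1 - (x + y * I)) : ℂ).re < 0 := by
  have hr' : (4 : ℝ) ≤ r := by exact_mod_cast hr
  have hs' : (0 : ℝ) ≤ s := Nat.cast_nonneg s
  have e : (s / (1 + (x + y * I)) - (r + s) / (x + y * I) - r / (1 - (x + y * I)) : ℂ).re =
      s * ((1 + x) / ((1 + x) ^ 2 + y ^ 2) - x / (x ^ 2 + y ^ 2)) - r * (x / (x ^ 2 + y ^ 2)) -
        r * ((1 - x) / ((1 - x) ^ 2 + y ^ 2)) := by
    simp [div_re, normSq_apply]
    ring
  rw [e]
  have h1 : (1 + x) / ((1 + x) ^ 2 + y ^ 2) ≤ x / (x ^ 2 + y ^ 2) := by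
    rw [div_le_div_iff₀ (by positivity) (by positivity)]
    nlinarith
  have h2 : 0 < x / (x ^ 2 + y ^ 2) := div_pos (by linarith) (by positivity)
  have h3 : 0 ≤ (1 - x) / ((1 - x) ^ 2 + y ^ 2) := div_nonneg (by linarith) (by positivity)
  nlinarith [mul_nonneg hs' (sub_nonneg.2 h1), mul_pos (by linarith : (0 : ℝ) < r) h2,
    mul_nonneg (by linarith : (0 : ℝ) ≤ r) h3]

theorem aa_pos (r s : ℕ) (hs : 1 ≤ s) {x y : ℝ} (hy : 0 < y) (hx0 : 0 ≤ x) (hx : x ≤ 1 / 2) :
    0 < aa r s y x := by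
  have hs' : (1 : ℝ) ≤ s := by exact_mod_cast hs
  have hr' : (0 : ℝ) ≤ r := Nat.cast_nonneg r
  have e : aa r s y x = s * (Real.log ‖(1 + (x + y * I) : ℂ)‖ - Real.log ‖(x + y * I : ℂ)‖) +
      r * (Real.log ‖(1 - (x + y * I) : ℂ)‖ - Real.log ‖(x + y * I : ℂ)‖) := by
    simp [aa, log_re]
    ring
  have n0 : 0 < ‖(x + y * I : ℂ)‖ := norm_pos_iff.2 (slitPlane_ne_zero (slit1 hy x))
  have h1 : ‖(x + y * I : ℂ)‖ < ‖(1 + (x + y * I) : ℂ)‖ := by
    rw [← sq_lt_sq₀ (norm_nonneg _) (norm_nonneg _), Complex.sq_norm, Complex.sq_norm]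
    simp [normSq_apply]
    nlinarith
  have h2 : ‖(x + y * I : ℂ)‖ ≤ ‖(1 - (x + y * I) : ℂ)‖ := by
    rw [← sq_le_sq₀ (norm_nonneg _) (norm_nonneg _), Complex.sq_norm, Complex.sq_norm]
    simp [normSq_apply]
    nlinarith
  have h3 := Real.log_lt_log n0 h1
  have h4 := Real.log_le_log n0 h2
  rw [e]
  nlinarith [mul_pos (by linarith : (0 : ℝ) < s) (sub_pos.2 h3), mul_nonneg hr' (sub_nonneg.2 h4)]

theorem left_side (r s : ℕ) (hr : 4 ≤ r) {y Y : ℝ} (hy : 0 ≤ y) (hY : y ≤ Y) :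
    (PhiT r s 1 (y * I)).re - 2 * Real.pi * y ≤ (PhiT r s 1 (Y * I)).re - 2 * Real.pi * Y := by
  have hr' : (4 : ℝ) ≤ r := by exact_mod_cast hr
  have hs' : (0 : ℝ) ≤ s := Nat.cast_nonneg s
  have hpi := Real.pi_pos
  let g : ℝ → ℝ := fun v => s * (LL (1 + v * I)).re - r * (LL (1 + v * (-I))).re +
    ((r + s) * (Real.pi / 2) - 2 * Real.pi) * v
  have e : ∀ v : ℝ, 0 ≤ v → (PhiT r s 1 (v * I)).re - 2 * Real.pi * v =
      ((r - s) * LL 1 : ℂ).re + g v := by
    intro v hv
    simp only [PhiT, Phi0, g, sub_re, add_re, mul_neg, ← sub_eq_add_neg]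
    have := re_LL_I hv
    simp only [mul_re, add_re, add_im, natCast_re, natCast_im, add_zero, zero_mul, sub_zero, this]
    ring
  have hd : ∀ v : ℝ, HasDerivAt g (s * (I * log (1 + v * I)).re -
      r * (-I * log (1 + v * (-I))).re + ((r + s) * (Real.pi / 2) - 2 * Real.pi) * 1) v := by
    intro v
    exact (((hasDerivAt_re_LL 1 I v (Or.inl (by simp))).const_mul _).sub
      ((hasDerivAt_re_LL 1 (-I) v (Or.inl (by simp))).const_mul _)).add
      ((hasDerivAt_id v).const_mul _)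
  have hm : MonotoneOn g (Ici 0) := by
    apply monotoneOn_of_deriv_nonneg (convex_Ici 0)
      (fun v _ => (hd v).continuousAt.continuousWithinAt)
      (fun v _ => (hd v).differentiableAt.differentiableWithinAt)
    intro v hv
    rw [interior_Ici] at hv
    rw [(hd v).deriv]
    have h1 : arg (1 + v * I) ≤ Real.pi / 2 :=
      (abs_le.1 (abs_arg_le_pi_div_two_iff.2 (by simp))).2
    have h2 : arg (1 + v * (-I)) < 0 := arg_neg_iff.2 (by simpa using hv)
    simp only [mul_re, I_re, I_im, neg_re, neg_im, log_im, zero_mul, one_mul, neg_zero]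
    nlinarith [mul_nonneg hs' (sub_nonneg.2 h1)]
  rw [e y hy, e Y (hy.trans hY)]
  linarith [hm hy (hy.trans hY) hY]

theorem right_side (r s : ℕ) (hr : 4 ≤ r) {y Y : ℝ} (hy : 0 ≤ y) (hY : y ≤ Y) :
    (PhiT r s 1 (1 + y * I)).re - 2 * Real.pi * y ≤
      (PhiT r s 1 (1 + Y * I)).re - 2 * Real.pi * Y := by
  have hr' : (4 : ℝ) ≤ r := by exact_mod_cast hr
  have hs' : (0 : ℝ) ≤ s := Nat.cast_nonneg s
  have hpi := Real.pi_pos
  let g : ℝ → ℝ := fun v => s * (LL (2 + v * I)).re - (r + s) * (LL (1 + v * I)).re +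
    (r * (Real.pi / 2) - 2 * Real.pi) * v
  have e : ∀ v : ℝ, 0 ≤ v → (PhiT r s 1 (1 + v * I)).re - 2 * Real.pi * v =
      ((r - s) * LL 1 : ℂ).re + g v := by
    intro v hv
    simp only [PhiT, Phi0, g, sub_re, add_re]
    rw [show (1 : ℂ) + (1 + v * I) = 2 + v * I by ring,
      show (1 : ℂ) - (1 + v * I) = -(v * I) by ring]
    have := re_LL_negI hv
    simp only [mul_re, add_re, add_im, natCast_re, natCast_im, add_zero, zero_mul, sub_zero, this]
    ring
  have hd : ∀ v : ℝ, HasDerivAt g (s * (I * log (2 + v * I)).re -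
      (r + s) * (I * log (1 + v * I)).re + (r * (Real.pi / 2) - 2 * Real.pi) * 1) v := by
    intro v
    exact (((hasDerivAt_re_LL 2 I v (Or.inl (by simp))).const_mul _).sub
      ((hasDerivAt_re_LL 1 I v (Or.inl (by simp))).const_mul _)).add
      ((hasDerivAt_id v).const_mul _)
  have hm : MonotoneOn g (Ici 0) := by
    apply monotoneOn_of_deriv_nonneg (convex_Ici 0)
      (fun v _ => (hd v).continuousAt.continuousWithinAt)
      (fun v _ => (hd v).differentiableAt.differentiableWithinAt)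
    intro v hv
    rw [interior_Ici] at hv
    replace hv : 0 < v := hv
    rw [(hd v).deriv]
    have h1 : arg (2 + v * I) ≤ arg (1 + v * I) := by
      rw [arg_eq_arctan (by simp), arg_eq_arctan (by simp)]
      apply Real.arctan_strictMono.monotone
      simp
      linarith
    have h2 : 0 ≤ arg (1 + v * I) := arg_nonneg_iff.2 (by simpa using hv.le)
    simp only [mul_re, I_re, I_im, log_im, zero_mul, one_mul]
    nlinarith [mul_nonneg hs' (sub_nonneg.2 h1), mul_nonneg (by linarith : (0 : ℝ) ≤ r) h2]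
  rw [e y hy, e Y (hy.trans hY)]
  linarith [hm hy (hy.trans hY) hY]

end S4

open S4 in
theorem saddle_four (r s : ℕ) (hr : 4 ≤ r) (hs : 1 ≤ s) :
    ∃ t : ℂ, 0 < t.im ∧ 0 < t.re ∧ t.re < 1 ∧
      s * log (1 + t) - (r + s) * log t + r * log (1 - t) + 2 * Real.pi * I = 0 ∧
      (s / (1 + t) - (r + s) / t - r / (1 - t)).re < 0 ∧
      Real.pi < (PhiT r s 1 t + 2 * Real.pi * I * t).im ∧
      (PhiT r s 1 t + 2 * Real.pi * I * t).im < 2 * Real.pi ∧
      (∀ y ∈ Icc 0 t.im, (PhiT r s 1 (y * I)).re - 2 * Real.pi * y ≤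
        (PhiT r s 1 (t.im * I)).re - 2 * Real.pi * t.im) ∧
      (∀ y ∈ Icc 0 t.im, (PhiT r s 1 (1 + y * I)).re - 2 * Real.pi * y ≤
        (PhiT r s 1 (1 + t.im * I)).re - 2 * Real.pi * t.im) ∧
      MonotoneOn (fun x : ℝ => (PhiT r s 1 (x + t.im * I)).re) (Icc 0 t.re) ∧
      AntitoneOn (fun x : ℝ => (PhiT r s 1 (x + t.im * I)).re) (Icc t.re 1) := by
  obtain ⟨t, hy, hc, heq⟩ := exists_saddle r s hr hs
  have hr' : (4 : ℝ) ≤ r := by exact_mod_cast hr
  have hs' : (1 : ℝ) ≤ s := by exact_mod_cast hs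
  have hx0 : 0 < t.re := by nlinarith
  have hx1 : t.re < 1 := by nlinarith
  have hy2 : t.im ^ 2 ≤ 1 / 4 := by nlinarith [sq_nonneg (t.re - 1 / 2)]
  have ha : aa r s t.im t.re = 0 := by
    have := congrArg Complex.re heq
    rw [aa, re_add_im]
    simpa using this
  have hx : 1 / 2 < t.re := by
    by_contra h
    exact (aa_pos r s hs hy hx0.le (not_lt.1 h)).ne' ha
  have hanti : AntitoneOn (aa r s t.im) (Icc (1 / 2) 1) := by
    apply antitoneOn_of_deriv_nonpos (convex_Icc _ _)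
      (fun v _ => (hasDerivAt_aa r s hy v).continuousAt.continuousWithinAt)
      (fun v _ => (hasDerivAt_aa r s hy v).differentiableAt.differentiableWithinAt)
    intro v hv
    rw [interior_Icc] at hv
    rw [(hasDerivAt_aa r s hy v).deriv]
    exact (d2_neg r s hr hy hy2 hv.1.le hv.2.le).le
  have e1 : PhiT r s 1 t + 2 * Real.pi * I * t = s * log (1 + t) - r * log (1 - t) := by
    simp only [PhiT, Phi0, LL, log_one]
    linear_combination t * heq
  have hA : arg (1 + t) = Real.arctan (t.im / (1 + t.re)) := by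
    rw [arg_eq_arctan (by simp; linarith)]; simp
  have hC : arg (1 - t) = -Real.arctan (t.im / (1 - t.re)) := by
    rw [arg_eq_arctan (by simp; linarith), ← Real.arctan_neg]; simp [neg_div]
  have hθ : arg t = Real.arctan (t.im / t.re) := arg_eq_arctan hx0
  have e2 : (PhiT r s 1 t + 2 * Real.pi * I * t).im =
      s * Real.arctan (t.im / (1 + t.re)) + r * Real.arctan (t.im / (1 - t.re)) := by
    rw [e1]
    simp [log_im, hA, hC]
  have e3 : s * Real.arctan (t.im / (1 + t.re)) - (r + s) * Real.arctan (t.im / t.re) -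
      r * Real.arctan (t.im / (1 - t.re)) + 2 * Real.pi = 0 := by
    have := congrArg Complex.im heq
    simp [log_im, hA, hC, hθ] at this
    linarith
  set z := t.im / (1 + t.re) with hz
  have hz0 : 0 < z := by positivity
  have hz1 : z < 1 / 2 := by
    rw [hz, div_lt_iff₀ (by linarith)]; nlinarith
  have f1 : Real.arctan (t.im / t.re) < Real.arctan (t.im / (1 - t.re)) := by
    apply Real.arctan_strictMono
    exact div_lt_div_of_pos_left hy (by linarith) (by linarith)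
  have f2 : Real.arctan (t.im / t.re) ≤ 3 * Real.arctan z := by
    have h1 : t.im / t.re ≤ z + z + z := by
      rw [show z + z + z = 3 * t.im / (1 + t.re) by rw [hz]; ring,
        div_le_div_iff₀ hx0 (by linarith)]
      nlinarith
    have h2 := arctan_add_le (a := z + z) (b := z) (by linarith) hz0.le (by nlinarith)
    have h3 := arctan_add_le (a := z) (b := z) hz0.le hz0.le (by nlinarith)
    linarith [Real.arctan_strictMono.monotone h1]
  have f3 : 2 * Real.arctan z ≤ Real.arctan (t.im / t.re) := by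
    rw [two_mul, Real.arctan_add (by nlinarith)]
    apply Real.arctan_strictMono.monotone
    rw [div_le_div_iff₀ (by nlinarith) hx0]
    have h1 : z * (1 + t.re) = t.im := by rw [hz]; field_simp
    have h2 : z ^ 2 * (1 + t.re) ≤ 1 - t.re := by
      have : z ^ 2 * (1 + t.re) * (1 + t.re) ≤ (1 - t.re) * (1 + t.re) := by
        nlinarith
      exact le_of_mul_le_mul_right this (by linarith)
    rw [← h1]
    nlinarith
  have f4 : 0 < Real.arctan (t.im / t.re) := Real.arctan_pos.2 (by positivity)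
  refine ⟨t, hy, hx0, hx1, heq, ?_, ?_, ?_, fun y hy' => left_side r s hr hy'.1 hy'.2,
    fun y hy' => right_side r s hr hy'.1 hy'.2, ?_, ?_⟩
  · have := d2_neg r s hr hy hy2 hx.le hx1.le
    rwa [re_add_im] at this
  · rw [e2]
    nlinarith [mul_nonneg (by linarith : (0 : ℝ) ≤ s) (sub_nonneg.2 f2),
      mul_pos (by linarith : (0 : ℝ) < r) (sub_pos.2 f1)]
  · rw [e2]
    nlinarith [mul_nonneg (by linarith : (0 : ℝ) ≤ s) (sub_nonneg.2 f3),
      mul_pos (by linarith : (0 : ℝ) < r) f4]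
  · apply monotoneOn_of_deriv_nonneg (convex_Icc _ _)
      (fun v _ => (hasDerivAt_PhiT r s hy v).continuousAt.continuousWithinAt)
      (fun v _ => (hasDerivAt_PhiT r s hy v).differentiableAt.differentiableWithinAt)
    intro v hv
    rw [interior_Icc] at hv
    rw [(hasDerivAt_PhiT r s hy v).deriv]
    rcases le_or_gt v (1 / 2) with h | h
    · exact (aa_pos r s hs hy hv.1.le h).le
    · rw [← ha]
      exact hanti ⟨h.le, (hv.2.trans hx1).le⟩ ⟨hx.le, hx1.le⟩ hv.2.le
  · apply antitoneOn_of_deriv_nonpos (convex_Icc _ _)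
      (fun v _ => (hasDerivAt_PhiT r s hy v).continuousAt.continuousWithinAt)
      (fun v _ => (hasDerivAt_PhiT r s hy v).differentiableAt.differentiableWithinAt)
    intro v hv
    rw [interior_Icc] at hv
    rw [(hasDerivAt_PhiT r s hy v).deriv, ← ha]
    exact hanti ⟨hx.le, hx1.le⟩ ⟨(hx.trans hv.1).le, hv.2.le⟩ hv.1.le

end Pool.Agent.MP_6026f4_co
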