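import Pool.Agent.Mg.F6026f4p.G8090c1
import Pool.Agent.Mg.F6026f4p.G15cdcf

namespace Pool.Agent.MP_6026f4_co

open Complex MeasureTheory Set Filter Topology Asymptotics

theorem ns_mellin {x : ℕ → ℝ} (h : IsStieltjesMoment x) :
    ∃ M : ℂ → ℂ, DifferentiableOn ℂ M {z | 0 < z.re} ∧ (∀ n : ℕ, 1 ≤ n → M n = x n) ∧
      ∀ (z : ℂ) (N : ℕ), 0 ≤ z.re → z.re ≤ N → ‖M z‖ ≤ x 0 + x N := by
  obtain ⟨μ, h0, hμ⟩ := h.exists_real
  have hle : ∀ (σ : ℝ) (N : ℕ), 0 ≤ σ → σ ≤ N → ∀ t ∈ Ioi (0 : ℝ),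
      Real.exp (σ * Real.log t) ≤ t ^ 0 + t ^ N := by
    intro σ N h1 h2 t ht
    have ht0 : 0 < t := ht
    rw [mul_comm, ← Real.rpow_def_of_pos ht0, pow_zero]
    rcases le_total t 1 with h | h
    · exact (Real.rpow_le_one ht0.le h h1).trans (le_add_of_nonneg_right (by positivity))
    · refine (Real.rpow_le_rpow_of_exponent_le h h2).trans ?_
      rw [Real.rpow_natCast]
      linarith
  have hint : ∀ σ : ℝ, 0 ≤ σ →
      Integrable (fun t => Real.exp (σ * Real.log t)) (μ.restrict (Ioi 0)) := by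
    intro σ h1
    refine ((hμ 0).1.add (hμ ⌈σ⌉₊).1).integrableOn.mono' (by fun_prop) ?_
    filter_upwards [ae_restrict_mem measurableSet_Ioi] with t ht
    rw [Real.norm_eq_abs, abs_of_pos (Real.exp_pos _)]
    exact hle σ _ h1 (Nat.le_ceil σ) t ht
  refine ⟨ProbabilityTheory.complexMGF Real.log (μ.restrict (Ioi 0)), ?_, fun n hn => ?_,
    fun z N h1 h2 => ?_⟩
  · refine ProbabilityTheory.differentiableOn_complexMGF.mono fun z hz => ?_
    have : Ioi (0 : ℝ) ⊆ interior (ProbabilityTheory.integrableExpSet Real.log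
        (μ.restrict (Ioi 0))) := interior_maximal (fun σ hσ => hint σ (le_of_lt hσ)) isOpen_Ioi
    exact this hz
  · rw [← ofReal_natCast, ProbabilityTheory.complexMGF_ofReal, ProbabilityTheory.mgf, ← (hμ n).2]
    congr 1
    rw [setIntegral_congr_fun (g := fun t => t ^ n) measurableSet_Ioi fun t ht => by
      simp only
      rw [mul_comm, ← Real.rpow_def_of_pos ht, Real.rpow_natCast]]
    refine setIntegral_eq_integral_of_ae_compl_eq_zero ?_
    filter_upwards [h0] with t ht ht'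
    rw [le_antisymm (not_lt.1 ht') ht, zero_pow (by omega)]
  · refine ProbabilityTheory.norm_complexMGF_le_mgf.trans ?_
    rw [ProbabilityTheory.mgf, ← (hμ 0).2, ← (hμ N).2, ← integral_add (hμ 0).1 (hμ N).1]
    refine (setIntegral_mono_on (hint _ h1) ((hμ 0).1.add (hμ N).1).integrableOn
      measurableSet_Ioi (hle _ _ h1 h2)).trans ?_
    refine setIntegral_le_integral ((hμ 0).1.add (hμ N).1) ?_
    filter_upwards [h0] with t ht
    exact add_nonneg (pow_nonneg ht _) (pow_nonneg ht _)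

theorem not_sm_of_asymp (x : ℕ → ℝ) (A : ℂ → ℂ) (B C γp γm θ β : ℝ) (lam lam' c c' : ℂ)
    (hA : DifferentiableOn ℂ A {z | 1/4 < z.re})
    (hB : ∀ z : ℂ, 1/2 ≤ z.re → ‖A z‖ ≤ C * Real.exp (B * ‖z‖))
    (hp : (fun T : ℝ => A (1/2 + T * I)) =O[atTop] fun T : ℝ => Real.exp (γp * T))
    (hm : (fun T : ℝ => A (1/2 - T * I)) =O[atTop] fun T : ℝ => Real.exp (γm * T))
    (hγp : 0 ≤ γp) (hγm : 0 ≤ γm) (h1 : γp < θ) (h2 : θ < 2 * Real.pi - γm)
    (hlam0 : lam ≠ 0) (hlam : lam = ‖lam‖ * Complex.exp (-(θ * I))) (hl' : ‖lam'‖ = ‖lam‖)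
    (hne : lam' ≠ lam) (hc : c ≠ 0)
    (hasym : Tendsto (fun n : ℕ => ((x n : ℂ) - A n) * ((n : ℝ) ^ β : ℝ) / lam ^ n - c -
      c' * (lam' / lam) ^ n) atTop (𝓝 0)) :
    ¬ IsStieltjesMoment x := by
  intro hx
  obtain ⟨M, hMd, hMn, hMb⟩ := ns_mellin hx
  have hr : 0 < ‖lam‖ := norm_pos_iff.2 hlam0
  have hB' : ∀ z : ℂ, 1/2 ≤ z.re → ‖A z‖ ≤ |C| * Real.exp (|B| * ‖z‖) := fun z hz =>
    (hB z hz).trans (by gcongr <;> exact le_abs_self _)
  obtain ⟨D, hD0, hD⟩ := ns_growth hA hB' (abs_nonneg _) (abs_nonneg _) hp hm hγp hγm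
  obtain ⟨U, hU⟩ := hasym.norm.bddAbove_range
  set τ := |Real.log ‖lam‖| + |β| + |B| with hτ
  have hτ0 : 0 ≤ τ := by positivity
  set E := U + ‖c‖ + ‖c'‖ + |C| with hE
  have hU0 : 0 ≤ U := (norm_nonneg _).trans (hU ⟨0, rfl⟩)
  have hE0 : 0 ≤ E := by positivity
  have hxb : ∀ n : ℕ, 1 ≤ n → x n ≤ E * Real.exp (τ * n) := by
    intro n hn
    have hn' : (1 : ℝ) ≤ n := by exact_mod_cast hn
    have a1 : ‖((x n : ℂ) - A n) * ((n : ℝ) ^ β : ℝ) / lam ^ n - c - c' * (lam' / lam) ^ n‖ ≤ U :=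
      hU ⟨n, rfl⟩
    have a2 : ‖((x n : ℂ) - A n) * ((n : ℝ) ^ β : ℝ) / lam ^ n‖ ≤ U + ‖c‖ + ‖c'‖ := by
      have b1 : ‖c' * (lam' / lam) ^ n‖ = ‖c'‖ := by
        rw [norm_mul, norm_pow, norm_div, hl', div_self hr.ne', one_pow, mul_one]
      have b2 := norm_add₃_le (a := ((x n : ℂ) - A n) * ((n : ℝ) ^ β : ℝ) / lam ^ n - c -
        c' * (lam' / lam) ^ n) (b := c) (c := c' * (lam' / lam) ^ n)
      rw [b1, sub_sub, add_assoc, sub_add_cancel, ← sub_sub] at b2
      linarith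
    have a3 : 0 < (n : ℝ) ^ β := by positivity
    rw [norm_div, norm_mul, norm_real, Real.norm_eq_abs, abs_of_pos a3, norm_pow,
      div_le_iff₀ (by positivity), ← le_div_iff₀ a3, mul_div_assoc] at a2
    have a4 : ‖lam‖ ^ n / (n : ℝ) ^ β ≤ Real.exp (τ * n) := by
      rw [← Real.rpow_natCast, Real.rpow_def_of_pos hr, Real.rpow_def_of_pos (by linarith),
        ← Real.exp_sub]
      refine Real.exp_le_exp.2 ?_
      have b1 : Real.log n ≤ n := (Real.log_le_sub_one_of_pos (by linarith)).trans (by linarith)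
      have b2 : 0 ≤ Real.log n := Real.log_nonneg hn'
      have b3 : -(Real.log n * β) ≤ n * |β| :=
        (neg_le_abs _).trans (by rw [abs_mul, abs_of_nonneg b2]; gcongr)
      have b4 : Real.log ‖lam‖ * n ≤ |Real.log ‖lam‖| * n := by gcongr; exact le_abs_self _
      have b5 : 0 ≤ |B| * n := by positivity
      rw [hτ]
      linarith
    have a5 : ‖A n‖ ≤ |C| * Real.exp (τ * n) := by
      refine (hB' n (by simp; linarith)).trans ?_
      rw [norm_natCast]
      gcongr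
      rw [hτ]
      exact le_add_of_nonneg_left (by positivity)
    have a6 : x n ≤ ‖(x n : ℂ) - A n‖ + ‖A n‖ := by
      refine le_trans ?_ (norm_add_le _ _)
      rw [sub_add_cancel, norm_real]
      exact le_abs_self _
    have a7 : (U + ‖c‖ + ‖c'‖) * (‖lam‖ ^ n / (n : ℝ) ^ β) ≤
      (U + ‖c‖ + ‖c'‖) * Real.exp (τ * n) := by gcongr
    rw [hE]
    linarith
  let φ : ℝ → ℝ := fun t => max (γp * t) (-(γm * t))
  have hφ0 : ∀ t, 0 ≤ φ t := fun t => by
    rcases le_total 0 t with h | h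
    · exact le_max_of_le_left (by positivity)
    · exact le_max_of_le_right (by nlinarith)
  let f : ℂ → ℂ := fun z => M z - A z
  set D1 := |x 0| + E * Real.exp τ + D with hD1
  have hD10 : 0 ≤ D1 := by positivity
  have hf : ∀ z : ℂ, 1 / 2 ≤ z.re → ‖f z‖ ≤ D1 * Real.exp (τ * z.re) * Real.exp (φ z.im) := by
    intro z hz
    have a1 := hMb z ⌈z.re⌉₊ (by linarith) (Nat.le_ceil _)
    have a2 := hxb ⌈z.re⌉₊ (Nat.one_le_iff_ne_zero.2 (Nat.ceil_pos.2 (by linarith)).ne')
    have a3 : Real.exp (τ * ⌈z.re⌉₊) ≤ Real.exp τ * Real.exp (τ * z.re) := by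
      rw [← Real.exp_add]
      have := (Nat.ceil_lt_add_one (show 0 ≤ z.re by linarith)).le
      exact Real.exp_le_exp.2 (by nlinarith)
    have a4 : 1 ≤ Real.exp (τ * z.re) := Real.one_le_exp (mul_nonneg hτ0 (by linarith))
    have a5 : 1 ≤ Real.exp (φ z.im) := Real.one_le_exp (hφ0 _)
    have a6 : ‖M z‖ ≤ (|x 0| + E * Real.exp τ) * Real.exp (τ * z.re) := by
      nlinarith [le_abs_self (x 0), abs_nonneg (x 0), mul_le_mul_of_nonneg_left a3 hE0]
    have a7 : ‖A z‖ ≤ D * Real.exp (τ * z.re) * Real.exp (φ z.im) := by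
      refine (hD z hz).trans ?_
      gcongr
      rw [hτ]
      exact le_add_of_nonneg_left (by positivity)
    have a8 := a6.trans (le_mul_of_one_le_right ((norm_nonneg _).trans a6) a5)
    refine (norm_sub_le _ _).trans ?_
    rw [hD1]
    linarith
  have hfd : ∀ z : ℂ, 1 / 2 ≤ z.re → DifferentiableAt ℂ f z := fun z hz =>
    (hMd.differentiableAt ((isOpen_lt continuous_const continuous_re).mem_nhds
      (by simp only [mem_setOf_eq]; linarith))).sub
    (hA.differentiableAt ((isOpen_lt continuous_const continuous_re).mem_nhds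
      (by simp only [mem_setOf_eq]; linarith)))
  set K := ⌈β⌉₊ with hK
  set γ0 := max (γp + Real.pi - θ) (γm + θ - Real.pi) with hγ0
  have hγ1 : γ0 < Real.pi := max_lt (by linarith) (by linarith)
  set η := (Real.pi - γ0) / 2 with hη
  have hη0 : 0 < η := by linarith
  let w : ℂ := -Real.log ‖lam‖ + (θ - Real.pi) * I
  have hw : exp w = -lam⁻¹ := by
    have e : w = -Real.log ‖lam‖ + θ * I - Real.pi * I := by simp only [w]; ring
    rw [e, exp_sub, exp_pi_mul_I, exp_add, exp_neg, ← ofReal_exp, Real.exp_log hr]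
    conv_rhs => rw [hlam, exp_neg]
    have : exp (θ * I) ≠ 0 := exp_ne_zero _
    have : (‖lam‖ : ℂ) ≠ 0 := by exact_mod_cast hr.ne'
    field_simp
  refine ns_core (G := fun z => z ^ K * (f (z + 1) - lam' * f z) * exp (z * w))
    (C := K.factorial / η ^ K * (D1 * (Real.exp τ + ‖lam'‖))) (τ := η + τ - Real.log ‖lam‖)
    (γ := γ0 + η) (ρ := K - β) (d := (lam - lam') * c) (by linarith) (fun z hz => ?_)
    (fun z hz => ?_) (by linarith [Nat.le_ceil β]) (mul_ne_zero (sub_ne_zero.2 hne.symm) hc) ?_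
  · have a1 : DifferentiableAt ℂ (fun z => f (z + 1)) z :=
      DifferentiableAt.comp (g := f) z (hfd _ (by simp; linarith)) (by fun_prop)
    exact (DifferentiableAt.mul (by fun_prop) (a1.sub ((hfd z hz).const_mul _))).mul (by fun_prop)
  · have a1 : ‖z ^ K‖ ≤ K.factorial / η ^ K * (Real.exp (η * z.re) * Real.exp (η * |z.im|)) := by
      have b1 := Real.pow_div_factorial_le_exp (η * ‖z‖) (by positivity) K
      rw [div_le_iff₀ (by positivity), mul_pow] at b1
      rw [norm_pow, div_mul_eq_mul_div, le_div_iff₀ (by positivity), ← Real.exp_add, mul_comm,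
        mul_comm (K.factorial : ℝ)]
      refine b1.trans ?_
      have b2 := norm_le_abs_re_add_abs_im z
      rw [abs_of_pos (show 0 < z.re by linarith)] at b2
      rw [← mul_add]
      gcongr
    have a2 : ‖f (z + 1) - lam' * f z‖ ≤
        D1 * (Real.exp τ + ‖lam'‖) * (Real.exp (τ * z.re) * Real.exp (φ z.im)) := by
      have b1 := hf (z + 1) (by simp; linarith)
      have b2 := mul_le_mul_of_nonneg_left (hf z hz) (norm_nonneg lam')
      rw [add_re, add_im, one_re, one_im, add_zero, mul_add, mul_one, Real.exp_add] at b1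
      refine (norm_sub_le _ _).trans ?_
      rw [norm_mul]
      linarith
    have a3 : ‖exp (z * w)‖ = Real.exp (-Real.log ‖lam‖ * z.re - (θ - Real.pi) * z.im) := by
      rw [norm_exp]
      congr 1
      simp only [w, mul_re, add_re, neg_re, ofReal_re, sub_re, I_re, mul_zero, sub_im, ofReal_im,
        I_im, add_im, neg_im, mul_im]
      ring
    have a4 : φ z.im - (θ - Real.pi) * z.im ≤ γ0 * |z.im| := by
      have b1 : γp + Real.pi - θ ≤ γ0 := le_max_left _ _
      have b2 : γm + θ - Real.pi ≤ γ0 := le_max_right _ _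
      rcases le_total 0 z.im with h | h
      · have : φ z.im = γp * z.im := max_eq_left (by nlinarith)
        rw [this, abs_of_nonneg h]
        nlinarith
      · have : φ z.im = -(γm * z.im) := max_eq_right (by nlinarith)
        rw [this, abs_of_nonpos h]
        nlinarith
    rw [norm_mul, norm_mul, a3]
    refine (mul_le_mul_of_nonneg_right (mul_le_mul a1 a2 (norm_nonneg _) (by positivity))
      (Real.exp_pos _).le).trans ?_
    rw [mul_mul_mul_comm, mul_assoc, mul_assoc _ (Real.exp _) (Real.exp _)]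
    refine mul_le_mul_of_nonneg_left ?_ (by positivity)
    simp only [← Real.exp_add]
    refine Real.exp_le_exp.2 ?_
    linarith
  · let u : ℕ → ℂ := fun n => ((x n : ℂ) - A n) * ((n : ℝ) ^ β : ℝ) / lam ^ n - c -
      c' * (lam' / lam) ^ n
    let q : ℕ → ℂ := fun k => ((((k + 1 : ℕ) : ℝ) / ((k + 2 : ℕ) : ℝ)) ^ β : ℝ)
    have hq : Tendsto q atTop (𝓝 1) := by
      have b1 : Tendsto (fun k : ℕ => ((k + 1 : ℕ) : ℝ) / ((k + 2 : ℕ) : ℝ)) atTop (𝓝 1) := by
        have := (tendsto_add_atTop_iff_nat 1).2 (tendsto_natCast_div_add_atTop (𝕜 := ℝ) 1)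
        refine this.congr fun k => ?_
        push_cast
        ring
      have b2 := b1.rpow_const (p := β) (Or.inl one_ne_zero)
      rw [Real.one_rpow] at b2
      exact (continuous_ofReal.tendsto 1).comp b2
    have hu1 : Tendsto (fun k => u (k + 1)) atTop (𝓝 0) := (tendsto_add_atTop_iff_nat 1).2 hasym
    have hu2 : Tendsto (fun k => u (k + 2)) atTop (𝓝 0) := (tendsto_add_atTop_iff_nat 2).2 hasym
    have hz : Tendsto (fun k => (q k - 1) * (lam * c' * (lam' / lam) ^ (k + 2))) atTop (𝓝 0) := by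
      rw [tendsto_zero_iff_norm_tendsto_zero]
      have := (hq.sub_const 1).norm.mul_const (‖lam‖ * ‖c'‖)
      rw [sub_self, norm_zero, zero_mul] at this
      refine this.congr fun k => ?_
      simp [hl', hr.ne']
    have t := (((hq.mul (hu2.add_const c)).const_mul lam).sub
      ((hu1.add_const c).const_mul lam')).add hz
    rw [show lam * (1 * (0 + c)) - lam' * (0 + c) + 0 = (lam - lam') * c by ring] at t
    refine t.congr fun k => ?_
    have e1 : f (k + 1) = x (k + 1) - A ((k + 1 : ℕ) : ℂ) := by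
      rw [← hMn (k + 1) (by omega)]; simp [f]
    have e2 : f (k + 1 + 1) = x (k + 2) - A ((k + 2 : ℕ) : ℂ) := by
      rw [← hMn (k + 2) (by omega)]; simp [f, add_assoc, one_add_one_eq_two]
    have e3 : exp ((k + 1) * w) = (-lam⁻¹) ^ (k + 1) := by
      rw [← hw, ← exp_nat_mul]; push_cast; ring_nf
    have p1 : (0 : ℝ) < ((k + 1 : ℕ) : ℝ) := by positivity
    have p2 : (0 : ℝ) < ((k + 2 : ℕ) : ℝ) := by positivity
    have e4 : (k + 1 : ℝ) ^ (K - β) = ((k + 1 : ℕ) : ℝ) ^ K / ((k + 1 : ℕ) : ℝ) ^ β := by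
      rw [← Real.rpow_natCast, ← Real.rpow_sub p1]; push_cast; ring_nf
    have p3 : ((((k + 1 : ℕ) : ℝ) ^ β : ℝ) : ℂ) ≠ 0 := by
      exact_mod_cast (Real.rpow_pos_of_pos p1 β).ne'
    have p4 : ((((k + 2 : ℕ) : ℝ) ^ β : ℝ) : ℂ) ≠ 0 := by
      exact_mod_cast (Real.rpow_pos_of_pos p2 β).ne'
    have p5 : ((k : ℂ) + 1) ^ K ≠ 0 := pow_ne_zero _ (by exact_mod_cast Nat.succ_ne_zero k)
    have e5 : ((((k + 1 : ℕ) : ℝ) ^ K : ℝ) : ℂ) = ((k : ℂ) + 1) ^ K := by push_cast; ring
    have e6 : (-lam⁻¹) ^ (k + 1) * (-1) ^ (k + 1) = (lam ^ (k + 1))⁻¹ := by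
      rw [← mul_pow]; simp
    simp only [u, q]
    rw [e1, e2, e3, e4, Real.div_rpow p1.le p2.le, ofReal_div, ofReal_div, e5, mul_assoc _ _ ((-1) ^ _),
      e6, div_pow, div_pow]
    field_simp
    ring

end Pool.Agent.MP_6026f4_co
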