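import Pool.Agent.Mg.F6026f4p.G8e38dd
import Pool.Agent.Mg.F6026f4p.Gf2d57a
import Pool.Agent.Mg.F6026f4p.G5ab150
import Pool.Agent.Mg.F6026f4p.Gf0d8b9

section

namespace Pool.Agent.MP_6026f4_co

open Complex Set Filter Topology MeasureTheory Asymptotics
open scoped ComplexConjugate

/-- Holomorphic functions of exponential type on a right half plane. -/
def Ent (F : ℂ → ℂ) : Prop :=
  DifferentiableOn ℂ F {z | 5 / 4 < z.re} ∧
    ∃ C B : ℝ, 0 ≤ C ∧ 0 ≤ B ∧ ∀ z : ℂ, 3 / 2 ≤ z.re → ‖F z‖ ≤ C * Real.exp (B * ‖z‖)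

/-- The reflected function. -/
def dual (F : ℂ → ℂ) : ℂ → ℂ := fun z => conj (F (conj z))

theorem Ent.add {F G : ℂ → ℂ} (hF : Ent F) (hG : Ent G) : Ent fun z => F z + G z := by
  obtain ⟨h1, C, B, hC, hB, h2⟩ := hF
  obtain ⟨h3, C', B', hC', hB', h4⟩ := hG
  refine ⟨h1.add h3, C + C', B + B', by positivity, by positivity, fun z hz => ?_⟩
  have e1 : Real.exp (B * ‖z‖) ≤ Real.exp ((B + B') * ‖z‖) := by gcongr; linarith
  have e2 : Real.exp (B' * ‖z‖) ≤ Real.exp ((B + B') * ‖z‖) := by gcongr; linarith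
  calc _ ≤ ‖F z‖ + ‖G z‖ := norm_add_le _ _
    _ ≤ C * Real.exp ((B + B') * ‖z‖) + C' * Real.exp ((B + B') * ‖z‖) :=
      add_le_add ((h2 z hz).trans (by gcongr)) ((h4 z hz).trans (by gcongr))
    _ = _ := by ring

theorem Ent.mul {F G : ℂ → ℂ} (hF : Ent F) (hG : Ent G) : Ent fun z => F z * G z := by
  obtain ⟨h1, C, B, hC, hB, h2⟩ := hF
  obtain ⟨h3, C', B', hC', hB', h4⟩ := hG
  refine ⟨h1.mul h3, C * C', B + B', by positivity, by positivity, fun z hz => ?_⟩
  rw [norm_mul, add_mul, Real.exp_add]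
  calc _ ≤ C * Real.exp (B * ‖z‖) * (C' * Real.exp (B' * ‖z‖)) :=
      mul_le_mul (h2 z hz) (h4 z hz) (norm_nonneg _) (by positivity)
    _ = _ := by ring

theorem Ent.const (c : ℂ) : Ent fun _ => c :=
  ⟨differentiableOn_const c, ‖c‖, 0, norm_nonneg c, le_rfl, fun z _ => by simp⟩

theorem Ent.const_mul {F : ℂ → ℂ} (hF : Ent F) (c : ℂ) : Ent fun z => c * F z :=
  (Ent.const c).mul hF

theorem Ent.neg {F : ℂ → ℂ} (hF : Ent F) : Ent fun z => -F z := by
  simpa using hF.const_mul (-1)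

theorem Ent.sub {F G : ℂ → ℂ} (hF : Ent F) (hG : Ent G) : Ent fun z => F z - G z := by
  simpa [sub_eq_add_neg] using hF.add hG.neg

theorem Ent.sum {κ : Type*} (t : Finset κ) {F : κ → ℂ → ℂ} (hF : ∀ j ∈ t, Ent (F j)) :
    Ent fun z => ∑ j ∈ t, F j z := by
  classical
  induction t using Finset.induction_on with
  | empty => simpa using Ent.const 0
  | insert a t ha ih =>
    simp only [Finset.sum_insert ha]
    exact (hF a (Finset.mem_insert_self _ _)).add
      (ih fun j hj => hF j (Finset.mem_insert_of_mem hj))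

theorem Ent.exp (c : ℂ) : Ent fun z => exp (c * z) :=
  ⟨by fun_prop, 1, ‖c‖, zero_le_one, norm_nonneg c, fun z _ => by
    rw [norm_exp, one_mul, ← norm_mul]; exact Real.exp_le_exp.2 (re_le_norm _)⟩

theorem Ent.dual {F : ℂ → ℂ} (hF : Ent F) : Ent (dual F) := by
  obtain ⟨h1, C, B, hC, hB, h2⟩ := hF
  refine ⟨fun z hz => ?_, C, B, hC, hB, fun z hz => ?_⟩
  · have ho : IsOpen {z : ℂ | 5 / 4 < z.re} := isOpen_lt continuous_const continuous_re
    have h3 : DifferentiableAt ℂ F (conj z) := h1.differentiableAt (ho.mem_nhds (by simpa using hz))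
    have h4 := h3.conj_conj
    rw [conj_conj] at h4
    exact h4.differentiableWithinAt
  · simpa [Pool.Agent.MP_6026f4_co.dual] using h2 (conj z) (by simpa using hz)

theorem Ent.congr {F G : ℂ → ℂ} (hF : Ent F) (h : ∀ z : ℂ, 5 / 4 < z.re → G z = F z) : Ent G := by
  obtain ⟨h1, C, B, hC, hB, h2⟩ := hF
  exact ⟨h1.congr h, C, B, hC, hB, fun z hz => h z (by linarith) ▸ h2 z hz⟩

theorem Ent.of_PB {F : ℂ → ℂ} (hd : DifferentiableOn ℂ F {z | 5 / 4 < z.re}) {B : ℝ}
    (hb : PB {z : ℂ | 1 ≤ z.re} (fun z => ‖z‖) F fun z => B * ‖z‖) : Ent F := by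
  obtain ⟨C, hC, K, hb⟩ := hb
  obtain ⟨A, hA, hA'⟩ := poly_le_exp K one_pos
  refine ⟨hd, C * A, |B| + 1, by positivity, by positivity, fun z hz =>
    (hb z (by change 1 ≤ z.re; linarith)).trans ?_⟩
  calc _ ≤ C * (A * Real.exp (1 * ‖z‖)) * Real.exp (|B| * ‖z‖) := by
        gcongr
        · exact hA' _ (norm_nonneg _)
        · exact mul_le_mul_of_nonneg_right (le_abs_self B) (norm_nonneg _)
    _ = C * A * (Real.exp (1 * ‖z‖) * Real.exp (|B| * ‖z‖)) := by ring
    _ = _ := by rw [← Real.exp_add]; congr 2; ring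

/-- Growth along the upper half of the line. -/
def GrowP (h : ℝ) (F : ℂ → ℂ) : Prop := EB atTop (fun T : ℝ => T) h fun T : ℝ => F (T * I + 3 / 2)

/-- Growth along the lower half of the line. -/
def GrowM (h : ℝ) (F : ℂ → ℂ) : Prop :=
  EB atTop (fun T : ℝ => T) h fun T : ℝ => F (-(T * I) + 3 / 2)

theorem conj_three_half : conj (3 / 2 : ℂ) = 3 / 2 := by
  rw [show (3 / 2 : ℂ) = ((3 / 2 : ℝ) : ℂ) by push_cast; ring, conj_ofReal]

theorem GrowP.dual {h : ℝ} {F : ℂ → ℂ} (hF : GrowP h F) : GrowM h (dual F) := by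
  refine (EB.conj hF).congr' (Eventually.of_forall fun T => ?_)
  simp [Pool.Agent.MP_6026f4_co.dual, map_ofNat]

theorem GrowM.dual {h : ℝ} {F : ℂ → ℂ} (hF : GrowM h F) : GrowP h (dual F) := by
  refine (EB.conj hF).congr' (Eventually.of_forall fun T => ?_)
  simp [Pool.Agent.MP_6026f4_co.dual, map_ofNat]

theorem not_sm_wrap_aux {x : ℕ → ℝ} {A : ℂ → ℂ} (hA : Ent A) {hp hm θ β h : ℝ} (h0p : 0 ≤ hp)
    (h0m : 0 ≤ hm) (gp : GrowP hp A) (gm : GrowM hm A) (h1 : hp < θ) (h2 : θ < 2 * Real.pi - hm)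
    (hsin : Real.sin θ ≠ 0) {Λ c : ℂ} (hΛ : exp (Λ.im * I) = exp (-(θ * I))) (hc : c ≠ 0)
    {V R : ℕ → ℂ} (hV : Tendsto (fun n : ℕ => V n * ((n : ℝ) ^ β : ℝ) / exp (n * Λ)) atTop (𝓝 c))
    (hR : EB atTop (fun n : ℕ => (n : ℝ)) h R) (hh : h < Λ.re)
    (hx : ∀ᶠ ν : ℕ in atTop, (x ν : ℂ) = A (ν + 1 : ℕ) + V (ν + 1) + conj (V (ν + 1)) + R (ν + 1)) :
    ¬ IsStieltjesMoment x := by
  obtain ⟨hd, C, B, hC, hB, hb⟩ := hA
  set lam := exp Λ with hlam
  have hl0 : lam ≠ 0 := exp_ne_zero _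
  have hnl : ‖lam‖ = Real.exp Λ.re := norm_exp Λ
  have hl1 : lam = ‖lam‖ * exp (-(θ * I)) := by
    rw [hnl, ← hΛ, ofReal_exp, ← exp_add, re_add_im]
  have hne : conj lam ≠ lam := by
    intro e
    have h3 : lam.im = 0 := conj_eq_iff_im.1 e
    rw [hl1, im_ofReal_mul, show -((θ : ℂ) * I) = ((-θ : ℝ) : ℂ) * I by push_cast; ring,
      exp_ofReal_mul_I_im, Real.sin_neg] at h3
    exact mul_ne_zero (norm_ne_zero_iff.2 hl0) (neg_ne_zero.2 hsin) h3
  refine not_sm_of_asymp x (fun z => A (z + 1)) B (C * Real.exp B) ((hp + θ) / 2)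
    ((hm + (2 * Real.pi - θ)) / 2) θ β lam (conj lam) (lam * c) (conj (lam * c)) ?_ ?_ ?_ ?_
    (by linarith) (by linarith) (by linarith) (by linarith) hl0 hl1 (by simp) hne
    (mul_ne_zero hl0 hc) ?_
  · exact hd.comp (differentiableOn_id.add_const 1) fun z hz => by
      have : 1 / 4 < z.re := hz
      change 5 / 4 < (z + 1).re
      simp; linarith
  · intro z hz
    refine (hb (z + 1) (by simp; linarith)).trans ?_
    rw [mul_assoc, ← Real.exp_add]
    have := norm_add_le z 1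
    rw [norm_one] at this
    gcongr
    nlinarith
  · refine (gp _ (by linarith)).congr_left fun T => ?_
    congr 1; ring
  · refine (gm _ (by linarith)).congr_left fun T => ?_
    congr 1; ring
  have hV' : Tendsto (fun n : ℕ => V n * ((n : ℝ) ^ β : ℝ) / lam ^ n) atTop (𝓝 c) := by
    simpa only [hlam, ← exp_nat_mul] using hV
  have hR' : Tendsto (fun n : ℕ => R n * ((n : ℝ) ^ β : ℝ) / lam ^ n) atTop (𝓝 0) := by
    have e1 := hR ((h + Λ.re) / 2) (by linarith)
    have e2 := (tendsto_rpow_mul_exp_neg_mul_atTop_nhds_zero β ((Λ.re - h) / 2)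
      (by linarith)).comp tendsto_natCast_atTop_atTop
    refine IsBigO.trans_tendsto (IsBigO.of_bound' ?_ |>.trans
      (e1.norm_left.mul (isBigO_refl (fun n : ℕ => (n : ℝ) ^ β * Real.exp (-(Λ.re * n))) atTop)))
      (e2.congr fun n => ?_)
    · filter_upwards with n
      rw [norm_div, norm_mul, norm_pow, hnl, ← Real.exp_nat_mul, norm_mul, norm_mul, norm_norm,
        norm_real, Real.norm_eq_abs (Real.exp _), abs_of_pos (Real.exp_pos _), Real.exp_neg,
        mul_comm Λ.re, div_eq_mul_inv, mul_assoc]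
    · simp only [Function.comp]
      rw [mul_left_comm, ← Real.exp_add]; congr 2; ring
  have hq : Tendsto (fun ν : ℕ => (((ν : ℝ) / (ν + 1 : ℕ)) ^ β : ℝ)) atTop (𝓝 1) := by
    have := (tendsto_natCast_div_add_atTop (1 : ℝ)).rpow_const (p := β) (Or.inl one_ne_zero)
    simpa using this
  have hq' := (continuous_ofReal.tendsto _).comp hq
  have s1 := ((hV'.comp (tendsto_add_atTop_nat 1)).mul hq').const_mul lam
  have s2 := ((hR'.comp (tendsto_add_atTop_nat 1)).mul hq').const_mul lam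
  simp only [ofReal_one, mul_one, mul_zero] at s1 s2
  have s3 := tendsto_sub_nhds_zero_iff.2 s1
  have s4 : Tendsto (fun ν : ℕ => conj (lam * (V (ν + 1) * (((ν + 1 : ℕ) : ℝ) ^ β : ℝ) / lam ^ (ν + 1) *
      ((((ν : ℝ) / (ν + 1 : ℕ)) ^ β : ℝ) : ℂ)) - lam * c) * (conj lam / lam) ^ ν) atTop (𝓝 0) := by
    rw [tendsto_zero_iff_norm_tendsto_zero] at s3 ⊢
    refine s3.congr fun ν => ?_
    rw [norm_mul, norm_conj, norm_pow, norm_div, norm_conj, div_self (norm_ne_zero_iff.2 hl0)]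
    simp
  have s5 := (s3.add s4).add s2
  simp only [add_zero] at s5
  refine s5.congr' ?_
  filter_upwards [hx] with ν hν
  have hp : (0 : ℝ) < ((ν + 1 : ℕ) : ℝ) := by positivity
  have e : (((ν : ℝ) / (ν + 1 : ℕ)) ^ β : ℝ) = (ν : ℝ) ^ β / ((ν + 1 : ℕ) : ℝ) ^ β :=
    Real.div_rpow (Nat.cast_nonneg _) hp.le β
  have e0 : ((((ν + 1 : ℕ) : ℝ) ^ β : ℝ) : ℂ) ≠ 0 := by
    exact_mod_cast (Real.rpow_pos_of_pos hp β).ne'
  have hc0 : conj lam ≠ 0 := by simpa using hl0
  simp only [Function.comp, e, map_sub, map_mul, map_div₀, map_pow, conj_ofReal, ofReal_div]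
  rw [hν, show (ν : ℂ) + 1 = ((ν + 1 : ℕ) : ℂ) by push_cast; ring, div_pow]
  field_simp
  ring

theorem not_sm_wrap {x : ℕ → ℝ} {A : ℂ → ℂ} (hA : Ent A) {hp hm θ β h : ℝ} (h0p : 0 ≤ hp)
    (h0m : 0 ≤ hm) (gp : GrowP hp A) (gm : GrowM hm A) (h1 : hp < θ) (h2 : θ < 2 * Real.pi - hm)
    (hsin : Real.sin θ ≠ 0) {Λ c : ℂ}
    (hΛ : exp (Λ.im * I) = exp (-(θ * I)) ∨ exp (Λ.im * I) = exp (θ * I)) (hc : c ≠ 0)
    {V R : ℕ → ℂ} (hV : Tendsto (fun n : ℕ => V n * ((n : ℝ) ^ β : ℝ) / exp (n * Λ)) atTop (𝓝 c))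
    (hR : EB atTop (fun n : ℕ => (n : ℝ)) h R) (hh : h < Λ.re)
    (hx : ∀ᶠ ν : ℕ in atTop, (x ν : ℂ) = A (ν + 1 : ℕ) + V (ν + 1) + conj (V (ν + 1)) + R (ν + 1)) :
    ¬ IsStieltjesMoment x := by
  rcases hΛ with hΛ | hΛ
  · exact not_sm_wrap_aux hA h0p h0m gp gm h1 h2 hsin hΛ hc hV hR hh hx
  · refine not_sm_wrap_aux hA h0p h0m gp gm h1 h2 hsin (Λ := conj Λ) (c := conj c) (β := β)
      (V := fun n => conj (V n)) ?_ (by simpa using hc) ?_ hR (by simpa using hh) ?_
    · have := congrArg conj hΛ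
      rw [← exp_conj, ← exp_conj] at this
      simpa using this
    · refine ((continuous_conj.tendsto _).comp hV).congr fun n => ?_
      simp only [Function.comp, map_div₀, map_mul, conj_ofReal, ← exp_conj, conj_natCast]
    · filter_upwards [hx] with ν hν
      rw [hν, conj_conj]; ring

end Pool.Agent.MP_6026f4_co

end

section

namespace Pool.Agent.MP_6026f4_co

open Complex Set Filter Topology MeasureTheory Asymptotics
open scoped ComplexConjugate

theorem LL_mul_I_re (y : ℝ) : (LL (y * I)).re = -(Real.pi / 2 * |y|) := by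
  rcases lt_trichotomy y 0 with h | rfl | h
  · rw [show (y : ℂ) * I = ((-y : ℝ) : ℂ) * (-I) by push_cast; ring, LL_ofReal_mul (by linarith),
      abs_of_neg h]
    simp [LL, log_neg_I]; ring
  · simp [LL]
  · rw [LL_ofReal_mul h, abs_of_pos h]
    simp [LL, log_I]; ring

theorem LL_conj_re (w : ℂ) : (LL (conj w)).re = (LL w).re := by
  by_cases h : w.arg = Real.pi
  · have : w.im = 0 := (arg_eq_pi_iff.1 h).2
    rw [conj_eq_iff_im.2 this]
  · rw [LL, log_conj _ h, ← map_mul, ← map_sub, conj_re, LL]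

theorem sub_le_of_hasDerivAt {f f' : ℝ → ℝ} {a b C : ℝ} (hab : a ≤ b)
    (hf : ∀ x ∈ Icc a b, HasDerivAt f (f' x) x) (hC : ∀ x ∈ Icc a b, f' x ≤ C) :
    f b - f a ≤ C * (b - a) :=
  (convex_Icc a b).image_sub_le_mul_sub_of_deriv_le
    (fun x hx => (hf x hx).continuousAt.continuousWithinAt)
    (fun x hx => (hf x (interior_subset hx)).differentiableAt.differentiableWithinAt)
    (fun x hx => by rw [(hf x (interior_subset hx)).deriv]; exact hC x (interior_subset hx))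
    a (left_mem_Icc.2 hab) b (right_mem_Icc.2 hab) hab

theorem hasDerivAt_LL_vert {n : ℂ} (hn : 0 < n.re) (τ : ℝ) :
    HasDerivAt (fun τ : ℝ => (LL (n + τ * I)).re) (-arg (n + τ * I)) τ := by
  have h1 : HasDerivAt (fun τ : ℝ => n + τ * I) I τ := by
    simpa using (((hasDerivAt_id τ).ofReal_comp).mul_const I).const_add n
  have h2 := (hasDerivAt_LL (w := n + τ * I) (Or.inl (by simpa using hn))).comp_of_eq τ h1 rfl
  have h3 := (reCLM.hasFDerivAt.comp_hasDerivAt τ h2)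
  refine h3.congr_deriv ?_
  simp [log_im]

theorem arg_ge_of_pos {z : ℂ} (hx : 0 < z.re) (hy : 0 < z.im) :
    Real.pi / 2 - z.re / z.im ≤ arg z := by
  have h1 : arg z < Real.pi / 2 := arg_lt_pi_div_two_iff.2 (Or.inl hx)
  have h2 : 0 < arg z := by
    rcases (arg_nonneg_iff.2 hy.le).eq_or_lt with h | h
    · exact absurd (arg_eq_zero_iff.1 h.symm).2 hy.ne'
    · exact h
  have h3 := Real.le_tan (x := Real.pi / 2 - arg z) (by linarith) (by linarith)
  rw [Real.tan_pi_div_two_sub, tan_arg, inv_div] at h3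
  linarith

theorem LL_vert_lower {n : ℂ} (hn : 0 < n.re) (τ : ℝ) :
    (LL n).re - Real.pi / 2 * |τ| ≤ (LL (n + τ * I)).re := by
  have ha : ∀ x : ℝ, |arg (n + x * I)| ≤ Real.pi / 2 := fun x =>
    abs_arg_le_pi_div_two_iff.2 (by simpa using hn.le)
  rcases le_total 0 τ with h | h
  · have := sub_le_of_hasDerivAt h (fun x _ => (hasDerivAt_LL_vert hn x).neg) (C := Real.pi / 2)
      fun x _ => by linarith [abs_le.1 (ha x)]
    simp at this
    rw [abs_of_nonneg h]; linarith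
  · have := sub_le_of_hasDerivAt h (fun x _ => hasDerivAt_LL_vert hn x) (C := Real.pi / 2)
      fun x _ => by linarith [abs_le.1 (ha x)]
    simp at this
    rw [abs_of_nonpos h]; linarith

theorem LL_vert_upper_aux {n : ℂ} (hn : 0 < n.re) {ε : ℝ} (hε : 0 < ε) {τ : ℝ} (hτ : 0 ≤ τ) :
    (LL (n + τ * I)).re ≤ (LL n).re - (Real.pi / 2 - ε) * τ + 4 * (1 + 1 / ε) * ‖n‖ := by
  have ha : ∀ x : ℝ, |arg (n + x * I)| ≤ Real.pi / 2 := fun x =>
    abs_arg_le_pi_div_two_iff.2 (by simpa using hn.le)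
  have hn0 : 0 < ‖n‖ := hn.trans_le (re_le_norm n)
  set L := (1 + 1 / ε) * ‖n‖ with hL
  have hL0 : 0 ≤ L := by positivity
  have h1 : ∀ x : ℝ, 0 ≤ x → (LL (n + x * I)).re ≤ (LL n).re + Real.pi / 2 * x := by
    intro x hx
    have := sub_le_of_hasDerivAt hx (fun x _ => hasDerivAt_LL_vert hn x) (C := Real.pi / 2)
      fun x _ => by linarith [abs_le.1 (ha x)]
    simp at this
    linarith
  have hpi := Real.pi_lt_four
  have hpi0 := Real.pi_pos
  rcases le_total τ L with h | h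
  · have := h1 τ hτ
    nlinarith
  · have h2 := sub_le_of_hasDerivAt h (fun x _ => hasDerivAt_LL_vert hn x)
      (C := -(Real.pi / 2 - ε)) fun x hx => by
        have h3 : ‖n‖ / ε ≤ (n + x * I).im := by
          have := abs_le.1 (abs_im_le_norm n)
          have h4 : L = ‖n‖ + ‖n‖ / ε := by rw [hL]; ring
          simp; linarith [hx.1]
        have h5 : 0 < ‖n‖ / ε := by positivity
        have h6 := arg_ge_of_pos (z := n + x * I) (by simpa using hn) (by linarith)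
        have h7 : (n + x * I).re / (n + x * I).im ≤ ε := by
          rw [div_le_iff₀ (by linarith)]
          have h8 : (n + x * I).re ≤ ‖n‖ := by simpa using re_le_norm n
          have := (div_le_iff₀ hε).1 h3
          linarith
        linarith
    have := h1 L hL0
    nlinarith

theorem LL_vert_upper {n : ℂ} (hn : 0 < n.re) {ε : ℝ} (hε : 0 < ε) (τ : ℝ) :
    (LL (n + τ * I)).re ≤ (LL n).re - (Real.pi / 2 - ε) * |τ| + 4 * (1 + 1 / ε) * ‖n‖ := by
  rcases le_total 0 τ with h | h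
  · rw [abs_of_nonneg h]; exact LL_vert_upper_aux hn hε h
  · have := LL_vert_upper_aux (n := conj n) (by simpa using hn) hε (neg_nonneg.2 h)
    rw [LL_conj_re, norm_conj, ← LL_conj_re] at this
    rw [abs_of_nonpos h]
    simpa using this

section Crude
variable {ι : Type*} {S : Set ι} {m T τ p q : ι → ℝ} {d C₀ A : ℝ}

theorem frame_crude (hd : 0 < d) (hm : ∀ i ∈ S, 0 ≤ m i) (hp : ∀ i ∈ S, |p i| ≤ C₀)
    (hp1 : ∀ i ∈ S, d ≤ p i) (hq : ∀ i ∈ S, |q i| ≤ C₀) (hT : ∀ i ∈ S, |T i| ≤ A * (1 + m i))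
    (hτ : ∀ i ∈ S, |τ i| ≤ A * (1 + m i))
    (g2 : ∀ i ∈ S, Good d (T i * I + p i + (τ i * I + q i) - 1 / 2)) :
    Frame S m (fun i => T i * I) (fun i => τ i * I) (fun i => p i) (fun i => q i) 1 d C₀ A where
  hη := one_pos
  hη1 := le_rfl
  hd := hd
  hm := hm
  hp := fun i hi => by simpa using hp i hi
  hq := fun i hi => by simpa using hq i hi
  hn := fun i hi => by simpa using hT i hi
  hk := fun i hi => by simpa using hτ i hi
  s1 := fun i _ => Sec.of_re_nonneg le_rfl (by simp)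
  s2 := fun i _ => Sec.of_re_nonneg le_rfl (by simp)
  g1 := fun i hi => Good.of_re (by simpa using hp1 i hi)
  g2 := g2

theorem crude_TT (r s : ℕ)
    (F : Frame S m (fun i => T i * I) (fun i => τ i * I) (fun i => p i) (fun i => q i) 1 d C₀ A) :
    PB S m (fun i => TT r s (T i * I + p i) (τ i * I + q i)) fun i =>
      Real.pi / 2 * ((s - r) * |T i| - s * |T i + τ i| + (r + s) * |τ i| + r * |T i - τ i|) := by
  refine (F.TT r s (fun i _ => Sec.of_re_nonneg le_rfl (by simp))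
    (fun i _ => Sec.of_re_nonneg le_rfl (by simp))).mono F.hm fun i _ => le_of_eq ?_
  simp only [PhiT, Phi0, ← add_mul, ← sub_mul, ← ofReal_add, ← ofReal_sub]
  simp [-ofReal_add, -ofReal_sub, LL_mul_I_re]
  ring

theorem PB.PP_of_TH (r s : ℕ) (e : ℝ) {n k : ι → ℂ} {h : ι → ℝ}
    (H : PB S m (fun i => TH r s (n i) (k i)) h) :
    PB S m (fun i => PP r s e (n i) (k i)) fun i => h i - Real.pi * e * (k i).im := by
  have := (H.const_mul (((2 * Real.pi : ℂ)⁻¹) ^ (r + s))).mul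
    (PB.exp fun i => Real.pi * I * e * k i)
  convert this using 2
  · rfl
  · simp; ring

theorem PB.QQ_of_TW (r s : ℕ) (e : ℝ) {n k : ι → ℂ} {h : ι → ℝ}
    (H : PB S m (fun i => TW r s (n i) (k i)) h) :
    PB S m (fun i => QQ r s e (n i) (k i)) fun i => h i - Real.pi * e * (k i - n i).im := by
  have := (H.const_mul (((2 * Real.pi : ℂ)⁻¹) ^ r)).mul
    (PB.exp fun i => Real.pi * I * e * (k i - n i))
  convert this using 2
  · rfl
  · simp; ring

theorem crude_PP (r s : ℕ) (e : ℝ)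
    (F : Frame S m (fun i => T i * I) (fun i => τ i * I) (fun i => p i) (fun i => q i) 1 d C₀ A)
    (g3 : ∀ i ∈ S, Good d (1 / 2 - (τ i * I + q i))) :
    PB S m (fun i => PP r s e (T i * I + p i) (τ i * I + q i)) fun i =>
      Real.pi / 2 * ((s - r) * |T i| - s * |T i + τ i| - (r + s) * |τ i| + r * |T i - τ i|) -
        Real.pi * e * τ i := by
  refine ((F.TH r s (fun i _ => Sec.of_re_nonneg le_rfl (by simp))
    (fun i _ => Sec.of_re_nonneg le_rfl (by simp)) g3).PP_of_TH r s e).mono F.hm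
    fun i _ => le_of_eq ?_
  simp only [PhiH, Phi0, ← add_mul, ← sub_mul, ← neg_mul, ← ofReal_add, ← ofReal_sub, ← ofReal_neg]
  simp [-ofReal_add, -ofReal_sub, -ofReal_neg, LL_mul_I_re]
  ring

theorem PB.ex_pow (k : ι → ℂ) (j : ℕ) :
    PB S m (fun i => ex (k i) ^ j) fun i => -(2 * Real.pi * j * (k i).im) :=
  PB.of_le (C := 1) fun i _ => by
    rw [norm_pow, norm_ex, ← Real.exp_nat_mul, one_mul]; apply le_of_eq; congr 1; ring

theorem PB.kx {k : ι → ℂ} (hk : ∀ i ∈ S, (∃ n : ℕ, (k i).re = n) ∨ 1 ≤ (k i).im) :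
    PB S m (fun i => kx (k i)) fun i => -(2 * Real.pi * (k i).im) :=
  PB.of_le (C := 2) fun i hi => by
    rw [← norm_ex]
    rcases hk i hi with ⟨n, hn⟩ | h
    · linarith [(norm_kx_le_of_re n hn).1, norm_nonneg (ex (k i))]
    · exact norm_kx_le_of_im h

theorem PB.kx_zero {k : ι → ℂ} (hk : ∀ i ∈ S, ∃ n : ℕ, (k i).re = n) :
    PB S m (fun i => Pool.Agent.MP_6026f4_co.kx (k i)) fun _ => 0 :=
  PB.of_le (C := 1) fun i hi => by
    obtain ⟨n, hn⟩ := hk i hi
    simpa using (norm_kx_le_of_re n hn).2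

end Crude

theorem EB.tendsto_zero {ι : Type*} {l : Filter ι} {ρ : ι → ℝ} {h : ℝ} {f : ι → ℂ}
    (hf : EB l ρ h f) (hh : h < 0) (hρ : Tendsto ρ l atTop) : Tendsto f l (𝓝 0) :=
  (hf (h / 2) (by linarith)).trans_tendsto
    (Real.tendsto_exp_atBot.comp (hρ.const_mul_atTop_of_neg (by linarith)))

theorem isOpen_re_gt (c : ℝ) : IsOpen {z : ℂ | c < z.re} := isOpen_lt continuous_const continuous_re

theorem local_bound {z₀ z : ℂ} (hz : z ∈ Metric.ball z₀ 1) (C B : ℝ) (hC : 1 ≤ C) (K : ℕ) :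
    C * (1 + ‖z‖) ^ K * Real.exp (B * ‖z‖) ≤
      C * (1 + (‖z₀‖ + 1)) ^ K * Real.exp (|B| * (‖z₀‖ + 1)) := by
  have h1 : ‖z‖ ≤ ‖z₀‖ + 1 := by
    have := norm_sub_norm_le z z₀
    rw [Metric.mem_ball, dist_eq_norm] at hz
    linarith
  have h2 : B * ‖z‖ ≤ |B| * (‖z₀‖ + 1) :=
    (mul_le_mul_of_nonneg_right (le_abs_self B) (norm_nonneg _)).trans (by gcongr)
  gcongr

theorem Ent.ray {F : ℂ → ℂ → ℂ} {a : ℂ → ℂ} {d : ℂ} {B c : ℝ} (hc : 0 < c) (hd1 : ‖d‖ ≤ 1)
    (hd : ∀ τ : ℝ, 0 < τ → ∀ n : ℂ, 1 < n.re → DifferentiableAt ℂ (fun n => F n (a n + τ * d)) n)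
    (hcont : ∀ n : ℂ, 1 < n.re → ContinuousOn (fun τ : ℝ => F n (a n + τ * d)) (Ioi 0))
    (hb : PB ({n : ℂ | 1 ≤ n.re} ×ˢ Ioi (0 : ℝ)) (fun p => ‖p.1‖ + p.2)
      (fun p => F p.1 (a p.1 + p.2 * d)) fun p => B * ‖p.1‖ - c * p.2) :
    Ent fun n => ray (F n) (a n) d := by
  refine Ent.of_PB ?_ (PB.ray (d := fun _ => d) hc (fun _ _ => norm_nonneg _) (fun _ _ => hd1) hb)
  obtain ⟨C, hC, K, hb'⟩ := PB.ray_bound (m := fun n : ℂ => ‖n‖) (h := fun n : ℂ => B * ‖n‖) hc
    (fun _ _ => norm_nonneg _) hb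
  refine differentiableOn_param_integral (isOpen_re_gt _) ?_ ?_ ?_
  · refine (ae_restrict_iff' measurableSet_Ioi).2 (Eventually.of_forall fun τ hτ n hn => ?_)
    have hn' : 5 / 4 < n.re := hn
    exact ((hd τ hτ n (by linarith)).mul_const d).differentiableWithinAt
  · intro n hn
    have hn' : 5 / 4 < n.re := hn
    exact ((hcont n (by linarith)).mul continuousOn_const).aestronglyMeasurable measurableSet_Ioi
  · intro z₀ _
    refine ⟨1, one_pos, _, (exp_neg_integrableOn_Ioi 0 (half_pos hc)).const_mul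
      (C * (1 + (‖z₀‖ + 1)) ^ K * Real.exp (|B| * (‖z₀‖ + 1))), ?_⟩
    refine (ae_restrict_iff' measurableSet_Ioi).2 (Eventually.of_forall fun τ hτ n hn hn' => ?_)
    have hn'' : 5 / 4 < n.re := hn'
    rw [norm_mul]
    refine (mul_le_of_le_one_right (norm_nonneg _) hd1).trans
      ((hb' n (by change 1 ≤ n.re; linarith) τ hτ).trans ?_)
    exact mul_le_mul_of_nonneg_right (local_bound hn C B hC K) (Real.exp_pos _).le

theorem Ent.seg {F : ℂ → ℂ → ℂ} {a b : ℂ → ℂ} {B A : ℝ}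
    (hab : ∀ n : ℂ, DifferentiableAt ℂ (fun n => b n - a n) n)
    (hA : ∀ n : ℂ, ‖b n - a n‖ ≤ A * (1 + ‖n‖))
    (hd : ∀ v ∈ Icc (0 : ℝ) 1, ∀ n : ℂ, 1 < n.re →
      DifferentiableAt ℂ (fun n => F n (a n + v * (b n - a n))) n)
    (hcont : ∀ n : ℂ, 1 < n.re → SegC (F n) (a n) (b n))
    (hb : PB ({n : ℂ | 1 ≤ n.re} ×ˢ Icc (0 : ℝ) 1) (fun p => ‖p.1‖)
      (fun p => F p.1 (a p.1 + p.2 * (b p.1 - a p.1))) fun p => B * ‖p.1‖) :
    Ent fun n => seg (F n) (a n) (b n) := by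
  refine Ent.of_PB ?_ (PB.seg (fun _ _ => norm_nonneg _) hb fun n _ => hA n)
  obtain ⟨C, hC, K, hb'⟩ := hb
  simp only [Pool.Agent.MP_6026f4_co.seg, intervalIntegral.integral_of_le zero_le_one]
  refine differentiableOn_param_integral (isOpen_re_gt _) ?_ ?_ ?_
  · refine (ae_restrict_iff' measurableSet_Ioc).2 (Eventually.of_forall fun v hv n hn => ?_)
    have hn' : 5 / 4 < n.re := hn
    exact ((hd v (Ioc_subset_Icc_self hv) n (by linarith)).mul (hab n)).differentiableWithinAt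
  · intro n hn
    have hn' : 5 / 4 < n.re := hn
    exact (((hcont n (by linarith)).mono Ioc_subset_Icc_self).mul
      continuousOn_const).aestronglyMeasurable measurableSet_Ioc
  · intro z₀ _
    refine ⟨1, one_pos, _, integrable_const (C * (1 + (‖z₀‖ + 1)) ^ K *
      Real.exp (|B| * (‖z₀‖ + 1)) * (|A| * (1 + (‖z₀‖ + 1)))), ?_⟩
    refine (ae_restrict_iff' measurableSet_Ioc).2 (Eventually.of_forall fun v hv n hn hn' => ?_)
    have hn'' : 5 / 4 < n.re := hn'
    rw [norm_mul]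
    have h1 : ‖n‖ ≤ ‖z₀‖ + 1 := by
      have := norm_sub_norm_le n z₀
      rw [Metric.mem_ball, dist_eq_norm] at hn
      linarith
    refine mul_le_mul ((hb' (n, v) ⟨by change 1 ≤ n.re; linarith, Ioc_subset_Icc_self hv⟩).trans
      (local_bound hn C B hC K)) ((hA n).trans ?_) (norm_nonneg _) (by positivity)
    exact (mul_le_mul_of_nonneg_right (le_abs_self A) (by positivity)).trans (by gcongr)

end Pool.Agent.MP_6026f4_co

end

section

namespace Pool.Agent.MP_6026f4_co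

open Complex Set Filter Topology MeasureTheory Asymptotics
open scoped ComplexConjugate

theorem LL_real_mul {v : ℝ} (hv : 0 ≤ v) (n : ℂ) : LL (v * n) = n * LL v + v * n * log n := by
  rcases hv.eq_or_lt with rfl | h
  · simp [LL]
  · rw [LL_ofReal_mul h, LL, LL, ← ofReal_log hv]; ring

theorem LL_real_im {v : ℝ} (hv : 0 ≤ v) : (LL v).im = 0 := by
  rw [LL, ← ofReal_log hv, ← ofReal_mul, ← ofReal_sub, ofReal_im]

theorem re_LL_le {w : ℂ} {R : ℝ} (hR : 1 ≤ R) (h : ‖w‖ ≤ R) : |(LL w).re| ≤ R ^ 2 + 5 * R + 1 :=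
  (abs_re_le_norm _).trans (norm_LL_le hR h)

theorem PhiT_real_le (r s : ℕ) {n : ℂ} (hn : 0 ≤ n.re) {v : ℝ} (hv : v ∈ Icc (0 : ℝ) 1) :
    (PhiT r s n (v * n)).re ≤ 45 * (r + s) * n.re := by
  have e0 := LL_real_mul zero_le_one n
  have e1 := LL_real_mul (v := 1 + v) (by linarith [hv.1]) n
  have e2 := LL_real_mul hv.1 n
  have e3 := LL_real_mul (v := 1 - v) (by linarith [hv.2]) n
  have i0 := LL_real_im zero_le_one
  have i1 := LL_real_im (v := 1 + v) (by linarith [hv.1])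
  have i2 := LL_real_im hv.1
  have i3 := LL_real_im (v := 1 - v) (by linarith [hv.2])
  have b0 := abs_le.1 (re_LL_le (w := ((1 : ℝ) : ℂ)) (R := 2) (by norm_num) (by simp))
  have b1 := abs_le.1 (re_LL_le (w := ((1 + v : ℝ) : ℂ)) (R := 2) (by norm_num) (by
    rw [norm_real, Real.norm_eq_abs, abs_le]; constructor <;> linarith [hv.1, hv.2]))
  have b2 := abs_le.1 (re_LL_le (w := (v : ℂ)) (R := 2) (by norm_num) (by
    rw [norm_real, Real.norm_eq_abs, abs_le]; constructor <;> linarith [hv.1, hv.2]))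
  have b3 := abs_le.1 (re_LL_le (w := ((1 - v : ℝ) : ℂ)) (R := 2) (by norm_num) (by
    rw [norm_real, Real.norm_eq_abs, abs_le]; constructor <;> linarith [hv.1, hv.2]))
  have e : PhiT r s n (v * n) = n * ((r - s) * LL ((1 : ℝ) : ℂ) + s * LL ((1 + v : ℝ) : ℂ) -
      (r + s) * LL v - r * LL ((1 - v : ℝ) : ℂ)) := by
    rw [PhiT, Phi0, show n + v * n = ((1 + v : ℝ) : ℂ) * n by push_cast; ring,
      show n - v * n = ((1 - v : ℝ) : ℂ) * n by push_cast; ring, e1, e2, e3]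
    rw [ofReal_one, one_mul] at e0
    rw [e0]
    push_cast; ring
  rw [e, mul_re]
  simp only [sub_im, add_im, mul_im, i0, i1, i2, i3, sub_re, add_re, mul_re, natCast_re, natCast_im]
  have hr : (0 : ℝ) ≤ r := Nat.cast_nonneg r
  have hs : (0 : ℝ) ≤ s := Nat.cast_nonneg s
  set a := (LL ((1 : ℝ) : ℂ)).re
  set b := (LL ((1 + v : ℝ) : ℂ)).re
  set c := (LL (v : ℂ)).re
  set d := (LL ((1 - v : ℝ) : ℂ)).re
  have : (r - s) * a + s * b - (r + s) * c - r * d ≤ 45 * (r + s) := by nlinarith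
  nlinarith

theorem PB_TT_seg (r s : ℕ) :
    PB ({n : ℂ | 1 ≤ n.re} ×ˢ Icc (0 : ℝ) 1) (fun p => ‖p.1‖)
      (fun p => TT r s p.1 (p.2 * p.1)) fun p => 45 * (r + s) * p.1.re := by
  have F : Frame ({n : ℂ | 1 ≤ n.re} ×ˢ Icc (0 : ℝ) 1) (fun p => ‖p.1‖) (fun p => p.1)
      (fun p => p.2 * p.1) (fun _ => 0) (fun _ => 0) 1 (1 / 2) 0 1 :=
    { hη := one_pos, hη1 := le_rfl, hd := by norm_num, hm := fun _ _ => norm_nonneg _
      hp := by simp, hq := by simp
      hn := fun _ _ => by linarith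
      hk := fun p hp => by
        rw [norm_mul, norm_real, Real.norm_eq_abs, abs_of_nonneg hp.2.1]
        nlinarith [hp.2.2, norm_nonneg p.1]
      s1 := fun p hp => Sec.of_re_nonneg le_rfl (by linarith [show 1 ≤ p.1.re from hp.1])
      s2 := fun p hp => Sec.of_re_nonneg le_rfl (by
        simp; nlinarith [show 1 ≤ p.1.re from hp.1, hp.2.1])
      g1 := fun p hp => Good.of_re (by simp; linarith [show 1 ≤ p.1.re from hp.1])
      g2 := fun p hp => Good.of_re (by simp; nlinarith [show 1 ≤ p.1.re from hp.1, hp.2.1]) }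
  refine ((F.TT r s (fun p hp => Sec.of_re_nonneg le_rfl ?_)
    (fun p hp => Sec.of_re_nonneg le_rfl ?_)).congr (fun p _ => by simp)).mono F.hm fun p hp =>
      PhiT_real_le r s (by linarith [show 1 ≤ p.1.re from hp.1]) hp.2
  · simp; nlinarith [show 1 ≤ p.1.re from hp.1, hp.2.1]
  · simp; nlinarith [show 1 ≤ p.1.re from hp.1, hp.2.2]

theorem PB.comp {ι κ : Type*} {S : Set ι} {m h : ι → ℝ} {f : ι → ℂ} (H : PB S m f h) {S' : Set κ}
    {m' : κ → ℝ} {g : κ → ι} {A : ℝ} (hg : ∀ j ∈ S', g j ∈ S) (hm : ∀ i ∈ S, 0 ≤ m i)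
    (hm' : ∀ j ∈ S', 0 ≤ m' j) (hA : ∀ j ∈ S', m (g j) ≤ A * (1 + m' j)) :
    PB S' m' (fun j => f (g j)) fun j => h (g j) := by
  obtain ⟨C, hC, K, hb⟩ := H
  refine ⟨C * (1 + |A|) ^ K, one_le_mul_of_one_le_of_one_le hC
    (one_le_pow₀ (by linarith [abs_nonneg A])), K, fun j hj => (hb _ (hg j hj)).trans ?_⟩
  have := pow_one_add_le (hm _ (hg j hj)) (hm' j hj) (hA j hj) K
  rw [mul_assoc C ((1 + |A|) ^ K)]
  gcongr

/-- The integral over the segment, with a periodic factor. -/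
noncomputable def SS (r s j : ℕ) (n : ℂ) : ℂ := seg (fun k => TT r s n k * ex (k - n) ^ j) 0 n

theorem ent_SS (r s j : ℕ) : Ent (SS r s j) := by
  refine Ent.seg (F := fun n k => TT r s n k * ex (k - n) ^ j) (a := fun _ => 0) (b := fun n => n)
    (A := 1) (B := 45 * (r + s) + 2 * Real.pi * j) (fun n => by fun_prop)
    (fun n => by simp) (fun v hv n hn => ?_) (fun n hn => SegC.of_continuousAt fun v hv => ?_) ?_
  · refine (diffAt_TT r s differentiableAt_id (by fun_prop) (NP.of_re (by simp; linarith))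
      (NP.of_re ?_)).mul (by fun_prop)
    simp; nlinarith [hv.1]
  · refine (contAt_TT r s continuousAt_const continuousAt_id (NP.of_re (by linarith))
      (NP.of_re ?_)).mul (by fun_prop)
    simp; nlinarith [hv.1]
  · refine (((PB_TT_seg r s).mul (PB.ex_pow (fun p => p.2 * p.1 - p.1) j)).congr
      (fun p _ => by simp)).mono (fun _ _ => norm_nonneg _) fun p hp => ?_
    have h1 := re_le_norm p.1
    have h2 := abs_le.1 (abs_im_le_norm p.1)
    have h3 : p.1.im - p.2 * p.1.im ≤ ‖p.1‖ := by nlinarith [hp.2.1, hp.2.2, norm_nonneg p.1]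
    have h4 : 0 ≤ 2 * Real.pi * j := by positivity
    have h5 : (0 : ℝ) ≤ 45 * (r + s) := by positivity
    simp
    nlinarith

theorem norm_line_le (T : ℝ) (hT : 0 ≤ T) : ‖(T : ℂ) * I + 3 / 2‖ ≤ 2 * (1 + T) ∧
    ‖-((T : ℂ) * I) + 3 / 2‖ ≤ 2 * (1 + T) := by
  have h1 : ‖(3 / 2 : ℂ)‖ = 3 / 2 := by simp
  have h2 : ‖(T : ℂ) * I‖ = T := by simp [abs_of_nonneg hT]
  constructor
  · linarith [norm_add_le ((T : ℂ) * I) (3 / 2)]
  · have := norm_add_le (-((T : ℂ) * I)) (3 / 2)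
    rw [norm_neg] at this
    linarith

theorem growP_SS (r s : ℕ) : GrowP 0 (SS r s 0) := by
  refine PB.eb (S := Ici 0) (Ici_mem_atTop 0) (fun _ h => h) ?_
  refine PB.seg (F := fun (T : ℝ) k => TT r s (T * I + 3 / 2) k * ex (k - (T * I + 3 / 2)) ^ 0)
    (A := 2) (fun _ h => h) ?_ (fun T hT => by simpa using (norm_line_le T hT).1)
  refine (((PB_TT_seg r s).comp (g := fun p : ℝ × ℝ => (p.1 * I + 3 / 2, p.2)) (A := 2)
    (fun p hp => ⟨by simp; norm_num, hp.2⟩) (fun _ _ => norm_nonneg _) (fun p hp => hp.1)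
    (fun p hp => (norm_line_le _ hp.1).1)).congr (fun p _ => by simp)).shift
    (c := 45 * (r + s) * (3 / 2)) (fun p hp => hp.1) fun p _ => by simp

theorem growM_SS (r s j : ℕ) : GrowM 0 (SS r s j) := by
  refine PB.eb (S := Ici 0) (Ici_mem_atTop 0) (fun _ h => h) ?_
  refine PB.seg (F := fun (T : ℝ) k => TT r s (-(T * I) + 3 / 2) k * ex (k - (-(T * I) + 3 / 2)) ^ j)
    (A := 2) (fun _ h => h) ?_ (fun T hT => by simpa using (norm_line_le T hT).2)
  refine ((((PB_TT_seg r s).mul (PB.ex_pow (fun p => p.2 * p.1 - p.1) j)).comp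
    (g := fun p : ℝ × ℝ => (-(p.1 * I) + 3 / 2, p.2)) (A := 2)
    (fun p hp => ⟨by simp; norm_num, hp.2⟩) (fun _ _ => norm_nonneg _) (fun p hp => hp.1)
    (fun p hp => (norm_line_le _ hp.1).2)).congr (fun p _ => by simp)).shift
    (c := 45 * (r + s) * (3 / 2)) (fun p hp => hp.1) fun p hp => ?_
  have h4 : 0 ≤ 2 * Real.pi * j := by positivity
  have h1 : 0 ≤ p.1 := hp.1
  have h2 : 0 ≤ p.1 * (1 - p.2) := mul_nonneg h1 (by linarith [hp.2.2])
  simp
  nlinarith

theorem SS_zero (r s : ℕ) (n : ℂ) : SS r s 0 n = seg (TT r s n) 0 n := by simp [SS]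

end Pool.Agent.MP_6026f4_co

end

section

namespace Pool.Agent.MP_6026f4_co

open Complex Set Filter Topology MeasureTheory Asymptotics
open scoped ComplexConjugate

theorem re_natCast_mul (n : ℕ) (z : ℂ) : ((n : ℂ) * z).re = n * z.re := by simp

theorem im_natCast_mul (n : ℕ) (z : ℂ) : ((n : ℂ) * z).im = n * z.im := by simp

theorem half_re : (1 / 2 : ℂ).re = 1 / 2 := by simp

theorem norm_seg_pt_le (a b : ℂ) {v : ℝ} (hv : v ∈ Icc (0 : ℝ) 1) :
    ‖a + v * (b - a)‖ ≤ ‖a‖ + ‖b - a‖ := by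
  refine (norm_add_le _ _).trans ?_
  rw [norm_mul, norm_real, Real.norm_eq_abs, abs_of_nonneg hv.1]
  nlinarith [hv.2, norm_nonneg (b - a)]

/-- Real direction: a segment of the upper contour. -/
theorem eb_seg_TTkx (r s : ℕ) {a b : ℂ} {h y₀ : ℝ} (hy₀ : 0 < y₀)
    (H : ∀ v ∈ Icc (0 : ℝ) 1, 0 ≤ (a + v * (b - a)).re ∧ (a + v * (b - a)).re ≤ 1 ∧
      ((a + v * (b - a)).re = 0 ∨ (a + v * (b - a)).re = 1 ∨ y₀ ≤ (a + v * (b - a)).im) ∧
      (PhiT r s 1 (a + v * (b - a))).re - 2 * Real.pi * (a + v * (b - a)).im ≤ h) :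
    EB atTop (fun n : ℕ => (n : ℝ)) h
      fun n : ℕ => seg (fun k => TT r s n k * kx k) (n * a) (n * b) := by
  set S : Set ℕ := {n | 1 ≤ (n : ℝ) ∧ 1 / y₀ ≤ n} with hS
  have hSm : S ∈ atTop := (tendsto_natCast_atTop_atTop.eventually_ge_atTop (1 : ℝ)).and
    (tendsto_natCast_atTop_atTop.eventually_ge_atTop (1 / y₀))
  refine PB.eb hSm (fun n _ => Nat.cast_nonneg n) ?_
  refine PB.seg (F := fun (n : ℕ) k => TT r s n k * kx k) (A := ‖b - a‖)
    (fun n _ => Nat.cast_nonneg n) ?_ fun n _ => by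
      rw [← mul_sub, norm_mul, Complex.norm_natCast]; nlinarith [norm_nonneg (b - a)]
  have F : Frame (S ×ˢ Icc (0 : ℝ) 1) (fun p => (p.1 : ℝ)) (fun p => (p.1 : ℂ))
      (fun p => p.1 * (a + p.2 * (b - a))) (fun _ => 0) (fun _ => 0) 1 (1 / 2) 0
      (1 + ‖a‖ + ‖b - a‖) :=
    { hη := one_pos, hη1 := le_rfl, hd := by norm_num, hm := fun _ _ => Nat.cast_nonneg _
      hp := by simp, hq := by simp
      hn := fun p _ => by
        rw [Complex.norm_natCast]
        nlinarith [norm_nonneg a, norm_nonneg (b - a), (Nat.cast_nonneg p.1 : (0 : ℝ) ≤ p.1)]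
      hk := fun p hp => by
        rw [norm_mul, Complex.norm_natCast]
        nlinarith [norm_seg_pt_le a b hp.2, norm_nonneg a, norm_nonneg (b - a),
          (Nat.cast_nonneg p.1 : (0 : ℝ) ≤ p.1), norm_nonneg (a + p.2 * (b - a))]
      s1 := fun p hp => Sec.of_re_nonneg le_rfl (by simp)
      s2 := fun p hp => Sec.of_re_nonneg le_rfl (by
        rw [add_re, re_natCast_mul, natCast_re]; nlinarith [hp.1.1, (H _ hp.2).1])
      g1 := fun p hp => Good.of_re (by simp; linarith [hp.1.1])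
      g2 := fun p hp => Good.of_re (by
        rw [add_zero, add_zero, sub_re, add_re, re_natCast_mul, natCast_re, half_re]
        nlinarith [hp.1.1, (H _ hp.2).1]) }
  refine (((F.TT r s (fun p hp => Sec.of_re_nonneg le_rfl ?_)
    (fun p hp => Sec.of_re_nonneg le_rfl ?_)).mul
      (PB.kx (k := fun p => p.1 * (a + p.2 * (b - a))) fun p hp => ?_)).congr
      (fun p _ => ?_)).mono F.hm fun p hp => ?_
  · rw [re_natCast_mul]; nlinarith [hp.1.1, (H _ hp.2).1]
  · rw [sub_re, re_natCast_mul, natCast_re]; nlinarith [hp.1.1, (H _ hp.2).2.1]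
  · rcases (H _ hp.2).2.2.1 with h1 | h1 | h1
    · exact Or.inl ⟨0, by rw [re_natCast_mul, h1]; simp⟩
    · exact Or.inl ⟨p.1, by rw [re_natCast_mul, h1]; simp⟩
    · right
      rw [im_natCast_mul]
      have := (div_le_iff₀ hy₀).1 hp.1.2
      nlinarith [hp.1.1]
  · simp only [add_zero]
    rw [show (p.1 : ℂ) * a + p.2 * (p.1 * b - p.1 * a) = p.1 * (a + p.2 * (b - a)) by ring]
  · have e2 := PhiT_smul r s (ρ := p.1) (by linarith [hp.1.1]) 1 (a + p.2 * (b - a))
    rw [ofReal_natCast, mul_one] at e2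
    rw [e2, re_natCast_mul, im_natCast_mul]
    nlinarith [hp.1.1, (H _ hp.2).2.2.2]

theorem seg_split3 {F : ℂ → ℂ} (a d : ℂ) {h₀ h₁ h₂ h₃ : ℝ} (h01 : h₀ ≤ h₁) (h12 : h₁ ≤ h₂)
    (h23 : h₂ ≤ h₃) (hF : ∀ v ∈ Icc h₀ h₃, ContinuousAt F (a + v * d)) :
    seg F (a + h₀ * d) (a + h₃ * d) = seg F (a + h₀ * d) (a + h₁ * d) +
      seg F (a + h₁ * d) (a + h₂ * d) + seg F (a + h₂ * d) (a + h₃ * d) := by
  have hi : ∀ x y : ℝ, h₀ ≤ x → x ≤ y → y ≤ h₃ →
      IntervalIntegrable (fun v : ℝ => F (a + v * d) * d) volume x y := by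
    intro x y hx hxy hy
    refine ContinuousOn.intervalIntegrable fun v hv => ?_
    rw [uIcc_of_le hxy] at hv
    exact ((ContinuousAt.comp (f := fun v : ℝ => a + v * d)
      (hF v ⟨hx.trans hv.1, hv.2.trans hy⟩) (by fun_prop)).mul continuousAt_const).continuousWithinAt
  simp only [seg_param]
  rw [intervalIntegral.integral_add_adjacent_intervals (hi _ _ le_rfl h01 (h12.trans h23))
    (hi _ _ h01 h12 h23), intervalIntegral.integral_add_adjacent_intervals
    (hi _ _ le_rfl (h01.trans h12) h23) (hi _ _ (h01.trans h12) h23 le_rfl)]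

theorem hasDerivAt_PhiT (r s : ℕ) {t : ℂ} (h1 : 1 + t ∈ slitPlane) (h2 : t ∈ slitPlane)
    (h3 : 1 - t ∈ slitPlane) :
    HasDerivAt (PhiT r s 1) (s * log (1 + t) - (r + s) * log t + r * log (1 - t)) t := by
  have a1 := ((hasDerivAt_LL h1).comp t ((hasDerivAt_id t).const_add 1)).const_mul (s : ℂ)
  have a2 := (hasDerivAt_LL h2).const_mul ((r : ℂ) + s)
  have a3 := ((hasDerivAt_LL h3).comp t ((hasDerivAt_id t).const_sub 1)).const_mul (r : ℂ)
  exact (((a1.const_add ((r - s) * LL 1)).sub a2).sub a3).congr_deriv (by ring)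

theorem slit_of_im {z : ℂ} (h : z.im ≠ 0) : z ∈ slitPlane := Or.inr h

theorem eventually_im_pos {t : ℂ} (h : 0 < t.im) : ∀ᶠ z in 𝓝 t, t.im / 2 < z.im :=
  ContinuousAt.eventually_lt continuousAt_const (by fun_prop) (by linarith)

theorem tendsto_ex_zero {t : ℂ} (h : 0 < t.im) :
    Tendsto (fun p : ℕ × ℂ => ex (p.1 * p.2)) (atTop ×ˢ 𝓝 t) (𝓝 0) := by
  rw [tendsto_zero_iff_norm_tendsto_zero]
  simp only [norm_ex]
  refine Real.tendsto_exp_neg_atTop_nhds_zero.comp ?_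
  refine tendsto_atTop_mono' _ (f₁ := fun p : ℕ × ℂ => (p.1 : ℝ) * (2 * Real.pi * (t.im / 2))) ?_
    ((tendsto_natCast_atTop_atTop.comp tendsto_fst).atTop_mul_const (by positivity))
  filter_upwards [tendsto_snd.eventually (eventually_im_pos h)] with p hp
  rw [im_natCast_mul]
  have : (0 : ℝ) ≤ p.1 * (2 * Real.pi) := by positivity
  nlinarith

end Pool.Agent.MP_6026f4_co

end

section

namespace Pool.Agent.MP_6026f4_co

open Complex Set Filter Topology MeasureTheory Asymptotics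
open scoped ComplexConjugate

/-- Integral of a left piece along the upper imaginary axis. -/
noncomputable def UP (r s : ℕ) (e : ℝ) (n : ℂ) : ℂ := ray (PP r s e n) 0 I

/-- Integral of a left piece along the lower imaginary axis, from zero. -/
noncomputable def DP (r s : ℕ) (e : ℝ) (n : ℂ) : ℂ := ray (PP r s e n) 0 (-I)

/-- Integral of a left piece along the whole imaginary axis. -/
noncomputable def MM (r s : ℕ) (e : ℝ) (n : ℂ) : ℂ := UP r s e n - DP r s e n

/-- The upper right wing. -/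
noncomputable def UR (r s j : ℕ) (n : ℂ) : ℂ :=
  ray (fun k => TT r s n k * ex (k - n) ^ j * kx (k - n)) n I

theorem dual_UP (r s : ℕ) (e : ℝ) : dual (UP r s e) = DP r s (-e) := by
  ext n
  simp only [dual, UP, DP, ray_conj, map_zero, conj_I, ← PP_conj, conj_conj]

theorem EB.of_forall_pos {ι : Type*} {l : Filter ι} {ρ : ι → ℝ} {h c₀ : ℝ} {f : ι → ℂ}
    (hc₀ : 0 < c₀) (H : ∀ c : ℝ, 0 < c → c ≤ c₀ → EB l ρ (h + c) f) : EB l ρ h f := fun γ hγ =>
  H (min c₀ ((γ - h) / 2)) (lt_min hc₀ (by linarith)) (min_le_left _ _) γ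
    (by linarith [min_le_right c₀ ((γ - h) / 2)])

section Diff
variable {E : Type*} [NormedAddCommGroup E] [NormedSpace ℂ E] {n k : E → ℂ} {x : E}

theorem diffAt_PP (r s : ℕ) (e : ℝ) (hn : DifferentiableAt ℂ n x) (hk : DifferentiableAt ℂ k x)
    (h1 : NP (n x)) (h2 : NP (n x + k x - 1 / 2)) (h3 : NP (1 / 2 - k x)) :
    DifferentiableAt ℂ (fun y => PP r s e (n y) (k y)) x :=
  ((diffAt_TH r s hn hk h1 h2 h3).const_mul _).mul (hk.const_mul _).cexp

end Diff

theorem contAt_PP {X : Type*} [TopologicalSpace X] {n k : X → ℂ} {x : X} (r s : ℕ) (e : ℝ)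
    (hn : ContinuousAt n x) (hk : ContinuousAt k x)
    (h1 : NP (n x)) (h2 : NP (n x + k x - 1 / 2)) (h3 : NP (1 / 2 - k x)) :
    ContinuousAt (fun y => PP r s e (n y) (k y)) x :=
  ((contAt_TH r s hn hk h1 h2 h3).const_mul _).mul (hk.const_mul _).cexp

theorem PB_UP (r s : ℕ) (hs : 1 ≤ s) {e : ℝ} (he : 1 - s ≤ e) :
    PB ({n : ℂ | 1 ≤ n.re} ×ˢ Ioi (0 : ℝ)) (fun p => ‖p.1‖ + p.2)
      (fun p => PP r s e p.1 (0 + p.2 * I)) fun p => 4 * (s + s ^ 2) * ‖p.1‖ - 2 * p.2 := by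
  have F : Frame ({n : ℂ | 1 ≤ n.re} ×ˢ Ioi (0 : ℝ)) (fun p => ‖p.1‖ + p.2) (fun p => p.1)
      (fun p => p.2 * I) (fun _ => 0) (fun _ => 0) 1 (1 / 2) 0 1 :=
    { hη := one_pos, hη1 := le_rfl, hd := by norm_num
      hm := fun p hp => add_nonneg (norm_nonneg _) (le_of_lt hp.2)
      hp := by simp, hq := by simp
      hn := fun p hp => by linarith [show 0 < p.2 from hp.2]
      hk := fun p hp => by
        simp [abs_of_pos (show 0 < p.2 from hp.2)]; linarith [norm_nonneg p.1]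
      s1 := fun p hp => Sec.of_re_nonneg le_rfl (by linarith [show 1 ≤ p.1.re from hp.1])
      s2 := fun p hp => Sec.of_re_nonneg le_rfl (by simp; linarith [show 1 ≤ p.1.re from hp.1])
      g1 := fun p hp => Good.of_re (by simp; linarith [show 1 ≤ p.1.re from hp.1])
      g2 := fun p hp => Good.of_re (by simp; linarith [show 1 ≤ p.1.re from hp.1]) }
  refine (((F.TH r s (fun p hp => Sec.of_re_nonneg le_rfl (by simp))
    (fun p hp => Sec.of_re_nonneg le_rfl (by simp; linarith [show 1 ≤ p.1.re from hp.1]))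
    (fun p hp => Good.of_re (by simp))).PP_of_TH r s e).congr (fun p _ => by simp)).mono F.hm
    fun p hp => ?_
  have hn : 0 < p.1.re := by linarith [show 1 ≤ p.1.re from hp.1]
  have hτ : 0 < p.2 := hp.2
  have hs' : (1 : ℝ) ≤ s := by exact_mod_cast hs
  have h1 := LL_vert_upper hn (ε := 1 / s) (by positivity) p.2
  have h2 := LL_vert_lower hn (-p.2)
  have h3 := LL_mul_I_re (-p.2)
  rw [abs_neg, abs_of_pos hτ] at h2 h3
  rw [abs_of_pos hτ, one_div_one_div] at h1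
  rw [ofReal_neg, neg_mul] at h2 h3
  rw [← sub_eq_add_neg] at h2
  have h4 := mul_le_mul_of_nonneg_left h1 (Nat.cast_nonneg s : (0 : ℝ) ≤ s)
  have h5 := mul_le_mul_of_nonneg_left h2 (Nat.cast_nonneg r : (0 : ℝ) ≤ r)
  have h6 : (s : ℝ) * (1 / s) = 1 := by field_simp
  have h7 : Real.pi * (1 - s) * p.2 ≤ Real.pi * e * p.2 := by gcongr
  have h8 : 3 * p.2 ≤ Real.pi * p.2 := by gcongr; exact Real.pi_gt_three.le
  simp [PhiH, Phi0, h3]
  nlinarith

theorem cont_PP_vert (r s : ℕ) (e : ℝ) {n : ℂ} (hn : 1 / 2 < n.re) {d : ℂ} (hd : d.re = 0) :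
    Continuous fun τ : ℝ => PP r s e n (0 + τ * d) :=
  continuous_iff_continuousAt.2 fun τ => contAt_PP r s e continuousAt_const (by fun_prop)
    (NP.of_re (by linarith)) (NP.of_re (by simp [hd]; linarith)) (NP.of_re (by simp [hd]))

theorem rayInt_UP (r s : ℕ) (hs : 1 ≤ s) {e : ℝ} (he : 1 - s ≤ e) {n : ℂ} (hn : 1 ≤ n.re) :
    RayInt (PP r s e n) 0 I :=
  PB.rayInt (S := {n : ℂ | 1 ≤ n.re}) (m := fun n => ‖n‖) (F := fun n => PP r s e n) (a := fun _ => 0) (d := fun _ => I)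
    (h := fun n => 4 * (s + s ^ 2) * ‖n‖) two_pos (fun _ _ => norm_nonneg _) (PB_UP r s hs he) hn
    (cont_PP_vert r s e (by linarith) I_re).continuousOn

theorem rayInt_conj {F : ℂ → ℂ} {a d : ℂ} (h : RayInt F a d) :
    RayInt (fun z => conj (F (conj z))) (conj a) (conj d) := by
  have := (conjCLE : ℂ →L[ℝ] ℂ).integrable_comp h
  refine IntegrableOn.congr_fun this (fun τ _ => ?_) measurableSet_Ioi
  simp

theorem rayInt_DP (r s : ℕ) (hs : 1 ≤ s) {e : ℝ} (he : e ≤ s - 1) {n : ℂ} (hn : 1 ≤ n.re) :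
    RayInt (PP r s e n) 0 (-I) := by
  have := rayInt_conj (rayInt_UP r s hs (e := -e) (by linarith) (n := conj n) (by simpa using hn))
  simpa only [map_zero, conj_I, ← PP_conj, conj_conj, neg_neg] using this

theorem ent_UP (r s : ℕ) (hs : 1 ≤ s) {e : ℝ} (he : 1 - s ≤ e) : Ent (UP r s e) :=
  Ent.ray (F := fun n => PP r s e n) (a := fun _ => 0) two_pos (by simp)
    (fun τ _ n hn => diffAt_PP (n := fun n => n) r s e differentiableAt_id
      (differentiableAt_const _) (NP.of_re (by linarith)) (NP.of_re (by simp; linarith)) (NP.of_re (by simp)))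
    (fun n hn => (cont_PP_vert r s e (by linarith) I_re).continuousOn) (PB_UP r s hs he)

theorem ent_DP (r s : ℕ) (hs : 1 ≤ s) {e : ℝ} (he : e ≤ s - 1) : Ent (DP r s e) := by
  have := (ent_UP r s hs (e := -e) (by linarith)).dual
  rwa [dual_UP, neg_neg] at this

theorem ent_MM (r s : ℕ) (hs : 1 ≤ s) {e : ℝ} (he : 1 - s ≤ e) (he' : e ≤ s - 1) :
    Ent (MM r s e) := (ent_UP r s hs he).sub (ent_DP r s hs he')

/-- The frame for a vertical line of integration with real part `x ∈ [-1/2, 0]`, starting at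
height `a T`, on the line `σ T I + 3/2`. -/
theorem frame_line (σ a : ℝ) :
    Frame (Ici (0 : ℝ) ×ˢ Ioi (0 : ℝ)) (fun p => p.1 + p.2) (fun p => ((σ * p.1 : ℝ) : ℂ) * I)
      (fun p => ((a * p.1 + p.2 : ℝ) : ℂ) * I) (fun _ => ((3 / 2 : ℝ) : ℂ)) (fun _ => ((0 : ℝ) : ℂ))
      1 (1 / 2) 2 (1 + |σ| + |a|) := by
  refine frame_crude (by norm_num) (fun p hp => add_nonneg hp.1 (le_of_lt hp.2))
    (fun _ _ => by norm_num [abs_of_pos]) (fun _ _ => by norm_num) (fun _ _ => by norm_num)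
    (fun p hp => ?_) (fun p hp => ?_) (fun p hp => Good.of_re (by simp; norm_num))
  · have h1 : 0 ≤ p.1 := hp.1
    have h2 : 0 < p.2 := hp.2
    rw [abs_mul, abs_of_nonneg h1]
    nlinarith [abs_nonneg σ, abs_nonneg a]
  · have h1 : 0 ≤ p.1 := hp.1
    have h2 : 0 < p.2 := hp.2
    have := abs_add_le (a * p.1) p.2
    rw [abs_mul, abs_of_nonneg h1, abs_of_pos h2] at this
    nlinarith [abs_nonneg σ, abs_nonneg a]

theorem growP_UP (r s : ℕ) {e : ℝ} (he : 1 - s ≤ e) : GrowP 0 (UP r s e) := by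
  refine PB.eb (S := Ici 0) (Ici_mem_atTop 0) (fun _ h => h) ?_
  refine PB.ray (F := fun T : ℝ => PP r s e (T * I + 3 / 2)) (a := fun _ => 0) (d := fun _ => I)
    one_pos (fun _ h => h) (by simp) ?_
  refine ((crude_PP r s e (frame_line 1 0) fun p _ => Good.of_re (by simp)).congr
    fun p _ => by simp).mono (frame_line 1 0).hm fun p hp => ?_
  have h1 : 0 ≤ p.1 := hp.1
  have h2 : 0 < p.2 := hp.2
  have hr : (0 : ℝ) ≤ r := Nat.cast_nonneg r
  have h7 : Real.pi * (1 - s) * p.2 ≤ Real.pi * e * p.2 := by gcongr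
  have h8 : 3 * p.2 ≤ Real.pi * p.2 := by gcongr; exact Real.pi_gt_three.le
  have h9 : |p.1 - p.2| ≤ p.1 + p.2 := by rw [abs_le]; constructor <;> linarith
  have h10 : Real.pi / 2 * (r * |p.1 - p.2|) ≤ Real.pi / 2 * (r * (p.1 + p.2)) := by
    gcongr
  simp only [one_mul, zero_mul, zero_add]
  rw [abs_of_nonneg h1, abs_of_pos h2, abs_of_nonneg (by linarith : 0 ≤ p.1 + p.2)]
  nlinarith

theorem growM_UP (r s : ℕ) (hs : 1 ≤ s) {e : ℝ} (he : 0 ≤ e) : GrowM 0 (UP r s e) := by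
  refine EB.of_forall_pos one_pos fun c hc hc1 => ?_
  refine PB.eb (S := Ici 0) (Ici_mem_atTop 0) (fun _ h => h) ?_
  refine PB.ray (F := fun T : ℝ => PP r s e (-(T * I) + 3 / 2)) (a := fun _ => 0)
    (d := fun _ => I) hc (fun _ h => h) (by simp) ?_
  refine ((crude_PP r s e (frame_line (-1) 0) fun p _ => Good.of_re (by simp)).congr
    fun p _ => by simp).mono (frame_line (-1) 0).hm fun p hp => ?_
  have h1 : 0 ≤ p.1 := hp.1
  have h2 : 0 < p.2 := hp.2
  have hs' : (1 : ℝ) ≤ s := by exact_mod_cast hs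
  have h7 : 0 ≤ Real.pi * e * p.2 := by positivity
  have hpi := Real.pi_gt_three
  simp only [neg_mul, one_mul, zero_mul, zero_add, abs_neg]
  rw [abs_of_nonneg h1, abs_of_pos h2, abs_of_nonpos (by linarith : -p.1 - p.2 ≤ 0)]
  rcases le_total p.2 p.1 with h | h
  · rw [abs_of_nonpos (by linarith : -p.1 + p.2 ≤ 0)]
    nlinarith
  · rw [abs_of_nonneg (by linarith : 0 ≤ -p.1 + p.2)]
    have : c * (p.2 - p.1) ≤ Real.pi * s * (p.2 - p.1) := by gcongr; nlinarith
    nlinarith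

theorem growM_DP (r s : ℕ) {e : ℝ} (he : e ≤ s - 1) : GrowM 0 (DP r s e) := by
  have := (growP_UP r s (e := -e) (by linarith)).dual
  rwa [dual_UP, neg_neg] at this

theorem growP_DP (r s : ℕ) (hs : 1 ≤ s) {e : ℝ} (he : e ≤ 0) : GrowP 0 (DP r s e) := by
  have := (growM_UP r s hs (e := -e) (by linarith)).dual
  rwa [dual_UP, neg_neg] at this

theorem PB_UR (r s j : ℕ) (hs : 1 ≤ s) (hj : r ≤ j + 1) :
    PB ({n : ℂ | 1 ≤ n.re} ×ˢ Ioi (0 : ℝ)) (fun p => ‖p.1‖ + p.2)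
      (fun p => TT r s p.1 (p.1 + p.2 * I) * ex (p.1 + p.2 * I - p.1) ^ j *
        kx (p.1 + p.2 * I - p.1)) fun p => (10 * s + 8 * s ^ 2) * ‖p.1‖ - 2 * p.2 := by
  have F : Frame ({n : ℂ | 1 ≤ n.re} ×ˢ Ioi (0 : ℝ)) (fun p => ‖p.1‖ + p.2) (fun p => p.1)
      (fun p => p.1 + p.2 * I) (fun _ => 0) (fun _ => 0) 1 (1 / 2) 0 1 :=
    { hη := one_pos, hη1 := le_rfl, hd := by norm_num
      hm := fun p hp => add_nonneg (norm_nonneg _) (le_of_lt hp.2)
      hp := by simp, hq := by simp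
      hn := fun p hp => by linarith [show 0 < p.2 from hp.2]
      hk := fun p hp => by
        have := norm_add_le p.1 (p.2 * I)
        simp [abs_of_pos (show 0 < p.2 from hp.2)] at this ⊢; linarith
      s1 := fun p hp => Sec.of_re_nonneg le_rfl (by linarith [show 1 ≤ p.1.re from hp.1])
      s2 := fun p hp => Sec.of_re_nonneg le_rfl (by simp; linarith [show 1 ≤ p.1.re from hp.1])
      g1 := fun p hp => Good.of_re (by simp; linarith [show 1 ≤ p.1.re from hp.1])
      g2 := fun p hp => Good.of_re (by simp; linarith [show 1 ≤ p.1.re from hp.1]) }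
  refine ((((F.TT r s (fun p hp => Sec.of_re_nonneg le_rfl
    (by simp; linarith [show 1 ≤ p.1.re from hp.1]))
    (fun p hp => Sec.of_re_nonneg le_rfl (by simp))).mul
    (PB.ex_pow (fun p => p.1 + p.2 * I - p.1) j)).mul
    (PB.kx (k := fun p => p.1 + p.2 * I - p.1) fun p _ => Or.inl ⟨0, by simp⟩)).congr
    (fun p _ => by simp)).mono F.hm fun p hp => ?_
  have hn : 0 < p.1.re := by linarith [show 1 ≤ p.1.re from hp.1]
  have hτ : 0 < p.2 := hp.2
  have hs' : (1 : ℝ) ≤ s := by exact_mod_cast hs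
  have h1 := LL_vert_upper (n := ((2 : ℝ) : ℂ) * p.1) (by simpa using hn) (ε := 1 / s)
    (by positivity) p.2
  have h2 := LL_vert_lower hn p.2
  have h3 := LL_mul_I_re (-p.2)
  rw [abs_neg, abs_of_pos hτ, ofReal_neg, neg_mul] at h3
  rw [abs_of_pos hτ] at h2
  rw [abs_of_pos hτ, one_div_one_div, LL_ofReal_mul two_pos, norm_mul,
    show ((2 : ℝ) : ℂ) * p.1 + p.2 * I = p.1 + (p.1 + p.2 * I) by push_cast; ring] at h1
  simp only [add_re, re_ofReal_mul, ← ofReal_mul, norm_real, Real.norm_ofNat] at h1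
  have h0 : 2 * Real.log 2 * p.1.re ≤ 2 * ‖p.1‖ := by
    nlinarith [Real.log_two_lt_d9, re_le_norm p.1]
  have h4 := mul_le_mul_of_nonneg_left (h1.trans (by gcongr : _ ≤ 2 * (LL p.1).re + 2 * ‖p.1‖ -
    (Real.pi / 2 - 1 / s) * p.2 + 4 * (1 + s) * (2 * ‖p.1‖))) (Nat.cast_nonneg s : (0 : ℝ) ≤ s)
  have h5 := mul_le_mul_of_nonneg_left h2 (by positivity : (0 : ℝ) ≤ r + s)
  have h6 : (s : ℝ) * (1 / s) = 1 := by field_simp
  have hj' : (r : ℝ) ≤ 2 * j + 1 := by
    have : r ≤ 2 * j + 1 := by omega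
    exact_mod_cast this
  have h7 : Real.pi * r * p.2 ≤ Real.pi * (2 * j + 1) * p.2 := by gcongr
  have h8 : 3 * p.2 ≤ Real.pi * p.2 := by gcongr; exact Real.pi_gt_three.le
  simp [PhiT, Phi0, h3]
  nlinarith

theorem cont_UR (r s j : ℕ) {n : ℂ} (hn : 1 / 2 < n.re) :
    Continuous fun τ : ℝ => TT r s n (n + τ * I) * ex (n + τ * I - n) ^ j * kx (n + τ * I - n) :=
  continuous_iff_continuousAt.2 fun τ => ((contAt_TT r s continuousAt_const (by fun_prop)
    (NP.of_re (by linarith)) (NP.of_re (by simp; linarith))).mul (by fun_prop)).mul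
    (ContinuousAt.comp (f := fun τ : ℝ => n + τ * I - n)
      (contAt_kx (one_add_ex_ne_zero_of_re 0 (by simp))) (by fun_prop))

theorem rayInt_UR (r s j : ℕ) (hs : 1 ≤ s) (hj : r ≤ j + 1) {n : ℂ} (hn : 1 ≤ n.re) :
    RayInt (fun k => TT r s n k * ex (k - n) ^ j * kx (k - n)) n I :=
  PB.rayInt (S := {n : ℂ | 1 ≤ n.re}) (m := fun n => ‖n‖) (F := fun n k => TT r s n k * ex (k - n) ^ j * kx (k - n)) (a := fun n => n)
    (d := fun _ => I) (h := fun n => (10 * s + 8 * s ^ 2) * ‖n‖) two_pos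
    (fun _ _ => norm_nonneg _) (PB_UR r s j hs hj) hn
    (cont_UR r s j (by linarith)).continuousOn

theorem ent_UR (r s j : ℕ) (hs : 1 ≤ s) (hj : r ≤ j + 1) : Ent (UR r s j) :=
  Ent.ray (F := fun n k => TT r s n k * ex (k - n) ^ j * kx (k - n)) (a := fun n => n) two_pos
    (by simp)
    (fun τ _ n hn => by
      simp only [add_sub_cancel_left]
      exact ((diffAt_TT r s differentiableAt_id (by fun_prop) (NP.of_re (by simp; linarith))
        (NP.of_re (by simp; linarith))).mul_const _).mul_const _)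
    (fun n hn => (cont_UR r s j (by linarith)).continuousOn) (PB_UR r s j hs hj)

theorem growP_UR (r s j : ℕ) (hj : r ≤ j + 1) : GrowP 0 (UR r s j) := by
  refine PB.eb (S := Ici 0) (Ici_mem_atTop 0) (fun _ h => h) ?_
  refine PB.ray (F := fun (T : ℝ) k => TT r s (T * I + 3 / 2) k * ex (k - (T * I + 3 / 2)) ^ j *
    kx (k - (T * I + 3 / 2))) (a := fun T => T * I + 3 / 2) (d := fun _ => I)
    one_pos (fun _ h => h) (by simp) ?_
  have F := frame_crude (S := Ici (0 : ℝ) ×ˢ Ioi (0 : ℝ)) (m := fun p => p.1 + p.2)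
    (T := fun p => p.1) (τ := fun p => p.1 + p.2) (p := fun _ => 3 / 2) (q := fun _ => 3 / 2)
    (d := 1 / 2) (C₀ := 2) (A := 1) (by norm_num) (fun p hp => add_nonneg hp.1 (le_of_lt hp.2))
    (fun _ _ => by norm_num [abs_of_pos]) (fun _ _ => by norm_num)
    (fun _ _ => by norm_num [abs_of_pos])
    (fun p hp => by rw [abs_of_nonneg hp.1]; linarith [show 0 < p.2 from hp.2])
    (fun p hp => by rw [abs_of_nonneg (add_nonneg hp.1 (le_of_lt hp.2))]; linarith)
    (fun p hp => Good.of_re (by simp; norm_num))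
  refine ((((crude_TT r s F).mul (PB.ex_pow (fun p => p.2 * I) j)).mul
    (PB.kx (k := fun p => p.2 * I) fun p _ => Or.inl ⟨0, by simp⟩)).congr
    fun p _ => ?_).mono F.hm fun p hp => ?_
  · simp only [add_sub_cancel_left]
    congr 3
    · push_cast; ring
    · push_cast; ring
  have h1 : 0 ≤ p.1 := hp.1
  have h2 : 0 < p.2 := hp.2
  have hj' : (r : ℝ) ≤ j + 1 := by exact_mod_cast hj
  have h7 : Real.pi * r * p.2 ≤ Real.pi * (j + 1) * p.2 := by gcongr
  have h8 : 3 * p.2 ≤ Real.pi * p.2 := by gcongr; exact Real.pi_gt_three.le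
  have h9 : 0 ≤ Real.pi * j * p.2 := by positivity
  rw [abs_of_nonneg h1, abs_of_nonneg (by linarith : 0 ≤ p.1 + p.2),
    abs_of_nonneg (by linarith : 0 ≤ p.1 + (p.1 + p.2)),
    abs_of_nonpos (by linarith : p.1 - (p.1 + p.2) ≤ 0)]
  simp
  nlinarith

end Pool.Agent.MP_6026f4_co

end

section

namespace Pool.Agent.MP_6026f4_co

open Complex Set Filter Topology MeasureTheory Asymptotics
open scoped ComplexConjugate

theorem not_sm_four (r s : ℕ) (hr : 4 ≤ r) (hs : 1 ≤ s) :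
    ¬ IsStieltjesMoment fun n => (apery r s n : ℝ) := by
  obtain ⟨t, hy, hx0, hx1, heq, hΨ, hI1, hI2, hL, hR, hmono, hanti⟩ := saddle_four r s hr hs
  set Φ : ℂ → ℂ := fun z => PhiT r s 1 z + 2 * Real.pi * I * z with hΦ
  have hΦre : ∀ z, (Φ z).re = (PhiT r s 1 z).re - 2 * Real.pi * z.im := by
    intro z; simp [hΦ]; ring
  have s1 : 1 + t ∈ slitPlane := slit_of_im (by simpa using hy.ne')
  have s2 : t ∈ slitPlane := slit_of_im hy.ne'
  have s3 : 1 - t ∈ slitPlane := slit_of_im (by simpa using hy.ne')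
  obtain ⟨g, hg, hamp⟩ := tendsto_amp_TT r s s1 s2 s3
  have hev : ∀ᶠ p : ℕ × ℂ in atTop ×ˢ 𝓝 t, 0 < p.1 ∧ 0 < p.2.im := by
    filter_upwards [tendsto_fst.eventually (eventually_gt_atTop 0),
      tendsto_snd.eventually (eventually_im_pos hy)] with p h1 h2 using ⟨h1, by linarith⟩
  obtain ⟨c, hc, δ₁, hδ₁, hlap⟩ := laplace_seg (F := fun n k => TT r s n k * kx k) (Φ := Φ)
    (Φ' := fun z => s * log (1 + z) - (r + s) * log z + r * log (1 - z) + 2 * Real.pi * I)
    (t₀ := t) (d := 1) (Ψ := s / (1 + t) - (r + s) / t - r / (1 - t)) (g := g)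
    (β := ((r + s : ℕ) : ℝ) / 2) one_ne_zero
    (by
      filter_upwards [eventually_im_pos hy] with z hz
      have hz' : z.im ≠ 0 := by linarith
      exact (hasDerivAt_PhiT r s (slit_of_im (by simpa using hz')) (slit_of_im hz')
        (slit_of_im (by simpa using hz'))).add
        (by simpa using (hasDerivAt_id z).const_mul (2 * Real.pi * I)))
    heq
    (by
      have a1 := (((hasDerivAt_id t).const_add 1).clog s1).const_mul (s : ℂ)
      have a2 := ((hasDerivAt_id t).clog s2).const_mul ((r : ℂ) + s)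
      have a3 := (((hasDerivAt_id t).const_sub 1).clog s3).const_mul (r : ℂ)
      exact (((a1.sub a2).add a3).add_const _).congr_deriv (by simp only [id]; ring))
    (by simpa using hΨ) hg
    (by
      filter_upwards [hev] with p ⟨h1, h2⟩
      have h3 : ((p.1 : ℂ) * p.2).im ≠ 0 := by
        rw [im_natCast_mul]; positivity
      exact (contAt_TT r s continuousAt_const continuousAt_id (NP.of_re (by simpa using h1))
        (NP.of_im (by simpa using h3))).mul (contAt_kx (one_add_ex_ne_zero_of_im h3)))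
    (by
      have := hamp.mul (((tendsto_ex_zero hy).const_add 1).inv₀ (by simp))
      simp only [add_zero, inv_one, mul_one] at this
      refine this.congr fun p => ?_
      simp only [hΦ, kx, ex, mul_add, neg_add, exp_add, exp_neg (p.1 * (2 * Real.pi * I * p.2))]
      rw [show (p.1 : ℂ) * (2 * Real.pi * I * p.2) = 2 * Real.pi * I * (p.1 * p.2) by ring]
      have := exp_ne_zero (2 * Real.pi * I * (p.1 * p.2))
      field_simp)
  set δ := min δ₁ (min t.re (1 - t.re)) with hδ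
  have hδ0 : 0 < δ := lt_min hδ₁ (lt_min hx0 (by linarith))
  have hδa : δ ≤ t.re := (min_le_right _ _).trans (min_le_left _ _)
  have hδb : δ ≤ 1 - t.re := (min_le_right _ _).trans (min_le_right _ _)
  obtain ⟨hp, hm, hV⟩ := hlap δ hδ0 (min_le_left _ _)
  set h := max (Φ (t + δ * 1)).re (Φ (t - δ * 1)).re with hh
  have ep : t + δ * 1 = ((t.re + δ : ℝ) : ℂ) + t.im * I := by
    apply Complex.ext <;> simp
  have em : t - δ * 1 = ((t.re - δ : ℝ) : ℂ) + t.im * I := by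
    apply Complex.ext <;> simp
  have hle1 : ∀ x ∈ Icc 0 (t.re - δ), (PhiT r s 1 (x + t.im * I)).re - 2 * Real.pi * t.im ≤ h := by
    intro x hx
    have := hmono ⟨hx.1, by linarith [hx.2]⟩ ⟨by linarith, by linarith⟩ hx.2
    refine le_trans ?_ (le_max_right _ _)
    rw [hΦre, em]
    simpa using this
  have hle2 : ∀ x ∈ Icc (t.re + δ) 1, (PhiT r s 1 (x + t.im * I)).re - 2 * Real.pi * t.im ≤ h := by
    intro x hx
    have := hanti ⟨by linarith, by linarith⟩ ⟨by linarith [hx.1], hx.2⟩ hx.1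
    refine le_trans ?_ (le_max_left _ _)
    rw [hΦre, ep]
    simpa using this
  have E1 := eb_seg_TTkx r s (a := 1) (b := 1 + t.im * I) (h := h) hy fun v hv => by
    have hv' : v * t.im ∈ Icc 0 t.im := ⟨by nlinarith [hv.1], by nlinarith [hv.2]⟩
    rw [show 1 + v * (1 + t.im * I - 1) = 1 + ((v * t.im : ℝ) : ℂ) * I by push_cast; ring]
    refine ⟨by simp, by simp, by simp, ?_⟩
    have := hle2 1 ⟨by linarith, le_rfl⟩
    have := hR _ hv'
    simp at *
    linarith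
  have E2 := eb_seg_TTkx r s (a := 0) (b := t.im * I) (h := h) hy fun v hv => by
    have hv' : v * t.im ∈ Icc 0 t.im := ⟨by nlinarith [hv.1], by nlinarith [hv.2]⟩
    rw [show 0 + v * (t.im * I - 0) = ((v * t.im : ℝ) : ℂ) * I by push_cast; ring]
    refine ⟨by simp, by simp, by simp, ?_⟩
    have := hle1 0 ⟨le_rfl, by linarith⟩
    have := hL _ hv'
    simp at *
    linarith
  have E3 := eb_seg_TTkx r s (a := t.im * I) (b := t - δ * 1) (h := h) hy fun v hv => by
    have hv' : v * (t.re - δ) ∈ Icc 0 (t.re - δ) := ⟨by nlinarith [hv.1], by nlinarith [hv.2]⟩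
    rw [em, show t.im * I + v * (((t.re - δ : ℝ) : ℂ) + t.im * I - t.im * I) =
      ((v * (t.re - δ) : ℝ) : ℂ) + t.im * I by push_cast; ring]
    refine ⟨by simpa using hv'.1, by simp; linarith [hv'.2], by simp, ?_⟩
    simpa using hle1 _ hv'
  have E4 := eb_seg_TTkx r s (a := t + δ * 1) (b := 1 + t.im * I) (h := h) hy fun v hv => by
    have hv' : t.re + δ + v * (1 - (t.re + δ)) ∈ Icc (t.re + δ) 1 :=
      ⟨by nlinarith [hv.1], by nlinarith [hv.2]⟩
    rw [ep, show ((t.re + δ : ℝ) : ℂ) + t.im * I + v * (1 + t.im * I - (((t.re + δ : ℝ) : ℂ) +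
      t.im * I)) = ((t.re + δ + v * (1 - (t.re + δ)) : ℝ) : ℂ) + t.im * I by push_cast; ring]
    refine ⟨by simp; linarith [hv'.1], by simpa using hv'.2, by simp, ?_⟩
    simpa using hle2 _ hv'
  have E := ((E1.sub E3).sub E4).sub E2
  refine not_sm_wrap (ent_SS r s 0) le_rfl le_rfl (growP_SS r s) (growM_SS r s 0)
    (θ := (Φ t).im) (by linarith [Real.pi_pos]) (by linarith) ?_ (Or.inr rfl)
    (neg_ne_zero.2 hc) (V := fun n => -seg (fun k => TT r s n k * kx k) (n * (t - δ * 1))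
      (n * (t + δ * 1))) (by simpa only [neg_mul, neg_div] using hV.neg) (E.add E.conj)
    (max_lt hp hm) (Eventually.of_forall fun ν => ?_)
  · have := Real.sin_pos_of_pos_of_lt_pi (x := (Φ t).im - Real.pi) (by linarith) (by linarith)
    rw [Real.sin_sub_pi] at this
    linarith
  · set n : ℕ := ν + 1 with hn
    have hn0 : (0 : ℝ) < n := by positivity
    have hsplit := seg_split3 (F := fun k => TT r s n k * kx k) (n * (t.im * I)) n (h₀ := 0)
      (h₁ := t.re - δ) (h₂ := t.re + δ) (h₃ := 1) (by linarith) (by linarith) (by linarith)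
      fun v hv => by
        have h3 : ((n : ℂ) * (t.im * I) + v * n).im ≠ 0 := by simpa using hy.ne'
        exact (contAt_TT r s continuousAt_const continuousAt_id (NP.of_re (by simpa using hn0))
          (NP.of_im (by simpa using h3))).mul (contAt_kx (one_add_ex_ne_zero_of_im h3))
    have e1 : (n : ℂ) * (t.im * I) + ((t.re - δ : ℝ) : ℂ) * n = n * (t - δ * 1) := by rw [em]; ring
    have e2 : (n : ℂ) * (t.im * I) + ((t.re + δ : ℝ) : ℂ) * n = n * (t + δ * 1) := by rw [ep]; ring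
    have e3 : (n : ℂ) * (t.im * I) + ((1 : ℝ) : ℂ) * n = n * (1 + t.im * I) := by push_cast; ring
    rw [e1, e2, e3, ofReal_zero, zero_mul, add_zero] at hsplit
    have e4 : ((n * t.im : ℝ) : ℂ) * I = n * (t.im * I) := by push_cast; ring
    rw [ofReal_natCast, apery_eq_contour r s ν (H := n * t.im) (by positivity), SS_zero, upper,
      ← hn, e4, ← mul_one_add, hsplit]
    simp only [mul_one, mul_zero, map_sub, map_add, map_neg]
    ring

end Pool.Agent.MP_6026f4_co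

end
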