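import Pool.Agent.Mg.F6026f4p.G15cdcf
import Pool.Agent.MP_6026f4_co.CXCls

section

/- The recurrence of the numbers `apery 2 1 n` and the comparison of two positive solutions. -/

namespace Pool.Agent.MP_6026f4_co.CX

/-- The three term recurrence, from the index `1` on. -/
def Rec (y : ℕ → ℝ) : Prop := ∀ m : ℕ, 1 ≤ m →
  ((m : ℝ) + 2) ^ 2 * y (m + 2) =
    (11 * (m + 1) ^ 2 + 11 * (m + 1) + 3) * y (m + 1) + (m + 1) ^ 2 * y m

theorem apery_rec21 (m : ℕ) :
    ((m : ℝ) + 2) ^ 2 * apery 2 1 (m + 1 + 1) -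
      (11 * (m + 1) ^ 2 + 11 * (m + 1) + 3) * apery 2 1 (m + 1) -
      (m + 1) ^ 2 * apery 2 1 m = 0 := by
  rw [apery_eq_sum 2 1 (m + 1 + 1) (m + 3) two_ne_zero (by omega),
    apery_eq_sum 2 1 (m + 1) (m + 3) two_ne_zero (by omega),
    apery_eq_sum 2 1 m (m + 3) two_ne_zero (by omega), Finset.mul_sum, Finset.mul_sum,
    Finset.mul_sum, ← Finset.sum_sub_distrib, ← Finset.sum_sub_distrib, Finset.sum_range_succ']
  set G : ℕ → ℝ := fun k =>
    (k ^ 2 + 3 * (2 * m + 3) * k - 11 * (m + 1) ^ 2 - 9 * (m + 1) - 2) *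
      ((m + 1).choose k : ℝ) ^ 2 * ((m + 1 + k).choose k : ℝ) with hG
  rw [Finset.sum_congr rfl (g := fun j => G (j + 1) - G j), Finset.sum_range_sub]
  · simp only [hG]
    rw [Nat.choose_eq_zero_of_lt (by omega : m + 1 < m + 2)]
    simp
    ring
  · intro j _
    obtain ⟨e1, e2, e3, e4, e5, e6⟩ := six_binomials m j
    simp only [hG]
    rw [e1, e2, e3, e4, e5, e6]
    push_cast
    field_simp
    ring

theorem apery_pos (n : ℕ) : (0 : ℝ) < apery 2 1 n := by
  rw [apery_eq_sum 2 1 n (n + 1) two_ne_zero le_rfl, Finset.sum_range_succ']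
  have : (0 : ℝ) ≤ ∑ k ∈ Finset.range n, (n.choose (k + 1) : ℝ) ^ 2 *
      ((n + (k + 1)).choose (k + 1) : ℝ) ^ 1 := Finset.sum_nonneg fun k _ => by positivity
  simp only [Nat.choose_zero_right, Nat.cast_one, one_pow, mul_one]
  linarith

theorem rec_apery : Rec fun n => (apery 2 1 n : ℝ) := fun m _ => by
  have := apery_rec21 m
  simp only
  linarith

theorem Rec.comb {y p : ℕ → ℝ} (hy : Rec y) (hp : Rec p) (a b : ℝ) :
    Rec fun n => a * y n + b * p n := fun m hm => by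
  simp only
  linear_combination a * hy m hm + b * hp m hm

theorem Rec.nonneg {y : ℕ → ℝ} (hy : Rec y) {n : ℕ} (hn : 1 ≤ n) (h0 : 0 ≤ y n)
    (h1 : 0 ≤ y (n + 1)) (m : ℕ) (hm : n ≤ m) : 0 ≤ y m := by
  have key : ∀ m, n ≤ m → 0 ≤ y m ∧ 0 ≤ y (m + 1) := by
    intro m hm
    induction m, hm using Nat.le_induction with
    | base => exact ⟨h0, h1⟩
    | succ m hm ih =>
      refine ⟨ih.2, ?_⟩
      have h := hy m (hn.trans hm)
      have h2 : (0 : ℝ) ≤ ((m : ℝ) + 2) ^ 2 * y (m + 2) := by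
        rw [h]
        exact add_nonneg (mul_nonneg (by positivity) ih.2) (mul_nonneg (by positivity) ih.1)
      exact nonneg_of_mul_nonneg_right h2 (by positivity) 
  exact (key m hm).1

theorem Rec.grow {y : ℕ → ℝ} (hy : Rec y) (h0 : ∀ n, 1 ≤ n → 0 < y n) {m : ℕ} (hm : 1 ≤ m) :
    (11 * ((m : ℝ) + 1) ^ 2 + 11 * (m + 1) + 3) * y (m + 1) ≤ (m + 2) ^ 2 * y (m + 2) := by
  rw [hy m hm]
  have := h0 m hm
  have : 0 ≤ ((m : ℝ) + 1) ^ 2 * y m := by positivity
  linarith

theorem wronsk {y p : ℕ → ℝ} (hy : Rec y) (hp : Rec p) (y0 : ∀ n, 1 ≤ n → 0 < y n)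
    (p0 : ∀ n, 1 ≤ n → 0 < p n) (j : ℕ) :
    64 ^ j * |y (j + 4) * p (j + 3) - y (j + 3) * p (j + 4)| ≤ y (j + 3) * p (j + 4) := by
  induction j with
  | zero =>
    have h1 := hy 2 (by norm_num)
    have h2 := hy.grow y0 (m := 1) le_rfl
    have h3 := hp.grow p0 (m := 2) (by norm_num)
    have := y0 2 (by norm_num); have := y0 3 (by norm_num); have := y0 4 (by norm_num)
    have := p0 3 (by norm_num); have := p0 4 (by norm_num)
    norm_num at h1 h2 h3 ⊢
    rw [abs_le]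
    constructor <;> nlinarith
  | succ j ih =>
    have h1 := hy (j + 3) (by omega)
    have h2 := hp (j + 3) (by omega)
    have h3 := hy.grow y0 (m := j + 2) (by omega)
    have h4 := hp.grow p0 (m := j + 3) (by omega)
    have a1 := y0 (j + 3) (by omega)
    have a2 := y0 (j + 4) (by omega)
    have a3 := p0 (j + 4) (by omega)
    have a4 := p0 (j + 5) (by omega)
    push_cast at h1 h2 h3 h4
    simp only [add_assoc, Nat.reduceAdd] at h1 h2 h3 h4 ⊢
    norm_num at h1 h2 h3 h4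
    have hj : (0 : ℝ) ≤ j := j.cast_nonneg
    have e : ((j : ℝ) + 5) ^ 2 * (y (j + 5) * p (j + 4) - y (j + 4) * p (j + 5)) =
        -((j + 4) ^ 2 * (y (j + 4) * p (j + 3) - y (j + 3) * p (j + 4))) := by
      linear_combination p (j + 4) * h1 - y (j + 4) * h2
    have e2 := congrArg abs e
    rw [abs_neg, abs_mul, abs_mul, abs_of_nonneg (by positivity : (0 : ℝ) ≤ (j + 5) ^ 2),
      abs_of_nonneg (by positivity : (0 : ℝ) ≤ (j + 4) ^ 2)] at e2
    have b1 : 8 * y (j + 3) ≤ y (j + 4) := by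
      refine le_of_mul_le_mul_left (le_trans ?_ h3) (by positivity)
      rw [← mul_assoc]
      exact mul_le_mul_of_nonneg_right (by nlinarith) a1.le
    have b2 : 8 * ((j : ℝ) + 4) ^ 2 * p (j + 4) ≤ (j + 5) ^ 2 * p (j + 5) :=
      le_trans (mul_le_mul_of_nonneg_right (by nlinarith) a3.le) h4
    refine le_of_mul_le_mul_left ?_ (by positivity : (0 : ℝ) < (j + 5) ^ 2)
    calc ((j : ℝ) + 5) ^ 2 * (64 ^ (j + 1) * |y (j + 5) * p (j + 4) - y (j + 4) * p (j + 5)|)
        = 64 * (j + 4) ^ 2 * (64 ^ j * |y (j + 4) * p (j + 3) - y (j + 3) * p (j + 4)|) := by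
          rw [mul_left_comm, e2]; ring
      _ ≤ 64 * (j + 4) ^ 2 * (y (j + 3) * p (j + 4)) :=
          mul_le_mul_of_nonneg_left ih (by positivity)
      _ = 8 * y (j + 3) * (8 * (j + 4) ^ 2 * p (j + 4)) := by ring
      _ ≤ y (j + 4) * ((j + 5) ^ 2 * p (j + 5)) := mul_le_mul b1 b2 (by positivity) a2.le
      _ = _ := by ring

theorem compare {y p : ℕ → ℝ} (hy : Rec y) (hp : Rec p) (y0 : ∀ n, 1 ≤ n → 0 < y n)
    (p0 : ∀ n, 1 ≤ n → 0 < p n) (j : ℕ) : ∃ A : ℝ, 0 < A ∧ ∀ m, j + 3 ≤ m →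
      |y m - A * p m| ≤ 1 / 64 ^ j * (A * p m) := by
  have h := wronsk hy hp y0 p0 j
  have a1 := y0 (j + 3) (by omega)
  have a2 := p0 (j + 3) (by omega)
  have a3 := p0 (j + 4) (by omega)
  set A := y (j + 3) / p (j + 3) with hA
  have hA' : y (j + 3) = A * p (j + 3) := by rw [hA]; field_simp
  have A0 : 0 < A := by positivity
  set δ : ℝ := 1 / 64 ^ j with hδ
  have δ0 : 0 < δ := by positivity
  have h2 : |y (j + 4) - A * p (j + 4)| ≤ δ * (A * p (j + 4)) := by
    rw [hA', show y (j + 4) * p (j + 3) - A * p (j + 3) * p (j + 4) =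
      p (j + 3) * (y (j + 4) - A * p (j + 4)) by ring, abs_mul, abs_of_pos a2] at h
    rw [hδ, one_div, ← div_eq_inv_mul, le_div_iff₀ (by positivity)]
    refine le_of_mul_le_mul_left ?_ a2
    linarith
  rw [abs_le] at h2
  have h3 : 0 ≤ δ * (A * p (j + 3)) := by positivity
  refine ⟨A, A0, fun m hm => abs_le.2 ⟨?_, ?_⟩⟩
  · have := (hy.comb hp 1 (A * (δ - 1))).nonneg (n := j + 3) (by omega) (by linarith)
      (by linarith [h2.1]) m hm
    linarith
  · have := (hy.comb hp (-1) (A * (δ + 1))).nonneg (n := j + 3) (by omega) (by linarith)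
      (by linarith [h2.2]) m hm
    linarith

end Pool.Agent.MP_6026f4_co.CX

end

section

/- A positive solution of the recurrence that is a moment sequence divided by `n + 1`. -/

namespace Pool.Agent.MP_6026f4_co.CX

open Filter Topology

/-- The Taylor coefficients of the density at the right end of its support. -/
noncomputable def cc (M : ℝ) : ℕ → ℝ
  | 0 => 1
  | 1 => (M - 3) / (2 * M - 11)
  | j + 2 => (((3 * M - 11) * (j + 1) * (j + 2) + M - 3) * cc M (j + 1) - M * (j + 1) ^ 2 * cc M j) /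
      ((2 * M - 11) * (j + 2) ^ 2)

variable {M : ℝ}

theorem cc_rec (h1 : 11.09 < M) (j : ℕ) : (2 * M - 11) * (j + 2) ^ 2 * cc M (j + 2) =
    ((3 * M - 11) * (j + 1) * (j + 2) + M - 3) * cc M (j + 1) - M * (j + 1) ^ 2 * cc M j := by
  have : 0 < 2 * M - 11 := by linarith
  rw [cc, mul_div_cancel₀ _ (by positivity)]

theorem cc_one (h1 : 11.09 < M) : (2 * M - 11) * cc M 1 = M - 3 := by
  have : 0 < 2 * M - 11 := by linarith
  rw [cc, mul_div_cancel₀ _ this.ne']

theorem cc_barrier (h1 : 11.09 < M) (h2 : M < 11.1) (j : ℕ) : 0 < cc M j ∧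
    M * (j ^ 2 + 3 / 2 * j + 7 / 10) * cc M j ≤ (2 * M - 11) * (j + 1) ^ 2 * cc M (j + 1) := by
  have ha : 0 < 2 * M - 11 := by linarith
  have hM : 0 < M := by linarith
  induction j with
  | zero =>
    have := cc_one h1
    simp only [cc] at this ⊢
    norm_num
    linarith
  | succ j ih =>
    obtain ⟨c0, c1⟩ := ih
    have hj : (0 : ℝ) ≤ j := j.cast_nonneg
    have c2 : 0 < cc M (j + 1) :=
      (pos_iff_pos_of_mul_pos (lt_of_lt_of_le (by positivity) c1)).1 (by positivity)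
    refine ⟨c2, ?_⟩
    push_cast
    rw [show (j : ℝ) + 1 + 1 = j + 2 by ring, cc_rec h1]
    have key : (2 * M - 11) * (j + 1) ^ 4 ≤ (j ^ 2 + 3 / 2 * j + 7 / 10) *
        ((3 * M - 11) * (j + 1) * (j + 2) + M - 3 -
          M * ((j + 1) ^ 2 + 3 / 2 * (j + 1) + 7 / 10)) := by
      obtain ⟨J, hJ⟩ : ∃ J : ℝ, (j : ℝ) = J - 1 := ⟨j + 1, by ring⟩
      have J0 : 0 < J := by linarith
      rw [hJ]
      have q : 0 ≤ J * ((M / 2 - 11 / 2) * J ^ 2 + (3 / 10 - M / 20) * J + (3 / 20 * M - 7 / 10)) := by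
        refine mul_nonneg J0.le ?_
        nlinarith [sq_nonneg (J - 3), mul_pos J0 (sub_pos.2 h2), mul_nonneg (sq_nonneg J) (sub_pos.2 h1).le]
      nlinarith
    refine le_of_mul_le_mul_left ?_ (by positivity : (0 : ℝ) < j ^ 2 + 3 / 2 * j + 7 / 10)
    nlinarith [mul_le_mul_of_nonneg_right key c2.le,
      mul_le_mul_of_nonneg_left c1 (by positivity : (0 : ℝ) ≤ (j + 1) ^ 2)]

theorem cc_anti (h1 : 11.09 < M) (h2 : M < 11.1) (j : ℕ) : cc M (j + 1) ≤ cc M j := by
  have ha : 0 < 2 * M - 11 := by linarith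
  have hM : 0 < M := by linarith
  induction j with
  | zero =>
    refine le_of_mul_le_mul_left ?_ ha
    rw [cc_one h1]
    simp only [cc]
    linarith
  | succ j ih =>
    have hj : (0 : ℝ) ≤ j := j.cast_nonneg
    refine le_of_mul_le_mul_left ?_ (by positivity : (0 : ℝ) < (2 * M - 11) * (j + 2) ^ 2)
    rw [cc_rec h1]
    have c2 := (cc_barrier h1 h2 (j + 1)).1
    have q : 0 ≤ (M - 11) * (j + 1) + (M - 8) := by nlinarith
    nlinarith [mul_nonneg q c2.le,
      mul_le_mul_of_nonneg_left ih (by positivity : (0 : ℝ) ≤ M * (j + 1) ^ 2)]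

theorem cc_le (h1 : 11.09 < M) (h2 : M < 11.1) (j : ℕ) : cc M j ≤ 1 := by
  induction j with
  | zero => exact le_rfl
  | succ j ih => exact (cc_anti h1 h2 j).trans ih

/-- The beta integrals. -/
noncomputable def BB (n j : ℕ) : ℝ := n.factorial * j.factorial / (n + j + 1).factorial

theorem BB_pos (n j : ℕ) : 0 < BB n j := by unfold BB; positivity

theorem BB_left (n j : ℕ) : BB (n + 1) j = BB n j * (n + 1) / (n + j + 2) := by
  unfold BB
  rw [show n + 1 + j + 1 = n + j + 1 + 1 by ring, Nat.factorial_succ n,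
    Nat.factorial_succ (n + j + 1)]
  push_cast
  field_simp
  ring

theorem BB_right (n j : ℕ) : BB n (j + 1) = BB n j * (j + 1) / (n + j + 2) := by
  unfold BB
  rw [show n + (j + 1) + 1 = n + j + 1 + 1 by ring, Nat.factorial_succ j,
    Nat.factorial_succ (n + j + 1)]
  push_cast
  field_simp
  ring

theorem BB_zero (n : ℕ) : BB n 0 = 1 / (n + 1) := by
  unfold BB
  rw [add_zero, Nat.factorial_succ]
  push_cast
  field_simp
  simp

theorem BB_zero' (j : ℕ) : BB 0 j = 1 / (j + 1) := by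
  unfold BB
  rw [zero_add, Nat.factorial_succ]
  push_cast
  field_simp
  simp

theorem BB_anti {m n : ℕ} (h : m ≤ n) (j : ℕ) : BB n j ≤ BB m j := by
  induction n, h using Nat.le_induction with
  | base => exact le_rfl
  | succ n _ ih =>
    refine le_trans ?_ ih
    rw [BB_left, div_le_iff₀ (by positivity)]
    exact mul_le_mul_of_nonneg_left (by linarith [j.cast_nonneg (α := ℝ)]) (BB_pos n j).le

theorem BB_summable {n : ℕ} (hn : 1 ≤ n) : Summable (BB n) := by
  have h : Summable fun j : ℕ => 1 / ((j + 1 : ℕ) : ℝ) ^ 2 :=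
    (summable_nat_add_iff 1).2 (Real.summable_one_div_nat_pow.2 one_lt_two)
  refine h.of_nonneg_of_le (fun j => (BB_pos n j).le) fun j => (BB_anti hn j).trans ?_
  rw [BB_left, BB_zero']
  push_cast
  rw [div_le_div_iff₀ (by positivity) (by positivity)]
  field_simp
  linarith

theorem BB_lim {n : ℕ} (hn : 2 ≤ n) :
    Tendsto (fun j : ℕ => ((j : ℝ) + 1) ^ 2 * BB n j) atTop (𝓝 0) := by
  have h := tendsto_one_div_add_atTop_nhds_zero_nat.const_mul (2 : ℝ)
  rw [mul_zero] at h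
  refine squeeze_zero (fun j => mul_nonneg (by positivity) (BB_pos n j).le) (fun j => ?_) h
  refine (mul_le_mul_of_nonneg_left (BB_anti hn j) (by positivity)).trans ?_
  rw [BB_left, BB_left, BB_zero']
  push_cast
  have hj : (0 : ℝ) ≤ j := j.cast_nonneg
  field_simp
  nlinarith

theorem BB_cls (j : ℕ) : Cls 1 1 fun i => BB (i + 1) j := by
  unfold Cls
  induction j with
  | zero =>
    convert const_mem zero_le_one using 2 with i
    simp only
    rw [BB_zero]
    push_cast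
    field_simp
  | succ j ih =>
    convert SS_mul (SS_mul ih (const_mem (by positivity : (0 : ℝ) ≤ j + 1))) (inv_mem (j + 2))
      using 2 with i
    simp only
    rw [BB_right]
    push_cast
    field_simp
    ring

/-- The left side of the recurrence, applied to a beta integral. -/
noncomputable def TT (M : ℝ) (m j : ℕ) : ℝ := M * (m + 2) ^ 2 * BB (m + 2) j -
  (11 * (m + 1) ^ 2 + 11 * (m + 1) + 3) * BB (m + 1) j - (M - 11) * (m + 1) ^ 2 * BB m j

theorem TT_zero (m : ℕ) : TT M m 0 = (M - 3) * BB (m + 1) 0 - M * BB (m + 1) 1 := by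
  unfold TT
  rw [BB_right, BB_zero, BB_zero, BB_zero]
  push_cast
  field_simp
  ring

theorem TT_succ (m j : ℕ) : TT M m (j + 1) = -(2 * M - 11) * (j + 1) ^ 2 * BB (m + 1) j +
    ((3 * M - 11) * (j + 1) * (j + 2) + M - 3) * BB (m + 1) (j + 1) -
      M * (j + 2) ^ 2 * BB (m + 1) (j + 2) := by
  unfold TT
  rw [BB_left (m + 1), BB_right (m + 1) (j + 1), BB_right (m + 1) j, BB_right m j, BB_left m j]
  push_cast
  field_simp
  ring

theorem TT_sum (h1 : 11.09 < M) (m J : ℕ) : ∑ j ∈ Finset.range (J + 1), cc M j * TT M m j =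
    (2 * M - 11) * (J + 1) ^ 2 * cc M (J + 1) * BB (m + 1) J -
      M * (J + 1) ^ 2 * cc M J * BB (m + 1) (J + 1) := by
  induction J with
  | zero =>
    rw [Finset.sum_range_one, TT_zero]
    have := cc_one h1
    have e : cc M 0 = 1 := rfl
    simp only [zero_add, Nat.cast_zero, e]
    linear_combination (-BB (m + 1) 0) * this
  | succ J ih =>
    rw [Finset.sum_range_succ, ih, TT_succ]
    push_cast
    linear_combination (-BB (m + 1) (J + 1)) * cc_rec h1 J

theorem cB_summable (h1 : 11.09 < M) (h2 : M < 11.1) {n : ℕ} (hn : 1 ≤ n) :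
    Summable fun j => cc M j * BB n j :=
  (BB_summable hn).of_nonneg_of_le
    (fun j => mul_nonneg (cc_barrier h1 h2 j).1.le (BB_pos n j).le)
    fun j => mul_le_of_le_one_left (BB_pos n j).le (cc_le h1 h2 j)

/-- The moments of the density. -/
noncomputable def xx (M : ℝ) (n : ℕ) : ℝ := ∑' j, cc M j * BB n j

theorem xx_rec (h1 : 11.09 < M) (h2 : M < 11.1) {m : ℕ} (hm : 1 ≤ m) :
    M * (m + 2) ^ 2 * xx M (m + 2) - (11 * (m + 1) ^ 2 + 11 * (m + 1) + 3) * xx M (m + 1) -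
      (M - 11) * (m + 1) ^ 2 * xx M m = 0 := by
  have s0 := (cB_summable h1 h2 hm).hasSum
  have s1 := (cB_summable h1 h2 (n := m + 1) (by omega)).hasSum
  have s2 := (cB_summable h1 h2 (n := m + 2) (by omega)).hasSum
  have s := ((s2.mul_left (M * (m + 2) ^ 2)).sub
    (s1.mul_left (11 * ((m : ℝ) + 1) ^ 2 + 11 * (m + 1) + 3))).sub (s0.mul_left ((M - 11) * (m + 1) ^ 2))
  have s' := (tendsto_add_atTop_iff_nat 1).2
    (s.congr_fun (g := fun j => cc M j * TT M m j) fun j => by unfold TT; ring).tendsto_sum_nat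
  refine tendsto_nhds_unique s' ?_
  simp only [TT_sum h1]
  have l := BB_lim (n := m + 1) (by omega)
  have l1 : Tendsto (fun J : ℕ => (2 * M - 11) * (J + 1) ^ 2 * cc M (J + 1) * BB (m + 1) J)
      atTop (𝓝 0) := by
    have := l.const_mul (2 * M - 11)
    rw [mul_zero] at this
    have ha : 0 < 2 * M - 11 := by linarith
    refine squeeze_zero (fun j => ?_) (fun j => ?_) this
    · have := (cc_barrier h1 h2 (j + 1)).1
      have := BB_pos (m + 1) j
      positivity
    · have b := BB_pos (m + 1) j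
      nlinarith [mul_le_of_le_one_left (by positivity :
        0 ≤ (2 * M - 11) * ((j + 1) ^ 2 * BB (m + 1) j)) (cc_le h1 h2 (j + 1))]
  have l2 : Tendsto (fun J : ℕ => M * (J + 1) ^ 2 * cc M J * BB (m + 1) (J + 1))
      atTop (𝓝 0) := by
    have := l.const_mul M
    rw [mul_zero] at this
    have ha : 0 < M := by linarith
    refine squeeze_zero (fun j => ?_) (fun j => ?_) this
    · have := (cc_barrier h1 h2 j).1
      have := BB_pos (m + 1) (j + 1)
      positivity
    · have b := BB_pos (m + 1) (j + 1)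
      have b2 : BB (m + 1) (j + 1) ≤ BB (m + 1) j := by
        rw [BB_right, div_le_iff₀ (by positivity)]
        exact mul_le_mul_of_nonneg_left (by linarith [(m + 1).cast_nonneg (α := ℝ)])
          (BB_pos _ j).le
      nlinarith [mul_le_of_le_one_left (by positivity :
        0 ≤ M * ((j + 1) ^ 2 * BB (m + 1) (j + 1))) (cc_le h1 h2 j),
        mul_le_mul_of_nonneg_left b2 (by positivity : 0 ≤ M * (j + 1) ^ 2)]
  simpa using l1.sub l2

theorem exists_pure : ∃ p : ℕ → ℝ, Rec p ∧ (∀ n, 1 ≤ n → 0 < p n) ∧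
    ∀ A : ℝ, 0 < A → Pure fun n => A * p n := by
  obtain ⟨M, h0, h1, h2⟩ : ∃ M : ℝ, M * (M - 11) = 1 ∧ 11.09 < M ∧ M < 11.1 := by
    have e : √5 ^ 2 = 5 := Real.sq_sqrt (by norm_num)
    have a : 2.236 < √5 := Real.lt_sqrt_of_sq_lt (by norm_num)
    have b : √5 < 2.24 := (Real.sqrt_lt' (by norm_num)).2 (by norm_num)
    exact ⟨(11 + 5 * √5) / 2, by linear_combination 25 / 4 * e, by linarith, by linarith⟩
  have hM : 0 < M := by linarith
  have hp : ∀ n, 1 ≤ n → 0 < M ^ n * xx M n := fun n hn =>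
    mul_pos (by positivity) ((cB_summable h1 h2 hn).tsum_pos
      (fun j => mul_nonneg (cc_barrier h1 h2 j).1.le (BB_pos n j).le) 0
      (mul_pos (cc_barrier h1 h2 0).1 (BB_pos n 0)))
  refine ⟨fun n => M ^ n * xx M n, fun m hm => ?_, hp, fun A hA =>
    pure_of_cls (fun m hm => mul_pos hA (hp m hm)) ?_⟩
  · simp only
    linear_combination M ^ (m + 1) * xx_rec h1 h2 hm + (m + 1) ^ 2 * xx M m * M ^ m * h0
  · have h3 : Cls 1 1 fun i => xx M (i + 1) :=
      SS_hasSum (fun j => SS_mul (const_mem (cc_barrier h1 h2 j).1.le) (BB_cls j)) fun n => by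
        simpa only [mul_assoc, xx] using (cB_summable h1 h2 (n := n + 1) (by omega)).hasSum.mul_right _
    unfold Cls
    convert SS_mul (geo_mem (mul_pos hA hM).le hM.le) h3 using 2
    ring

end Pool.Agent.MP_6026f4_co.CX

end

section

/- Small perturbations of pure sequences, and the region where the iterates are very log-convex. -/

namespace Pool.Agent.MP_6026f4_co.CX

theorem prod_close {a b x y δ : ℝ} (hx : 0 ≤ x) (hy : 0 ≤ y) (ha : |a - x| ≤ δ * x)
    (hb : |b - y| ≤ δ * y) : |a * b - x * y| ≤ (2 * δ + δ ^ 2) * (x * y) := by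
  rw [show a * b - x * y = (a - x) * (b - y) + x * (b - y) + y * (a - x) by ring]
  refine (abs_add_three _ _ _).trans ?_
  rw [abs_mul, abs_mul, abs_mul, abs_of_nonneg hx, abs_of_nonneg hy]
  have h1 := mul_le_mul ha hb (abs_nonneg _) ((abs_nonneg _).trans ha)
  have h2 := mul_le_mul_of_nonneg_left hb hx
  have h3 := mul_le_mul_of_nonneg_left ha hy
  linarith

theorem pert_step {y0 y1 y2 z0 z1 z2 δ S : ℝ} (p0 : 0 < z0) (p1 : 0 < z1) (p2 : 0 < z2)
    (h0 : |y0 - z0| ≤ δ * z0) (h1 : |y1 - z1| ≤ δ * z1) (h2 : |y2 - z2| ≤ δ * z2) (δ0 : 0 ≤ δ)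
    (δ1 : δ ≤ 1 / 10) (S0 : 0 < S) (h : z1 ^ 2 ≤ (1 - 1 / S ^ 2) * (z0 * z2)) :
    |(y0 * y2 - y1 ^ 2) - (z0 * z2 - z1 ^ 2)| ≤ δ * (5 * S ^ 2) * (z0 * z2 - z1 ^ 2) := by
  have a := prod_close p0.le p2.le h0 h2
  have b := prod_close p1.le p1.le h1 h1
  have q : 0 < z0 * z2 := mul_pos p0 p2
  have c : z0 * z2 ≤ S ^ 2 * (z0 * z2 - z1 ^ 2) := by
    have := mul_le_mul_of_nonneg_left h (sq_nonneg S)
    rw [← mul_assoc, mul_sub, mul_one_div_cancel (by positivity)] at this
    linarith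
  have d : z1 * z1 ≤ z0 * z2 := by
    have : 0 ≤ 1 / S ^ 2 * (z0 * z2) := by positivity
    linarith
  rw [show (y0 * y2 - y1 ^ 2) - (z0 * z2 - z1 ^ 2) =
    (y0 * y2 - z0 * z2) - (y1 * y1 - z1 * z1) by ring]
  refine (abs_sub _ _).trans ?_
  have e := mul_le_mul_of_nonneg_left d (by positivity : 0 ≤ 2 * δ + δ ^ 2)
  have f := mul_le_mul_of_nonneg_left c (by positivity : 0 ≤ 5 * δ)
  have g : δ ^ 2 * (z0 * z2) ≤ δ / 10 * (z0 * z2) :=
    mul_le_mul_of_nonneg_right (by nlinarith) q.le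
  have : 0 ≤ δ * (z0 * z2) := by positivity
  linarith

theorem pert {y z : ℕ → ℝ} (hz : Pure z) {n K S : ℕ} (hn : 1 ≤ n) (hS : n + 2 * K + 3 ≤ S) {δ : ℝ}
    (δ0 : 0 ≤ δ) (hδ : δ * (5 * (S : ℝ) ^ 2) ^ (K + 1) ≤ 1 / 10)
    (h0 : ∀ m, n ≤ m → |y m - z m| ≤ δ * z m) (k : ℕ) : ∀ m, n ≤ m → m + 2 * k ≤ n + 2 * K + 2 →
      |(logConvexOp^[k] y) m - (logConvexOp^[k] z) m| ≤
        δ * (5 * (S : ℝ) ^ 2) ^ k * (logConvexOp^[k] z) m := by
  have S1 : (1 : ℝ) ≤ S := by exact_mod_cast (by omega : 1 ≤ S)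
  induction k with
  | zero => intro m hm _; simpa using h0 m hm
  | succ k ih =>
    intro m hm hk
    obtain ⟨p0, r⟩ := hz k m (by omega)
    rw [pow_succ, ← mul_assoc]
    simp only [Function.iterate_succ_apply', logConvexOp]
    refine pert_step p0 (hz k _ (by omega)).1 (hz k _ (by omega)).1 (ih m hm (by omega))
      (ih _ (by omega) (by omega)) (ih _ (by omega) (by omega)) (by positivity)
      (le_trans (mul_le_mul_of_nonneg_left (pow_le_pow_right₀ (by nlinarith) (by omega)) δ0) hδ)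
      (by linarith) (r.trans (mul_le_mul_of_nonneg_right ?_
        (mul_pos p0 (hz k _ (by omega)).1).le))
    have T0 : (1 : ℝ) ≤ (m : ℝ) + k + 2 := by
      linarith [m.cast_nonneg (α := ℝ), k.cast_nonneg (α := ℝ)]
    have T1 : (m : ℝ) + k + 2 ≤ S := by exact_mod_cast (by omega : m + k + 2 ≤ S)
    have a : 1 / ((m : ℝ) + k + 2) ^ 2 ≤ 1 := by
      rw [div_le_one (by positivity)]; nlinarith
    have b : 0 ≤ 1 / ((m : ℝ) + k + 2) ^ 2 := by positivity
    refine (pow_le_of_le_one (by linarith) (by linarith) (by positivity)).trans ?_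
    gcongr

/-- Strong log-convexity at one place. -/
def Good (w : ℕ → ℝ) (n : ℕ) : Prop := 3 * w (n + 1) ^ 2 ≤ w n * w (n + 2)

/-- What is shown for every level and every index. -/
def Fine (y : ℕ → ℝ) (k n : ℕ) : Prop := 0 < (logConvexOp^[k + 1] y) n ∧
  (2 * (n + k + 2) ^ 2 ≤ 2 ^ k → Good (logConvexOp^[k] y) n)

theorem Good.step {w : ℕ → ℝ} {n : ℕ} (h0 : Good w n) (h1 : Good w (n + 1)) (h2 : Good w (n + 2)) :
    Good (logConvexOp w) n := by
  unfold Good logConvexOp at *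
  simp only [add_assoc, Nat.reduceAdd] at *
  have a0 := sq_nonneg (w (n + 1))
  have a1 := sq_nonneg (w (n + 2))
  have a2 := sq_nonneg (w (n + 3))
  have b : (w (n + 1) * w (n + 3) - w (n + 2) ^ 2) ^ 2 ≤ (w (n + 1) * w (n + 3)) ^ 2 :=
    pow_le_pow_left₀ (by linarith) (by linarith) 2
  have c : (2 * w (n + 1) ^ 2) * (2 * w (n + 3) ^ 2) ≤
      (w n * w (n + 2) - w (n + 1) ^ 2) * (w (n + 2) * w (n + 4) - w (n + 3) ^ 2) :=
    mul_le_mul (by linarith) (by linarith) (by linarith) (by linarith)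
  nlinarith [mul_nonneg a0 a2]

theorem fine_all {y : ℕ → ℝ} (h : ∀ k n : ℕ, 2 ^ k < 4 * (n + k + 3) ^ 2 → Fine y k n) (k : ℕ) :
    ∀ n, Fine y k n := by
  induction k with
  | zero => exact fun n => h 0 n (by have : 0 < (n + 0 + 3) ^ 2 := (by positivity); omega)
  | succ k ih =>
    intro n
    by_cases hl : 2 ^ (k + 1) < 4 * (n + (k + 1) + 3) ^ 2
    · exact h _ _ hl
    have e : ∀ i, i ≤ n + 2 → Good (logConvexOp^[k] y) i := fun i hi => (ih i).2 (by
      have : (i + k + 2) ^ 2 ≤ (n + (k + 1) + 3) ^ 2 := Nat.pow_le_pow_left (by omega) 2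
      rw [pow_succ] at hl
      omega)
    have g : Good (logConvexOp^[k + 1] y) n := by
      rw [Function.iterate_succ_apply']
      exact (e n (by omega)).step (e _ (by omega)) (e _ le_rfl)
    refine ⟨?_, fun _ => g⟩
    rw [Function.iterate_succ_apply', logConvexOp]
    have := mul_pos (ih n).1 (ih (n + 2)).1
    unfold Good at g
    linarith

theorem fine_of_close {y z : ℕ → ℝ} (hz : Pure z) {n K S : ℕ} (hn : 1 ≤ n)
    (hS : n + 2 * K + 3 ≤ S) {δ : ℝ} (δ0 : 0 ≤ δ) (hδ : δ * (5 * (S : ℝ) ^ 2) ^ (K + 1) ≤ 1 / 10)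
    (h0 : ∀ m, n ≤ m → |y m - z m| ≤ δ * z m) : Fine y K n := by
  have S1 : (1 : ℝ) ≤ S := by exact_mod_cast (by omega : 1 ≤ S)
  have h := pert hz hn hS δ0 hδ h0
  constructor
  · have a := (abs_le.1 (h (K + 1) n le_rfl (by omega))).1
    have b := (hz (K + 1) n hn).1
    nlinarith [mul_le_mul_of_nonneg_right hδ b.le]
  · intro hE
    have hδ' : δ * (5 * (S : ℝ) ^ 2) ^ K ≤ 1 / 10 :=
      le_trans (mul_le_mul_of_nonneg_left (pow_le_pow_right₀ (by nlinarith) (by omega)) δ0) hδ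
    have c : ∀ m, n ≤ m → m ≤ n + 2 → |(logConvexOp^[K] y) m - (logConvexOp^[K] z) m| ≤
        1 / 10 * (logConvexOp^[K] z) m := fun m h1 h2 =>
      (h K m h1 (by omega)).trans (mul_le_mul_of_nonneg_right hδ' (hz K m (by omega)).1.le)
    obtain ⟨p0, r⟩ := hz K n hn
    have p1 := (hz K (n + 1) (by omega)).1
    have p2 := (hz K (n + 2) (by omega)).1
    have a := (abs_le.1 (prod_close p0.le p2.le (c n le_rfl (by omega)) (c _ (by omega) le_rfl))).1
    have b := (abs_le.1 (prod_close p1.le p1.le (c _ (by omega) (by omega))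
      (c _ (by omega) (by omega)))).2
    have hE' : 2 * ((n : ℝ) + K + 2) ^ 2 ≤ ((2 ^ K : ℕ) : ℝ) := by exact_mod_cast hE
    have T0 : (1 : ℝ) ≤ (n : ℝ) + K + 2 := by
      linarith [n.cast_nonneg (α := ℝ), K.cast_nonneg (α := ℝ)]
    have d : (1 - 1 / ((n : ℝ) + K + 2) ^ 2) ^ 2 ^ K ≤ 1 / 5 := by
      have a : 1 / ((n : ℝ) + K + 2) ^ 2 ≤ 1 := by
        rw [div_le_one (by positivity)]; nlinarith
      refine (pow_le_pow_left₀ (by linarith) (Real.one_sub_le_exp_neg _) _).trans ?_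
      rw [← Real.exp_nat_mul]
      refine (Real.exp_le_exp.2 (?_ : _ ≤ (-2 : ℝ))).trans ?_
      · rw [mul_neg, neg_le_neg_iff, mul_one_div, le_div_iff₀ (by positivity)]
        exact hE'
      · rw [Real.exp_neg, one_div]
        refine inv_anti₀ (by norm_num) ?_
        linarith [Real.quadratic_le_exp_of_nonneg (by norm_num : (0 : ℝ) ≤ 2)]
    have e := mul_le_mul_of_nonneg_right d (mul_pos p0 p2).le
    have := mul_pos p0 p2
    unfold Good
    nlinarith

theorem sq_le_two_pow (K : ℕ) (h : 31 ≤ K) : 4 * (3 * K + 5) ^ 2 ≤ 2 ^ K := by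
  induction K, h using Nat.le_induction with
  | base => norm_num
  | succ K hK ih => rw [pow_succ 2]; nlinarith

theorem quad_le_two_pow (t : ℕ) (h : 6 ≤ t) : (2 * t + 7) * (2 * t + 6) + 22 ≤ 6 * 2 ^ t := by
  induction t, h using Nat.le_induction with
  | base => norm_num
  | succ t ht ih => rw [pow_succ 2]; nlinarith

theorem size {n K : ℕ} (hn : 64 ≤ n) (h : 2 ^ K < 4 * (n + K + 3) ^ 2) :
    10 * (5 * (n + 2 * K + 3) ^ 2) ^ (K + 1) ≤ 64 ^ (n - 3) := by
  have h1 : 2 * K + 3 ≤ n := by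
    by_contra hc
    have := sq_le_two_pow K (by omega)
    have : (n + K + 3) ^ 2 ≤ (3 * K + 5) ^ 2 := Nat.pow_le_pow_left (by omega) 2
    omega
  have t1 : 2 ^ Nat.log 2 n ≤ n := Nat.pow_log_le_self 2 (by omega)
  have t2 : n < 2 ^ (Nat.log 2 n + 1) := Nat.lt_pow_succ_log_self one_lt_two n
  have t3 : 6 ≤ Nat.log 2 n := Nat.le_log_of_pow_le one_lt_two hn
  generalize Nat.log 2 n = t at t1 t2 t3
  have s1 : (n + 2 * K + 3) ^ 2 ≤ 2 ^ (2 * t + 4) := by
    rw [show 2 * t + 4 = (t + 2) * 2 by ring, pow_mul]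
    exact Nat.pow_le_pow_left (by rw [pow_succ]; omega) 2
  have s2 : (n + K + 3) ^ 2 ≤ (n + 2 * K + 3) ^ 2 := Nat.pow_le_pow_left (by omega) 2
  have k1 : K < 2 * t + 6 := by
    refine (Nat.pow_lt_pow_iff_right one_lt_two).1 ?_
    rw [show 2 * t + 6 = 2 * t + 4 + 2 by ring, pow_add]
    omega
  have s3 : 5 * (n + 2 * K + 3) ^ 2 ≤ 2 ^ (2 * t + 7) := by
    rw [show 2 * t + 7 = 2 * t + 4 + 3 by ring, pow_add]
    omega
  have q := quad_le_two_pow t t3
  calc 10 * (5 * (n + 2 * K + 3) ^ 2) ^ (K + 1) ≤ 2 ^ 4 * (2 ^ (2 * t + 7)) ^ (2 * t + 6) :=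
        Nat.mul_le_mul (by norm_num) ((Nat.pow_le_pow_left s3 _).trans
          (Nat.pow_le_pow_right (by positivity) k1))
    _ = 2 ^ (4 + (2 * t + 7) * (2 * t + 6)) := by rw [← pow_mul, ← pow_add]
    _ ≤ 2 ^ (6 * (n - 3)) := Nat.pow_le_pow_right (by norm_num) (by omega)
    _ = 64 ^ (n - 3) := by rw [pow_mul]; norm_num

theorem fine_large {n K : ℕ} (hn : 64 ≤ n) (h : 2 ^ K < 4 * (n + K + 3) ^ 2) :
    Fine (fun n => (apery 2 1 n : ℝ)) K n := by
  obtain ⟨p, hp, p0, hP⟩ := exists_pure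
  obtain ⟨A, A0, hA⟩ := compare rec_apery hp (fun n _ => apery_pos n) p0 (n - 3)
  refine fine_of_close (hP A A0) (by omega) le_rfl (by positivity) ?_
    fun m hm => hA m (by omega)
  have : (10 : ℝ) * (5 * ((n + 2 * K + 3 : ℕ) : ℝ) ^ 2) ^ (K + 1) ≤ 64 ^ (n - 3) := by
    exact_mod_cast size hn h
  rw [one_div_mul_eq_div, div_le_div_iff₀ (by positivity) (by norm_num)]
  linarith

end Pool.Agent.MP_6026f4_co.CX

end

section

/- The finite check for small indices. -/

namespace Pool.Agent.MP_6026f4_co.CX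

/-- Evaluate a number before passing it on. -/
def forceN {α : Type} (n : ℕ) (f : ℕ → α) : α :=
  Nat.casesOn (motive := fun _ => α) n (f 0) (fun k => f (Nat.succ k))

theorem forceN_eq {α : Type} (n : ℕ) (f : ℕ → α) : forceN n f = f n := by cases n <;> rfl

/-- One level of the check. -/
def stepL (t : ℕ) : ℕ → ℕ → ℕ → List ℕ → (List ℕ → Bool) → Bool
  | _, _, _, [], f => f []
  | e, a, b, c :: l, f => forceN (a * c) fun P => forceN (b * b) fun Q =>
      Nat.blt Q P && (Nat.blt t (2 * e * e) || Nat.ble (3 * Q) P) &&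
        forceN (P - Q) fun v => stepL t (e + 1) b c l fun r => f (v :: r)

/-- All levels of the check. -/
def levels : ℕ → ℕ → List ℕ → Bool
  | 0, _, _ => true
  | K + 1, k, a :: b :: l => stepL (2 ^ k) (k + 2) a b l fun r => levels K (k + 1) r
  | _ + 1, _, _ => false

/-- The first terms, from the recurrence. -/
def gen : ℕ → ℕ → ℕ → ℕ → (List ℕ → Bool) → Bool
  | 0, _, _, _, f => f []
  | N + 1, m, a, b, f =>
    forceN (((11 * (m + 1) ^ 2 + 11 * (m + 1) + 3) * b + (m + 1) ^ 2 * a) / (m + 2) ^ 2) fun c =>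
      gen N (m + 1) b c fun r => f (a :: r)

theorem chk : gen 94 0 1 3 (levels 15 0) = true := by decide +kernel

/-- The list is a segment of the sequence. -/
def Seg (w : ℕ → ℝ) : ℕ → List ℕ → Prop
  | _, [] => True
  | n, a :: l => (a : ℝ) = w n ∧ Seg w (n + 1) l

theorem stepL_sound {w : ℕ → ℝ} {t : ℕ} (l : List ℕ) : ∀ {n e a b : ℕ} {f : List ℕ → Bool},
    stepL t e a b l f = true → Seg w n (a :: b :: l) →
      ∃ r, f r = true ∧ r.length = l.length ∧ Seg (logConvexOp w) n r ∧ ∀ i < l.length,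
        0 < logConvexOp w (n + i) ∧ (2 * (e + i) ^ 2 ≤ t → Good w (n + i)) := by
  induction l with
  | nil => exact fun h _ => ⟨[], h, rfl, trivial, fun i hi => absurd hi (Nat.not_lt_zero i)⟩
  | cons c l ih =>
    intro n e a b f h hs
    simp only [stepL, forceN_eq, Bool.and_eq_true, Bool.or_eq_true, Nat.blt_eq, Nat.ble_eq] at h
    obtain ⟨⟨h1, h2⟩, h3⟩ := h
    obtain ⟨ha, hb, hc, hl⟩ := hs
    obtain ⟨r, r1, r2, r3, r4⟩ := ih h3 (⟨hb, hc, hl⟩ : Seg w (n + 1) (b :: c :: l))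
    have hv : ((a * c - b * b : ℕ) : ℝ) = logConvexOp w n := by
      rw [Nat.cast_sub h1.le, logConvexOp, ← ha, ← hb, ← hc]
      push_cast
      ring
    refine ⟨_, r1, by simp [r2], ⟨hv, r3⟩, fun i hi => ?_⟩
    rcases i with _ | i
    · refine ⟨hv ▸ Nat.cast_pos.2 (Nat.sub_pos_of_lt h1), fun he => ?_⟩
      have h4 : 3 * (b * b) ≤ a * c := h2.resolve_left (by rw [add_zero, sq, ← mul_assoc] at he; omega)
      unfold Good
      rw [add_zero, ← ha, ← hb, ← hc, sq]
      exact_mod_cast h4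
    · have := r4 i (by simpa using hi)
      rwa [add_assoc, add_assoc, add_comm 1] at this

theorem levels_sound {y : ℕ → ℝ} (K : ℕ) : ∀ {k : ℕ} {l : List ℕ}, levels K k l = true →
    Seg (logConvexOp^[k] y) 0 l → ∀ j < K, ∀ i, i + 2 * j + 2 < l.length → Fine y (k + j) i := by
  induction K with
  | zero => exact fun _ _ j hj => absurd hj (Nat.not_lt_zero j)
  | succ K ih =>
    intro k l h hs j hj i hi
    match l, h, hs, hi with
    | [], h, _, _ => simp [levels] at h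
    | [_], h, _, _ => simp [levels] at h
    | a :: b :: l, h, hs, hi =>
      obtain ⟨r, r1, r2, r3, r4⟩ := stepL_sound l h hs
      simp only [List.length_cons] at hi
      rcases j with _ | j
      · have := r4 i (by omega)
        rw [zero_add] at this
        refine ⟨by rw [add_zero, Function.iterate_succ_apply']; exact this.1, fun he => this.2 ?_⟩
        rwa [add_zero, add_assoc, add_comm i] at he
      · have := ih r1 (by rw [Function.iterate_succ_apply']; exact r3) j (by omega) i (by omega)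
        rwa [add_assoc, add_comm 1] at this

theorem gen_sound (N : ℕ) : ∀ {m : ℕ} {f : List ℕ → Bool},
    gen N m (apery 2 1 m) (apery 2 1 (m + 1)) f = true →
      ∃ r, f r = true ∧ r.length = N ∧ Seg (fun n => (apery 2 1 n : ℝ)) m r := by
  induction N with
  | zero => exact fun h => ⟨[], h, rfl, trivial⟩
  | succ N ih =>
    intro m f h
    have e : (11 * (m + 1) ^ 2 + 11 * (m + 1) + 3) * apery 2 1 (m + 1) + (m + 1) ^ 2 * apery 2 1 m =
        (m + 2) ^ 2 * apery 2 1 (m + 1 + 1) := by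
      have := apery_rec21 m
      have h2 : (11 * ((m : ℝ) + 1) ^ 2 + 11 * (m + 1) + 3) * apery 2 1 (m + 1) +
          (m + 1) ^ 2 * apery 2 1 m = (m + 2) ^ 2 * apery 2 1 (m + 1 + 1) := by linarith
      exact_mod_cast h2
    rw [gen, forceN_eq, e, Nat.mul_div_cancel_left _ (by positivity)] at h
    obtain ⟨r, r1, r2, r3⟩ := ih h
    exact ⟨_, r1, by simp [r2], rfl, r3⟩

theorem fine_small {n K : ℕ} (hn : n < 64) (h : 2 ^ K < 4 * (n + K + 3) ^ 2) :
    Fine (fun n => (apery 2 1 n : ℝ)) K n := by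
  have hK : K < 15 := by
    by_contra hc
    have h1 : ∀ K, 15 ≤ K → 4 * (66 + K) ^ 2 ≤ 2 ^ K := fun K hK => by
      induction K, hK using Nat.le_induction with
      | base => norm_num
      | succ K hK ih => rw [pow_succ 2]; nlinarith
    have := h1 K (by omega)
    have : (n + K + 3) ^ 2 ≤ (66 + K) ^ 2 := Nat.pow_le_pow_left (by omega) 2
    omega
  have h0 : apery 2 1 0 = 1 := by decide
  have h1 : apery 2 1 (0 + 1) = 3 := by decide
  obtain ⟨r, r1, r2, r3⟩ := gen_sound 94 (m := 0) (by rw [h0, h1]; exact chk)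
  simpa using levels_sound 15 r1 r3 K hK n (by omega)

theorem fine (k n : ℕ) : Fine (fun n => (apery 2 1 n : ℝ)) k n :=
  fine_all (fun _ n h => (lt_or_ge n 64).elim (fun hn => fine_small hn h) fun hn => fine_large hn h)
    k n

end Pool.Agent.MP_6026f4_co.CX

end
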