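import Pool.Agent.Mg.F6026f4p.G56bf26
import Pool.Agent.Mg.F6026f4p.G40955e

section

namespace Pool.Agent.MP_6026f4_co.R3

open Complex Set Filter Topology MeasureTheory Asymptotics
open scoped ComplexConjugate

theorem PB_QQ {ι : Type*} {S : Set ι} {ρ h : ι → ℝ} {u w p q : ι → ℂ} {η d C₀ A : ℝ} (r s : ℕ)
    (e : ℝ) (hη : 0 < η) (hη1 : η ≤ 1) (hd : 0 < d) (hρ : ∀ i ∈ S, 0 < ρ i)
    (hp : ∀ i ∈ S, ‖p i‖ ≤ C₀) (hq : ∀ i ∈ S, ‖q i‖ ≤ C₀) (hu : ∀ i ∈ S, ‖u i‖ ≤ A)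
    (hw : ∀ i ∈ S, ‖w i‖ ≤ A)
    (hs : ∀ i ∈ S, u i ∈ Sec η ∧ u i + w i ∈ Sec η ∧ w i ∈ Sec η ∧ w i - u i ∈ Sec η)
    (hg : ∀ i ∈ S, Good d (ρ i * u i + p i) ∧
      Good d (ρ i * u i + p i + (ρ i * w i + q i) - 1 / 2) ∧
      Good d (ρ i * w i + q i - (ρ i * u i + p i) + 1 / 2))
    (hh : ∀ i ∈ S, (PhiW r s (u i) (w i)).re - Real.pi * e * (w i - u i).im ≤ h i) :
    PB S ρ (fun i => QQ r s e (ρ i * u i + p i) (ρ i * w i + q i)) fun i => h i * ρ i := by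
  have hb : ∀ i ∈ S, ∀ z : ℂ, ‖z‖ ≤ A → ‖(ρ i : ℂ) * z‖ ≤ A * (1 + ρ i) := by
    intro i hi z hz
    rw [norm_mul, norm_real, Real.norm_eq_abs, abs_of_pos (hρ i hi)]
    nlinarith [hρ i hi, norm_nonneg z]
  have F : Frame S ρ (fun i => ρ i * u i) (fun i => ρ i * w i) p q η d C₀ A :=
    { hη := hη, hη1 := hη1, hd := hd, hm := fun i hi => (hρ i hi).le, hp := hp, hq := hq
      hn := fun i hi => hb i hi _ (hu i hi)
      hk := fun i hi => hb i hi _ (hw i hi)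
      s1 := fun i hi => Sec.smul (hρ i hi).le (hs i hi).1
      s2 := fun i hi => by
        rw [← mul_add]; exact Sec.smul (hρ i hi).le (hs i hi).2.1
      g1 := fun i hi => (hg i hi).1
      g2 := fun i hi => (hg i hi).2.1 }
  refine ((F.TW r s (fun i hi => Sec.smul (hρ i hi).le (hs i hi).2.2.1)
    (fun i hi => by rw [← mul_sub]; exact Sec.smul (hρ i hi).le (hs i hi).2.2.2)
    (fun i hi => (hg i hi).2.2)).QQ_of_TW r s e).shift F.hm
    (c := Real.pi * |e| * (2 * C₀)) fun i hi => ?_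
  rw [PhiW_smul r s (hρ i hi), re_ofReal_mul, show (ρ i : ℂ) * w i + q i - (ρ i * u i + p i) =
    ρ i * (w i - u i) + (q i - p i) by ring, add_im, im_ofReal_mul]
  have h1 : |(q i - p i).im| ≤ 2 * C₀ := by
    linarith [abs_im_le_norm (q i - p i), norm_sub_le (q i) (p i), hp i hi, hq i hi]
  have h2 : -(e * (q i - p i).im) ≤ |e| * (2 * C₀) := by
    refine (neg_le_abs _).trans ?_
    rw [abs_mul]; gcongr
  have h3 := mul_le_mul_of_nonneg_left h2 Real.pi_pos.le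
  have h4 := mul_le_mul_of_nonneg_right (hh i hi) (hρ i hi).le
  nlinarith

theorem eb_seg_gen {ι : Type*} {l : Filter ι} {S : Set ι} (hS : S ∈ l) {ρ : ι → ℝ}
    (hρ : ∀ i ∈ S, 0 < ρ i) (r s : ℕ) (e : ℝ) (u p a b q₁ q₂ : ℂ) {η d h : ℝ} (hη : 0 < η)
    (hη1 : η ≤ 1) (hd : 0 < d)
    (H : ∀ v ∈ Icc (0 : ℝ) 1, ∀ w : ℂ, w = a + v * (b - a) →
      (u ∈ Sec η ∧ u + w ∈ Sec η ∧ w ∈ Sec η ∧ w - u ∈ Sec η) ∧
      (PhiW r s u w).re - Real.pi * e * (w - u).im ≤ h)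
    (G : ∀ i ∈ S, ∀ v ∈ Icc (0 : ℝ) 1, ∀ n k : ℂ, n = ρ i * u + p →
      k = ρ i * (a + v * (b - a)) + (q₁ + v * (q₂ - q₁)) →
      Good d n ∧ Good d (n + k - 1 / 2) ∧ Good d (k - n + 1 / 2)) :
    EB l ρ h fun i => seg (QQ r s e (ρ i * u + p)) (ρ i * a + q₁) (ρ i * b + q₂) := by
  refine PB.eb hS (fun i hi => (hρ i hi).le) ?_
  refine PB.seg (F := fun i => QQ r s e (ρ i * u + p)) (A := ‖b - a‖ + ‖q₂ - q₁‖)
    (fun i hi => (hρ i hi).le) ?_ fun i hi => ?_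
  · refine (PB_QQ (S := S ×ˢ Icc (0 : ℝ) 1) (ρ := fun x => ρ x.1) (h := fun _ => h)
      (u := fun _ => u) (w := fun x => a + x.2 * (b - a)) (p := fun _ => p)
      (q := fun x => q₁ + x.2 * (q₂ - q₁)) (C₀ := ‖p‖ + (‖q₁‖ + ‖q₂ - q₁‖))
      (A := ‖u‖ + (‖a‖ + ‖b - a‖)) r s e hη hη1 hd (fun x hx => hρ _ hx.1)
      (fun x _ => le_add_of_nonneg_right (by positivity))
      (fun x hx => (norm_seg_pt_le _ _ hx.2).trans (le_add_of_nonneg_left (norm_nonneg _)))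
      (fun x _ => le_add_of_nonneg_right (by positivity))
      (fun x hx => (norm_seg_pt_le _ _ hx.2).trans (le_add_of_nonneg_left (norm_nonneg _)))
      (fun x hx => (H _ hx.2 _ rfl).1) (fun x hx => G _ hx.1 _ hx.2 _ _ rfl rfl)
      (fun x hx => (H _ hx.2 _ rfl).2)).congr fun x _ => ?_
    congr 1; ring
  · rw [show ρ i * b + q₂ - (ρ i * a + q₁) = ρ i * (b - a) + (q₂ - q₁) by ring]
    refine (norm_add_le _ _).trans ?_
    rw [norm_mul, norm_real, Real.norm_eq_abs, abs_of_pos (hρ i hi)]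
    nlinarith [hρ i hi, norm_nonneg (b - a), norm_nonneg (q₂ - q₁)]

/-- Real direction. -/
theorem eb_seg_QQ (r s : ℕ) (e : ℝ) {a b : ℂ} {h : ℝ}
    (H : ∀ v ∈ Icc (0 : ℝ) 1, 1 ≤ (a + v * (b - a)).re ∧
      (PhiW r s 1 (a + v * (b - a))).re - Real.pi * e * (a + v * (b - a)).im ≤ h) :
    EB atTop (fun n : ℕ => (n : ℝ)) h fun n : ℕ => seg (QQ r s e n) (n * a) (n * b) := by
  have := eb_seg_gen (l := atTop) (S := {n : ℕ | 1 ≤ (n : ℝ)}) (ρ := fun n : ℕ => (n : ℝ))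
    (tendsto_natCast_atTop_atTop.eventually_ge_atTop (1 : ℝ))
    (fun n hn => lt_of_lt_of_le one_pos hn) r s e 1 0 a b 0 0 (h := h) one_pos le_rfl
    (d := 1 / 2) (by norm_num) (fun v hv w hw => ?_) (fun n hn v hv m k hm hk => ?_)
  · simpa using this
  · have h1 := (H v hv).1
    have h2 := (H v hv).2
    rw [← hw] at h1 h2
    refine ⟨⟨Sec.of_re_nonneg le_rfl (by simp), Sec.of_re_nonneg le_rfl (by simp; linarith),
      Sec.of_re_nonneg le_rfl (by linarith), Sec.of_re_nonneg le_rfl (by simp; linarith)⟩, ?_⟩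
    simpa using h2
  · have h1 := (H v hv).1
    have h0 : 1 ≤ (n : ℝ) := hn
    have e1 : m.re = n := by rw [hm]; simp
    have e2 : k.re = n * (a + v * (b - a)).re := by
      rw [hk, sub_zero, mul_zero, add_zero, add_zero, re_ofReal_mul]
    refine ⟨Good.of_re (by linarith), Good.of_re ?_, Good.of_re ?_⟩
    · rw [sub_re, add_re, half_re, e1, e2]; nlinarith
    · rw [add_re, sub_re, half_re, e1, e2]; nlinarith

theorem sec_mul {u ζ : ℂ} {κ : ℝ} (hu : 0 ≤ u.re) (hκ : 0 ≤ κ) (h : κ * ‖ζ‖ ≤ ζ.re) :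
    u * ζ ∈ Sec (κ ^ 2 / 2) := by
  change κ ^ 2 / 2 * ‖u * ζ‖ ≤ ‖u * ζ‖ + (u * ζ).re
  have h0 : 0 ≤ κ * ‖ζ‖ := by positivity
  have h1 : ζ.re ^ 2 + ζ.im ^ 2 = ‖ζ‖ ^ 2 := by rw [Complex.sq_norm, normSq_apply]; ring
  have h2 : (κ * ‖ζ‖) ^ 2 ≤ ζ.re ^ 2 := by gcongr
  have h3 : |ζ.im| ≤ (1 - κ ^ 2 / 2) * ‖ζ‖ := by
    have h4 : κ * ‖ζ‖ ≤ ‖ζ‖ := h.trans (re_le_norm ζ)
    have h5 : 0 ≤ (1 - κ ^ 2 / 2) * ‖ζ‖ := by nlinarith [norm_nonneg ζ]
    refine abs_le_of_sq_le_sq' ?_ h5 |> abs_le.2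
    nlinarith [sq_nonneg (κ ^ 2 * ‖ζ‖)]
  have h6 : u.im * ζ.im ≤ ‖u‖ * ((1 - κ ^ 2 / 2) * ‖ζ‖) := by
    refine (le_abs_self _).trans ?_
    rw [abs_mul]
    exact mul_le_mul (abs_im_le_norm u) h3 (abs_nonneg _) (norm_nonneg _)
  rw [norm_mul, mul_re]
  nlinarith [mul_nonneg hu (h0.trans h)]

theorem sec_wing {u ξ : ℂ} (hu : 0 ≤ u.re) (hξ : 0 < ξ.re) {c v : ℝ} (hc : 0 ≤ c) (hv : 0 ≤ v) :
    u * (c + v * ξ) ∈ Sec ((ξ.re / ‖ξ‖) ^ 2 / 2) := by
  have h0 : 0 < ‖ξ‖ := hξ.trans_le (re_le_norm ξ)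
  refine sec_mul hu (by positivity) ?_
  have h1 : ‖(c : ℂ) + v * ξ‖ ≤ c + v * ‖ξ‖ := by
    refine (norm_add_le _ _).trans ?_
    rw [norm_mul, norm_real, norm_real, Real.norm_eq_abs, Real.norm_eq_abs, abs_of_nonneg hc,
      abs_of_nonneg hv]
  have h2 : ξ.re / ‖ξ‖ ≤ 1 := (div_le_one h0).2 (re_le_norm ξ)
  calc _ ≤ ξ.re / ‖ξ‖ * (c + v * ‖ξ‖) := by gcongr
    _ = ξ.re / ‖ξ‖ * c + v * ξ.re := by field_simp
    _ ≤ _ := by simp only [add_re, ofReal_re, re_ofReal_mul]; nlinarith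

theorem eta_wing {ξ : ℂ} (hξ : 0 < ξ.re) :
    0 < (ξ.re / ‖ξ‖) ^ 2 / 2 ∧ (ξ.re / ‖ξ‖) ^ 2 / 2 ≤ 1 := by
  have h0 : 0 < ‖ξ‖ := hξ.trans_le (re_le_norm ξ)
  have h2 : ξ.re / ‖ξ‖ ≤ 1 := (div_le_one h0).2 (re_le_norm ξ)
  have h3 : 0 < ξ.re / ‖ξ‖ := by positivity
  exact ⟨by positivity, by nlinarith⟩

theorem secs_wing {u ξ : ℂ} (hu : 0 ≤ u.re) (hξ : 0 < ξ.re) {v : ℝ} (hv : 0 ≤ v) :
    u ∈ Sec ((ξ.re / ‖ξ‖) ^ 2 / 2) ∧ u + u * (1 + v * ξ) ∈ Sec ((ξ.re / ‖ξ‖) ^ 2 / 2) ∧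
      u * (1 + v * ξ) ∈ Sec ((ξ.re / ‖ξ‖) ^ 2 / 2) ∧
      u * (1 + v * ξ) - u ∈ Sec ((ξ.re / ‖ξ‖) ^ 2 / 2) := by
  refine ⟨Sec.of_re_nonneg (eta_wing hξ).2 hu, ?_, ?_, ?_⟩
  · convert sec_wing hu hξ (c := 2) (by norm_num) hv using 1; push_cast; ring
  · simpa using sec_wing hu hξ (c := 1) (by norm_num) hv
  · convert sec_wing hu hξ (c := 0) le_rfl hv using 1; push_cast; ring

theorem good_wing {z ξ : ℂ} (hz : 1 ≤ z.re) (hξ : 0 < ξ.re) {v : ℝ} (hv : 0 ≤ v) :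
    Good ((ξ.re / ‖ξ‖) ^ 2 / 2 / 4) z ∧
      Good ((ξ.re / ‖ξ‖) ^ 2 / 2 / 4) (z + z * (1 + v * ξ) - 1 / 2) ∧
      Good ((ξ.re / ‖ξ‖) ^ 2 / 2 / 4) (z * (1 + v * ξ) - z + 1 / 2) := by
  obtain ⟨h0, h1⟩ := eta_wing hξ
  obtain ⟨-, s2, -, s4⟩ := secs_wing (u := z) (by linarith) hξ hv
  refine ⟨Good.of_re (by linarith), fun k => ?_, ?_⟩
  · rcases k with _ | k
    · have e1 : 1 ≤ ‖z‖ := hz.trans (re_le_norm z)
      have e2 : 2 ≤ ‖2 + v * ξ‖ := by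
        refine le_trans ?_ (re_le_norm _)
        simp only [add_re, re_ofNat, re_ofReal_mul]; nlinarith
      have e3 := norm_sub_norm_le (z * (2 + v * ξ)) (1 / 2)
      rw [norm_mul, norm_half] at e3
      rw [show z + z * (1 + v * ξ) - 1 / 2 + ((0 : ℕ) : ℂ) = z * (2 + v * ξ) - 1 / 2 by
        push_cast; ring]
      nlinarith
    · convert Good.of_sec h0 h1 s2 (c := 1 / 2) le_rfl k using 2
      push_cast; ring
  · convert Good.of_sec h0 h1 s4 (c := 1 / 2) le_rfl using 2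
    push_cast; ring

theorem PhiW_le (r s : ℕ) {u w : ℂ} {R : ℝ} (hR : 1 ≤ R) (hu : 2 * ‖u‖ ≤ R) (hw : 2 * ‖w‖ ≤ R) :
    (PhiW r s u w).re ≤ 3 * (r + s) * (R ^ 2 + 5 * R + 1) := by
  have b0 := abs_le.1 (re_LL_le (w := u) hR (by linarith [norm_nonneg u]))
  have b1 := abs_le.1 (re_LL_le (w := u + w) hR (by linarith [norm_add_le u w]))
  have b2 := abs_le.1 (re_LL_le (w := w) hR (by linarith [norm_nonneg w]))
  have b3 := abs_le.1 (re_LL_le (w := w - u) hR (by linarith [norm_sub_le w u]))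
  have hr : (0 : ℝ) ≤ r := Nat.cast_nonneg r
  have hs : (0 : ℝ) ≤ s := Nat.cast_nonneg s
  have e : (PhiW r s u w).re = (r - s) * (LL u).re + s * (LL (u + w)).re - (r + s) * (LL w).re +
      r * (LL (w - u)).re := by simp [PhiW, Phi0]
  rw [e]
  nlinarith

theorem diffAt_QQ {E : Type*} [NormedAddCommGroup E] [NormedSpace ℂ E] {n k : E → ℂ} {x : E}
    (r s : ℕ) (e : ℝ) (hn : DifferentiableAt ℂ n x) (hk : DifferentiableAt ℂ k x)
    (h1 : NP (n x)) (h2 : NP (n x + k x - 1 / 2)) (h3 : NP (k x - n x + 1 / 2)) :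
    DifferentiableAt ℂ (fun y => QQ r s e (n y) (k y)) x :=
  ((diffAt_TW r s hn hk h1 h2 h3).const_mul _).mul ((hk.sub hn).const_mul _).cexp

end Pool.Agent.MP_6026f4_co.R3

end

section

namespace Pool.Agent.MP_6026f4_co.R3

open Complex Set Filter Topology MeasureTheory Asymptotics
open scoped ComplexConjugate

/-- The wing integral. -/
noncomputable def Wg (r s : ℕ) (e : ℝ) (ξ z : ℂ) : ℂ := seg (QQ r s e z) z (z + z * ξ)

theorem ent_Wg (r s : ℕ) (e : ℝ) {ξ : ℂ} (hξ : 0 < ξ.re) : Ent (Wg r s e ξ) := by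
  obtain ⟨h0, h1⟩ := eta_wing hξ
  have hd : 0 < (ξ.re / ‖ξ‖) ^ 2 / 2 / 4 := by positivity
  have ek : ∀ (n : ℂ) (v : ℝ), n + v * (n + n * ξ - n) = n * (1 + v * ξ) := fun n v => by ring
  set R := 2 * (1 + ‖ξ‖) with hR
  refine Ent.seg (F := fun n => QQ r s e n) (a := fun n => n) (b := fun n => n + n * ξ)
    (A := ‖ξ‖) (B := 3 * (r + s) * (R ^ 2 + 5 * R + 1) + Real.pi * (|e| * ‖ξ‖))
    (fun n => by fun_prop) (fun n => ?_) (fun v hv n hn => ?_)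
    (fun n hn => SegC.of_continuousAt fun v hv => ?_) ?_
  · rw [add_sub_cancel_left, norm_mul]; nlinarith [norm_nonneg ξ]
  · obtain ⟨g1, g2, g3⟩ := good_wing hn.le hξ hv.1
    simp only [ek]
    exact diffAt_QQ (n := fun n => n) (k := fun n => n * (1 + v * ξ)) r s e differentiableAt_id
      (by fun_prop) (g1.np hd) (g2.np hd) (g3.np hd)
  · obtain ⟨g1, g2, g3⟩ := good_wing hn.le hξ hv.1
    rw [ek]
    exact (diffAt_QQ (n := fun _ => n) (k := fun k => k) r s e (differentiableAt_const _)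
      differentiableAt_id (g1.np hd) (g2.np hd) (g3.np hd)).continuousAt
  · have hp : ∀ n : ℂ, 1 ≤ n.re → 0 < ‖n‖ := fun n hn => lt_of_lt_of_le (by linarith) (re_le_norm n)
    have hu : ∀ n : ℂ, 1 ≤ n.re → ‖n / ‖n‖‖ = 1 := fun n hn => by
      rw [norm_div, norm_real, norm_norm, div_self (hp n hn).ne']
    have hm : ∀ n : ℂ, 1 ≤ n.re → (‖n‖ : ℂ) * (n / ‖n‖) = n := fun n hn => by
      have : (‖n‖ : ℂ) ≠ 0 := by exact_mod_cast (hp n hn).ne'
      field_simp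
    have hv : ∀ v ∈ Icc (0 : ℝ) 1, ‖v * ξ‖ ≤ ‖ξ‖ := fun v hv => by
      rw [norm_mul, norm_real, Real.norm_eq_abs, abs_of_nonneg hv.1]
      nlinarith [hv.2, norm_nonneg ξ]
    have hw : ∀ n : ℂ, 1 ≤ n.re → ∀ v ∈ Icc (0 : ℝ) 1, ‖n / ‖n‖ * (1 + v * ξ)‖ ≤ 1 + ‖ξ‖ :=
      fun n hn v hv' => by
        rw [norm_mul, hu n hn, one_mul]
        have := norm_add_le 1 (v * ξ)
        rw [norm_one] at this
        linarith [hv v hv']
    refine (PB_QQ (S := {n : ℂ | 1 ≤ n.re} ×ˢ Icc (0 : ℝ) 1) (ρ := fun x => ‖x.1‖)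
      (h := fun _ => 3 * (r + s) * (R ^ 2 + 5 * R + 1) + Real.pi * (|e| * ‖ξ‖))
      (u := fun x => x.1 / ‖x.1‖) (w := fun x => x.1 / ‖x.1‖ * (1 + x.2 * ξ)) (p := fun _ => 0)
      (q := fun _ => 0) (C₀ := 0) (A := 1 + ‖ξ‖) r s e h0 h1 hd (fun x hx => hp _ hx.1)
      (by simp) (by simp) (fun x hx => by rw [hu _ hx.1]; linarith [norm_nonneg ξ])
      (fun x hx => hw _ hx.1 _ hx.2) (fun x hx => secs_wing ?_ hξ hx.2.1) (fun x hx => ?_)
      (fun x hx => ?_)).congr fun x hx => ?_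
    · rw [div_ofReal_re]
      exact div_nonneg (by linarith [show 1 ≤ x.1.re from hx.1]) (norm_nonneg _)
    · simp only [add_zero, ← mul_assoc, hm _ hx.1]
      exact good_wing hx.1 hξ hx.2.1
    · have a1 := PhiW_le r s (u := x.1 / ‖x.1‖) (w := x.1 / ‖x.1‖ * (1 + x.2 * ξ)) (R := R)
        (by linarith [norm_nonneg ξ]) (by rw [hu _ hx.1]; linarith [norm_nonneg ξ])
        (by linarith [hw _ hx.1 _ hx.2])
      have a2 : |(x.1 / ‖x.1‖ * (1 + x.2 * ξ) - x.1 / ‖x.1‖).im| ≤ ‖ξ‖ := by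
        refine (abs_im_le_norm _).trans ?_
        rw [mul_add, mul_one, add_sub_cancel_left, norm_mul, hu _ hx.1, one_mul]
        exact hv _ hx.2
      have a3 : -(e * (x.1 / ‖x.1‖ * (1 + x.2 * ξ) - x.1 / ‖x.1‖).im) ≤ |e| * ‖ξ‖ := by
        refine (neg_le_abs _).trans ?_
        rw [abs_mul]; gcongr
      have a4 := mul_le_mul_of_nonneg_left a3 Real.pi_pos.le
      nlinarith
    · simp only [add_zero, ← mul_assoc, hm _ hx.1, ek]

theorem growM_Wg (r s : ℕ) (e : ℝ) {ξ : ℂ} (hξ : 0 < ξ.re) {γ : ℝ}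
    (H : ∀ v ∈ Icc (0 : ℝ) 1,
      (PhiW r s (-I) (-I * (1 + v * ξ))).re + Real.pi * e * (v * ξ.re) ≤ γ) :
    GrowM γ (Wg r s e ξ) := by
  obtain ⟨h0, h1⟩ := eta_wing hξ
  have hd : 0 < (ξ.re / ‖ξ‖) ^ 2 / 2 / 4 := by positivity
  refine (eb_seg_gen (l := atTop) (S := Ioi 0) (ρ := fun T : ℝ => T) (Ioi_mem_atTop 0)
    (fun _ h => h) r s e (-I) (3 / 2) (-I) (-I * (1 + ξ)) (3 / 2) (3 / 2 * (1 + ξ)) (h := γ) h0 h1
    hd (fun v hv w hw => ?_) (fun T hT v hv n k hn hk => ?_)).congr'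
    (Eventually.of_forall fun T => ?_)
  · rw [show w = -I * (1 + v * ξ) by rw [hw]; ring]
    refine ⟨secs_wing (by simp) hξ hv.1, ?_⟩
    have := H v hv
    rw [show (-I * (1 + v * ξ) - -I).im = -(v * ξ.re) by simp]
    linarith
  · rw [show k = n * (1 + v * ξ) by rw [hk, hn]; ring]
    exact good_wing (by rw [hn]; simp; norm_num) hξ hv.1
  · simp only [Wg]
    rw [show (T : ℂ) * -I + 3 / 2 = -(T * I) + 3 / 2 by ring]
    congr 1; ring

theorem sec_of_im {w : ℂ} {κ M : ℝ} (hκ : 0 < κ) (hM : 0 < M) (h1 : κ ≤ w.im) (h2 : ‖w‖ ≤ M) :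
    w ∈ Sec (min 1 ((κ / M) ^ 2 / 2)) := by
  refine Sec.mono (min_le_right _ _) ?_
  have := sec_mul (u := I) (ζ := -I * w) (κ := κ / M) (by simp) (by positivity) (by
    rw [norm_mul, norm_neg, norm_I, one_mul, show (-I * w).re = w.im by simp, div_mul_eq_mul_div,
      div_le_iff₀ hM]
    nlinarith [norm_nonneg w])
  rwa [← mul_assoc, mul_neg, I_mul_I, neg_neg, one_mul] at this

theorem eb_seg_up (r s : ℕ) (e : ℝ) (a b q₁ q₂ : ℂ) {κ h : ℝ} (hκ : 0 < κ)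
    (H : ∀ v ∈ Icc (0 : ℝ) 1, ∀ w q : ℂ, w = a + v * (b - a) → q = q₁ + v * (q₂ - q₁) →
      (w.re = 0 ∧ q.re = 3 / 2 ∨ 1 + κ ≤ w.im ∧ 0 ≤ q.im) ∧
      (PhiW r s I w).re - Real.pi * e * (w.im - 1) ≤ h) :
    EB atTop (fun T : ℝ => T) h fun T : ℝ =>
      seg (QQ r s e (T * I + 3 / 2)) (T * a + q₁) (T * b + q₂) := by
  have hM : 0 < 1 + (‖a‖ + ‖b - a‖) := by positivity
  refine eb_seg_gen (l := atTop) (S := Ici 1) (ρ := fun T : ℝ => T) (Ici_mem_atTop 1)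
    (fun _ h => lt_of_lt_of_le one_pos h) r s e I (3 / 2) a b q₁ q₂ (h := h)
    (η := min 1 ((κ / (1 + (‖a‖ + ‖b - a‖))) ^ 2 / 2)) (by positivity) (min_le_left _ _)
    (d := min (1 / 2) κ) (by positivity) (fun v hv w hw => ?_) (fun T hT v hv n k hn hk => ?_)
  · obtain ⟨h1, h2⟩ := H v hv w _ hw rfl
    refine ⟨?_, by simpa using h2⟩
    rcases h1 with ⟨h1, -⟩ | ⟨h1, -⟩
    · exact ⟨Sec.of_re_nonneg (min_le_left _ _) (by simp),
        Sec.of_re_nonneg (min_le_left _ _) (by simp [h1]),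
        Sec.of_re_nonneg (min_le_left _ _) (by simp [h1]),
        Sec.of_re_nonneg (min_le_left _ _) (by simp [h1])⟩
    · have h3 : ‖w‖ ≤ ‖a‖ + ‖b - a‖ := hw ▸ norm_seg_pt_le a b hv
      refine ⟨Sec.of_re_nonneg (min_le_left _ _) (by simp), sec_of_im hκ hM (by simp; linarith) ?_,
        sec_of_im hκ hM (by linarith) (by linarith), sec_of_im hκ hM (by simp; linarith) ?_⟩
      · have := norm_add_le I w
        rw [norm_I] at this; linarith
      · have := norm_sub_le w I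
        rw [norm_I] at this; linarith
  · obtain ⟨h1, -⟩ := H v hv _ _ rfl rfl
    have hT' : 1 ≤ T := hT
    have e1 : n.re = 3 / 2 := by rw [hn]; simp
    have e2 : n.im = T := by rw [hn]; simp
    have m1 := min_le_left (1 / 2) κ
    have m2 := min_le_right (1 / 2) κ
    refine ⟨Good.of_re (by linarith), ?_⟩
    rcases h1 with ⟨h1, h2⟩ | ⟨h1, h2⟩
    · have e3 : k.re = 3 / 2 := by rw [hk, add_re, re_ofReal_mul, h1, h2]; simp
      refine ⟨Good.of_re ?_, Good.of_re ?_⟩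
      · rw [sub_re, add_re, half_re]; linarith
      · rw [add_re, sub_re, half_re]; linarith
    · have e3 : T * (1 + κ) ≤ k.im := by
        rw [hk, add_im, im_ofReal_mul]; nlinarith
      have e4 : (1 / 2 : ℂ).im = 0 := by simp
      refine ⟨Good.of_im (le_trans ?_ (le_abs_self _)), Good.of_im (le_trans ?_ (le_abs_self _))⟩
      · rw [sub_im, add_im, e4]; nlinarith
      · rw [add_im, sub_im, e4]; nlinarith

theorem growP_Wg (r s : ℕ) (e : ℝ) {ε Z γ : ℝ} (hε : 0 < ε) (hε1 : ε ≤ 1) (hZ : 0 < Z)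
    (H1 : ∀ x ∈ Icc (1 : ℝ) 2, (PhiW r s I (x * I)).re - Real.pi * e * (x - 1) ≤ γ)
    (H2 : ∀ y ∈ Icc 0 Z, (PhiW r s I (-y + 2 * I)).re - Real.pi * e ≤ γ)
    (H3 : ∀ x ∈ Icc (1 + ε) 2, (PhiW r s I (-Z + x * I)).re - Real.pi * e * (x - 1) ≤ γ) :
    GrowP γ (Wg r s e (ε + Z * I)) := by
  have E1 := eb_seg_up r s e I (2 * I) (3 / 2) (3 / 2) (h := γ) hε fun v hv w q hw hq => by
    rw [show w = ((1 + v : ℝ) : ℂ) * I by rw [hw]; push_cast; ring]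
    refine ⟨Or.inl ⟨by simp, by rw [hq]; simp⟩, ?_⟩
    simpa using H1 (1 + v) ⟨by linarith [hv.1], by linarith [hv.2]⟩
  have E2 := eb_seg_up r s e (2 * I) (-Z + 2 * I) (3 / 2) (3 / 2) (h := γ) hε
    fun v hv w q hw hq => by
      rw [show w = -((v * Z : ℝ) : ℂ) + 2 * I by rw [hw]; push_cast; ring]
      refine ⟨Or.inr ⟨by simp; linarith, by rw [hq]; simp⟩, ?_⟩
      have := H2 (v * Z) ⟨by nlinarith [hv.1], by nlinarith [hv.2]⟩
      rw [show (-((v * Z : ℝ) : ℂ) + 2 * I).im = 2 by simp]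
      linarith
  have E3 := eb_seg_up r s e (-Z + 2 * I) (-Z + (1 + ε) * I) (3 / 2) (3 / 2) (h := γ) hε
    fun v hv w q hw hq => by
      rw [show w = -Z + ((2 - v * (1 - ε) : ℝ) : ℂ) * I by rw [hw]; push_cast; ring]
      have h1 : 2 - v * (1 - ε) ∈ Icc (1 + ε) 2 := ⟨by nlinarith [hv.2], by nlinarith [hv.1]⟩
      rw [show (-(Z : ℂ) + ((2 - v * (1 - ε) : ℝ) : ℂ) * I).im = 2 - v * (1 - ε) by simp]
      exact ⟨Or.inr ⟨h1.1, by rw [hq]; simp⟩, H3 _ h1⟩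
  have E4 := eb_seg_up r s e (-Z + (1 + ε) * I) (-Z + (1 + ε) * I) (3 / 2)
    (3 / 2 * (1 + (ε + Z * I))) (h := γ) hε fun v hv w q hw hq => by
      rw [show w = -Z + ((1 + ε : ℝ) : ℂ) * I by rw [hw]; push_cast; ring]
      rw [show (-(Z : ℂ) + ((1 + ε : ℝ) : ℂ) * I).im = 1 + ε by simp]
      refine ⟨Or.inr ⟨le_rfl, ?_⟩, H3 _ ⟨le_rfl, by linarith⟩⟩
      rw [hq]; simp; nlinarith [hv.1]
  refine (((E1.add E2).add E3).add E4).congr' ?_
  filter_upwards [eventually_ge_atTop 0] with T hT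
  set z : ℂ := T * I + 3 / 2 with hz
  have z1 : z.re = 3 / 2 := by rw [hz]; simp
  have z2 : z.im = T := by rw [hz]; simp
  set U : Set ℂ := {k | ε + Z * T < ε * k.re + Z * k.im} with hU
  have hc : Convex ℝ U :=
    convex_halfSpace_gt (f := fun k : ℂ => ε * k.re + Z * k.im)
      ⟨fun x y => by simp; ring, fun c x => by simp; ring⟩ _
  have ho : IsOpen U := isOpen_lt continuous_const (by fun_prop)
  have hd : DifferentiableOn ℂ (QQ r s e z) U := fun k hk => by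
    have hk' : ε + Z * T < ε * k.re + Z * k.im := hk
    refine (diffAt_QQ (n := fun _ => z) (k := fun k => k) r s e (differentiableAt_const _)
      differentiableAt_id (NP.of_re (by linarith)) (fun m hm => ?_)
      (fun m hm => ?_)).differentiableWithinAt
    · have a1 := congrArg Complex.re hm
      have a2 := congrArg Complex.im hm
      simp [z1, z2] at a1 a2
      have : (0 : ℝ) ≤ m := Nat.cast_nonneg m
      rw [show k.re = -m - 1 by linarith, show k.im = -T by linarith] at hk'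
      nlinarith
    · have a1 := congrArg Complex.re hm
      have a2 := congrArg Complex.im hm
      simp [z1, z2] at a1 a2
      have : (0 : ℝ) ≤ m := Nat.cast_nonneg m
      rw [show k.re = 1 - m by linarith, show k.im = T by linarith] at hk'
      nlinarith
  obtain ⟨P, hP⟩ := exists_primitive hc ho hd
  have hZT : 0 ≤ Z * T := by positivity
  have m0 : z ∈ U := by rw [hU, mem_ofPred_eq]; rw [z1, z2]; linarith
  have m1 : T * (2 * I) + 3 / 2 ∈ U := by rw [hU, mem_ofPred_eq]; simp; nlinarith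
  have m2 : T * (-Z + 2 * I) + 3 / 2 ∈ U := by rw [hU, mem_ofPred_eq]; simp; nlinarith
  have m3 : T * (-Z + (1 + ε) * I) + 3 / 2 ∈ U := by rw [hU, mem_ofPred_eq]; simp; nlinarith
  have m4 : T * (-Z + (1 + ε) * I) + 3 / 2 * (1 + (ε + Z * I)) ∈ U := by
    rw [hU, mem_ofPred_eq]; simp; nlinarith
  have e : z + z * (ε + Z * I) = T * (-Z + (1 + ε) * I) + 3 / 2 * (1 + (ε + Z * I)) := by
    rw [hz]; linear_combination (T * Z : ℂ) * I_mul_I
  rw [Wg, e, hP _ m0 _ m1, hP _ m1 _ m2, hP _ m2 _ m3, hP _ m3 _ m4, hP _ m0 _ m4]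
  ring

end Pool.Agent.MP_6026f4_co.R3

end

section

namespace Pool.Agent.MP_6026f4_co

open Complex Set

namespace S3

theorem exists_data {s : ℕ} (hs : (16 : ℝ) ≤ s) : ∃ ξ η δ : ℝ, Data s ξ η δ := by
  obtain ⟨w, hw, him, hre, heq⟩ := exists_saddle hs
  have hw0 : 0 < ‖w‖ := norm_pos_iff.2 fun e => by rw [e] at him; simp at him
  refine ⟨w.re, w.im, ‖w‖, hs, ?_, hw0, ?_, him, hre, ?_⟩
  · rw [← normSq_eq_norm_sq, normSq_apply]; ring
  · rw [le_div_iff₀ (by positivity)] at hw; linarith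
  · have e : (((1 + w.re : ℝ) : ℂ) + w.im * I) = 1 + w := by
      push_cast; rw [add_assoc, re_add_im]
    rw [e]
    simp only [DD]
    rw [show 1 + (1 + w) = 2 + w by ring, add_sub_cancel_left]
    push_cast at heq
    linear_combination heq

theorem exists_Z {G : ℝ → ℝ} {a b : ℝ} (hab : a ≤ b) (hc : ContinuousOn G (Icc a b))
    (ha : G a ≤ 0) (hb : 0 ≤ G b) : ∃ Z ∈ Icc a b, G Z = 0 ∧ ∀ y ∈ Icc a Z, G y ≤ 0 := by
  have hK : IsCompact (Icc a b ∩ G ⁻¹' {0}) :=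
    isCompact_Icc.of_isClosed_subset
      (hc.preimage_isClosed_of_isClosed isClosed_Icc isClosed_singleton) inter_subset_left
  have hne : (Icc a b ∩ G ⁻¹' {0}).Nonempty := by
    obtain ⟨z, hz, hz0⟩ := intermediate_value_Icc hab hc ⟨ha, hb⟩
    exact ⟨z, hz, hz0⟩
  obtain ⟨Z, ⟨hZ, hZ0⟩, hmin⟩ := hK.exists_isLeast hne
  refine ⟨Z, hZ, hZ0, fun y hy => ?_⟩
  by_contra hpos
  push Not at hpos
  obtain ⟨z, hz, hz0⟩ := intermediate_value_Icc hy.1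
    (hc.mono (Icc_subset_Icc_right (hy.2.trans hZ.2))) ⟨ha, hpos.le⟩
  have h1 : Z ≤ z := hmin ⟨⟨hz.1, hz.2.trans (hy.2.trans hZ.2)⟩, hz0⟩
  have h2 : y = Z := le_antisymm hy.2 (h1.trans hz.2)
  rw [h2] at hpos
  exact hpos.ne' hZ0

variable {s : ℕ} {ξ η δ : ℝ}

theorem Data.ok (h : Data s ξ η δ) (y : ℝ) : OK (((1 + ξ : ℝ) : ℂ) + y * I) :=
  OK.of_re (by simp; exact h.ξ_pos)

theorem Data.b_mono (h : Data s ξ η δ) : MonotoneOn (fun y : ℝ => (DD s ((1 + ξ : ℝ) + y * I)).im)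
    (Icc (-(6 / 5 * δ)) (6 / 5 * δ)) :=
  monoOn (fun y _ => dy_im (hasDerivAt_DD s (h.ok y)))
    fun _ hy => (h.D2_pos (sq_le_sq' hy.1 hy.2)).le

theorem Data.η_lt (h : Data s ξ η δ) : η < 6 / 5 * δ := by linarith [h.η_le, h.hδ0]

theorem Data.b_eq (h : Data s ξ η δ) : (DD s ((1 + ξ : ℝ) + η * I)).im = Real.pi := by
  rw [h.hD]; simp

theorem Data.vert_deriv (h : Data s ξ η δ) (y : ℝ) :
    HasDerivAt (fun y : ℝ => (PhiW 3 s 1 ((1 + ξ : ℝ) + y * I)).re + Real.pi * y)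
      (-(DD s ((1 + ξ : ℝ) + y * I)).im + Real.pi * 1) y :=
  (dy_re (hasDerivAt_W s (h.ok y))).add ((hasDerivAt_id y).const_mul _)

theorem Data.vert_mono (h : Data s ξ η δ) :
    MonotoneOn (fun y : ℝ => (PhiW 3 s 1 ((1 + ξ : ℝ) + y * I)).re + Real.pi * y)
      (Icc (-(6 / 5 * δ)) η) := by
  refine monoOn (fun y _ => h.vert_deriv y) fun y hy => ?_
  have h1 := h.η_lt
  have := h.b_mono ⟨hy.1, by linarith [hy.2]⟩ ⟨by linarith [hy.1, hy.2], h1.le⟩ hy.2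
  simp only [h.b_eq] at this
  linarith

theorem Data.vert_anti (h : Data s ξ η δ) :
    AntitoneOn (fun y : ℝ => (PhiW 3 s 1 ((1 + ξ : ℝ) + y * I)).re + Real.pi * y)
      (Icc η (6 / 5 * δ)) := by
  refine antiOn (fun y _ => h.vert_deriv y) fun y hy => ?_
  have h1 := h.η_lt
  have h2 := h.hη
  have := h.b_mono ⟨by linarith, h1.le⟩ ⟨by linarith [hy.1], hy.2⟩ hy.1
  simp only [h.b_eq] at this
  linarith

theorem Data.horiz (h : Data s ξ η δ) {x : ℝ} (hx0 : 0 ≤ x) (hx1 : x ≤ 1 + ξ) :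
    (PhiW 3 s 1 (x + (6 / 5 * δ : ℝ) * I)).re ≤
      (PhiW 3 s 1 ((1 + ξ : ℝ) + (6 / 5 * δ : ℝ) * I)).re := by
  have hδ := h.hδ0
  have hm : MonotoneOn (fun x : ℝ => (PhiW 3 s 1 (x + (6 / 5 * δ : ℝ) * I)).re) (Icc 0 (1 + ξ)) :=
    monoOn (fun x _ => dx_re (hasDerivAt_W s (OK.of_im (by simp; positivity))))
      fun x hx => h.A_nonneg hx.1 hx.2
  exact hm ⟨hx0, hx1⟩ ⟨hx0.trans hx1, le_rfl⟩ hx1

theorem down (hs : (16 : ℝ) ≤ s) {x y H : ℝ} (hx : 1 ≤ x) (hH : 0 < H) (hy : H ≤ y)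
    (hy2 : y ≤ 2 / s) :
    (PhiW 3 s 1 (x + y * I)).re - Real.pi * y ≤ (PhiW 3 s 1 (x + H * I)).re - Real.pi * H := by
  have hm : AntitoneOn (fun u : ℝ => (PhiW 3 s 1 (x + u * I)).re - Real.pi * u) (Icc H y) :=
    antiOn (fun u hu => (dy_re (hasDerivAt_W s (OK.of_im (by
        simp; linarith [hu.1])))).sub ((hasDerivAt_id u).const_mul _))
      fun u hu => by
        have := b_lower hs hx (hH.le.trans hu.1) (hu.2.trans hy2)
        linarith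
  exact hm ⟨le_rfl, hy⟩ ⟨hy, le_rfl⟩ hy

theorem right_upper (s : ℕ) {x y : ℝ} (hx : 1 ≤ x) (hy : 0 < y) :
    (PhiW 3 s 1 (x + y * I)).im ≤
      (PhiW 3 s 1 ((1 : ℝ) + y * I)).im + (s + 3) * Real.pi * (x - 1) := by
  have hm : AntitoneOn (fun u : ℝ => (PhiW 3 s 1 (u + y * I)).im - (s + 3) * Real.pi * u)
      (Icc 1 x) :=
    antiOn (fun u _ => (dx_im (hasDerivAt_W s (OK.of_im (by
        simp; exact hy.ne')))).sub ((hasDerivAt_id u).const_mul _))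
      fun u _ => by
        have := b_upper s (x := u) hy.le
        linarith
  have := hm ⟨le_rfl, hx⟩ ⟨hx, le_rfl⟩ hx
  simp only at this
  linarith

theorem right_lower (hs : (16 : ℝ) ≤ s) {x y : ℝ} (hx : 1 ≤ x) (hy : 0 < y) (hy2 : y ≤ 2 / s) :
    (PhiW 3 s 1 ((1 : ℝ) + y * I)).im ≤ (PhiW 3 s 1 (x + y * I)).im + Real.pi * (x - 1) := by
  have hm : MonotoneOn (fun u : ℝ => (PhiW 3 s 1 (u + y * I)).im + Real.pi * u) (Icc 1 x) :=
    monoOn (fun u _ => (dx_im (hasDerivAt_W s (OK.of_im (by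
        simp; exact hy.ne')))).add ((hasDerivAt_id u).const_mul _))
      fun u hu => by
        have := b_lower hs hu.1 hy.le hy2
        linarith
  have := hm ⟨le_rfl, hx⟩ ⟨hx, le_rfl⟩ hx
  simp only at this
  linarith

theorem two_nonneg (hs : (16 : ℝ) ≤ s) {y : ℝ} (hy : 0 ≤ y) (hy1 : y ≤ 1) :
    0 ≤ (PhiW 3 s 1 ((2 : ℝ) + y * I)).im := by
  have hm : MonotoneOn (fun u : ℝ => (PhiW 3 s 1 ((2 : ℝ) + u * I)).im) (Icc 0 y) :=
    monoOn (fun u _ => dy_im (hasDerivAt_W s (OK.of_re (by simp))))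
      fun u hu => A_two hs (by nlinarith [hu.1, hu.2])
  have := hm ⟨le_rfl, hy⟩ ⟨hy, le_rfl⟩ hy
  simp only [ofReal_zero, zero_mul, add_zero, W_real_im s (x := 2) (by norm_num)] at this
  exact this

end S3

open S3 in
theorem saddle_three (s : ℕ) (hs : 16 ≤ s) :
    ∃ (t : ℂ) (H Z : ℝ), 1 < t.re ∧ t.re < 2 ∧ 0 < t.im ∧ t.im < H ∧ H ≤ Z ∧
      s * log (1 + t) - (3 + s) * log t + 3 * log (t - 1) - Real.pi * I = 0 ∧
      0 < (s / (1 + t) - (3 + s) / t + 3 / (t - 1)).re ∧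
      -Real.pi < (PhiW 3 s 1 t - Real.pi * I * (t - 1)).im ∧
      (PhiW 3 s 1 t - Real.pi * I * (t - 1)).im < 0 ∧
      MonotoneOn (fun y : ℝ => (PhiW 3 s 1 (t.re + y * I)).re + Real.pi * y) (Icc (-H) t.im) ∧
      AntitoneOn (fun y : ℝ => (PhiW 3 s 1 (t.re + y * I)).re + Real.pi * y) (Icc t.im H) ∧
      (∀ x ∈ Icc 1 t.re, (PhiW 3 s 1 (x + H * I)).re ≤ (PhiW 3 s 1 (t.re + H * I)).re) ∧
      (∀ x ∈ Icc 1 t.re, (PhiW 3 s 1 (x - H * I)).re ≤ (PhiW 3 s 1 (t.re + H * I)).re) ∧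
      (∀ x ∈ Icc (0 : ℝ) 1, (PhiT 3 s 1 (x + H * I)).re - 2 * Real.pi * H ≤
        (PhiW 3 s 1 (t.re + H * I)).re + Real.pi * H) ∧
      (∀ y ∈ Icc 0 H, (PhiT 3 s 1 (y * I)).re - 2 * Real.pi * y ≤
        (PhiW 3 s 1 (t.re + H * I)).re + Real.pi * H) ∧
      (∀ x ∈ Icc 1 t.re, ∀ y ∈ Icc H Z, (PhiW 3 s 1 (x + y * I)).re - Real.pi * y ≤
        (PhiW 3 s 1 (t.re + H * I)).re + Real.pi * H) ∧
      ∀ γ : ℝ, 0 < γ → ∃ ε : ℝ, 0 < ε ∧ 1 + ε ≤ t.re ∧ ∀ p : ℝ, p = 1 ∨ p = 3 →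
        (∀ v ∈ Icc (0 : ℝ) 1,
          (PhiW 3 s (-I) (-I * (1 + v * (ε + Z * I)))).re + Real.pi * p * (v * ε) ≤ γ) ∧
        (∀ x ∈ Icc (1 : ℝ) 2, (PhiW 3 s I (x * I)).re - Real.pi * p * (x - 1) ≤ γ) ∧
        (∀ y ∈ Icc 0 Z, (PhiW 3 s I (-y + 2 * I)).re - Real.pi * p ≤ γ) ∧
        (∀ x ∈ Icc (1 + ε) 2, (PhiW 3 s I (-Z + x * I)).re - Real.pi * p * (x - 1) ≤ γ) := by
  have hS : (16 : ℝ) ≤ s := by exact_mod_cast hs
  obtain ⟨ξ, η, δ, h⟩ := exists_data hS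
  have hδ0 := h.hδ0
  have hδ1 := h.δ_le
  have hξ := h.ξ_pos
  have hpi := Real.pi_pos
  have hH0 : 0 < 6 / 5 * δ := by positivity
  have hHY : 6 / 5 * δ ≤ 2 / s := by
    rw [le_div_iff₀ (by linarith)]; nlinarith [h.hsδ]
  have hY1 : (2 : ℝ) / s ≤ 1 := by rw [div_le_one (by linarith)]; linarith
  obtain ⟨Z, hZ, hZ0, hZneg⟩ := exists_Z (G := fun y : ℝ => (PhiW 3 s 1 ((1 : ℝ) + y * I)).im) hHY
    (fun y hy => (dy_im (hasDerivAt_W s (OK.of_im (by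
      simp; linarith [hy.1])))).continuousAt.continuousWithinAt)
    (h.G_nonpos hH0.le le_rfl) (G_nonneg hS)
  have hZpos : 0 < Z := hH0.trans_le hZ.1
  have hGneg : ∀ y : ℝ, 0 ≤ y → y ≤ Z → (PhiW 3 s 1 ((1 : ℝ) + y * I)).im ≤ 0 := by
    intro y hy0 hy1
    rcases le_total y (6 / 5 * δ) with hy | hy
    · exact h.G_nonpos hy0 hy
    · exact hZneg y ⟨hy, hy1⟩
  have hre : (((1 + ξ : ℝ) : ℂ) + η * I).re = 1 + ξ := by simp
  have him : (((1 + ξ : ℝ) : ℂ) + η * I).im = η := by simp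
  have hTW : ∀ x : ℝ, 0 ≤ x → x ≤ 1 + ξ →
      (PhiT 3 s 1 (x + (6 / 5 * δ : ℝ) * I)).re - 2 * Real.pi * (6 / 5 * δ) ≤
        (PhiW 3 s 1 ((1 + ξ : ℝ) + (6 / 5 * δ : ℝ) * I)).re + Real.pi * (6 / 5 * δ) := by
    intro x hx0 hx1
    have e : ((x : ℂ) + (6 / 5 * δ : ℝ) * I).im = 6 / 5 * δ := by simp
    rw [T_eq_W s (by rw [e]; exact hH0), e]
    linarith [h.horiz hx0 hx1]
  refine ⟨(1 + ξ : ℝ) + η * I, 6 / 5 * δ, Z, ?_⟩
  rw [hre, him]
  refine ⟨by linarith, by linarith [h.ξ_le], h.hη, h.η_lt, hZ.1, ?_, ?_, h.im_bounds.1,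
    h.im_bounds.2, h.vert_mono, h.vert_anti, fun x hx => h.horiz (by linarith [hx.1]) hx.2,
    fun x hx => ?_, fun x hx => hTW x hx.1 (by linarith [hx.2]), fun y hy => ?_,
    fun x hx y hy => ?_, fun γ hγ => ?_⟩
  · exact sub_eq_zero.2 h.hD
  · exact h.D2_pos (y := η) (by have := h.η_lt; have := h.hη; gcongr)
  · rw [W_conj_re]; exact h.horiz (by linarith [hx.1]) hx.2
  · refine (left_mono hS hy.1 hy.2).trans ?_
    simpa using hTW 0 le_rfl (by linarith)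
  · have h1 := down hS hx.1 hH0 hy.1 (hy.2.trans hZ.2)
    have h2 := h.horiz (x := x) (by linarith [hx.1]) hx.2
    have h3 : 0 ≤ Real.pi * (6 / 5 * δ) := by positivity
    linarith
  · have hC : 0 < (s + 6) * Real.pi := by positivity
    refine ⟨min ξ (γ / ((s + 6) * Real.pi)), by positivity,
      by linarith [min_le_left ξ (γ / ((s + 6) * Real.pi))], fun p hp => ?_⟩
    set ε := min ξ (γ / ((s + 6) * Real.pi)) with hε
    have hε0 : 0 < ε := by positivity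
    have hεγ : (s + 6) * Real.pi * ε ≤ γ := by
      have := min_le_right ξ (γ / ((s + 6) * Real.pi))
      rwa [← hε, le_div_iff₀ hC, mul_comm] at this
    have hp1 : 1 ≤ p := by rcases hp with rfl | rfl <;> norm_num
    have hp3 : p ≤ 3 := by rcases hp with rfl | rfl <;> norm_num
    refine ⟨fun v hv => ?_, fun x hx => ?_, fun y hy => ?_, fun x hx => ?_⟩
    · have e : (1 + v * (ε + Z * I) : ℂ) = (1 + v * ε : ℝ) + (v * Z : ℝ) * I := by
        push_cast; ring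
      have hvZ : 0 ≤ v * Z := mul_nonneg hv.1 hZpos.le
      rw [e, W_negI s (by simpa using hvZ)]
      rcases hv.1.eq_or_lt with rfl | hv0
      · simp only [zero_mul, add_zero, ofReal_zero, mul_zero]
        rw [W_real_im s le_rfl]; exact hγ.le
      · have hvε : 0 ≤ v * ε := by positivity
        have h1 := right_upper s (x := 1 + v * ε) (y := v * Z) (by linarith) (by positivity)
        have h2 := hGneg (v * Z) hvZ (by nlinarith [hv.2])
        have h3 : Real.pi * p * (v * ε) ≤ Real.pi * 3 * (v * ε) := by gcongr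
        have h4 : (s + 6) * Real.pi * (v * ε) ≤ (s + 6) * Real.pi * ε := by
          gcongr; nlinarith [hv.2]
        nlinarith
    · rw [mul_comm (x : ℂ) I, W_posI s (by simpa using hx.1), W_real_im s hx.1]
      have : 0 ≤ Real.pi * p * (x - 1) := by
        have := hx.1
        apply mul_nonneg (by positivity); linarith
      linarith
    · have e : (-y + 2 * I : ℂ) = I * ((2 : ℝ) + y * I) := by
        push_cast; linear_combination (-y) * I_mul_I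
      rw [e, W_posI s (by simp)]
      have h1 := two_nonneg hS hy.1 (hy.2.trans (hZ.2.trans hY1))
      have : 0 ≤ Real.pi * p := by positivity
      linarith
    · have e : (-Z + x * I : ℂ) = I * (x + Z * I) := by
        linear_combination (-Z) * I_mul_I
      have hx1 : 1 ≤ x := by linarith [hx.1]
      rw [e, W_posI s (by simpa using hx1)]
      have h1 := right_lower hS hx1 hZpos hZ.2
      have h2 : Real.pi * 1 * (x - 1) ≤ Real.pi * p * (x - 1) := by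
        gcongr
      linarith

end Pool.Agent.MP_6026f4_co

end

section

namespace Pool.Agent.MP_6026f4_co

open Complex Set Filter Topology MeasureTheory Asymptotics
open scoped ComplexConjugate

theorem R3.hasDerivAt_PhiW (r s : ℕ) {t : ℂ} (h1 : 1 + t ∈ slitPlane) (h2 : t ∈ slitPlane)
    (h3 : t - 1 ∈ slitPlane) :
    HasDerivAt (PhiW r s 1) (s * log (1 + t) - (r + s) * log t + r * log (t - 1)) t := by
  have a1 := ((hasDerivAt_LL h1).comp t ((hasDerivAt_id t).const_add 1)).const_mul (s : ℂ)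
  have a2 := (hasDerivAt_LL h2).const_mul ((r : ℂ) + s)
  have a3 := ((hasDerivAt_LL h3).comp t ((hasDerivAt_id t).sub_const 1)).const_mul (r : ℂ)
  exact (((a1.const_add ((r - s) * LL 1)).sub a2).add a3).congr_deriv (by ring)

theorem R3.diffOn_QQ (r s : ℕ) (e : ℝ) {n : ℕ} (hn : 0 < n) :
    DifferentiableOn ℂ (QQ r s e n) {k | (n : ℝ) - 1 / 2 < k.re} := fun k hk => by
  have hk' : (n : ℝ) - 1 / 2 < k.re := hk
  have h1 : (1 : ℝ) ≤ n := by exact_mod_cast hn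
  refine (R3.diffAt_QQ (n := fun _ => (n : ℂ)) (k := fun k => k) r s e (differentiableAt_const _)
    differentiableAt_id (NP.of_re (by simpa using hn)) (NP.of_re ?_)
    (NP.of_re ?_)).differentiableWithinAt
  · rw [sub_re, add_re, half_re, natCast_re]; linarith
  · rw [add_re, sub_re, half_re, natCast_re]; linarith

theorem R3.TT_kx_eq (s n : ℕ) {k : ℂ} (hk : k.re = n) :
    TT 3 s n k * kx k = QQ 3 s (-1) n k + (2 * QQ 3 s 1 n k + QQ 3 s 3 n k) := by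
  have h0 := one_add_ex_ne_zero_of_re n hk
  have h1 : exp (2 * Real.pi * I * (k - n)) = ex k := by
    rw [← ex, ex_sub, ex_natCast, inv_one, mul_one]
  have h2 := QQ_mul_exp 3 s (-((3 : ℕ) : ℝ)) n k 1
  have h3 := QQ_mul_exp 3 s (-((3 : ℕ) : ℝ)) n k 2
  have h4 := QQ_mul_exp 3 s (-((3 : ℕ) : ℝ)) n k 3
  rw [h1] at h2 h3 h4
  rw [show -((3 : ℕ) : ℝ) + 2 * ((1 : ℕ) : ℝ) = -1 by norm_num] at h2
  rw [show -((3 : ℕ) : ℝ) + 2 * ((2 : ℕ) : ℝ) = 1 by norm_num] at h3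
  rw [show -((3 : ℕ) : ℝ) + 2 * ((3 : ℕ) : ℝ) = 3 by norm_num] at h4
  rw [TT_eq_QQ 3 s (NP.of_re (by rw [add_re, sub_re, half_re, natCast_re, hk]; norm_num)), h1,
    ← h2, ← h3, ← h4, kx]
  field_simp
  ring

theorem not_sm_three (s : ℕ) (hs : 16 ≤ s) : ¬ IsStieltjesMoment fun n => (apery 3 s n : ℝ) := by
  obtain ⟨t, H, Z, hx1, hx2, hy, hyH, hHZ, heq, hΨ, hI1, hI2, hmono, hanti, hT, hB, hTop, hLeft,
    hZ, hW⟩ := saddle_three s hs
  have hpi := Real.pi_pos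
  have hH : 0 < H := hy.trans hyH
  set Φ : ℂ → ℂ := fun z => PhiW 3 s 1 z - Real.pi * I * (z - 1) with hΦ
  have hΦre : ∀ z, (Φ z).re = (PhiW 3 s 1 z).re + Real.pi * z.im := by
    intro z; simp [hΦ]
  have s1 : 1 + t ∈ slitPlane := slit_of_im (by simpa using hy.ne')
  have s2 : t ∈ slitPlane := slit_of_im hy.ne'
  have s3 : t - 1 ∈ slitPlane := slit_of_im (by simpa using hy.ne')
  obtain ⟨g, hg, hamp⟩ := tendsto_amp_TW 3 s s1 s2 s3
  have hev : ∀ᶠ p : ℕ × ℂ in atTop ×ˢ 𝓝 t, 0 < p.1 ∧ 0 < p.2.im := by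
    filter_upwards [tendsto_fst.eventually (eventually_gt_atTop 0),
      tendsto_snd.eventually (eventually_im_pos hy)] with p h1 h2 using ⟨h1, by linarith⟩
  obtain ⟨c, hc, δ₁, hδ₁, hlap⟩ := laplace_seg (F := fun n => QQ 3 s (-1) n) (Φ := Φ)
    (Φ' := fun z => s * log (1 + z) - (3 + s) * log z + 3 * log (z - 1) - Real.pi * I)
    (t₀ := t) (d := I) (Ψ := s / (1 + t) - (3 + s) / t + 3 / (t - 1))
    (g := ((2 * Real.pi : ℂ)⁻¹) ^ 3 * g) (β := ((3 + s : ℕ) : ℝ) / 2) I_ne_zero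
    (by
      filter_upwards [eventually_im_pos hy] with z hz
      have hz' : z.im ≠ 0 := by linarith
      exact ((R3.hasDerivAt_PhiW 3 s (slit_of_im (by simpa using hz')) (slit_of_im hz')
        (slit_of_im (by simpa using hz'))).sub
        (((hasDerivAt_id z).sub_const 1).const_mul (Real.pi * I))).congr_deriv (by push_cast; ring))
    heq
    (by
      have a1 := (((hasDerivAt_id t).const_add 1).clog s1).const_mul (s : ℂ)
      have a2 := ((hasDerivAt_id t).clog s2).const_mul ((3 : ℂ) + s)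
      have a3 := (((hasDerivAt_id t).sub_const 1).clog s3).const_mul (3 : ℂ)
      exact (((a1.sub a2).add a3).sub_const _).congr_deriv (by simp only [id]; ring))
    (by rw [I_sq, neg_one_mul, neg_re]; linarith)
    (mul_ne_zero (pow_ne_zero _ (inv_ne_zero (by simp))) hg)
    (by
      filter_upwards [hev] with p ⟨h1, h2⟩
      have h3 : ((p.1 : ℂ) * p.2).im ≠ 0 := by
        rw [im_natCast_mul]; positivity
      exact (R3.diffAt_QQ (n := fun _ => (p.1 : ℂ)) (k := fun k => k) 3 s (-1)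
        (differentiableAt_const _) differentiableAt_id (NP.of_re (by simpa using h1))
        (NP.of_im (by simpa using h3)) (NP.of_im (by simpa using h3))).continuousAt)
    (by
      refine (hamp.const_mul (((2 * Real.pi : ℂ)⁻¹) ^ 3)).congr fun p => ?_
      have : exp (Real.pi * I * ((-1 : ℝ) : ℂ) * (p.1 * p.2 - p.1)) * exp (-(p.1 * Φ p.2)) =
          exp (-(p.1 * PhiW 3 s 1 p.2)) := by
        rw [← exp_add]; congr 1; simp only [hΦ]; push_cast; ring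
      rw [QQ, ← this]; ring)
  set δ := min δ₁ (min H (H - t.im)) with hδ
  have hδ0 : 0 < δ := lt_min hδ₁ (lt_min hH (by linarith))
  have hδa : δ ≤ H := (min_le_right _ _).trans (min_le_left _ _)
  have hδb : δ ≤ H - t.im := (min_le_right _ _).trans (min_le_right _ _)
  obtain ⟨hp, hm, hV⟩ := hlap δ hδ0 (min_le_left _ _)
  set h := max (Φ (t + δ * I)).re (Φ (t - δ * I)).re with hh
  have ep : t + δ * I = t.re + ((t.im + δ : ℝ) : ℂ) * I := by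
    apply Complex.ext <;> simp
  have em : t - δ * I = t.re + ((t.im - δ : ℝ) : ℂ) * I := by
    apply Complex.ext <;> simp
  have hle1 : ∀ y ∈ Icc (-H) (t.im - δ), (PhiW 3 s 1 (t.re + y * I)).re + Real.pi * y ≤ h := by
    intro y hy'
    have := hmono ⟨hy'.1, by linarith [hy'.2]⟩ ⟨by linarith, by linarith⟩ hy'.2
    refine le_trans ?_ (le_max_right _ _)
    rw [hΦre, em]
    simpa using this
  have hle2 : ∀ y ∈ Icc (t.im + δ) H, (PhiW 3 s 1 (t.re + y * I)).re + Real.pi * y ≤ h := by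
    intro y hy'
    have := hanti ⟨by linarith, by linarith⟩ ⟨by linarith [hy'.1], hy'.2⟩ hy'.1
    refine le_trans ?_ (le_max_left _ _)
    rw [hΦre, ep]
    simpa using this
  have hgH := hle2 H ⟨by linarith, le_rfl⟩
  have hpH : 0 < Real.pi * H := by positivity
  set Θ := -(Φ t).im with hΘ
  have hΘ0 : 0 < Θ := neg_pos.2 hI2
  have hΘ1 : Θ < Real.pi := neg_lt.1 hI1
  obtain ⟨ε, hε, hε1, hW⟩ := hW (Θ / 2) (by linarith)
  have hξ : 0 < ((ε : ℂ) + Z * I).re := by simpa using hε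
  have hEW : ∀ p : ℝ, p = 1 ∨ p = 3 → GrowP (Θ / 2) (R3.Wg 3 s p (ε + Z * I)) ∧
      GrowM (Θ / 2) (R3.Wg 3 s p (ε + Z * I)) := fun p hp' =>
    ⟨R3.growP_Wg 3 s p hε (by linarith) (by linarith) (hW p hp').2.1 (hW p hp').2.2.1
      (hW p hp').2.2.2, R3.growM_Wg 3 s p hξ (by simpa using (hW p hp').1)⟩
  set W : ℂ → ℂ := fun z => R3.Wg 3 s 3 (ε + Z * I) z + 3 * R3.Wg 3 s 1 (ε + Z * I) z with hWd
  have hWE : Ent W := (R3.ent_Wg 3 s 3 hξ).add ((R3.ent_Wg 3 s 1 hξ).const_mul 3)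
  have hWP : GrowP (Θ / 2) W := EB.add (hEW 3 (Or.inr rfl)).1 (EB.const_mul (hEW 1 (Or.inl rfl)).1 3)
  have hWM : GrowM (Θ / 2) W := EB.add (hEW 3 (Or.inr rfl)).2 (EB.const_mul (hEW 1 (Or.inl rfl)).2 3)
  -- horizontal and vertical pieces
  have hor : ∀ (e x₁ x₂ y : ℝ), (∀ x ∈ uIcc x₁ x₂, 1 ≤ x ∧
      (PhiW 3 s 1 (x + y * I)).re - Real.pi * e * y ≤ h) → EB atTop (fun n : ℕ => (n : ℝ)) h
      fun n : ℕ => seg (QQ 3 s e n) (n * (x₁ + y * I)) (n * (x₂ + y * I)) := by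
    intro e x₁ x₂ y hx
    refine R3.eb_seg_QQ 3 s e fun v hv => ?_
    rw [show x₁ + y * I + v * (x₂ + y * I - (x₁ + y * I)) = ((x₁ + v * (x₂ - x₁) : ℝ) : ℂ) + y * I by
      push_cast; ring]
    simpa using hx _ ((convex_uIcc x₁ x₂).add_smul_sub_mem left_mem_uIcc right_mem_uIcc hv)
  have ver : ∀ (e x y₁ y₂ : ℝ), 1 ≤ x → (∀ y ∈ uIcc y₁ y₂,
      (PhiW 3 s 1 (x + y * I)).re - Real.pi * e * y ≤ h) → EB atTop (fun n : ℕ => (n : ℝ)) h
      fun n : ℕ => seg (QQ 3 s e n) (n * (x + y₁ * I)) (n * (x + y₂ * I)) := by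
    intro e x y₁ y₂ hx hy'
    refine R3.eb_seg_QQ 3 s e fun v hv => ?_
    rw [show x + y₁ * I + v * (x + y₂ * I - (x + y₁ * I)) = x + ((y₁ + v * (y₂ - y₁) : ℝ) : ℂ) * I by
      push_cast; ring]
    refine ⟨by simpa using hx, ?_⟩
    simpa using hy' _ ((convex_uIcc y₁ y₂).add_smul_sub_mem left_mem_uIcc right_mem_uIcc hv)
  have hZ' : ∀ p : ℝ, 1 ≤ p → ∀ x ∈ Icc 1 t.re, ∀ y ∈ Icc H Z,
      (PhiW 3 s 1 (x + y * I)).re - Real.pi * p * y ≤ h := fun p hp' x hx y hy' => by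
    have h1 := hZ x hx y hy'
    have h2 : 0 ≤ Real.pi * (p - 1) * y := mul_nonneg (mul_nonneg hpi.le (by linarith))
      (by linarith [hy'.1])
    linarith
  have A1 : ∀ p : ℝ, 1 ≤ p → _ := fun p hp' => ver p (1 + ε) Z H (by linarith) fun y hy' =>
    hZ' p hp' _ ⟨by linarith, hε1⟩ y (by rwa [uIcc_of_ge hHZ] at hy')
  have A2 : ∀ p : ℝ, 1 ≤ p → _ := fun p hp' => hor p (1 + ε) 1 H fun x hx => by
    rw [uIcc_of_ge (by linarith)] at hx
    exact ⟨hx.1, hZ' p hp' _ ⟨hx.1, by linarith [hx.2]⟩ H ⟨le_rfl, hHZ⟩⟩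
  have B1 := hor (-1) 1 t.re (-H) fun x hx => by
    rw [uIcc_of_le hx1.le] at hx
    have := hB x hx
    rw [ofReal_neg, neg_mul, ← sub_eq_add_neg]
    exact ⟨hx.1, by linarith⟩
  have B2 := ver (-1) t.re (-H) (t.im - δ) hx1.le fun y hy' => by
    rw [uIcc_of_le (by linarith)] at hy'
    linarith [hle1 y hy']
  have B3 := ver (-1) t.re (t.im + δ) H hx1.le fun y hy' => by
    rw [uIcc_of_le (by linarith)] at hy'
    linarith [hle2 y hy']
  have B4 := hor (-1) t.re 1 H fun x hx => by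
    rw [uIcc_of_ge hx1.le] at hx
    exact ⟨hx.1, by linarith [hT x hx]⟩
  have C1 := eb_seg_TTkx 3 s (a := H * I) (b := 1 + H * I) (h := h) hH fun v hv => by
    rw [show H * I + v * (1 + H * I - H * I) = v + H * I by ring]
    refine ⟨by simpa using hv.1, by simpa using hv.2, by simp, ?_⟩
    have := hTop v hv
    simp at *
    linarith
  have C2 := eb_seg_TTkx 3 s (a := 0) (b := H * I) (h := h) hH fun v hv => by
    have hv' : v * H ∈ Icc 0 H := ⟨by nlinarith [hv.1], by nlinarith [hv.2]⟩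
    rw [show 0 + v * (H * I - 0) = ((v * H : ℝ) : ℂ) * I by push_cast; ring]
    refine ⟨by simp, by simp, by simp, ?_⟩
    have := hLeft _ hv'
    rw [show (((v * H : ℝ) : ℂ) * I).im = v * H by simp]
    linarith
  have E := (((((((A1 3 (by norm_num)).add (A2 3 (by norm_num))).add
    (((A1 1 le_rfl).add (A2 1 le_rfl)).const_mul 3)).add (B1.add B2)).add B3).add B4).sub C1).sub C2
  refine not_sm_wrap (A := fun z => SS 3 s 0 z + W z + dual W z)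
    (((ent_SS 3 s 0).add hWE).add hWE.dual) (hp := Θ / 2) (hm := Θ / 2) (by linarith) (by linarith)
    (EB.add (EB.add (EB.mono (growP_SS 3 s) (by linarith)) hWP) hWM.dual)
    (EB.add (EB.add (EB.mono (growM_SS 3 s 0) (by linarith)) hWM) hWP.dual)
    (θ := Θ) (by linarith) (by linarith) (Real.sin_pos_of_pos_of_lt_pi hΘ0 hΘ1).ne'
    (Or.inl (by rw [hΘ]; push_cast; rw [neg_mul, neg_neg])) hc hV (E.add E.conj)
    (max_lt hp hm) (Eventually.of_forall fun ν => ?_)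
  set n : ℕ := ν + 1 with hn
  have hn0 : 0 < n := Nat.succ_pos ν
  have hn1 : (0 : ℝ) < n := by positivity
  have hc : Convex ℝ {k : ℂ | (n : ℝ) - 1 / 2 < k.re} := convex_halfSpace_re_gt _
  have hmem : ∀ x y : ℝ, 1 ≤ x → (n : ℂ) * (x + y * I) ∈ {k : ℂ | (n : ℝ) - 1 / 2 < k.re} := by
    intro x y hx
    rw [mem_ofPred_eq]
    rw [re_natCast_mul]
    simp only [add_re, ofReal_re, mul_re, I_re, mul_zero, ofReal_im, I_im, mul_one, sub_self,
      add_zero]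
    nlinarith
  have hP : ∀ e : ℝ, ∃ P : ℝ → ℝ → ℂ, ∀ x y x' y' : ℝ, 1 ≤ x → 1 ≤ x' →
      seg (QQ 3 s e n) (n * (x + y * I)) (n * (x' + y' * I)) = P x' y' - P x y := fun e => by
    obtain ⟨P, hP⟩ := exists_primitive hc (isOpen_re_gt _) (R3.diffOn_QQ 3 s e hn0)
    exact ⟨fun x y => P (n * (x + y * I)), fun x y x' y' h1 h2 =>
      hP _ (hmem x y h1) _ (hmem x' y' h2)⟩
  choose P hP using hP
  have hC : ∀ e : ℝ, SegC (QQ 3 s e n) (n * ((1 : ℝ) + (0 : ℝ) * I)) (n * ((1 : ℝ) + H * I)) :=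
    fun e => SegC.of_convex hc (R3.diffOn_QQ 3 s e hn0).continuousOn (hmem _ _ le_rfl)
      (hmem _ _ le_rfl)
  have eU : seg (fun k => TT 3 s n k * kx k) n (n + ((n * H : ℝ) : ℂ) * I) =
      P (-1) 1 H - P (-1) 1 0 + (2 * (P 1 1 H - P 1 1 0) + (P 3 1 H - P 3 1 0)) := by
    rw [seg_congr (G := fun k => QQ 3 s (-1) n k + (2 * QQ 3 s 1 n k + QQ 3 s 3 n k))
      fun v _ => R3.TT_kx_eq s n (by simp)]
    have e1 : ∀ F : ℂ → ℂ, seg F n (n + ((n * H : ℝ) : ℂ) * I) =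
        seg F (n * ((1 : ℝ) + (0 : ℝ) * I)) (n * ((1 : ℝ) + H * I)) := fun F => by
      congr 1 <;> push_cast <;> ring
    have h2 : SegC (fun k => 2 * QQ 3 s 1 n k) (n * ((1 : ℝ) + (0 : ℝ) * I))
        (n * ((1 : ℝ) + H * I)) := continuousOn_const.mul (hC 1)
    have h3 : SegC (fun k => 2 * QQ 3 s 1 n k + QQ 3 s 3 n k) (n * ((1 : ℝ) + (0 : ℝ) * I))
        (n * ((1 : ℝ) + H * I)) := ContinuousOn.add (s := Icc (0 : ℝ) 1)
          (continuousOn_const.mul (hC 1)) (hC 3)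
    rw [e1, seg_add (hC _) h3, seg_add h2 (hC 3), seg_const_mul,
      hP _ _ _ _ _ le_rfl le_rfl, hP _ _ _ _ _ le_rfl le_rfl, hP _ _ _ _ _ le_rfl le_rfl]
  have eC : conj (P 1 1 H - P 1 1 0) = P (-1) 1 (-H) - P (-1) 1 0 := by
    rw [← hP _ _ _ _ _ le_rfl le_rfl, ← hP _ _ _ _ _ le_rfl le_rfl, seg_conj]
    congr 1
    · ext z
      rw [← QQ_conj, conj_conj, conj_natCast]
    · simp
    · simp
  have eC' : conj (P (-1) 1 (-H) - P (-1) 1 0) = P 1 1 H - P 1 1 0 := by rw [← eC, conj_conj]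
  have eW : ∀ e : ℝ, R3.Wg 3 s e (ε + Z * I) n = P e (1 + ε) Z - P e 1 0 := fun e => by
    rw [← hP _ _ _ _ _ le_rfl (by linarith), R3.Wg]
    congr 1 <;> push_cast <;> ring
  have e4 : ((n * H : ℝ) : ℂ) * I = n * (H * I) := by push_cast; ring
  have h1ε : 1 ≤ 1 + ε := by linarith
  rw [ofReal_natCast, apery_eq_contour 3 s ν (H := n * H) (by positivity), SS_zero, upper,
    ← hn, eU, e4, ← mul_one_add, ep, em]
  simp only [dual, conj_natCast, hWd, eW, mul_zero, hP _ _ _ _ _ h1ε h1ε, hP _ _ _ _ _ h1ε le_rfl,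
    hP _ _ _ _ _ le_rfl hx1.le, hP _ _ _ _ _ hx1.le hx1.le, hP _ _ _ _ _ hx1.le le_rfl]
  simp only [map_sub, map_add, map_mul, map_ofNat] at eC eC' ⊢
  linear_combination -eC + eC'

end Pool.Agent.MP_6026f4_co

end
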