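import Pool.Agent.Mg.F6026f4p.Gce7451
import Pool.Agent.Mg.F6026f4p.G15cdcf

section

namespace Pool.Agent.MP_6026f4_co

open Complex MeasureTheory Set Filter Topology

theorem ns_integrable_exp_abs {δ : ℝ} (hδ : 0 < δ) :
    Integrable fun T : ℝ => Real.exp (-δ * |T|) := by
  rw [← integrableOn_univ, ← Iic_union_Ioi (a := (0 : ℝ))]
  refine IntegrableOn.union ?_ ?_
  · refine (integrableOn_exp_mul_Iic hδ 0).congr_fun (fun T hT => ?_) measurableSet_Iic
    simp only [abs_of_nonpos (mem_Iic.1 hT)]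
    ring_nf
  · refine (integrableOn_exp_mul_Ioi (a := -δ) (by linarith) 0).congr_fun (fun T hT => ?_)
      measurableSet_Ioi
    simp only [abs_of_pos (mem_Ioi.1 hT)]

/-- The kernel of the Lindelof integral. -/
noncomputable def nsKer (z : ℂ) : ℂ := exp (Real.pi * I * z) / (exp (2 * Real.pi * I * z) - 1)

theorem nsKer_den_half {z : ℂ} {k : ℤ} (h : z.re = k + 1 / 2) :
    exp (2 * Real.pi * I * z) - 1 = -((Real.exp (-(2 * Real.pi * z.im)) + 1 : ℝ) : ℂ) := by
  have hz : z = k + 1 / 2 + z.im * I := by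
    apply Complex.ext <;> simp [h]
  have e : 2 * Real.pi * I * z = k * (2 * Real.pi * I) + Real.pi * I +
      ((-(2 * Real.pi * z.im) : ℝ) : ℂ) := by
    conv_lhs => rw [hz]
    push_cast
    linear_combination (2 * Real.pi * z.im : ℂ) * I_mul_I
  rw [e, exp_add, exp_add, exp_int_mul_two_pi_mul_I, exp_pi_mul_I, ← ofReal_exp]
  push_cast
  ring

theorem nsKer_bound {z : ℂ} (h : (∃ k : ℤ, z.re = k + 1 / 2) ∨ 1 ≤ |z.im|) :
    ‖nsKer z‖ ≤ 2 * Real.exp (-Real.pi * |z.im|) := by
  have hpi := Real.pi_gt_three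
  have hn1 : ‖exp (Real.pi * I * z)‖ = Real.exp (-(Real.pi * z.im)) := by
    rw [norm_exp]; simp
  have hn2 : ‖exp (2 * Real.pi * I * z)‖ = Real.exp (-(2 * Real.pi * z.im)) := by
    rw [norm_exp]; simp
  have hE := Real.exp_pos (-(2 * Real.pi * z.im))
  have hlow : 1 / 2 ≤ ‖exp (2 * Real.pi * I * z) - 1‖ ∧
      Real.exp (-(2 * Real.pi * z.im)) / 2 ≤ ‖exp (2 * Real.pi * I * z) - 1‖ := by
    rcases h with ⟨k, hk⟩ | h
    · rw [nsKer_den_half hk, norm_neg, norm_real, Real.norm_eq_abs, abs_of_pos (by linarith)]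
      constructor <;> linarith
    · have a1 := norm_sub_norm_le (exp (2 * Real.pi * I * z)) 1
      have a2 := norm_sub_norm_le 1 (exp (2 * Real.pi * I * z))
      rw [norm_sub_rev] at a2
      rw [hn2, norm_one] at a1 a2
      rcases le_abs.1 h with h | h
      · have : Real.exp (-(2 * Real.pi * z.im)) ≤ 1 / 2 := by
          rw [Real.exp_neg, inv_le_comm₀ (Real.exp_pos _) (by norm_num)]
          have := Real.add_one_le_exp (2 * Real.pi * z.im)
          nlinarith
        constructor <;> linarith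
      · have : 2 ≤ Real.exp (-(2 * Real.pi * z.im)) := by
          have := Real.add_one_le_exp (-(2 * Real.pi * z.im))
          nlinarith
        constructor <;> linarith
  rw [nsKer, norm_div, hn1, div_le_iff₀ (by linarith [hlow.1])]
  rcases le_total 0 z.im with h0 | h0
  · rw [abs_of_nonneg h0, neg_mul]
    nlinarith [hlow.1, Real.exp_pos (-(Real.pi * z.im))]
  · rw [abs_of_nonpos h0]
    have e : Real.exp (-(Real.pi * z.im)) =
        Real.exp (-Real.pi * -z.im) * Real.exp (-(2 * Real.pi * z.im)) := by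
      rw [← Real.exp_add]; ring_nf
    rw [e]
    nlinarith [hlow.2, Real.exp_pos (-Real.pi * -z.im)]

theorem nsKer_cont (k : ℤ) (a : ℝ) (ha : a = k + 1 / 2) :
    Continuous fun T : ℝ => nsKer (a + T * I) := by
  unfold nsKer
  refine Continuous.div (by fun_prop) (by fun_prop) fun T => ?_
  rw [nsKer_den_half (k := k) (by simp [ha]), neg_ne_zero, ofReal_ne_zero]
  positivity

theorem ns_line_bound {Φ : ℂ → ℂ} {D γ : ℝ} {z : ℂ}
    (h : (∃ k : ℤ, z.re = k + 1 / 2) ∨ 1 ≤ |z.im|) (hb : ‖Φ z‖ ≤ D * Real.exp (γ * |z.im|)) :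
    ‖Φ z * nsKer z‖ ≤ 2 * D * Real.exp (-(Real.pi - γ) * |z.im|) := by
  rw [norm_mul]
  refine (mul_le_mul hb (nsKer_bound h) (norm_nonneg _) ((norm_nonneg _).trans hb)).trans_eq ?_
  rw [show -(Real.pi - γ) * |z.im| = γ * |z.im| + -Real.pi * |z.im| by ring, Real.exp_add]
  ring

theorem ns_line_integrable {Φ : ℂ → ℂ} {D γ : ℝ} (hγ : γ < Real.pi) (k : ℤ) (a : ℝ)
    (ha : a = k + 1 / 2) (hd : ∀ z : ℂ, z.re = a → ContinuousAt Φ z)
    (hb : ∀ z : ℂ, z.re = a → ‖Φ z‖ ≤ D * Real.exp (γ * |z.im|)) :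
    Integrable fun T : ℝ => Φ (a + T * I) * nsKer (a + T * I) := by
  refine ((ns_integrable_exp_abs (sub_pos.2 hγ)).const_mul (2 * D)).mono' ?_
    (Eventually.of_forall fun T => ?_)
  · refine (Continuous.mul ?_ (nsKer_cont k a ha)).aestronglyMeasurable
    exact continuous_iff_continuousAt.2 fun T =>
      ContinuousAt.comp (f := fun T : ℝ => (a : ℂ) + T * I) (hd _ (by simp)) (by fun_prop)
  · simpa using ns_line_bound (z := a + T * I) (Or.inl ⟨k, by simp [ha]⟩) (hb _ (by simp))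

theorem ns_partial_sum {Φ : ℂ → ℂ} {D γ : ℝ} (hγ : γ < Real.pi) (n : ℕ)
    (hd : ∀ z : ℂ, 1 / 2 ≤ z.re → DifferentiableAt ℂ Φ z)
    (hb : ∀ z : ℂ, 1 / 2 ≤ z.re → z.re ≤ n + 1 / 2 → ‖Φ z‖ ≤ D * Real.exp (γ * |z.im|)) :
    ∑ k ∈ Finset.range n, Φ (k + 1) * (-1) ^ (k + 1) =
      I * (∫ T : ℝ, Φ ((n + 1 / 2 : ℝ) + T * I) * nsKer ((n + 1 / 2 : ℝ) + T * I)) -
      I * (∫ T : ℝ, Φ ((1 / 2 : ℝ) + T * I) * nsKer ((1 / 2 : ℝ) + T * I)) := by
  have hn : (0 : ℝ) ≤ n := Nat.cast_nonneg n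
  have hrect : ∀ H : ℝ, 0 < H → rectInt (fun z => Φ z * nsKer z) (1 / 2) (n + 1 / 2) H =
      ∑ k ∈ Finset.range n, Φ (k + 1) * (-1) ^ (k + 1) := by
    intro H hH
    have := plana_rect (fun z => Φ z * exp (Real.pi * I * z)) 1 n H hH fun z h1 _ =>
      (hd z (by push_cast at h1; linarith)).mul (by fun_prop)
    rw [show ((1 : ℤ) : ℝ) - 1 / 2 = 1 / 2 by norm_num,
      show ((1 : ℤ) : ℝ) + n - 1 / 2 = n + 1 / 2 by push_cast; ring] at this
    simp only [nsKer, ← mul_div_assoc]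
    rw [this]
    refine Finset.sum_congr rfl fun k _ => ?_
    rw [show (((1 : ℤ) : ℂ) + k) = k + 1 by push_cast; ring,
      show (Real.pi * I * (k + 1) : ℂ) = ((k + 1 : ℕ) : ℂ) * (Real.pi * I) by push_cast; ring,
      exp_nat_mul, exp_pi_mul_I]
  have hhor : ∀ Y : ℝ → ℝ, (∀ H, |Y H| = |H|) →
      Tendsto (fun H : ℝ => ∫ x : ℝ in (1 / 2)..(n + 1 / 2), Φ (x + Y H * I) * nsKer (x + Y H * I))
        atTop (𝓝 0) := by
    intro Y hY
    have h1 : Tendsto (fun H : ℝ => 2 * D * Real.exp (-(Real.pi - γ) * H) * |(n + 1 / 2 : ℝ) - 1 / 2|)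
        atTop (𝓝 (2 * D * 0 * |(n + 1 / 2 : ℝ) - 1 / 2|)) :=
      ((Real.tendsto_exp_atBot.comp (tendsto_id.const_mul_atTop_of_neg
        (by linarith))).const_mul _).mul_const _
    rw [mul_zero, zero_mul] at h1
    refine squeeze_zero_norm' ?_ h1
    filter_upwards [eventually_ge_atTop (1 : ℝ)] with H hH
    refine intervalIntegral.norm_integral_le_of_norm_le_const fun x hx => ?_
    rw [uIoc_of_le (by linarith)] at hx
    have h2 : |Y H| = H := by rw [hY, abs_of_pos (by linarith)]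
    have := ns_line_bound (z := x + Y H * I) (Or.inr (by simpa [h2] using hH))
      (hb _ (by simpa using hx.1.le) (by simpa using hx.2))
    simpa [h2] using this
  have i1 := ns_line_integrable hγ n (n + 1 / 2) (by simp)
    (fun z hz => (hd z (by linarith)).continuousAt) fun z hz => hb z (by linarith) hz.le
  have i2 := ns_line_integrable hγ 0 (1 / 2) (by simp)
    (fun z hz => (hd z (by linarith)).continuousAt) fun z hz => hb z (by linarith) (by linarith)
  have t := (((hhor (fun H => -H) (by simp)).sub (hhor (fun H => H) (by simp))).add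
    ((intervalIntegral_tendsto_integral i1 tendsto_neg_atTop_atBot tendsto_id).const_mul I)).sub
    ((intervalIntegral_tendsto_integral i2 tendsto_neg_atTop_atBot tendsto_id).const_mul I)
  rw [sub_zero, zero_add] at t
  refine tendsto_nhds_unique (tendsto_const_nhds.congr' ?_) t
  filter_upwards [eventually_gt_atTop (0 : ℝ)] with H hH
  rw [← hrect H hH, rectInt]
  simp [sub_eq_add_neg]

theorem ns_tsum {Φ : ℂ → ℂ} {D a γ : ℝ} (hγ : γ < Real.pi) (ha : 0 < a)
    (hd : ∀ z : ℂ, 1 / 2 ≤ z.re → DifferentiableAt ℂ Φ z)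
    (hb : ∀ z : ℂ, 1 / 2 ≤ z.re → ‖Φ z‖ ≤ D * Real.exp (-a * z.re) * Real.exp (γ * |z.im|))
    (hs : Summable fun k : ℕ => Φ (k + 1) * (-1) ^ (k + 1)) :
    ∑' k : ℕ, Φ (k + 1) * (-1) ^ (k + 1) =
      -(I * ∫ T : ℝ, Φ ((1 / 2 : ℝ) + T * I) * nsKer ((1 / 2 : ℝ) + T * I)) := by
  have hD : 0 ≤ D := by
    have := (norm_nonneg _).trans (hb 1 (by norm_num))
    by_contra hD
    push Not at hD
    have h2 := mul_neg_of_neg_of_pos (mul_neg_of_neg_of_pos hD (Real.exp_pos (-a * (1 : ℂ).re)))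
      (Real.exp_pos (γ * |(1 : ℂ).im|))
    linarith
  refine tendsto_nhds_unique hs.hasSum.tendsto_sum_nat ?_
  have e : ∀ n : ℕ, ∑ k ∈ Finset.range n, Φ (k + 1) * (-1) ^ (k + 1) = _ := fun n =>
    ns_partial_sum (D := D) hγ n hd fun z h1 _ => (hb z h1).trans (by
      gcongr
      exact mul_le_of_le_one_right hD (Real.exp_le_one_iff.2 (by nlinarith)))
  simp only [e]
  rw [← zero_sub]
  refine Tendsto.sub_const ?_ _
  rw [← mul_zero I]
  refine Tendsto.const_mul _ ?_
  have h1 : Tendsto (fun n : ℕ => 2 * (D * Real.exp (-a * (n + 1 / 2))) *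
      ∫ T : ℝ, Real.exp (-(Real.pi - γ) * |T|)) atTop
      (𝓝 (2 * (D * 0) * ∫ T : ℝ, Real.exp (-(Real.pi - γ) * |T|))) :=
    (((Real.tendsto_exp_atBot.comp ((tendsto_atTop_add_const_right _ _
      tendsto_natCast_atTop_atTop).const_mul_atTop_of_neg
        (by linarith))).const_mul _).const_mul _).mul_const _
  rw [mul_zero, mul_zero, zero_mul] at h1
  refine squeeze_zero_norm (fun n => ?_) h1
  rw [← integral_const_mul]
  refine norm_integral_le_of_norm_le ((ns_integrable_exp_abs (sub_pos.2 hγ)).const_mul _)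
    (Eventually.of_forall fun T => ?_)
  have hn : (0 : ℝ) ≤ n := Nat.cast_nonneg n
  have := ns_line_bound (z := (n + 1 / 2 : ℝ) + T * I) (Or.inl ⟨n, by simp⟩)
    (hb _ (by simp))
  simpa using this

end Pool.Agent.MP_6026f4_co

end

section

namespace Pool.Agent.MP_6026f4_co

open Complex MeasureTheory Set Filter Topology

theorem ns_exp_bound {s z : ℂ} {δ : ℝ} (h : |s.im| ≤ δ) :
    ‖exp (-s * z)‖ ≤ Real.exp (-s.re * z.re) * Real.exp (δ * |z.im|) := by
  rw [norm_exp, ← Real.exp_add]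
  refine Real.exp_le_exp.2 ?_
  have h1 : s.im * z.im ≤ δ * |z.im| :=
    (le_abs_self _).trans (by rw [abs_mul]; gcongr)
  simp only [neg_mul, neg_re, mul_re]
  linarith

theorem ns_lindelof {G : ℂ → ℂ} {C τ γ : ℝ} (hγ : γ < Real.pi)
    (hd : ∀ z : ℂ, 1 / 2 ≤ z.re → DifferentiableAt ℂ G z)
    (hb : ∀ z : ℂ, 1 / 2 ≤ z.re → ‖G z‖ ≤ C * Real.exp (τ * z.re) * Real.exp (γ * |z.im|))
    (hs : ∀ ε : ℝ, 0 < ε → Summable fun k : ℕ => ‖G (k + 1)‖ * Real.exp (-ε * (k + 1))) :
    ∃ L : ℂ, Tendsto (fun ε : ℝ => ∑' k : ℕ, G (k + 1) * exp (-ε * (k + 1)) * (-1) ^ (k + 1))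
      (𝓝[>] 0) (𝓝 L) := by
  set δ := (Real.pi - γ) / 2 with hδ
  have hδ0 : 0 < δ := by linarith
  have hγ' : γ + δ < Real.pi := by linarith
  let J : ℂ → ℂ := fun s => -(I * ∫ T : ℝ, G ((1 / 2 : ℝ) + T * I) *
    exp (-s * ((1 / 2 : ℝ) + T * I)) * nsKer ((1 / 2 : ℝ) + T * I))
  let S : ℂ → ℂ := fun s => ∑' k : ℕ, G (k + 1) * exp (-s * (k + 1)) * (-1) ^ (k + 1)
  have hΦ : ∀ s z : ℂ, |s.im| ≤ δ → 1 / 2 ≤ z.re → ‖G z * exp (-s * z)‖ ≤
      C * Real.exp (-(s.re - τ) * z.re) * Real.exp ((γ + δ) * |z.im|) := by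
    intro s z h1 h2
    rw [norm_mul]
    refine (mul_le_mul (hb z h2) (ns_exp_bound h1) (norm_nonneg _)
      ((norm_nonneg _).trans (hb z h2))).trans_eq ?_
    rw [show -(s.re - τ) * z.re = τ * z.re + -s.re * z.re by ring, add_mul, Real.exp_add,
      Real.exp_add]
    ring
  have hC : 0 ≤ C := by
    have := (norm_nonneg _).trans (hb 1 (by norm_num))
    by_contra hD
    push Not at hD
    have h2 := mul_neg_of_neg_of_pos (mul_neg_of_neg_of_pos hD (Real.exp_pos (τ * (1 : ℂ).re)))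
      (Real.exp_pos (γ * |(1 : ℂ).im|))
    linarith
  have hVo : IsOpen {s : ℂ | |s.im| < δ} := isOpen_lt (by fun_prop) continuous_const
  have hJ : DifferentiableOn ℂ J {s : ℂ | |s.im| < δ} := by
    refine (DifferentiableOn.const_mul ?_ I).neg
    refine differentiableOn_param_integral hVo (Eventually.of_forall fun T => by fun_prop)
      (fun s hs => ?_) fun s0 _ => ?_
    · refine (ns_line_integrable (Φ := fun z => G z * exp (-s * z)) hγ' 0 (1 / 2) (by simp)
        (fun z hz => (hd z hz.ge).continuousAt.mul (by fun_prop))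
        (D := C * Real.exp (-(s.re - τ) * (1 / 2))) fun z hz => ?_).aestronglyMeasurable
      simpa [hz] using hΦ s z (le_of_lt hs) hz.ge
    · refine ⟨1, one_pos, fun T => 2 * (C * Real.exp (-(s0.re - 1 - τ) * (1 / 2))) *
        Real.exp (-(Real.pi - (γ + δ)) * |T|),
        (ns_integrable_exp_abs (sub_pos.2 hγ')).const_mul _,
        Eventually.of_forall fun T s h1 h2 => ?_⟩
      have h3 : s0.re - 1 ≤ s.re := by
        have := (abs_re_le_norm (s - s0)).trans (mem_ball_iff_norm.1 h1).le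
        rw [sub_re] at this
        linarith [(abs_le.1 this).1]
      have := ns_line_bound (Φ := fun z => G z * exp (-s * z)) (z := (1 / 2 : ℝ) + T * I)
        (D := C * Real.exp (-(s0.re - 1 - τ) * (1 / 2))) (γ := γ + δ) (Or.inl ⟨0, by simp⟩)
        ((hΦ s _ (le_of_lt h2) (by simp)).trans (by
          simp only [add_re, ofReal_re, mul_re, I_re, mul_zero, ofReal_im, I_im, mul_one, sub_self,
            add_zero]
          gcongr))
      simpa using this
  have hterm : ∀ (s : ℂ) (k : ℕ), ‖G (k + 1) * exp (-s * (k + 1)) * (-1) ^ (k + 1)‖ =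
      ‖G (k + 1)‖ * Real.exp (-s.re * (k + 1)) := by
    intro s k
    rw [norm_mul, norm_mul, norm_pow, norm_neg, norm_one, one_pow, mul_one, norm_exp]
    simp
  have hS : DifferentiableOn ℂ S {s : ℂ | 0 < s.re} := by
    intro s0 hs0
    have h0 : 0 < s0.re := hs0
    have ho : IsOpen {s : ℂ | s0.re / 2 < s.re} := isOpen_lt continuous_const (by fun_prop)
    refine ((differentiableOn_tsum_of_summable_norm (hs (s0.re / 2) (by linarith))
      (fun k => by fun_prop) ho fun k s h => ?_).differentiableAt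
      (ho.mem_nhds (by simp only [mem_setOf_eq]; linarith))).differentiableWithinAt
    rw [hterm]
    have h' : s0.re / 2 < s.re := h
    gcongr
  let U : Set ℂ := {s : ℂ | 0 < s.re} ∩ {s : ℂ | |s.im| < δ}
  have hUo : IsOpen U := (isOpen_lt continuous_const (by fun_prop)).inter hVo
  have hUc : Convex ℝ U := by
    refine (convex_halfSpace_re_gt 0).inter ?_
    have : {s : ℂ | |s.im| < δ} = {s : ℂ | -δ < s.im} ∩ {s : ℂ | s.im < δ} := by
      ext s; simp [abs_lt]
    rw [this]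
    exact (convex_halfSpace_im_gt _).inter (convex_halfSpace_im_lt _)
  have hEq : EqOn S J U := by
    refine ((hS.mono inter_subset_left).analyticOnNhd hUo).eqOn_of_preconnected_of_eventuallyEq
      ((hJ.mono inter_subset_right).analyticOnNhd hUo) hUc.isPreconnected
      (z₀ := ((|τ| + 1 : ℝ) : ℂ)) ⟨by simp; positivity, by simpa using hδ0⟩ ?_
    have ho : IsOpen ({s : ℂ | |τ| < s.re} ∩ {s : ℂ | |s.im| < δ}) :=
      (isOpen_lt continuous_const (by fun_prop)).inter hVo
    filter_upwards [ho.mem_nhds (x := ((|τ| + 1 : ℝ) : ℂ)) ⟨by simp, by simpa using hδ0⟩] with s h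
    have h1 : |τ| < s.re := h.1
    refine ns_tsum (Φ := fun z => G z * exp (-s * z)) hγ' (a := s.re - τ) (D := C)
      (by linarith [le_abs_self τ]) (fun z hz => (hd z hz).mul (by fun_prop))
      (fun z hz => hΦ s z (le_of_lt h.2) hz) ?_
    refine Summable.of_norm ?_
    simp only [hterm]
    exact hs _ (by linarith [abs_nonneg τ])
  refine ⟨J 0, ?_⟩
  have hc : ContinuousAt J 0 := (hJ.differentiableAt (hVo.mem_nhds (by simpa using hδ0))).continuousAt
  have ht : Tendsto (fun ε : ℝ => J ε) (𝓝[>] 0) (𝓝 (J 0)) := by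
    refine (hc.tendsto.comp ?_).mono_left nhdsWithin_le_nhds
    simpa using continuous_ofReal.tendsto 0
  refine ht.congr' ?_
  filter_upwards [self_mem_nhdsWithin] with ε hε
  exact (hEq ⟨by simpa using hε, by simpa using hδ0⟩).symm

end Pool.Agent.MP_6026f4_co

end

section

namespace Pool.Agent.MP_6026f4_co

open Complex MeasureTheory Set Filter Topology Asymptotics

theorem ns_blowup {a : ℕ → ℂ} {w : ℕ → ℝ} {d L : ℂ} (hd : d ≠ 0) (hw : ∀ k, 1 ≤ w k)
    (ha : Tendsto (fun k => a k / w k) atTop (𝓝 d))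
    (hs : ∀ ε : ℝ, 0 < ε → Summable fun k : ℕ => ‖a k‖ * Real.exp (-ε * (k + 1))) :
    ¬ Tendsto (fun ε : ℝ => ∑' k : ℕ, a k * exp (-ε * (k + 1))) (𝓝[>] 0) (𝓝 L) := by
  intro hL
  let b : ℕ → ℝ := fun k => (a k / d).re
  have h1 : Tendsto (fun k => (a k / w k / d).re) atTop (𝓝 1) := by
    have := (continuous_re.tendsto _).comp (ha.div_const d)
    rwa [div_self hd, one_re] at this
  obtain ⟨N, hN⟩ := eventually_atTop.1 (h1.eventually_const_le (show (1 / 2 : ℝ) < 1 by norm_num))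
  have hb : ∀ k, N ≤ k → 1 / 2 ≤ b k := by
    intro k hk
    have h2 := hN k hk
    have h3 : (a k / w k / d).re = b k / w k := by
      rw [div_right_comm, div_ofReal_re]
    rw [h3, le_div_iff₀ (by linarith [hw k])] at h2
    linarith [hw k]
  have hsum : ∀ M : ℕ, N ≤ M → ∑ k ∈ Finset.range M, b k ≤ (L / d).re := by
    intro M hM
    have t1 : Tendsto (fun ε : ℝ => ∑ k ∈ Finset.range M, b k * Real.exp (-ε * (k + 1)))
        (𝓝[>] 0) (𝓝 (∑ k ∈ Finset.range M, b k)) := by
      have : Continuous fun ε : ℝ => ∑ k ∈ Finset.range M, b k * Real.exp (-ε * (k + 1)) := by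
        fun_prop
      simpa using (this.tendsto 0).mono_left nhdsWithin_le_nhds
    refine le_of_tendsto_of_tendsto t1 ((continuous_re.tendsto _).comp (hL.div_const d)) ?_
    filter_upwards [self_mem_nhdsWithin] with ε hε
    have s1 : Summable fun k : ℕ => a k * exp (-ε * (k + 1)) := by
      refine Summable.of_norm ((hs ε hε).congr fun k => ?_)
      rw [norm_mul, norm_exp]; simp
    have s2 := hasSum_re (s1.hasSum.div_const d)
    have e : ∀ k : ℕ, (a k * exp (-ε * (k + 1)) / d).re = b k * Real.exp (-ε * (k + 1)) := by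
      intro k
      rw [mul_div_right_comm, show (-ε * (k + 1) : ℂ) = ((-ε * (k + 1) : ℝ) : ℂ) by push_cast; ring,
        ← ofReal_exp, re_mul_ofReal]
    simp only [e] at s2
    refine sum_le_hasSum _ (fun k hk => ?_) s2
    have := hb k (hM.trans (by simpa using hk))
    positivity
  have hlow : ∀ m : ℕ, ∑ k ∈ Finset.range N, b k + m / 2 ≤ ∑ k ∈ Finset.range (N + m), b k := by
    intro m
    induction m with
    | zero => simp
    | succ m ih =>
      rw [← add_assoc, Finset.sum_range_succ]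
      have := hb (N + m) (by omega)
      push_cast
      linarith
  obtain ⟨m, hm⟩ := exists_nat_gt (2 * ((L / d).re - ∑ k ∈ Finset.range N, b k))
  linarith [hlow m, hsum (N + m) (by omega)]

theorem ns_core {G : ℂ → ℂ} {C τ γ ρ : ℝ} {d : ℂ} (hγ : γ < Real.pi)
    (hd : ∀ z : ℂ, 1 / 2 ≤ z.re → DifferentiableAt ℂ G z)
    (hb : ∀ z : ℂ, 1 / 2 ≤ z.re → ‖G z‖ ≤ C * Real.exp (τ * z.re) * Real.exp (γ * |z.im|))
    (hρ : 0 ≤ ρ) (hd0 : d ≠ 0)
    (ha : Tendsto (fun k : ℕ => G (k + 1) * (-1) ^ (k + 1) / (((k + 1 : ℝ) ^ ρ : ℝ) : ℂ)) atTop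
      (𝓝 d)) : False := by
  have hw : ∀ k : ℕ, 1 ≤ (k + 1 : ℝ) ^ ρ := fun k =>
    Real.one_le_rpow (by linarith [Nat.cast_nonneg (α := ℝ) k]) hρ
  have hs : ∀ ε : ℝ, 0 < ε → Summable fun k : ℕ => ‖G (k + 1)‖ * Real.exp (-ε * (k + 1)) := by
    intro ε hε
    obtain ⟨V, hV⟩ := ha.norm.bddAbove_range
    have s1 := (summable_nat_add_iff 1).2 (Real.summable_pow_mul_exp_neg_nat_mul ⌈ρ⌉₊ hε)
    refine Summable.of_nonneg_of_le (fun k => by positivity) (fun k => ?_) (s1.mul_left V)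
    have h1 : ‖G (k + 1) * (-1) ^ (k + 1) / (((k + 1 : ℝ) ^ ρ : ℝ) : ℂ)‖ ≤ V := hV ⟨k, rfl⟩
    have hV0 : 0 ≤ V := (norm_nonneg _).trans h1
    rw [norm_div, norm_mul, norm_pow, norm_neg, norm_one, one_pow, mul_one, norm_real,
      Real.norm_eq_abs, abs_of_pos (by linarith [hw k]), div_le_iff₀ (by linarith [hw k])] at h1
    have h2 : (k + 1 : ℝ) ^ ρ ≤ (k + 1 : ℝ) ^ ⌈ρ⌉₊ := by
      rw [← Real.rpow_natCast]
      exact Real.rpow_le_rpow_of_exponent_le (by linarith [Nat.cast_nonneg (α := ℝ) k])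
        (Nat.le_ceil ρ)
    push_cast
    rw [← mul_assoc]
    gcongr
    exact h1.trans (by gcongr)
  obtain ⟨L, hL⟩ := ns_lindelof hγ hd hb hs
  refine ns_blowup (L := L) hd0 hw ha (fun ε hε => by simpa using hs ε hε) ?_
  simpa only [mul_right_comm] using hL

theorem ns_line_bdd {u : ℝ → ℂ} {C B γ : ℝ} (hγ : 0 ≤ γ)
    (h1 : ∀ T : ℝ, 0 ≤ T → ‖u T‖ ≤ C * Real.exp (B * (T + 1)))
    (hB : 0 ≤ B) (hC : 0 ≤ C) (hp : u =O[atTop] fun T : ℝ => Real.exp (γ * T)) :
    ∃ D : ℝ, ∀ T : ℝ, 0 ≤ T → ‖u T‖ ≤ D * Real.exp (γ * T) := by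
  obtain ⟨D, hD0, hD⟩ := hp.exists_pos
  obtain ⟨T0, hT0⟩ := eventually_atTop.1 hD.bound
  refine ⟨D + C * Real.exp (B * (T0 + 1)), fun T hT => ?_⟩
  have h2 : 1 ≤ Real.exp (γ * T) := Real.one_le_exp (by positivity)
  rcases le_total T0 T with h | h
  · have := hT0 T h
    rw [Real.norm_eq_abs, abs_of_pos (Real.exp_pos _)] at this
    refine this.trans ?_
    gcongr
    exact le_add_of_nonneg_right (by positivity)
  · refine (h1 T hT).trans (le_trans ?_ (le_mul_of_one_le_right (by positivity) h2))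
    refine le_trans ?_ (le_add_of_nonneg_left hD0.le)
    gcongr

theorem ns_growth {A : ℂ → ℂ} {B C γp γm : ℝ} (hA : DifferentiableOn ℂ A {z | 1 / 4 < z.re})
    (hB : ∀ z : ℂ, 1 / 2 ≤ z.re → ‖A z‖ ≤ C * Real.exp (B * ‖z‖)) (hB0 : 0 ≤ B) (hC : 0 ≤ C)
    (hp : (fun T : ℝ => A (1 / 2 + T * I)) =O[atTop] fun T : ℝ => Real.exp (γp * T))
    (hm : (fun T : ℝ => A (1 / 2 - T * I)) =O[atTop] fun T : ℝ => Real.exp (γm * T))
    (hγp : 0 ≤ γp) (hγm : 0 ≤ γm) :
    ∃ D : ℝ, 0 ≤ D ∧ ∀ z : ℂ, 1 / 2 ≤ z.re →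
      ‖A z‖ ≤ D * Real.exp (B * z.re) * Real.exp (max (γp * z.im) (-(γm * z.im))) := by
  have hB1 : ∀ w : ℂ, 0 ≤ w.re → ‖A (1 / 2 + w)‖ ≤ C * Real.exp (B * (‖w‖ + 1)) := by
    intro w hw
    refine (hB _ (by simpa using hw)).trans ?_
    gcongr
    refine (norm_add_le _ _).trans ?_
    norm_num
    linarith
  obtain ⟨D1, hD1⟩ := ns_line_bdd hγp (fun T hT => by
    simpa [abs_of_nonneg hT] using hB1 (T * I) (by simp)) hB0 hC hp
  obtain ⟨D2, hD2⟩ := ns_line_bdd hγm (fun T hT => by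
    simpa [abs_of_nonneg hT, sub_eq_add_neg] using hB1 (-(T * I)) (by simp)) hB0 hC hm
  let F : ℝ → ℂ → ℂ := fun g w => A (1 / 2 + w) * exp ((-B + g * I) * w)
  have hF : ∀ (g : ℝ) (w : ℂ), ‖F g w‖ = ‖A (1 / 2 + w)‖ * Real.exp (-B * w.re - g * w.im) := by
    intro g w
    simp only [F]
    rw [norm_mul, norm_exp]
    simp
  have hFd : ∀ (g : ℝ) (s : Set ℝ), DiffContOnCl ℂ (F g) (Ioi 0 ×ℂ s) := by
    intro g s
    refine DifferentiableOn.diffContOnCl fun w hw => ?_
    rw [closure_reProdIm, closure_Ioi] at hw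
    have h1 : 0 ≤ w.re := hw.1
    have ho : IsOpen {z : ℂ | 1 / 4 < z.re} := isOpen_lt continuous_const (by fun_prop)
    refine DifferentiableAt.differentiableWithinAt (DifferentiableAt.mul ?_ (by fun_prop))
    exact DifferentiableAt.comp (g := A) w (hA.differentiableAt (ho.mem_nhds (by
      simp only [mem_setOf_eq, add_re]; norm_num; linarith))) (by fun_prop)
  have hFO : ∀ (g : ℝ) (s : Set ℝ), ∃ c < (2 : ℝ), ∃ B' : ℝ,
      F g =O[Bornology.cobounded ℂ ⊓ 𝓟 (Ioi 0 ×ℂ s)] fun z => Real.exp (B' * ‖z‖ ^ c) := by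
    intro g s
    refine ⟨1, by norm_num, B + |g|, IsBigO.of_bound (C * Real.exp B) ?_⟩
    refine eventually_inf_principal.2 (Eventually.of_forall fun w hw => ?_)
    have h1 : 0 < w.re := hw.1
    rw [hF, Real.norm_eq_abs, abs_of_pos (Real.exp_pos _), Real.rpow_one]
    refine (mul_le_mul_of_nonneg_right (hB1 w h1.le) (Real.exp_pos _).le).trans ?_
    rw [mul_assoc, mul_assoc, ← Real.exp_add, ← Real.exp_add]
    refine mul_le_mul_of_nonneg_left (Real.exp_le_exp.2 ?_) hC
    have h2 : -(g * w.im) ≤ |g| * ‖w‖ :=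
      (neg_le_abs _).trans (by rw [abs_mul]; gcongr; exact abs_im_le_norm w)
    nlinarith [mul_nonneg hB0 h1.le]
  set D := max (max D1 D2) (C * Real.exp B) with hD
  have hre : ∀ (g : ℝ) (x : ℝ), 0 ≤ x → ‖F g x‖ ≤ D := by
    intro g x hx
    rw [hF]
    refine (mul_le_mul_of_nonneg_right (hB1 x (by simpa using hx)) (Real.exp_pos _).le).trans
      (le_trans (le_of_eq ?_) (le_max_right _ _))
    rw [mul_assoc, ← Real.exp_add]
    simp [abs_of_nonneg hx, mul_add]
  have hD0 : 0 ≤ D := le_trans (by positivity) (le_max_right _ _)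
  have fin : ∀ (g : ℝ) (z : ℂ), 1 / 2 ≤ z.re → ‖F g (z - 1 / 2)‖ ≤ D →
      g * z.im ≤ max (γp * z.im) (-(γm * z.im)) →
      ‖A z‖ ≤ D * Real.exp (B * z.re) * Real.exp (max (γp * z.im) (-(γm * z.im))) := by
    intro g z hz h1 h2
    rw [hF, add_sub_cancel, ← le_div_iff₀ (Real.exp_pos _), div_eq_mul_inv, ← Real.exp_neg] at h1
    refine h1.trans ?_
    rw [mul_assoc, ← Real.exp_add]
    gcongr
    norm_num
    linarith
  refine ⟨D, hD0, fun z hz => ?_⟩
  rcases le_total 0 z.im with h | h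
  · refine fin γp z hz ?_ (le_max_left _ _)
    refine PhragmenLindelof.quadrant_I (hFd _ _) (hFO _ _) (hre _) (fun T hT => ?_)
      (by norm_num; linarith) (by simpa using h)
    rw [hF]
    refine (mul_le_mul_of_nonneg_right (hD1 T hT) (Real.exp_pos _).le).trans
      (le_trans (le_of_eq ?_) ((le_max_left D1 D2).trans (le_max_left _ _)))
    rw [mul_assoc, ← Real.exp_add]
    simp
  · refine fin (-γm) z hz ?_ (by rw [neg_mul]; exact le_max_right _ _)
    refine PhragmenLindelof.quadrant_IV (hFd _ _) (hFO _ _) (hre _) (fun T hT => ?_)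
      (by norm_num; linarith) (by simpa using h)
    rw [hF]
    have := hD2 (-T) (by linarith)
    rw [show (1 / 2 - ((-T : ℝ) : ℂ) * I) = 1 / 2 + T * I by push_cast; ring] at this
    refine (mul_le_mul_of_nonneg_right this (Real.exp_pos _).le).trans
      (le_trans (le_of_eq ?_) ((le_max_right D1 D2).trans (le_max_left _ _)))
    rw [mul_assoc, ← Real.exp_add]
    simp

end Pool.Agent.MP_6026f4_co

end

section

namespace Pool.Agent.MP_6026f4_co

open MeasureTheory Polynomial Set Filter Topology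

/-- The auxiliary sequence `1, 5, 89, 2045, ...`. -/
noncomputable def bseq : ℕ → ℝ
  | 0 => 1
  | 1 => 5
  | n + 2 => ((68 * (n + 1) ^ 2 + 34 * (n + 1) + 5) * bseq (n + 1) -
      (n + 1) * (2 * n + 1) * bseq n) / ((n + 2) * (2 * n + 3))

theorem bseq_rec (n : ℕ) : ((n : ℝ) + 2) * (2 * n + 3) * bseq (n + 2) =
    (68 * (n + 1) ^ 2 + 34 * (n + 1) + 5) * bseq (n + 1) - (n + 1) * (2 * n + 1) * bseq n := by
  rw [bseq]
  field_simp

/-- The second order operator attached to the recurrence of `bseq`. -/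
noncomputable def opB : ℝ[X] →ₗ[ℝ] ℝ[X] :=
  (LinearMap.mulLeft ℝ (2 * X * (X ^ 2 - 34 * X + 1))).comp (derivative.comp derivative) +
    (LinearMap.mulLeft ℝ (5 * X ^ 2 - 102 * X + 1)).comp derivative +
    LinearMap.mulLeft ℝ (X - 5)

theorem opB_eval (f : ℝ[X]) (t : ℝ) :
    (opB f).eval t = 2 * t * (t ^ 2 - 34 * t + 1) * f.derivative.derivative.eval t +
      (5 * t ^ 2 - 102 * t + 1) * f.derivative.eval t + (t - 5) * f.eval t := by
  simp [opB]
  ring

theorem opB_not_pos (f : ℝ[X]) : ¬ ∀ t ∈ Icc (0 : ℝ) 34, 0 < (opB f).eval t := by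
  intro hf
  have hs : Real.sqrt 2 ^ 2 = 2 := Real.sq_sqrt (by norm_num)
  have hs0 : 0 < Real.sqrt 2 := Real.sqrt_pos.2 (by norm_num)
  have hs1 : Real.sqrt 2 < 1415 / 1000 := by nlinarith
  have hs2 : 1414 / 1000 < Real.sqrt 2 := by nlinarith
  set a : ℝ := 17 - 12 * Real.sqrt 2 with ha
  set b : ℝ := 17 + 12 * Real.sqrt 2 with hb
  have ha1 : 2 / 100 < a := by linarith
  have ha2 : a < 4 / 100 := by linarith
  have hb1 : 33 < b := by linarith
  have hb2 : b < 34 := by linarith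
  have hD : ∀ t : ℝ, t ^ 2 - 34 * t + 1 = (a - t) * (b - t) := by
    intro t
    rw [ha, hb]
    linear_combination 144 * hs
  have hneg : f.eval a < 0 := by
    obtain ⟨z, hz, hmin⟩ := (isCompact_Icc (a := (0 : ℝ)) (b := a)).exists_isMinOn
      ⟨0, le_rfl, by linarith⟩ (f := fun t => -f.eval t) (Continuous.continuousOn (by fun_prop))
    have h1 := min_principle (u := fun t => -f.eval t) (u1 := fun t => -f.derivative.eval t)
      (u2 := fun t => -f.derivative.derivative.eval t) (l := 0) (r := a) (z := z)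
      (A := -(2 * z * (z ^ 2 - 34 * z + 1))) (B := -(5 * z ^ 2 - 102 * z + 1))
      (by linarith) hz (fun t _ => (f.hasDerivAt t).fun_neg) (f.derivative.hasDerivAt z).fun_neg
      (fun t ht => hmin ht)
      (by
        rw [hD]
        have := mul_nonneg hz.1 (mul_nonneg (sub_nonneg.2 hz.2) (by linarith [hz.2] : 0 ≤ b - z))
        linarith)
      (by rintro rfl; simp)
      (by
        rintro rfl
        rw [hD]
        refine ⟨by simp, by nlinarith⟩)
    have h2 := hf z ⟨hz.1, by linarith [hz.2]⟩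
    rw [opB_eval] at h2
    have h3 : 0 < (z - 5) * f.eval z := by linarith
    have h4 : f.eval z < 0 := by
      by_contra h
      have := mul_nonneg (by linarith [hz.2] : 0 ≤ 5 - z) (not_lt.1 h)
      linarith
    have h5 : -f.eval z ≤ -f.eval a := hmin ⟨by linarith, le_rfl⟩
    linarith
  let h : ℝ → ℝ := fun t => t ^ (-1 / 4 : ℝ)
  have hpos : ∀ t, 0 < t → 0 < h t := fun t ht => Real.rpow_pos_of_pos ht _
  have hd1 : ∀ t, 0 < t → HasDerivAt h (-(h t / (4 * t))) t := by
    intro t ht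
    have := Real.hasDerivAt_rpow_const (x := t) (p := (-1 / 4 : ℝ)) (Or.inl ht.ne')
    convert this using 1
    rw [Real.rpow_sub_one ht.ne']
    simp only [h]
    field_simp
  have hd2 : ∀ t, 0 < t → HasDerivAt (fun t => -(h t / (4 * t))) (5 * h t / (16 * t ^ 2)) t := by
    intro t ht
    have := ((hd1 t ht).fun_div ((hasDerivAt_id' t).const_mul 4) (by positivity)).fun_neg
    refine this.congr_deriv ?_
    field_simp
    ring
  have hcont : ContinuousOn (fun t => f.eval t / h t) (Icc a b) := by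
    refine ContinuousOn.div (Continuous.continuousOn (by fun_prop)) (fun t ht => ?_)
      (fun t ht => (hpos t (by linarith [ht.1])).ne')
    exact (hd1 t (by linarith [ht.1])).continuousAt.continuousWithinAt
  obtain ⟨z, hz, hmin⟩ := (isCompact_Icc (a := a) (b := b)).exists_isMinOn
    ⟨a, le_rfl, by linarith⟩ hcont
  have hz0 : 0 < z := by linarith [hz.1]
  set m := f.eval z / h z with hm
  have hmz : f.eval z = m * h z := by rw [hm, div_mul_cancel₀ _ (hpos z hz0).ne']
  have hge : ∀ t ∈ Icc a b, m * h t ≤ f.eval t := by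
    intro t ht
    have : m ≤ f.eval t / h t := hmin ht
    rwa [le_div_iff₀ (hpos t (by linarith [ht.1]))] at this
  have h1 := min_principle (u := fun t => f.eval t - m * h t)
    (u1 := fun t => f.derivative.eval t - m * -(h t / (4 * t)))
    (u2 := fun t => f.derivative.derivative.eval t - m * (5 * h t / (16 * t ^ 2)))
    (l := a) (r := b) (z := z)
    (A := 2 * z * (z ^ 2 - 34 * z + 1)) (B := 5 * z ^ 2 - 102 * z + 1)
    (by linarith) hz
    (fun t ht => (f.hasDerivAt t).fun_sub ((hd1 t (by linarith [ht.1])).const_mul m))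
    ((f.derivative.hasDerivAt z).fun_sub ((hd2 z hz0).const_mul m))
    (fun t ht => by linarith [hge t ht])
    (by
      rw [hD]
      have := mul_nonneg hz0.le (mul_nonneg (sub_nonneg.2 hz.1) (sub_nonneg.2 hz.2))
      linarith)
    (by
      rintro rfl
      rw [hD]
      refine ⟨by simp, by nlinarith⟩)
    (by
      rintro rfl
      rw [hD]
      refine ⟨by simp, by nlinarith⟩)
  have h2 := hf z ⟨hz0.le, by linarith [hz.2]⟩
  rw [opB_eval, hmz] at h2
  have h3 : 2 * z * (z ^ 2 - 34 * z + 1) * (5 * h z / (16 * z ^ 2)) +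
      (5 * z ^ 2 - 102 * z + 1) * -(h z / (4 * z)) + (z - 5) * h z =
      3 / 8 * h z * (z - 1) ^ 2 / z := by
    field_simp
    ring
  have h4 : 0 < m * (3 / 8 * h z * (z - 1) ^ 2 / z) := by
    rw [← h3]
    linarith
  have h5 : 0 ≤ 3 / 8 * h z * (z - 1) ^ 2 / z := by
    have := hpos z hz0
    positivity
  have h6 : 0 < m := by
    by_contra hm'
    have := mul_nonneg (neg_nonneg.2 (not_lt.1 hm')) h5
    linarith
  have h7 := hge a ⟨le_rfl, by linarith⟩
  have h8 := mul_pos h6 (hpos a (by linarith))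
  linarith

theorem sm_bseq : IsStieltjesMoment bseq := by
  refine isStieltjesMoment_of_operator _ 34 opB (fun n => (n + 1) * (2 * n + 1))
    (fun n => 68 * n ^ 2 + 34 * n + 5) (fun n => n * (2 * n - 1)) (fun n => by positivity)
    (by simp [bseq]) (fun n => ?_) (fun n => ?_) opB_not_pos
  · refine Polynomial.funext fun t => ?_
    rw [opB_eval]
    rcases n with _ | _ | n
    · simp
    · simp
      ring
    · simp
      ring
  · rcases n with _ | m
    · simp [bseq]
    · have := bseq_rec m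
      simp only [Nat.add_sub_cancel]
      push_cast
      linarith

end Pool.Agent.MP_6026f4_co

end

section

namespace Pool.Agent.MP_6026f4_co

open MeasureTheory Set Filter Topology

theorem apery_rec (m : ℕ) :
    ((m : ℝ) + 2) ^ 3 * apery 2 2 (m + 1 + 1) -
      (34 * (m + 1) ^ 3 + 51 * (m + 1) ^ 2 + 27 * (m + 1) + 5) * apery 2 2 (m + 1) +
      (m + 1) ^ 3 * apery 2 2 m = 0 := by
  rw [apery_eq_sum 2 2 (m + 1 + 1) (m + 3) two_ne_zero (by omega),
    apery_eq_sum 2 2 (m + 1) (m + 3) two_ne_zero (by omega),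
    apery_eq_sum 2 2 m (m + 3) two_ne_zero (by omega), Finset.mul_sum, Finset.mul_sum,
    Finset.mul_sum, ← Finset.sum_sub_distrib, ← Finset.sum_add_distrib, Finset.sum_range_succ']
  set G : ℕ → ℝ := fun k =>
    4 * (2 * m + 3) * (k * (2 * k + 1) - (2 * m + 3) ^ 2) *
      ((m + 1).choose k : ℝ) ^ 2 * ((m + 1 + k).choose k : ℝ) ^ 2 with hG
  rw [Finset.sum_congr rfl (g := fun j => G (j + 1) - G j), Finset.sum_range_sub]
  · simp only [hG]
    rw [Nat.choose_eq_zero_of_lt (by omega : m + 1 < m + 2)]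
    simp
    ring
  · intro j _
    obtain ⟨e1, e2, e3, e4, e5, e6⟩ := six_binomials m j
    simp only [hG]
    rw [e1, e2, e3, e4, e5, e6]
    push_cast
    field_simp
    ring

/-- The central binomial coefficients divided by powers of four. -/
noncomputable def cseq : ℕ → ℝ
  | 0 => 1
  | n + 1 => cseq n * (2 * n + 1) / (2 * n + 2)

section Series

open PowerSeries

/-- The Euler operator on power series. -/
noncomputable def th (f : ℝ⟦X⟧) : ℝ⟦X⟧ := X * PowerSeries.derivative ℝ f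

theorem coeff_th (f : ℝ⟦X⟧) (n : ℕ) : coeff n (th f) = n * coeff n f := by
  unfold th
  rcases n with _ | n
  · simp
  · rw [coeff_succ_X_mul, coeff_derivative]
    push_cast
    ring

theorem th_add (f g : ℝ⟦X⟧) : th (f + g) = th f + th g := by
  unfold th
  rw [map_add, mul_add]

theorem th_mul (f g : ℝ⟦X⟧) : th (f * g) = f * th g + g * th f := by
  unfold th
  rw [Derivation.leibniz]
  simp only [smul_eq_mul]
  ring

theorem th_X : th X = X := by
  unfold th
  simp

theorem th_C (c : ℝ) : th (C c) = 0 := by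
  unfold th
  simp

theorem th_zero : th 0 = 0 := by
  unfold th
  simp

/-- The square root of the generating function of the Apery numbers. -/
noncomputable def sqY : ℝ⟦X⟧ := PowerSeries.mk fun n => bseq n * cseq n

theorem sqY_ode : th (th sqY) + X * (C (-34) * th (th sqY) + C (-17) * th sqY + C (-5 / 2) * sqY) +
    X * (X * (th (th sqY) + th sqY + C (1 / 4) * sqY)) = 0 := by
  ext n
  rcases n with _ | _ | n
  · simp only [map_add, coeff_zero_X_mul, coeff_th, map_zero]
    simp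
  · simp only [map_add, coeff_succ_X_mul, coeff_zero_X_mul, coeff_C_mul, coeff_th, sqY, coeff_mk,
      map_zero]
    simp [bseq, cseq]
    norm_num
  · simp only [map_add, coeff_succ_X_mul, coeff_C_mul, coeff_th, sqY, coeff_mk, map_zero]
    have h := bseq_rec n
    have h' : bseq (n + 1 + 1) = ((68 * (n + 1) ^ 2 + 34 * (n + 1) + 5) * bseq (n + 1) -
      (n + 1) * (2 * n + 1) * bseq n) / ((n + 2) * (2 * n + 3)) := by rw [bseq]
    rw [h']
    simp only [cseq]
    push_cast
    field_simp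
    ring

theorem sqF_ode (F : ℝ⟦X⟧) (hF : F = sqY * sqY) :
    th (th (th F)) +
      X * (C (-34) * th (th (th F)) + C (-51) * th (th F) + C (-27) * th F + C (-5) * F) +
      X * (X * (th (th (th F)) + C 3 * th (th F) + C 3 * th F + F)) = 0 := by
  have h1 := sqY_ode
  have h2 := congrArg th h1
  simp only [th_add, th_mul, th_X, th_C, th_zero] at h2
  have c1 : (C (-34 : ℝ) : ℝ⟦X⟧) = -34 := by rw [map_neg]; rfl
  have c2 : (C (-17 : ℝ) : ℝ⟦X⟧) = -17 := by rw [map_neg]; rfl
  have c3 : (C (-51 : ℝ) : ℝ⟦X⟧) = -51 := by rw [map_neg]; rfl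
  have c4 : (C (-27 : ℝ) : ℝ⟦X⟧) = -27 := by rw [map_neg]; rfl
  have c5 : (C (-5 : ℝ) : ℝ⟦X⟧) = -5 := by rw [map_neg]; rfl
  have c6 : (C (3 : ℝ) : ℝ⟦X⟧) = 3 := rfl
  have c7 : (C (-5 / 2 : ℝ) : ℝ⟦X⟧) = -10 * C (1 / 4 : ℝ) := by
    have : (-10 : ℝ⟦X⟧) = C (-10 : ℝ) := by rw [map_neg]; rfl
    rw [this, ← map_mul]
    norm_num
  have c8 : (4 : ℝ⟦X⟧) * C (1 / 4 : ℝ) = 1 := by
    have : (4 : ℝ⟦X⟧) = C (4 : ℝ) := rfl
    rw [this, ← map_mul]
    norm_num
  rw [c1, c2, c7] at h1 h2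
  rw [c1, c3, c4, c5, c6, hF]
  simp only [th_add, th_mul]
  set q : ℝ⟦X⟧ := C (1 / 4 : ℝ)
  set Y := sqY
  set Y1 := th Y
  set Y2 := th Y1
  set Y3 := th Y2
  linear_combination 6 * Y1 * h1 + 2 * Y * h2 -
    (2 * Y * Y1 * (X ^ 2 - 10 * X) + Y * Y * (X ^ 2 - 5 * X)) * c8

theorem apery_eq_sq (n : ℕ) : (apery 2 2 n : ℝ) = coeff n (sqY * sqY) := by
  have h := sqF_ode _ rfl
  have h0 : (apery 2 2 0 : ℝ) = coeff 0 (sqY * sqY) := by
    simp [apery, sqY, coeff_mul, bseq, cseq]
  have h1 : (apery 2 2 1 : ℝ) = coeff 1 (sqY * sqY) := by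
    rw [coeff_mul, Finset.Nat.antidiagonal_succ]
    simp [apery, sqY, bseq, cseq, Finset.sum_range_succ]
    norm_num
  set F := sqY * sqY
  induction n using Nat.twoStepInduction with
  | zero => exact h0
  | one => exact h1
  | more n ih0 ih1 =>
    have h2 := congrArg (coeff (n + 1 + 1)) h
    simp only [map_add, coeff_succ_X_mul, coeff_C_mul, coeff_th, map_zero] at h2
    have h3 := apery_rec n
    rw [ih0, ih1] at h3
    push_cast at h2
    have h4 : ((n : ℝ) + 2) ^ 3 * (apery 2 2 (n + 1 + 1) : ℝ) =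
        ((n : ℝ) + 2) ^ 3 * coeff (n + 1 + 1) F := by linear_combination h3 - h2
    exact mul_left_cancel₀ (by positivity) h4

end Series

/-- Mixed trigonometric moments. -/
noncomputable def trigI (k l : ℕ) : ℝ :=
  ∫ u in (0 : ℝ)..1, (Real.cos (Real.pi * u) ^ 2) ^ k * (Real.sin (Real.pi * u) ^ 2) ^ l

theorem trigI_add (k l : ℕ) : trigI k l = trigI (k + 1) l + trigI k (l + 1) := by
  unfold trigI
  rw [← intervalIntegral.integral_add (Continuous.intervalIntegrable (by fun_prop) _ _)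
    (Continuous.intervalIntegrable (by fun_prop) _ _)]
  refine intervalIntegral.integral_congr fun u _ => ?_
  have := Real.cos_sq_add_sin_sq (Real.pi * u)
  linear_combination
    (-(Real.cos (Real.pi * u) ^ 2) ^ k * (Real.sin (Real.pi * u) ^ 2) ^ l) * this

theorem trigI_parts (k l : ℕ) :
    (2 * k + 1) * trigI k (l + 1) = (2 * l + 1) * trigI (k + 1) l := by
  have hd : ∀ u : ℝ, HasDerivAt
      (fun u : ℝ => Real.cos (Real.pi * u) ^ (2 * k + 1) * Real.sin (Real.pi * u) ^ (2 * l + 1))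
      (Real.pi * ((2 * l + 1) *
          ((Real.cos (Real.pi * u) ^ 2) ^ (k + 1) * (Real.sin (Real.pi * u) ^ 2) ^ l) -
        (2 * k + 1) *
          ((Real.cos (Real.pi * u) ^ 2) ^ k * (Real.sin (Real.pi * u) ^ 2) ^ (l + 1)))) u := by
    intro u
    have h0 : HasDerivAt (fun u : ℝ => Real.pi * u) Real.pi u := by
      simpa using (hasDerivAt_id' u).const_mul Real.pi
    refine ((h0.cos.fun_pow (2 * k + 1)).fun_mul (h0.sin.fun_pow (2 * l + 1))).congr_deriv ?_
    simp only [Nat.add_sub_cancel]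
    push_cast
    ring
  have h := intervalIntegral.integral_eq_sub_of_hasDerivAt (a := 0) (b := 1) (fun u _ => hd u)
    (Continuous.intervalIntegrable (by fun_prop) _ _)
  rw [intervalIntegral.integral_const_mul, intervalIntegral.integral_sub
    (Continuous.intervalIntegrable (by fun_prop) _ _)
    (Continuous.intervalIntegrable (by fun_prop) _ _), intervalIntegral.integral_const_mul,
    intervalIntegral.integral_const_mul] at h
  simp only [mul_one, mul_zero, Real.sin_pi, Real.sin_zero, ne_eq, Nat.add_eq_zero_iff,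
    one_ne_zero, and_false, not_false_eq_true, zero_pow, sub_self, mul_eq_zero,
    Real.pi_ne_zero, false_or] at h
  unfold trigI
  linarith

theorem trigI_eq (k l : ℕ) : ((k + l).choose k : ℝ) * trigI k l = cseq k * cseq l := by
  induction k with
  | zero =>
    induction l with
    | zero => simp [trigI, cseq]
    | succ l ih =>
      have h1 := trigI_add 0 l
      have h2 := trigI_parts 0 l
      simp only [Nat.choose_zero_right, cseq] at ih ⊢
      push_cast at *
      field_simp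
      linear_combination (2 * l + 1) * ih + h2 - (2 * l + 1) * h1
  | succ k ih =>
    have h1 := trigI_add k l
    have h2 := trigI_parts k l
    rw [show k + 1 + l = k + l + 1 by ring, ch2, cseq]
    push_cast
    field_simp
    linear_combination (2 * k + 1) * ih -
      ((k + l).choose k : ℝ) * (h2 + (2 * k + 1) * h1)

theorem sm_two_two : IsStieltjesMoment (fun n => (apery 2 2 n : ℝ)) := by
  obtain ⟨μ, hμ0, hμ⟩ := sm_bseq.exists_real
  have : IsFiniteMeasure μ := by
    have := (hμ 0).1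
    simp only [pow_zero] at this
    exact (integrable_const_iff_isFiniteMeasure one_ne_zero).1 this
  let ρ : Measure ℝ := volume.restrict (Ioc 0 1)
  let Φ : ℝ × ℝ × ℝ → ℝ := fun z =>
    Real.cos (Real.pi * z.1) ^ 2 * z.2.1 + Real.sin (Real.pi * z.1) ^ 2 * z.2.2
  have hΦ : Measurable Φ := by fun_prop
  have hexp : ∀ n : ℕ, ∀ z, Φ z ^ n = ∑ k ∈ Finset.range (n + 1), (n.choose k : ℝ) *
      (((Real.cos (Real.pi * z.1) ^ 2) ^ k * (Real.sin (Real.pi * z.1) ^ 2) ^ (n - k)) *
        (z.2.1 ^ k * z.2.2 ^ (n - k))) := by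
    intro n z
    rw [add_pow]
    refine Finset.sum_congr rfl fun k _ => ?_
    ring
  have hint : ∀ k l : ℕ, Integrable (fun z : ℝ × ℝ × ℝ =>
      ((Real.cos (Real.pi * z.1) ^ 2) ^ k * (Real.sin (Real.pi * z.1) ^ 2) ^ l) *
        (z.2.1 ^ k * z.2.2 ^ l)) (ρ.prod (μ.prod μ)) := by
    intro k l
    have i1 : Integrable (fun u : ℝ =>
        (Real.cos (Real.pi * u) ^ 2) ^ k * (Real.sin (Real.pi * u) ^ 2) ^ l) ρ :=
      (Continuous.integrableOn_Icc (by fun_prop)).mono_set Ioc_subset_Icc_self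
    exact i1.mul_prod ((hμ k).1.mul_prod (hμ l).1)
  refine isStieltjesMoment_of_real ((ρ.prod (μ.prod μ)).map Φ) ?_ fun n => ?_
  · rw [ae_map_iff hΦ.aemeasurable measurableSet_Ici]
    have a1 : ∀ᵐ w ∂(μ.prod μ), 0 ≤ w.1 := Measure.quasiMeasurePreserving_fst.ae hμ0
    have a2 : ∀ᵐ w ∂(μ.prod μ), 0 ≤ w.2 := Measure.quasiMeasurePreserving_snd.ae hμ0
    filter_upwards [Measure.quasiMeasurePreserving_snd.ae a1,
      Measure.quasiMeasurePreserving_snd.ae a2] with z h1 h2
    simp only [Φ]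
    positivity
  · have hm : Measurable (fun t : ℝ => t ^ n) := by fun_prop
    constructor
    · rw [integrable_map_measure hm.aestronglyMeasurable hΦ.aemeasurable]
      have : ((fun t : ℝ => t ^ n) ∘ Φ) = fun z => Φ z ^ n := rfl
      rw [this]
      simp_rw [hexp n]
      exact integrable_finsetSum _ fun k _ => (hint k (n - k)).const_mul _
    · rw [integral_map hΦ.aemeasurable hm.aestronglyMeasurable]
      simp_rw [hexp n]
      rw [integral_finsetSum _ fun k _ => (hint k (n - k)).const_mul _, apery_eq_sq,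
        PowerSeries.coeff_mul, Finset.Nat.sum_antidiagonal_eq_sum_range_succ
          (fun i j => PowerSeries.coeff i sqY * PowerSeries.coeff j sqY)]
      refine Finset.sum_congr rfl fun k hk => ?_
      have hk' : k ≤ n := Nat.lt_succ_iff.1 (Finset.mem_range.1 hk)
      rw [integral_const_mul, integral_prod_mul (μ := ρ) (ν := μ.prod μ)
        (fun u : ℝ => (Real.cos (Real.pi * u) ^ 2) ^ k * (Real.sin (Real.pi * u) ^ 2) ^ (n - k))
        (fun w : ℝ × ℝ => w.1 ^ k * w.2 ^ (n - k)),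
        integral_prod_mul (μ := μ) (ν := μ) (fun t : ℝ => t ^ k) (fun t : ℝ => t ^ (n - k)),
        (hμ k).2, (hμ (n - k)).2]
      have h1 := trigI_eq k (n - k)
      rw [Nat.add_sub_cancel' hk', trigI, intervalIntegral.integral_of_le zero_le_one] at h1
      simp only [sqY, PowerSeries.coeff_mk]
      linear_combination (bseq k * bseq (n - k)) * h1

end Pool.Agent.MP_6026f4_co

end
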