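import Pool.Agent.Mg.F6026f4p.Gb4facf
import Pool.Agent.Mg.F6026f4p.Gce7451

namespace Pool.Agent.MP_6026f4_co.Q

open Complex Metric

/-- The second order part of `(1 + t) log (1 + t)`. -/
noncomputable def kk_QKey (t : ℂ) : ℂ := (1 + t) * log (1 + t) - t

theorem cub_QKey {t : ℂ} (ht : ‖t‖ ≤ 1 / 10) : ‖kk_QKey t - t ^ 2 / 2‖ ≤ ‖t‖ ^ 3 := by
  have h := norm_log_sub_logTaylor_le 2 (z := t) (by linarith)
  have e : logTaylor (2 + 1) t = t - t ^ 2 / 2 := by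
    simp only [logTaylor, Finset.sum_range_succ, Finset.range_zero, Finset.sum_empty]
    push_cast
    ring
  rw [e] at h
  have h0 := norm_nonneg t
  have h3 : 0 ≤ ‖t‖ ^ 3 := by positivity
  have hi : (1 - ‖t‖)⁻¹ ≤ 10 / 9 := by
    rw [inv_eq_one_div, div_le_iff₀ (by linarith)]; linarith
  have h' : ‖log (1 + t) - (t - t ^ 2 / 2)‖ ≤ ‖t‖ ^ 3 * (10 / 27) := by
    refine h.trans ?_
    have : ‖t‖ ^ (2 + 1) * (1 - ‖t‖)⁻¹ ≤ ‖t‖ ^ 3 * (10 / 9) :=
      mul_le_mul_of_nonneg_left hi h3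
    push_cast
    linarith
  have e2 : kk_QKey t - t ^ 2 / 2 =
      (1 + t) * (log (1 + t) - (t - t ^ 2 / 2)) - t ^ 3 / 2 := by
    unfold kk_QKey; ring
  have h1 : ‖1 + t‖ ≤ 11 / 10 := (norm_add_le _ _).trans (by rw [norm_one]; linarith)
  have h2 : ‖(1 + t) * (log (1 + t) - (t - t ^ 2 / 2))‖ ≤ 11 / 10 * (‖t‖ ^ 3 * (10 / 27)) := by
    rw [norm_mul]; exact mul_le_mul h1 h' (norm_nonneg _) (by norm_num)
  have h4 : ‖t ^ 3 / 2‖ = ‖t‖ ^ 3 / 2 := by rw [norm_div, norm_pow]; simp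
  rw [e2]
  refine (norm_sub_le _ _).trans ?_
  rw [h4]; linarith

theorem ky_QKey {y w : ℂ} {c : ℝ} (hc : 0 < c) (hy : c ≤ ‖y‖) (hw : ‖w‖ ≤ c / 10) :
    y * (w / y) = w ∧ ‖w / y‖ ≤ 1 / 10 ∧ ‖y * kk_QKey (w / y)‖ ≤ ‖w‖ ^ 2 / c ∧
      ‖y * kk_QKey (w / y) - w ^ 2 / (2 * y)‖ ≤ ‖w‖ ^ 2 / (10 * c) ∧
      ‖log (1 + w / y)‖ ≤ 3 / 2 * (‖w‖ / c) := by
  have hy' : 0 < ‖y‖ := hc.trans_le hy
  have hy0 : y ≠ 0 := norm_pos_iff.1 hy'
  have h0 := norm_nonneg w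
  have h1 : ‖w / y‖ ≤ ‖w‖ / c := by rw [norm_div]; gcongr
  have h2 : ‖w / y‖ ≤ 1 / 10 := h1.trans (by rw [div_le_iff₀ hc]; linarith)
  have h3 := cub_QKey h2
  have h4 : ‖y * kk_QKey (w / y) - w ^ 2 / (2 * y)‖ ≤ ‖w‖ ^ 2 / (10 * c) := by
    have e : y * kk_QKey (w / y) - w ^ 2 / (2 * y) = y * (kk_QKey (w / y) - (w / y) ^ 2 / 2) := by
      field_simp
    rw [e, norm_mul]
    calc ‖y‖ * ‖kk_QKey (w / y) - (w / y) ^ 2 / 2‖ ≤ ‖y‖ * ‖w / y‖ ^ 3 := by gcongr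
      _ = ‖w‖ ^ 2 / ‖y‖ * ‖w / y‖ := by rw [norm_div]; field_simp
      _ ≤ ‖w‖ ^ 2 / c * (1 / 10) := by gcongr
      _ = ‖w‖ ^ 2 / (10 * c) := by field_simp
  have h5 : ‖w ^ 2 / (2 * y)‖ ≤ ‖w‖ ^ 2 / (2 * c) := by
    rw [norm_div, norm_pow, norm_mul, Complex.norm_two]; gcongr
  refine ⟨by field_simp, h2, ?_, h4, ?_⟩
  · have e : y * kk_QKey (w / y) =
        (y * kk_QKey (w / y) - w ^ 2 / (2 * y)) + w ^ 2 / (2 * y) := by ring
    rw [e]
    refine (norm_add_le _ _).trans ?_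
    have p : 0 ≤ ‖w‖ ^ 2 / c := by positivity
    have e1 : ‖w‖ ^ 2 / (10 * c) = ‖w‖ ^ 2 / c / 10 := by field_simp
    have e2 : ‖w‖ ^ 2 / (2 * c) = ‖w‖ ^ 2 / c / 2 := by field_simp
    linarith
  · exact (norm_log_one_add_half_le_self (by linarith)).trans (by linarith)

theorem logm_QKey {z t : ℂ} {a : ℝ} (ha : 0 < a) (hz : 0 < z.re) (ht : ‖t‖ ≤ 1 / 10) :
    log (a * z * (1 + t)) = log z + Real.log a + log (1 + t) := by
  have h1 : 0 < (1 + t).re := by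
    have := (abs_le.1 (abs_re_le_norm t)).1
    rw [add_re, one_re]; linarith
  have hz0 : z ≠ 0 := fun h => by rw [h] at hz; simp at hz
  have ht0 : 1 + t ≠ 0 := fun h => by rw [h] at h1; simp at h1
  have a1 := abs_lt.1 (abs_arg_lt_pi_div_two_iff.2 (Or.inl hz))
  have a2 := abs_lt.1 (abs_arg_lt_pi_div_two_iff.2 (Or.inl h1))
  rw [mul_assoc, log_ofReal_mul ha (mul_ne_zero hz0 ht0),
    (log_mul_eq_add_log_iff hz0 ht0).2 ⟨by linarith [a1.1, a2.1], by linarith [a1.2, a2.2]⟩]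
  ring

theorem gam_QKey {u : ℂ} {c : ℝ} (hc : 2 ≤ c) (hu : ‖u - c‖ ≤ c / 2) :
    Gamma (u + 1) = stirC * exp ((u + 1 / 2) * log u - u + muS u) ∧ ‖muS u‖ ≤ 2 / c := by
  have h1 : c / 2 ≤ u.re := by
    have := (abs_le.1 (abs_re_le_norm (u - c))).1
    rw [sub_re, ofReal_re] at this; linarith
  have h2 : c / 2 ≤ ‖u‖ := h1.trans (re_le_norm u)
  have hs : u ∈ Sec 1 := Sec.of_re_nonneg le_rfl (by linarith)
  have h0 : u ≠ 0 := norm_pos_iff.1 (by linarith)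
  constructor
  · rw [Gamma_add_one u h0, Gamma_eq_stirling one_pos le_rfl hs (by linarith)]
    have e : (u + 1 / 2) * log u - u + muS u = log u + (ell u + muS u) := by unfold ell; ring
    rw [e, exp_add (log u), exp_log h0]; ring
  · refine (norm_muS_le one_pos le_rfl hs (by linarith)).trans ?_
    rw [div_one, div_le_div_iff₀ (by linarith) (by linarith)]; linarith

theorem phi_QKey (r s : ℕ) {l : ℝ} (h0 : 0 < l) (h1 : l < 1) :
    phi r s l = s * ((2 - l) * (Real.log (2 - l) : ℝ)) - r * (l * (Real.log l : ℝ)) -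
      (r + s) * ((1 - l) * (Real.log (1 - l) : ℝ)) := by
  rw [ofReal_log (by linarith), ofReal_log h0.le, ofReal_log (by linarith)]
  push_cast
  rfl

theorem rel_QKey {r s : ℕ} {l : ℝ} (h0 : 0 < l) (h1 : l < 1)
    (h : l ^ r * (2 - l) ^ s = (1 - l) ^ (r + s)) :
    (r : ℂ) * (Real.log l : ℝ) + s * (Real.log (2 - l) : ℝ) = (r + s) * (Real.log (1 - l) : ℝ) := by
  have := congrArg Real.log h
  rw [Real.log_mul (by positivity) (pow_ne_zero _ (by linarith)), Real.log_pow, Real.log_pow,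
    Real.log_pow] at this
  exact_mod_cast this

theorem prod_QKey (r s : ℕ) {C : ℂ} (hC : C ≠ 0) (a b c d : ℂ) :
    (C * exp a) ^ r * (C * exp b) ^ s / ((C * exp a) ^ s * (C * exp c) ^ r * (C * exp d) ^ (r + s)) =
      (C ^ (r + s))⁻¹ * exp (r * a + s * b - s * a - r * c - (r + s) * d) := by
  have e : ((r : ℂ) + s) * d = ((r + s : ℕ) : ℂ) * d := by push_cast; ring
  rw [e, exp_sub, exp_sub, exp_sub, exp_add, exp_nat_mul, exp_nat_mul, exp_nat_mul, exp_nat_mul,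
    exp_nat_mul]
  simp only [mul_pow]
  have := exp_ne_zero a
  have := exp_ne_zero c
  have := exp_ne_zero d
  field_simp

theorem num_QKey {r s W X m l : ℝ} (hr : 1 ≤ r) (hrs : r ≤ s) (hl : 0 < l) (hm : 0 < m)
    (hX : X = l * m) (hls : l * s ≤ 1 / 10 ^ 6) (hv : 1000 * r ≤ X) (hW0 : 0 ≤ W) (hW : W ≤ X / 11) :
    s * (W ^ 2 / (m / 2)) + r * (W ^ 2 / (10 * (0.999 * X))) + (r + s) * (W ^ 2 / (m / 2)) +
      r * W ^ 2 / 2 * (1 / (999 * X)) +
      (s * (3 / 2 * (W / (m / 2))) + r * (3 / 2 * (W / (0.999 * X))) +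
        (r + s) * (3 / 2 * (W / (m / 2)))) / 2 +
      (r * (2 / m) + s * (2 / (2 * m)) + s * (2 / m) + r * (2 / X) + (r + s) * (2 / m)) ≤
      W ^ 2 * (r / (4 * l * m)) + 2 := by
  have hX0 : 0 < X := by linarith
  obtain ⟨q, hq⟩ : ∃ q, q = 1 / X := ⟨_, rfl⟩
  have hq0 : 0 < q := by rw [hq]; positivity
  have hqX : q * X = 1 := by rw [hq]; field_simp
  have hlr : l * r ≤ 1 / 10 ^ 6 := by nlinarith
  have hlr0 : 0 ≤ l * r := by positivity
  have hls0 : 0 ≤ l * s := by nlinarith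
  have hrq : r * q ≤ 1 / 1000 := by nlinarith
  have hq1 : q ≤ 1 / 1000 := by nlinarith
  have hWq : W * q ≤ 1 / 11 := by nlinarith
  have hWq0 : 0 ≤ W * q := by positivity
  have hU0 : 0 ≤ W ^ 2 * q := by positivity
  have hU : W ^ 2 * q ≤ r * (W ^ 2 * q) := by nlinarith
  have a1 : l * s * (W ^ 2 * q) ≤ 1 / 10 ^ 6 * (W ^ 2 * q) := by gcongr
  have a2 : l * r * (W ^ 2 * q) ≤ 1 / 10 ^ 6 * (W ^ 2 * q) := by gcongr
  have a3 : l * s * (W * q) ≤ 1 / 10 ^ 6 * (1 / 11) := by gcongr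
  have a4 : l * r * (W * q) ≤ 1 / 10 ^ 6 * (1 / 11) := by gcongr
  have a5 : l * s * q ≤ 1 / 10 ^ 6 * (1 / 1000) := by gcongr
  have a6 : l * r * q ≤ 1 / 10 ^ 6 * (1 / 1000) := by gcongr
  have a7 : r * q * W ≤ r * q * (W ^ 2 / 16 + 4) := by
    have : W ≤ W ^ 2 / 16 + 4 := by nlinarith [sq_nonneg (W / 4 - 2)]
    gcongr
  have e1 : s * (W ^ 2 / (m / 2)) + r * (W ^ 2 / (10 * (0.999 * X))) + (r + s) * (W ^ 2 / (m / 2)) +
      r * W ^ 2 / 2 * (1 / (999 * X)) +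
      (s * (3 / 2 * (W / (m / 2))) + r * (3 / 2 * (W / (0.999 * X))) +
        (r + s) * (3 / 2 * (W / (m / 2)))) / 2 +
      (r * (2 / m) + s * (2 / (2 * m)) + s * (2 / m) + r * (2 / X) + (r + s) * (2 / m)) =
      4 * (l * s * (W ^ 2 * q)) + 2 * (l * r * (W ^ 2 * q)) +
        (100 / 999 + 1 / 1998) * (r * (W ^ 2 * q)) + 3 * (l * s * (W * q)) +
        3 / 2 * (l * r * (W * q)) + 750 / 999 * (r * q * W) + 4 * (l * r * q) + 5 * (l * s * q) +
        2 * (r * q) := by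
    rw [hq, hX]; field_simp; ring
  have e2 : W ^ 2 * (r / (4 * l * m)) = r * (W ^ 2 * q) / 4 := by
    rw [hq, hX]; field_simp
  have a8 : 0 ≤ r * q * W := by positivity
  rw [e1, e2]
  nlinarith

theorem nm_QKey {k : ℕ} {a : ℂ} {b : ℝ} (h : ‖a‖ ≤ b) : ‖(k : ℂ) * a‖ ≤ k * b := by
  rw [norm_mul, Complex.norm_natCast]; gcongr

theorem nm2_QKey {r s : ℕ} {a : ℂ} {b : ℝ} (h : ‖a‖ ≤ b) :
    ‖((r : ℂ) + s) * a‖ ≤ (r + s) * b := by
  have := nm_QKey (k := r + s) h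
  push_cast at this
  exact this

theorem keyEst : KeyEst := by
  intro r s m l hr hrs ⟨hl, hls, hlam⟩ hv
  have hr' : (1 : ℝ) ≤ r := by exact_mod_cast hr
  have hrs' : (r : ℝ) ≤ s := by exact_mod_cast hrs
  have hl1 : l ≤ 1 / 10 ^ 6 := by nlinarith
  have hm0 : (0 : ℝ) ≤ m := Nat.cast_nonneg m
  obtain ⟨X, hX⟩ : ∃ X, X = l * m := ⟨_, rfl⟩
  have hX1 : 1000 ≤ X := by linarith
  have hXm : X ≤ m / 10 ^ 6 := by nlinarith
  have hm : (2 : ℝ) ≤ m := by linarith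
  have hl2 : l < 1 := by linarith
  refine ⟨(stirC ^ (r + s))⁻¹ * exp ((s * (Real.log (2 - l) : ℝ) - r * (Real.log l : ℝ) -
    (r + s) * (Real.log (1 - l) : ℝ)) / 2),
    mul_ne_zero (inv_ne_zero (pow_ne_zero _ stirC_ne_zero)) (exp_ne_zero _), fun z w hz hw => ?_⟩
  rw [← hX] at hw hv
  have hz' : ‖z - ((m : ℝ) : ℂ)‖ ≤ m / 1000 := by exact_mod_cast hz
  have hzre : 0.999 * m ≤ z.re := by
    have := (abs_le.1 (abs_re_le_norm (z - ((m : ℝ) : ℂ)))).1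
    rw [sub_re, ofReal_re] at this; linarith
  have hzn : 0.999 * m ≤ ‖z‖ := hzre.trans (re_le_norm z)
  have hzp : 0 < z.re := by linarith
  have hy0 : ‖l * z - (X : ℂ)‖ ≤ X / 1000 := by
    have e : l * z - (X : ℂ) = l * (z - ((m : ℝ) : ℂ)) := by rw [hX]; push_cast; ring
    rw [e, norm_mul, norm_real, Real.norm_of_nonneg hl.le]
    nlinarith
  have hx : ‖l * z + w - (X : ℂ)‖ ≤ X / 2 := by
    have e : l * z + w - (X : ℂ) = (l * z - X) + w := by ring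
    rw [e]; exact (norm_add_le _ _).trans (by linarith)
  have hxn : ‖l * z + w‖ ≤ 2 * X := by
    have e : l * z + w = (l * z + w - X) + X := by ring
    rw [e]; refine (norm_add_le _ _).trans ?_
    rw [norm_real, Real.norm_of_nonneg (by linarith)]; linarith
  have hu1 : ‖2 * z - (l * z + w) - ((2 * m : ℝ) : ℂ)‖ ≤ 2 * m / 2 := by
    have e : 2 * z - (l * z + w) - ((2 * m : ℝ) : ℂ) =
        (z - ((m : ℝ) : ℂ)) + (z - ((m : ℝ) : ℂ)) - (l * z + w) := by push_cast; ring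
    rw [e]
    exact (norm_sub_le _ _).trans ((add_le_add (norm_add_le _ _) le_rfl).trans (by linarith))
  have hu2 : ‖z - (l * z + w) - ((m : ℝ) : ℂ)‖ ≤ m / 2 := by
    have e : z - (l * z + w) - ((m : ℝ) : ℂ) = (z - ((m : ℝ) : ℂ)) - (l * z + w) := by ring
    rw [e]
    exact (norm_sub_le _ _).trans (by linarith)
  obtain ⟨g0, m0⟩ := gam_QKey (u := z) hm (by linarith)
  obtain ⟨g1, m1⟩ := gam_QKey (by linarith) hu1
  obtain ⟨g2, m2⟩ := gam_QKey (by linarith) hx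
  obtain ⟨g3, m3⟩ := gam_QKey hm hu2
  have n1 : m / 2 ≤ ‖((2 - l : ℝ) : ℂ) * z‖ := by
    rw [norm_mul, norm_real, Real.norm_of_nonneg (by linarith)]; nlinarith
  have n2 : 0.999 * X ≤ ‖(l : ℂ) * z‖ := by
    rw [norm_mul, norm_real, Real.norm_of_nonneg hl.le]; nlinarith
  have n3 : m / 2 ≤ ‖((1 - l : ℝ) : ℂ) * z‖ := by
    rw [norm_mul, norm_real, Real.norm_of_nonneg (by linarith)]; nlinarith
  obtain ⟨a1, b1, c1, -, d1⟩ := ky_QKey (w := -w) (by linarith) n1 (by rw [norm_neg]; linarith)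
  obtain ⟨a2, b2, -, c2, d2⟩ := ky_QKey (w := w) (by linarith) n2 (by linarith)
  obtain ⟨a3, b3, c3, -, d3⟩ := ky_QKey (w := -w) (by linarith) n3 (by rw [norm_neg]; linarith)
  rw [norm_neg] at c1 d1 c3 d3
  have hy2 : ‖(X : ℂ)⁻¹ - (l * z)⁻¹‖ ≤ 1 / (999 * X) := by
    have hX0 : (X : ℂ) ≠ 0 := by exact_mod_cast (by linarith : X ≠ 0)
    have hz0 : (l : ℂ) * z ≠ 0 := norm_pos_iff.1 (by linarith)
    rw [inv_sub_inv hX0 hz0, norm_div, norm_mul, norm_real, Real.norm_of_nonneg (by linarith)]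
    calc ‖l * z - (X : ℂ)‖ / (X * ‖(l : ℂ) * z‖) ≤ X / 1000 / (X * (0.999 * X)) := by gcongr
      _ = 1 / (999 * X) := by field_simp; norm_num
  have l1 := logm_QKey (a := 2 - l) (by linarith) hzp b1
  have l2 := logm_QKey hl hzp b2
  have l3 := logm_QKey (a := 1 - l) (by linarith) hzp b3
  generalize -w / (((2 - l : ℝ) : ℂ) * z) = t1 at a1 b1 c1 d1 l1
  generalize w / ((l : ℂ) * z) = t2 at a2 b2 c2 d2 l2
  generalize -w / (((1 - l : ℝ) : ℂ) * z) = t3 at a3 b3 c3 d3 l3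
  have e1 : ((2 - l : ℝ) : ℂ) * z * (1 + t1) = 2 * z - (l * z + w) := by
    rw [mul_add, a1]; push_cast; ring
  have e2 : (l : ℂ) * z * (1 + t2) = l * z + w := by rw [mul_add, a2]; ring
  have e3 : ((1 - l : ℝ) : ℂ) * z * (1 + t3) = z - (l * z + w) := by
    rw [mul_add, a3]; push_cast; ring
  have k1 : ((2 - l : ℝ) : ℂ) * z * kk_QKey t1 = (2 * z - (l * z + w)) * log (1 + t1) + w := by
    rw [← e1]; unfold kk_QKey; linear_combination -a1
  have k2 : (l : ℂ) * z * kk_QKey t2 = (l * z + w) * log (1 + t2) - w := by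
    rw [← e2]; unfold kk_QKey; linear_combination -a2
  have k3 : ((1 - l : ℝ) : ℂ) * z * kk_QKey t3 = (z - (l * z + w)) * log (1 + t3) + w := by
    rw [← e3]; unfold kk_QKey; linear_combination -a3
  rw [e1] at l1
  rw [e2] at l2
  rw [e3] at l3
  have hrel := rel_QKey hl hl2 hlam
  refine ⟨s * (((2 - l : ℝ) : ℂ) * z * kk_QKey t1) - r * ((l : ℂ) * z * kk_QKey t2) -
    (r + s) * (((1 - l : ℝ) : ℂ) * z * kk_QKey t3) +
    (s * log (1 + t1) - r * log (1 + t2) - (r + s) * log (1 + t3)) / 2 +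
    (r * muS z + s * muS (2 * z - (l * z + w)) - s * muS z - r * muS (l * z + w) -
      (r + s) * muS (z - (l * z + w))), ?_, ?_⟩
  · rw [tG, g0, g1, g2, g3, prod_QKey r s stirC_ne_zero, eMain, mul_assoc, mul_assoc, ← exp_add,
      ← exp_add, phi_QKey r s hl hl2, k1, k2, k3, l1, l2, l3]
    refine congrArg (fun t => (stirC ^ (r + s))⁻¹ * exp t) ?_
    linear_combination (-w) * hrel
  · have e : s * (((2 - l : ℝ) : ℂ) * z * kk_QKey t1) - r * ((l : ℂ) * z * kk_QKey t2) -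
        (r + s) * (((1 - l : ℝ) : ℂ) * z * kk_QKey t3) +
        (s * log (1 + t1) - r * log (1 + t2) - (r + s) * log (1 + t3)) / 2 +
        (r * muS z + s * muS (2 * z - (l * z + w)) - s * muS z - r * muS (l * z + w) -
          (r + s) * muS (z - (l * z + w))) + w ^ 2 * (r / (2 * l * m)) =
        s * (((2 - l : ℝ) : ℂ) * z * kk_QKey t1) -
          r * ((l : ℂ) * z * kk_QKey t2 - w ^ 2 / (2 * (l * z))) -
        (r + s) * (((1 - l : ℝ) : ℂ) * z * kk_QKey t3) +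
        r * w ^ 2 / 2 * ((X : ℂ)⁻¹ - (l * z)⁻¹) +
        (s * log (1 + t1) - r * log (1 + t2) - (r + s) * log (1 + t3)) / 2 +
        (r * muS z + s * muS (2 * z - (l * z + w)) - s * muS z - r * muS (l * z + w) -
          (r + s) * muS (z - (l * z + w))) := by
      rw [hX]; push_cast; ring
    rw [e]
    refine le_trans ?_ (num_QKey hr' hrs' hl (by linarith) hX hls hv (norm_nonneg w) hw)
    refine norm_add_le_of_le (norm_add_le_of_le (norm_add_le_of_le (norm_sub_le_of_le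
      (norm_sub_le_of_le (nm_QKey c1) (nm_QKey c2)) (nm2_QKey c3)) ?_) ?_)
      (norm_sub_le_of_le (norm_sub_le_of_le (norm_sub_le_of_le (norm_add_le_of_le (nm_QKey m0)
        (nm_QKey m1)) (nm_QKey m0)) (nm_QKey m2)) (nm2_QKey m3))
    · rw [norm_mul, norm_div, norm_mul, norm_pow, Complex.norm_natCast, Complex.norm_two]
      gcongr
    · rw [norm_div, Complex.norm_two]
      exact div_le_div_of_nonneg_right (norm_sub_le_of_le (norm_sub_le_of_le (nm_QKey d1)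
        (nm_QKey d2)) (nm2_QKey d3)) (by norm_num)

end Pool.Agent.MP_6026f4_co.Q
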