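import Pool.Agent.Mg.F6026f4p.Gce7451
import Pool.Agent.MP_6026f4_co.Defs

section

namespace Pool.Agent.MP_6026f4_co

open Complex Set Filter Topology

/-- The function `w log w - w`. -/
noncomputable def LL (w : ℂ) : ℂ := w * log w - w

theorem hasDerivAt_LL {w : ℂ} (hw : w ∈ slitPlane) : HasDerivAt LL (log w) w := by
  have h := ((hasDerivAt_id w).mul (hasDerivAt_log hw)).sub (hasDerivAt_id w)
  have h0 := slitPlane_ne_zero hw
  refine h.congr_deriv ?_
  simp only [id]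
  field_simp
  ring

theorem LL_ofReal_mul {ρ : ℝ} (hρ : 0 < ρ) (w : ℂ) :
    LL (ρ * w) = ρ * LL w + ρ * Real.log ρ * w := by
  by_cases hw : w = 0
  · simp [hw, LL]
  · simp only [LL]; rw [log_ofReal_mul hρ hw]; ring

theorem norm_log_le {z : ℂ} {a : ℝ} (h1 : 1 ≤ ‖z‖) (h2 : ‖z‖ ≤ 2 * (1 + a)) (ha : 0 ≤ a) :
    ‖log z‖ ≤ Real.log (1 + a) + 5 := by
  have h3 : ‖log z‖ ≤ |(log z).re| + |(log z).im| := norm_le_abs_re_add_abs_im _
  rw [log_re, log_im, abs_of_nonneg (Real.log_nonneg h1)] at h3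
  have h4 := abs_arg_le_pi z
  have h5 : Real.log ‖z‖ ≤ Real.log (2 * (1 + a)) := Real.log_le_log (by linarith) h2
  rw [Real.log_mul (by norm_num) (by linarith)] at h5
  linarith [Real.pi_lt_four, Real.log_two_lt_d9]

theorem norm_LL_le {w : ℂ} {R : ℝ} (hR : 1 ≤ R) (h : ‖w‖ ≤ R) : ‖LL w‖ ≤ R ^ 2 + 5 * R + 1 := by
  have h3 : ‖log w‖ ≤ |(log w).re| + |(log w).im| := norm_le_abs_re_add_abs_im _
  rw [log_re, log_im] at h3
  have h4 := abs_arg_le_pi w
  have h0 := norm_nonneg w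
  have h5 : ‖w‖ * |Real.log ‖w‖| ≤ R ^ 2 + 1 := by
    rcases le_total ‖w‖ 1 with h6 | h6
    · rcases h0.eq_or_lt with h7 | h7
      · rw [← h7]; simp; positivity
      · have := Real.abs_log_mul_self_lt _ h7 h6
        rw [abs_mul, abs_of_pos h7] at this
        nlinarith
    · rw [abs_of_nonneg (Real.log_nonneg h6)]
      have := Real.log_le_self h0
      nlinarith
  calc ‖LL w‖ ≤ ‖w * log w‖ + ‖w‖ := norm_sub_le _ _
    _ = ‖w‖ * ‖log w‖ + ‖w‖ := by rw [norm_mul]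
    _ ≤ ‖w‖ * (|Real.log ‖w‖| + 4) + ‖w‖ := by gcongr; linarith [Real.pi_lt_four]
    _ ≤ _ := by nlinarith

theorem gamma_log_large {η C₀ : ℝ} (hη : 0 < η) (hη1 : η ≤ 1) (hC : 0 ≤ C₀) {w c : ℂ}
    (hw : w ∈ Sec η) (hc : ‖c‖ ≤ C₀) (h2 : 2 ≤ ‖w‖) (h4 : 4 * C₀ ≤ η * ‖w‖) :
    ∃ e : ℂ, Gamma (w + c) = stirC * exp (LL w + e) ∧
      ‖e‖ ≤ (C₀ + 1) * (Real.log (1 + ‖w‖) + 5) + 4 / η := by
  have hw' : η * ‖w‖ ≤ ‖w‖ + w.re := hw
  have hcw : ‖c‖ ≤ ‖w‖ / 4 := by nlinarith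
  have hseg : ∀ v ∈ Icc (0 : ℝ) 1, w + v * c ∈ Sec (η / 4) ∧ 1 ≤ ‖w + v * c‖ ∧
      ‖w + v * c‖ ≤ 2 * (1 + ‖w‖) := by
    intro v hv
    have e1 : ‖(v : ℂ) * c‖ ≤ ‖c‖ := by
      rw [norm_mul, norm_real, Real.norm_eq_abs, abs_of_nonneg hv.1]
      nlinarith [norm_nonneg c, hv.2]
    have e2 : ‖w + v * c‖ ≤ ‖w‖ + ‖c‖ := (norm_add_le _ _).trans (by linarith)
    have e3 : ‖w‖ - ‖c‖ ≤ ‖w + v * c‖ := by
      have := norm_sub_le (w + v * c) (v * c)
      rw [add_sub_cancel_right] at this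
      linarith
    have e4 : w.re - ‖c‖ ≤ (w + v * c).re := by
      rw [add_re]
      linarith [abs_le.1 ((abs_re_le_norm ((v : ℂ) * c)).trans e1)]
    refine ⟨?_, by linarith, by linarith⟩
    change η / 4 * ‖w + v * c‖ ≤ ‖w + v * c‖ + (w + v * c).re
    nlinarith
  have hl : 0 ≤ Real.log (1 + ‖w‖) := Real.log_nonneg (by linarith)
  have key := norm_image_sub_le_of_norm_deriv_le_segment_01'
    (f := fun v : ℝ => LL (w + v * c)) (f' := fun v : ℝ => log (w + v * c) * c)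
    (C := C₀ * (Real.log (1 + ‖w‖) + 5)) ?_ ?_
  · obtain ⟨a1, a2, a3⟩ := hseg 1 (by simp)
    simp only [ofReal_one, one_mul, ofReal_zero, zero_mul, add_zero] at key a1 a2 a3
    have hη4 : 0 < η / 4 := by positivity
    refine ⟨ell (w + c) + muS (w + c) - LL w, ?_, ?_⟩
    · rw [Gamma_eq_stirling hη4 (by linarith) a1 a2]; congr 2; ring
    · have b1 := norm_muS_le hη4 (by linarith) a1 a2
      have b2 : 1 / (η / 4) / ‖w + c‖ ≤ 4 / η := by
        rw [one_div_div]; exact div_le_self (by positivity) a2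
      have b3 := norm_log_le a2 a3 (norm_nonneg w)
      have e : ell (w + c) + muS (w + c) - LL w =
          (LL (w + c) - LL w) - 1 / 2 * log (w + c) + muS (w + c) := by
        simp only [ell, LL]; ring
      rw [e]
      have b4 : ‖(1 / 2 : ℂ) * log (w + c)‖ ≤ Real.log (1 + ‖w‖) + 5 := by
        rw [norm_mul]
        have : ‖(1 / 2 : ℂ)‖ = 1 / 2 := by simp
        rw [this]
        nlinarith [norm_nonneg (log (w + c))]
      calc _ ≤ ‖LL (w + c) - LL w‖ + ‖(1 / 2 : ℂ) * log (w + c)‖ + ‖muS (w + c)‖ :=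
            (norm_add_le _ _).trans (by gcongr; exact norm_sub_le _ _)
        _ ≤ _ := by nlinarith
  · intro v hv
    obtain ⟨a1, a2, _⟩ := hseg v hv
    have hs := Sec.slitPlane (by positivity) a1 (by intro h; rw [h] at a2; simp at a2; linarith)
    have h1 : HasDerivAt (fun v : ℝ => w + v * c) c v := by
      simpa using (((hasDerivAt_id v).ofReal_comp).mul_const c).const_add w
    exact ((hasDerivAt_LL hs).comp_of_eq v h1 rfl).hasDerivWithinAt
  · intro v hv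
    obtain ⟨_, a2, a3⟩ := hseg v (Ico_subset_Icc_self hv)
    rw [norm_mul, mul_comm]
    exact mul_le_mul hc (norm_log_le a2 a3 (norm_nonneg w)) (norm_nonneg _) hC

/-- Two-sided bounds for the Gamma function up to polynomial factors. -/
theorem gamma_two_sided {η C₀ d : ℝ} (hη : 0 < η) (hη1 : η ≤ 1) (hC : 0 ≤ C₀) (hd : 0 < d) :
    ∃ C : ℝ, 1 ≤ C ∧ ∃ K : ℕ, ∀ w ∈ Sec η, ∀ c : ℂ, ‖c‖ ≤ C₀ →
      ‖(Gamma (w + c))⁻¹‖ ≤ C * (1 + ‖w‖) ^ K * Real.exp (-(LL w).re) ∧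
      ((∀ k : ℕ, d ≤ ‖w + c + k‖) →
        ‖Gamma (w + c)‖ ≤ C * (1 + ‖w‖) ^ K * Real.exp (LL w).re) := by
  set R := max 2 (4 * C₀ / η) with hR
  have hR2 : 2 ≤ R := le_max_left _ _
  have hR4 : 4 * C₀ / η ≤ R := le_max_right _ _
  obtain ⟨M₁, hM₁⟩ := (isCompact_closedBall (0 : ℂ) (R + C₀)).exists_bound_of_continuousOn
    differentiable_one_div_Gamma.continuous.continuousOn
  have hK : IsCompact (Metric.closedBall (0 : ℂ) (R + C₀) ∩ ⋂ k : ℕ, {z : ℂ | d ≤ ‖z + k‖}) :=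
    (isCompact_closedBall _ _).inter_right
      (isClosed_iInter fun k => isClosed_le continuous_const (by fun_prop))
  obtain ⟨M₂, hM₂⟩ := hK.exists_bound_of_continuousOn (f := Gamma) (by
    intro z hz
    refine (differentiableAt_Gamma z fun m hm => ?_).continuousAt.continuousWithinAt
    have := mem_iInter.1 hz.2 m
    simp only [mem_ofPred_eq, hm, neg_add_cancel, norm_zero] at this
    linarith)
  set B := R ^ 2 + 5 * R + 1 with hB
  set D := (C₀ + 1) * 5 + 4 / η with hD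
  have hs0 : 0 < ‖stirC‖ := norm_pos_iff.2 stirC_ne_zero
  set C := 1 + (|M₁| + |M₂|) * Real.exp B + (‖stirC‖ + ‖stirC‖⁻¹) * Real.exp D with hCdef
  have hC1 : (|M₁| + |M₂|) * Real.exp B ≤ C := by
    have : 0 ≤ (‖stirC‖ + ‖stirC‖⁻¹) * Real.exp D := by positivity
    linarith
  have hC2 : (‖stirC‖ + ‖stirC‖⁻¹) * Real.exp D ≤ C := by
    have : 0 ≤ (|M₁| + |M₂|) * Real.exp B := by positivity
    linarith
  have hC3 : 1 ≤ C := by
    have : 0 ≤ (|M₁| + |M₂|) * Real.exp B := by positivity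
    have : 0 ≤ (‖stirC‖ + ‖stirC‖⁻¹) * Real.exp D := by positivity
    linarith
  refine ⟨C, hC3, ⌈C₀ + 1⌉₊, fun w hw c hc => ?_⟩
  have hp : 1 ≤ (1 + ‖w‖) ^ ⌈C₀ + 1⌉₊ := one_le_pow₀ (by linarith [norm_nonneg w])
  rcases le_total ‖w‖ R with h | h
  · have hL := norm_LL_le (by linarith) h
    have hL' := abs_le.1 ((abs_re_le_norm (LL w)).trans hL)
    have hmem : w + c ∈ Metric.closedBall (0 : ℂ) (R + C₀) := by
      rw [mem_closedBall_zero_iff]; exact (norm_add_le _ _).trans (by linarith)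
    have gen : ∀ x y : ℝ, x ≤ |M₁| + |M₂| → -B ≤ y →
        x ≤ C * (1 + ‖w‖) ^ ⌈C₀ + 1⌉₊ * Real.exp y := by
      intro x y hx hy
      calc x ≤ (|M₁| + |M₂|) * Real.exp B * 1 * Real.exp (-B) := by
            rw [mul_one, mul_assoc, ← Real.exp_add]; simpa using hx
        _ ≤ _ := by gcongr
    constructor
    · refine gen _ _ ?_ (by linarith [hL'.2])
      linarith [hM₁ _ hmem, le_abs_self M₁, abs_nonneg M₂]
    · intro hk
      refine gen _ _ ?_ hL'.1
      linarith [hM₂ _ ⟨hmem, mem_iInter.2 hk⟩, le_abs_self M₂, abs_nonneg M₁]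
  · have h4 : 4 * C₀ ≤ η * ‖w‖ := by
      have := (div_le_iff₀ hη).1 (hR4.trans h)
      linarith
    obtain ⟨e, he, hb⟩ := gamma_log_large hη hη1 hC hw hc (hR2.trans h) h4
    have hb' := abs_le.1 ((abs_re_le_norm e).trans hb)
    have hl : 0 ≤ Real.log (1 + ‖w‖) := Real.log_nonneg (by linarith)
    have hexp : Real.exp ((C₀ + 1) * (Real.log (1 + ‖w‖) + 5) + 4 / η) ≤
        Real.exp D * (1 + ‖w‖) ^ ⌈C₀ + 1⌉₊ := by
      rw [← Real.exp_log (x := (1 + ‖w‖) ^ ⌈C₀ + 1⌉₊) (by positivity), Real.log_pow,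
        ← Real.exp_add]
      apply Real.exp_le_exp.2
      have := Nat.le_ceil (C₀ + 1)
      nlinarith
    have gen : ∀ a x y : ℝ, 0 ≤ a → a ≤ ‖stirC‖ + ‖stirC‖⁻¹ →
        x ≤ (C₀ + 1) * (Real.log (1 + ‖w‖) + 5) + 4 / η →
        a * Real.exp (y + x) ≤ C * (1 + ‖w‖) ^ ⌈C₀ + 1⌉₊ * Real.exp y := by
      intro a x y h0 ha hx
      calc a * Real.exp (y + x) = a * Real.exp x * Real.exp y := by rw [Real.exp_add]; ring
        _ ≤ (‖stirC‖ + ‖stirC‖⁻¹) * (Real.exp D * (1 + ‖w‖) ^ ⌈C₀ + 1⌉₊) * Real.exp y := by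
          gcongr; exact (Real.exp_le_exp.2 hx).trans hexp
        _ ≤ _ := by rw [← mul_assoc]; gcongr
    constructor
    · rw [he, norm_inv, norm_mul, norm_exp, mul_inv, ← Real.exp_neg, add_re, neg_add]
      exact gen _ _ _ (by positivity) (by linarith) (by linarith [hb'.1])
    · intro _
      rw [he, norm_mul, norm_exp, add_re]
      exact gen _ _ _ hs0.le (le_add_of_nonneg_right (by positivity)) hb'.2

end Pool.Agent.MP_6026f4_co

end

section

namespace Pool.Agent.MP_6026f4_co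

open Complex Set Filter Topology

/-- Bound by an exponential up to a polynomial factor. -/
def PB {ι : Type*} (S : Set ι) (m : ι → ℝ) (f : ι → ℂ) (h : ι → ℝ) : Prop :=
  ∃ C : ℝ, 1 ≤ C ∧ ∃ K : ℕ, ∀ i ∈ S, ‖f i‖ ≤ C * (1 + m i) ^ K * Real.exp (h i)

section PB
variable {ι : Type*} {S : Set ι} {m : ι → ℝ} {f g : ι → ℂ} {h h' : ι → ℝ}

theorem PB.mul (hf : PB S m f h) (hg : PB S m g h') :
    PB S m (fun i => f i * g i) (fun i => h i + h' i) := by
  obtain ⟨C, hC, K, hb⟩ := hf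
  obtain ⟨C', hC', K', hb'⟩ := hg
  refine ⟨C * C', one_le_mul_of_one_le_of_one_le hC hC', K + K', fun i hi => ?_⟩
  rw [norm_mul, Real.exp_add, pow_add]
  calc _ ≤ (C * (1 + m i) ^ K * Real.exp (h i)) * (C' * (1 + m i) ^ K' * Real.exp (h' i)) :=
        mul_le_mul (hb i hi) (hb' i hi) (norm_nonneg _) ((norm_nonneg _).trans (hb i hi))
    _ = _ := by ring

theorem PB.pow (hf : PB S m f h) (j : ℕ) : PB S m (fun i => f i ^ j) (fun i => j * h i) := by
  induction j with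
  | zero => exact ⟨1, le_rfl, 0, fun i _ => by simp⟩
  | succ j ih =>
    have := ih.mul hf
    simp only [← pow_succ] at this
    convert this using 2
    push_cast; ring

theorem PB.mono (hf : PB S m f h) (hm : ∀ i ∈ S, 0 ≤ m i) (hh : ∀ i ∈ S, h i ≤ h' i) :
    PB S m f h' := by
  obtain ⟨C, hC, K, hb⟩ := hf
  refine ⟨C, hC, K, fun i hi => (hb i hi).trans ?_⟩
  have := hm i hi
  have := hh i hi
  gcongr

theorem PB.congr (hf : PB S m f h) (hg : ∀ i ∈ S, g i = f i) : PB S m g h := by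
  obtain ⟨C, hC, K, hb⟩ := hf
  exact ⟨C, hC, K, fun i hi => hg i hi ▸ hb i hi⟩

theorem PB.of_le {C : ℝ} (hb : ∀ i ∈ S, ‖f i‖ ≤ C * Real.exp (h i)) : PB S m f h := by
  refine ⟨max 1 C, le_max_left _ _, 0, fun i hi => (hb i hi).trans ?_⟩
  rw [pow_zero, mul_one]
  gcongr
  exact le_max_right _ _

theorem PB.exp (e : ι → ℂ) : PB S m (fun i => exp (e i)) (fun i => (e i).re) :=
  PB.of_le (C := 1) fun i _ => by rw [norm_exp, one_mul]

theorem PB.const (c : ℂ) : PB S m (fun _ => c) (fun _ => 0) :=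
  PB.of_le (C := ‖c‖) fun i _ => by simp

theorem PB.const_mul (hf : PB S m f h) (c : ℂ) : PB S m (fun i => c * f i) h := by
  simpa using (PB.const (S := S) (m := m) c).mul hf

theorem PB.add (hf : PB S m f h) (hg : PB S m g h) (hm : ∀ i ∈ S, 0 ≤ m i) :
    PB S m (fun i => f i + g i) h := by
  obtain ⟨C, hC, K, hb⟩ := hf
  obtain ⟨C', hC', K', hb'⟩ := hg
  refine ⟨C + C', by linarith, max K K', fun i hi => (norm_add_le _ _).trans ?_⟩
  have h1 : 1 ≤ 1 + m i := by linarith [hm i hi]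
  have e1 : (1 + m i) ^ K ≤ (1 + m i) ^ max K K' := pow_le_pow_right₀ h1 (le_max_left _ _)
  have e2 : (1 + m i) ^ K' ≤ (1 + m i) ^ max K K' := pow_le_pow_right₀ h1 (le_max_right _ _)
  calc _ ≤ C * (1 + m i) ^ max K K' * Real.exp (h i) +
        C' * (1 + m i) ^ max K K' * Real.exp (h i) :=
        add_le_add ((hb i hi).trans (by gcongr)) ((hb' i hi).trans (by gcongr))
    _ = _ := by ring

theorem PB.shift (hf : PB S m f h) (hm : ∀ i ∈ S, 0 ≤ m i) {c : ℝ}
    (hh : ∀ i ∈ S, h i ≤ h' i + c) : PB S m f h' := by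
  obtain ⟨C, hC, K, hb⟩ := hf
  refine ⟨C * Real.exp |c|, one_le_mul_of_one_le_of_one_le hC
    (Real.one_le_exp (abs_nonneg c)), K, fun i hi => (hb i hi).trans ?_⟩
  have := hm i hi
  have h2 : Real.exp (h i) ≤ Real.exp |c| * Real.exp (h' i) := by
    rw [← Real.exp_add]; apply Real.exp_le_exp.2; linarith [hh i hi, le_abs_self c]
  calc _ ≤ C * (1 + m i) ^ K * (Real.exp |c| * Real.exp (h' i)) := by gcongr
    _ = _ := by ring

end PB

/-- The point stays away from the poles of the Gamma function. -/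
def Good (d : ℝ) (z : ℂ) : Prop := ∀ k : ℕ, d ≤ ‖z + k‖

theorem Good.of_re {d : ℝ} {z : ℂ} (h : d ≤ z.re) : Good d z := fun k => by
  have := re_le_norm (z + k)
  simp only [add_re, natCast_re] at this
  linarith [(Nat.cast_nonneg k : (0 : ℝ) ≤ k)]

theorem Good.of_im {d : ℝ} {z : ℂ} (h : d ≤ |z.im|) : Good d z := fun k => by
  have := abs_im_le_norm (z + k)
  simp only [add_im, natCast_im, add_zero] at this
  linarith

theorem Good.of_sec {η : ℝ} (hη : 0 < η) (hη1 : η ≤ 1) {w : ℂ} (hw : w ∈ Sec η) {c : ℝ}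
    (hc : 1 / 2 ≤ c) : Good (η / 4) (w + c) := fun k => by
  have hk : (0 : ℝ) ≤ k := Nat.cast_nonneg k
  have := Sec.norm_add_ge hη1 hw (x := c + k) (by linarith)
  rw [show w + c + k = w + ((c + k : ℝ) : ℂ) by push_cast; ring]
  apply le_of_sq_le_sq _ (norm_nonneg _) |>.trans le_rfl
  refine le_trans ?_ this
  have h1 : (1 / 2) ^ 2 ≤ (‖w‖ + (c + k)) ^ 2 := by
    gcongr; linarith [norm_nonneg w]
  nlinarith

theorem Good.mono {d d' : ℝ} {z : ℂ} (h : Good d z) (hd : d' ≤ d) : Good d' z :=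
  fun k => hd.trans (h k)

theorem Good.ne {d : ℝ} {z : ℂ} (h : Good d z) (hd : 0 < d) (k : ℕ) : z ≠ -k := by
  intro e
  have := h k
  rw [e] at this
  simp at this
  linarith

section Gam
variable {ι : Type*} {S : Set ι} {m : ι → ℝ} {w c : ι → ℂ} {η C₀ A d : ℝ}

theorem pow_one_add_le {x y A : ℝ} (hx : 0 ≤ x) (hy : 0 ≤ y) (h : x ≤ A * (1 + y)) (K : ℕ) :
    (1 + x) ^ K ≤ (1 + |A|) ^ K * (1 + y) ^ K := by
  rw [← mul_pow]
  gcongr
  have : A * (1 + y) ≤ |A| * (1 + y) := by gcongr; exact le_abs_self A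
  nlinarith

theorem PB.gamma_inv (hη : 0 < η) (hη1 : η ≤ 1) (hm : ∀ i ∈ S, 0 ≤ m i)
    (hw : ∀ i ∈ S, w i ∈ Sec η) (hc : ∀ i ∈ S, ‖c i‖ ≤ C₀) (hA : ∀ i ∈ S, ‖w i‖ ≤ A * (1 + m i)) :
    PB S m (fun i => (Gamma (w i + c i))⁻¹) (fun i => -(LL (w i)).re) := by
  obtain ⟨C, hC, K, hb⟩ := gamma_two_sided (C₀ := |C₀|) hη hη1 (abs_nonneg _) one_pos
  refine ⟨C * (1 + |A|) ^ K, one_le_mul_of_one_le_of_one_le hC
    (one_le_pow₀ (by linarith [abs_nonneg A])), K, fun i hi => ?_⟩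
  refine (hb _ (hw i hi) _ ((hc i hi).trans (le_abs_self _))).1.trans ?_
  have := pow_one_add_le (norm_nonneg _) (hm i hi) (hA i hi) K
  rw [mul_assoc C ((1 + |A|) ^ K)]
  gcongr

theorem PB.gamma (hη : 0 < η) (hη1 : η ≤ 1) (hd : 0 < d) (hm : ∀ i ∈ S, 0 ≤ m i)
    (hw : ∀ i ∈ S, w i ∈ Sec η) (hc : ∀ i ∈ S, ‖c i‖ ≤ C₀) (hA : ∀ i ∈ S, ‖w i‖ ≤ A * (1 + m i))
    (hg : ∀ i ∈ S, Good d (w i + c i)) :
    PB S m (fun i => Gamma (w i + c i)) (fun i => (LL (w i)).re) := by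
  obtain ⟨C, hC, K, hb⟩ := gamma_two_sided (C₀ := |C₀|) hη hη1 (abs_nonneg _) hd
  refine ⟨C * (1 + |A|) ^ K, one_le_mul_of_one_le_of_one_le hC
    (one_le_pow₀ (by linarith [abs_nonneg A])), K, fun i hi => ?_⟩
  refine ((hb _ (hw i hi) _ ((hc i hi).trans (le_abs_self _))).2 (hg i hi)).trans ?_
  have := pow_one_add_le (norm_nonneg _) (hm i hi) (hA i hi) K
  rw [mul_assoc C ((1 + |A|) ^ K)]
  gcongr

end Gam

/-- The common factor of the three integrands. -/
noncomputable def T0 (r s : ℕ) (n k : ℂ) : ℂ :=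
  Gamma n ^ r * (Gamma n)⁻¹ ^ s * Gamma (n + k - 1 / 2) ^ s

/-- The summand, interpolated. -/
noncomputable def TT (r s : ℕ) (n k : ℂ) : ℂ :=
  T0 r s n k * (Gamma (k + 1 / 2))⁻¹ ^ (r + s) * (Gamma (n - k + 1 / 2))⁻¹ ^ r

/-- The summand after reflection at the left end. -/
noncomputable def TH (r s : ℕ) (n k : ℂ) : ℂ :=
  T0 r s n k * Gamma (1 / 2 - k) ^ (r + s) * (Gamma (n - k + 1 / 2))⁻¹ ^ r

/-- The summand after reflection at the right end. -/
noncomputable def TW (r s : ℕ) (n k : ℂ) : ℂ :=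
  T0 r s n k * (Gamma (k + 1 / 2))⁻¹ ^ (r + s) * Gamma (k - n + 1 / 2) ^ r

noncomputable def Phi0 (r s : ℕ) (n k : ℂ) : ℂ := (r - s) * LL n + s * LL (n + k)

noncomputable def PhiT (r s : ℕ) (n k : ℂ) : ℂ :=
  Phi0 r s n k - (r + s) * LL k - r * LL (n - k)

noncomputable def PhiH (r s : ℕ) (n k : ℂ) : ℂ :=
  Phi0 r s n k + (r + s) * LL (-k) - r * LL (n - k)

noncomputable def PhiW (r s : ℕ) (n k : ℂ) : ℂ :=
  Phi0 r s n k - (r + s) * LL k + r * LL (k - n)

theorem PhiT_smul (r s : ℕ) {ρ : ℝ} (hρ : 0 < ρ) (n k : ℂ) :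
    PhiT r s (ρ * n) (ρ * k) = ρ * PhiT r s n k := by
  simp only [PhiT, Phi0, ← mul_add, ← mul_sub, LL_ofReal_mul hρ]; ring

theorem PhiH_smul (r s : ℕ) {ρ : ℝ} (hρ : 0 < ρ) (n k : ℂ) :
    PhiH r s (ρ * n) (ρ * k) = ρ * PhiH r s n k := by
  simp only [PhiH, Phi0, ← mul_add, ← mul_sub, ← mul_neg, LL_ofReal_mul hρ]; ring

theorem PhiW_smul (r s : ℕ) {ρ : ℝ} (hρ : 0 < ρ) (n k : ℂ) :
    PhiW r s (ρ * n) (ρ * k) = ρ * PhiW r s n k := by
  simp only [PhiW, Phi0, ← mul_add, ← mul_sub, LL_ofReal_mul hρ]; ring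

/-- The data needed for the bounds on the integrands. -/
structure Frame {ι : Type*} (S : Set ι) (m : ι → ℝ) (n k p q : ι → ℂ) (η d C₀ A : ℝ) : Prop where
  hη : 0 < η
  hη1 : η ≤ 1
  hd : 0 < d
  hm : ∀ i ∈ S, 0 ≤ m i
  hp : ∀ i ∈ S, ‖p i‖ ≤ C₀
  hq : ∀ i ∈ S, ‖q i‖ ≤ C₀
  hn : ∀ i ∈ S, ‖n i‖ ≤ A * (1 + m i)
  hk : ∀ i ∈ S, ‖k i‖ ≤ A * (1 + m i)
  s1 : ∀ i ∈ S, n i ∈ Sec η
  s2 : ∀ i ∈ S, n i + k i ∈ Sec η
  g1 : ∀ i ∈ S, Good d (n i + p i)
  g2 : ∀ i ∈ S, Good d (n i + p i + (k i + q i) - 1 / 2)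

section Bounds
variable {ι : Type*} {S : Set ι} {m : ι → ℝ} {n k p q : ι → ℂ} {η d C₀ A : ℝ}

theorem norm_half : ‖(1 / 2 : ℂ)‖ = 1 / 2 := by simp

theorem Frame.T0 (F : Frame S m n k p q η d C₀ A) (r s : ℕ) :
    PB S m (fun i => T0 r s (n i + p i) (k i + q i)) (fun i => (Phi0 r s (n i) (k i)).re) := by
  have h1 := (PB.gamma F.hη F.hη1 F.hd F.hm F.s1 F.hp F.hn F.g1).pow r
  have h2 := (PB.gamma_inv F.hη F.hη1 F.hm F.s1 F.hp F.hn).pow s
  have h3 := (PB.gamma (w := fun i => n i + k i) (c := fun i => p i + q i - 1 / 2)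
    (C₀ := 2 * C₀ + 1) (A := 2 * A) F.hη F.hη1 F.hd F.hm F.s2
    (fun i hi => by
      have := norm_sub_le (p i + q i) (1 / 2)
      rw [norm_half] at this
      linarith [norm_add_le (p i) (q i), F.hp i hi, F.hq i hi])
    (fun i hi => by linarith [norm_add_le (n i) (k i), F.hn i hi, F.hk i hi])
    (fun i hi => by convert F.g2 i hi using 1; ring)).pow s
  refine (((h1.mul h2).mul h3).congr fun i _ => ?_).mono F.hm fun i _ => le_of_eq ?_
  · simp only [Pool.Agent.MP_6026f4_co.T0]; congr 3; ring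
  · simp [Phi0]; ring

theorem Frame.inv1 (F : Frame S m n k p q η d C₀ A) (s3 : ∀ i ∈ S, k i ∈ Sec η) :
    PB S m (fun i => (Gamma (k i + q i + 1 / 2))⁻¹) (fun i => -(LL (k i)).re) := by
  refine (PB.gamma_inv (w := k) (c := fun i => q i + 1 / 2) (C₀ := C₀ + 1) F.hη F.hη1 F.hm s3
    (fun i hi => by
      have := norm_add_le (q i) (1 / 2)
      rw [norm_half] at this
      linarith [F.hq i hi]) F.hk).congr fun i _ => ?_
  rw [add_assoc]

theorem Frame.inv2 (F : Frame S m n k p q η d C₀ A) (s4 : ∀ i ∈ S, n i - k i ∈ Sec η) :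
    PB S m (fun i => (Gamma (n i + p i - (k i + q i) + 1 / 2))⁻¹)
      (fun i => -(LL (n i - k i)).re) := by
  refine (PB.gamma_inv (w := fun i => n i - k i) (c := fun i => p i - q i + 1 / 2)
    (C₀ := 2 * C₀ + 1) (A := 2 * A) F.hη F.hη1 F.hm s4
    (fun i hi => by
      have := norm_add_le (p i - q i) (1 / 2)
      rw [norm_half] at this
      linarith [norm_sub_le (p i) (q i), F.hp i hi, F.hq i hi])
    (fun i hi => by linarith [norm_sub_le (n i) (k i), F.hn i hi, F.hk i hi])).congr fun i _ => ?_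
  congr 2; ring

theorem Frame.TT (F : Frame S m n k p q η d C₀ A) (r s : ℕ) (s3 : ∀ i ∈ S, k i ∈ Sec η)
    (s4 : ∀ i ∈ S, n i - k i ∈ Sec η) :
    PB S m (fun i => TT r s (n i + p i) (k i + q i)) (fun i => (PhiT r s (n i) (k i)).re) := by
  refine ((((F.T0 r s).mul ((F.inv1 s3).pow (r + s))).mul ((F.inv2 s4).pow r)).congr
    fun i _ => rfl).mono F.hm fun i _ => le_of_eq ?_
  simp [PhiT]; ring

theorem Frame.TH (F : Frame S m n k p q η d C₀ A) (r s : ℕ) (s3 : ∀ i ∈ S, -k i ∈ Sec η)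
    (s4 : ∀ i ∈ S, n i - k i ∈ Sec η) (g3 : ∀ i ∈ S, Good d (1 / 2 - (k i + q i))) :
    PB S m (fun i => TH r s (n i + p i) (k i + q i)) (fun i => (PhiH r s (n i) (k i)).re) := by
  have h3 := (PB.gamma (w := fun i => -k i) (c := fun i => 1 / 2 - q i)
    (C₀ := C₀ + 1) (A := A) F.hη F.hη1 F.hd F.hm s3
    (fun i hi => by
      have := norm_sub_le (1 / 2) (q i)
      rw [norm_half] at this
      linarith [F.hq i hi])
    (fun i hi => by rw [norm_neg]; exact F.hk i hi)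
    (fun i hi => by convert g3 i hi using 1; ring)).pow (r + s)
  refine ((((F.T0 r s).mul h3).mul ((F.inv2 s4).pow r)).congr
    fun i _ => ?_).mono F.hm fun i _ => le_of_eq ?_
  · simp only [Pool.Agent.MP_6026f4_co.TH]; congr 4; ring
  · simp [PhiH]; ring

theorem Frame.TW (F : Frame S m n k p q η d C₀ A) (r s : ℕ) (s3 : ∀ i ∈ S, k i ∈ Sec η)
    (s4 : ∀ i ∈ S, k i - n i ∈ Sec η)
    (g3 : ∀ i ∈ S, Good d (k i + q i - (n i + p i) + 1 / 2)) :
    PB S m (fun i => TW r s (n i + p i) (k i + q i)) (fun i => (PhiW r s (n i) (k i)).re) := by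
  have h3 := (PB.gamma (w := fun i => k i - n i) (c := fun i => q i - p i + 1 / 2)
    (C₀ := 2 * C₀ + 1) (A := 2 * A) F.hη F.hη1 F.hd F.hm s4
    (fun i hi => by
      have := norm_add_le (q i - p i) (1 / 2)
      rw [norm_half] at this
      linarith [norm_sub_le (q i) (p i), F.hp i hi, F.hq i hi])
    (fun i hi => by linarith [norm_sub_le (k i) (n i), F.hn i hi, F.hk i hi])
    (fun i hi => by convert g3 i hi using 1; ring)).pow r
  refine ((((F.T0 r s).mul ((F.inv1 s3).pow (r + s))).mul h3).congr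
    fun i _ => ?_).mono F.hm fun i _ => le_of_eq ?_
  · simp only [Pool.Agent.MP_6026f4_co.TW]; congr 3; ring
  · simp [PhiW]; ring

end Bounds

end Pool.Agent.MP_6026f4_co

end

section

namespace Pool.Agent.MP_6026f4_co

open Complex Set Filter Topology
open scoped ComplexConjugate

/-- Not a pole of the Gamma function. -/
def NP (z : ℂ) : Prop := ∀ m : ℕ, z ≠ -m

theorem NP.of_re {z : ℂ} (h : 0 < z.re) : NP z := fun m e => by
  rw [e] at h; simp at h; linarith [(Nat.cast_nonneg m : (0 : ℝ) ≤ m)]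

theorem NP.of_im {z : ℂ} (h : z.im ≠ 0) : NP z := fun m e => by
  rw [e] at h; simp at h

theorem NP.of_slit {z : ℂ} (h : z ∈ slitPlane) : NP z := h.elim NP.of_re NP.of_im

theorem Good.np {d : ℝ} {z : ℂ} (h : Good d z) (hd : 0 < d) : NP z := h.ne hd

section Diff
variable {E : Type*} [NormedAddCommGroup E] [NormedSpace ℂ E] {n k : E → ℂ} {x : E}

theorem diffAt_Gamma (hn : DifferentiableAt ℂ n x) (h : NP (n x)) :
    DifferentiableAt ℂ (fun y => Gamma (n y)) x :=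
  (differentiableAt_Gamma _ h).comp x hn

theorem diffAt_Gamma_inv (hn : DifferentiableAt ℂ n x) :
    DifferentiableAt ℂ (fun y => (Gamma (n y))⁻¹) x :=
  (differentiable_one_div_Gamma _).comp x hn

theorem diffAt_T0 (r s : ℕ) (hn : DifferentiableAt ℂ n x) (hk : DifferentiableAt ℂ k x)
    (h1 : NP (n x)) (h2 : NP (n x + k x - 1 / 2)) :
    DifferentiableAt ℂ (fun y => T0 r s (n y) (k y)) x :=
  (((diffAt_Gamma hn h1).pow r).mul ((diffAt_Gamma_inv hn).pow s)).mul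
    ((diffAt_Gamma ((hn.add hk).sub_const _) h2).pow s)

theorem diffAt_TT (r s : ℕ) (hn : DifferentiableAt ℂ n x) (hk : DifferentiableAt ℂ k x)
    (h1 : NP (n x)) (h2 : NP (n x + k x - 1 / 2)) :
    DifferentiableAt ℂ (fun y => TT r s (n y) (k y)) x :=
  ((diffAt_T0 r s hn hk h1 h2).mul ((diffAt_Gamma_inv (hk.add_const _)).pow _)).mul
    ((diffAt_Gamma_inv ((hn.sub hk).add_const _)).pow _)

theorem diffAt_TH (r s : ℕ) (hn : DifferentiableAt ℂ n x) (hk : DifferentiableAt ℂ k x)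
    (h1 : NP (n x)) (h2 : NP (n x + k x - 1 / 2)) (h3 : NP (1 / 2 - k x)) :
    DifferentiableAt ℂ (fun y => TH r s (n y) (k y)) x :=
  ((diffAt_T0 r s hn hk h1 h2).mul ((diffAt_Gamma (hk.const_sub _) h3).pow _)).mul
    ((diffAt_Gamma_inv ((hn.sub hk).add_const _)).pow _)

theorem diffAt_TW (r s : ℕ) (hn : DifferentiableAt ℂ n x) (hk : DifferentiableAt ℂ k x)
    (h1 : NP (n x)) (h2 : NP (n x + k x - 1 / 2)) (h3 : NP (k x - n x + 1 / 2)) :
    DifferentiableAt ℂ (fun y => TW r s (n y) (k y)) x :=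
  ((diffAt_T0 r s hn hk h1 h2).mul ((diffAt_Gamma_inv (hk.add_const _)).pow _)).mul
    ((diffAt_Gamma ((hk.sub hn).add_const _) h3).pow _)

end Diff

section Cont
variable {X : Type*} [TopologicalSpace X] {n k : X → ℂ} {x : X}

theorem contAt_TT (r s : ℕ) (hn : ContinuousAt n x) (hk : ContinuousAt k x)
    (h1 : NP (n x)) (h2 : NP (n x + k x - 1 / 2)) :
    ContinuousAt (fun y => TT r s (n y) (k y)) x :=
  ContinuousAt.comp (g := fun p : ℂ × ℂ => TT r s p.1 p.2) (f := fun y => (n y, k y))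
    (diffAt_TT (E := ℂ × ℂ) (n := Prod.fst) (k := Prod.snd) (x := (n x, k x)) r s
      differentiableAt_fst differentiableAt_snd h1 h2).continuousAt (hn.prodMk hk)

theorem contAt_TH (r s : ℕ) (hn : ContinuousAt n x) (hk : ContinuousAt k x)
    (h1 : NP (n x)) (h2 : NP (n x + k x - 1 / 2)) (h3 : NP (1 / 2 - k x)) :
    ContinuousAt (fun y => TH r s (n y) (k y)) x :=
  ContinuousAt.comp (g := fun p : ℂ × ℂ => TH r s p.1 p.2) (f := fun y => (n y, k y))
    (diffAt_TH (E := ℂ × ℂ) (n := Prod.fst) (k := Prod.snd) (x := (n x, k x)) r s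
      differentiableAt_fst differentiableAt_snd h1 h2 h3).continuousAt (hn.prodMk hk)

theorem contAt_TW (r s : ℕ) (hn : ContinuousAt n x) (hk : ContinuousAt k x)
    (h1 : NP (n x)) (h2 : NP (n x + k x - 1 / 2)) (h3 : NP (k x - n x + 1 / 2)) :
    ContinuousAt (fun y => TW r s (n y) (k y)) x :=
  ContinuousAt.comp (g := fun p : ℂ × ℂ => TW r s p.1 p.2) (f := fun y => (n y, k y))
    (diffAt_TW (E := ℂ × ℂ) (n := Prod.fst) (k := Prod.snd) (x := (n x, k x)) r s
      differentiableAt_fst differentiableAt_snd h1 h2 h3).continuousAt (hn.prodMk hk)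

end Cont

theorem conj_half : conj (1 / 2 : ℂ) = 1 / 2 := by
  rw [map_div₀, map_one, show (2 : ℂ) = ((2 : ℝ) : ℂ) by simp, conj_ofReal]

theorem T0_conj (r s : ℕ) (n k : ℂ) : T0 r s (conj n) (conj k) = conj (T0 r s n k) := by
  simp only [T0, map_mul, map_pow, map_inv₀, ← Gamma_conj, map_add, map_sub, conj_half]

theorem TT_conj (r s : ℕ) (n k : ℂ) : TT r s (conj n) (conj k) = conj (TT r s n k) := by
  simp only [TT, T0_conj, map_mul, map_pow, map_inv₀, ← Gamma_conj, map_add, map_sub, conj_half]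

theorem TH_conj (r s : ℕ) (n k : ℂ) : TH r s (conj n) (conj k) = conj (TH r s n k) := by
  simp only [TH, T0_conj, map_mul, map_pow, map_inv₀, ← Gamma_conj, map_add, map_sub, conj_half]

theorem TW_conj (r s : ℕ) (n k : ℂ) : TW r s (conj n) (conj k) = conj (TW r s n k) := by
  simp only [TW, T0_conj, map_mul, map_pow, map_inv₀, ← Gamma_conj, map_add, map_sub, conj_half]

theorem gamma_inv_reflect {k : ℂ} (h : NP (1 / 2 - k)) :
    (Gamma (k + 1 / 2))⁻¹ = Gamma (1 / 2 - k) * (cos (Real.pi * k) / Real.pi) := by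
  have h1 := Gamma_mul_Gamma_one_sub (1 / 2 - k)
  rw [show 1 - (1 / 2 - k) = k + 1 / 2 by ring,
    show (Real.pi : ℂ) * (1 / 2 - k) = Real.pi / 2 - Real.pi * k by ring, sin_pi_div_two_sub] at h1
  have h2 := Gamma_ne_zero h
  have hpi : (Real.pi : ℂ) ≠ 0 := by exact_mod_cast Real.pi_ne_zero
  by_cases hc : cos (Real.pi * k) = 0
  · rw [hc, div_zero] at h1
    rw [(mul_eq_zero.1 h1).resolve_left h2, hc]; simp
  · have h3 : Gamma (k + 1 / 2) ≠ 0 := by
      intro h0; rw [h0, mul_zero] at h1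
      exact div_ne_zero hpi hc h1.symm
    rw [eq_div_iff hc] at h1
    refine (eq_inv_of_mul_eq_one_left ?_).symm
    rw [← mul_div_assoc, div_mul_eq_mul_div, div_eq_one_iff_eq hpi]
    linear_combination h1

theorem cos_pi_eq (k : ℂ) : cos (Real.pi * k) / Real.pi =
    (2 * Real.pi : ℂ)⁻¹ * (exp (-(Real.pi * I * k)) * (1 + exp (2 * Real.pi * I * k))) := by
  have hpi : (Real.pi : ℂ) ≠ 0 := by exact_mod_cast Real.pi_ne_zero
  rw [mul_add, ← exp_add, cos]
  rw [show -(Real.pi * I * k) + 2 * Real.pi * I * k = Real.pi * k * I by ring,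
    show -(Real.pi * I * k) = -(Real.pi * k) * I by ring]
  field_simp
  ring

/-- The pieces at the left end. -/
noncomputable def PP (r s : ℕ) (e : ℝ) (n k : ℂ) : ℂ :=
  ((2 * Real.pi : ℂ)⁻¹) ^ (r + s) * TH r s n k * exp (Real.pi * I * e * k)

/-- The pieces at the right end. -/
noncomputable def QQ (r s : ℕ) (e : ℝ) (n k : ℂ) : ℂ :=
  ((2 * Real.pi : ℂ)⁻¹) ^ r * TW r s n k * exp (Real.pi * I * e * (k - n))

theorem TT_eq_PP (r s : ℕ) (n : ℂ) {k : ℂ} (h : NP (1 / 2 - k)) :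
    TT r s n k = PP r s (-((r + s : ℕ) : ℝ)) n k * (1 + exp (2 * Real.pi * I * k)) ^ (r + s) := by
  simp only [TT, PP, TH]
  rw [gamma_inv_reflect h, cos_pi_eq, mul_pow, mul_pow, mul_pow, ← exp_nat_mul]
  rw [show ((r + s : ℕ) : ℂ) * -(Real.pi * I * k) = Real.pi * I * ((-((r + s : ℕ) : ℝ) : ℝ) : ℂ) * k by
    push_cast; ring]
  ring

theorem TT_eq_QQ (r s : ℕ) {n k : ℂ} (h : NP (k - n + 1 / 2)) :
    TT r s n k = QQ r s (-(r : ℝ)) n k * (1 + exp (2 * Real.pi * I * (k - n))) ^ r := by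
  simp only [TT, QQ, TW]
  have h' : NP (1 / 2 - (n - k)) := by convert h using 1; ring
  rw [gamma_inv_reflect h', show (Real.pi : ℂ) * (n - k) = -(Real.pi * (k - n)) by ring, cos_neg,
    cos_pi_eq, mul_pow, mul_pow, mul_pow, ← exp_nat_mul, show 1 / 2 - (n - k) = k - n + 1 / 2 by ring]
  rw [show (r : ℂ) * -(Real.pi * I * (k - n)) = Real.pi * I * ((-(r : ℝ) : ℝ) : ℂ) * (k - n) by
    push_cast; ring]
  ring

theorem PP_mul_exp (r s : ℕ) (e : ℝ) (n k : ℂ) (j : ℕ) :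
    PP r s e n k * exp (2 * Real.pi * I * k) ^ j = PP r s (e + 2 * j) n k := by
  simp only [PP]
  rw [← exp_nat_mul, mul_assoc, ← exp_add]
  congr 2; push_cast; ring

theorem QQ_mul_exp (r s : ℕ) (e : ℝ) (n k : ℂ) (j : ℕ) :
    QQ r s e n k * exp (2 * Real.pi * I * (k - n)) ^ j = QQ r s (e + 2 * j) n k := by
  simp only [QQ]
  rw [← exp_nat_mul, mul_assoc, ← exp_add]
  congr 2; push_cast; ring

theorem conj_two_pi_inv : conj ((2 * Real.pi : ℂ)⁻¹) = (2 * Real.pi : ℂ)⁻¹ := by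
  rw [show (2 * Real.pi : ℂ)⁻¹ = (((2 * Real.pi)⁻¹ : ℝ) : ℂ) by push_cast; ring, conj_ofReal]

theorem PP_conj (r s : ℕ) (e : ℝ) (n k : ℂ) :
    PP r s (-e) (conj n) (conj k) = conj (PP r s e n k) := by
  simp only [PP, TH_conj]
  rw [map_mul, map_mul, map_pow, conj_two_pi_inv, ← exp_conj]
  simp only [map_mul, conj_ofReal, conj_I]
  congr 2; push_cast; ring

theorem QQ_conj (r s : ℕ) (e : ℝ) (n k : ℂ) :
    QQ r s (-e) (conj n) (conj k) = conj (QQ r s e n k) := by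
  simp only [QQ, TW_conj]
  rw [map_mul, map_mul, map_pow, conj_two_pi_inv, ← exp_conj]
  simp only [map_mul, conj_ofReal, conj_I, map_sub]
  congr 2; push_cast; ring

theorem TT_nat (r s ν j : ℕ) (h : j ≤ ν) :
    TT r s ((ν + 1 : ℕ) : ℂ) (j + 1 / 2) = ((ν.choose j ^ r * (ν + j).choose j ^ s : ℕ) : ℂ) := by
  simp only [TT, T0]
  rw [show ((ν + 1 : ℕ) : ℂ) + (j + 1 / 2) - 1 / 2 = ((ν + j : ℕ) : ℂ) + 1 by push_cast; ring,
    show (j : ℂ) + 1 / 2 + 1 / 2 = j + 1 by ring,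
    show ((ν + 1 : ℕ) : ℂ) - (j + 1 / 2) + 1 / 2 = ((ν - j : ℕ) : ℂ) + 1 by
      push_cast [Nat.cast_sub h]; ring,
    show ((ν + 1 : ℕ) : ℂ) = (ν : ℂ) + 1 by push_cast; ring]
  simp only [Gamma_nat_eq_factorial]
  push_cast
  rw [Nat.cast_choose ℂ h, Nat.cast_choose ℂ (Nat.le_add_left j ν), Nat.add_sub_cancel]
  have h1 : (ν.factorial : ℂ) ≠ 0 := by exact_mod_cast ν.factorial_ne_zero
  have h2 : (j.factorial : ℂ) ≠ 0 := by exact_mod_cast j.factorial_ne_zero
  have h3 : ((ν - j).factorial : ℂ) ≠ 0 := by exact_mod_cast (ν - j).factorial_ne_zero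
  simp only [div_pow, mul_pow, inv_pow, pow_add]
  field_simp

end Pool.Agent.MP_6026f4_co

end

section

namespace Pool.Agent.MP_6026f4_co

open Complex Set

namespace S12

/-- The derivative of `PhiH` in its last argument. -/
noncomputable def DH (r s : ℕ) (n k : ℂ) : ℂ :=
  s * log (n + k) - (r + s) * log (-k) + r * log (n - k)

theorem hasDerivAt_PhiH (r s : ℕ) {n k : ℂ} (h1 : n + k ∈ slitPlane) (h2 : -k ∈ slitPlane)
    (h3 : n - k ∈ slitPlane) : HasDerivAt (PhiH r s n) (DH r s n k) k := by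
  have a1 : HasDerivAt (fun k => LL (n + k)) (log (n + k) * 1) k :=
    (hasDerivAt_LL h1).comp k ((hasDerivAt_id k).const_add n)
  have a2 : HasDerivAt (fun k => LL (-k)) (log (-k) * (-1)) k :=
    (hasDerivAt_LL h2).comp k (hasDerivAt_neg k)
  have a3 : HasDerivAt (fun k => LL (n - k)) (log (n - k) * (-1)) k :=
    (hasDerivAt_LL h3).comp k ((hasDerivAt_id k).const_sub n)
  have h := ((((a1.const_mul (s : ℂ)).const_add ((r - s) * LL n)).add
    (a2.const_mul ((r : ℂ) + s))).sub (a3.const_mul (r : ℂ)))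
  refine (h.congr_deriv ?_).congr_of_eventuallyEq (Filter.Eventually.of_forall fun k => ?_)
  · simp only [DH]; ring
  · simp [PhiH, Phi0]

theorem hasDerivAt_DH (r s : ℕ) {n k : ℂ} (h1 : n + k ∈ slitPlane) (h2 : -k ∈ slitPlane)
    (h3 : n - k ∈ slitPlane) :
    HasDerivAt (DH r s n) (s / (n + k) - (r + s) / k - r / (n - k)) k := by
  have a1 : HasDerivAt (fun k => log (n + k)) ((n + k)⁻¹ * 1) k :=
    (hasDerivAt_log h1).comp k ((hasDerivAt_id k).const_add n)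
  have a2 : HasDerivAt (fun k => log (-k)) ((-k)⁻¹ * (-1)) k :=
    (hasDerivAt_log h2).comp k (hasDerivAt_neg k)
  have a3 : HasDerivAt (fun k => log (n - k)) ((n - k)⁻¹ * (-1)) k :=
    (hasDerivAt_log h3).comp k ((hasDerivAt_id k).const_sub n)
  have h := ((a1.const_mul (s : ℂ)).sub (a2.const_mul ((r : ℂ) + s))).add (a3.const_mul (r : ℂ))
  refine (h.congr_deriv ?_).congr_of_eventuallyEq (Filter.Eventually.of_forall fun k => ?_)
  · rw [inv_neg]; simp only [div_eq_mul_inv]; ring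
  · simp [DH]

theorem line_c {f : ℂ → ℂ} {f' : ℂ} (k0 d : ℂ) (v : ℝ) (h : HasDerivAt f f' (k0 + v * d)) :
    HasDerivAt (fun v : ℝ => f (k0 + v * d)) (f' * d) v := by
  have h1 : HasDerivAt (fun z : ℂ => k0 + z * d) d (v : ℂ) := by
    simpa using ((hasDerivAt_id (v : ℂ)).mul_const d).const_add k0
  exact (h.comp (v : ℂ) h1).comp_ofReal

theorem re_deriv {f : ℝ → ℂ} {f' : ℂ} {v : ℝ} (h : HasDerivAt f f' v) :
    HasDerivAt (fun v => (f v).re) f'.re v :=
  reCLM.hasFDerivAt.comp_hasDerivAt v h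

theorem im_deriv {f : ℝ → ℂ} {f' : ℂ} {v : ℝ} (h : HasDerivAt f f' v) :
    HasDerivAt (fun v => (f v).im) f'.im v :=
  imCLM.hasFDerivAt.comp_hasDerivAt v h

theorem anti_of {f f' : ℝ → ℝ} {a b : ℝ} (hab : a ≤ b)
    (h : ∀ x ∈ Icc a b, HasDerivAt f (f' x) x) (h' : ∀ x ∈ Icc a b, f' x ≤ 0) : f b ≤ f a := by
  have := antitoneOn_of_deriv_nonpos (convex_Icc a b) (f := f)
    (fun x hx => (h x hx).continuousAt.continuousWithinAt)
    (fun x hx => (h x (interior_subset hx)).differentiableAt.differentiableWithinAt)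
    (fun x hx => by rw [(h x (interior_subset hx)).deriv]; exact h' x (interior_subset hx))
  exact this (left_mem_Icc.2 hab) (right_mem_Icc.2 hab) hab

theorem mono_of {f f' : ℝ → ℝ} {a b : ℝ} (hab : a ≤ b)
    (h : ∀ x ∈ Icc a b, HasDerivAt f (f' x) x) (h' : ∀ x ∈ Icc a b, 0 ≤ f' x) : f a ≤ f b := by
  have := anti_of (f := fun x => -f x) (f' := fun x => -f' x) hab (fun x hx => (h x hx).neg)
    (fun x hx => by linarith [h' x hx])
  linarith

theorem arg_pos_re {z : ℂ} (h : 0 < z.re) : arg z = Real.arctan (z.im / z.re) := by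
  have h1 := abs_lt.1 (abs_arg_lt_pi_div_two_iff.2 (Or.inl h))
  rw [← tan_arg, Real.arctan_tan h1.1 h1.2]

theorem arg_neg_re_pos_im {z : ℂ} (h : z.re < 0) (hi : 0 < z.im) :
    arg z = Real.pi - Real.arctan (z.im / (-z.re)) := by
  have h1 := arg_neg_eq_arg_sub_pi_of_im_pos hi
  rw [arg_pos_re (z := -z) (by simpa using h)] at h1
  simp only [neg_im, neg_re, neg_div, Real.arctan_neg] at h1
  linarith

theorem arg_neg_re_neg_im {z : ℂ} (h : z.re < 0) (hi : z.im < 0) :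
    arg z = -Real.pi - Real.arctan (z.im / (-z.re)) := by
  have h1 := arg_neg_eq_arg_add_pi_of_im_neg hi
  rw [arg_pos_re (z := -z) (by simpa using h)] at h1
  simp only [neg_im, neg_re, neg_div, Real.arctan_neg] at h1
  linarith

theorem log_re' (z : ℂ) : (log z).re = Real.log (z.re ^ 2 + z.im ^ 2) / 2 := by
  rw [log_re, show z.re ^ 2 + z.im ^ 2 = ‖z‖ ^ 2 by rw [Complex.sq_norm, normSq_apply]; ring,
    Real.log_pow]
  push_cast; ring

theorem DH_re (r s : ℕ) (n k : ℂ) : (DH r s n k).re =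
    s * (Real.log ((n.re + k.re) ^ 2 + (n.im + k.im) ^ 2) / 2) -
      (r + s) * (Real.log (k.re ^ 2 + k.im ^ 2) / 2) +
      r * (Real.log ((n.re - k.re) ^ 2 + (n.im - k.im) ^ 2) / 2) := by
  simp [DH, log_re']

theorem DH_im (r s : ℕ) (n k : ℂ) : (DH r s n k).im =
    s * arg (n + k) - (r + s) * arg (-k) + r * arg (n - k) := by
  simp [DH, log_im]

theorem arctan_sub_le {a b : ℝ} (h : a ≤ b) : Real.arctan b - Real.arctan a ≤ b - a := by
  have := anti_of (f := fun x => Real.arctan x - x) (f' := fun x => 1 / (1 + x ^ 2) - 1) h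
    (fun x _ => (Real.hasDerivAt_arctan x).sub (hasDerivAt_id x))
    (fun x _ => by
      have : 1 / (1 + x ^ 2) ≤ 1 := by
        rw [div_le_one (by positivity)]; nlinarith
      linarith)
  linarith

theorem arctan_mul_le {c z : ℝ} (hc : 1 ≤ c) (hz : 0 ≤ z) :
    Real.arctan (c * z) ≤ c * Real.arctan z := by
  have := anti_of (f := fun x => Real.arctan (c * x) - c * Real.arctan x)
    (f' := fun x => 1 / (1 + (c * x) ^ 2) * (c * 1) - c * (1 / (1 + x ^ 2))) hz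
    (fun x _ => ((Real.hasDerivAt_arctan (c * x)).comp x ((hasDerivAt_id x).const_mul c)).sub
      ((Real.hasDerivAt_arctan x).const_mul c))
    (fun x _ => by
      have : 1 / (1 + (c * x) ^ 2) ≤ 1 / (1 + x ^ 2) := by
        apply one_div_le_one_div_of_le (by positivity)
        have : 1 ≤ c ^ 2 := by nlinarith
        nlinarith [sq_nonneg x]
      nlinarith)
  simp at this
  linarith

theorem re_LL_I (y : ℝ) : (LL (y * I)).re = -(Real.pi * |y| / 2) := by
  rcases lt_trichotomy y 0 with h | h | h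
  · have : arg (y * I) = -(Real.pi / 2) := arg_eq_neg_pi_div_two_iff.2 ⟨by simp, by simpa⟩
    simp [LL, log_im, this, abs_of_neg h]; ring
  · simp [h, LL]
  · have : arg (y * I) = Real.pi / 2 := arg_eq_pi_div_two_iff.2 ⟨by simp, by simpa⟩
    simp [LL, log_im, this, abs_of_pos h]; ring

theorem re_PhiH_II (r s : ℕ) (a y : ℝ) : (PhiH r s (a * I) (y * I)).re =
    -(Real.pi / 2) * ((r - s) * |a| + s * |a + y| + (r + s) * |y| - r * |a - y|) := by
  have e1 : (a : ℂ) * I + y * I = ((a + y : ℝ) : ℂ) * I := by push_cast; ring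
  have e2 : -((y : ℂ) * I) = ((-y : ℝ) : ℂ) * I := by push_cast; ring
  have e3 : (a : ℂ) * I - y * I = ((a - y : ℝ) : ℂ) * I := by push_cast; ring
  simp only [PhiH, Phi0]
  rw [e1, e2, e3]
  have h1 := re_LL_I a
  have h2 := re_LL_I (a + y)
  have h3 := re_LL_I (-y)
  have h4 := re_LL_I (a - y)
  rw [abs_neg] at h3
  generalize LL ((a : ℂ) * I) = p1 at *
  generalize LL (((a + y : ℝ) : ℂ) * I) = p2 at *
  generalize LL (((-y : ℝ) : ℂ) * I) = p3 at *
  generalize LL (((a - y : ℝ) : ℂ) * I) = p4 at *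
  simp [h1, h2, h3, h4]
  ring

/-- Horizontal motion to the left for `n = I`. -/
theorem horiz_I (r s : ℕ) {q : ℝ} (h1 : q ≠ -1) (h2 : q ≠ 0) (h3 : q ≠ 1) (v : ℝ) :
    HasDerivAt (fun v : ℝ => (PhiH r s I (-v + q * I)).re)
      (-(s * (Real.log (v ^ 2 + (1 + q) ^ 2) / 2) - (r + s) * (Real.log (v ^ 2 + q ^ 2) / 2) +
        r * (Real.log (v ^ 2 + (1 - q) ^ 2) / 2))) v := by
  have h := re_deriv (line_c (q * I) (-1) v (hasDerivAt_PhiH r s (n := I)
    (Or.inr (by simp; intro h; apply h1; linarith)) (Or.inr (by simpa using h2))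
    (Or.inr (by simp; intro h; apply h3; linarith))))
  refine (h.congr_deriv ?_).congr_of_eventuallyEq (Filter.Eventually.of_forall fun k => ?_)
  · simp [DH_re]
  · simp only; congr 2; ring

/-- Vertical motion for `n = I` in the left half plane. -/
theorem vert_I (r s : ℕ) {v : ℝ} (hv : 0 < v) (q : ℝ) (hq : -1 < q) :
    HasDerivAt (fun q : ℝ => (PhiH r s I (-v + q * I)).re)
      (-(s * (Real.pi - Real.arctan ((1 + q) / v)) + (r + s) * Real.arctan (q / v) -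
        r * Real.arctan ((q - 1) / v))) q := by
  have h := re_deriv (line_c (-v) I q (hasDerivAt_PhiH r s (n := I)
    (Or.inr (by simp; linarith)) (Or.inl (by simpa using hv))
    (Or.inl (by simpa using hv))))
  refine h.congr_deriv ?_
  have e1 : arg (I + (-v + q * I)) = Real.pi - Real.arctan ((1 + q) / v) := by
    rw [arg_neg_re_pos_im (by simpa using hv) (by simp; linarith)]; simp
  have e2 : arg (-(-v + q * I)) = -Real.arctan (q / v) := by
    rw [arg_pos_re (by simpa using hv)]; simp [neg_div]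
  have e3 : arg (I - (-v + q * I)) = -Real.arctan ((q - 1) / v) := by
    rw [arg_pos_re (by simpa using hv), ← Real.arctan_neg]; simp [← neg_div]
  rw [mul_I_re, DH_im, e1, e2, e3]
  ring

end S12

open S12 in
theorem special_two (s : ℕ) (hs : 4 ≤ s) :
    (∀ v ∈ Icc (0 : ℝ) 2, (PhiH 2 s I (-v + 5 * I)).re + Real.pi * s * 5 + 2 * Real.pi ≤ 0) ∧
    (∀ w ∈ Icc (-1 / 2 : ℝ) 5, (PhiH 2 s I (-2 + w * I)).re + Real.pi * s * w + 2 * Real.pi ≤ 0) ∧
    (∀ v ∈ Icc (0 : ℝ) 2,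
      (PhiH 2 s I (-v + (-1 / 2) * I)).re + Real.pi * s * (-1 / 2) + 2 * Real.pi ≤ 0) := by
  have hs' : (4 : ℝ) ≤ s := by exact_mod_cast hs
  have p1 : ∀ v ∈ Icc (0 : ℝ) 2,
      (PhiH 2 s I (-v + 5 * I)).re + Real.pi * s * 5 + 2 * Real.pi ≤ 0 := by
    intro v hv
    have h := anti_of hv.1 (fun x _ => horiz_I 2 s (q := 5) (by norm_num) (by norm_num)
      (by norm_num) x) (fun x hx => ?_)
    · have h0 := re_PhiH_II 2 s 1 5
      norm_num at h0 h ⊢
      rw [h0] at h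
      nlinarith
    · have hx2 : x ^ 2 ≤ 4 := by nlinarith [hx.1, hx.2, hv.2]
      have hx0 := sq_nonneg x
      set W := x ^ 2
      have l1 : Real.log (W + 5 ^ 2) ≤ Real.log (W + (1 + 5) ^ 2) :=
        Real.log_le_log (by positivity) (by norm_num)
      have l2 : 3 * Real.log (W + 5 ^ 2) ≤
          2 * Real.log (W + (1 + 5) ^ 2) + Real.log (W + (1 - 5) ^ 2) := by
        have e1 : 3 * Real.log (W + 5 ^ 2) = Real.log ((W + 5 ^ 2) ^ 3) := by
          rw [Real.log_pow]; norm_num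
        have e2 : 2 * Real.log (W + (1 + 5) ^ 2) + Real.log (W + (1 - 5) ^ 2) =
            Real.log ((W + (1 + 5) ^ 2) ^ 2 * (W + (1 - 5) ^ 2)) := by
          rw [Real.log_mul (by positivity) (by positivity), Real.log_pow]; norm_num
        rw [e1, e2]
        apply Real.log_le_log (by positivity)
        nlinarith [mul_nonneg hx0 hx0]
      push_cast
      generalize Real.log (W + 5 ^ 2) = L1 at *
      generalize Real.log (W + (1 + 5) ^ 2) = L2 at *
      generalize Real.log (W + (1 - 5) ^ 2) = L3 at *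
      nlinarith [mul_nonneg (sub_nonneg.2 hs') (sub_nonneg.2 l1)]
  refine ⟨p1, fun w hw => ?_, fun v hv => ?_⟩
  · have h := mono_of (f := fun q : ℝ => (PhiH 2 s I (-(2 : ℝ) + q * I)).re + Real.pi * s * q)
      hw.2 (fun x hx => (vert_I 2 s (v := 2) (by norm_num) x (by linarith [hx.1, hw.1])).add
        ((hasDerivAt_id x).const_mul (Real.pi * s))) (fun x hx => ?_)
    · have := p1 2 (by norm_num)
      push_cast at h this
      linarith
    · have d1 : 0 < 4 + x ^ 2 + x := by nlinarith [sq_nonneg (x + 1 / 2)]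
      have d2 : 0 < 4 + x ^ 2 - x := by nlinarith [sq_nonneg (x - 1 / 2)]
      have a1 : Real.arctan ((1 + x) / 2) - Real.arctan (x / 2) =
          Real.arctan (2 / (4 + x ^ 2 + x)) := by
        rw [sub_eq_add_neg, ← Real.arctan_neg, Real.arctan_add (by nlinarith)]
        congr 1
        rw [div_eq_div_iff (by nlinarith) d1.ne']; ring
      have a2 : Real.arctan (x / 2) - Real.arctan ((x - 1) / 2) =
          Real.arctan (2 / (4 + x ^ 2 - x)) := by
        rw [sub_eq_add_neg, ← Real.arctan_neg, Real.arctan_add (by nlinarith)]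
        congr 1
        rw [div_eq_div_iff (by nlinarith) d2.ne']; ring
      have a3 : Real.arctan (2 / (4 + x ^ 2 - x)) ≤ Real.arctan (2 * (2 / (4 + x ^ 2 + x))) := by
        apply Real.arctan_mono
        rw [← mul_div_assoc, div_le_div_iff₀ d2 d1]
        nlinarith [sq_nonneg (x - 3 / 2)]
      have a4 := arctan_mul_le (c := 2) (z := 2 / (4 + x ^ 2 + x)) (by norm_num) (by positivity)
      have a5 : 0 ≤ Real.arctan (2 / (4 + x ^ 2 + x)) := Real.arctan_nonneg.2 (by positivity)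
      push_cast
      nlinarith
  · have h := anti_of hv.1 (fun x _ => horiz_I 2 s (q := -1 / 2) (by norm_num) (by norm_num)
      (by norm_num) x) (fun x hx => ?_)
    · have h0 := re_PhiH_II 2 s 1 (-1 / 2)
      push_cast at h h0
      rw [one_mul] at h0
      rw [neg_zero, zero_add, h0] at h
      norm_num [abs_of_pos] at h ⊢
      nlinarith [Real.pi_pos]
    · have l1 : Real.log (x ^ 2 + (-1 / 2) ^ 2) ≤ Real.log (x ^ 2 + (1 - -1 / 2) ^ 2) :=
        Real.log_le_log (by positivity) (by norm_num)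
      rw [show (1 + -1 / 2 : ℝ) ^ 2 = (-1 / 2) ^ 2 by norm_num]
      push_cast
      nlinarith

end Pool.Agent.MP_6026f4_co

end
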