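import Pool.Agent.MP_6026f4_co.Defs

section

/- Definitions and intermediate statements for the order of the threshold in Q2. -/

namespace Pool.Agent.MP_6026f4_co.Q

open Complex Metric

/-- Ratio of two consecutive terms of the sum (index counted from the top). -/
noncomputable def qq (r s i : ℕ) (z : ℂ) : ℂ :=
  (z - i) ^ (r + s) / (((i : ℂ) + 1) ^ r * (2 * z - i) ^ s)

/-- The term number `j` divided by the term number zero. -/
noncomputable def tau (r s j : ℕ) (z : ℂ) : ℂ := ∏ i ∈ Finset.range j, qq r s i z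

/-- The truncated normalised sum. -/
noncomputable def sumT (r s J : ℕ) (z : ℂ) : ℂ := ∑ j ∈ Finset.range (J + 1), tau r s j z

/-- A local analytic model of a sequence on a disc around the index `m`. -/
def Model (x : ℕ → ℝ) (m : ℕ) (γ ρ B : ℝ) : Prop :=
  ∃ (h w : ℂ → ℂ) (E : ℕ → ℂ), DifferentiableOn ℂ h (ball (m : ℂ) ρ) ∧
    DifferentiableOn ℂ w (ball (m : ℂ) ρ) ∧ h m ≠ 0 ∧
    (∀ z ∈ ball (m : ℂ) ρ, ‖h z‖ ≤ B * ‖h m‖) ∧ (∀ z ∈ ball (m : ℂ) ρ, ‖w z - γ‖ ≤ γ / 8) ∧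
    (∀ n : ℕ, (n : ℂ) ∈ ball (m : ℂ) ρ → (x n : ℂ) = E n * h n) ∧
    (∀ n : ℕ, (n : ℂ) + 1 ∈ ball (m : ℂ) ρ → E n * E (n + 2) = E (n + 1) ^ 2 * exp (w (n + 1)))

/-- The position of the saddle point. -/
def Lam (r s : ℕ) (l : ℝ) : Prop :=
  0 < l ∧ l * s ≤ 1 / 10 ^ 6 ∧ l ^ r * (2 - l) ^ s = (1 - l) ^ (r + s)

def PowStmt : Prop := ∀ r s : ℕ, 1 ≤ r → 10 ^ 6 * r ^ 2 ≤ s → (10 ^ 6 * s) ^ r ≤ 2 ^ s

def LamStmt : Prop := ∀ r s : ℕ, 1 ≤ r → 10 ^ 6 * r ^ 2 ≤ s → ∃ l, Lam r s l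

def RatU : Prop := ∀ (r s : ℕ) (l : ℝ), 1 ≤ r → r ≤ s → Lam r s l → ∀ (z : ℂ) (i : ℕ), 0 < z.re →
  3 * (i : ℝ) ≤ 4 * z.re → ‖qq r s i z‖ ≤ 1.001 * (l * ‖z‖ / (i + 1)) ^ r

def RatL : Prop := ∀ (r s : ℕ) (l : ℝ), 1 ≤ r → r ≤ s → Lam r s l → ∀ (z : ℂ) (i : ℕ), z ≠ 0 →
  (i : ℝ) ≤ 3 * l * ‖z‖ → 0.999 * (l * ‖z‖ / (i + 1)) ^ r ≤ ‖qq r s i z‖

def TauNat : Prop := ∀ r s n j : ℕ, 1 ≤ r →
  (n.centralBinom : ℂ) ^ s * tau r s j n = ((n.choose j ^ r * (2 * n - j).choose n ^ s : ℕ) : ℂ)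

def SumNat : Prop := ∀ r s n J : ℕ, 1 ≤ r → n ≤ J →
  apery r s n = ∑ j ∈ Finset.range (J + 1), n.choose j ^ r * (2 * n - j).choose n ^ s

def SmallStmt : Prop := ∀ r s n : ℕ, 1 ≤ r → 10 ^ 6 * r ^ 2 ≤ s → 48 * (n + 1) ^ 2 ≤ s →
  3 * (apery r s (n + 1) : ℝ) ^ 2 ≤ apery r s n * apery r s (n + 2)

def RegI : Prop := ∃ B : ℝ, 1 ≤ B ∧ ∀ (r s m : ℕ) (l : ℝ), 1 ≤ r → 10 ^ 8 * r ^ 2 ≤ s → Lam r s l →
  s ≤ 48 * m ^ 2 → l * m ≤ 1000 * r →
  Model (fun n => (apery r s n : ℝ)) m (s / (2 * (m : ℝ) ^ 2)) (m / (1000 * r)) B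

def RegII : Prop := ∃ B : ℝ, 1 ≤ B ∧ ∀ (r s m : ℕ) (l : ℝ), 1 ≤ r → 10 ^ 8 * r ^ 2 ≤ s → Lam r s l →
  1000 * r ≤ l * m →
  Model (fun n => (apery r s n : ℝ)) m (s / (2 * (m : ℝ) ^ 2)) (m / (1000 * r)) B

/-- The term of the sum as a function of two complex variables. -/
noncomputable def tG (r s : ℕ) (z x : ℂ) : ℂ :=
  Gamma (z + 1) ^ r * Gamma (2 * z - x + 1) ^ s /
    (Gamma (z + 1) ^ s * Gamma (x + 1) ^ r * Gamma (z - x + 1) ^ (r + s))

/-- The exponential rate of the term. -/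
noncomputable def phi (r s : ℕ) (μ : ℂ) : ℂ :=
  s * ((2 - μ) * log (2 - μ)) - r * (μ * log μ) - (r + s) * ((1 - μ) * log (1 - μ))

/-- The main term. -/
noncomputable def eMain (r s : ℕ) (l : ℝ) (z : ℂ) : ℂ :=
  exp (z * phi r s l - ((r : ℂ) + s) / 2 * log z)

def KeyEst : Prop := ∀ (r s m : ℕ) (l : ℝ), 1 ≤ r → r ≤ s → Lam r s l → 1000 * r ≤ l * m →
  ∃ c : ℂ, c ≠ 0 ∧ ∀ z w : ℂ, ‖z - m‖ ≤ m / 1000 → ‖w‖ ≤ l * m / 11 →
    ∃ θ : ℂ, tG r s z (l * z + w) = c * eMain r s l z * exp θ ∧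
      ‖θ + w ^ 2 * (r / (2 * l * m))‖ ≤ ‖w‖ ^ 2 * (r / (4 * l * m)) + 2

def TGNat : Prop := ∀ (r s j : ℕ) (z : ℂ), (j : ℝ) < z.re →
  tG r s z j = (Gamma (2 * z + 1) / Gamma (z + 1) ^ 2) ^ s * tau r s j z

def PlanaBd : Prop := ∀ (F : ℂ → ℂ) (x₀ : ℂ) (X v : ℝ) (a N : ℕ), 1000 ≤ v → v ≤ X →
  |x₀.re - X| ≤ X / 1000 → |x₀.im| ≤ v / 1000 → |(a : ℝ) - 0.95 * X| ≤ 1 →
  |(a : ℝ) + N - 1.05 * X| ≤ 1 →
  (∀ x : ℂ, (a : ℝ) - 1 / 2 ≤ x.re → x.re ≤ a + N - 1 / 2 → DifferentiableAt ℂ F x) →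
  (∀ w : ℂ, ‖w‖ ≤ X / 11 →
    ‖F (x₀ + w)‖ ≤ Real.exp (-w.re ^ 2 / (4 * v) + 3 * w.im ^ 2 / (4 * v) + 2)) →
  ‖∑ k ∈ Finset.range N, F (a + k)‖ ≤ 400 * √v

def ALStmt : Prop := ∀ (x : ℕ → ℝ) (m : ℕ) (γ ρ B : ℝ), (∀ n, 0 < x n) → 0 < γ → 1 ≤ B → 0 < ρ →
  ρ ≤ m → 192000 * (B + 1) ^ 2 ≤ γ * ρ ^ 2 → Model x m γ ρ B →
  ∀ k n : ℕ, n + k + 1 = m → 2 ^ k * γ ≤ 24 → 0 < (logConvexOp^[k + 1] x) n ∧
    (3 ≤ 2 ^ k * γ → 3 * (logConvexOp^[k] x) (n + 1) ^ 2 ≤
      (logConvexOp^[k] x) n * (logConvexOp^[k] x) (n + 2))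

def Spread : Prop := ∀ x : ℕ → ℝ, (∀ n, 0 < x n) → (∀ n, 0 ≤ logConvexOp x n) →
  ∀ n h : ℕ, x (n + h) ^ 2 ≤ x n * x (n + 2 * h)

def NegSmall : Prop := ∀ r s : ℕ, 4000 ≤ r → s ≤ 4 * r →
  ∃ n h : ℕ, (apery r s n : ℝ) * apery r s (n + 2 * h) < (apery r s (n + h) : ℝ) ^ 2

/-- The real form of the term number `j`. -/
def tN (r s n j : ℕ) : ℕ := n.choose j ^ r * (2 * n - j).choose n ^ s

def NegWin : Prop := ∀ r s j : ℕ, 4 * r ≤ s → s ≤ j * r → j * r < s + r → 1000 * j ≤ r →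
  ∃ n h : ℕ, 16 * j ≤ n ∧ n ≤ 9 * (j + 1) * h ∧ 20 * h ≤ n ∧
    ∀ n', n ≤ n' → n' ≤ n + 2 * h → apery r s n' ≤ 5 * tN r s n' j

def NegConc : Prop := ∀ r s j n h : ℕ, 1 ≤ j → s ≤ j * r → j ≤ n →
  (tN r s n j : ℝ) * tN r s (n + 2 * h) j ≤
    (tN r s (n + h) j : ℝ) ^ 2 * Real.exp (-(r * j * h ^ 2 / (2 * ((n : ℝ) + 2 * h) ^ 2)))

end Pool.Agent.MP_6026f4_co.Q

end

section

/- The terms of the sum at natural arguments and through the Gamma function. -/

namespace Pool.Agent.MP_6026f4_co.Q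

open Complex Metric

theorem tau_succ_QNat (r s j : ℕ) (z : ℂ) : tau r s (j + 1) z = tau r s j z * qq r s j z := by
  unfold tau
  rw [Finset.prod_range_succ]

theorem tauNat : TauNat := by
  intro r s n j hr
  have hr0 : r ≠ 0 := by omega
  induction j with
  | zero =>
    simp [tau, Nat.centralBinom]
  | succ j ih =>
    rw [tau_succ_QNat, ← mul_assoc, ih]
    rcases lt_trichotomy j n with h | h | h
    · obtain ⟨d, rfl⟩ : ∃ d, n = j + 1 + d := ⟨n - (j + 1), by omega⟩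
      have e1 : 2 * (j + 1 + d) - j = (j + 1 + 2 * d) + 1 := by omega
      have e2 : 2 * (j + 1 + d) - (j + 1) = j + 1 + 2 * d := by omega
      rw [e1, e2]
      have h1 := Nat.choose_succ_right_eq (j + 1 + d) j
      have h2 := Nat.choose_mul_succ_eq (j + 1 + 2 * d) (j + 1 + d)
      have e3 : j + 1 + d - j = d + 1 := by omega
      have e4 : j + 1 + 2 * d + 1 - (j + 1 + d) = d + 1 := by omega
      rw [e3] at h1
      rw [e4] at h2
      have h1' : (((j + 1 + d).choose (j + 1) : ℕ) : ℂ) * ((j : ℂ) + 1) =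
          (((j + 1 + d).choose j : ℕ) : ℂ) * ((d : ℂ) + 1) := by exact_mod_cast h1
      have h2' : (((j + 1 + 2 * d).choose (j + 1 + d) : ℕ) : ℂ) * ((j : ℂ) + 1 + 2 * d + 1) =
          (((j + 1 + 2 * d + 1).choose (j + 1 + d) : ℕ) : ℂ) * ((d : ℂ) + 1) := by
        exact_mod_cast h2
      have n1 : ((j : ℂ) + 1) ≠ 0 := by exact_mod_cast Nat.succ_ne_zero j
      have n2 : ((j : ℂ) + 1 + 2 * d + 1) ≠ 0 := by
        exact_mod_cast Nat.succ_ne_zero (j + 1 + 2 * d)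
      have k1 : (((j + 1 + d).choose (j + 1) : ℕ) : ℂ) =
          (((j + 1 + d).choose j : ℕ) : ℂ) * ((d : ℂ) + 1) / ((j : ℂ) + 1) := by
        rw [eq_div_iff n1, h1']
      have k2 : (((j + 1 + 2 * d).choose (j + 1 + d) : ℕ) : ℂ) =
          (((j + 1 + 2 * d + 1).choose (j + 1 + d) : ℕ) : ℂ) * ((d : ℂ) + 1) /
            ((j : ℂ) + 1 + 2 * d + 1) := by
        rw [eq_div_iff n2, h2']
      have q1 : qq r s j ((j + 1 + d : ℕ) : ℂ) =
          ((d : ℂ) + 1) ^ (r + s) / (((j : ℂ) + 1) ^ r * ((j : ℂ) + 1 + 2 * d + 1) ^ s) := by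
        unfold qq
        have a1 : (((j + 1 + d : ℕ) : ℂ) - j) = (d : ℂ) + 1 := by push_cast; ring
        have a2 : (2 * ((j + 1 + d : ℕ) : ℂ) - j) = (j : ℂ) + 1 + 2 * d + 1 := by push_cast; ring
        rw [a1, a2]
      rw [q1, Nat.cast_mul, Nat.cast_mul, Nat.cast_pow, Nat.cast_pow, Nat.cast_pow, Nat.cast_pow,
        k1, k2, div_pow, div_pow, mul_pow, mul_pow, pow_add]
      have n3 := pow_ne_zero r n1
      have n4 := pow_ne_zero s n2
      field_simp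
    · subst h
      have q1 : qq r s j (j : ℂ) = 0 := by
        unfold qq
        rw [sub_self, zero_pow (by omega), zero_div]
      rw [q1, mul_zero, Nat.choose_succ_self, zero_pow hr0, zero_mul, Nat.cast_zero]
    · rw [Nat.choose_eq_zero_of_lt h, Nat.choose_eq_zero_of_lt (Nat.lt_succ_of_lt h),
        zero_pow hr0, zero_mul, zero_mul, Nat.cast_zero, zero_mul]

theorem sumNat : SumNat := by
  intro r s n J hr hJ
  have hr0 : r ≠ 0 := by omega
  have h1 : ∑ j ∈ Finset.range (J + 1), n.choose j ^ r * (2 * n - j).choose n ^ s =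
      ∑ j ∈ Finset.range (n + 1), n.choose j ^ r * (2 * n - j).choose n ^ s := by
    symm
    apply Finset.sum_subset
    · intro x hx
      rw [Finset.mem_range] at hx ⊢
      omega
    · intro x _ hx
      rw [Finset.mem_range] at hx
      rw [Nat.choose_eq_zero_of_lt (by omega), zero_pow hr0, zero_mul]
  rw [h1]
  unfold apery
  rw [← Finset.sum_flip]
  apply Finset.sum_congr rfl
  intro j hj
  rw [Finset.mem_range] at hj
  have hj' : j ≤ n := by omega
  rw [Nat.choose_symm hj']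
  have e : n + (n - j) = 2 * n - j := by omega
  rw [e, Nat.choose_symm_of_eq_add (n := 2 * n - j) (a := n - j) (b := n) (by omega)]

theorem tgNat : TGNat := by
  intro r s j z
  induction j with
  | zero =>
    intro hz
    have hz' : 0 < z.re := by simpa using hz
    have n1 : Gamma (z + 1) ≠ 0 := Gamma_ne_zero_of_re_pos (by simp; linarith)
    simp only [tG, tau, Finset.range_zero, Finset.prod_empty, Nat.cast_zero, sub_zero, zero_add,
      Gamma_one, one_pow, mul_one]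
    rw [div_pow, pow_add, ← pow_mul, two_mul s, pow_add]
    have n2 := pow_ne_zero r n1
    have n3 := pow_ne_zero s n1
    field_simp
  | succ j ih =>
    intro hz
    have hz1 : (j : ℝ) + 1 < z.re := by exact_mod_cast hz
    have hj0 : (0 : ℝ) ≤ j := Nat.cast_nonneg j
    have ih' := ih (by linarith)
    rw [tau_succ_QNat, ← mul_assoc, ← ih']
    have r1 : 0 < (2 * z - j).re := by simp; linarith
    have r2 : 0 < ((j : ℂ) + 1).re := by simp; linarith
    have r3 : 0 < (z - j).re := by simp; linarith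
    have r4 : 0 < (z + 1).re := by simp; linarith
    have z1 : (2 * z - j) ≠ 0 := fun h => by rw [h] at r1; simp at r1
    have z2 : ((j : ℂ) + 1) ≠ 0 := fun h => by rw [h] at r2; simp at r2
    have z3 : (z - j) ≠ 0 := fun h => by rw [h] at r3; simp at r3
    have g1 := Gamma_ne_zero_of_re_pos r1
    have g2 := Gamma_ne_zero_of_re_pos r2
    have g3 := Gamma_ne_zero_of_re_pos r3
    have g4 := Gamma_ne_zero_of_re_pos r4
    unfold tG qq
    have a1 : 2 * z - ((j + 1 : ℕ) : ℂ) + 1 = 2 * z - j := by push_cast; ring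
    have a2 : ((j + 1 : ℕ) : ℂ) + 1 = ((j : ℂ) + 1) + 1 := by push_cast; ring
    have a3 : z - ((j + 1 : ℕ) : ℂ) + 1 = z - j := by push_cast; ring
    rw [a1, a2, a3, Gamma_add_one _ z1, Gamma_add_one _ z2, Gamma_add_one _ z3]
    simp only [mul_pow, pow_add]
    have p1 := pow_ne_zero s z1
    have p2 := pow_ne_zero r z2
    have p3 := pow_ne_zero r z3
    have p4 := pow_ne_zero s z3
    have p5 := pow_ne_zero r g2
    have p6 := pow_ne_zero r g3
    have p7 := pow_ne_zero s g3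
    have p8 := pow_ne_zero s g4
    generalize (2 * z - j) ^ s = A at *
    generalize Gamma (2 * z - j) ^ s = B at *
    field_simp

end Pool.Agent.MP_6026f4_co.Q

end

section

namespace Pool.Agent.MP_6026f4_co.Q

open Complex Metric

theorem half_QSmall (m j : ℕ) (hj : j ≤ m) :
    2 ^ j * (2 * m - j).choose m ≤ (2 * m).choose m := by
  induction j with
  | zero => simp
  | succ j ih =>
    refine le_trans ?_ (ih (by omega))
    obtain ⟨a, ha⟩ : ∃ a, 2 * m - j = a + 1 := ⟨2 * m - j - 1, by omega⟩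
    have h1 := Nat.choose_mul_succ_eq a m
    rw [show 2 * m - (j + 1) = a by omega, ha, pow_succ, mul_assoc]
    refine Nat.mul_le_mul_left _ (Nat.le_of_mul_le_mul_right ?_ (Nat.succ_pos a))
    calc 2 * a.choose m * (a + 1) = (a + 1).choose m * (2 * (a + 1 - m)) := by
          rw [mul_assoc, h1]
          ring
      _ ≤ _ := Nat.mul_le_mul_left _ (by omega)

theorem upper_QSmall (hS : SumNat) {r s m : ℕ} (hr : 1 ≤ r) (h : 2 * m ^ r ≤ 2 ^ s) :
    (apery r s m : ℝ) ≤ 2 * (m.centralBinom : ℝ) ^ s := by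
  rw [hS r s m m hr le_rfl]
  push_cast
  have key : ∀ j ∈ Finset.range (m + 1),
      (m.choose j : ℝ) ^ r * ((2 * m - j).choose m : ℝ) ^ s ≤
        (m.centralBinom : ℝ) ^ s * (1 / 2) ^ j := by
    intro j hj
    have h1 := half_QSmall m j (Nat.lt_succ_iff.1 (Finset.mem_range.1 hj))
    have h2 : m.choose j ^ r * (2 * m - j).choose m ^ s * 2 ^ j ≤ m.centralBinom ^ s :=
      calc m.choose j ^ r * (2 * m - j).choose m ^ s * 2 ^ j
          ≤ (m ^ j) ^ r * (2 * m - j).choose m ^ s * 2 ^ j := by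
            gcongr
            exact Nat.choose_le_pow m j
        _ = (2 * m ^ r) ^ j * (2 * m - j).choose m ^ s := by
            rw [mul_pow, ← pow_mul, ← pow_mul, mul_comm j r]
            ring
        _ ≤ (2 ^ s) ^ j * (2 * m - j).choose m ^ s := by gcongr
        _ = (2 ^ j * (2 * m - j).choose m) ^ s := by
            rw [mul_pow, ← pow_mul, ← pow_mul, mul_comm j s]
        _ ≤ _ := Nat.pow_le_pow_left h1 s
    have h3 : (m.choose j : ℝ) ^ r * ((2 * m - j).choose m : ℝ) ^ s * 2 ^ j ≤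
        (m.centralBinom : ℝ) ^ s := by exact_mod_cast h2
    rw [one_div, inv_pow, ← div_eq_mul_inv, le_div_iff₀ (by positivity)]
    exact h3
  refine (Finset.sum_le_sum key).trans ?_
  rw [← Finset.mul_sum, mul_comm]
  exact mul_le_mul_of_nonneg_right (sum_geometric_two_le _) (by positivity)

theorem lower_QSmall (hS : SumNat) {r : ℕ} (s k : ℕ) (hr : 1 ≤ r) :
    (k.centralBinom : ℝ) ^ s ≤ apery r s k := by
  have h : k.centralBinom ^ s ≤ apery r s k := by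
    rw [hS r s k k hr le_rfl, Finset.sum_range_succ']
    simp [Nat.centralBinom]
  exact_mod_cast h

theorem conv_QSmall (n : ℕ) :
    ((n + 1).centralBinom : ℝ) ^ 2 * (1 + 1 / (4 * ((n : ℝ) + 1) ^ 2)) ≤
      (n.centralBinom : ℝ) * (n + 2).centralBinom := by
  have h1 : ((n : ℝ) + 1) * (n + 1).centralBinom = 2 * (2 * n + 1) * n.centralBinom := by
    exact_mod_cast Nat.succ_mul_centralBinom_succ n
  have h2 : ((n : ℝ) + 1 + 1) * (n + 2).centralBinom =
      2 * (2 * (n + 1) + 1) * (n + 1).centralBinom := by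
    exact_mod_cast Nat.succ_mul_centralBinom_succ (n + 1)
  have hn : (0 : ℝ) ≤ n := Nat.cast_nonneg n
  have e1 : (n.centralBinom : ℝ) = (n + 1) * (n + 1).centralBinom / (2 * (2 * n + 1)) := by
    rw [h1]
    field_simp
  have e2 : ((n + 2).centralBinom : ℝ) =
      2 * (2 * (n + 1) + 1) * (n + 1).centralBinom / (n + 1 + 1) := by
    rw [← h2]
    field_simp
  have e3 : (n.centralBinom : ℝ) * (n + 2).centralBinom =
      ((n + 1).centralBinom : ℝ) ^ 2 * (1 + 1 / ((n + 2) * (2 * n + 1))) := by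
    rw [e2]
    conv_lhs => rw [e1]
    field_simp
    ring
  rw [e3]
  refine mul_le_mul_of_nonneg_left (add_le_add_right ?_ 1) (by positivity)
  exact one_div_le_one_div_of_le (by positivity) (by nlinarith)

theorem smallStmt (hP : PowStmt) (hS : SumNat) : SmallStmt := by
  intro r s n hr hs hn
  have h1 : 2 * (n + 1) ^ r ≤ 2 ^ s := by
    refine le_trans ?_ (hP r s hr hs)
    have h2 : n + 1 ≤ s := by nlinarith
    have h3 : 2 ≤ (10 ^ 6) ^ r := le_trans (by norm_num) (Nat.le_self_pow (by omega) _)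
    rw [mul_pow]
    exact Nat.mul_le_mul h3 (Nat.pow_le_pow_left h2 r)
  have h2 := upper_QSmall hS hr h1
  have h3 := lower_QSmall hS s n hr
  have h4 := lower_QSmall hS s (n + 2) hr
  have h5 := conv_QSmall n
  have h6 : (13 : ℝ) ≤ (1 + 1 / (4 * ((n : ℝ) + 1) ^ 2)) ^ s := by
    refine le_trans ?_ (one_add_mul_le_pow (le_trans (by norm_num) (by positivity :
      (0 : ℝ) ≤ 1 / (4 * ((n : ℝ) + 1) ^ 2))) s)
    have h7 : (48 : ℝ) * ((n : ℝ) + 1) ^ 2 ≤ s := by exact_mod_cast hn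
    have h8 : (12 : ℝ) ≤ s * (1 / (4 * ((n : ℝ) + 1) ^ 2)) := by
      rw [mul_one_div, le_div_iff₀ (by positivity)]
      linarith
    linarith
  set b : ℝ := ((n + 1).centralBinom : ℝ) with hb
  have hb0 : 0 ≤ b := Nat.cast_nonneg _
  calc 3 * (apery r s (n + 1) : ℝ) ^ 2 ≤ 3 * (2 * b ^ s) ^ 2 := by gcongr
    _ = (b ^ 2) ^ s * 12 := by
        rw [← pow_mul, mul_comm 2 s, pow_mul]
        ring
    _ ≤ (b ^ 2) ^ s * (1 + 1 / (4 * ((n : ℝ) + 1) ^ 2)) ^ s := by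
        gcongr
        linarith
    _ = (b ^ 2 * (1 + 1 / (4 * ((n : ℝ) + 1) ^ 2))) ^ s := by rw [mul_pow]
    _ ≤ ((n.centralBinom : ℝ) * (n + 2).centralBinom) ^ s := by gcongr
    _ = (n.centralBinom : ℝ) ^ s * ((n + 2).centralBinom : ℝ) ^ s := by rw [mul_pow]
    _ ≤ _ := by gcongr

theorem spread : Spread := by
  intro x hx hL n h
  have h1 : ∀ a c : ℕ, x (a + 1) * x (a + c) ≤ x a * x (a + c + 1) := by
    intro a c
    induction c with
    | zero => rw [mul_comm]; exact le_rfl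
    | succ c ih =>
      have h2 := hL (a + c)
      simp only [logConvexOp] at h2
      have p1 := hx (a + c)
      have p2 := hx (a + c + 1)
      have p3 := hx a
      refine le_of_mul_le_mul_right ?_ p1
      calc x (a + 1) * x (a + (c + 1)) * x (a + c)
          = (x (a + 1) * x (a + c)) * x (a + c + 1) := by rw [← add_assoc]; ring
        _ ≤ (x a * x (a + c + 1)) * x (a + c + 1) := by gcongr
        _ = x a * x (a + c + 1) ^ 2 := by ring
        _ ≤ x a * (x (a + c) * x (a + c + 2)) := by gcongr; linarith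
        _ = _ := by rw [show a + (c + 1) + 1 = a + c + 2 by omega]; ring
  have h2 : ∀ d : ℕ, x (n + d) * x (n + h) ≤ x n * x (n + h + d) := by
    intro d
    induction d with
    | zero => simp
    | succ d ih =>
      have h3 := h1 (n + d) h
      have p1 := hx (n + d)
      have p2 := hx (n + h)
      have p3 := hx (n + h + d)
      have p4 := hx (n + d + 1)
      have p5 := hx (n + h + d + 1)
      rw [show n + d + h = n + h + d by omega] at h3
      refine le_of_mul_le_mul_right ?_ (mul_pos p1 p3)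
      calc x (n + (d + 1)) * x (n + h) * (x (n + d) * x (n + h + d))
          = (x (n + d + 1) * x (n + h + d)) * (x (n + d) * x (n + h)) := by
            rw [← add_assoc]; ring
        _ ≤ (x (n + d) * x (n + h + d + 1)) * (x n * x (n + h + d)) :=
            mul_le_mul h3 ih (by positivity) (by positivity)
        _ = _ := by rw [← add_assoc (n + h)]; ring
  have h3 := h2 h
  rw [show n + h + h = n + 2 * h by omega, ← sq] at h3
  exact h3

end Pool.Agent.MP_6026f4_co.Q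

end
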