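import Pool.Agent.Mg.F6026f4p.G9c4e23

namespace Pool.Agent.MP_6026f4_co

open Complex Set

namespace S12

theorem exists_angles (r s e : ℕ) (hr : 1 ≤ r) (he : 1 ≤ e) (hes : e < s) :
    ∃ α ω : ℝ, 0 < α ∧ α < ω ∧ ω < Real.pi ∧ s * α + r * ω = Real.pi * (r + s - e) ∧
      (2 * Real.sin ω) ^ s * (2 * Real.sin α) ^ r = Real.sin (ω - α) ^ (r + s) ∧
      2 * Real.sin ω < Real.sin (ω - α) := by
  have hr' : (1 : ℝ) ≤ r := by exact_mod_cast hr
  have he' : (1 : ℝ) ≤ e := by exact_mod_cast he
  have hes' : (e : ℝ) < s := by exact_mod_cast hes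
  have hpi := Real.pi_pos
  have hs0 : (0 : ℝ) < s := by linarith
  have hr0 : (0 : ℝ) < r := by linarith
  set om : ℝ → ℝ := fun α => (Real.pi * (r + s - e) - s * α) / r with hom
  set lo : ℝ := Real.pi * (s - e) / s with hlo
  set hi : ℝ := Real.pi * (r + s - e) / (r + s) with hhi
  have lo0 : 0 < lo := by rw [hlo]; apply div_pos (mul_pos hpi (by linarith)) hs0
  have lopi : lo < Real.pi := by rw [hlo, div_lt_iff₀ hs0]; nlinarith
  have hi0 : 0 < hi := by rw [hhi]; apply div_pos (mul_pos hpi (by linarith)) (by linarith)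
  have hipi : hi < Real.pi := by rw [hhi, div_lt_iff₀ (by linarith)]; nlinarith
  have lohi : lo < hi := by
    rw [hlo, hhi, div_lt_div_iff₀ hs0 (by linarith)]
    nlinarith [mul_pos hpi (mul_pos hr0 (show (0 : ℝ) < e by linarith))]
  have omlo : om lo = Real.pi := by simp only [hom, hlo]; field_simp; ring
  have omhi : om hi = hi := by simp only [hom, hhi]; field_simp; ring
  set F : ℝ → ℝ := fun α => max
    ((2 * Real.sin (om α)) ^ s * (2 * Real.sin α) ^ r - Real.sin (om α - α) ^ (r + s))
    (2 * Real.sin (om α) - Real.sin (om α - α)) with hF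
  have hc : Continuous F := by simp only [hF, hom]; fun_prop
  have Flo : F lo < 0 := by
    have : 0 < Real.sin lo := Real.sin_pos_of_pos_of_lt_pi lo0 lopi
    simp only [hF, omlo, Real.sin_pi, mul_zero, Real.sin_pi_sub, max_lt_iff]
    rw [zero_pow (by omega)]
    constructor
    · have := pow_pos this (r + s); linarith
    · linarith
  have Fhi : 0 < F hi := by
    have : 0 < Real.sin hi := Real.sin_pos_of_pos_of_lt_pi hi0 hipi
    simp only [hF, omhi, sub_self, Real.sin_zero, lt_max_iff]
    right; linarith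
  obtain ⟨α, hα, h0⟩ := intermediate_value_Ioo lohi.le hc.continuousOn ⟨Flo, Fhi⟩
  have h1 : α < om α := by
    simp only [hom]; rw [lt_div_iff₀ hr0]
    have := hα.2; rw [hhi, lt_div_iff₀ (by linarith)] at this; linarith
  have h2 : om α < Real.pi := by
    simp only [hom]; rw [div_lt_iff₀ hr0]
    have := hα.1; rw [hlo, div_lt_iff₀ hs0] at this; linarith
  have h3 : 0 < α := lo0.trans hα.1
  have sa : 0 < Real.sin α := Real.sin_pos_of_pos_of_lt_pi h3 (h1.trans h2)
  have so : 0 < Real.sin (om α) := Real.sin_pos_of_pos_of_lt_pi (h3.trans h1) h2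
  have sd : 0 < Real.sin (om α - α) := Real.sin_pos_of_pos_of_lt_pi (by linarith) (by linarith)
  have hG := (le_max_left _ _).trans h0.le
  have hg := (le_max_right _ _).trans h0.le
  have hg' : 2 * Real.sin (om α) - Real.sin (om α - α) ≠ 0 := by
    intro hz
    have e1 : 2 * Real.sin (om α) = Real.sin (om α - α) := by linarith
    have e2 : Real.sin (om α - α) < 2 * Real.sin α := by
      have c1 : Real.cos α < 1 := by nlinarith [Real.sin_sq_add_cos_sq α, Real.cos_le_one α]
      have c2 := Real.neg_one_le_cos (om α)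
      have := Real.sin_sub (om α) α
      nlinarith
    rw [e1, add_comm r s, pow_add] at hG
    have := mul_lt_mul_of_pos_left (pow_lt_pow_left₀ e2 sd.le (show r ≠ 0 by omega))
      (pow_pos sd s)
    linarith
  refine ⟨α, om α, h3, h1, h2, by simp only [hom]; field_simp; ring, ?_,
    by have := lt_of_le_of_ne hg hg'; linarith⟩
  rcases max_choice
    ((2 * Real.sin (om α)) ^ s * (2 * Real.sin α) ^ r - Real.sin (om α - α) ^ (r + s))
    (2 * Real.sin (om α) - Real.sin (om α - α)) with h | h
  · have : F α = _ := h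
    linarith
  · have : F α = _ := h
    exact absurd (this.symm.trans h0) hg'

theorem log_eq_of {z w : ℂ} (hz : z = exp w) (h1 : -Real.pi < w.im) (h2 : w.im ≤ Real.pi) :
    log z = w := by rw [hz, log_exp h1 h2]

theorem exists_saddle (r s e : ℕ) (hr : 1 ≤ r) (he : 1 ≤ e) (hes : e < s) :
    ∃ t : ℂ, 0 < t.im ∧ t.re < -1 / 2 ∧ DH r s 1 t = Real.pi * I * e := by
  obtain ⟨α, ω, h1, h2, h3, h4, h5, h6⟩ := exists_angles r s e hr he hes
  have sa : 0 < Real.sin α := Real.sin_pos_of_pos_of_lt_pi h1 (h2.trans h3)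
  have so : 0 < Real.sin ω := Real.sin_pos_of_pos_of_lt_pi (h1.trans h2) h3
  have sd : 0 < Real.sin (ω - α) := Real.sin_pos_of_pos_of_lt_pi (by linarith) (by linarith)
  set ρ : ℝ := 2 * Real.sin ω / Real.sin (ω - α) with hρ
  set σ : ℝ := 2 * Real.sin α / Real.sin (ω - α) with hσ
  have ρ0 : 0 < ρ := by positivity
  have σ0 : 0 < σ := by positivity
  have ρ1 : ρ < 1 := by rw [hρ, div_lt_one sd]; exact h6
  have hprod : s * Real.log ρ + r * Real.log σ = 0 := by
    rw [← Real.log_pow, ← Real.log_pow, ← Real.log_mul (by positivity) (by positivity), hρ, hσ,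
      div_pow, div_pow, div_mul_div_comm, h5, ← pow_add, add_comm s r, div_self (by positivity),
      Real.log_one]
  set u : ℂ := -1 + ρ * exp (-α * I) with hu
  have hu2 : u = 1 + σ * exp (-ω * I) := by
    have c1 : ρ * Real.cos α = 2 + σ * Real.cos ω := by
      rw [hρ, hσ]; field_simp; rw [Real.sin_sub]; ring
    have c2 : ρ * Real.sin α = σ * Real.sin ω := by rw [hρ, hσ]; ring
    apply Complex.ext
    · simp [hu, exp_re, exp_im]; linarith
    · simp [hu, exp_re, exp_im]; linarith
  have uim : u.im < 0 := by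
    simp [hu, exp_re, exp_im]; positivity
  have u0 : u ≠ 0 := by intro h; rw [h] at uim; simp at uim
  have tim : 0 < (u⁻¹).im := by
    rw [inv_im]; apply div_pos (by linarith) (normSq_pos.2 u0)
  set t := u⁻¹ with ht
  have t0 : t ≠ 0 := inv_ne_zero u0
  have tu : t * u = 1 := inv_mul_cancel₀ u0
  have e1 : 1 + t = t * (ρ * exp (-α * I)) := by rw [hu] at tu; linear_combination -tu
  have e2 : 1 - t = t * (σ * exp (-ω * I)) := by rw [hu2] at tu; linear_combination -tu
  have a0 : 0 < arg t := lt_of_le_of_ne (arg_nonneg_iff.2 tim.le) (by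
    intro h; have := (arg_eq_zero_iff.1 h.symm).2; linarith)
  have a1 : arg t < Real.pi := arg_lt_pi_iff.2 (Or.inr tim.ne')
  have l1 : log (1 + t) = log t + Real.log ρ - α * I := by
    apply log_eq_of
    · rw [e1, sub_eq_add_neg, exp_add, exp_add, exp_log t0, ← ofReal_exp, Real.exp_log ρ0]
      ring_nf
    · simp [log_im]; linarith
    · simp [log_im]; linarith
  have l2 : log (1 - t) = log t + Real.log σ - ω * I := by
    apply log_eq_of
    · rw [e2, sub_eq_add_neg, exp_add, exp_add, exp_log t0, ← ofReal_exp, Real.exp_log σ0]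
      ring_nf
    · simp [log_im]; linarith
    · simp [log_im]; linarith
  have l3 : log (-t) = log t - Real.pi * I := by
    apply log_eq_of
    · rw [exp_sub, exp_log t0, exp_pi_mul_I]; ring
    · simp [log_im]; linarith
    · simp [log_im]; linarith [Real.pi_pos]
  refine ⟨t, tim, ?_, ?_⟩
  · have n1 : ‖1 + t‖ = ‖t‖ * ρ := by
      rw [e1, norm_mul, norm_mul, show -(α : ℂ) * I = ((-α : ℝ) : ℂ) * I by push_cast; ring,
        norm_exp_ofReal_mul_I, norm_real, Real.norm_of_nonneg ρ0.le, mul_one]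
    have n0 : 0 < ‖t‖ := norm_pos_iff.2 t0
    have n2 : ‖1 + t‖ ^ 2 < ‖t‖ ^ 2 := by
      apply pow_lt_pow_left₀ _ (norm_nonneg _) two_ne_zero
      rw [n1]; nlinarith
    rw [Complex.sq_norm, Complex.sq_norm, normSq_apply, normSq_apply] at n2
    simp at n2
    nlinarith
  · have h4' : (s : ℂ) * α + r * ω = Real.pi * (r + s - e) := by exact_mod_cast h4
    have hp : (s : ℂ) * Real.log ρ + r * Real.log σ = 0 := by exact_mod_cast hprod
    simp only [DH]
    rw [l1, l2, l3]
    linear_combination hp - I * h4'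

theorem neg_one_lt_re (r s e : ℕ) (hr : r = 1 ∨ r = 2) (hs : r + 1 ≤ s) (her : e + r ≤ s) {t : ℂ}
    (hy : 0 < t.im) (h : DH r s 1 t = Real.pi * I * e) : -1 < t.re := by
  by_contra hx
  push Not at hx
  have hre := congrArg re h
  have him := congrArg im h
  rw [DH_re] at hre
  rw [DH_im] at him
  simp at hre him
  set x := t.re with hxd
  set y := t.im with hyd
  have hA : Real.pi / 2 ≤ arg (1 + t) := by
    by_contra hc
    push Not at hc
    rcases arg_lt_pi_div_two_iff.1 hc with h1 | h1 | h1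
    · simp at h1; linarith
    · simp at h1; linarith
    · have := congrArg im h1; simp at this; linarith
  have hB : arg (-t) = -Real.arctan (y / (-x)) := by
    rw [arg_pos_re (by simp; linarith), ← Real.arctan_neg]; simp [neg_div, hxd, hyd]
  have hC : arg (1 - t) = -Real.arctan (y / (1 - x)) := by
    rw [arg_pos_re (by simp; linarith), ← Real.arctan_neg]; simp [neg_div, hxd, hyd]
  have hBC : Real.arctan (y / (1 - x)) < Real.arctan (y / (-x)) := by
    apply Real.arctan_strictMono
    apply div_lt_div_of_pos_left hy (by linarith) (by linarith)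
  have hC0 : 0 < Real.arctan (y / (1 - x)) := Real.arctan_pos.2 (div_pos hy (by linarith))
  rw [hB, hC] at him
  set B := Real.arctan (y / (-x)) with hBd
  set C := Real.arctan (y / (1 - x))
  have hpi := Real.pi_pos
  have hr0 : (0 : ℝ) < r := by rcases hr with h | h <;> simp [h]
  have hs0 : (0 : ℝ) < s := by exact_mod_cast (by omega : 0 < s)
  have h2e : s < 2 * e := by
    have : (s : ℝ) < 2 * e := by
      have k1 := mul_le_mul_of_nonneg_left hA hs0.le
      have k2 := mul_pos hr0 (sub_pos.2 hBC)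
      have k3 := mul_pos hs0 (hC0.trans hBC)
      have : Real.pi * s < Real.pi * (2 * e) := by nlinarith
      exact lt_of_mul_lt_mul_left this hpi.le
    exact_mod_cast this
  have o0 : 0 < x ^ 2 + y ^ 2 := by positivity
  have p0 : 0 < (1 + x) ^ 2 + y ^ 2 := by positivity
  have q0 : 0 < (1 - x) ^ 2 + y ^ 2 := by positivity
  have key : (r : ℝ) + s + 2 * x * (s - r) ≤ 0 → False := by
    intro hk
    have l1 : Real.log ((1 + x) ^ 2 + y ^ 2) - Real.log (x ^ 2 + y ^ 2) ≤
        (1 + 2 * x) / (x ^ 2 + y ^ 2) := by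
      rw [← Real.log_div p0.ne' o0.ne']
      refine (Real.log_le_sub_one_of_pos (by positivity)).trans (le_of_eq ?_)
      field_simp; ring
    have l2 : Real.log ((1 - x) ^ 2 + y ^ 2) - Real.log (x ^ 2 + y ^ 2) <
        (1 - 2 * x) / (x ^ 2 + y ^ 2) := by
      rw [← Real.log_div q0.ne' o0.ne']
      refine (Real.log_lt_sub_one_of_pos (by positivity) ?_).trans_le (le_of_eq ?_)
      · rw [Ne, div_eq_one_iff_eq o0.ne']; intro h; nlinarith
      · field_simp; ring
    have k1 := mul_le_mul_of_nonneg_left l1 hs0.le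
    have k2 := mul_lt_mul_of_pos_left l2 hr0
    have k3 : s * ((1 + 2 * x) / (x ^ 2 + y ^ 2)) + r * ((1 - 2 * x) / (x ^ 2 + y ^ 2)) ≤ 0 := by
      rw [← mul_div_assoc, ← mul_div_assoc, ← add_div]
      apply div_nonpos_of_nonpos_of_nonneg _ o0.le
      linarith
    generalize Real.log ((1 + x) ^ 2 + y ^ 2) = L1 at *
    generalize Real.log ((1 - x) ^ 2 + y ^ 2) = L2 at *
    generalize Real.log (x ^ 2 + y ^ 2) = L3 at *
    generalize (1 + 2 * x) / (x ^ 2 + y ^ 2) = m1 at *
    generalize (1 - 2 * x) / (x ^ 2 + y ^ 2) = m2 at *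
    nlinarith
  by_cases h3 : 3 * r ≤ s
  · apply key
    have h3' : (3 : ℝ) * r ≤ s := by exact_mod_cast h3
    nlinarith
  obtain ⟨rfl, rfl, rfl⟩ : r = 2 ∧ s = 5 ∧ e = 3 := by omega
  by_cases h7 : x ≤ -7 / 6
  · apply key; push_cast; linarith
  push Not at h7
  push_cast at him hre
  have hB6 : B < Real.arctan (1 / √3) := by
    rw [← Real.tan_pi_div_six, Real.arctan_tan (by linarith) (by linarith)]
    linarith
  have hyx : y / (-x) < 1 / √3 := Real.arctan_lt_arctan_iff.1 hB6
  have hy2 : y ^ 2 < x ^ 2 / 3 := by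
    have h1 : (y / (-x)) ^ 2 < (1 / √3) ^ 2 :=
      pow_lt_pow_left₀ hyx (div_pos hy (by linarith)).le two_ne_zero
    rw [div_pow, div_pow, Real.sq_sqrt (by norm_num), div_lt_div_iff₀ (by nlinarith)
      (by norm_num)] at h1
    nlinarith
  have hx2 : x ^ 2 ≤ 49 / 36 := by nlinarith
  have b1 : Real.log ((1 + x) ^ 2 + y ^ 2) ≤ Real.log (1 / 2) :=
    Real.log_le_log p0 (by nlinarith)
  have b2 : Real.log ((1 - x) ^ 2 + y ^ 2) ≤ Real.log (11 / 2) :=
    Real.log_le_log q0 (by nlinarith)
  have b3 : 0 ≤ Real.log (x ^ 2 + y ^ 2) := Real.log_nonneg (by nlinarith)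
  have b4 : 5 * Real.log (1 / 2) + 2 * Real.log (11 / 2) < 0 := by
    have : 5 * Real.log (1 / 2) + 2 * Real.log (11 / 2) = Real.log ((1 / 2) ^ 5 * (11 / 2) ^ 2) := by
      rw [Real.log_mul (by positivity) (by positivity), Real.log_pow, Real.log_pow]; norm_num
    rw [this]
    exact Real.log_neg (by positivity) (by norm_num)
  linarith

end S12

end Pool.Agent.MP_6026f4_co
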