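import Pool.Agent.Mg.F6026f4p.Gb4facf

section

namespace Pool.Agent.MP_6026f4_co.Q

open Complex Metric

def bin_QNegS (n k : ℕ) : ℕ := n.descFactorial k / k.factorial

def u_QNegS (n p i : ℕ) : ℕ := bin_QNegS n i ^ 4 * bin_QNegS (2 * n - i) n ^ p

def mx_QNegS (n p : ℕ) : ℕ → ℕ
  | 0 => 0
  | m + 1 => max (u_QNegS n p m) (mx_QNegS n p m)

def chk_QNegS (p c h j : ℕ) : Bool :=
  Nat.ble (1008 * (mx_QNegS (c - h) p (c - h + 1) * mx_QNegS (c + h) p (c + h + 1)))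
    (1000 * u_QNegS c p j ^ 2)

theorem u_eq_QNegS (n p i : ℕ) : u_QNegS n p i = n.choose i ^ 4 * (2 * n - i).choose n ^ p := by
  simp only [u_QNegS, bin_QNegS, Nat.choose_eq_descFactorial_div_factorial]

theorem le_mx_QNegS (n p i m : ℕ) (h : i < m) : u_QNegS n p i ≤ mx_QNegS n p m := by
  induction m with
  | zero => omega
  | succ m ih =>
    rw [mx_QNegS]
    rcases Nat.lt_succ_iff_lt_or_eq.1 h with h1 | h1
    · exact (ih h1).trans (le_max_right _ _)
    · rw [h1]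
      exact le_max_left _ _

theorem chk_le_QNegS {p c h j : ℕ} (hc : chk_QNegS p c h j = true) {i k : ℕ} (hi : i < c - h + 1)
    (hk : k < c + h + 1) :
    1008 * (u_QNegS (c - h) p i * u_QNegS (c + h) p k) ≤ 1000 * u_QNegS c p j ^ 2 :=
  (Nat.mul_le_mul_left _ (Nat.mul_le_mul (le_mx_QNegS _ _ _ _ hi) (le_mx_QNegS _ _ _ _ hk))).trans
    (Nat.le_of_ble_eq_true hc)

theorem gen_QNegS (A B : ℝ) (p1 p2 r s : ℕ) (hA : 0 ≤ A) (hB : 0 ≤ B)
    (h1 : 1.008 * (A ^ 4 * B ^ p1) ≤ 1) (h2 : 1.008 * (A ^ 4 * B ^ p2) ≤ 1)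
    (hp1 : p1 * r ≤ 4 * s) (hp2 : 4 * s ≤ p2 * r) (hr : 4000 ≤ r) :
    2200 * (A ^ r * B ^ s) ≤ 1 := by
  have key : ∃ p : ℕ, 1.008 * (A ^ 4 * B ^ p) ≤ 1 ∧ B ^ (4 * s) ≤ B ^ (p * r) := by
    rcases le_total B 1 with h | h
    · exact ⟨p1, h1, pow_le_pow_of_le_one hB h hp1⟩
    · exact ⟨p2, h2, pow_le_pow_right₀ h hp2⟩
  obtain ⟨p, k1, k2⟩ := key
  have a1 : (2.2 : ℝ) ≤ 1.008 ^ 100 := by norm_num
  have a2 : (2200 : ℝ) ≤ 1.008 ^ 1000 := by
    calc (2200 : ℝ) ≤ 2.2 ^ 10 := by norm_num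
      _ ≤ (1.008 ^ 100) ^ 10 := pow_le_pow_left₀ (by norm_num) a1 10
      _ = 1.008 ^ 1000 := by rw [← pow_mul]
  have a3 : (2200 : ℝ) ^ 4 ≤ 1.008 ^ r := by
    calc (2200 : ℝ) ^ 4 ≤ (1.008 ^ 1000) ^ 4 := pow_le_pow_left₀ (by norm_num) a2 4
      _ = 1.008 ^ 4000 := by rw [← pow_mul]
      _ ≤ 1.008 ^ r := pow_le_pow_right₀ (by norm_num) hr
  have a4 : (2200 * (A ^ r * B ^ s)) ^ 4 ≤ 1 := by
    calc (2200 * (A ^ r * B ^ s)) ^ 4 = 2200 ^ 4 * ((A ^ 4) ^ r * B ^ (4 * s)) := by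
          rw [mul_pow, mul_pow, ← pow_mul, ← pow_mul, ← pow_mul, mul_comm r 4, mul_comm s 4]
      _ ≤ 1.008 ^ r * ((A ^ 4) ^ r * B ^ (p * r)) :=
          mul_le_mul a3 (mul_le_mul_of_nonneg_left k2 (by positivity)) (by positivity)
            (by positivity)
      _ = (1.008 * (A ^ 4 * B ^ p)) ^ r := by rw [mul_pow, mul_pow, pow_mul]
      _ ≤ 1 := pow_le_one₀ (by positivity) k1
  exact (pow_le_one_iff_of_nonneg (by positivity) (by norm_num)).1 a4

theorem gen2_QNegS (X Y X0 Y0 p1 p2 r s : ℕ) (hX : 0 < X0) (hY : 0 < Y0)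
    (h1 : 1008 * (X ^ 4 * Y ^ p1) ≤ 1000 * (X0 ^ 4 * Y0 ^ p1))
    (h2 : 1008 * (X ^ 4 * Y ^ p2) ≤ 1000 * (X0 ^ 4 * Y0 ^ p2))
    (hp1 : p1 * r ≤ 4 * s) (hp2 : 4 * s ≤ p2 * r) (hr : 4000 ≤ r) :
    2200 * (X ^ r * Y ^ s) ≤ X0 ^ r * Y0 ^ s := by
  have hX' : (0 : ℝ) < X0 := Nat.cast_pos.2 hX
  have hY' : (0 : ℝ) < Y0 := Nat.cast_pos.2 hY
  have aux : ∀ p : ℕ, 1008 * (X ^ 4 * Y ^ p) ≤ 1000 * (X0 ^ 4 * Y0 ^ p) →
      1.008 * (((X : ℝ) / X0) ^ 4 * ((Y : ℝ) / Y0) ^ p) ≤ 1 := by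
    intro p hp
    have hp' : (1008 : ℝ) * (X ^ 4 * Y ^ p) ≤ 1000 * (X0 ^ 4 * Y0 ^ p) := by exact_mod_cast hp
    rw [div_pow, div_pow, div_mul_div_comm, ← mul_div_assoc, div_le_one (by positivity)]
    linarith
  have h := gen_QNegS ((X : ℝ) / X0) ((Y : ℝ) / Y0) p1 p2 r s (by positivity) (by positivity)
    (aux p1 h1) (aux p2 h2) hp1 hp2 hr
  rw [div_pow, div_pow, div_mul_div_comm, ← mul_div_assoc, div_le_one (by positivity)] at h
  exact_mod_cast h

theorem row_QNegS (hS : SumNat) (p1 p2 c h j r s : ℕ) (hh : h ≤ c) (hj : j ≤ c)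
    (hn : (c - h + 1) * (c + h + 1) < 2200) (c1 : chk_QNegS p1 c h j = true)
    (c2 : chk_QNegS p2 c h j = true) (hp1 : p1 * r ≤ 4 * s) (hp2 : 4 * s ≤ p2 * r)
    (hr : 4000 ≤ r) :
    ∃ n h : ℕ, (apery r s n : ℝ) * apery r s (n + 2 * h) < (apery r s (n + h) : ℝ) ^ 2 := by
  refine ⟨c - h, h, ?_⟩
  have e1 : c - h + 2 * h = c + h := by omega
  have e2 : c - h + h = c := by omega
  rw [e1, e2]
  have hr1 : 1 ≤ r := by omega
  have hX : 0 < c.choose j := Nat.choose_pos hj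
  have hY : 0 < (2 * c - j).choose c := Nat.choose_pos (by omega)
  have hT : c.choose j ^ r * (2 * c - j).choose c ^ s ≤ apery r s c := by
    rw [hS r s c c hr1 le_rfl]
    exact Finset.single_le_sum (f := fun j => c.choose j ^ r * (2 * c - j).choose c ^ s)
      (fun _ _ => Nat.zero_le _) (Finset.mem_range.2 (by omega))
  have hT0 : 0 < c.choose j ^ r * (2 * c - j).choose c ^ s := by positivity
  have hterm : ∀ i ∈ Finset.range (c - h + 1), ∀ k ∈ Finset.range (c + h + 1),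
      2200 * (((c - h).choose i ^ r * (2 * (c - h) - i).choose (c - h) ^ s) *
        ((c + h).choose k ^ r * (2 * (c + h) - k).choose (c + h) ^ s)) ≤
      (c.choose j ^ r * (2 * c - j).choose c ^ s) ^ 2 := by
    intro i hi k hk
    rw [Finset.mem_range] at hi hk
    have aux : ∀ p : ℕ, chk_QNegS p c h j = true →
        1008 * (((c - h).choose i * (c + h).choose k) ^ 4 *
          ((2 * (c - h) - i).choose (c - h) * (2 * (c + h) - k).choose (c + h)) ^ p) ≤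
        1000 * ((c.choose j ^ 2) ^ 4 * ((2 * c - j).choose c ^ 2) ^ p) := by
      intro p hp
      have := chk_le_QNegS hp hi hk
      rw [u_eq_QNegS, u_eq_QNegS, u_eq_QNegS] at this
      refine le_of_eq_of_le ?_ (this.trans_eq ?_)
      · rw [mul_pow, mul_pow]
        ring
      · ring
    have := gen2_QNegS _ _ _ _ p1 p2 r s (by positivity) (by positivity) (aux p1 c1) (aux p2 c2)
      hp1 hp2 hr
    refine le_of_eq_of_le ?_ (this.trans_eq ?_)
    · rw [mul_pow, mul_pow]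
      ring
    · ring
  have hsum : 2200 * (apery r s (c - h) * apery r s (c + h)) ≤
      (c - h + 1) * (c + h + 1) * (c.choose j ^ r * (2 * c - j).choose c ^ s) ^ 2 := by
    rw [hS r s (c - h) (c - h) hr1 le_rfl, hS r s (c + h) (c + h) hr1 le_rfl,
      Finset.sum_mul_sum, Finset.mul_sum]
    refine (Finset.sum_le_card_nsmul _ _
      ((c + h + 1) * (c.choose j ^ r * (2 * c - j).choose c ^ s) ^ 2) ?_).trans_eq ?_
    · intro i hi
      rw [Finset.mul_sum]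
      refine (Finset.sum_le_card_nsmul _ _ _ (hterm i hi)).trans_eq ?_
      rw [Finset.card_range, smul_eq_mul]
    · rw [Finset.card_range, smul_eq_mul, mul_assoc]
  have hlt : apery r s (c - h) * apery r s (c + h) < apery r s c ^ 2 := by
    have b1 := Nat.mul_lt_mul_of_pos_right hn (pow_pos hT0 2)
    have b2 := Nat.pow_le_pow_left hT 2
    omega
  exact_mod_cast hlt

theorem negSmall (hS : SumNat) : NegSmall := by
  intro r s hr hs
  by_cases h1 : 4 * s ≤ 1 * r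
  · exact row_QNegS hS 0 1 2 1 1 r s (by norm_num) (by norm_num) (by norm_num)
      (by decide +kernel) (by decide +kernel) (by omega) h1 hr
  by_cases h2 : 4 * s ≤ 2 * r
  · exact row_QNegS hS 1 2 5 1 2 r s (by norm_num) (by norm_num) (by norm_num)
      (by decide +kernel) (by decide +kernel) (by omega) h2 hr
  by_cases h3 : 4 * s ≤ 4 * r
  · exact row_QNegS hS 2 4 3 1 1 r s (by norm_num) (by norm_num) (by norm_num)
      (by decide +kernel) (by decide +kernel) (by omega) h3 hr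
  by_cases h4 : 4 * s ≤ 6 * r
  · exact row_QNegS hS 4 6 4 1 1 r s (by norm_num) (by norm_num) (by norm_num)
      (by decide +kernel) (by decide +kernel) (by omega) h4 hr
  by_cases h5 : 4 * s ≤ 8 * r
  · exact row_QNegS hS 6 8 5 1 1 r s (by norm_num) (by norm_num) (by norm_num)
      (by decide +kernel) (by decide +kernel) (by omega) h5 hr
  by_cases h6 : 4 * s ≤ 9 * r
  · exact row_QNegS hS 8 9 13 1 2 r s (by norm_num) (by norm_num) (by norm_num)
      (by decide +kernel) (by decide +kernel) (by omega) h6 hr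
  by_cases h7 : 4 * s ≤ 11 * r
  · exact row_QNegS hS 9 11 17 1 2 r s (by norm_num) (by norm_num) (by norm_num)
      (by decide +kernel) (by decide +kernel) (by omega) h7 hr
  by_cases h8 : 4 * s ≤ 12 * r
  · exact row_QNegS hS 11 12 20 1 2 r s (by norm_num) (by norm_num) (by norm_num)
      (by decide +kernel) (by decide +kernel) (by omega) h8 hr
  by_cases h9 : 4 * s ≤ 13 * r
  · exact row_QNegS hS 12 13 24 2 2 r s (by norm_num) (by norm_num) (by norm_num)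
      (by decide +kernel) (by decide +kernel) (by omega) h9 hr
  by_cases h10 : 4 * s ≤ 14 * r
  · exact row_QNegS hS 13 14 28 2 2 r s (by norm_num) (by norm_num) (by norm_num)
      (by decide +kernel) (by decide +kernel) (by omega) h10 hr
  by_cases h11 : 4 * s ≤ 15 * r
  · exact row_QNegS hS 14 15 33 3 2 r s (by norm_num) (by norm_num) (by norm_num)
      (by decide +kernel) (by decide +kernel) (by omega) h11 hr
  · exact row_QNegS hS 15 16 40 5 2 r s (by norm_num) (by norm_num) (by norm_num)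
      (by decide +kernel) (by decide +kernel) (by omega) (by omega) hr

end Pool.Agent.MP_6026f4_co.Q

end

section

namespace Pool.Agent.MP_6026f4_co.Q

open Complex Metric

noncomputable def Q_QNegW (r s i n : ℕ) : ℝ :=
  (((n : ℝ) - i) / ((i : ℝ) + 1)) ^ r * (((n : ℝ) - i) / (2 * (n : ℝ) - i)) ^ s

lemma sum_QNegW (t : ℕ → ℝ) (ht : ∀ i, 0 ≤ t i) (a J : ℕ) (hJ : a + 1 ≤ J)
    (h1 : t a ≤ t (a + 1)) (h2 : t (a + 2) ≤ t (a + 1))
    (h3 : ∀ i, i < a → 2 * t i ≤ t (i + 1))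
    (h4 : ∀ i, a + 2 ≤ i → 2 * t (i + 1) ≤ t i) :
    ∑ i ∈ Finset.range (J + 1), t i ≤ 5 * t (a + 1) := by
  have hd : ∀ b, b ≤ a → ∑ i ∈ Finset.range (b + 1), t i ≤ 2 * t b := by
    intro b
    induction b with
    | zero => intro _; simp; linarith [ht 0]
    | succ b ih =>
      intro hb
      rw [Finset.sum_range_succ]
      have := ih (by omega)
      have := h3 b (by omega)
      linarith
  have hu : ∀ e, ∑ i ∈ Finset.range (a + 2 + e), t i + 2 * t (a + 2 + e) ≤ 5 * t (a + 1) := by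
    intro e
    induction e with
    | zero =>
      have := hd a le_rfl
      rw [Nat.add_zero, Finset.sum_range_succ]
      linarith
    | succ e ih =>
      have h5 := h4 (a + 2 + e) (by omega)
      rw [← Nat.add_assoc, Finset.sum_range_succ]
      linarith
  obtain ⟨e, he⟩ : ∃ e, J + 1 = a + 2 + e := ⟨J + 1 - (a + 2), by omega⟩
  rw [he]
  have := hu e
  have := ht (a + 2 + e)
  linarith

lemma step_QNegW (r s i n : ℕ) (h : i < n) :
    (tN r s n (i + 1) : ℝ) = tN r s n i * Q_QNegW r s i n := by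
  obtain ⟨c, rfl⟩ : ∃ c, n = i + 1 + c := ⟨n - (i + 1), by omega⟩
  have e1 : (i + 1 + c).choose (i + 1) * (i + 1) = (i + 1 + c).choose i * (c + 1) := by
    rw [Nat.choose_succ_right_eq]
    congr 1
    omega
  have e2 : (i + 1 + 2 * c).choose (i + 1 + c) * (i + 1 + 2 * c + 1) =
      (i + 1 + 2 * c + 1).choose (i + 1 + c) * (c + 1) := by
    rw [Nat.choose_mul_succ_eq]
    congr 1
    omega
  have a1 : 2 * (i + 1 + c) - (i + 1) = i + 1 + 2 * c := by omega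
  have a2 : 2 * (i + 1 + c) - i = i + 1 + 2 * c + 1 := by omega
  unfold tN Q_QNegW
  rw [a1, a2]
  have f1 : (((i + 1 + c).choose (i + 1) : ℕ) : ℝ) =
      ((i + 1 + c).choose i : ℕ) * ((((i + 1 + c : ℕ) : ℝ) - i) / ((i : ℝ) + 1)) := by
    have : (((i + 1 + c).choose (i + 1) : ℕ) : ℝ) * ((i : ℝ) + 1) =
        ((i + 1 + c).choose i : ℕ) * ((c : ℝ) + 1) := by exact_mod_cast e1
    have hp : (0 : ℝ) < (i : ℝ) + 1 := by positivity
    rw [← mul_div_assoc, eq_div_iff hp.ne', this]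
    push_cast
    ring
  have f2 : (((i + 1 + 2 * c).choose (i + 1 + c) : ℕ) : ℝ) =
      ((i + 1 + 2 * c + 1).choose (i + 1 + c) : ℕ) *
        ((((i + 1 + c : ℕ) : ℝ) - i) / (2 * ((i + 1 + c : ℕ) : ℝ) - i)) := by
    have : (((i + 1 + 2 * c).choose (i + 1 + c) : ℕ) : ℝ) * ((i : ℝ) + 1 + 2 * c + 1) =
        ((i + 1 + 2 * c + 1).choose (i + 1 + c) : ℕ) * ((c : ℝ) + 1) := by exact_mod_cast e2
    have hq : 2 * ((i + 1 + c : ℕ) : ℝ) - i = (i : ℝ) + 1 + 2 * c + 1 := by push_cast; ring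
    have hp : (0 : ℝ) < (i : ℝ) + 1 + 2 * c + 1 := by positivity
    rw [hq, ← mul_div_assoc, eq_div_iff hp.ne', this]
    push_cast
    ring
  rw [Nat.cast_mul, Nat.cast_mul, Nat.cast_pow, Nat.cast_pow, Nat.cast_pow, Nat.cast_pow, f1, f2,
    mul_pow, mul_pow]
  ring

lemma zero_QNegW (r s i n : ℕ) (hr : 1 ≤ r) (h : n < i) : tN r s n i = 0 := by
  unfold tN
  rw [Nat.choose_eq_zero_of_lt h, zero_pow (by omega), zero_mul]

lemma nonneg_QNegW (r s i n : ℕ) (h : i ≤ n) : 0 ≤ Q_QNegW r s i n := by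
  have h' : (i : ℝ) ≤ n := by exact_mod_cast h
  have h0 : (0 : ℝ) ≤ n := by positivity
  unfold Q_QNegW
  have : (0 : ℝ) ≤ (n : ℝ) - i := by linarith
  have : (0 : ℝ) ≤ 2 * (n : ℝ) - i := by linarith
  positivity

lemma dec_QNegW (r s i n : ℕ) (h : i + 1 ≤ n) :
    Q_QNegW r s (i + 1) n ≤ Q_QNegW r s i n * (((i : ℝ) + 1) / ((i : ℝ) + 2)) ^ r := by
  have h' : (i : ℝ) + 1 ≤ n := by exact_mod_cast h
  have h0 : (0 : ℝ) ≤ i := by positivity
  unfold Q_QNegW
  push_cast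
  have p1 : (0 : ℝ) ≤ (n : ℝ) - (i + 1) := by linarith
  have p2 : (0 : ℝ) < 2 * (n : ℝ) - (i + 1) := by linarith
  have p3 : (0 : ℝ) < 2 * (n : ℝ) - i := by linarith
  have b1 : ((n : ℝ) - (i + 1)) / ((i : ℝ) + 1 + 1) ≤
      ((n : ℝ) - i) / ((i : ℝ) + 1) * (((i : ℝ) + 1) / ((i : ℝ) + 2)) := by
    have : ((n : ℝ) - i) / ((i : ℝ) + 1) * (((i : ℝ) + 1) / ((i : ℝ) + 2)) =
        ((n : ℝ) - i) / ((i : ℝ) + 1 + 1) := by
      field_simp
      ring
    rw [this]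
    gcongr
    linarith
  have b2 : ((n : ℝ) - (i + 1)) / (2 * (n : ℝ) - (i + 1)) ≤ ((n : ℝ) - i) / (2 * (n : ℝ) - i) := by
    rw [div_le_div_iff₀ p2 p3]
    nlinarith
  calc (((n : ℝ) - (i + 1)) / ((i : ℝ) + 1 + 1)) ^ r *
        (((n : ℝ) - (i + 1)) / (2 * (n : ℝ) - (i + 1))) ^ s
      ≤ (((n : ℝ) - i) / ((i : ℝ) + 1) * (((i : ℝ) + 1) / ((i : ℝ) + 2))) ^ r *
        (((n : ℝ) - i) / (2 * (n : ℝ) - i)) ^ s := by
        have q1 : (0 : ℝ) ≤ ((n : ℝ) - (i + 1)) / ((i : ℝ) + 1 + 1) := by positivity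
        have q2 : (0 : ℝ) ≤ ((n : ℝ) - (i + 1)) / (2 * (n : ℝ) - (i + 1)) := by positivity
        exact mul_le_mul (pow_le_pow_left₀ q1 b1 r) (pow_le_pow_left₀ q2 b2 s)
          (pow_nonneg q2 s) (pow_nonneg (q1.trans b1) r)
    _ = _ := by rw [mul_pow]; ring

lemma dec1_QNegW (r s i n : ℕ) (h : i + 1 ≤ n) : Q_QNegW r s (i + 1) n ≤ Q_QNegW r s i n := by
  refine (dec_QNegW r s i n h).trans ?_
  have h0 : (0 : ℝ) ≤ i := by positivity
  have h1 : (((i : ℝ) + 1) / ((i : ℝ) + 2)) ^ r ≤ 1 := by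
    apply pow_le_one₀ (by positivity)
    rw [div_le_one (by positivity)]
    linarith
  exact mul_le_of_le_one_right (nonneg_QNegW r s i n (by omega)) h1

lemma anti_QNegW (r s n i e : ℕ) (h : i + e ≤ n) : Q_QNegW r s (i + e) n ≤ Q_QNegW r s i n := by
  induction e with
  | zero => exact le_rfl
  | succ e ih =>
    exact (dec1_QNegW r s (i + e) n (by omega)).trans (ih (by omega))

lemma fac_QNegW (r i : ℕ) :
    (((i : ℝ) + 1) / ((i : ℝ) + 2)) ^ r ≤ Real.exp (-((r : ℝ) / ((i : ℝ) + 2))) := by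
  have h0 : (0 : ℝ) ≤ i := by positivity
  have h1 : ((i : ℝ) + 1) / ((i : ℝ) + 2) ≤ Real.exp (-(1 / ((i : ℝ) + 2))) := by
    have := Real.add_one_le_exp (-(1 / ((i : ℝ) + 2)))
    have e : ((i : ℝ) + 1) / ((i : ℝ) + 2) = -(1 / ((i : ℝ) + 2)) + 1 := by
      field_simp
      ring
    rw [e]
    exact this
  refine (pow_le_pow_left₀ (by positivity) h1 r).trans (le_of_eq ?_)
  rw [← Real.exp_nat_mul]
  congr 1
  ring

lemma half_QNegW (r i : ℕ) (h : i + 2 ≤ r) : (((i : ℝ) + 1) / ((i : ℝ) + 2)) ^ r ≤ 1 / 2 := by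
  refine (fac_QNegW r i).trans ?_
  have h' : (i : ℝ) + 2 ≤ r := by exact_mod_cast h
  have h0 : (0 : ℝ) ≤ i := by positivity
  have h1 : (1 : ℝ) ≤ (r : ℝ) / ((i : ℝ) + 2) := by
    rw [le_div_iff₀ (by positivity)]
    linarith
  have h2 := Real.add_one_le_exp ((r : ℝ) / ((i : ℝ) + 2))
  rw [Real.exp_neg, inv_eq_one_div]
  apply one_div_le_one_div_of_le (by norm_num)
  linarith

lemma mono_QNegW (r s i n n' : ℕ) (h : i < n) (h2 : n ≤ n') :
    Q_QNegW r s i n ≤ Q_QNegW r s i n' := by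
  have h' : (i : ℝ) < n := by exact_mod_cast h
  have h2' : (n : ℝ) ≤ n' := by exact_mod_cast h2
  have h0 : (0 : ℝ) ≤ i := by positivity
  unfold Q_QNegW
  have p1 : (0 : ℝ) ≤ (n : ℝ) - i := by linarith
  have p2 : (0 : ℝ) < 2 * (n : ℝ) - i := by linarith
  have p3 : (0 : ℝ) < 2 * (n' : ℝ) - i := by linarith
  have b1 : ((n : ℝ) - i) / ((i : ℝ) + 1) ≤ ((n' : ℝ) - i) / ((i : ℝ) + 1) := by gcongr
  have b2 : ((n : ℝ) - i) / (2 * (n : ℝ) - i) ≤ ((n' : ℝ) - i) / (2 * (n' : ℝ) - i) := by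
    rw [div_le_div_iff₀ p2 p3]
    nlinarith
  have q1 : (0 : ℝ) ≤ ((n : ℝ) - i) / ((i : ℝ) + 1) := by positivity
  have q2 : (0 : ℝ) ≤ ((n : ℝ) - i) / (2 * (n : ℝ) - i) := by positivity
  exact mul_le_mul (pow_le_pow_left₀ q1 b1 r) (pow_le_pow_left₀ q2 b2 s)
    (pow_nonneg q2 s) (pow_nonneg (q1.trans b1) r)

lemma grow_QNegW (r s j m d : ℕ) (hj : 1 ≤ j) (hs : s ≤ j * r) (h1 : 15 * j ≤ m)
    (h2 : 3 * j ^ 2 + j ≤ 2 * m) :
    Q_QNegW r s j (m + d) ≤ Q_QNegW r s j m * Real.exp (2 * r * d / m) := by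
  have hj' : (1 : ℝ) ≤ j := by exact_mod_cast hj
  have hs' : (s : ℝ) ≤ j * r := by exact_mod_cast hs
  have h1' : 15 * (j : ℝ) ≤ m := by exact_mod_cast h1
  have h2' : 3 * (j : ℝ) ^ 2 + j ≤ 2 * m := by exact_mod_cast h2
  have hd : (0 : ℝ) ≤ d := by positivity
  have hr : (0 : ℝ) ≤ r := by positivity
  have hs0 : (0 : ℝ) ≤ s := by positivity
  have p0 : (0 : ℝ) < m := by linarith
  have p1 : (0 : ℝ) < (m : ℝ) - j := by linarith
  have p2 : (0 : ℝ) < 2 * (m : ℝ) - j := by linarith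
  have p3 : (0 : ℝ) < 2 * ((m : ℝ) + d) - j := by linarith
  unfold Q_QNegW
  push_cast
  set u : ℝ := d / ((m : ℝ) - j) with hu
  have hu0 : 0 ≤ u := by positivity
  set v : ℝ := u * j / (2 * (m : ℝ) - j) with hv
  have hv0 : 0 ≤ v := by positivity
  have b1 : ((m : ℝ) + d - j) / ((j : ℝ) + 1) ≤ ((m : ℝ) - j) / ((j : ℝ) + 1) * Real.exp u := by
    have e : ((m : ℝ) + d - j) / ((j : ℝ) + 1) = ((m : ℝ) - j) / ((j : ℝ) + 1) * (u + 1) := by
      rw [hu]
      field_simp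
      ring
    rw [e]
    exact mul_le_mul_of_nonneg_left (Real.add_one_le_exp u) (by positivity)
  have b2 : ((m : ℝ) + d - j) / (2 * ((m : ℝ) + d) - j) ≤
      ((m : ℝ) - j) / (2 * (m : ℝ) - j) * Real.exp v := by
    have e : ((m : ℝ) + d - j) / (2 * ((m : ℝ) + d) - j) =
        ((m : ℝ) - j) / (2 * (m : ℝ) - j) * (u * j / (2 * ((m : ℝ) + d) - j) + 1) := by
      have hud : u * ((m : ℝ) - j) = d := by rw [hu]; exact div_mul_cancel₀ _ p1.ne'
      rw [div_add_one p3.ne', div_mul_div_comm, div_eq_div_iff p3.ne' (mul_pos p2 p3).ne']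
      linear_combination (-(j : ℝ) * (2 * ((m : ℝ) + d) - j)) * hud
    rw [e]
    refine mul_le_mul_of_nonneg_left (le_trans ?_ (Real.add_one_le_exp v)) (by positivity)
    rw [hv]
    gcongr
    linarith
  have q1 : (0 : ℝ) ≤ ((m : ℝ) + d - j) / ((j : ℝ) + 1) := by
    apply div_nonneg <;> linarith
  have q2 : (0 : ℝ) ≤ ((m : ℝ) + d - j) / (2 * ((m : ℝ) + d) - j) := by
    apply div_nonneg <;> linarith
  have hex : (r : ℝ) * u + s * v ≤ 2 * r * d / m := by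
    have c1 : (j : ℝ) * v ≤ u / 3 := by
      rw [hv, ← mul_div_assoc, div_le_div_iff₀ p2 (by norm_num)]
      nlinarith
    have c2 : (s : ℝ) * v ≤ r * (u / 3) := by
      calc (s : ℝ) * v ≤ j * r * v := mul_le_mul_of_nonneg_right hs' hv0
        _ = r * (j * v) := by ring
        _ ≤ r * (u / 3) := mul_le_mul_of_nonneg_left c1 hr
    have c3 : u ≤ 3 / 2 * (d / m) := by
      rw [hu, ← mul_div_assoc, div_le_div_iff₀ p1 p0]
      nlinarith
    have c4 : (r : ℝ) * u ≤ r * (3 / 2 * (d / m)) := mul_le_mul_of_nonneg_left c3 hr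
    have e : 2 * (r : ℝ) * d / m = 2 * (r * (d / m)) := by ring
    rw [e]
    nlinarith
  calc (((m : ℝ) + d - j) / ((j : ℝ) + 1)) ^ r * (((m : ℝ) + d - j) / (2 * ((m : ℝ) + d) - j)) ^ s
      ≤ (((m : ℝ) - j) / ((j : ℝ) + 1) * Real.exp u) ^ r *
        (((m : ℝ) - j) / (2 * (m : ℝ) - j) * Real.exp v) ^ s :=
        mul_le_mul (pow_le_pow_left₀ q1 b1 r) (pow_le_pow_left₀ q2 b2 s)
          (pow_nonneg q2 s) (pow_nonneg (q1.trans b1) r)
    _ = (((m : ℝ) - j) / ((j : ℝ) + 1)) ^ r * (((m : ℝ) - j) / (2 * (m : ℝ) - j)) ^ s *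
        Real.exp (r * u + s * v) := by
        rw [mul_pow, mul_pow, Real.exp_add, Real.exp_nat_mul, Real.exp_nat_mul]
        ring
    _ ≤ _ := mul_le_mul_of_nonneg_left (Real.exp_le_exp.2 hex) (by positivity)

lemma ex_QNegW (r s a : ℕ) (hr : 1 ≤ r) : ∃ n, a + 1 ≤ n ∧ 1 ≤ Q_QNegW r s a n := by
  have h3 : 1 ≤ 3 ^ s := Nat.one_le_pow _ _ (by norm_num)
  have h4 : a + 1 ≤ (a + 1) * 3 ^ s := Nat.le_mul_of_pos_right _ h3
  refine ⟨a + (a + 1) * 3 ^ s, by omega, ?_⟩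
  unfold Q_QNegW
  push_cast
  have h0 : (0 : ℝ) ≤ a := by positivity
  have h3' : (1 : ℝ) ≤ 3 ^ s := by exact_mod_cast h3
  have h4' : (a : ℝ) + 1 ≤ (a + 1) * 3 ^ s := by exact_mod_cast h4
  have e1 : ((a : ℝ) + (a + 1) * 3 ^ s - a) / (a + 1) = 3 ^ s := by
    field_simp
    ring
  have b2 : (1 : ℝ) / 3 ≤ ((a : ℝ) + (a + 1) * 3 ^ s - a) / (2 * (a + (a + 1) * 3 ^ s) - a) := by
    rw [div_le_div_iff₀ (by norm_num) (by linarith)]
    linarith
  rw [e1]
  have b1 : (3 : ℝ) ^ s ≤ (3 ^ s) ^ r := le_self_pow₀ h3' (by omega)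
  calc (1 : ℝ) = 3 ^ s * (1 / 3) ^ s := by rw [← mul_pow]; norm_num
    _ ≤ _ := mul_le_mul b1 (pow_le_pow_left₀ (by norm_num) b2 s) (by positivity) (by positivity)

lemma low_QNegW (r s a n k : ℕ) (hr : 1 ≤ r) (h : a + 1 ≤ n) (h1 : 1 ≤ Q_QNegW r s a n)
    (hk : k * r ≤ s) : 2 ^ k * (a + 1) ≤ n := by
  have h' : (a : ℝ) + 1 ≤ n := by exact_mod_cast h
  have h0 : (0 : ℝ) ≤ a := by positivity
  unfold Q_QNegW at h1
  have p1 : (0 : ℝ) ≤ (n : ℝ) - a := by linarith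
  have p2 : (0 : ℝ) < 2 * (n : ℝ) - a := by linarith
  have b1 : ((n : ℝ) - a) / ((a : ℝ) + 1) ≤ (n : ℝ) / ((a : ℝ) + 1) := by
    gcongr
    linarith
  have b2 : ((n : ℝ) - a) / (2 * (n : ℝ) - a) ≤ 1 / 2 := by
    rw [div_le_div_iff₀ p2 (by norm_num)]
    linarith
  have q1 : (0 : ℝ) ≤ ((n : ℝ) - a) / ((a : ℝ) + 1) := by positivity
  have q2 : (0 : ℝ) ≤ ((n : ℝ) - a) / (2 * (n : ℝ) - a) := by positivity
  have b3 : ((1 : ℝ) / 2) ^ s ≤ (1 / 2) ^ (k * r) :=
    pow_le_pow_of_le_one (by norm_num) (by norm_num) hk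
  have h2 : (1 : ℝ) ≤ ((n : ℝ) / ((a : ℝ) + 1) * (1 / 2) ^ k) ^ r := by
    refine h1.trans ?_
    rw [mul_pow, ← pow_mul]
    exact mul_le_mul (pow_le_pow_left₀ q1 b1 r) ((pow_le_pow_left₀ q2 b2 s).trans b3)
      (pow_nonneg q2 s) (by positivity)
  have h3 : (1 : ℝ) ≤ (n : ℝ) / ((a : ℝ) + 1) * (1 / 2) ^ k :=
    (one_le_pow_iff_of_nonneg (by positivity) (by omega)).1 h2
  have h4 : (2 : ℝ) ^ k * ((a : ℝ) + 1) ≤ n := by
    rw [one_div, inv_pow, ← div_eq_mul_inv, div_div, le_div_iff₀ (by positivity)] at h3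
    linarith
  exact_mod_cast h4

lemma win_QNegW (hS : SumNat) (r s a n : ℕ) (hr : a + 3 ≤ r) (hn : a + 2 ≤ n)
    (h1 : 1 ≤ Q_QNegW r s a n) (h2 : Q_QNegW r s (a + 1) n ≤ 1) :
    apery r s n ≤ 5 * tN r s n (a + 1) := by
  have key := sum_QNegW (fun i => (tN r s n i : ℝ)) (fun i => by positivity) a n (by omega)
    (by
      show (tN r s n a : ℝ) ≤ tN r s n (a + 1)
      rw [step_QNegW r s a n (by omega)]
      exact le_mul_of_one_le_right (by positivity) h1)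
    (by
      show (tN r s n (a + 1 + 1) : ℝ) ≤ tN r s n (a + 1)
      rw [step_QNegW r s (a + 1) n (by omega)]
      exact mul_le_of_le_one_right (by positivity) h2)
    (by
      intro i hi
      show 2 * (tN r s n i : ℝ) ≤ tN r s n (i + 1)
      rw [step_QNegW r s i n (by omega), mul_comm]
      refine mul_le_mul_of_nonneg_left ?_ (by positivity)
      obtain ⟨e, rfl⟩ : ∃ e, a = i + 1 + e := ⟨a - (i + 1), by omega⟩
      have c1 := anti_QNegW r s n (i + 1) e (by omega)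
      have c2 := dec_QNegW r s i n (by omega)
      have c3 := half_QNegW r i (by omega)
      have c4 := mul_le_mul_of_nonneg_left c3 (nonneg_QNegW r s i n (by omega))
      linarith)
    (by
      intro i hi
      show 2 * (tN r s n (i + 1) : ℝ) ≤ tN r s n i
      by_cases hin : i < n
      · rw [step_QNegW r s i n hin]
        obtain ⟨e, rfl⟩ : ∃ e, i = a + 1 + 1 + e := ⟨i - (a + 2), by omega⟩
        have c1 := anti_QNegW r s n (a + 1 + 1) e (by omega)
        have c2 := dec_QNegW r s (a + 1) n (by omega)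
        have c3 := half_QNegW r (a + 1) (by omega)
        have c4 := mul_le_mul_of_nonneg_left c3 (nonneg_QNegW r s (a + 1) n (by omega))
        have c5 : Q_QNegW r s (a + 1 + 1 + e) n ≤ 1 / 2 := by linarith
        have c6 := mul_le_mul_of_nonneg_left c5
          (show (0 : ℝ) ≤ (tN r s n (a + 1 + 1 + e) : ℝ) by positivity)
        linarith
      · rw [zero_QNegW r s (i + 1) n (by omega) (by omega)]
        simp)
  rw [hS r s n n (by omega) le_rfl]
  have : ((∑ j ∈ Finset.range (n + 1), n.choose j ^ r * (2 * n - j).choose n ^ s : ℕ) : ℝ) ≤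
      ((5 * tN r s n (a + 1) : ℕ) : ℝ) := by
    rw [Nat.cast_sum, Nat.cast_mul]
    exact key
  exact_mod_cast this

lemma pow_QNegW (a : ℕ) (h : 3 ≤ a) : 2 * (a + 1) ≤ 2 ^ a := by
  induction a, h using Nat.le_induction with
  | base => norm_num
  | succ a _ ih => rw [pow_succ]; omega

theorem negWin (hS : SumNat) : NegWin := by
  classical
  intro r s j h1 h2 h3 h4
  have hr : 1 ≤ r := by
    rcases Nat.eq_zero_or_pos r with h | h
    · subst h
      simp at h2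
      subst h2
      simp at h3
    · exact h
  have hj : 4 ≤ j := by
    by_contra hc
    have : j * r ≤ 3 * r := Nat.mul_le_mul_right r (by omega)
    omega
  obtain ⟨a, rfl⟩ : ∃ a, j = a + 1 := ⟨j - 1, by omega⟩
  have hex := ex_QNegW r s a hr
  obtain ⟨hn1, hn2⟩ := Nat.find_spec hex
  have l1 := low_QNegW r s a _ 4 hr hn1 hn2 h1
  have l2 := low_QNegW r s a _ a hr hn1 hn2 (by
    have : (a + 1) * r = a * r + r := by ring
    omega)
  have l3 : 2 * (a + 1) * (a + 1) ≤ 2 ^ a * (a + 1) :=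
    Nat.mul_le_mul_right _ (pow_QNegW a (by omega))
  obtain ⟨m, hm⟩ : ∃ m, Nat.find hex = m + 1 := ⟨Nat.find hex - 1, by omega⟩
  have hmin := Nat.find_min hex (show m < Nat.find hex by omega)
  rw [hm] at hn1 hn2 l1 l2
  have hlt : Q_QNegW r s a m < 1 := by
    by_contra hc
    exact hmin ⟨by omega, not_lt.1 hc⟩
  obtain ⟨k, hk⟩ : ∃ k, k = m / (2 * (a + 2)) := ⟨_, rfl⟩
  have k1 : k * (2 * (a + 2)) ≤ m := by rw [hk]; exact Nat.div_mul_le_self _ _
  have k2 : m < (k + 1) * (2 * (a + 2)) := by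
    rw [hk]
    exact (Nat.div_lt_iff_lt_mul (by omega)).1 (Nat.lt_succ_self _)
  have k3 : 5 ≤ k := by
    rw [hk, Nat.le_div_iff_mul_le (by omega)]
    omega
  obtain ⟨h, hh1, hh2⟩ : ∃ h, 2 * h + 1 ≤ k ∧ k ≤ 2 * h + 2 := ⟨(k - 1) / 2, by omega, by omega⟩
  have k4 : (2 * h + 1) * (2 * (a + 2)) ≤ m := (Nat.mul_le_mul_right _ hh1).trans k1
  refine ⟨m + 1, h, by omega, ?_, ?_, ?_⟩
  · have c1 : (k + 1) * (2 * (a + 2)) ≤ (2 * h + 3) * (2 * (a + 2)) :=
      Nat.mul_le_mul_right _ (by omega)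
    have c2 : (4 * h + 6) * (a + 2) ≤ (9 * h) * (a + 2) := Nat.mul_le_mul_right _ (by omega)
    have c3 : (2 * h + 3) * (2 * (a + 2)) = (4 * h + 6) * (a + 2) := by ring
    have c4 : 9 * (a + 1 + 1) * h = (9 * h) * (a + 2) := by ring
    omega
  · have c1 : (2 * h + 1) * 10 ≤ (2 * h + 1) * (2 * (a + 2)) := Nat.mul_le_mul_left _ (by omega)
    omega
  · intro n' hn' hn''
    refine win_QNegW hS r s a n' (by omega) (by omega)
      (hn2.trans (mono_QNegW r s a (m + 1) n' (by omega) hn')) ?_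
    obtain ⟨d, rfl⟩ : ∃ d, n' = m + d := ⟨n' - m, by omega⟩
    have g1 := grow_QNegW r s (a + 1) m d (by omega) h2 (by omega) (by nlinarith)
    have g2 := dec_QNegW r s a m (by omega)
    have g3 := fac_QNegW r a
    have g4 : Q_QNegW r s (a + 1) m ≤ Real.exp (-((r : ℝ) / ((a : ℝ) + 2))) := by
      refine g2.trans (le_trans ?_ g3)
      exact mul_le_of_le_one_left (by positivity) hlt.le
    have g5 : d * (2 * (a + 2)) ≤ m := (Nat.mul_le_mul_right _ (by omega)).trans k4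
    have g6 : (d : ℝ) * (2 * ((a : ℝ) + 2)) ≤ m := by exact_mod_cast g5
    have hm0 : (0 : ℝ) < m := by exact_mod_cast (show 0 < m by omega)
    have g7 : 2 * (r : ℝ) * d / m ≤ (r : ℝ) / ((a : ℝ) + 2) := by
      rw [div_le_div_iff₀ hm0 (by positivity)]
      have hr0 : (0 : ℝ) ≤ r := by positivity
      nlinarith [mul_le_mul_of_nonneg_left g6 hr0]
    refine g1.trans ?_
    calc Q_QNegW r s (a + 1) m * Real.exp (2 * r * d / m)
        ≤ Real.exp (-((r : ℝ) / ((a : ℝ) + 2))) * Real.exp ((r : ℝ) / ((a : ℝ) + 2)) :=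
          mul_le_mul g4 (Real.exp_le_exp.2 g7) (Real.exp_pos _).le (Real.exp_pos _).le
      _ = 1 := by rw [← Real.exp_add]; simp

end Pool.Agent.MP_6026f4_co.Q

end

section

namespace Pool.Agent.MP_6026f4_co.Q

open Complex Metric

lemma recC_QNegC (j d : ℕ) :
    (((j + d).choose j : ℕ) : ℝ) * (j + d + 1) = ((j + d + 1).choose j : ℕ) * (d + 1) := by
  have h := Nat.choose_mul_succ_eq (j + d) j
  have e : j + d + 1 - j = d + 1 := by omega
  rw [e] at h
  exact_mod_cast h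

lemma recD_QNegC (j d : ℕ) :
    (((j + 2 * d + 2).choose (j + d + 1) : ℕ) : ℝ) * ((j + d + 1) * (d + 1)) =
      ((j + 2 * d).choose (j + d) : ℕ) * ((j + 2 * d + 2) * (j + 2 * d + 1)) := by
  have h1 := Nat.choose_mul_succ_eq (j + 2 * d) (j + d)
  have e : j + 2 * d + 1 - (j + d) = d + 1 := by omega
  rw [e] at h1
  have h2 := Nat.add_one_mul_choose_eq (j + 2 * d + 1) (j + d)
  have h1' : (((j + 2 * d).choose (j + d) : ℕ) : ℝ) * (j + 2 * d + 1) =
      ((j + 2 * d + 1).choose (j + d) : ℕ) * (d + 1) := by exact_mod_cast h1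
  have h2' : ((j : ℝ) + 2 * d + 2) * ((j + 2 * d + 1).choose (j + d) : ℕ) =
      ((j + 2 * d + 2).choose (j + d + 1) : ℕ) * (j + d + 1) := by
    have : j + 2 * d + 1 + 1 = j + 2 * d + 2 := rfl
    rw [this] at h2
    exact_mod_cast h2
  calc (((j + 2 * d + 2).choose (j + d + 1) : ℕ) : ℝ) * ((j + d + 1) * (d + 1))
      = (((j + 2 * d + 2).choose (j + d + 1) : ℕ) * ((j : ℝ) + d + 1)) * (d + 1) := by ring
    _ = (((j : ℝ) + 2 * d + 2) * ((j + 2 * d + 1).choose (j + d) : ℕ)) * (d + 1) := by rw [h2']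
    _ = ((j : ℝ) + 2 * d + 2) * (((j + 2 * d + 1).choose (j + d) : ℕ) * (d + 1)) := by ring
    _ = _ := by rw [← h1']; ring

lemma stepC_QNegC (j d : ℕ) (hj : 1 ≤ j) :
    (((j + d).choose j : ℕ) : ℝ) * ((j + d + 2).choose j : ℕ) ≤
      (((j + d + 1).choose j : ℕ) : ℝ) ^ 2 * Real.exp (-(j / ((j : ℝ) + d + 1) ^ 2)) := by
  have h0 := recC_QNegC j d
  have h1 := recC_QNegC j (d + 1)
  have e1 : j + (d + 1) = j + d + 1 := by ring
  have e2 : j + d + 1 + 1 = j + d + 2 := by ring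
  rw [e1, e2] at h1
  push_cast at h1
  set a0 : ℝ := ((((j + d).choose j : ℕ)) : ℝ)
  set a1 : ℝ := ((((j + d + 1).choose j : ℕ)) : ℝ)
  set a2 : ℝ := ((((j + d + 2).choose j : ℕ)) : ℝ)
  have hj' : (1 : ℝ) ≤ j := by exact_mod_cast hj
  have hd : (0 : ℝ) ≤ d := Nat.cast_nonneg d
  have hN : (0 : ℝ) < j + d + 1 := by positivity
  have hd2 : (0 : ℝ) < d + 2 := by positivity
  have k0 : a0 = a1 * (d + 1) / (j + d + 1) := by field_simp; linarith
  have k2 : a2 = a1 * (j + d + 2) / (d + 2) := by field_simp; linarith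
  have k : a0 * a2 = a1 ^ 2 * (1 - j / ((j + d + 1) * (d + 2))) := by
    rw [k0, k2]; field_simp; ring
  rw [k]
  refine mul_le_mul_of_nonneg_left ?_ (sq_nonneg _)
  have h3 := Real.add_one_le_exp (-(j / ((j : ℝ) + d + 1) ^ 2))
  have h4 : (j : ℝ) / (j + d + 1) ^ 2 ≤ j / ((j + d + 1) * (d + 2)) := by
    apply div_le_div_of_nonneg_left (by positivity) (by positivity)
    nlinarith
  linarith

lemma stepD_QNegC (j d : ℕ) (hj : 1 ≤ j) :
    (((j + 2 * d).choose (j + d) : ℕ) : ℝ) * ((j + 2 * d + 4).choose (j + d + 2) : ℕ) ≤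
      (((j + 2 * d + 2).choose (j + d + 1) : ℕ) : ℝ) ^ 2 *
        Real.exp (1 / (2 * ((j : ℝ) + d + 1) ^ 2)) := by
  have h0 := recD_QNegC j d
  have h1 := recD_QNegC j (d + 1)
  have e1 : j + (d + 1) = j + d + 1 := by ring
  have e2 : j + d + 1 + 1 = j + d + 2 := by ring
  have e3 : j + 2 * (d + 1) = j + 2 * d + 2 := by ring
  have e4 : j + 2 * d + 2 + 2 = j + 2 * d + 4 := by ring
  rw [e1, e2, e3, e4] at h1
  push_cast at h1
  set a0 : ℝ := ((((j + 2 * d).choose (j + d) : ℕ)) : ℝ)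
  set a1 : ℝ := ((((j + 2 * d + 2).choose (j + d + 1) : ℕ)) : ℝ)
  set a2 : ℝ := ((((j + 2 * d + 4).choose (j + d + 2) : ℕ)) : ℝ)
  obtain ⟨i, rfl⟩ : ∃ i, j = i + 1 := ⟨j - 1, by omega⟩
  have hi : (0 : ℝ) ≤ i := Nat.cast_nonneg i
  have hd : (0 : ℝ) ≤ d := Nat.cast_nonneg d
  push_cast at h0 h1 ⊢
  have k0 : a0 = a1 * ((i + d + 2) * (d + 1)) / ((i + 2 * d + 3) * (i + 2 * d + 2)) := by
    field_simp; linarith
  have k2 : a2 = a1 * ((i + 2 * d + 5) * (i + 2 * d + 4)) / ((i + d + 3) * (d + 2)) := by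
    field_simp; linarith
  have k : a0 * a2 = a1 ^ 2 * (((i + d + 2) * (d + 1) * ((i + 2 * d + 5) * (i + 2 * d + 4))) /
      ((i + 2 * d + 3) * (i + 2 * d + 2) * ((i + d + 3) * (d + 2)))) := by
    rw [k0, k2]; field_simp
  rw [k]
  refine mul_le_mul_of_nonneg_left ?_ (sq_nonneg _)
  have h3 := Real.add_one_le_exp (1 / (2 * ((i : ℝ) + 1 + d + 1) ^ 2))
  refine le_trans ?_ h3
  rw [div_add_one (by positivity), div_le_div_iff₀ (by positivity) (by positivity)]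
  have : (0 : ℝ) ≤ 4 + 10 * d + 8 * d ^ 2 + 2 * d ^ 3 + 42 * i + 59 * i * d + 27 * i * d ^ 2 +
      4 * i * d ^ 3 + 80 * i ^ 2 + 94 * i ^ 2 * d + 35 * i ^ 2 * d ^ 2 + 4 * i ^ 2 * d ^ 3 +
      58 * i ^ 3 + 49 * i ^ 3 * d + 10 * i ^ 3 * d ^ 2 + 18 * i ^ 4 + 8 * i ^ 4 * d +
      2 * i ^ 5 := by positivity
  nlinarith [this]

lemma step_QNegC (r s j d : ℕ) (hj : 1 ≤ j) (hs : s ≤ j * r) :
    (tN r s (j + d) j : ℝ) * tN r s (j + d + 2) j ≤
      (tN r s (j + d + 1) j : ℝ) ^ 2 * Real.exp (-(r * j / (2 * ((j : ℝ) + d + 1) ^ 2))) := by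
  have e0 : 2 * (j + d) - j = j + 2 * d := by omega
  have e1 : 2 * (j + d + 1) - j = j + 2 * d + 2 := by omega
  have e2 : 2 * (j + d + 2) - j = j + 2 * d + 4 := by omega
  unfold tN
  rw [e0, e1, e2]
  have hC := stepC_QNegC j d hj
  have hD := stepD_QNegC j d hj
  have hC' := pow_le_pow_left₀ (by positivity) hC r
  have hD' := pow_le_pow_left₀ (by positivity) hD s
  have hm := mul_le_mul hC' hD' (by positivity) (by positivity)
  push_cast
  have hs' : (s : ℝ) ≤ j * r := by exact_mod_cast hs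
  have hx : Real.exp (-(j / ((j : ℝ) + d + 1) ^ 2)) ^ r *
      Real.exp (1 / (2 * ((j : ℝ) + d + 1) ^ 2)) ^ s ≤
      Real.exp (-(r * j / (2 * ((j : ℝ) + d + 1) ^ 2))) := by
    rw [← Real.exp_nat_mul, ← Real.exp_nat_mul, ← Real.exp_add]
    apply Real.exp_le_exp.mpr
    have hN : (0 : ℝ) < ((j : ℝ) + d + 1) ^ 2 := by positivity
    have : (s : ℝ) * (1 / (2 * ((j : ℝ) + d + 1) ^ 2)) ≤
        j * r * (1 / (2 * ((j : ℝ) + d + 1) ^ 2)) :=
      mul_le_mul_of_nonneg_right hs' (by positivity)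
    have e : (r : ℝ) * -(j / ((j : ℝ) + d + 1) ^ 2) + j * r * (1 / (2 * ((j : ℝ) + d + 1) ^ 2)) =
        -(r * j / (2 * ((j : ℝ) + d + 1) ^ 2)) := by field_simp; ring
    linarith
  calc _ = ((((j + d).choose j : ℕ) : ℝ) * ((j + d + 2).choose j : ℕ)) ^ r *
        ((((j + 2 * d).choose (j + d) : ℕ) : ℝ) *
          ((j + 2 * d + 4).choose (j + d + 2) : ℕ)) ^ s := by ring
    _ ≤ _ := hm
    _ = ((((j + d + 1).choose j : ℕ) : ℝ) ^ r *
          (((j + 2 * d + 2).choose (j + d + 1) : ℕ) : ℝ) ^ s) ^ 2 *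
        (Real.exp (-(j / ((j : ℝ) + d + 1) ^ 2)) ^ r *
          Real.exp (1 / (2 * ((j : ℝ) + d + 1) ^ 2)) ^ s) := by ring
    _ ≤ _ := mul_le_mul_of_nonneg_left hx (sq_nonneg _)

lemma abs_QNegC (u : ℕ → ℝ) (hu : ∀ k, 0 < u k) (h : ℕ) (κ : ℝ)
    (hs : ∀ k, k + 2 ≤ 2 * h → u k * u (k + 2) ≤ u (k + 1) ^ 2 * Real.exp (-κ)) :
    u 0 * u (2 * h) ≤ u h ^ 2 * Real.exp (-(κ * h ^ 2)) := by
  set L : ℕ → ℝ := fun k => Real.log (u k) with hL
  have h1 : ∀ k, k + 2 ≤ 2 * h → L (k + 2) - L (k + 1) ≤ L (k + 1) - L k - κ := by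
    intro k hk
    have := Real.log_le_log (mul_pos (hu k) (hu (k + 2))) (hs k hk)
    rw [Real.log_mul (hu k).ne' (hu _).ne', Real.log_mul (pow_pos (hu _) 2).ne'
      (Real.exp_pos _).ne', Real.log_pow, Real.log_exp] at this
    simp only [hL]
    push_cast at this
    linarith
  have h2 : ∀ t k, k + t + 1 ≤ 2 * h →
      L (k + t + 1) - L (k + t) ≤ L (k + 1) - L k - κ * t := by
    intro t
    induction t with
    | zero => intro k _; simp
    | succ t ih =>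
      intro k hk
      have a := ih k (by omega)
      have b := h1 (k + t) (by omega)
      have e1 : k + (t + 1) + 1 = k + t + 2 := by ring
      have e2 : k + (t + 1) = k + t + 1 := by ring
      rw [e1, e2]
      push_cast
      linarith
  have h3 : ∀ m, m ≤ h → L (m + h) - L h ≤ L m - L 0 - κ * h * m := by
    intro m
    induction m with
    | zero => intro _; simp
    | succ m ih =>
      intro hm
      have a := ih (by omega)
      have b := h2 h m (by omega)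
      have e1 : m + 1 + h = m + h + 1 := by ring
      rw [e1]
      push_cast
      linarith
  have h4 := h3 h le_rfl
  have e : h + h = 2 * h := by ring
  rw [e] at h4
  have h5 : Real.log (u 0 * u (2 * h)) ≤ Real.log (u h ^ 2 * Real.exp (-(κ * h ^ 2))) := by
    rw [Real.log_mul (hu 0).ne' (hu _).ne', Real.log_mul (pow_pos (hu _) 2).ne'
      (Real.exp_pos _).ne', Real.log_pow, Real.log_exp]
    simp only [hL] at h4
    push_cast
    nlinarith
  exact (Real.log_le_log_iff (mul_pos (hu 0) (hu _))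
    (mul_pos (pow_pos (hu _) 2) (Real.exp_pos _))).mp h5

theorem negConc : NegConc := by
  intro r s j n h hj hs hn
  obtain ⟨d, rfl⟩ := Nat.exists_eq_add_of_le hn
  have hpos : ∀ k, (0 : ℝ) < tN r s (j + d + k) j := by
    intro k
    have a : 0 < (j + d + k).choose j := Nat.choose_pos (by omega)
    have b : 0 < (2 * (j + d + k) - j).choose (j + d + k) := Nat.choose_pos (by omega)
    have : 0 < tN r s (j + d + k) j := by unfold tN; positivity
    exact_mod_cast this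
  have key := abs_QNegC (fun k => (tN r s (j + d + k) j : ℝ)) hpos h
    (r * j / (2 * (((j + d : ℕ) : ℝ) + 2 * h) ^ 2)) (by
      intro k hk
      have a := step_QNegC r s j (d + k) hj hs
      have e0 : j + (d + k) = j + d + k := by ring
      rw [e0] at a
      have e1 : j + d + (k + 2) = j + d + k + 2 := by ring
      have e2 : j + d + (k + 1) = j + d + k + 1 := by ring
      simp only [e1, e2]
      refine a.trans (mul_le_mul_of_nonneg_left ?_ (sq_nonneg _))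
      apply Real.exp_le_exp.mpr
      apply neg_le_neg
      have hk' : (k : ℝ) + 2 ≤ 2 * h := by exact_mod_cast hk
      apply div_le_div_of_nonneg_left (by positivity) (by positivity)
      push_cast
      have hj0 : (0 : ℝ) ≤ j := Nat.cast_nonneg j
      have hd0 : (0 : ℝ) ≤ d := Nat.cast_nonneg d
      have hk0 : (0 : ℝ) ≤ k := Nat.cast_nonneg k
      have := pow_le_pow_left₀ (by positivity : (0 : ℝ) ≤ j + (d + k) + 1)
        (by linarith : (j : ℝ) + (d + k) + 1 ≤ j + d + 2 * h) 2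
      linarith)
  simp only [Nat.add_zero] at key
  have e : (r : ℝ) * j / (2 * (((j + d : ℕ) : ℝ) + 2 * h) ^ 2) * h ^ 2 =
      r * j * h ^ 2 / (2 * (((j + d : ℕ) : ℝ) + 2 * h) ^ 2) := by ring
  rw [e] at key
  exact key

end Pool.Agent.MP_6026f4_co.Q

end
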