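import Pool.Agent.Mg.F6026f4p.Gb4facf

section

/- One step of the analytic iteration. -/

namespace Pool.Agent.MP_6026f4_co.Q

open Complex Metric Set Filter Topology

theorem second_diff_AL {F : ℂ → ℂ} {z c : ℂ} {η M : ℝ} (hη : 1 < η)
    (hd : DifferentiableOn ℂ F (ball z η)) (hb : ∀ u ∈ ball z η, ‖F u - c‖ ≤ M) :
    ‖F (z + 1) + F (z - 1) - 2 * F z‖ ≤ 4 * M / η ^ 2 := by
  have hη0 : 0 < η := by linarith
  have m1 : ∀ w ∈ ball (0 : ℂ) η, z + w ∈ ball z η := fun w hw => by simpa using hw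
  have m2 : ∀ w ∈ ball (0 : ℂ) η, z - w ∈ ball z η := fun w hw => by simpa using hw
  set G : ℂ → ℂ := fun w => F (z + w) + F (z - w) with hG
  have hGd : DifferentiableOn ℂ G (ball 0 η) :=
    (hd.comp (by fun_prop) m1).add (hd.comp (by fun_prop) m2)
  have hmap : MapsTo G (ball 0 η) (closedBall (G 0) (4 * M)) := by
    intro w hw
    rw [mem_closedBall, dist_eq_norm]
    have e : G w - G 0 = (F (z + w) - c) + (F (z - w) - c) - (F z - c) - (F z - c) := by
      simp only [hG, add_zero, sub_zero]; ring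
    rw [e]
    have a1 := hb _ (m1 w hw)
    have a2 := hb _ (m2 w hw)
    have a3 := hb z (mem_ball_self hη0)
    have b1 := norm_sub_le ((F (z + w) - c) + (F (z - w) - c) - (F z - c)) (F z - c)
    have b2 := norm_sub_le ((F (z + w) - c) + (F (z - w) - c)) (F z - c)
    have b3 := norm_add_le (F (z + w) - c) (F (z - w) - c)
    linarith
  have hF : HasDerivAt F (deriv F z) z :=
    (hd.differentiableAt (ball_mem_nhds z hη0)).hasDerivAt
  have d1 : HasDerivAt (fun w : ℂ => F (z + w)) (deriv F z * 1) 0 :=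
    HasDerivAt.comp (0 : ℂ) (by simpa using hF) ((hasDerivAt_id (0 : ℂ)).const_add z)
  have d2 : HasDerivAt (fun w : ℂ => F (z - w)) (deriv F z * (-1)) 0 :=
    HasDerivAt.comp (0 : ℂ) (by simpa using hF) ((hasDerivAt_id (0 : ℂ)).const_sub z)
  have d3 : HasDerivAt G 0 0 := by
    have := d1.add d2
    rw [show deriv F z * 1 + deriv F z * (-1) = 0 by ring] at this
    exact this
  have hn : (fun w => G w - G 0) =o[𝓝 0] (fun w : ℂ => ‖w - 0‖ ^ 1) := by
    have := d3.isLittleO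
    simp only [smul_zero, sub_zero] at this
    simpa using this.norm_right
  have h1 : (1 : ℂ) ∈ ball (0 : ℂ) η := by simpa using hη
  have := dist_le_mul_div_pow_of_mapsTo_ball_of_isLittleO hGd hmap hn h1
  rw [dist_eq_norm] at this
  have e : G 1 - G 0 = F (z + 1) + F (z - 1) - 2 * F z := by
    simp only [hG, add_zero, sub_zero]; ring
  rw [e] at this
  refine this.trans (le_of_eq ?_)
  simp
  field_simp

theorem norm_exp_neg_AL {u : ℂ} (h : 0 < u.re) : ‖-exp (-u)‖ < 1 := by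
  rw [norm_neg, norm_exp, neg_re]
  exact Real.exp_lt_one_iff.2 (by linarith)

theorem slit_AL {u : ℂ} (h : 0 < u.re) : 1 - exp (-u) ∈ slitPlane := by
  rw [sub_eq_add_neg]
  exact mem_slitPlane_of_norm_lt_one (norm_exp_neg_AL h)

theorem re_ge_AL {u : ℂ} {U : ℝ} (h : ‖u - U‖ ≤ U / 2) : U / 2 ≤ u.re := by
  have := (abs_re_le_norm (u - U)).trans h
  simp only [sub_re, ofReal_re] at this
  linarith [(abs_le.1 this).1]

theorem g_bound_AL {u : ℂ} {U : ℝ} (hU : 0 < U) (h : ‖u - U‖ ≤ U / 2) :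
    ‖log (1 - exp (-u)) - log (1 - exp (-(U : ℂ)))‖ ≤ 1 := by
  have key : ∀ y ∈ closedBall (U : ℂ) (U / 2), HasDerivWithinAt (fun y : ℂ => log (1 - exp (-y)))
      (exp (-y) / (1 - exp (-y))) (closedBall (U : ℂ) (U / 2)) y := by
    intro y hy
    have hy' := re_ge_AL (by simpa [dist_eq_norm] using hy : ‖y - U‖ ≤ U / 2)
    have d : HasDerivAt (fun y : ℂ => 1 - exp (-y)) (exp (-y)) y := by
      simpa using ((hasDerivAt_neg y).cexp).const_sub 1
    exact (d.clog (slit_AL (by linarith))).hasDerivWithinAt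
  have bd : ∀ y ∈ closedBall (U : ℂ) (U / 2), ‖exp (-y) / (1 - exp (-y))‖ ≤ 2 / U := by
    intro y hy
    have hy' := re_ge_AL (by simpa [dist_eq_norm] using hy : ‖y - U‖ ≤ U / 2)
    have h1 : 1 - Real.exp (-y.re) ≤ ‖1 - exp (-y)‖ := by
      have := norm_sub_norm_le (1 : ℂ) (exp (-y))
      rwa [norm_one, norm_exp, neg_re] at this
    have h2 : Real.exp (-y.re) * (1 + U / 2) ≤ 1 := by
      have a := Real.add_one_le_exp y.re
      have b : Real.exp (-y.re) * Real.exp y.re = 1 := by rw [← Real.exp_add]; simp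
      nlinarith [Real.exp_pos (-y.re)]
    have h3 : 0 < Real.exp (-y.re) := Real.exp_pos _
    have h4 : 0 < 1 - Real.exp (-y.re) := by nlinarith
    rw [norm_div, norm_exp, neg_re, div_le_div_iff₀ (by linarith) hU]
    nlinarith
  have := (convex_closedBall (U : ℂ) (U / 2)).norm_image_sub_le_of_norm_hasDerivWithin_le key bd
    (mem_closedBall_self (by linarith)) (show u ∈ _ by simpa [dist_eq_norm] using h)
  refine this.trans ?_
  calc 2 / U * ‖u - U‖ ≤ 2 / U * (U / 2) := by gcongr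
    _ = 1 := by field_simp

/-- The correction term. -/
noncomputable def gg (u : ℂ → ℂ) (z : ℂ) : ℂ := log (1 - exp (-u z))

/-- One step of the iteration on the analytic side. -/
noncomputable def stp (u : ℂ → ℂ) (z : ℂ) : ℂ :=
  u (z + 1) + u (z - 1) + (gg u (z + 1) + gg u (z - 1) - 2 * gg u z)

theorem stp_bound {u : ℂ → ℂ} {c : ℂ} {R R' η U θ : ℝ} (hU : 0 < U) (hθ : θ ≤ 1 / 2) (hη : 1 < η)
    (hR : R' + η ≤ R) (hd : DifferentiableOn ℂ u (ball c R))
    (hb : ∀ z ∈ ball c R, ‖u z - U‖ ≤ θ * U) :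
    DifferentiableOn ℂ (stp u) (ball c R') ∧
      ∀ z ∈ ball c R', ‖stp u z - (2 * U : ℝ)‖ ≤ 2 * (θ * U) + (2 * U + 4) / η ^ 2 := by
  have hb' : ∀ z ∈ ball c R, ‖u z - U‖ ≤ U / 2 := fun z hz => (hb z hz).trans (by nlinarith)
  have hg : DifferentiableOn ℂ (gg u) (ball c R) := by
    refine DifferentiableOn.clog (by fun_prop) fun z hz => slit_AL ?_
    linarith [re_ge_AL (hb' z hz)]
  have sub : ∀ z ∈ ball c R', ball z η ⊆ ball c R := fun z hz =>
    ball_subset_ball' (by rw [mem_ball] at hz; linarith)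
  have m1 : MapsTo (fun z : ℂ => z + 1) (ball c R') (ball c R) := fun z hz =>
    sub z hz (by simpa using hη)
  have m2 : MapsTo (fun z : ℂ => z - 1) (ball c R') (ball c R) := fun z hz =>
    sub z hz (by simpa using hη)
  have m0 : ball c R' ⊆ ball c R := ball_subset_ball (by linarith)
  refine ⟨?_, fun z hz => ?_⟩
  · exact ((hd.comp (by fun_prop) m1).add (hd.comp (by fun_prop) m2)).add
      (((hg.comp (by fun_prop) m1).add (hg.comp (by fun_prop) m2)).sub ((hg.mono m0).const_mul 2))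
  have a1 := second_diff_AL hη (hd.mono (sub z hz)) fun y hy => hb' y (sub z hz hy)
  have a2 := second_diff_AL hη (hg.mono (sub z hz)) fun y hy => g_bound_AL hU (hb' y (sub z hz hy))
  have a3 := hb z (m0 hz)
  have e : stp u z - (2 * U : ℝ) = (u (z + 1) + u (z - 1) - 2 * u z) +
      (gg u (z + 1) + gg u (z - 1) - 2 * gg u z) + 2 * (u z - U) := by
    simp only [stp]; push_cast; ring
  rw [e]
  refine norm_add₃_le.trans ?_
  rw [norm_mul, Complex.norm_two]
  have : (2 * U + 4) / η ^ 2 = 4 * (U / 2) / η ^ 2 + 4 * 1 / η ^ 2 := by ring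
  linarith

/-- The operator `L` in centred form. -/
def lc (X : ℤ → ℝ) (i : ℤ) : ℝ := X (i - 1) * X (i + 1) - X i ^ 2

theorem iter_lc (x : ℕ → ℝ) (k : ℕ) : ∀ n : ℕ,
    (logConvexOp^[k] x) n = (lc^[k] fun i => x i.toNat) (n + k) := by
  induction k with
  | zero => intro n; simp
  | succ k ih =>
    intro n
    simp only [Function.iterate_succ_apply', logConvexOp, lc, ih]
    push_cast
    ring_nf

theorem mem_int_AL {m : ℕ} {R : ℝ} {i : ℤ} (h : |(i : ℝ) - m| < R) : (i : ℂ) ∈ ball (m : ℂ) R := by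
  rw [mem_ball, dist_eq_norm, show (i : ℂ) - m = (((i : ℝ) - m : ℝ) : ℂ) by push_cast; ring,
    norm_real, Real.norm_eq_abs]
  exact h

/-- The link between the discrete and the analytic side. -/
def Link (X : ℤ → ℝ) (u : ℂ → ℂ) (m : ℕ) (R : ℝ) : Prop :=
  (∀ i : ℤ, |(i : ℝ) - m| < R + 1 → 0 < X i) ∧
    ∀ i : ℤ, |(i : ℝ) - m| < R → (X (i - 1) : ℂ) * X (i + 1) = (X i : ℂ) ^ 2 * exp (u i)

theorem Link.real {X : ℤ → ℝ} {u : ℂ → ℂ} {m : ℕ} {R : ℝ} (h : Link X u m R) {i : ℤ}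
    (hi : |(i : ℝ) - m| < R) : X (i - 1) * X (i + 1) = X i ^ 2 * Real.exp (u i).re := by
  have a := abs_lt.1 hi
  have p1 := h.1 (i - 1) (by push_cast; rw [abs_lt]; constructor <;> linarith)
  have p2 := h.1 (i + 1) (by push_cast; rw [abs_lt]; constructor <;> linarith)
  have := congrArg norm (h.2 i hi)
  rwa [norm_mul, norm_mul, norm_pow, norm_real, norm_real, norm_real, norm_exp, Real.norm_eq_abs,
    Real.norm_eq_abs, Real.norm_eq_abs, abs_of_pos p1, abs_of_pos p2, sq_abs] at this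

theorem Link.pos {X : ℤ → ℝ} {u : ℂ → ℂ} {m : ℕ} {R : ℝ} (h : Link X u m R) {i : ℤ}
    (hi : |(i : ℝ) - m| < R) (hu : 0 < (u i).re) : 0 < lc X i := by
  have p := h.1 i (by linarith)
  have := Real.one_lt_exp_iff.2 hu
  rw [lc, h.real hi]
  nlinarith [pow_pos p 2]

theorem Link.step {X : ℤ → ℝ} {u : ℂ → ℂ} {m : ℕ} {R R' : ℝ} (h : Link X u m R) (hR : R' + 1 ≤ R)
    (hu : ∀ z ∈ ball (m : ℂ) R, 0 < (u z).re) : Link (lc X) (stp u) m R' := by
  have val : ∀ i : ℤ, |(i : ℝ) - m| < R →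
      (lc X i : ℂ) = (X i : ℂ) ^ 2 * exp (u i) * exp (gg u i) := by
    intro i hi
    have hs := slit_AL (hu _ (mem_int_AL hi))
    rw [gg, exp_log (slitPlane_ne_zero hs), lc]
    push_cast
    rw [h.2 i hi, mul_assoc, mul_sub, ← exp_add]
    simp only [add_neg_cancel, exp_zero]
    ring
  refine ⟨fun i hi => h.pos (by linarith) (hu _ (mem_int_AL (by linarith))), fun i hi => ?_⟩
  have a := abs_lt.1 hi
  have v1 := val (i - 1) (by push_cast; rw [abs_lt]; constructor <;> linarith)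
  have v2 := val (i + 1) (by push_cast; rw [abs_lt]; constructor <;> linarith)
  have v0 := val i (by linarith)
  have r0 := h.2 i (by linarith)
  rw [v1, v2, v0, stp]
  push_cast
  have e : exp (u (i + 1) + u (i - 1) + (gg u (i + 1) + gg u (i - 1) - 2 * gg u i)) *
      exp (gg u i) ^ 2 =
      exp (u (i + 1)) * exp (u (i - 1)) * exp (gg u (i + 1)) * exp (gg u (i - 1)) := by
    rw [← exp_nat_mul, ← exp_add, ← exp_add, ← exp_add, ← exp_add]
    congr 1; push_cast; ring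
  linear_combination (exp (u (i - 1)) * exp (gg u (i - 1)) * exp (u (i + 1)) * exp (gg u (i + 1)) *
    ((X (i - 1) : ℂ) * X (i + 1) + (X i : ℂ) ^ 2 * exp (u i))) * r0 -
    ((X i : ℂ) ^ 2 * exp (u i)) ^ 2 * e

end Pool.Agent.MP_6026f4_co.Q

end

section

/- The analytic iteration. -/

namespace Pool.Agent.MP_6026f4_co.Q

open Complex Metric Set Filter Topology

theorem iter_AL {X : ℤ → ℝ} {u : ℂ → ℂ} {m : ℕ} {R γ : ℝ} (hγ : 0 < γ) (hR0 : 0 < R)
    (hR : 12000 ≤ γ * R ^ 2) (hd : DifferentiableOn ℂ u (ball (m : ℂ) R))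
    (hb : ∀ z ∈ ball (m : ℂ) R, ‖u z - γ‖ ≤ γ / 4) (hl : Link X u m R) (k : ℕ) :
    2 ^ k * γ ≤ 24 → DifferentiableOn ℂ (stp^[k] u) (ball (m : ℂ) (R * (4 / 5) ^ k)) ∧
      (∀ z ∈ ball (m : ℂ) (R * (4 / 5) ^ k), ‖(stp^[k] u) z - (2 ^ k * γ : ℝ)‖ ≤
        (1 / 2 - 1 / 4 * (25 / 32) ^ k) * (2 ^ k * γ)) ∧
      Link (lc^[k] X) (stp^[k] u) m (R * (4 / 5) ^ k) := by
  induction k with
  | zero =>
    intro _
    simp only [Function.iterate_zero, id, pow_zero, mul_one, one_mul]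
    exact ⟨hd, fun z hz => (hb z hz).trans (le_of_eq (by ring)), hl⟩
  | succ k ih =>
    intro hk
    have hU : (0 : ℝ) < 2 ^ k * γ := by positivity
    have hk' : 2 ^ k * γ ≤ 12 := by rw [pow_succ] at hk; linarith
    obtain ⟨d, b, l⟩ := ih (by linarith)
    set U : ℝ := 2 ^ k * γ with hUdef
    set η : ℝ := R * (4 / 5) ^ k / 5 with hη
    have hq : (0 : ℝ) < (25 / 32) ^ k := by positivity
    have hq1 : (25 / 32 : ℝ) ^ k ≤ 1 := pow_le_one₀ (by norm_num) (by norm_num)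
    have hη0 : 0 < η := by positivity
    have e1 : U * (25 / 32) ^ k * η ^ 2 = γ * R ^ 2 / 25 := by
      have : (2 : ℝ) ^ k * (25 / 32) ^ k * ((4 / 5) ^ k) ^ 2 = 1 := by
        rw [← pow_mul, mul_comm k 2, pow_mul, ← mul_pow, ← mul_pow]; norm_num
      rw [hUdef, hη]
      linear_combination (γ * R ^ 2 / 25) * this
    have e2 : 480 ≤ U * (25 / 32) ^ k * η ^ 2 := by rw [e1]; linarith
    have e3 : 1 < η := by
      by_contra hc
      have h1 : η ^ 2 ≤ 1 := pow_le_one₀ hη0.le (not_lt.1 hc)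
      have h2 : U * (25 / 32) ^ k ≤ 12 * 1 := by gcongr
      have h3 : U * (25 / 32) ^ k * η ^ 2 ≤ 12 * 1 * 1 := by gcongr
      linarith
    have e4 : R * (4 / 5) ^ (k + 1) + η = R * (4 / 5) ^ k := by rw [hη, pow_succ]; ring
    obtain ⟨d', b'⟩ := stp_bound (R' := R * (4 / 5) ^ (k + 1)) hU (by linarith) e3 e4.le d b
    simp only [Function.iterate_succ_apply']
    refine ⟨d', fun z hz => ?_, l.step (by linarith) fun z hz => ?_⟩
    · have e5 : (2 : ℝ) ^ (k + 1) * γ = 2 * U := by rw [hUdef, pow_succ]; ring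
      rw [e5]
      refine (b' z hz).trans ?_
      have e6 : (2 * U + 4) / η ^ 2 ≤ 7 / 64 * (U * (25 / 32) ^ k) := by
        rw [div_le_iff₀ (by positivity)]
        nlinarith
      rw [pow_succ (25 / 32 : ℝ)]
      nlinarith
    · have := re_ge_AL ((b z hz).trans (by nlinarith : _ ≤ U / 2))
      linarith

theorem base_AL {x : ℕ → ℝ} {m : ℕ} {γ ρ B : ℝ} (hx : ∀ n, 0 < x n) (hγ : 0 < γ) (hγ' : γ ≤ 24)
    (hB : 1 ≤ B) (hρ : 0 < ρ) (hm : ρ ≤ m) (hC : 192000 * (B + 1) ^ 2 ≤ γ * ρ ^ 2)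
    (hM : Model x m γ ρ B) : ∃ (u : ℂ → ℂ) (R : ℝ), 0 < R ∧ 12000 ≤ γ * R ^ 2 ∧
      DifferentiableOn ℂ u (ball (m : ℂ) R) ∧ (∀ z ∈ ball (m : ℂ) R, ‖u z - γ‖ ≤ γ / 4) ∧
      Link (fun i => x i.toNat) u m R := by
  obtain ⟨h, w, E, hd, wd, h0, hb, wb, xe, ee⟩ := hM
  set R : ℝ := ρ / (4 * (B + 1)) with hR
  have hR0 : 0 < R := by positivity
  have hρR : ρ = 4 * (B + 1) * R := by rw [hR]; field_simp
  have hC' : 12000 ≤ γ * R ^ 2 := by
    rw [hρR] at hC
    have : (0 : ℝ) < (B + 1) ^ 2 := by positivity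
    nlinarith
  have hR1 : 1 < R := by
    by_contra hc
    have h1 : R ^ 2 ≤ 1 := pow_le_one₀ hR0.le (not_lt.1 hc)
    nlinarith
  have s2 : ball (m : ℂ) (2 * R) ⊆ ball (m : ℂ) ρ := ball_subset_ball (by nlinarith)
  have s1 : ball (m : ℂ) R ⊆ ball (m : ℂ) (2 * R) := ball_subset_ball (by linarith)
  have hn0 : 0 < ‖h m‖ := norm_pos_iff.2 h0
  have close : ∀ z ∈ ball (m : ℂ) (2 * R), ‖h z / h m - 1‖ ≤ 1 / 2 := by
    intro z hz
    have hmap : MapsTo h (ball (m : ℂ) ρ) (closedBall (h m) ((B + 1) * ‖h m‖)) := by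
      intro y hy
      rw [mem_closedBall, dist_eq_norm]
      linarith [norm_sub_le (h y) (h m), hb y hy]
    have := dist_le_div_mul_dist_of_mapsTo_ball hd hmap (s2 hz)
    rw [dist_eq_norm] at this
    rw [div_sub_one h0, norm_div, div_le_iff₀ hn0]
    refine this.trans ?_
    rw [mem_ball] at hz
    calc (B + 1) * ‖h m‖ / ρ * dist z m ≤ (B + 1) * ‖h m‖ / ρ * (2 * R) := by gcongr
      _ = 1 / 2 * ‖h m‖ := by rw [hρR]; field_simp; ring
  set lg : ℂ → ℂ := fun z => log (h z / h m) with hlg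
  have slit : ∀ z ∈ ball (m : ℂ) (2 * R), h z / h m ∈ slitPlane := fun z hz => by
    have := mem_slitPlane_of_norm_lt_one ((close z hz).trans_lt (by norm_num))
    rwa [add_sub_cancel] at this
  have lgd : DifferentiableOn ℂ lg (ball (m : ℂ) (2 * R)) :=
    DifferentiableOn.clog ((hd.mono s2).div_const _) slit
  have lgb : ∀ z ∈ ball (m : ℂ) (2 * R), ‖lg z - 0‖ ≤ 3 / 4 := fun z hz => by
    have := norm_log_one_add_half_le_self (close z hz)
    rw [add_sub_cancel] at this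
    rw [sub_zero]
    linarith [close z hz]
  have hexp : ∀ z ∈ ball (m : ℂ) (2 * R), h z = h m * exp (lg z) := fun z hz => by
    rw [hlg]
    simp only
    rw [exp_log (slitPlane_ne_zero (slit z hz))]
    field_simp
  have sub : ∀ z ∈ ball (m : ℂ) R, ball z R ⊆ ball (m : ℂ) (2 * R) := fun z hz =>
    ball_subset_ball' (by rw [mem_ball] at hz; linarith)
  have m1 : MapsTo (fun z : ℂ => z + 1) (ball (m : ℂ) R) (ball (m : ℂ) (2 * R)) := fun z hz =>
    sub z hz (by simpa using hR1)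
  have m2 : MapsTo (fun z : ℂ => z - 1) (ball (m : ℂ) R) (ball (m : ℂ) (2 * R)) := fun z hz =>
    sub z hz (by simpa using hR1)
  refine ⟨fun z => w z + (lg (z + 1) + lg (z - 1) - 2 * lg z), R, hR0, hC', ?_, fun z hz => ?_,
    fun i _ => hx _, fun i hi => ?_⟩
  · exact (wd.mono (s1.trans s2)).add
      (((lgd.comp (by fun_prop) m1).add (lgd.comp (by fun_prop) m2)).sub
        ((lgd.mono s1).const_mul 2))
  · have a1 := second_diff_AL hR1 (lgd.mono (sub z hz)) fun y hy => lgb y (sub z hz hy)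
    have a2 := wb z (s2 (s1 hz))
    have a3 : 4 * (3 / 4) / R ^ 2 ≤ γ / 8 := by
      rw [div_le_iff₀ (by positivity)]; nlinarith
    rw [show w z + (lg (z + 1) + lg (z - 1) - 2 * lg z) - γ =
      (w z - γ) + (lg (z + 1) + lg (z - 1) - 2 * lg z) by ring]
    linarith [norm_add_le (w z - γ) (lg (z + 1) + lg (z - 1) - 2 * lg z)]
  · have hi1 : (0 : ℝ) < i := by nlinarith [(abs_lt.1 hi).1]
    have hi2 : 0 < i := by exact_mod_cast hi1
    obtain ⟨n, rfl⟩ : ∃ n : ℕ, i = (n : ℤ) + 1 := ⟨(i - 1).toNat, by omega⟩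
    have hz := mem_int_AL hi
    push_cast at hz
    have z1 := m1 hz
    have z2 := m2 hz
    simp only [add_sub_cancel_right] at z1 z2
    have t0 : ((n : ℤ) + 1 - 1).toNat = n := by omega
    have t1 : ((n : ℤ) + 1).toNat = n + 1 := by omega
    have t2 : ((n : ℤ) + 1 + 1).toNat = n + 2 := by omega
    have c1 : ((n + 1 : ℕ) : ℂ) = n + 1 := by push_cast; ring
    have c2 : ((n + 2 : ℕ) : ℂ) = n + 1 + 1 := by push_cast; ring
    have x0 := xe n (s2 z2)
    have x1 := xe (n + 1) (c1 ▸ s2 (s1 hz))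
    have x2 := xe (n + 2) (c2 ▸ s2 z1)
    have e0 := ee n (s2 (s1 hz))
    simp only [t0, t1, t2]
    rw [x0, x1, x2, c1, c2, hexp _ z1, hexp _ z2, hexp _ (s1 hz)]
    push_cast
    rw [add_sub_cancel_right, exp_add]
    have e : exp (lg (n + 1 + 1) + lg n - 2 * lg (n + 1)) * exp (lg (n + 1)) ^ 2 =
        exp (lg (n + 1 + 1)) * exp (lg n) := by
      rw [← exp_nat_mul, ← exp_add, ← exp_add]
      congr 1; push_cast; ring
    linear_combination (h m ^ 2 * exp (lg n) * exp (lg (n + 1 + 1))) * e0 -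
      (E (n + 1) ^ 2 * h m ^ 2 * exp (w (n + 1))) * e

theorem alStmt : ALStmt := by
  intro x m γ ρ B hx hγ hB hρ hm hC hM k n hn hk
  have h1 : (1 : ℝ) ≤ 2 ^ k := one_le_pow₀ (by norm_num)
  obtain ⟨u, R, hR0, hR, hd, hb, hl⟩ := base_AL hx hγ (by nlinarith) hB hρ hm hC hM
  obtain ⟨-, b, l⟩ := iter_AL hγ hR0 hR hd hb hl k hk
  have hp : 0 < R * (4 / 5) ^ k := by positivity
  have hU : (0 : ℝ) < 2 ^ k * γ := by positivity
  have hq : (0 : ℝ) < (25 / 32) ^ k := by positivity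
  have hi : |((m : ℤ) : ℝ) - m| < R * (4 / 5) ^ k := by simpa using hp
  have hre := re_ge_AL ((b _ (mem_int_AL hi)).trans (by nlinarith : _ ≤ 2 ^ k * γ / 2))
  have em : (m : ℤ) = n + k + 1 := by omega
  constructor
  · rw [iter_lc, Function.iterate_succ_apply']
    have := l.pos hi (by linarith)
    rw [em] at this
    push_cast
    rwa [← add_assoc]
  · intro h3
    have := l.real hi
    have g : 3 ≤ Real.exp ((stp^[k] u) ((m : ℤ) : ℂ)).re := by
      have := Real.quadratic_le_exp_of_nonneg (x := ((stp^[k] u) ((m : ℤ) : ℂ)).re) (by linarith)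
      nlinarith
    rw [iter_lc, iter_lc, iter_lc]
    rw [show ((n + 1 : ℕ) : ℤ) + k = m by omega, show (n : ℤ) + k = m - 1 by omega,
      show ((n + 2 : ℕ) : ℤ) + k = m + 1 by omega, this]
    nlinarith [sq_nonneg ((lc^[k] fun i => x i.toNat) m)]

end Pool.Agent.MP_6026f4_co.Q

end

section

/- Assembly of the two bounds from the intermediate statements. -/

namespace Pool.Agent.MP_6026f4_co.Q

open Complex Metric

theorem apery_pos_Asm (r s n : ℕ) : (0 : ℝ) < apery r s n := by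
  have : 0 < apery r s n := by
    unfold apery
    rw [Finset.sum_range_succ']
    simp
  exact_mod_cast this

theorem Model.mono {x : ℕ → ℝ} {m : ℕ} {γ ρ B B' : ℝ} (h : Model x m γ ρ B) (hB : B ≤ B') :
    Model x m γ ρ B' := by
  obtain ⟨h, w, E, a, b, c, d, e⟩ := h
  exact ⟨h, w, E, a, b, c, fun z hz => (d z hz).trans (by gcongr), e⟩

/-- Strong log-convexity at one place. -/
def Strong (w : ℕ → ℝ) (n : ℕ) : Prop := 3 * w (n + 1) ^ 2 ≤ w n * w (n + 2)

theorem Strong.step {w : ℕ → ℝ} {n : ℕ} (h0 : Strong w n) (h1 : Strong w (n + 1))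
    (h2 : Strong w (n + 2)) : Strong (logConvexOp w) n := by
  unfold Strong logConvexOp at *
  simp only [add_assoc, Nat.reduceAdd] at *
  have a0 := sq_nonneg (w (n + 1))
  have a1 := sq_nonneg (w (n + 2))
  have a2 := sq_nonneg (w (n + 3))
  have b : (w (n + 1) * w (n + 3) - w (n + 2) ^ 2) ^ 2 ≤ (w (n + 1) * w (n + 3)) ^ 2 :=
    pow_le_pow_left₀ (by linarith) (by linarith) 2
  have c : (2 * w (n + 1) ^ 2) * (2 * w (n + 3) ^ 2) ≤
      (w n * w (n + 2) - w (n + 1) ^ 2) * (w (n + 2) * w (n + 4) - w (n + 3) ^ 2) :=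
    mul_le_mul (by linarith) (by linarith) (by linarith) (by linarith)
  nlinarith [mul_nonneg a0 a2]

theorem all_levels {y : ℕ → ℝ} {s : ℝ} (hy : ∀ n, 0 < y n)
    (h0 : ∀ n : ℕ, 24 < s / (2 * ((n : ℝ) + 1) ^ 2) → Strong y n)
    (h : ∀ k n : ℕ, 2 ^ k * (s / (2 * ((n : ℝ) + k + 1) ^ 2)) ≤ 24 →
      0 < (logConvexOp^[k + 1] y) n ∧
        (3 ≤ 2 ^ k * (s / (2 * ((n : ℝ) + k + 1) ^ 2)) → Strong (logConvexOp^[k] y) n))
    (hs : 0 < s) (k : ℕ) : ∀ n : ℕ, 0 < (logConvexOp^[k + 1] y) n ∧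
        (3 ≤ 2 ^ k * (s / (2 * ((n : ℝ) + k + 1) ^ 2)) → Strong (logConvexOp^[k] y) n) := by
  induction k with
  | zero =>
    intro n
    rcases le_or_gt (2 ^ 0 * (s / (2 * ((n : ℝ) + (0 : ℕ) + 1) ^ 2))) 24 with hl | hl
    · exact h 0 n hl
    have g := h0 n (by simpa using hl)
    refine ⟨?_, fun _ => g⟩
    have := pow_pos (hy (n + 1)) 2
    unfold Strong at g
    simp only [zero_add, Function.iterate_one, logConvexOp]
    linarith
  | succ k ih =>
    intro n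
    rcases le_or_gt (2 ^ (k + 1) * (s / (2 * ((n : ℝ) + (k + 1 : ℕ) + 1) ^ 2))) 24 with hl | hl
    · exact h _ n hl
    have e : ∀ i : ℕ, i ≤ n + 2 → Strong (logConvexOp^[k] y) i := fun i hi => (ih i).2 (by
      have hi' : (i : ℝ) ≤ n + 2 := by exact_mod_cast hi
      have hn : (0 : ℝ) ≤ n := n.cast_nonneg
      have hk : (0 : ℝ) ≤ k := k.cast_nonneg
      have hi0 : (0 : ℝ) ≤ i := i.cast_nonneg
      have a : s / (2 * ((n : ℝ) + (k + 1 : ℕ) + 1) ^ 2) ≤ 4 * (s / (2 * ((i : ℝ) + k + 1) ^ 2)) := by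
        rw [← mul_div_assoc, div_le_div_iff₀ (by positivity) (by positivity)]
        push_cast
        have : ((i : ℝ) + k + 1) ^ 2 ≤ (2 * ((n : ℝ) + (k + 1) + 1)) ^ 2 := by gcongr; linarith
        nlinarith
      have b : (0 : ℝ) < 2 ^ k := by positivity
      rw [pow_succ] at hl
      nlinarith)
    have g : Strong (logConvexOp^[k + 1] y) n := by
      rw [Function.iterate_succ_apply']
      exact (e n (by omega)).step (e _ (by omega)) (e _ le_rfl)
    refine ⟨?_, fun _ => g⟩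
    rw [Function.iterate_succ_apply', logConvexOp]
    have := mul_pos (ih n).1 (ih (n + 2)).1
    unfold Strong at g
    linarith

theorem posMain (hL : LamStmt) (hS : SmallStmt) (h1 : RegI) (h2 : RegII) :
    ∃ C : ℕ, ∀ r s : ℕ, 1 ≤ r → C * r ^ 2 ≤ s →
      IsInfLogConvex (fun n => (apery r s n : ℝ)) := by
  obtain ⟨B1, b1, h1⟩ := h1
  obtain ⟨B2, b2, h2⟩ := h2
  set B := max B1 B2 with hB
  obtain ⟨C, hC⟩ := exists_nat_ge (384000 * 10 ^ 6 * (B + 1) ^ 2)
  refine ⟨C + 10 ^ 8, fun r s hr hs k hk n => ?_⟩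
  obtain ⟨k, rfl⟩ := Nat.exists_eq_add_of_le' hk
  have hr2 : 0 < r ^ 2 := by positivity
  have hs8 : 10 ^ 8 * r ^ 2 ≤ s := by nlinarith
  have hs6 : 10 ^ 6 * r ^ 2 ≤ s := by nlinarith
  have hsC : (C : ℝ) * r ^ 2 ≤ s := by exact_mod_cast (by nlinarith : C * r ^ 2 ≤ s)
  have hs0 : (0 : ℝ) < s := by exact_mod_cast (by omega : 0 < s)
  have hr1 : (1 : ℝ) ≤ r := by exact_mod_cast hr
  obtain ⟨l, hl⟩ := hL r s hr hs6
  refine (all_levels (apery_pos_Asm r s) (fun n hn => ?_) (fun k n hk => ?_) hs0 k n).1.le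
  · refine hS r s n hr hs6 ?_
    rw [lt_div_iff₀ (by positivity)] at hn
    have : (48 * (n + 1) ^ 2 : ℝ) ≤ s := by linarith
    exact_mod_cast this
  · set m := n + k + 1 with hm
    have em : (n : ℝ) + k + 1 = m := by rw [hm]; push_cast; ring
    rw [em] at hk ⊢
    have m1 : (1 : ℝ) ≤ m := by exact_mod_cast (by omega : 1 ≤ m)
    have hγ : 0 < (s : ℝ) / (2 * (m : ℝ) ^ 2) := by positivity
    have p1 : (1 : ℝ) ≤ 2 ^ k := one_le_pow₀ (by norm_num)
    have h48 : s ≤ 48 * m ^ 2 := by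
      have : (s : ℝ) / (2 * (m : ℝ) ^ 2) ≤ 24 := by nlinarith
      rw [div_le_iff₀ (by positivity)] at this
      have : (s : ℝ) ≤ 48 * (m : ℝ) ^ 2 := by linarith
      exact_mod_cast this
    have hM : Model (fun n => (apery r s n : ℝ)) m (s / (2 * (m : ℝ) ^ 2)) (m / (1000 * r)) B := by
      rcases le_total (l * m) (1000 * r) with hc | hc
      · exact (h1 r s m l hr hs8 hl h48 hc).mono (le_max_left _ _)
      · exact (h2 r s m l hr hs8 hl hc).mono (le_max_right _ _)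
    refine alStmt _ m _ _ B (apery_pos_Asm r s) hγ (b1.trans (le_max_left _ _)) (by positivity)
      (div_le_self (by positivity) (by linarith)) ?_ hM k n rfl hk
    have e : (s : ℝ) / (2 * (m : ℝ) ^ 2) * (m / (1000 * r)) ^ 2 = s / (2 * 10 ^ 6 * r ^ 2) := by
      field_simp; ring
    rw [e, le_div_iff₀ (by positivity)]
    have : 384000 * 10 ^ 6 * (B + 1) ^ 2 * (r : ℝ) ^ 2 ≤ C * r ^ 2 := by gcongr
    linarith

theorem negMain (hp : Spread) (h1 : NegSmall) (h2 : NegWin) (h3 : NegConc) (hS : SumNat)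
    (r s : ℕ) (hr : 4000 ≤ r) (hs : 2000 * s ≤ r ^ 2) :
    ¬ ∀ n, 0 ≤ logConvexOp (fun n => (apery r s n : ℝ)) n := by
  intro hc
  have sp := hp _ (apery_pos_Asm r s) hc
  rcases le_total s (4 * r) with h | h
  · obtain ⟨n, h, hn⟩ := h1 r s hr h
    exact absurd (sp n h) (not_le.2 hn)
  set j := (s + r - 1) / r with hj
  have r0 : 0 < r := by omega
  have j1 : j * r ≤ s + r - 1 := Nat.div_mul_le_self _ _
  have j2 : s + r - 1 < j * r + r := by
    have := Nat.lt_div_mul_add (a := s + r - 1) r0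
    exact this
  have j3 : s ≤ j * r := by omega
  have j4 : j * r < s + r := by omega
  have j5 : 4 ≤ j := by nlinarith
  have j6 : 1000 * j ≤ r := by
    by_contra hc
    have a : (r + 1) * r ≤ 1000 * j * r := Nat.mul_le_mul_right r (by omega)
    nlinarith
  obtain ⟨n, d, n1, n2, n3, hw⟩ := h2 r s j h j3 j4 j6
  have c := h3 r s j n d (by omega) j3 (by omega)
  have u0 : (apery r s n : ℝ) ≤ 5 * tN r s n j := by exact_mod_cast hw n le_rfl (by omega)
  have u2 : (apery r s (n + 2 * d) : ℝ) ≤ 5 * tN r s (n + 2 * d) j := by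
    exact_mod_cast hw _ (by omega) le_rfl
  have l1 : (tN r s (n + d) j : ℝ) ≤ apery r s (n + d) := by
    rw [hS r s (n + d) (n + d) (by omega) le_rfl]
    have := Finset.single_le_sum (f := fun j => (n + d).choose j ^ r *
      (2 * (n + d) - j).choose (n + d) ^ s) (fun _ _ => Nat.zero_le _)
      (Finset.mem_range.2 (by omega : j < n + d + 1))
    exact_mod_cast this
  have p1 := apery_pos_Asm r s (n + d)
  have hκ : (3.25 : ℝ) ≤ r * j * d ^ 2 / (2 * ((n : ℝ) + 2 * d) ^ 2) := by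
    have a1 : (n : ℝ) ≤ 9 * (j + 1) * d := by exact_mod_cast n2
    have a2 : 20 * (d : ℝ) ≤ n := by exact_mod_cast n3
    have a3 : (4 : ℝ) ≤ j := by exact_mod_cast j5
    have a4 : 1000 * (j : ℝ) ≤ r := by exact_mod_cast j6
    have a5 : 16 * (j : ℝ) ≤ n := by exact_mod_cast n1
    have d0 : (0 : ℝ) ≤ d := d.cast_nonneg
    have n0 : (0 : ℝ) < n + 2 * d := by linarith
    rw [le_div_iff₀ (by positivity)]
    have b1 : (n : ℝ) + 2 * d ≤ 12.375 * j * d := by nlinarith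
    have b2 : ((n : ℝ) + 2 * d) ^ 2 ≤ (12.375 * j * d) ^ 2 := by gcongr
    have b3 : 1000 * (j : ℝ) * j * d ^ 2 ≤ r * j * d ^ 2 := by gcongr
    nlinarith [sq_nonneg ((j : ℝ) * d)]
  have hexp : Real.exp (-(r * j * d ^ 2 / (2 * ((n : ℝ) + 2 * d) ^ 2))) < 1 / 25 := by
    have a : (25 : ℝ) < Real.exp 3.25 := by
      have e1 := Real.exp_one_gt_d9
      have e2 : (1.25 : ℝ) + 0.03 ≤ Real.exp 0.25 := by
        have := Real.quadratic_le_exp_of_nonneg (x := 0.25) (by norm_num)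
        linarith
      have e3 : Real.exp 3.25 = Real.exp 1 ^ 3 * Real.exp 0.25 := by
        rw [← Real.exp_nat_mul, ← Real.exp_add]; norm_num
      have e4 : (2.7 : ℝ) ^ 3 ≤ Real.exp 1 ^ 3 := by gcongr; linarith
      rw [e3]
      nlinarith
    rw [Real.exp_neg, inv_eq_one_div]
    exact one_div_lt_one_div_of_lt (by norm_num) (a.trans_le (Real.exp_le_exp.2 hκ))
  have s1 := sp n d
  have s2 : (apery r s n : ℝ) * apery r s (n + 2 * d) ≤
      5 * tN r s n j * (5 * tN r s (n + 2 * d) j) :=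
    mul_le_mul u0 u2 (by positivity) (by positivity)
  have s3 : (tN r s (n + d) j : ℝ) ^ 2 ≤ (apery r s (n + d) : ℝ) ^ 2 := by gcongr
  have s4 : (tN r s (n + d) j : ℝ) ^ 2 * Real.exp (-(r * j * d ^ 2 / (2 * ((n : ℝ) + 2 * d) ^ 2))) ≤
      (apery r s (n + d) : ℝ) ^ 2 * Real.exp (-(r * j * d ^ 2 / (2 * ((n : ℝ) + 2 * d) ^ 2))) := by
    gcongr
  nlinarith [mul_lt_mul_of_pos_left hexp (pow_pos p1 2)]

end Pool.Agent.MP_6026f4_co.Q

end
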